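import Pool.Agent.PP72.Local

/-!
Small lemmas: coefficients of the forms, points near a direction.
-/

open Polynomial Finset Filter

namespace PP72

variable {α : ℝ} {d : ℕ} {h : ℕ → ℝ[X]}

theorem Pk.rat_coeffs (H : Pk α d h) (k : ℕ) (hk : k ≤ d) : ∃ c : ℕ → ℚ,
    (∀ i, (h k).coeff i = c i) ∧ ∀ T : ℝ, (h k).eval T = ∑ i ∈ range (k + 1), (c i : ℝ) * T ^ i := by
  obtain ⟨P, hP⟩ := H.rational k (by simp; omega)
  have hc : ∀ i, (h k).coeff i = ((P.coeff i : ℚ) : ℝ) := by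
    intro i
    rw [hP, coeff_map]
    rfl
  refine ⟨fun i => P.coeff i, hc, fun T => ?_⟩
  rw [Polynomial.eval_eq_sum_range' (Nat.lt_succ_of_le (H.deg k))]
  apply Finset.sum_congr rfl
  intro i _
  rw [hc]

theorem near_abs {α θ ε : ℝ} {P : ℕ × ℕ} (hP : P ∈ Near α θ ε) :
    0 < P.1 ∧ |(P.2 : ℝ) - θ * P.1| ≤ ε * P.1 := by
  obtain ⟨_, hP2, hP3⟩ := hP
  refine ⟨hP2, ?_⟩
  have hx : (0 : ℝ) < P.1 := by exact_mod_cast hP2
  have e1 : (P.2 : ℝ) - θ * P.1 = ((P.2 : ℝ) / P.1 - θ) * P.1 := by field_simp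
  rw [e1, abs_mul, abs_of_pos hx]
  exact (mul_lt_mul_of_pos_right hP3 hx).le

theorem near_mono {α θ ε ε' : ℝ} (hε : ε ≤ ε') : Near α θ ε ⊆ Near α θ ε' := by
  rintro P ⟨h1, h2, h3⟩
  exact ⟨h1, h2, h3.trans_le hε⟩

theorem irr_D_ne {θ : ℝ} (hθ : Irrational θ) (β : ℚ) : 2 * θ + β ≠ 0 := by
  intro h0
  apply hθ
  refine ⟨-β / 2, ?_⟩
  push_cast
  linarith

/-- rational points of the sector as slopes of lattice points -/
theorem rat_slope {α : ℝ} {r : ℚ} (hr0 : 0 ≤ r) (hrα : (r : ℝ) ≤ α) :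
    (r.den, r.num.toNat) ∈ Sec α ∧ (r : ℝ) = ((r.num.toNat : ℕ) : ℝ) / ((r.den : ℕ) : ℝ) := by
  have h1 : ((r.num.toNat : ℕ) : ℤ) = r.num := Int.toNat_of_nonneg (Rat.num_nonneg.2 hr0)
  have h2 : (r : ℝ) = ((r.num.toNat : ℕ) : ℝ) / ((r.den : ℕ) : ℝ) := by
    have h3 : ((r.num.toNat : ℕ) : ℝ) = (r.num : ℝ) := by exact_mod_cast h1
    rw [h3]
    exact_mod_cast (Rat.num_div_den r).symm
  have hden : (0 : ℝ) < (r.den : ℝ) := by exact_mod_cast r.den_pos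
  refine ⟨?_, h2⟩
  change ((r.num.toNat : ℕ) : ℝ) ≤ α * (r.den : ℝ)
  rw [h2, div_le_iff₀ hden] at hrα
  exact hrα

end PP72
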