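import Pool.Agent.PP72.Thin

/-!
Packing polynomials on irrational sectors: rationality of the coefficients, congruences, and the
lemma on arithmetic progressions.
-/

open Polynomial Finset

namespace PP72

/-- the lattice points of the sector `0 ≤ y ≤ α x` -/
def Sec (α : ℝ) : Set (ℕ × ℕ) := {P | (P.2 : ℝ) ≤ α * P.1}

/-- the polynomial function `∑_{k ≤ d} ∑_{i ≤ k} (h k)_i x^(k-i) y^i` -/
noncomputable def ev (d : ℕ) (h : ℕ → ℝ[X]) (x y : ℝ) : ℝ :=
  ∑ k ∈ range (d + 1), ∑ i ∈ range (k + 1), (h k).coeff i * x ^ (k - i) * y ^ i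

/-- the data of a packing polynomial on the sector -/
structure Pk (α : ℝ) (d : ℕ) (h : ℕ → ℝ[X]) : Prop where
  pos : 0 < α
  irr : Irrational α
  deg : ∀ k, (h k).natDegree ≤ k
  inj : ∀ P ∈ Sec α, ∀ Q ∈ Sec α, ev d h P.1 P.2 = ev d h Q.1 Q.2 → P = Q
  val : ∀ P ∈ Sec α, ∃ n : ℕ, ev d h P.1 P.2 = n
  surj : ∀ n : ℕ, ∃ P ∈ Sec α, ev d h P.1 P.2 = n

variable {α : ℝ} {d : ℕ} {h : ℕ → ℝ[X]}

theorem ev_eq (hdeg : ∀ k, (h k).natDegree ≤ k) {x y : ℝ} (hx : x ≠ 0) :
    ev d h x y = ∑ k ∈ range (d + 1), x ^ k * (h k).eval (y / x) := by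
  unfold ev
  apply Finset.sum_congr rfl
  intro k _
  rw [Polynomial.eval_eq_sum_range' (Nat.lt_succ_of_le (hdeg k)), Finset.mul_sum]
  apply Finset.sum_congr rfl
  intro i hi
  have hik : i ≤ k := Nat.lt_succ_iff.1 (mem_range.1 hi)
  have : x ^ k = x ^ (k - i) * x ^ i := by rw [← pow_add, Nat.sub_add_cancel hik]
  rw [this, div_pow]
  have hxi : x ^ i ≠ 0 := pow_ne_zero _ hx
  field_simp

theorem sec_smul {α : ℝ} {P : ℕ × ℕ} (hP : P ∈ Sec α) (n : ℕ) : (n * P.1, n * P.2) ∈ Sec α := by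
  have hP' : (P.2 : ℝ) ≤ α * P.1 := hP
  change (((n * P.2 : ℕ)) : ℝ) ≤ α * ((n * P.1 : ℕ) : ℝ)
  push_cast
  have : (0 : ℝ) ≤ n := Nat.cast_nonneg _
  nlinarith

theorem sec_add {α : ℝ} {P Q : ℕ × ℕ} (hP : P ∈ Sec α) (hQ : Q ∈ Sec α) :
    (P.1 + Q.1, P.2 + Q.2) ∈ Sec α := by
  have hP' : (P.2 : ℝ) ≤ α * P.1 := hP
  have hQ' : (Q.2 : ℝ) ≤ α * Q.1 := hQ
  change (((P.2 + Q.2 : ℕ)) : ℝ) ≤ α * ((P.1 + Q.1 : ℕ) : ℝ)
  push_cast
  nlinarith

/-- a real polynomial taking rational values at infinitely many rational points is rational -/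
theorem rational_of_infinite (p : ℝ[X]) (S : Set ℚ) (hS : S.Infinite)
    (h : ∀ r ∈ S, ∃ c : ℚ, p.eval (r : ℝ) = c) :
    ∃ p' : ℚ[X], p = p'.map (algebraMap ℚ ℝ) := by
  obtain ⟨π, hπ⟩ := LinearMap.exists_leftInverse_of_injective (Algebra.linearMap ℚ ℝ)
    (LinearMap.ker_eq_bot.2 (algebraMap ℚ ℝ).injective)
  have hπ1 : ∀ c : ℚ, π (c : ℝ) = c := by
    intro c
    have := LinearMap.congr_fun hπ c
    simpa using this
  set p' : ℚ[X] := ∑ i ∈ range (p.natDegree + 1), C (π (p.coeff i)) * X ^ i with hp'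
  refine ⟨p', ?_⟩
  have hinf : ((fun r : ℚ => (r : ℝ)) '' S).Infinite :=
    hS.image (Rat.cast_injective.injOn)
  apply Polynomial.eq_of_infinite_eval_eq
  apply hinf.mono
  rintro _ ⟨r, hr, rfl⟩
  obtain ⟨c, hc⟩ := h r hr
  simp only [Set.mem_ofPred_eq]
  rw [hc]
  have h1 : p'.eval r = c := by
    rw [hp', Polynomial.eval_finsetSum]
    simp only [eval_mul, eval_C, eval_pow, eval_X]
    rw [← hπ1 c, ← hc, Polynomial.eval_eq_sum_range, map_sum]
    apply Finset.sum_congr rfl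
    intro i _
    have : p.coeff i * (r : ℝ) ^ i = (r ^ i : ℚ) • p.coeff i := by
      rw [Rat.smul_def]
      push_cast
      ring
    rw [this, map_smul, smul_eq_mul, mul_comm]
  rw [eval_map_algebraMap]
  have h2 : aeval (r : ℝ) p' = ((p'.eval r : ℚ) : ℝ) := by
    have := Polynomial.aeval_algebraMap_apply ℝ r p'
    simpa using this
  rw [h2, h1]

/-- rational slopes strictly inside the sector -/
theorem Pk.rat_eval (H : Pk α d h) (x y : ℕ) (hx : 0 < x) (hP : (x, y) ∈ Sec α) (k : ℕ)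
    (hk : k ∈ range (d + 1)) : ∃ c : ℚ, (h k).eval ((y : ℝ) / x) = c := by
  set q : ℝ[X] := ∑ k ∈ range (d + 1), C ((x : ℝ) ^ k * (h k).eval ((y : ℝ) / x)) * X ^ k with hq
  have hx' : (x : ℝ) ≠ 0 := by
    have : (0 : ℝ) < x := by exact_mod_cast hx
    exact this.ne'
  obtain ⟨q', hq'⟩ := rational_of_infinite q {r : ℚ | ∃ n : ℕ, 0 < n ∧ r = n} (by
    apply Set.infinite_of_injective_forall_mem (f := fun n : ℕ => ((n + 1 : ℕ) : ℚ))
    · intro a b hab
      simpa using hab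
    · intro n
      exact ⟨n + 1, Nat.succ_pos _, rfl⟩) (by
    rintro r ⟨n, hn, rfl⟩
    obtain ⟨v, hv⟩ := H.val (n * x, n * y) (sec_smul hP n)
    refine ⟨v, ?_⟩
    have hn' : (n : ℝ) ≠ 0 := by
      have : (0 : ℝ) < n := by exact_mod_cast hn
      exact this.ne'
    simp only at hv
    rw [ev_eq H.deg (by push_cast; exact mul_ne_zero hn' hx')] at hv
    rw [Rat.cast_natCast, Rat.cast_natCast, ← hv, hq, eval_finsetSum]
    apply Finset.sum_congr rfl
    intro j _
    simp only [eval_mul, eval_C, eval_pow, eval_X]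
    have : ((n * y : ℕ) : ℝ) / ((n * x : ℕ) : ℝ) = (y : ℝ) / x := by
      push_cast
      field_simp
    rw [this]
    push_cast
    ring)
  have h1 : q.coeff k = (x : ℝ) ^ k * (h k).eval ((y : ℝ) / x) := by
    rw [hq, finsetSum_coeff]
    simp only [coeff_C_mul, coeff_X_pow]
    rw [Finset.sum_eq_single k]
    · simp
    · intro b _ hb
      rw [if_neg (Ne.symm hb)]
      simp
    · intro hb
      exact absurd hk hb
  have h2 : q.coeff k = ((q'.coeff k : ℚ) : ℝ) := by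
    rw [hq', coeff_map]
    rfl
  refine ⟨q'.coeff k / (x : ℚ) ^ k, ?_⟩
  push_cast
  rw [← h2, h1]
  field_simp

theorem infinite_slopes (hα : 0 < α) : {r : ℚ | 0 ≤ r ∧ (r : ℝ) ≤ α}.Infinite := by
  obtain ⟨a, ha⟩ := exists_nat_ge (1 / α)
  apply Set.infinite_of_injective_forall_mem (f := fun n : ℕ => (1 : ℚ) / ((n + a + 1 : ℕ) : ℚ))
  · intro m n hmn
    simp only [one_div, inv_inj] at hmn
    have : m + a + 1 = n + a + 1 := by exact_mod_cast hmn
    omega
  · intro n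
    refine ⟨by positivity, ?_⟩
    have h1 : (1 / α : ℝ) ≤ ((n + a + 1 : ℕ) : ℝ) := by
      push_cast
      have : (0 : ℝ) ≤ n := Nat.cast_nonneg _
      linarith
    rw [div_le_iff₀ hα] at h1
    push_cast at h1 ⊢
    rw [div_le_iff₀ (by positivity)]
    linarith

/-- the coefficients of a packing polynomial are rational -/
theorem Pk.rational (H : Pk α d h) (k : ℕ) (hk : k ∈ range (d + 1)) :
    ∃ p' : ℚ[X], h k = p'.map (algebraMap ℚ ℝ) := by
  apply rational_of_infinite (h k) _ (infinite_slopes H.pos)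
  rintro r ⟨hr0, hrα⟩
  have h1 : ((r.num.toNat : ℕ) : ℤ) = r.num := Int.toNat_of_nonneg (Rat.num_nonneg.2 hr0)
  have h2 : (r : ℝ) = ((r.num.toNat : ℕ) : ℝ) / ((r.den : ℕ) : ℝ) := by
    have h3 : ((r.num.toNat : ℕ) : ℝ) = (r.num : ℝ) := by exact_mod_cast h1
    rw [h3]
    exact_mod_cast (Rat.num_div_den r).symm
  have hden : (0 : ℝ) < (r.den : ℝ) := by exact_mod_cast r.den_pos
  rw [h2]
  apply H.rat_eval r.den r.num.toNat r.den_pos _ k hk
  change (((r.num.toNat : ℕ)) : ℝ) ≤ α * (r.den : ℝ)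
  rw [h2, div_le_iff₀ hden] at hrα
  exact hrα

/-- a common denominator -/
theorem Pk.exists_den (H : Pk α d h) : ∃ D : ℕ, 0 < D ∧ ∃ z : ℕ → ℕ → ℤ,
    ∀ k ∈ range (d + 1), ∀ i, (D : ℝ) * (h k).coeff i = z k i := by
  classical
  have hr := H.rational
  choose! p' hp' using hr
  set D : ℕ := ∏ k ∈ range (d + 1), ∏ i ∈ range (k + 1), ((p' k).coeff i).den with hD
  have hDpos : 0 < D := by
    rw [hD]
    exact Finset.prod_pos fun k _ => Finset.prod_pos fun i _ => Rat.den_pos _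
  refine ⟨D, hDpos, fun k i => ((D : ℚ) * (p' k).coeff i).num, ?_⟩
  intro k hk i
  have h1 : (h k).coeff i = (((p' k).coeff i : ℚ) : ℝ) := by
    conv_lhs => rw [hp' k hk]
    rw [coeff_map]
    rfl
  have h2 : ((D : ℚ) * (p' k).coeff i).den = 1 := by
    by_cases hi : i ∈ range (k + 1)
    · have hdvd : ((p' k).coeff i).den ∣ D := by
        rw [hD]
        exact (Finset.dvd_prod_of_mem (fun i => ((p' k).coeff i).den) hi).trans
          (Finset.dvd_prod_of_mem (fun k => ∏ i ∈ range (k + 1), ((p' k).coeff i).den) hk)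
      obtain ⟨m, hm⟩ := hdvd
      have h3 : (D : ℚ) * (p' k).coeff i = ((m * ((p' k).coeff i).num : ℤ) : ℚ) := by
        rw [hm]
        push_cast
        have := Rat.mul_den_eq_num ((p' k).coeff i)
        rw [← this]
        ring
      rw [h3]
      exact Rat.den_intCast _
    · have h4 : (p' k).coeff i = 0 := by
        have h5 : (h k).coeff i = 0 := by
          apply coeff_eq_zero_of_natDegree_lt
          have := H.deg k
          rw [mem_range] at hi
          omega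
        rw [h1] at h5
        exact_mod_cast h5
      rw [h4]
      simp
  rw [h1]
  have h3 : (((D : ℚ) * (p' k).coeff i).num : ℚ) = (D : ℚ) * (p' k).coeff i := by
    have := Rat.num_div_den ((D : ℚ) * (p' k).coeff i)
    rw [h2] at this
    simpa using this
  have h4 : ((((D : ℚ) * (p' k).coeff i).num : ℚ) : ℝ) = ((D : ℚ) * (p' k).coeff i : ℚ) := by
    rw [h3]
  push_cast at h4
  rw [← h4]

/-- congruences between the values -/
theorem Pk.exists_modulus (H : Pk α d h) : ∃ D : ℕ, 0 < D ∧ ∀ (M : ℕ) (x y a b : ℕ),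
    ∃ z : ℤ, (D : ℝ) * (ev d h ((x + M * a : ℕ) : ℝ) ((y + M * b : ℕ) : ℝ) -
      ev d h x y) = M * z := by
  obtain ⟨D, hD, z, hz⟩ := H.exists_den
  refine ⟨D, hD, fun M x y a b => ?_⟩
  have key : ∀ x y : ℕ, (D : ℝ) * ev d h x y =
      ((∑ k ∈ range (d + 1), ∑ i ∈ range (k + 1), z k i * (x : ℤ) ^ (k - i) * (y : ℤ) ^ i : ℤ) : ℝ) := by
    intro x y
    unfold ev
    push_cast
    rw [Finset.mul_sum]
    apply Finset.sum_congr rfl
    intro k hk
    rw [Finset.mul_sum]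
    apply Finset.sum_congr rfl
    intro i _
    rw [← hz k hk i]
    ring
  have hdvd : (M : ℤ) ∣
      (∑ k ∈ range (d + 1), ∑ i ∈ range (k + 1),
        z k i * ((x + M * a : ℕ) : ℤ) ^ (k - i) * ((y + M * b : ℕ) : ℤ) ^ i) -
      ∑ k ∈ range (d + 1), ∑ i ∈ range (k + 1), z k i * (x : ℤ) ^ (k - i) * (y : ℤ) ^ i := by
    rw [← Finset.sum_sub_distrib]
    apply Finset.dvd_sum
    intro k _
    rw [← Finset.sum_sub_distrib]
    apply Finset.dvd_sum
    intro i _
    have h1 : ((x + M * a : ℕ) : ℤ) ≡ (x : ℤ) [ZMOD M] := by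
      push_cast
      exact (Int.modEq_iff_dvd.2 ⟨-a, by ring⟩)
    have h2 : ((y + M * b : ℕ) : ℤ) ≡ (y : ℤ) [ZMOD M] := by
      push_cast
      exact (Int.modEq_iff_dvd.2 ⟨-b, by ring⟩)
    have h3 := ((Int.ModEq.refl (z k i)).mul (h1.pow (k - i))).mul (h2.pow i)
    exact (Int.modEq_iff_dvd.1 h3.symm)
  obtain ⟨w, hw⟩ := hdvd
  refine ⟨w, ?_⟩
  rw [mul_sub, key, key, ← Int.cast_sub, hw]
  push_cast
  ring

/-- **Arithmetic progression lemma.**  The polynomial cannot be affine along a sequence of lattice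
points of the sector which misses infinitely many points of each progression. -/
theorem Pk.no_progression (H : Pk α d h) (c : ℕ → ℕ × ℕ) (hc : ∀ m, c m ∈ Sec α)
    (hc01 : c 0 ≠ c 1) (A B : ℝ) (hlin : ∀ m : ℕ, ev d h (c m).1 (c m).2 = A * m + B)
    (e : ℕ × ℕ) (he : e ∈ Sec α) (hne : e ≠ 0)
    (hoff : ∀ M : ℕ, 0 < M → ∀ K : ℕ, ∃ n, K ≤ n ∧
      ((c 0).1 + M * (n * e.1), (c 0).2 + M * (n * e.2)) ∉ Set.range c) : False := by
  obtain ⟨D, hD, hmod⟩ := H.exists_modulus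
  obtain ⟨n0, hn0⟩ := H.val (c 0) (hc 0)
  obtain ⟨n1, hn1⟩ := H.val (c 1) (hc 1)
  have hB : B = n0 := by
    have := hlin 0
    rw [hn0] at this
    push_cast at this
    linarith
  have hA : A = ((n1 : ℤ) - n0 : ℤ) := by
    have := hlin 1
    rw [hn1] at this
    push_cast at this ⊢
    linarith
  set g : ℤ := (n1 : ℤ) - n0 with hg
  have hgpos : 0 < g := by
    rcases lt_trichotomy g 0 with h1 | h1 | h1
    · exfalso
      obtain ⟨m, hm⟩ := exists_nat_gt (B + 1)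
      obtain ⟨v, hv⟩ := H.val (c m) (hc m)
      have h2 := hlin m
      rw [hv, hA] at h2
      have h3 : (g : ℝ) ≤ -1 := by exact_mod_cast (by omega : g ≤ -1)
      have h4 : (0 : ℝ) ≤ v := Nat.cast_nonneg _
      have h5 : (0 : ℝ) ≤ m := Nat.cast_nonneg _
      nlinarith
    · exfalso
      apply hc01
      apply H.inj _ (hc 0) _ (hc 1)
      have : (n1 : ℤ) = n0 := by omega
      rw [hn0, hn1]
      exact_mod_cast this.symm
    · exact h1
  obtain ⟨G, hG⟩ := Int.eq_ofNat_of_zero_le hgpos.le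
  have hGpos : 0 < G := by
    have : (0 : ℤ) < (G : ℤ) := by rw [← hG]; exact hgpos
    exact_mod_cast this
  set M : ℕ := G * D with hM
  have hMpos : 0 < M := Nat.mul_pos hGpos hD
  set pt : ℕ → ℕ × ℕ := fun n => ((c 0).1 + M * (n * e.1), (c 0).2 + M * (n * e.2)) with hpt
  have hptS : ∀ n, pt n ∈ Sec α := by
    intro n
    have h1 := sec_smul (sec_smul he n) M
    exact sec_add (hc 0) h1
  have hv : ∀ n, ∃ v : ℕ, ev d h (pt n).1 (pt n).2 = v := fun n => H.val _ (hptS n)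
  choose v hv using hv
  have hptinj : Function.Injective pt := by
    intro a b hab
    simp only [hpt, Prod.mk.injEq] at hab
    obtain ⟨h1, h2⟩ := hab
    have h1' : M * (a * e.1) = M * (b * e.1) := by omega
    have h2' : M * (a * e.2) = M * (b * e.2) := by omega
    have h3 : a * e.1 = b * e.1 := Nat.eq_of_mul_eq_mul_left hMpos h1'
    have h4 : a * e.2 = b * e.2 := Nat.eq_of_mul_eq_mul_left hMpos h2'
    by_cases he1 : e.1 = 0
    · have he2 : e.2 ≠ 0 := by
        intro he2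
        exact hne (Prod.ext he1 he2)
      exact Nat.eq_of_mul_eq_mul_right (Nat.pos_of_ne_zero he2) h4
    · exact Nat.eq_of_mul_eq_mul_right (Nat.pos_of_ne_zero he1) h3
  have hvinj : Function.Injective v := by
    intro a b hab
    apply hptinj
    apply H.inj _ (hptS a) _ (hptS b)
    rw [hv a, hv b, hab]
  have hvlim : Filter.Tendsto v Filter.atTop Filter.atTop := hvinj.nat_tendsto_atTop
  obtain ⟨K, hK⟩ := Filter.eventually_atTop.1 (Filter.tendsto_atTop.1 hvlim n0)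
  obtain ⟨n, hnK, hn⟩ := hoff M hMpos K
  have h1 : n0 ≤ v n := hK n hnK
  obtain ⟨z, hz⟩ := hmod M (c 0).1 (c 0).2 (n * e.1) (n * e.2)
  have h2 : ev d h (((c 0).1 + M * (n * e.1) : ℕ) : ℝ) (((c 0).2 + M * (n * e.2) : ℕ) : ℝ) = v n :=
    hv n
  rw [h2, hn0] at hz
  have h3 : ((v n : ℝ) - n0) = G * z := by
    have hD' : (D : ℝ) ≠ 0 := by exact_mod_cast hD.ne'
    have h4 : (D : ℝ) * ((v n : ℝ) - n0) = D * (G * z) := by
      rw [hz, hM]
      push_cast
      ring
    exact mul_left_cancel₀ hD' h4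
  have h4 : ((v n : ℤ) - n0) = G * z := by exact_mod_cast h3
  have hz0 : 0 ≤ z := by
    by_contra hz0
    push Not at hz0
    have h5 : (0 : ℤ) ≤ (v n : ℤ) - n0 := by
      have : (n0 : ℤ) ≤ v n := by exact_mod_cast h1
      linarith
    have h6 : (0 : ℤ) < G := by exact_mod_cast hGpos
    nlinarith
  obtain ⟨m, hm⟩ := Int.eq_ofNat_of_zero_le hz0
  apply hn
  refine ⟨m, ?_⟩
  apply H.inj _ (hc m) _ (hptS n)
  rw [hlin m, hv n, hA, hB]
  have h7 : (v n : ℝ) = n0 + G * z := by linarith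
  rw [h7, hm, hG]
  push_cast
  ring

end PP72
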