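import Pool.Agent.PP72.BdGap

/-!
The boundary direction `α`, a simple zero of the leading form: thinness follows from a lower bound
for the distance of `x (α x - y)` to a certain number.
-/

open Polynomial Finset Filter

namespace PP72

variable {α : ℝ} {d : ℕ} {h : ℕ → ℝ[X]}

/-- small values force `x (α x - y)` to be close to `ρ` -/
theorem Pk.close (K : ℕ) (H : Pk α (K + 2) h) (h2 : (h (K + 2)).eval α = 0)
    (h1 : (h (K + 1)).eval α = 0) (hb : (derivative (h (K + 2))).eval α < 0)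
    (h0 : (h K).eval α ≤ 0) :
    ∃ X0 : ℕ, ∀ x y : ℕ, X0 < x → (y : ℝ) ≤ α * x →
      x * (α * x - y) < (h K).eval α / (derivative (h (K + 2))).eval α + 1 →
      (fv (K + 2) h (x, y) / (x : ℝ) ^ K) ^ 3 * x < 1 →
      (x : ℝ) * (x * (α * x - y) - (h K).eval α / (derivative (h (K + 2))).eval α) ^ 4 < 1 := by
  obtain ⟨M, hM, hE⟩ := H.expand K h2 h1
  set b := -(derivative (h (K + 2))).eval α with hbdef
  have hb0 : 0 < b := by rw [hbdef]; linarith
  have hρ : (h K).eval α / (derivative (h (K + 2))).eval α = -(h K).eval α / b := by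
    rw [hbdef, neg_div_neg_eq]
  rw [hρ]
  set e := -(h K).eval α with he
  have he0 : 0 ≤ e := by rw [he]; linarith
  have he' : (h K).eval α = -e := by rw [he]; ring
  set ρ := e / b with hρdef
  have hρ0 : 0 ≤ ρ := by positivity
  have hbρ : b * ρ = e := by rw [hρdef]; field_simp
  set R := ρ + 1 with hR
  have hR0 : 0 ≤ R := by positivity
  set M' := M * (R ^ 2 + R + 1) with hM'
  have hM'0 : 0 ≤ M' := by positivity
  set η := b ^ 4 / 32 with hη
  have hη0 : 0 < η := by positivity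
  obtain ⟨X0, hX0⟩ := exists_nat_ge (1 / η ^ 3 + M' ^ 4 / η)
  refine ⟨X0, fun x y hx hy hw hG => ?_⟩
  have hxp : 0 < x := by omega
  have hxpos : (0 : ℝ) < x := by exact_mod_cast hxp
  have hx1' : (1 : ℝ) ≤ x := by exact_mod_cast hxp
  have hXx : (X0 : ℝ) ≤ x := by exact_mod_cast hx.le
  have q1 : 0 ≤ 1 / η ^ 3 := by positivity
  have q2 : 0 ≤ M' ^ 4 / η := by positivity
  have hxa : 1 ≤ η ^ 3 * x := by
    have h3 : 1 / η ^ 3 ≤ x := by linarith
    rw [div_le_iff₀ (by positivity)] at h3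
    linarith
  have hxb : M' ^ 4 ≤ η * x := by
    have h3 : M' ^ 4 / η ≤ x := by linarith
    rw [div_le_iff₀ hη0] at h3
    linarith
  have hF := H.fv_nonneg (P := (x, y)) hy
  have hEE := hE x y hxp hy
  rw [he'] at hEE
  set δ := α * x - y with hδ
  have hδ0 : 0 ≤ δ := by rw [hδ]; linarith
  have hδ1 : δ ≤ R / x := by
    rw [le_div_iff₀ hxpos]
    linarith
  have hδ2 : δ ≤ R := hδ1.trans (div_le_self hR0 hx1')
  have hδ3 : δ ^ 2 ≤ R ^ 2 / x := by
    calc δ ^ 2 = δ * δ := by ring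
      _ ≤ R * (R / x) := by gcongr
      _ = R ^ 2 / x := by ring
  have hsum : M * (δ ^ 2 + δ + 1 / x) ≤ M' / x := by
    have h3 : M' / x = M * (R ^ 2 / x + R / x + 1 / x) := by rw [hM']; ring
    rw [h3]
    gcongr
  have hxK : 0 < (x : ℝ) ^ K := pow_pos hxpos _
  set G := fv (K + 2) h (x, y) / (x : ℝ) ^ K with hGdef
  have hG0 : 0 ≤ G := by positivity
  have hGF : fv (K + 2) h (x, y) = (x : ℝ) ^ K * G := by rw [hGdef]; field_simp
  set z := x * δ - ρ with hz
  have t3 : |b * z| ≤ G + M' / x := by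
    have h3 : |(x : ℝ) ^ K * (G - b * z)| ≤ (x : ℝ) ^ K * (M' / x) := by
      have e1 : (x : ℝ) ^ K * (G - b * z) =
          fv (K + 2) h (x, y) - (x : ℝ) ^ K * (b * (x * δ) + -e) := by
        rw [hGF, hz, mul_sub b, hbρ]
        ring
      rw [e1]
      exact hEE.trans (by gcongr)
    rw [abs_mul, abs_of_pos hxK] at h3
    have h4 := le_of_mul_le_mul_left h3 hxK
    have h5 := abs_le.1 h4
    rw [abs_le]
    constructor
    · linarith
    · linarith
  have t1 : G ^ 4 * x ≤ η := by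
    apply le_of_pow_le_pow_left₀ (n := 3) (by norm_num) hη0.le
    calc (G ^ 4 * (x : ℝ)) ^ 3 = (G ^ 3 * (x : ℝ)) ^ 4 / (x : ℝ) := by
          field_simp
      _ ≤ 1 / (x : ℝ) := by
          gcongr
          exact pow_le_one₀ (by positivity) hG.le
      _ ≤ η ^ 3 := by
          rw [div_le_iff₀ hxpos]
          exact hxa
  have t2 : (M' / x) ^ 4 * x ≤ η := by
    calc (M' / (x : ℝ)) ^ 4 * (x : ℝ) = M' ^ 4 / (x : ℝ) ^ 3 := by field_simp
      _ ≤ M' ^ 4 / (x : ℝ) := by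
          gcongr
          calc (x : ℝ) = (x : ℝ) ^ 1 := (pow_one _).symm
            _ ≤ (x : ℝ) ^ 3 := pow_le_pow_right₀ hx1' (by norm_num)
      _ ≤ η := by
          rw [div_le_iff₀ hxpos]
          exact hxb
  have t4 : (b * z) ^ 4 ≤ 8 * (G ^ 4 + (M' / x) ^ 4) := by
    calc (b * z) ^ 4 = |b * z| ^ 4 := by
          rw [pow_abs, abs_of_nonneg (by positivity)]
      _ ≤ (G + M' / x) ^ 4 := by gcongr
      _ ≤ 2 ^ (4 - 1) * (G ^ 4 + (M' / x) ^ 4) := add_pow_le hG0 (by positivity) 4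
      _ = 8 * (G ^ 4 + (M' / x) ^ 4) := by norm_num
  have t5 : (x : ℝ) * z ^ 4 * b ^ 4 ≤ 1 / 2 * b ^ 4 := by
    calc (x : ℝ) * z ^ 4 * b ^ 4 = (b * z) ^ 4 * x := by ring
      _ ≤ 8 * (G ^ 4 + (M' / x) ^ 4) * x := by gcongr
      _ = 8 * (G ^ 4 * x + (M' / x) ^ 4 * x) := by ring
      _ ≤ 8 * (η + η) := by gcongr
      _ = 1 / 2 * b ^ 4 := by rw [hη]; ring
  have t6 := le_of_mul_le_mul_right t5 (by positivity : 0 < b ^ 4)
  linarith

/-- the boundary direction, a simple zero: the final form -/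
theorem Pk.near_bd_final (K : ℕ) (hK : 1 ≤ K) (H : Pk α (K + 2) h) (hne : h (K + 2) ≠ 0)
    (h2 : (h (K + 2)).eval α = 0) (h1 : (h (K + 1)).eval α = 0)
    (hb : (derivative (h (K + 2))).eval α < 0) (h0 : (h K).eval α ≤ 0) (X0 : ℕ)
    (hfar : ∀ x y : ℕ, X0 < x → (y : ℝ) ≤ α * x →
      1 ≤ (x : ℝ) * (x * (α * x - y) -
        (h K).eval α / (derivative (h (K + 2))).eval α) ^ 4) :
    ∃ r : ℝ, 0 < r ∧ Thin (fv (K + 2) h) (Near α α r) := by
  obtain ⟨X1, hX1⟩ := H.close K h2 h1 hb h0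
  have hbig : ∀ x y : ℕ, max X0 X1 < x → (y : ℝ) ≤ α * x →
      x * (α * x - y) < (h K).eval α / (derivative (h (K + 2))).eval α + 1 →
      1 ≤ (fv (K + 2) h (x, y) / (x : ℝ) ^ K) ^ 3 * x := by
    intro x y hx hy hw
    have h3 := le_max_left X0 X1
    have h4 := le_max_right X0 X1
    by_contra hcon
    push Not at hcon
    have h5 := hX1 x y (by omega) hy hw hcon
    have h6 := hfar x y (by omega) hy
    linarith
  apply H.near_bd_core K hK h2 h1 hb h0 one_pos (max X0 X1)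
  rcases Nat.lt_or_ge K 2 with hK2 | hK2
  · obtain rfl : K = 1 := by omega
    apply Pk.thin_cubic H hne h2
    intro x y hx hy hw
    have h3 := hbig x y hx hy hw
    have hxpos : (0 : ℝ) < x := by
      have : 0 < x := by omega
      exact_mod_cast this
    rw [pow_one, div_pow, div_mul_eq_mul_div, le_div_iff₀ (by positivity)] at h3
    have h4 : (x : ℝ) ^ 2 * x ≤ fv 3 h (x, y) ^ 3 * x := by
      calc (x : ℝ) ^ 2 * x = 1 * (x : ℝ) ^ 3 := by ring
        _ ≤ fv 3 h (x, y) ^ 3 * x := h3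
    exact le_of_mul_le_mul_right h4 hxpos
  · apply H.thin_small
    intro x y hx hy hw
    have h3 := hbig x y hx hy hw
    have hxp : 0 < x := by omega
    have hxpos : (0 : ℝ) < x := by exact_mod_cast hxp
    have hx1' : (1 : ℝ) ≤ x := by exact_mod_cast hxp
    have hF := H.fv_nonneg (P := (x, y)) hy
    by_contra hcon
    push Not at hcon
    have hxK : 0 < (x : ℝ) ^ K := pow_pos hxpos _
    have h4 : (x : ℝ) ^ 2 ≤ (x : ℝ) ^ K := pow_le_pow_right₀ hx1' hK2
    have h5 : fv (K + 2) h (x, y) / (x : ℝ) ^ K < 1 / x := by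
      rw [div_lt_div_iff₀ hxK hxpos]
      calc fv (K + 2) h (x, y) * x < x * x := by gcongr
        _ = (x : ℝ) ^ 2 := by ring
        _ ≤ (x : ℝ) ^ K := h4
        _ = 1 * (x : ℝ) ^ K := (one_mul _).symm
    have h6 : 0 ≤ fv (K + 2) h (x, y) / (x : ℝ) ^ K := by positivity
    have h7 : (fv (K + 2) h (x, y) / (x : ℝ) ^ K) ^ 3 < (1 / (x : ℝ)) ^ 3 := by gcongr
    have h8 : (fv (K + 2) h (x, y) / (x : ℝ) ^ K) ^ 3 * x < (1 / (x : ℝ)) ^ 3 * x := by gcongr
    have h9 : (1 / (x : ℝ)) ^ 3 * x ≤ 1 := by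
      have e1 : (1 / (x : ℝ)) ^ 3 * x = 1 / (x : ℝ) ^ 2 := by field_simp
      rw [e1]
      apply div_le_self zero_le_one
      exact one_le_pow₀ hx1'
    linarith

end PP72
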