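import Pool.Agent.PP72.BdLim

/-!
Degree three: points close to a line whose slope is a cubic irrationality are well spaced.
-/

open Polynomial Finset Filter

namespace PP72

variable {α : ℝ} {d : ℕ} {h : ℕ → ℝ[X]}

/-- denominators can be cleared -/
theorem clear_den (P : ℚ[X]) : ∃ N : ℤ, N ≠ 0 ∧ ∃ q : ℤ[X],
    q.map (Int.castRingHom ℚ) = C (N : ℚ) * P := by
  obtain ⟨b, hb, hq⟩ := IsLocalization.integerNormalization_spec (nonZeroDivisors ℤ) P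
  refine ⟨b, nonZeroDivisors.ne_zero hb, IsLocalization.integerNormalization (nonZeroDivisors ℤ) P,
    ?_⟩
  have h1 : (algebraMap ℤ ℚ) = Int.castRingHom ℚ := rfl
  rw [h1] at hq
  rw [hq]
  ext i
  simp

/-- Liouville's inequality for irrational zeros of rational polynomials of degree at most three -/
theorem liouville_three {p : ℝ[X]} (hp : p ≠ 0) (hdeg : p.natDegree ≤ 3)
    (hrat : ∃ P : ℚ[X], p = P.map (algebraMap ℚ ℝ)) (hirr : Irrational α) (hz : p.eval α = 0) :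
    ∃ c : ℝ, 0 < c ∧ ∀ (w : ℤ) (u : ℕ), 0 < u → c ≤ (u : ℝ) ^ 2 * |α * u - w| := by
  obtain ⟨P, hP⟩ := hrat
  obtain ⟨N, hN, q, hq⟩ := clear_den P
  have hP0 : P ≠ 0 := by
    rintro rfl
    apply hp
    rw [hP, Polynomial.map_zero]
  have hq0 : q ≠ 0 := by
    rintro rfl
    rw [Polynomial.map_zero] at hq
    have h3 : (N : ℚ) ≠ 0 := by exact_mod_cast hN
    exact mul_ne_zero (C_ne_zero.2 h3) hP0 hq.symm
  have hmap : q.map (algebraMap ℤ ℝ) = C (N : ℝ) * p := by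
    have h3 : (algebraMap ℤ ℝ) = (algebraMap ℚ ℝ).comp (Int.castRingHom ℚ) :=
      RingHom.ext_int _ _
    rw [h3, ← Polynomial.map_map, hq, Polynomial.map_mul, map_C, ← hP]
    simp
  have hqz : eval α (q.map (algebraMap ℤ ℝ)) = 0 := by
    rw [hmap, eval_mul, hz, mul_zero]
  have hqd : q.natDegree ≤ 3 := by
    have h3 : q.natDegree = (q.map (algebraMap ℤ ℝ)).natDegree := by
      rw [natDegree_map_eq_of_injective]
      exact (algebraMap ℤ ℝ).injective_int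
    rw [h3, hmap]
    exact (natDegree_C_mul_le _ _).trans hdeg
  obtain ⟨A, hA, hg⟩ := Liouville.exists_pos_real_of_irrational_root hirr hq0 hqz
  refine ⟨1 / A, by positivity, fun w u hu => ?_⟩
  obtain ⟨v, rfl⟩ : ∃ v, u = v + 1 := ⟨u - 1, by omega⟩
  have h3 := hg w v
  have hv : (1 : ℝ) ≤ (v : ℝ) + 1 := by
    have : (0 : ℝ) ≤ v := Nat.cast_nonneg _
    linarith
  have hvpos : (0 : ℝ) < (v : ℝ) + 1 := by linarith
  have h4 : |α - w / ((v : ℝ) + 1)| * ((v : ℝ) + 1) = |α * ((v : ℝ) + 1) - w| := by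
    rw [← abs_of_pos hvpos, ← abs_mul, abs_of_pos hvpos]
    congr 1
    field_simp
  have h5 : ((v : ℝ) + 1) ^ q.natDegree ≤ ((v : ℝ) + 1) ^ 3 := pow_le_pow_right₀ hv hqd
  rw [div_le_iff₀ hA]
  push_cast
  calc (1 : ℝ) ≤ ((v : ℝ) + 1) ^ q.natDegree * (|α - w / ((v : ℝ) + 1)| * A) := h3
    _ ≤ ((v : ℝ) + 1) ^ 3 * (|α - w / ((v : ℝ) + 1)| * A) := by gcongr
    _ = ((v : ℝ) + 1) ^ 2 * (|α - w / ((v : ℝ) + 1)| * ((v : ℝ) + 1)) * A := by ring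
    _ = ((v : ℝ) + 1) ^ 2 * |α * ((v : ℝ) + 1) - w| * A := by rw [h4]

/-- a thin set: the first coordinates are well spaced -/
theorem thin_spaced {f : ℕ × ℕ → ℝ} {A : Set (ℕ × ℕ)} (c : ℝ) (hc : 0 < c)
    (hsp : ∀ P ∈ A, ∀ Q ∈ A, P.1 < Q.1 → c * √(P.1 : ℝ) ≤ (Q.1 : ℝ) - P.1)
    (hinj : ∀ P ∈ A, ∀ Q ∈ A, P.1 = Q.1 → P = Q) (hpos : ∀ P ∈ A, 0 < P.1)
    (hf : ∀ P ∈ A, (P.1 : ℝ) ^ 2 ≤ f P ^ 3 ∧ 0 ≤ f P) : Thin f A := by
  set k := min (c / 3) 1 with hk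
  have hk0 : 0 < k := by positivity
  have hk1 : k ≤ 1 := min_le_right _ _
  have hk3 : 3 * k ≤ c := by
    have := min_le_left (c / 3) 1
    rw [← hk] at this
    linarith
  -- square roots are separated
  have hroot : ∀ P ∈ A, ∀ Q ∈ A, P.1 < Q.1 → √(P.1 : ℝ) + k ≤ √(Q.1 : ℝ) := by
    intro P hP Q hQ hPQ
    have h3 := hsp P hP Q hQ hPQ
    have hP1 : (1 : ℝ) ≤ P.1 := by exact_mod_cast hpos P hP
    have h4 : 1 ≤ √(P.1 : ℝ) := by
      rw [Real.one_le_sqrt]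
      exact hP1
    apply Real.le_sqrt_of_sq_le
    have h5 : √(P.1 : ℝ) ^ 2 = P.1 := Real.sq_sqrt (Nat.cast_nonneg _)
    have h6 : 2 * k * √(P.1 : ℝ) + k ^ 2 ≤ c * √(P.1 : ℝ) := by
      have h7 : k ^ 2 ≤ k * √(P.1 : ℝ) := by
        rw [sq]
        exact mul_le_mul_of_nonneg_left (hk1.trans h4) hk0.le
      have h8 : 3 * k * √(P.1 : ℝ) ≤ c * √(P.1 : ℝ) := by gcongr
      linarith
    calc (√(P.1 : ℝ) + k) ^ 2 = √(P.1 : ℝ) ^ 2 + (2 * k * √(P.1 : ℝ) + k ^ 2) := by ring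
      _ ≤ P.1 + ((Q.1 : ℝ) - P.1) := by rw [h5]; linarith
      _ = Q.1 := by ring
  intro ε hε
  set ε' := ε * k / 2 with hε'
  have hε'0 : 0 < ε' := by positivity
  obtain ⟨N0, hN0⟩ := exists_nat_ge (1 / ε' ^ 4 + 2 / ε + 1)
  refine ⟨N0, fun N hN T hT => ?_⟩
  have hNN : (N0 : ℝ) ≤ N := by exact_mod_cast hN
  have p1 : 0 ≤ 1 / ε' ^ 4 := by positivity
  have p2 : 0 ≤ 2 / ε := by positivity
  have hN1 : (1 : ℝ) ≤ N := by linarith
  have hNa : 1 ≤ ε' ^ 4 * N := by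
    have h3 : 1 / ε' ^ 4 ≤ N := by linarith
    rw [div_le_iff₀ (by positivity)] at h3
    linarith
  have hNb : 2 ≤ ε * N := by
    have h3 : 2 / ε ≤ N := by linarith
    rw [div_le_iff₀ hε] at h3
    linarith
  -- the bound for the square roots
  have hle : ∀ P ∈ T, √(P.1 : ℝ) ≤ ε' * N := by
    intro P hP
    obtain ⟨hPA, hPN⟩ := hT P hP
    obtain ⟨h3, h4⟩ := hf P hPA
    have h5 : √(P.1 : ℝ) ^ 4 ≤ (ε' * N) ^ 4 := by
      calc √(P.1 : ℝ) ^ 4 = (√(P.1 : ℝ) ^ 2) ^ 2 := by ring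
        _ = (P.1 : ℝ) ^ 2 := by rw [Real.sq_sqrt (Nat.cast_nonneg _)]
        _ ≤ f P ^ 3 := h3
        _ ≤ (N : ℝ) ^ 3 := by gcongr
        _ = 1 * (N : ℝ) ^ 3 := (one_mul _).symm
        _ ≤ (ε' ^ 4 * N) * (N : ℝ) ^ 3 := by gcongr
        _ = (ε' * N) ^ 4 := by ring
    exact le_of_pow_le_pow_left₀ (by norm_num) (by positivity) h5
  -- the map to integers
  have hmap : ∀ P ∈ T, ⌊√(P.1 : ℝ) / k⌋₊ ∈ Finset.range (⌊ε' * N / k⌋₊ + 1) := by
    intro P hP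
    rw [Finset.mem_range]
    have h3 : √(P.1 : ℝ) / k ≤ ε' * N / k := by
      have := hle P hP
      gcongr
    have := Nat.floor_le_floor h3
    omega
  have hinjT : Set.InjOn (fun P : ℕ × ℕ => ⌊√(P.1 : ℝ) / k⌋₊) (T : Set (ℕ × ℕ)) := by
    have key : ∀ P ∈ T, ∀ Q ∈ T, P.1 < Q.1 → ⌊√(P.1 : ℝ) / k⌋₊ ≠ ⌊√(Q.1 : ℝ) / k⌋₊ := by
      intro P hP Q hQ hPQ heq
      have h3 := hroot P (hT P hP).1 Q (hT Q hQ).1 hPQ
      have h4 : √(P.1 : ℝ) / k + 1 ≤ √(Q.1 : ℝ) / k := by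
        rw [div_add_one hk0.ne']
        gcongr
      have h5 : ⌊√(P.1 : ℝ) / k⌋₊ + 1 ≤ ⌊√(Q.1 : ℝ) / k⌋₊ := by
        apply Nat.le_floor
        push_cast
        have := Nat.floor_le (by positivity : 0 ≤ √(P.1 : ℝ) / k)
        linarith
      omega
    intro P hP Q hQ heq
    apply hinj P (hT P hP).1 Q (hT Q hQ).1
    rcases lt_trichotomy P.1 Q.1 with h3 | h3 | h3
    · exact absurd heq (key P hP Q hQ h3)
    · exact h3
    · exact absurd heq.symm (key Q hQ P hP h3)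
  have hcard : T.card ≤ ⌊ε' * N / k⌋₊ + 1 := by
    have := Finset.card_le_card_of_injOn _ hmap hinjT
    rwa [Finset.card_range] at this
  have h6 : (T.card : ℝ) ≤ ε' * N / k + 1 := by
    have h7 : (T.card : ℝ) ≤ (⌊ε' * N / k⌋₊ : ℝ) + 1 := by exact_mod_cast hcard
    have := Nat.floor_le (by positivity : 0 ≤ ε' * N / k)
    linarith
  have h7 : ε' * N / k = ε * N / 2 := by
    rw [hε']
    field_simp
  rw [h7] at h6
  linarith

/-- degree three: points close to the boundary with value at least `x ^ (2 / 3)` -/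
theorem Pk.thin_cubic (H : Pk α 3 h) (hne : h 3 ≠ 0) (hz : (h 3).eval α = 0) (C : ℝ) (X0 : ℕ)
    (happ : ∀ x y : ℕ, X0 < x → (y : ℝ) ≤ α * x → x * (α * x - y) < C →
      (x : ℝ) ^ 2 ≤ fv 3 h (x, y) ^ 3) :
    Thin (fv 3 h) {P | P ∈ Sec α ∧ X0 < P.1 ∧ P.1 * (α * P.1 - P.2) < C} := by
  obtain ⟨c, hc, hL⟩ := liouville_three hne (H.deg 3) (H.rational 3 (by simp)) H.irr hz
  set C' := |C| + 1 with hC'
  have hC'1 : 1 ≤ C' := by
    have := abs_nonneg C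
    linarith
  have hCC' : C ≤ C' := by
    have := le_abs_self C
    linarith
  obtain ⟨x1, hx1⟩ := exists_nat_ge (4 * C' + X0 + 1)
  have n3 : (0 : ℝ) ≤ X0 := Nat.cast_nonneg _
  have hx1X : X0 < x1 := by
    have h3 : (X0 : ℝ) < x1 := by linarith
    exact_mod_cast h3
  have hsplit : {P : ℕ × ℕ | P ∈ Sec α ∧ X0 < P.1 ∧ P.1 * (α * P.1 - P.2) < C} ⊆
      {P | P ∈ Sec α ∧ x1 ≤ P.1 ∧ P.1 * (α * P.1 - P.2) < C} ∪ {P | P ∈ Sec α ∧ P.1 ≤ x1} := by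
    rintro P ⟨hP1, hP2, hP3⟩
    by_cases h2 : x1 ≤ P.1
    · exact Or.inl ⟨hP1, h2, hP3⟩
    · exact Or.inr ⟨hP1, by omega⟩
  refine Thin.mono (Thin.union ?_ (thin_finite (finite_x H.pos x1))) hsplit
  set c1 := √(c / (2 * C')) with hc1
  have hc10 : 0 < c1 := by positivity
  -- the distance to the line
  have hd : ∀ P ∈ {P : ℕ × ℕ | P ∈ Sec α ∧ x1 ≤ P.1 ∧ P.1 * (α * P.1 - P.2) < C},
      (0 : ℝ) < P.1 ∧ 0 ≤ α * P.1 - P.2 ∧ α * P.1 - P.2 ≤ C' / P.1 ∧ α * P.1 - P.2 ≤ 1 / 4 := by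
    rintro P ⟨hP1, hP2, hP3⟩
    have hpos : 0 < P.1 := by omega
    have hposR : (0 : ℝ) < P.1 := by exact_mod_cast hpos
    have hy : (P.2 : ℝ) ≤ α * P.1 := hP1
    have h3 : α * P.1 - P.2 ≤ C' / P.1 := by
      rw [le_div_iff₀ hposR]
      linarith
    refine ⟨hposR, by linarith, h3, h3.trans ?_⟩
    rw [div_le_iff₀ hposR]
    have : (x1 : ℝ) ≤ P.1 := by exact_mod_cast hP2
    linarith
  refine thin_spaced c1 hc10 ?_ ?_ ?_ ?_
  · -- spacing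
    intro P hP Q hQ hPQ
    obtain ⟨p1, p2, p3, p4⟩ := hd P hP
    obtain ⟨q1, q2, q3, q4⟩ := hd Q hQ
    have hu : 0 < Q.1 - P.1 := by omega
    have h3 := hL ((Q.2 : ℤ) - P.2) (Q.1 - P.1) hu
    have hcast : ((Q.1 - P.1 : ℕ) : ℝ) = (Q.1 : ℝ) - P.1 := by
      rw [Nat.cast_sub hPQ.le]
    rw [hcast] at h3
    push_cast at h3
    set u := (Q.1 : ℝ) - P.1 with hudef
    have hu0 : 0 < u := by
      have : (P.1 : ℝ) < Q.1 := by exact_mod_cast hPQ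
      linarith
    have h4 : |α * u - ((Q.2 : ℝ) - P.2)| ≤ 2 * C' / P.1 := by
      have h5 : α * u - ((Q.2 : ℝ) - P.2) = (α * Q.1 - Q.2) - (α * P.1 - P.2) := by
        rw [hudef]
        ring
      rw [h5]
      have h6 : C' / Q.1 ≤ C' / P.1 := by
        have : (P.1 : ℝ) ≤ Q.1 := by exact_mod_cast hPQ.le
        gcongr
      have h7 : 2 * C' / P.1 = C' / P.1 + C' / P.1 := by ring
      have h8 : 0 ≤ C' / P.1 := by positivity
      rw [abs_le]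
      constructor <;> linarith
    have h5 : c ≤ u ^ 2 * (2 * C' / P.1) := h3.trans (by gcongr)
    have h6 : c / (2 * C') * P.1 ≤ u ^ 2 := by
      have h7 : u ^ 2 * (2 * C' / P.1) = u ^ 2 * (2 * C') / P.1 := by ring
      rw [h7, le_div_iff₀ p1] at h5
      rw [div_mul_eq_mul_div, div_le_iff₀ (by positivity)]
      exact h5
    rw [hc1, ← Real.sqrt_mul (by positivity)]
    apply Real.sqrt_le_iff.2
    exact ⟨hu0.le, h6⟩
  · -- the second coordinate is determined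
    intro P hP Q hQ hPQ
    obtain ⟨p1, p2, p3, p4⟩ := hd P hP
    obtain ⟨q1, q2, q3, q4⟩ := hd Q hQ
    apply Prod.ext hPQ
    have h3 : (P.1 : ℝ) = Q.1 := by exact_mod_cast hPQ
    rw [h3] at p2 p4
    have h4 : (P.2 : ℝ) < Q.2 + 1 := by linarith
    have h5 : (Q.2 : ℝ) < P.2 + 1 := by linarith
    have h6 : P.2 < Q.2 + 1 := by exact_mod_cast h4
    have h7 : Q.2 < P.2 + 1 := by exact_mod_cast h5
    omega
  · rintro P ⟨_, hP2, _⟩
    omega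
  · rintro P ⟨hP1, hP2, hP3⟩
    exact ⟨happ P.1 P.2 (by omega) hP1 hP3, H.fv_nonneg hP1⟩

end PP72
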