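import Pool.Agent.PP72.Basic

/-!
Lattice points near a line of irrational slope.
-/

open Polynomial Finset Filter

namespace PP72

/-- multiples of an irrational number stay away from the integers -/
theorem irr_gap {θ : ℝ} (hθ : Irrational θ) (R : ℕ) : ∃ c : ℝ, 0 < c ∧
    ∀ r : ℤ, r ≠ 0 → |r| ≤ R → ∀ z : ℤ, c ≤ |(z : ℝ) - θ * r| := by
  have h : ∀ r : ℤ, r ≠ 0 → 0 < |(round (θ * r) : ℝ) - θ * r| := by
    intro r hr
    apply abs_pos.2
    intro h0
    have h1 : θ * r = round (θ * r) := by linarith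
    have h2 : Irrational (θ * r) := hθ.mul_intCast hr
    exact h2.ne_int _ h1
  set S : Finset ℤ := (Finset.Icc (-(R : ℤ)) R).filter (· ≠ 0) with hS
  rcases S.eq_empty_or_nonempty with hSe | hSn
  · refine ⟨1, one_pos, ?_⟩
    intro r hr hrR
    exfalso
    have : r ∈ S := by
      rw [hS, Finset.mem_filter, Finset.mem_Icc]
      exact ⟨abs_le.1 hrR, hr⟩
    rw [hSe] at this
    exact absurd this (Finset.notMem_empty _)
  · obtain ⟨r0, hr0, hmin⟩ := S.exists_min_image (fun r => |(round (θ * r) : ℝ) - θ * r|) hSn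
    refine ⟨|(round (θ * r0) : ℝ) - θ * r0|, h r0 (by
      rw [hS, Finset.mem_filter] at hr0
      exact hr0.2), ?_⟩
    intro r hr hrR z
    have h1 := hmin r (by
      rw [hS, Finset.mem_filter, Finset.mem_Icc]
      exact ⟨abs_le.1 hrR, hr⟩)
    have h2 := round_le (θ * r) z
    rw [abs_sub_comm] at h2
    rw [abs_sub_comm (z : ℝ)]
    exact h1.trans h2

/-- inhomogeneous approximation with a prescribed shift -/
theorem exists_approx {θ : ℝ} (hθ : Irrational θ) (u0 : ℝ) (j : ℤ) (X0 : ℕ) :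
    ∃ r : ℕ, X0 < r ∧ ∃ x y : ℤ, (r : ℤ) ≤ x ∧ x < 2 * r ∧
      |(y : ℝ) - θ * x - u0 - j / r| ≤ 5 / 2 / r := by
  obtain ⟨c, hc, hgap⟩ := irr_gap hθ X0
  obtain ⟨n, hn⟩ := exists_nat_gt (1 / c)
  have hnpos : 0 < n := by
    rcases Nat.eq_zero_or_pos n with h0 | h0
    · rw [h0] at hn
      have : 0 < 1 / c := by positivity
      push_cast at hn
      linarith
    · exact h0
  obtain ⟨q, hq1, hq2⟩ := Real.exists_rat_abs_sub_le_and_den_le θ hnpos
  set r := q.den with hr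
  set s := q.num with hs
  have hrpos : 0 < r := q.den_pos
  have hr' : (0 : ℝ) < r := by exact_mod_cast hrpos
  have hqr : (q : ℝ) = (s : ℝ) / r := by
    have := (Rat.num_div_den q).symm
    exact_mod_cast this
  rw [hqr] at hq1
  have hn1 : (0 : ℝ) < (n : ℝ) + 1 := by positivity
  -- `|r θ - s| ≤ 1/(n+1)`
  have h1 : |(s : ℝ) - θ * (r : ℤ)| ≤ 1 / (n + 1) := by
    have e1 : (s : ℝ) - θ * ((r : ℤ) : ℝ) = -(θ - s / r) * r := by
      push_cast
      field_simp
      ring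
    rw [e1, abs_mul, abs_neg, abs_of_pos hr']
    calc |θ - s / r| * r ≤ 1 / ((n + 1) * r) * r := by gcongr
      _ = 1 / (n + 1) := by field_simp
  have h2 : X0 < r := by
    by_contra hle
    push Not at hle
    have h3 := hgap (r : ℤ) (by exact_mod_cast hrpos.ne') (by
      rw [abs_of_nonneg (by positivity)]
      exact_mod_cast hle) s
    have h4 : 1 / ((n : ℝ) + 1) < c := by
      rw [div_lt_iff₀ hn1]
      rw [div_lt_iff₀ hc] at hn
      nlinarith
    linarith
  have h3 : |(s : ℝ) / r - θ| ≤ 1 / (r : ℝ) ^ 2 := by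
    rw [abs_sub_comm]
    refine hq1.trans ?_
    apply one_div_le_one_div_of_le (by positivity)
    rw [pow_two]
    have : (r : ℝ) ≤ n := by exact_mod_cast hq2
    gcongr
    linarith
  set m : ℤ := round ((r : ℝ) * u0) + j with hm
  have hcop : IsCoprime s (r : ℤ) := by
    have := q.reduced
    rw [← hs, ← hr] at this
    rw [Int.isCoprime_iff_gcd_eq_one]
    exact this
  obtain ⟨a, b, hab⟩ := hcop
  set x : ℤ := r + (-m * a) % r with hx
  have hrZ : (0 : ℤ) < r := by exact_mod_cast hrpos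
  have hmod1 : 0 ≤ (-m * a) % (r : ℤ) := Int.emod_nonneg _ hrZ.ne'
  have hmod2 : (-m * a) % (r : ℤ) < r := Int.emod_lt_of_pos _ hrZ
  have hdvd : (r : ℤ) ∣ m + s * x := by
    have h4 := Int.emod_add_mul_ediv (-m * a) (r : ℤ)
    have h5 : (-m * a) % (r : ℤ) = -m * a - r * (-m * a / r) := by linarith
    rw [hx, h5]
    have h6 : a * s = 1 - b * r := by linarith
    refine ⟨m * b + s - s * (-m * a / r), ?_⟩
    generalize (-m * a / (r : ℤ)) = w
    calc m + s * (r + (-m * a - r * w)) = m - m * (a * s) + s * r - s * r * w := by ring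
      _ = m - m * (1 - b * r) + s * r - s * r * w := by rw [h6]
      _ = r * (m * b + s - s * w) := by ring
  obtain ⟨y, hy⟩ := hdvd
  refine ⟨r, h2, x, y, by omega, by omega, ?_⟩
  have hy' : (m : ℝ) + s * x = r * y := by exact_mod_cast hy
  have e1 : (y : ℝ) - θ * x - u0 - j / r =
      (round ((r : ℝ) * u0) - r * u0) / r + (s / r - θ) * x := by
    have e2 : (y : ℝ) = (m + s * x) / r := by
      rw [hy']
      field_simp
    rw [e2, hm]
    push_cast
    field_simp
    ring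
  rw [e1]
  have h4 : |((round ((r : ℝ) * u0) : ℤ) - r * u0 : ℝ) / r| ≤ 1 / 2 / r := by
    rw [abs_div, abs_of_pos hr']
    gcongr
    rw [abs_sub_comm]
    exact abs_sub_round _
  have hx2 : |(x : ℝ)| ≤ 2 * r := by
    rw [abs_of_nonneg (by
      have : (0 : ℤ) ≤ x := by omega
      exact_mod_cast this)]
    have : x ≤ 2 * r := by omega
    exact_mod_cast this
  have h5 : |(s / r - θ) * x| ≤ 2 / r := by
    rw [abs_mul]
    calc |(s : ℝ) / r - θ| * |(x : ℝ)| ≤ 1 / (r : ℝ) ^ 2 * (2 * r) := by gcongr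
      _ = 2 / r := by field_simp
  calc |((round ((r : ℝ) * u0) : ℤ) - r * u0 : ℝ) / r + (s / r - θ) * x| ≤ 1 / 2 / r + 2 / r :=
        (abs_add_le _ _).trans (add_le_add h4 h5)
    _ = 5 / 2 / r := by field_simp; ring

/-- lattice points of the sector near a line `y = θ x + u₀` inside the sector -/
theorem exists_near {α θ : ℝ} (hθ : Irrational θ) (h0 : 0 < θ) (hα : θ < α) (u0 : ℝ) (X0 : ℕ) :
    ∃ P ∈ Sec α, X0 < P.1 ∧ (P.1 : ℝ) * |(P.2 : ℝ) - θ * P.1 - u0| ≤ 5 := by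
  obtain ⟨X1, hX1⟩ := exists_nat_ge ((|u0| + 3) / θ + (|u0| + 3) / (α - θ))
  obtain ⟨r, hr, x, y, hx1, hx2, hxy⟩ := exists_approx hθ u0 0 (max X0 X1)
  have hrpos : 0 < r := by omega
  have hr' : (0 : ℝ) < r := by exact_mod_cast hrpos
  have hr1 : (1 : ℝ) ≤ r := by exact_mod_cast hrpos
  push_cast at hxy
  rw [zero_div, sub_zero] at hxy
  have hxr : (r : ℝ) ≤ x := by exact_mod_cast hx1
  have hx2' : (x : ℝ) ≤ 2 * r := by
    have : (x : ℝ) < ((2 * r : ℤ) : ℝ) := by exact_mod_cast hx2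
    push_cast at this
    linarith
  have hsmall : |(y : ℝ) - θ * x - u0| ≤ 5 / 2 := by
    refine hxy.trans ?_
    rw [div_le_iff₀ hr']
    nlinarith
  have hxX : (|u0| + 3) / θ + (|u0| + 3) / (α - θ) ≤ x := by
    have : (X1 : ℝ) ≤ r := by
      have : X1 ≤ r := by omega
      exact_mod_cast this
    linarith
  have hp1 : 0 ≤ (|u0| + 3) / θ := by positivity
  have hp2 : 0 ≤ (|u0| + 3) / (α - θ) := div_nonneg (by positivity) (by linarith)
  have hx3 : (|u0| + 3) / θ ≤ x := by linarith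
  have hx4 : (|u0| + 3) / (α - θ) ≤ x := by linarith
  rw [div_le_iff₀ h0] at hx3
  rw [div_le_iff₀ (by linarith)] at hx4
  rw [abs_le] at hsmall
  have hy0 : (0 : ℝ) ≤ y := by
    have := neg_abs_le u0
    nlinarith [hsmall.1]
  have hyα : (y : ℝ) ≤ α * x := by
    have := le_abs_self u0
    nlinarith [hsmall.2]
  have hx0 : 0 ≤ x := by omega
  have hy0' : 0 ≤ y := by exact_mod_cast hy0
  obtain ⟨a, ha⟩ := Int.eq_ofNat_of_zero_le hx0
  obtain ⟨b, hb⟩ := Int.eq_ofNat_of_zero_le hy0'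
  subst ha hb
  push_cast at hyα hxy hx2' hxr
  refine ⟨(a, b), hyα, ?_, ?_⟩
  · change X0 < a
    have : (r : ℤ) ≤ (a : ℤ) := hx1
    omega
  · change (a : ℝ) * |(b : ℝ) - θ * a - u0| ≤ 5
    calc (a : ℝ) * |(b : ℝ) - θ * a - u0| ≤ (2 * r) * (5 / 2 / r) := by
          gcongr
      _ = 5 := by field_simp

/-- a set of natural numbers with gaps larger than `R` is small -/
theorem card_spaced (T : Finset ℕ) (X : ℝ) (R : ℕ) (hR : 0 < R) (hX : 0 ≤ X)
    (hT : ∀ x ∈ T, (x : ℝ) ≤ X) (hgap : ∀ x ∈ T, ∀ y ∈ T, x < y → R ≤ y - x) :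
    (T.card : ℝ) ≤ X / R + 1 := by
  classical
  have hR' : (0 : ℝ) < R := by exact_mod_cast hR
  have h1 : T.card ≤ (Finset.range (⌊X / R⌋₊ + 1)).card := by
    apply Finset.card_le_card_of_injOn (fun x => x / R)
    · intro x hx
      have hx' : x ∈ T := by simpa using hx
      simp only [Finset.coe_range, Set.mem_Iio]
      apply Nat.lt_succ_of_le
      apply Nat.le_floor
      have h2 : (((x / R : ℕ)) : ℝ) ≤ (x : ℝ) / R := Nat.cast_div_le
      have h3 : (x : ℝ) / R ≤ X / R := by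
        gcongr
        exact hT x hx'
      linarith
    · intro x hx y hy hxy
      have hx' : x ∈ T := by simpa using hx
      have hy' : y ∈ T := by simpa using hy
      by_contra hne
      have key : ∀ a b : ℕ, a ∈ T → b ∈ T → a < b → a / R = b / R → False := by
        intro a b ha hb hab hdiv
        have h2 := hgap a ha b hb hab
        have h3 := Nat.div_add_mod a R
        have h4 := Nat.div_add_mod b R
        have h5 := Nat.mod_lt a hR
        have h6 := Nat.mod_lt b hR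
        rw [hdiv] at h3
        omega
      rcases lt_or_gt_of_ne hne with h2 | h2
      · exact key x y hx' hy' h2 hxy
      · exact key y x hy' hx' h2 hxy.symm
  rw [Finset.card_range] at h1
  have h2 : (T.card : ℝ) ≤ (⌊X / R⌋₊ : ℝ) + 1 := by exact_mod_cast h1
  have h3 := Nat.floor_le (by positivity : 0 ≤ X / R)
  linarith

/-- thinness near a line of irrational slope -/
theorem thin_irr {f : ℕ × ℕ → ℝ} {A : Set (ℕ × ℕ)} {θ : ℝ} (hθ : Irrational θ) (u0 δ K : ℝ)
    (hδ : 0 < δ) (h1 : ∀ P ∈ A, |(P.2 : ℝ) - θ * P.1 - u0| ≤ 1)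
    (h2 : ∀ P ∈ A, δ * (P.1 : ℝ) ≤ f P + K)
    (h3 : ∀ P ∈ A, δ * ((P.1 : ℝ) ^ 2 * ((P.2 : ℝ) - θ * P.1 - u0) ^ 2) ≤ f P + K) :
    Thin f A := by
  classical
  intro ε hε
  set K' : ℝ := max K 1 with hK'
  have hK1 : 1 ≤ K' := le_max_right _ _
  have hKK : K ≤ K' := le_max_left _ _
  -- parameters
  set η : ℝ := ε / 12 with hη
  have hη0 : 0 < η := by positivity
  obtain ⟨R, hR⟩ := exists_nat_ge (8 / (ε * δ) + 1)
  have hR1 : (1 : ℝ) ≤ R := by
    have : 0 ≤ 8 / (ε * δ) := by positivity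
    linarith
  have hRpos : 0 < R := by
    have : (0 : ℝ) < R := by linarith
    exact_mod_cast this
  have hR' : (0 : ℝ) < R := by linarith
  obtain ⟨c, hc, hgap⟩ := irr_gap hθ R
  set c' : ℝ := min (c / 4) (1 / 4) with hc'
  have hc'0 : 0 < c' := by positivity
  obtain ⟨N0, hN0⟩ := exists_nat_ge (K' + 24 / ε + (2 / (δ * η ^ 2 * c' ^ 2)) + 8 / ε)
  refine ⟨N0 + 1, fun N hN T hT => ?_⟩
  have hNN : (N0 : ℝ) ≤ N := by
    have : N0 ≤ N := by omega
    exact_mod_cast this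
  have p1 : 0 ≤ 24 / ε := by positivity
  have p2 : 0 ≤ 2 / (δ * η ^ 2 * c' ^ 2) := by positivity
  have p3 : 0 ≤ 8 / ε := by positivity
  have q1 : K' ≤ N := by linarith
  have q2 : 24 / ε ≤ N := by linarith
  have q3 : 2 / (δ * η ^ 2 * c' ^ 2) ≤ N := by linarith
  have hNpos : (0 : ℝ) < N := by linarith
  rw [div_le_iff₀ hε] at q2
  rw [div_le_iff₀ (by positivity)] at q3
  -- small x
  set T1 := T.filter (fun P => (P.1 : ℝ) ≤ η * N) with hT1
  set T2 := T.filter (fun P => ¬ (P.1 : ℝ) ≤ η * N) with hT2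
  have hcard : (T.card : ℝ) = T1.card + T2.card := by
    rw [hT1, hT2, ← Nat.cast_add, Finset.card_filter_add_card_filter_not]
  have hb1 : (T1.card : ℝ) ≤ 3 * (η * N) + 3 * (1 + 2) := by
    -- shift by u0: use the box lemma with slope θ and half-width |u0| + 1 is too crude;
    -- count for each x at most 3 values of y
    have h4 : T1.card ≤ (Finset.range (⌊η * N⌋₊ + 1) ×ˢ Finset.range 3).card := by
      apply Finset.card_le_card_of_injOn
        (fun P => (P.1, ((P.2 : ℤ) - ⌈θ * P.1 + u0 - 1⌉).toNat))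
      · intro P hP
        have hP' : P ∈ T1 := by simpa using hP
        rw [hT1, Finset.mem_filter] at hP'
        have h5 := abs_le.1 (h1 P (hT P hP'.1).1)
        simp only [Finset.coe_product, Finset.coe_range, Set.mem_prod, Set.mem_Iio]
        refine ⟨Nat.lt_succ_of_le (Nat.le_floor hP'.2), ?_⟩
        have h6 : ((P.2 : ℤ) : ℝ) ≤ θ * P.1 + u0 + 1 := by
          push_cast
          linarith [h5.2]
        have h7 := Int.le_ceil (θ * P.1 + u0 - 1)
        have h8 : (((P.2 : ℤ) - ⌈θ * P.1 + u0 - 1⌉ : ℤ) : ℝ) < 3 := by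
          push_cast
          push_cast at h6
          linarith
        have h9 : ((P.2 : ℤ) - ⌈θ * P.1 + u0 - 1⌉ : ℤ) < 3 := by exact_mod_cast h8
        omega
      · intro P hP Q hQ hPQ
        have hP' : P ∈ T1 := by simpa using hP
        have hQ' : Q ∈ T1 := by simpa using hQ
        rw [hT1, Finset.mem_filter] at hP' hQ'
        have h5 := abs_le.1 (h1 P (hT P hP'.1).1)
        have h6 := abs_le.1 (h1 Q (hT Q hQ'.1).1)
        simp only [Prod.mk.injEq] at hPQ
        obtain ⟨e1, e2⟩ := hPQ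
        have a1 : ⌈θ * P.1 + u0 - 1⌉ ≤ (P.2 : ℤ) := by
          rw [Int.ceil_le]
          push_cast
          linarith [h5.1]
        have a2 : ⌈θ * Q.1 + u0 - 1⌉ ≤ (Q.2 : ℤ) := by
          rw [Int.ceil_le]
          push_cast
          linarith [h6.1]
        rw [e1] at e2 a1
        have e3 : (P.2 : ℤ) = Q.2 := by omega
        exact Prod.ext e1 (by exact_mod_cast e3)
    rw [Finset.card_product, Finset.card_range, Finset.card_range] at h4
    have h5 : (T1.card : ℝ) ≤ ((⌊η * N⌋₊ : ℝ) + 1) * 3 := by exact_mod_cast h4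
    have h6 := Nat.floor_le (by positivity : 0 ≤ η * (N : ℝ))
    linarith
  -- large x
  have hb2 : (T2.card : ℝ) ≤ (2 * N / δ) / R + 1 := by
    have hT2mem : ∀ P ∈ T2, (P.1 : ℝ) ≤ 2 * N / δ ∧
        |(P.2 : ℝ) - θ * P.1 - u0| ≤ c' := by
      intro P hP
      rw [hT2, Finset.mem_filter] at hP
      have h5 := h2 P (hT P hP.1).1
      have h6 := h3 P (hT P hP.1).1
      have h7 := (hT P hP.1).2
      have h8 : η * N < P.1 := not_le.1 hP.2
      constructor
      · rw [le_div_iff₀ hδ]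
        linarith
      · apply le_of_pow_le_pow_left₀ (n := 2) (by norm_num) hc'0.le
        rw [sq_abs]
        have h9 : δ * ((η * N) ^ 2 * ((P.2 : ℝ) - θ * P.1 - u0) ^ 2) ≤ 2 * N := by
          have : δ * ((η * N) ^ 2 * ((P.2 : ℝ) - θ * P.1 - u0) ^ 2) ≤
              δ * ((P.1 : ℝ) ^ 2 * ((P.2 : ℝ) - θ * P.1 - u0) ^ 2) := by
            gcongr
          linarith
        by_contra hcon
        push Not at hcon
        have h10 : δ * ((η * N) ^ 2 * c' ^ 2) < δ * ((η * N) ^ 2 *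
            ((P.2 : ℝ) - θ * P.1 - u0) ^ 2) := by
          gcongr
        have h11 : 2 * (N : ℝ) ≤ δ * ((η * N) ^ 2 * c' ^ 2) := by
          have : δ * ((η * N) ^ 2 * c' ^ 2) = (N * (δ * η ^ 2 * c' ^ 2)) * N := by ring
          rw [this]
          nlinarith
        linarith
    have hinj : Set.InjOn (fun P : ℕ × ℕ => P.1) T2 := by
      intro P hP Q hQ hPQ
      have hP' : P ∈ T2 := by simpa using hP
      have hQ' : Q ∈ T2 := by simpa using hQ
      have h5 := abs_le.1 (hT2mem P hP').2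
      have h6 := abs_le.1 (hT2mem Q hQ').2
      have hc4 : c' ≤ 1 / 4 := min_le_right _ _
      have e1 : P.1 = Q.1 := hPQ
      rw [e1] at h5
      have h7 : |((P.2 : ℤ) - (Q.2 : ℤ) : ℤ)| < 1 := by
        have h8 : |(((P.2 : ℤ) - (Q.2 : ℤ) : ℤ) : ℝ)| < 1 := by
          push_cast
          rw [abs_lt]
          constructor <;> linarith [h5.1, h5.2, h6.1, h6.2]
        exact_mod_cast h8
      have h8 : (P.2 : ℤ) - Q.2 = 0 := Int.abs_lt_one_iff.1 h7
      exact Prod.ext e1 (by omega)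
    have hcard2 : T2.card = (T2.image (fun P : ℕ × ℕ => P.1)).card :=
      (Finset.card_image_of_injOn hinj).symm
    rw [hcard2]
    apply card_spaced _ _ R hRpos (by positivity)
    · intro x hx
      rw [Finset.mem_image] at hx
      obtain ⟨P, hP, rfl⟩ := hx
      exact (hT2mem P hP).1
    · intro x hx y hy hxy
      rw [Finset.mem_image] at hx hy
      obtain ⟨P, hP, rfl⟩ := hx
      obtain ⟨Q, hQ, rfl⟩ := hy
      by_contra hlt
      push Not at hlt
      have h5 := abs_le.1 (hT2mem P hP).2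
      have h6 := abs_le.1 (hT2mem Q hQ).2
      have hc4 : c' ≤ c / 4 := min_le_left _ _
      have h7 := hgap ((Q.1 : ℤ) - P.1) (by omega) (by
        rw [abs_of_nonneg (by omega)]
        omega) ((Q.2 : ℤ) - P.2)
      push_cast at h7
      have h8 : |((Q.2 : ℝ) - P.2) - θ * (Q.1 - P.1)| ≤ 2 * c' := by
        rw [abs_le]
        constructor <;> linarith [h5.1, h5.2, h6.1, h6.2]
      linarith
  have hR8 : 8 / (ε * δ) ≤ R := by linarith
  rw [div_le_iff₀ (by positivity)] at hR8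
  have hb3 : (2 * N / δ) / R ≤ ε * N / 4 := by
    rw [div_div, div_le_iff₀ (by positivity)]
    nlinarith
  have hη' : 3 * (η * N) = ε * N / 4 := by rw [hη]; ring
  rw [hcard]
  linarith

/-- a variant of `thin_of_bound` with a constant -/
theorem thin_of_bound_K {f : ℕ × ℕ → ℝ} {A : Set (ℕ × ℕ)} (θ δ K : ℝ) (hδ : 0 < δ)
    (h : ∀ P ∈ A, δ * ((P.1 : ℝ) ^ 2 + |(P.2 : ℝ) - θ * P.1| ^ 3) ≤ f P + K) : Thin f A := by
  intro ε hε
  set K' : ℝ := max K 0 with hK'
  have hK0 : 0 ≤ K' := le_max_right _ _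
  set R : ℝ := max 1 (max (12 / (ε * δ)) (2 * K' / δ)) with hR
  obtain ⟨N0, hN0⟩ := exists_nat_ge (δ * R ^ 6)
  refine ⟨N0, fun N hN T hT => ?_⟩
  have hN' : δ * R ^ 6 ≤ N := le_trans hN0 (by exact_mod_cast hN)
  set r : ℝ := (((N : ℝ) + K') / δ) ^ ((1 : ℝ) / 6) with hr
  have hNd : (0 : ℝ) ≤ ((N : ℝ) + K') / δ := by positivity
  have hr0 : 0 ≤ r := Real.rpow_nonneg hNd _
  have hr6 : r ^ 6 = ((N : ℝ) + K') / δ := by
    rw [hr, ← Real.rpow_natCast, ← Real.rpow_mul hNd]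
    norm_num
  have hRr : R ≤ r := by
    have h1 : R ^ 6 ≤ r ^ 6 := by
      rw [hr6, le_div_iff₀ hδ]
      linarith
    exact le_of_pow_le_pow_left₀ (by norm_num) hr0 h1
  have hR1 : 1 ≤ R := le_max_left _ _
  have hr1 : 1 ≤ r := le_trans hR1 hRr
  have hbox : (T.card : ℝ) ≤ (r ^ 3 + 1) * (2 * r ^ 2 + 1) := by
    apply card_box θ _ _ (by positivity) (by positivity)
    intro P hP
    have h1 := h P (hT P hP).1
    have h2 := (hT P hP).2
    have h3 : (P.1 : ℝ) ^ 2 + |(P.2 : ℝ) - θ * P.1| ^ 3 ≤ r ^ 6 := by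
      rw [hr6, le_div_iff₀ hδ]
      have := le_max_left K 0
      linarith
    have h4 : (0 : ℝ) ≤ |(P.2 : ℝ) - θ * P.1| ^ 3 := by positivity
    have h5 : (0 : ℝ) ≤ (P.1 : ℝ) ^ 2 := by positivity
    constructor
    · apply le_of_pow_le_pow_left₀ (n := 2) (by norm_num) (by positivity)
      calc (P.1 : ℝ) ^ 2 ≤ r ^ 6 := by linarith
        _ = (r ^ 3) ^ 2 := by ring
    · apply le_of_pow_le_pow_left₀ (n := 3) (by norm_num) (by positivity)
      calc |(P.2 : ℝ) - θ * P.1| ^ 3 ≤ r ^ 6 := by linarith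
        _ = (r ^ 2) ^ 3 := by ring
  have hNr : (N : ℝ) = δ * r ^ 6 - K' := by
    rw [hr6]
    field_simp
    ring
  have h6 : (r ^ 3 + 1) * (2 * r ^ 2 + 1) ≤ 6 * r ^ 5 := by
    have a1 : (1 : ℝ) ≤ r ^ 3 := one_le_pow₀ hr1
    have a2 : (1 : ℝ) ≤ r ^ 2 := one_le_pow₀ hr1
    calc (r ^ 3 + 1) * (2 * r ^ 2 + 1) ≤ (r ^ 3 + r ^ 3) * (2 * r ^ 2 + r ^ 2) := by gcongr
      _ = 6 * r ^ 5 := by ring
  have h7 : 12 / (ε * δ) ≤ r := le_trans (le_trans (le_max_left _ _) (le_max_right _ _)) hRr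
  have h8 : 2 * K' / δ ≤ r := le_trans (le_trans (le_max_right _ _) (le_max_right _ _)) hRr
  rw [div_le_iff₀ (by positivity)] at h7
  rw [div_le_iff₀ hδ] at h8
  have h9 : K' ≤ δ * r ^ 6 / 2 := by
    have a1 : r ≤ r ^ 6 := by
      calc r = r ^ 1 := (pow_one r).symm
        _ ≤ r ^ 6 := pow_le_pow_right₀ hr1 (by norm_num)
    nlinarith
  have h10 : ε * (δ * r ^ 6) / 2 ≤ ε * N := by
    rw [hNr]
    nlinarith
  calc (T.card : ℝ) ≤ 6 * r ^ 5 := le_trans hbox h6
    _ = 12 * r ^ 5 / 2 := by ring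
    _ ≤ (r * (ε * δ)) * r ^ 5 / 2 := by gcongr
    _ = ε * (δ * r ^ 6) / 2 := by ring
    _ ≤ ε * N := h10

end PP72
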