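import Pool.Agent.PP72.Disc
import Pool.Agent.PP72.Irr

/-!
The boundary direction `α` when the two top forms vanish there: the lower limit of `x (α x - y)`.
-/

open Polynomial Finset Filter

namespace PP72

variable {α : ℝ} {d : ℕ} {h : ℕ → ℝ[X]}

/-- polynomials are Lipschitz on intervals -/
theorem lip_root (p : ℝ[X]) (α : ℝ) : ∃ C : ℝ, 0 ≤ C ∧ ∀ t ∈ Set.Icc 0 α,
    |p.eval t - p.eval α| ≤ C * (α - t) := by
  have hr : (p - C (p.eval α)).IsRoot α := by simp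
  obtain ⟨q, hq⟩ : ∃ q, p - C (p.eval α) = (X - C α) * q := dvd_iff_isRoot.2 hr
  obtain ⟨B, hB⟩ := (isCompact_Icc (a := (0 : ℝ)) (b := α)).exists_bound_of_continuousOn
    q.continuous.continuousOn
  refine ⟨max B 0, le_max_right _ _, fun t ht => ?_⟩
  have h1 : p.eval t - p.eval α = (t - α) * q.eval t := by
    have := congrArg (fun r => eval t r) hq
    simpa using this
  rw [h1, abs_mul, abs_of_nonpos (by linarith [ht.2] : t - α ≤ 0), mul_comm]
  have h2 : |q.eval t| ≤ max B 0 := (hB t ht).trans (le_max_left _ _)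
  have h3 : 0 ≤ α - t := by linarith [ht.2]
  have h4 : -(t - α) = α - t := by ring
  rw [h4]
  exact mul_le_mul_of_nonneg_right h2 h3

/-- expansion at the boundary direction -/
theorem Pk.expand (K : ℕ) (H : Pk α (K + 2) h) (h2 : (h (K + 2)).eval α = 0)
    (h1 : (h (K + 1)).eval α = 0) :
    ∃ M : ℝ, 0 ≤ M ∧ ∀ x y : ℕ, 0 < x → (y : ℝ) ≤ α * x →
      |fv (K + 2) h (x, y) - (x : ℝ) ^ K * (-(derivative (h (K + 2))).eval α *
        (x * (α * x - y)) + (h K).eval α)| ≤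
        (x : ℝ) ^ K * (M * ((α * x - y) ^ 2 + (α * x - y) + 1 / x)) := by
  have hr : (h (K + 2)).IsRoot α := h2
  obtain ⟨q, hq⟩ : ∃ q, h (K + 2) = (X - C α) * q := dvd_iff_isRoot.2 hr
  have hqα : (derivative (h (K + 2))).eval α = q.eval α := by
    rw [hq, derivative_mul]
    simp
  obtain ⟨CQ, hCQ, hlQ⟩ := lip_root q α
  obtain ⟨C1, hC1, hl1⟩ := lip_root (h (K + 1)) α
  obtain ⟨C0, hC0, hl0⟩ := lip_root (h K) α
  obtain ⟨S, hS0, hS⟩ := low_sum K h 0 α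
  refine ⟨CQ + (C1 + C0) + S, by positivity, ?_⟩
  intro x y hx hy
  have hxpos : (0 : ℝ) < x := by exact_mod_cast hx
  have hx1' : (1 : ℝ) ≤ x := by exact_mod_cast hx
  have ht : (y : ℝ) / x ∈ Set.Icc 0 α := by
    refine ⟨by positivity, ?_⟩
    rw [div_le_iff₀ hxpos]
    exact hy
  set δ := α * x - y with hδ
  have hδ0 : 0 ≤ δ := by rw [hδ]; linarith
  have hδx : α - (y : ℝ) / x = δ / x := by
    rw [hδ]
    field_simp
  have gQ := hlQ _ ht
  have g1 := hl1 _ ht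
  have g0 := hl0 _ ht
  rw [hδx] at gQ g0
  rw [h1, sub_zero, hδx] at g1
  have ea : (h (K + 2)).eval ((y : ℝ) / x) = -(δ / x) * q.eval ((y : ℝ) / x) := by
    rw [hq, eval_mul, ← hδx]
    simp
  have hval := H.fv_top K (P := (x, y)) hx
  change fv (K + 2) h (x, y) = (x : ℝ) ^ K * ((x : ℝ) ^ 2 * (h (K + 2)).eval ((y : ℝ) / x) +
    (x : ℝ) * (h (K + 1)).eval ((y : ℝ) / x) + (h K).eval ((y : ℝ) / x)) +
    ∑ k ∈ range K, (x : ℝ) ^ k * (h k).eval ((y : ℝ) / x) at hval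
  rw [hval, ea, hqα]
  have hlow := hS _ ht x hx1'
  set R := ∑ k ∈ range K, (x : ℝ) ^ k * (h k).eval ((y : ℝ) / x) with hR
  set b := (h (K + 1)).eval ((y : ℝ) / x) with hb
  set c := (h K).eval ((y : ℝ) / x) with hc
  set qt := q.eval ((y : ℝ) / x) with hqt
  set qa := q.eval α with hqa
  set c0 := (h K).eval α with hc0
  have hxK : 0 < (x : ℝ) ^ K := pow_pos hxpos _
  have A2 : |-(x * δ) * (qt - qa)| ≤ CQ * δ ^ 2 := by
    rw [abs_mul, abs_neg, abs_of_nonneg (by positivity : 0 ≤ (x : ℝ) * δ)]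
    calc (x : ℝ) * δ * |qt - qa| ≤ x * δ * (CQ * (δ / x)) := by gcongr
      _ = CQ * δ ^ 2 := by field_simp
  have A1 : |(x : ℝ) * b| ≤ C1 * δ := by
    rw [abs_mul, abs_of_pos hxpos]
    calc (x : ℝ) * |b| ≤ x * (C1 * (δ / x)) := by gcongr
      _ = C1 * δ := by field_simp
  have A0 : |c - c0| ≤ C0 * δ := by
    refine g0.trans ?_
    have h3 : δ / x ≤ δ := div_le_self hδ0 hx1'
    gcongr
  have AR : |R| ≤ (x : ℝ) ^ K * (S * (1 / x)) := by
    have h3 : (x : ℝ) ^ K * (S * (1 / x)) = S * (x : ℝ) ^ K / x := by ring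
    rw [h3, le_div_iff₀ hxpos]
    exact hlow
  have e1 : (x : ℝ) ^ K * ((x : ℝ) ^ 2 * (-(δ / x) * qt) + x * b + c) + R -
      (x : ℝ) ^ K * (-qa * (x * δ) + c0) =
      (x : ℝ) ^ K * (-(x * δ) * (qt - qa) + x * b + (c - c0)) + R := by
    field_simp
    ring
  rw [e1]
  have A : |-(x * δ) * (qt - qa) + x * b + (c - c0)| ≤ CQ * δ ^ 2 + C1 * δ + C0 * δ := by
    refine (abs_add_le _ _).trans ?_
    have := abs_add_le (-(x * δ) * (qt - qa)) (x * b)
    linarith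
  have B : |(x : ℝ) ^ K * (-(x * δ) * (qt - qa) + x * b + (c - c0))| ≤
      (x : ℝ) ^ K * (CQ * δ ^ 2 + C1 * δ + C0 * δ) := by
    rw [abs_mul, abs_of_pos hxK]
    exact mul_le_mul_of_nonneg_left A hxK.le
  refine (abs_add_le _ _).trans ?_
  have h5 : (x : ℝ) ^ K * (CQ * δ ^ 2 + C1 * δ + C0 * δ) + (x : ℝ) ^ K * (S * (1 / x)) ≤
      (x : ℝ) ^ K * ((CQ + (C1 + C0) + S) * (δ ^ 2 + δ + 1 / x)) := by
    rw [← mul_add]
    apply mul_le_mul_of_nonneg_left _ hxK.le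
    have hx' : (0 : ℝ) ≤ 1 / x := by positivity
    have t1 : 0 ≤ CQ * δ := by positivity
    have t2 : 0 ≤ CQ * (1 / x) := by positivity
    have t3 : 0 ≤ (C1 + C0) * δ ^ 2 := by positivity
    have t4 : 0 ≤ (C1 + C0) * (1 / x) := by positivity
    have t5 : 0 ≤ S * δ ^ 2 := by positivity
    have t6 : 0 ≤ S * δ := by positivity
    linarith
  linarith

/-- the lower limit of `x (α x - y)` is at least `ρ` -/
theorem Pk.liminf_ge (K : ℕ) (H : Pk α (K + 2) h) (h2 : (h (K + 2)).eval α = 0)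
    (h1 : (h (K + 1)).eval α = 0) (hb : (derivative (h (K + 2))).eval α < 0)
    (h0 : (h K).eval α ≤ 0) {ε : ℝ} (hε : 0 < ε) :
    ∃ X0 : ℕ, ∀ x y : ℕ, X0 < x → (y : ℝ) ≤ α * x →
      (h K).eval α / (derivative (h (K + 2))).eval α - ε < x * (α * x - y) := by
  obtain ⟨M, hM, hE⟩ := H.expand K h2 h1
  set b := -(derivative (h (K + 2))).eval α with hbdef
  have hb0 : 0 < b := by rw [hbdef]; linarith
  have hρ : (h K).eval α / (derivative (h (K + 2))).eval α = -(h K).eval α / b := by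
    rw [hbdef, neg_div_neg_eq]
  rw [hρ]
  set e := -(h K).eval α with he
  have he0 : 0 ≤ e := by rw [he]; linarith
  set ρ := e / b with hρdef
  have hρ0 : 0 ≤ ρ := by positivity
  have hbρ : b * ρ = e := by rw [hρdef]; field_simp
  obtain ⟨X0, hX0⟩ := exists_nat_ge (M * (ρ ^ 2 + ρ + 1) / (b * ε))
  refine ⟨X0, fun x y hx hy => ?_⟩
  by_contra hcon
  push Not at hcon
  have hxp : 0 < x := by omega
  have hxpos : (0 : ℝ) < x := by exact_mod_cast hxp
  have hx1' : (1 : ℝ) ≤ x := by exact_mod_cast hxp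
  have hF := H.fv_nonneg (P := (x, y)) hy
  have hub := (abs_le.1 (hE x y hxp hy)).2
  have he' : (h K).eval α = -e := by rw [he]; ring
  rw [he'] at hub
  set δ := α * x - y with hδ
  have hδ0 : 0 ≤ δ := by rw [hδ]; linarith
  have hw : x * δ ≤ ρ := by linarith
  have hδ1 : δ ≤ ρ / x := by
    rw [le_div_iff₀ hxpos]
    linarith
  have hδ2 : δ ≤ ρ := hδ1.trans (div_le_self hρ0 hx1')
  have hδ3 : δ ^ 2 ≤ ρ ^ 2 / x := by
    calc δ ^ 2 = δ * δ := by ring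
      _ ≤ ρ * (ρ / x) := by gcongr
      _ = ρ ^ 2 / x := by ring
  have hsum : δ ^ 2 + δ + 1 / x ≤ (ρ ^ 2 + ρ + 1) / x := by
    have : (ρ ^ 2 + ρ + 1) / x = ρ ^ 2 / x + ρ / x + 1 / x := by ring
    rw [this]
    linarith
  have hxK : 0 < (x : ℝ) ^ K := pow_pos hxpos _
  have h3 : 0 ≤ (x : ℝ) ^ K * (b * (x * δ) + -e + M * ((ρ ^ 2 + ρ + 1) / x)) := by
    have h4 : (x : ℝ) ^ K * (M * (δ ^ 2 + δ + 1 / x)) ≤
        (x : ℝ) ^ K * (M * ((ρ ^ 2 + ρ + 1) / x)) := by gcongr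
    rw [mul_add]
    linarith
  have h4 := nonneg_of_mul_nonneg_right h3 hxK
  have h5 : b * (x * δ) ≤ b * (ρ - ε) := mul_le_mul_of_nonneg_left hcon hb0.le
  have h6 : b * ε ≤ M * ((ρ ^ 2 + ρ + 1) / x) := by
    have : b * (ρ - ε) = e - b * ε := by rw [mul_sub, hbρ]
    linarith
  have h7 : x * (b * ε) ≤ M * (ρ ^ 2 + ρ + 1) := by
    calc x * (b * ε) ≤ x * (M * ((ρ ^ 2 + ρ + 1) / x)) := by gcongr
      _ = M * (ρ ^ 2 + ρ + 1) := by field_simp
  rw [div_le_iff₀ (by positivity)] at hX0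
  have h8 : (X0 : ℝ) < x := by exact_mod_cast hx
  have h9 : (X0 : ℝ) * (b * ε) < x * (b * ε) := by
    apply mul_lt_mul_of_pos_right h8
    positivity
  linarith

/-- the boundary direction is thin if the set of points with small `x (α x - y)` is -/
theorem Pk.near_bd_core (K : ℕ) (hK : 1 ≤ K) (H : Pk α (K + 2) h)
    (h2 : (h (K + 2)).eval α = 0) (h1 : (h (K + 1)).eval α = 0)
    (hb : (derivative (h (K + 2))).eval α < 0) (h0 : (h K).eval α ≤ 0) {ε : ℝ} (hε : 0 < ε)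
    (X0 : ℕ) (hthin : Thin (fv (K + 2) h) {P | P ∈ Sec α ∧ X0 < P.1 ∧
      P.1 * (α * P.1 - P.2) < (h K).eval α / (derivative (h (K + 2))).eval α + ε}) :
    ∃ r : ℝ, 0 < r ∧ Thin (fv (K + 2) h) (Near α α r) := by
  obtain ⟨M, hM, hE⟩ := H.expand K h2 h1
  set b := -(derivative (h (K + 2))).eval α with hbdef
  have hb0 : 0 < b := by rw [hbdef]; linarith
  have hρ : (h K).eval α / (derivative (h (K + 2))).eval α = -(h K).eval α / b := by
    rw [hbdef, neg_div_neg_eq]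
  rw [hρ] at hthin
  set e := -(h K).eval α with he
  have he0 : 0 ≤ e := by rw [he]; linarith
  have he' : (h K).eval α = -e := by rw [he]; ring
  set ρ := e / b with hρdef
  have hρ0 : 0 ≤ ρ := by positivity
  have hbρ : b * ρ = e := by rw [hρdef]; field_simp
  set l := ε / (ρ + ε) with hl
  have hl0 : 0 < l := by positivity
  have hlρ : l * (ρ + ε) = ε := by rw [hl]; field_simp
  set κ := b * l / 8 with hκ
  have hκ0 : 0 < κ := by positivity
  set r := min 1 (κ / (M + 1)) with hr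
  have hr0 : 0 < r := by positivity
  have hMr : M * r ≤ κ := by
    have h3 : r ≤ κ / (M + 1) := min_le_right _ _
    calc M * r ≤ (M + 1) * (κ / (M + 1)) := by
          apply mul_le_mul (by linarith) h3 hr0.le (by positivity)
      _ = κ := by field_simp
  obtain ⟨x1, hx1⟩ := exists_nat_ge (M / κ + M / (κ * (ρ + ε)) + (ρ + ε) + X0 + 1)
  have n1 : 0 ≤ M / κ := by positivity
  have n2 : 0 ≤ M / (κ * (ρ + ε)) := by positivity
  have n3 : (0 : ℝ) ≤ X0 := Nat.cast_nonneg _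
  have hx1X : X0 < x1 := by
    have h3 : (X0 : ℝ) < x1 := by linarith
    exact_mod_cast h3
  have hx1a : M ≤ κ * x1 := by
    have h3 : M / κ ≤ x1 := by linarith
    rw [div_le_iff₀ hκ0] at h3
    linarith
  have hx1b : M ≤ κ * (ρ + ε) * x1 := by
    have h3 : M / (κ * (ρ + ε)) ≤ x1 := by linarith
    rw [div_le_iff₀ (by positivity)] at h3
    linarith
  have hx1c : ρ + ε ≤ x1 := by linarith
  refine ⟨r, hr0, ?_⟩
  -- the lower bound
  have hlow : ∀ P ∈ Near α α r, x1 ≤ P.1 → ρ + ε ≤ P.1 * (α * P.1 - P.2) →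
      4 * κ * ((P.1 : ℝ) * (P.1 * (α * P.1 - P.2))) ≤ fv (K + 2) h P := by
    rintro P ⟨hP1, hP2, hP3⟩ hxx hw
    obtain ⟨x, y⟩ := P
    change 0 < x at hP2
    change |(y : ℝ) / x - α| < r at hP3
    change x1 ≤ x at hxx
    change ρ + ε ≤ (x : ℝ) * (α * x - y) at hw
    change 4 * κ * ((x : ℝ) * (x * (α * x - y))) ≤ fv (K + 2) h (x, y)
    have hy : (y : ℝ) ≤ α * x := hP1
    have hxpos : (0 : ℝ) < x := by exact_mod_cast hP2
    have hx1' : (1 : ℝ) ≤ x := by exact_mod_cast hP2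
    have hxx' : (x1 : ℝ) ≤ x := by exact_mod_cast hxx
    have hlb := (abs_le.1 (hE x y hP2 hy)).1
    rw [he'] at hlb
    set δ := α * x - y with hδ
    have hδ0 : 0 ≤ δ := by rw [hδ]; linarith
    have hδx : α - (y : ℝ) / x = δ / x := by
      rw [hδ]
      field_simp
    have hs : δ ≤ r * x := by
      have h3 := (abs_lt.1 hP3).1
      have h4 : δ / x < r := by linarith
      rw [div_lt_iff₀ hxpos] at h4
      exact h4.le
    set w := (x : ℝ) * δ with hwdef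
    have hw0 : 0 ≤ w := by positivity
    have m1 : M * δ ^ 2 ≤ κ * w := by
      calc M * δ ^ 2 = M * (δ * δ) := by ring
        _ ≤ M * (r * x * δ) := by gcongr
        _ = M * r * w := by rw [hwdef]; ring
        _ ≤ κ * w := by gcongr
    have m2 : M * δ ≤ κ * w := by
      calc M * δ ≤ κ * x1 * δ := by gcongr
        _ ≤ κ * x * δ := by gcongr
        _ = κ * w := by rw [hwdef]; ring
    have m3 : M * (1 / x) ≤ κ * w := by
      rw [mul_one_div, div_le_iff₀ hxpos]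
      calc M ≤ κ * (ρ + ε) * x1 := hx1b
        _ ≤ κ * (ρ + ε) * x := by gcongr
        _ ≤ κ * w * x := by gcongr
    have m4 : 8 * κ * w ≤ b * w - e := by
      have h3 : 8 * κ = b * l := by rw [hκ]; ring
      rw [h3]
      have h4 : l * w ≤ w - ρ := by
        -- `ρ (ρ + ε) ≤ w ρ`
        have h5 : ρ * (ρ + ε) ≤ ρ * w := mul_le_mul_of_nonneg_left hw hρ0
        have h6 : (w - ρ - l * w) * (ρ + ε) = ρ * w - ρ * (ρ + ε) := by
          have : l * w * (ρ + ε) = ε * w := by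
            calc l * w * (ρ + ε) = l * (ρ + ε) * w := by ring
              _ = ε * w := by rw [hlρ]
          linarith
        have h7 : 0 ≤ (w - ρ - l * w) * (ρ + ε) := by
          rw [h6]
          linarith
        have h8 := nonneg_of_mul_nonneg_left h7 (by positivity : 0 < ρ + ε)
        linarith
      have h9 := mul_le_mul_of_nonneg_left h4 hb0.le
      have h10 : b * (w - ρ) = b * w - e := by rw [mul_sub, hbρ]
      linarith
    have hxK : 0 < (x : ℝ) ^ K := pow_pos hxpos _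
    have h7 : (x : ℝ) ^ K * (5 * κ * w) ≤ fv (K + 2) h (x, y) := by
      have h8 : (x : ℝ) ^ K * (5 * κ * w + M * (δ ^ 2 + δ + 1 / x)) ≤
          (x : ℝ) ^ K * (b * w + -e) := by
        apply mul_le_mul_of_nonneg_left _ hxK.le
        linarith
      rw [mul_add] at h8
      linarith
    have h8 : (x : ℝ) ^ 1 ≤ (x : ℝ) ^ K := pow_le_pow_right₀ hx1' hK
    rw [pow_one] at h8
    have h9 : 4 * κ * (x * w) ≤ (x : ℝ) ^ K * (5 * κ * w) := by
      calc 4 * κ * (x * w) = x * (4 * κ * w) := by ring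
        _ ≤ (x : ℝ) ^ K * (4 * κ * w) := by gcongr
        _ ≤ (x : ℝ) ^ K * (5 * κ * w) := by
            apply mul_le_mul_of_nonneg_left _ hxK.le
            have : 0 ≤ κ * w := by positivity
            linarith
    linarith
  have hxx : ∀ P : ℕ × ℕ, x1 ≤ P.1 → (1 : ℝ) ≤ P.1 ∧ (x1 : ℝ) ≤ P.1 := by
    intro P hP
    have h3 : 1 ≤ P.1 := by omega
    exact ⟨by exact_mod_cast h3, by exact_mod_cast hP⟩
  have habs : ∀ P ∈ Near α α r, |(P.2 : ℝ) - α * P.1| = α * P.1 - P.2 := by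
    rintro P ⟨hP1, _, _⟩
    have hy : (P.2 : ℝ) ≤ α * P.1 := hP1
    rw [abs_of_nonpos (by linarith)]
    ring
  -- the parts
  have hsplit : Near α α r ⊆
      (({P | P ∈ Near α α r ∧ x1 ≤ P.1 ∧ ρ + ε ≤ P.1 * (α * P.1 - P.2) ∧ α * P.1 - P.2 ≤ 1} ∪
        {P | P ∈ Near α α r ∧ x1 ≤ P.1 ∧ ρ + ε ≤ P.1 * (α * P.1 - P.2) ∧ 1 < α * P.1 - P.2}) ∪
      {P | P ∈ Near α α r ∧ x1 ≤ P.1 ∧ P.1 * (α * P.1 - P.2) < ρ + ε}) ∪
      {P | P ∈ Sec α ∧ P.1 ≤ x1} := by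
    intro P hP
    by_cases h2 : x1 ≤ P.1
    · by_cases h3 : ρ + ε ≤ P.1 * (α * P.1 - P.2)
      · by_cases h4 : α * P.1 - P.2 ≤ 1
        · exact Or.inl (Or.inl (Or.inl ⟨hP, h2, h3, h4⟩))
        · exact Or.inl (Or.inl (Or.inr ⟨hP, h2, h3, not_le.1 h4⟩))
      · exact Or.inl (Or.inr ⟨hP, h2, not_le.1 h3⟩)
    · exact Or.inr ⟨hP.1, by omega⟩
  refine Thin.mono (Thin.union (Thin.union (Thin.union ?_ ?_) ?_)
    (thin_finite (finite_x H.pos x1))) hsplit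
  · -- `ρ + ε ≤ x δ`, `δ ≤ 1`
    apply thin_irr H.irr 0 (4 * κ * min (ρ + ε) 1) 0 (by positivity)
    · rintro P ⟨hP1, _, _, hP4⟩
      rw [_root_.sub_zero, habs P hP1]
      exact hP4
    · rintro P ⟨hP1, hP2, hP3, hP4⟩
      obtain ⟨hx1', hxx'⟩ := hxx P hP2
      rw [add_zero]
      refine le_trans ?_ (hlow P hP1 hP2 hP3)
      have h5 : min (ρ + ε) 1 ≤ P.1 * (α * P.1 - P.2) := (min_le_left _ _).trans hP3
      calc 4 * κ * min (ρ + ε) 1 * (P.1 : ℝ) = 4 * κ * (P.1 * min (ρ + ε) 1) := by ring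
        _ ≤ 4 * κ * ((P.1 : ℝ) * (P.1 * (α * P.1 - P.2))) := by gcongr
    · rintro P ⟨hP1, hP2, hP3, hP4⟩
      obtain ⟨hx1', hxx'⟩ := hxx P hP2
      rw [add_zero, _root_.sub_zero]
      refine le_trans ?_ (hlow P hP1 hP2 hP3)
      have hy : (P.2 : ℝ) ≤ α * P.1 := hP1.1
      set δ := α * P.1 - P.2 with hδ
      have hδ0 : 0 ≤ δ := by rw [hδ]; linarith
      have h5 : ((P.2 : ℝ) - α * P.1) ^ 2 = δ ^ 2 := by rw [hδ]; ring
      rw [h5]
      have h6 : δ ^ 2 ≤ δ := by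
        calc δ ^ 2 = δ * δ := by ring
          _ ≤ 1 * δ := by gcongr
          _ = δ := one_mul _
      have h7 : min (ρ + ε) 1 ≤ 1 := min_le_right _ _
      calc 4 * κ * min (ρ + ε) 1 * ((P.1 : ℝ) ^ 2 * δ ^ 2)
          ≤ 4 * κ * 1 * ((P.1 : ℝ) ^ 2 * δ) := by gcongr
        _ = 4 * κ * ((P.1 : ℝ) * (P.1 * δ)) := by ring
  · -- `ρ + ε ≤ x δ`, `1 < δ`
    apply thin_of_bound α (2 * κ) (by positivity)
    rintro P ⟨hP1, hP2, hP3, hP4⟩
    obtain ⟨hx1', hxx'⟩ := hxx P hP2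
    refine le_trans ?_ (hlow P hP1 hP2 hP3)
    rw [habs P hP1]
    have hxpos : (0 : ℝ) < P.1 := by linarith
    set δ := α * P.1 - P.2 with hδ
    have hδ0 : 0 < δ := by linarith
    have hδx : δ ≤ P.1 := by
      have h2 := (abs_lt.1 hP1.2.2).1
      have h3 : r ≤ 1 := min_le_left _ _
      have h4 : α - (P.2 : ℝ) / P.1 = δ / P.1 := by
        rw [hδ]
        field_simp
      have h5 : δ / P.1 < 1 := by linarith
      rw [div_lt_iff₀ hxpos] at h5
      linarith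
    have h6 : (P.1 : ℝ) ^ 2 ≤ (P.1 : ℝ) * (P.1 * δ) := by
      calc (P.1 : ℝ) ^ 2 = (P.1 : ℝ) * (P.1 * 1) := by ring
        _ ≤ (P.1 : ℝ) * (P.1 * δ) := by gcongr
    have h7 : δ ^ 3 ≤ (P.1 : ℝ) * (P.1 * δ) := by
      calc δ ^ 3 = δ * (δ * δ) := by ring
        _ ≤ (P.1 : ℝ) * (P.1 * δ) := by gcongr
    have h8 : 2 * κ * ((P.1 : ℝ) ^ 2 + δ ^ 3) ≤ 2 * κ * (2 * ((P.1 : ℝ) * (P.1 * δ))) := by
      apply mul_le_mul_of_nonneg_left _ (by positivity)
      linarith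
    linarith
  · -- `x δ < ρ + ε`
    apply Thin.mono hthin
    rintro P ⟨hP1, hP2, hP3⟩
    exact ⟨hP1.1, by omega, hP3⟩

/-- points of the sector close to the boundary line with large value -/
theorem Pk.thin_small (H : Pk α d h) (C : ℝ) (X0 : ℕ) (happ : ∀ x y : ℕ, X0 < x →
    (y : ℝ) ≤ α * x → x * (α * x - y) < C → (x : ℝ) ≤ fv d h (x, y)) :
    Thin (fv d h) {P | P ∈ Sec α ∧ X0 < P.1 ∧ P.1 * (α * P.1 - P.2) < C} := by
  obtain ⟨x1, hx1⟩ := exists_nat_ge (|C| + X0 + 1)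
  have hCn := abs_nonneg C
  have hCC := le_abs_self C
  have n3 : (0 : ℝ) ≤ X0 := Nat.cast_nonneg _
  have hx1X : X0 < x1 := by
    have h3 : (X0 : ℝ) < x1 := by linarith
    exact_mod_cast h3
  have hx1c : |C| ≤ x1 := by linarith
  have hsplit : {P : ℕ × ℕ | P ∈ Sec α ∧ X0 < P.1 ∧ P.1 * (α * P.1 - P.2) < C} ⊆
      {P | P ∈ Sec α ∧ x1 ≤ P.1 ∧ P.1 * (α * P.1 - P.2) < C} ∪ {P | P ∈ Sec α ∧ P.1 ≤ x1} := by
    rintro P ⟨hP1, hP2, hP3⟩
    by_cases h2 : x1 ≤ P.1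
    · exact Or.inl ⟨hP1, h2, hP3⟩
    · exact Or.inr ⟨hP1, by omega⟩
  refine Thin.mono (Thin.union ?_ (thin_finite (finite_x H.pos x1))) hsplit
  have hxx : ∀ P : ℕ × ℕ, x1 ≤ P.1 → (1 : ℝ) ≤ P.1 ∧ (x1 : ℝ) ≤ P.1 := by
    intro P hP
    have h3 : 1 ≤ P.1 := by omega
    exact ⟨by exact_mod_cast h3, by exact_mod_cast hP⟩
  apply thin_irr H.irr 0 (1 / (1 + C ^ 2)) 0 (by positivity)
  · rintro P ⟨hP1, hP2, hP3⟩
    obtain ⟨hx1', hxx'⟩ := hxx P hP2
    have hy : (P.2 : ℝ) ≤ α * P.1 := hP1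
    have habs : |(P.2 : ℝ) - α * P.1| = α * P.1 - P.2 := by
      rw [abs_of_nonpos (by linarith)]
      ring
    rw [_root_.sub_zero, habs]
    have hxpos : (0 : ℝ) < P.1 := by linarith
    by_contra hcon
    push Not at hcon
    have h5 : (P.1 : ℝ) * 1 < P.1 * (α * P.1 - P.2) := mul_lt_mul_of_pos_left hcon hxpos
    linarith
  · rintro P ⟨hP1, hP2, hP3⟩
    obtain ⟨hx1', hxx'⟩ := hxx P hP2
    rw [add_zero]
    refine le_trans ?_ (happ P.1 P.2 (by omega) hP1 hP3)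
    have h6 : 1 / (1 + C ^ 2) ≤ 1 := by
      apply div_le_self zero_le_one
      have := sq_nonneg C
      linarith
    calc 1 / (1 + C ^ 2) * (P.1 : ℝ) ≤ 1 * P.1 := by gcongr
      _ = P.1 := one_mul _
  · rintro P ⟨hP1, hP2, hP3⟩
    obtain ⟨hx1', hxx'⟩ := hxx P hP2
    rw [add_zero, _root_.sub_zero]
    refine le_trans ?_ (happ P.1 P.2 (by omega) hP1 hP3)
    have hy : (P.2 : ℝ) ≤ α * P.1 := hP1
    have hxpos : (0 : ℝ) < P.1 := by linarith
    have h7 : (P.1 : ℝ) ^ 2 * ((P.2 : ℝ) - α * P.1) ^ 2 = (P.1 * (α * P.1 - P.2)) ^ 2 := by ring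
    rw [h7]
    have h8 : 0 ≤ (P.1 : ℝ) * (α * P.1 - P.2) := mul_nonneg hxpos.le (by linarith)
    have h9 : ((P.1 : ℝ) * (α * P.1 - P.2)) ^ 2 ≤ C ^ 2 := by
      have := hP3.le
      gcongr
    calc 1 / (1 + C ^ 2) * ((P.1 : ℝ) * (α * P.1 - P.2)) ^ 2
        ≤ 1 / (1 + C ^ 2) * (1 + C ^ 2) := by
          apply mul_le_mul_of_nonneg_left _ (by positivity)
          linarith
      _ = 1 := by field_simp
      _ ≤ P.1 := hx1'

end PP72
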