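import Pool.Agent.PP72.Side

/-!
Quintics: regions without valleys, and the estimates in the valleys.
-/

open Polynomial Finset Filter

namespace PP72

/-- the exponents which occur -/
def T5 : Finset (ℕ × ℕ) := {(4, 0), (3, 1), (3, 0), (2, 2), (2, 1), (2, 0), (1, 4), (1, 3), (1, 2),
  (1, 1), (1, 0), (0, 5), (0, 4), (0, 3), (0, 2), (0, 1), (0, 0)}

/-- the polynomial function with these exponents -/
noncomputable def G5 (c : ℕ × ℕ → ℚ) (x U : ℝ) : ℝ := ∑ p ∈ T5, (c p : ℝ) * mon p x U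

theorem G5_eq (c : ℕ × ℕ → ℚ) (x U : ℝ) : G5 c x U =
    c (4, 0) * x ^ 4 + (c (3, 1) * U + c (3, 0)) * x ^ 3 +
    (c (2, 2) * U ^ 2 + c (2, 1) * U + c (2, 0)) * x ^ 2 +
    (c (1, 4) * U ^ 4 + c (1, 3) * U ^ 3 + c (1, 2) * U ^ 2 + c (1, 1) * U + c (1, 0)) * x +
    (c (0, 5) * U ^ 5 + c (0, 4) * U ^ 4 + c (0, 3) * U ^ 3 + c (0, 2) * U ^ 2 + c (0, 1) * U +
      c (0, 0)) := by
  unfold G5 T5
  rw [Finset.sum_insert (by decide), Finset.sum_insert (by decide), Finset.sum_insert (by decide),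
    Finset.sum_insert (by decide), Finset.sum_insert (by decide), Finset.sum_insert (by decide),
    Finset.sum_insert (by decide), Finset.sum_insert (by decide), Finset.sum_insert (by decide),
    Finset.sum_insert (by decide), Finset.sum_insert (by decide), Finset.sum_insert (by decide),
    Finset.sum_insert (by decide), Finset.sum_insert (by decide), Finset.sum_insert (by decide),
    Finset.sum_insert (by decide), Finset.sum_singleton]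
  unfold mon
  simp only [pow_zero, pow_one, mul_one, one_mul]
  ring

/-- positive main monomials -/
theorem pos_main (c : ℕ × ℕ → ℚ) (m1 m2 m3 : ℕ × ℕ)
    (h : ∀ p ∈ ({m1, m2, m3} : Finset (ℕ × ℕ)), 0 < c p) :
    ∃ δ0 : ℝ, 0 < δ0 ∧ ∀ x U : ℝ, 1 ≤ U → U ≤ x →
      δ0 * (mon m1 x U + mon m2 x U + mon m3 x U) ≤
        ∑ p ∈ ({m1, m2, m3} : Finset (ℕ × ℕ)), (c p : ℝ) * mon p x U := by
  have h1 : (0 : ℝ) < c m1 := by exact_mod_cast h m1 (by simp)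
  have h2 : (0 : ℝ) < c m2 := by exact_mod_cast h m2 (by simp)
  have h3 : (0 : ℝ) < c m3 := by exact_mod_cast h m3 (by simp)
  refine ⟨min (c m1 : ℝ) (min (c m2) (c m3)) / 3, by positivity, fun x U hU hx => ?_⟩
  have hx0 : 0 ≤ x := by linarith
  have hU0 : 0 ≤ U := by linarith
  set Sg := ∑ p ∈ ({m1, m2, m3} : Finset (ℕ × ℕ)), (c p : ℝ) * mon p x U with hSg
  have hnn : ∀ p ∈ ({m1, m2, m3} : Finset (ℕ × ℕ)), 0 ≤ (c p : ℝ) * mon p x U := by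
    intro p hp
    have : (0 : ℝ) < c p := by exact_mod_cast h p hp
    exact mul_nonneg this.le (mon_nonneg p hx0 hU0)
  have e1 : (c m1 : ℝ) * mon m1 x U ≤ Sg :=
    Finset.single_le_sum (f := fun p => (c p : ℝ) * mon p x U) hnn (by simp)
  have e2 : (c m2 : ℝ) * mon m2 x U ≤ Sg :=
    Finset.single_le_sum (f := fun p => (c p : ℝ) * mon p x U) hnn (by simp)
  have e3 : (c m3 : ℝ) * mon m3 x U ≤ Sg :=
    Finset.single_le_sum (f := fun p => (c p : ℝ) * mon p x U) hnn (by simp)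
  have p1 := mon_nonneg m1 hx0 hU0
  have p2 := mon_nonneg m2 hx0 hU0
  have p3 := mon_nonneg m3 hx0 hU0
  set μ := min (c m1 : ℝ) (min (c m2) (c m3)) with hμ
  have f1 : μ * mon m1 x U ≤ c m1 * mon m1 x U := by
    gcongr
    exact min_le_left _ _
  have f2 : μ * mon m2 x U ≤ c m2 * mon m2 x U := by
    gcongr
    exact (min_le_right _ _).trans (min_le_left _ _)
  have f3 : μ * mon m3 x U ≤ c m3 * mon m3 x U := by
    gcongr
    exact (min_le_right _ _).trans (min_le_right _ _)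
  linarith

/-- the general region lemma, with a side condition `Q` -/
theorem region5 (c : ℕ × ℕ → ℚ) (m1 m2 m3 : ℕ × ℕ) (T0 Z : Finset (ℕ × ℕ)) (hT0 : T0 ⊆ T5)
    (hZ : ∀ p ∈ Z, c p = 0) (hdom : ∀ p ∈ T5 \ T0, p ∈ Z ∨ Dom p m1 m2 m3) (δ0 : ℝ) (hδ0 : 0 < δ0)
    (Q : ℝ → ℝ → Prop)
    (hmain : ∀ x U : ℝ, 1 ≤ U → U ≤ x → Q x U →
      δ0 * (mon m1 x U + mon m2 x U + mon m3 x U) ≤ ∑ p ∈ T0, (c p : ℝ) * mon p x U) :
    Ev fun x U => Q x U → δ0 / 2 * (mon m1 x U + mon m2 x U + mon m3 x U) ≤ G5 c x U := by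
  have h1 := rest_small (T5 \ T0) (fun p => (c p : ℝ)) m1 m2 m3 (by
    intro p hp
    rcases hdom p hp with h | h
    · left
      have := hZ p h
      rw [this]
      norm_num
    · exact Or.inr h) (δ0 / 2) (by positivity)
  refine h1.mono ?_
  intro x U hU hx h2 hQ
  have h3 := hmain x U hU hx hQ
  have h4 : G5 c x U = ∑ p ∈ T5 \ T0, (c p : ℝ) * mon p x U + ∑ p ∈ T0, (c p : ℝ) * mon p x U := by
    unfold G5
    rw [Finset.sum_sdiff hT0]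
  have h5 := (abs_le.1 h2).1
  rw [h4]
  linarith

theorem ev_low (m1 m2 m3 : ℕ × ℕ) (G : ℝ → ℝ → ℝ) (δ0 : ℝ) (hδ0 : 0 < δ0) (h1 : 2 ≤ m1.1)
    (h2 : 3 ≤ m2.1 + m2.2)
    (h : Ev fun x U => δ0 * (mon m1 x U + mon m2 x U + mon m3 x U) ≤ G x U) :
    Ev fun x U => δ0 * (x ^ 2 + U ^ 3) ≤ G x U := by
  refine h.mono ?_
  intro x U hU hx h3
  have hx1 : 1 ≤ x := hU.trans hx
  have hx0 : 0 ≤ x := by linarith
  have hU0 : 0 ≤ U := by linarith
  have p3 := mon_nonneg m3 hx0 hU0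
  have e1 : x ^ 2 ≤ mon m1 x U := by
    unfold mon
    have a1 : x ^ 2 ≤ x ^ m1.1 := pow_le_pow_right₀ hx1 h1
    have a2 : 1 ≤ U ^ m1.2 := one_le_pow₀ hU
    calc x ^ 2 = x ^ 2 * 1 := (mul_one _).symm
      _ ≤ x ^ m1.1 * U ^ m1.2 := by gcongr
  have e2 : U ^ 3 ≤ mon m2 x U := by
    unfold mon
    calc U ^ 3 ≤ U ^ (m2.1 + m2.2) := pow_le_pow_right₀ hU h2
      _ = U ^ m2.1 * U ^ m2.2 := pow_add _ _ _
      _ ≤ x ^ m2.1 * U ^ m2.2 := by gcongr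
  refine le_trans ?_ h3
  apply mul_le_mul_of_nonneg_left _ hδ0.le
  linarith

/-- regions with positive main monomials -/
theorem region_pos (c : ℕ × ℕ → ℚ) (m1 m2 m3 : ℕ × ℕ) (Z : Finset (ℕ × ℕ))
    (hpos : ∀ p ∈ ({m1, m2, m3} : Finset (ℕ × ℕ)), 0 < c p)
    (hZ : ∀ p ∈ Z, c p = 0)
    (hT0 : ({m1, m2, m3} : Finset (ℕ × ℕ)) ⊆ T5)
    (hdom : ∀ p ∈ T5 \ {m1, m2, m3}, p ∈ Z ∨ Dom p m1 m2 m3)
    (h1 : 2 ≤ m1.1) (h2 : 3 ≤ m2.1 + m2.2) :
    ∃ δ : ℝ, 0 < δ ∧ Ev fun x U => δ * (x ^ 2 + U ^ 3) ≤ G5 c x U := by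
  obtain ⟨δ0, hδ0, hmain⟩ := pos_main c m1 m2 m3 hpos
  have h3 := region5 c m1 m2 m3 {m1, m2, m3} Z hT0 hZ hdom δ0 hδ0 (fun _ _ => True)
    (fun x U hU hx _ => hmain x U hU hx)
  refine ⟨δ0 / 2, by positivity, ?_⟩
  exact ev_low m1 m2 m3 _ _ (by positivity) h1 h2 (h3.mono fun x U _ _ h => h trivial)

/-- definite quadratic forms -/
theorem def_form (a b g : ℝ) (ha : 0 < a) (hg : 0 < g) (hb : 0 ≤ b ∨ b ^ 2 < 4 * a * g) :
    ∃ δ0 : ℝ, 0 < δ0 ∧ ∀ x V : ℝ, (0 ≤ x ∧ 0 ≤ V ∨ b ^ 2 < 4 * a * g) →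
      δ0 * (x ^ 2 + V ^ 2) ≤ a * x ^ 2 + b * V * x + g * V ^ 2 := by
  by_cases hb2 : b ^ 2 < 4 * a * g
  · set δ0 := (4 * a * g - b ^ 2) / (8 * (a + g)) with hδ
    have hδ0 : 0 < δ0 := by
      apply div_pos <;> nlinarith
    have e1 : δ0 * (8 * (a + g)) = 4 * a * g - b ^ 2 := by
      rw [hδ]
      field_simp
    have hδC : δ0 < a := by
      by_contra hcon
      push Not at hcon
      nlinarith [mul_pos ha hg, sq_nonneg b]
    refine ⟨δ0, hδ0, fun x V _ => ?_⟩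
    have e2 : b ^ 2 ≤ 4 * (a - δ0) * (g - δ0) := by nlinarith
    have e3 : 0 ≤ 4 * (a - δ0) * ((a - δ0) * x ^ 2 + b * V * x + (g - δ0) * V ^ 2) := by
      have : 4 * (a - δ0) * ((a - δ0) * x ^ 2 + b * V * x + (g - δ0) * V ^ 2) =
          (2 * (a - δ0) * x + b * V) ^ 2 + (4 * (a - δ0) * (g - δ0) - b ^ 2) * V ^ 2 := by ring
      rw [this]
      have : 0 ≤ (4 * (a - δ0) * (g - δ0) - b ^ 2) * V ^ 2 :=
        mul_nonneg (by linarith) (sq_nonneg V)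
      positivity
    have e4 : 0 ≤ (a - δ0) * x ^ 2 + b * V * x + (g - δ0) * V ^ 2 := by
      by_contra hneg
      push Not at hneg
      have : 4 * (a - δ0) * ((a - δ0) * x ^ 2 + b * V * x + (g - δ0) * V ^ 2) < 0 :=
        mul_neg_of_pos_of_neg (by linarith) hneg
      linarith
    linarith
  · have hb0 : 0 ≤ b := by
      rcases hb with h | h
      · exact h
      · exact absurd h hb2
    refine ⟨min a g, by positivity, ?_⟩
    rintro x V (⟨hx, hV⟩ | h)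
    · have h1 : min a g * x ^ 2 ≤ a * x ^ 2 := by gcongr; exact min_le_left _ _
      have h2 : min a g * V ^ 2 ≤ g * V ^ 2 := by gcongr; exact min_le_right _ _
      have h3 : 0 ≤ b * V * x := by positivity
      linarith
    · exact absurd h hb2

/-- small terms -/
theorem pow_small (a b : ℕ) (hab : b + 1 ≤ a) (ε : ℝ) (hε : 0 < ε) :
    ∀ᶠ U : ℝ in atTop, U ^ b ≤ ε * U ^ a := by
  filter_upwards [eventually_ge_atTop (max 1 (1 / ε))] with U hU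
  have hU1 : 1 ≤ U := (le_max_left _ _).trans hU
  have hU2 : 1 / ε ≤ U := (le_max_right _ _).trans hU
  rw [div_le_iff₀ hε] at hU2
  have h1 : U ^ (b + 1) ≤ U ^ a := pow_le_pow_right₀ hU1 hab
  calc U ^ b = 1 * U ^ b := (one_mul _).symm
    _ ≤ (U * ε) * U ^ b := by gcongr
    _ = ε * U ^ (b + 1) := by ring
    _ ≤ ε * U ^ a := by gcongr

theorem const_small (a k b : ℕ) (h : b + 1 ≤ k) (c ε : ℝ) (hε : 0 < ε) :
    ∀ᶠ U : ℝ in atTop, ∀ X : ℝ, |c * U ^ b| ≤ ε * (X ^ 2 * U ^ a + U ^ k) := by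
  have hc : 0 < |c| + 1 := by positivity
  filter_upwards [pow_small k b h (ε / (|c| + 1)) (by positivity), eventually_ge_atTop 1]
    with U h1 hU X
  have hU0 : 0 ≤ U := by linarith
  rw [abs_mul, abs_of_nonneg (by positivity : (0 : ℝ) ≤ U ^ b)]
  have h2 : |c| * U ^ b ≤ ε * U ^ k := by
    calc |c| * U ^ b ≤ (|c| + 1) * (ε / (|c| + 1) * U ^ k) := by
          gcongr
          linarith
      _ = ε * U ^ k := by field_simp
  have h3 : 0 ≤ ε * (X ^ 2 * U ^ a) := by positivity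
  linarith

theorem sq_small (a k b : ℕ) (h : b + 1 ≤ a) (c ε : ℝ) (hε : 0 < ε) :
    ∀ᶠ U : ℝ in atTop, ∀ X : ℝ, |c * (X ^ 2 * U ^ b)| ≤ ε * (X ^ 2 * U ^ a + U ^ k) := by
  have hc : 0 < |c| + 1 := by positivity
  filter_upwards [pow_small a b h (ε / (|c| + 1)) (by positivity), eventually_ge_atTop 1]
    with U h1 hU X
  have hU0 : 0 ≤ U := by linarith
  rw [abs_mul, abs_of_nonneg (by positivity : (0 : ℝ) ≤ X ^ 2 * U ^ b)]
  have h2 : |c| * (X ^ 2 * U ^ b) ≤ ε * (X ^ 2 * U ^ a) := by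
    calc |c| * (X ^ 2 * U ^ b) ≤ (|c| + 1) * (X ^ 2 * (ε / (|c| + 1) * U ^ a)) := by
          gcongr
          linarith
      _ = ε * (X ^ 2 * U ^ a) := by field_simp
  have h3 : 0 ≤ ε * U ^ k := by positivity
  linarith

theorem lin_small (a k b : ℕ) (h : 2 * b + 1 ≤ a + k) (c ε : ℝ) (hε : 0 < ε) :
    ∀ᶠ U : ℝ in atTop, ∀ X : ℝ, |c * (X * U ^ b)| ≤ ε * (X ^ 2 * U ^ a + U ^ k) := by
  have hc : 0 < |c| + 1 := by positivity
  filter_upwards [pow_small (a + k) (2 * b) h ((ε / (|c| + 1)) ^ 2) (by positivity),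
    eventually_ge_atTop 1] with U h1 hU X
  have hU0 : 0 ≤ U := by linarith
  set S := X ^ 2 * U ^ a + U ^ k with hS
  have hS0 : 0 ≤ S := by positivity
  have h2 : |X * U ^ b| ≤ ε / (|c| + 1) * S := by
    apply abs_le_of_sq_le_sq _ (by positivity)
    calc (X * U ^ b) ^ 2 = X ^ 2 * U ^ (2 * b) := by ring
      _ ≤ X ^ 2 * ((ε / (|c| + 1)) ^ 2 * U ^ (a + k)) := by gcongr
      _ = (ε / (|c| + 1)) ^ 2 * ((X ^ 2 * U ^ a) * U ^ k) := by rw [pow_add]; ring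
      _ ≤ (ε / (|c| + 1)) ^ 2 * (S * S) := by
          have a1 : X ^ 2 * U ^ a ≤ S := by
            have : 0 ≤ U ^ k := by positivity
            linarith
          have a2 : U ^ k ≤ S := by
            have : 0 ≤ X ^ 2 * U ^ a := by positivity
            linarith
          gcongr
      _ = (ε / (|c| + 1) * S) ^ 2 := by ring
  rw [abs_mul]
  calc |c| * |X * U ^ b| ≤ (|c| + 1) * (ε / (|c| + 1) * S) := by
        gcongr
        linarith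
    _ = ε * S := by field_simp

/-- the polynomials in the valleys -/
def Vf (C r e1 e0 g3 g2 g1 g0 s5 s4 s3 s2 s1 s0 X U : ℝ) : ℝ :=
  C * X ^ 3 + (r * U ^ 2 + e1 * U + e0) * X ^ 2 +
    (g3 * U ^ 3 + g2 * U ^ 2 + g1 * U + g0) * X +
    (s5 * U ^ 5 + s4 * U ^ 4 + s3 * U ^ 3 + s2 * U ^ 2 + s1 * U + s0)

theorem cube_small (C η : ℝ) (hC : 0 ≤ C) {X U : ℝ} (hX : |X| ≤ η * U ^ 2) :
    -(C * η * (X ^ 2 * U ^ 2)) ≤ C * X ^ 3 := by
  have h1 := (abs_le.1 hX).1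
  have h2 : 0 ≤ C * X ^ 2 := by positivity
  nlinarith

theorem final_low {δ X U S : ℝ} (k : ℕ) (a : ℕ) (ha : 1 ≤ a) (hk : 2 ≤ k) (hU : 1 ≤ U) (hδ : 0 ≤ δ)
    (h : δ * (X ^ 2 * U ^ a + U ^ k) ≤ S) : δ * (U * X ^ 2 + U ^ 2) ≤ S := by
  have h1 : U ≤ U ^ a := by
    calc U = U ^ 1 := (pow_one U).symm
      _ ≤ U ^ a := pow_le_pow_right₀ hU ha
  have h2 : U ^ 2 ≤ U ^ k := pow_le_pow_right₀ hU hk
  refine le_trans ?_ h
  have h3 : U * X ^ 2 ≤ X ^ 2 * U ^ a := by nlinarith [sq_nonneg X]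
  gcongr

theorem v4_stage1 (C r e1 e0 g3 g2 g1 g0 s5 s4 s3 s2 s1 s0 : ℝ) (hC : 0 < C) (hr : 0 < r)
    (hs : 0 < s5) : ∃ η : ℝ, 0 < η ∧ ∃ δ : ℝ, 0 < δ ∧ ∀ᶠ U : ℝ in atTop, ∀ X : ℝ,
      |X| ≤ η * U ^ 2 →
      δ * (U * X ^ 2 + U ^ 2) ≤ Vf C r e1 e0 g3 g2 g1 g0 s5 s4 s3 s2 s1 s0 X U := by
  set δ0 := min r s5 with hδ0
  have hδ0p : 0 < δ0 := by positivity
  refine ⟨δ0 / (4 * C), by positivity, δ0 / 4, by positivity, ?_⟩
  have hε : 0 < δ0 / 44 := by positivity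
  filter_upwards [sq_small 2 5 1 (by norm_num) e1 _ hε, sq_small 2 5 0 (by norm_num) e0 _ hε,
    lin_small 2 5 3 (by norm_num) g3 _ hε, lin_small 2 5 2 (by norm_num) g2 _ hε,
    lin_small 2 5 1 (by norm_num) g1 _ hε, lin_small 2 5 0 (by norm_num) g0 _ hε,
    const_small 2 5 4 (by norm_num) s4 _ hε, const_small 2 5 3 (by norm_num) s3 _ hε,
    const_small 2 5 2 (by norm_num) s2 _ hε, const_small 2 5 1 (by norm_num) s1 _ hε,
    const_small 2 5 0 (by norm_num) s0 _ hε, eventually_ge_atTop 1]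
    with U a1 a2 a3 a4 a5 a6 a7 a8 a9 a10 a11 hU X hX
  have b1 := (abs_le.1 (a1 X)).1
  have b2 := (abs_le.1 (a2 X)).1
  have b3 := (abs_le.1 (a3 X)).1
  have b4 := (abs_le.1 (a4 X)).1
  have b5 := (abs_le.1 (a5 X)).1
  have b6 := (abs_le.1 (a6 X)).1
  have b7 := (abs_le.1 (a7 X)).1
  have b8 := (abs_le.1 (a8 X)).1
  have b9 := (abs_le.1 (a9 X)).1
  have b10 := (abs_le.1 (a10 X)).1
  have b11 := (abs_le.1 (a11 X)).1
  have hU0 : 0 ≤ U := by linarith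
  have b12 := cube_small C (δ0 / (4 * C)) hC.le hX
  have e12 : C * (δ0 / (4 * C)) = δ0 / 4 := by field_simp
  rw [e12] at b12
  have m1 : δ0 * (X ^ 2 * U ^ 2) ≤ r * (X ^ 2 * U ^ 2) := by
    gcongr
    exact min_le_left _ _
  have m2 : δ0 * U ^ 5 ≤ s5 * U ^ 5 := by
    gcongr
    exact min_le_right _ _
  apply final_low 5 2 (by norm_num) (by norm_num) hU (by positivity)
  unfold Vf
  have m3 : 0 ≤ δ0 * U ^ 5 := by positivity
  have m4 : 0 ≤ δ0 * (X ^ 2 * U ^ 2) := by positivity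
  simp only [pow_zero, pow_one, mul_one] at b1 b2 b3 b4 b5 b6 b7 b8 b9 b10 b11
  linarith

theorem v4_stage2 (C r e1 e0 g3 g2 g1 g0 s4 s3 s2 s1 s0 : ℝ) (hC : 0 < C) (hr : 0 < r)
    (hs : 0 < s4) (hd : g3 ^ 2 < 4 * r * s4) : ∃ η : ℝ, 0 < η ∧ ∃ δ : ℝ, 0 < δ ∧
      ∀ᶠ U : ℝ in atTop, ∀ X : ℝ, |X| ≤ η * U ^ 2 →
      δ * (U * X ^ 2 + U ^ 2) ≤ Vf C r e1 e0 g3 g2 g1 g0 0 s4 s3 s2 s1 s0 X U := by
  obtain ⟨δ0, hδ0p, hdef⟩ := def_form r g3 s4 hr hs (Or.inr hd)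
  refine ⟨δ0 / (4 * C), by positivity, δ0 / 4, by positivity, ?_⟩
  have hε : 0 < δ0 / 44 := by positivity
  filter_upwards [sq_small 2 4 1 (by norm_num) e1 _ hε, sq_small 2 4 0 (by norm_num) e0 _ hε,
    lin_small 2 4 2 (by norm_num) g2 _ hε,
    lin_small 2 4 1 (by norm_num) g1 _ hε, lin_small 2 4 0 (by norm_num) g0 _ hε,
    const_small 2 4 3 (by norm_num) s3 _ hε,
    const_small 2 4 2 (by norm_num) s2 _ hε, const_small 2 4 1 (by norm_num) s1 _ hε,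
    const_small 2 4 0 (by norm_num) s0 _ hε, eventually_ge_atTop 1]
    with U a1 a2 a4 a5 a6 a8 a9 a10 a11 hU X hX
  have b1 := (abs_le.1 (a1 X)).1
  have b2 := (abs_le.1 (a2 X)).1
  have b4 := (abs_le.1 (a4 X)).1
  have b5 := (abs_le.1 (a5 X)).1
  have b6 := (abs_le.1 (a6 X)).1
  have b8 := (abs_le.1 (a8 X)).1
  have b9 := (abs_le.1 (a9 X)).1
  have b10 := (abs_le.1 (a10 X)).1
  have b11 := (abs_le.1 (a11 X)).1
  have hU0 : 0 ≤ U := by linarith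
  have b12 := cube_small C (δ0 / (4 * C)) hC.le hX
  have e12 : C * (δ0 / (4 * C)) = δ0 / 4 := by field_simp
  rw [e12] at b12
  have m1 := hdef X U (Or.inr hd)
  have m2 : U ^ 2 * (δ0 * (X ^ 2 + U ^ 2)) ≤ U ^ 2 * (r * X ^ 2 + g3 * U * X + s4 * U ^ 2) := by
    gcongr
  apply final_low 4 2 (by norm_num) (by norm_num) hU (by positivity)
  unfold Vf
  have m3 : 0 ≤ δ0 * U ^ 4 := by positivity
  have m4 : 0 ≤ δ0 * (X ^ 2 * U ^ 2) := by positivity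
  simp only [pow_zero, pow_one, mul_one] at b1 b2 b4 b5 b6 b8 b9 b10 b11
  linarith

theorem v4_stage3 (C r e1 e0 g2 g1 g0 s3 s2 s1 s0 : ℝ) (hC : 0 < C) (hr : 0 < r)
    (hs : 0 < s3) : ∃ η : ℝ, 0 < η ∧ ∃ δ : ℝ, 0 < δ ∧
      ∀ᶠ U : ℝ in atTop, ∀ X : ℝ, |X| ≤ η * U ^ 2 →
      δ * (U * X ^ 2 + U ^ 2) ≤ Vf C r e1 e0 0 g2 g1 g0 0 0 s3 s2 s1 s0 X U := by
  set δ0 := min r s3 with hδ0
  have hδ0p : 0 < δ0 := by positivity
  refine ⟨δ0 / (4 * C), by positivity, δ0 / 4, by positivity, ?_⟩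
  have hε : 0 < δ0 / 44 := by positivity
  filter_upwards [sq_small 2 3 1 (by norm_num) e1 _ hε, sq_small 2 3 0 (by norm_num) e0 _ hε,
    lin_small 2 3 2 (by norm_num) g2 _ hε,
    lin_small 2 3 1 (by norm_num) g1 _ hε, lin_small 2 3 0 (by norm_num) g0 _ hε,
    const_small 2 3 2 (by norm_num) s2 _ hε, const_small 2 3 1 (by norm_num) s1 _ hε,
    const_small 2 3 0 (by norm_num) s0 _ hε, eventually_ge_atTop 1]
    with U a1 a2 a4 a5 a6 a9 a10 a11 hU X hX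
  have b1 := (abs_le.1 (a1 X)).1
  have b2 := (abs_le.1 (a2 X)).1
  have b4 := (abs_le.1 (a4 X)).1
  have b5 := (abs_le.1 (a5 X)).1
  have b6 := (abs_le.1 (a6 X)).1
  have b9 := (abs_le.1 (a9 X)).1
  have b10 := (abs_le.1 (a10 X)).1
  have b11 := (abs_le.1 (a11 X)).1
  have hU0 : 0 ≤ U := by linarith
  have b12 := cube_small C (δ0 / (4 * C)) hC.le hX
  have e12 : C * (δ0 / (4 * C)) = δ0 / 4 := by field_simp
  rw [e12] at b12
  have m1 : δ0 * (X ^ 2 * U ^ 2) ≤ r * (X ^ 2 * U ^ 2) := by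
    gcongr
    exact min_le_left _ _
  have m2 : δ0 * U ^ 3 ≤ s3 * U ^ 3 := by
    gcongr
    exact min_le_right _ _
  apply final_low 3 2 (by norm_num) (by norm_num) hU (by positivity)
  unfold Vf
  have m3 : 0 ≤ δ0 * U ^ 3 := by positivity
  have m4 : 0 ≤ δ0 * (X ^ 2 * U ^ 2) := by positivity
  simp only [pow_zero, pow_one, mul_one] at b1 b2 b4 b5 b6 b9 b10 b11
  linarith

/-- the last stage, where `X` takes discrete values -/
theorem v4_stage4 (C r e1 e0 g1 g0 s2 s1 s0 c1 : ℝ) (hC : 0 < C) (hr : 0 < r)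
    (hc : 0 < c1) : ∃ η : ℝ, 0 < η ∧ ∃ δ : ℝ, 0 < δ ∧
      ∀ᶠ U : ℝ in atTop, ∀ X : ℝ, |X| ≤ η * U ^ 2 → c1 ≤ r * X ^ 2 + s2 →
      δ * (U * X ^ 2 + U ^ 2) ≤ Vf C r e1 e0 0 0 g1 g0 0 0 0 s2 s1 s0 X U := by
  -- `c1 ≤ r X² + s2` gives `δ0 (1 + X²) ≤ r X² + s2`
  set t := min (1 / 2) (c1 / (4 * (|s2| + 1))) with ht
  have ht0 : 0 < t := by positivity
  have ht1 : t ≤ 1 / 2 := min_le_left _ _
  have ht2 : t * |s2| ≤ c1 / 4 := by
    have h1 : t ≤ c1 / (4 * (|s2| + 1)) := min_le_right _ _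
    calc t * |s2| ≤ c1 / (4 * (|s2| + 1)) * (|s2| + 1) := by
          gcongr
          linarith
      _ = c1 / 4 := by field_simp
  set δ0 := min (t * r) (c1 / 4) with hδ0
  have hδ0p : 0 < δ0 := by positivity
  have hlow : ∀ X : ℝ, c1 ≤ r * X ^ 2 + s2 → δ0 * (X ^ 2 + 1) ≤ r * X ^ 2 + s2 := by
    intro X hX
    have h1 : (1 - t) * c1 ≤ (1 - t) * (r * X ^ 2 + s2) := by
      have : 0 ≤ 1 - t := by linarith
      gcongr
    have h2 : δ0 * X ^ 2 ≤ t * r * X ^ 2 := by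
      gcongr
      exact min_le_left _ _
    have h3 : δ0 ≤ c1 / 4 := min_le_right _ _
    have h4 : -(c1 / 4) ≤ t * s2 := by
      have := neg_abs_le s2
      nlinarith
    have h5 : c1 / 2 ≤ (1 - t) * c1 := by nlinarith
    nlinarith
  refine ⟨δ0 / (4 * C), by positivity, δ0 / 4, by positivity, ?_⟩
  have hε : 0 < δ0 / 44 := by positivity
  filter_upwards [sq_small 2 2 1 (by norm_num) e1 _ hε, sq_small 2 2 0 (by norm_num) e0 _ hε,
    lin_small 2 2 1 (by norm_num) g1 _ hε, lin_small 2 2 0 (by norm_num) g0 _ hε,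
    const_small 2 2 1 (by norm_num) s1 _ hε,
    const_small 2 2 0 (by norm_num) s0 _ hε, eventually_ge_atTop 1]
    with U a1 a2 a5 a6 a10 a11 hU X hX hcX
  have b1 := (abs_le.1 (a1 X)).1
  have b2 := (abs_le.1 (a2 X)).1
  have b5 := (abs_le.1 (a5 X)).1
  have b6 := (abs_le.1 (a6 X)).1
  have b10 := (abs_le.1 (a10 X)).1
  have b11 := (abs_le.1 (a11 X)).1
  have hU0 : 0 ≤ U := by linarith
  have b12 := cube_small C (δ0 / (4 * C)) hC.le hX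
  have e12 : C * (δ0 / (4 * C)) = δ0 / 4 := by field_simp
  rw [e12] at b12
  have m1 := hlow X hcX
  have m2 : U ^ 2 * (δ0 * (X ^ 2 + 1)) ≤ U ^ 2 * (r * X ^ 2 + s2) := by
    gcongr
  apply final_low 2 2 (by norm_num) (by norm_num) hU (by positivity)
  unfold Vf
  have m3 : 0 ≤ δ0 * U ^ 2 := by positivity
  have m4 : 0 ≤ δ0 * (X ^ 2 * U ^ 2) := by positivity
  simp only [pow_zero, pow_one, mul_one] at b1 b2 b5 b6 b10 b11
  linarith

/-- the valleys for zeros of order five -/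
theorem v5_stage1 (r e0 g2 g1 g0 s4 s3 s2 s1 s0 : ℝ) (hr : 0 < r)
    (hs : 0 < s4) : ∃ δ : ℝ, 0 < δ ∧ ∀ᶠ U : ℝ in atTop, ∀ X : ℝ,
      δ * (U * X ^ 2 + U ^ 2) ≤ Vf 0 0 r e0 0 g2 g1 g0 0 s4 s3 s2 s1 s0 X U := by
  set δ0 := min r s4 with hδ0
  have hδ0p : 0 < δ0 := by positivity
  refine ⟨δ0 / 4, by positivity, ?_⟩
  have hε : 0 < δ0 / 44 := by positivity
  filter_upwards [sq_small 1 4 0 (by norm_num) e0 _ hε,
    lin_small 1 4 2 (by norm_num) g2 _ hε,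
    lin_small 1 4 1 (by norm_num) g1 _ hε, lin_small 1 4 0 (by norm_num) g0 _ hε,
    const_small 1 4 3 (by norm_num) s3 _ hε,
    const_small 1 4 2 (by norm_num) s2 _ hε, const_small 1 4 1 (by norm_num) s1 _ hε,
    const_small 1 4 0 (by norm_num) s0 _ hε, eventually_ge_atTop 1]
    with U a2 a4 a5 a6 a8 a9 a10 a11 hU X
  have b2 := (abs_le.1 (a2 X)).1
  have b4 := (abs_le.1 (a4 X)).1
  have b5 := (abs_le.1 (a5 X)).1
  have b6 := (abs_le.1 (a6 X)).1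
  have b8 := (abs_le.1 (a8 X)).1
  have b9 := (abs_le.1 (a9 X)).1
  have b10 := (abs_le.1 (a10 X)).1
  have b11 := (abs_le.1 (a11 X)).1
  have hU0 : 0 ≤ U := by linarith
  have m1 : δ0 * (X ^ 2 * U) ≤ r * (X ^ 2 * U) := by
    gcongr
    exact min_le_left _ _
  have m2 : δ0 * U ^ 4 ≤ s4 * U ^ 4 := by
    gcongr
    exact min_le_right _ _
  apply final_low 4 1 (by norm_num) (by norm_num) hU (by positivity)
  unfold Vf
  have m3 : 0 ≤ δ0 * U ^ 4 := by positivity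
  have m4 : 0 ≤ δ0 * (X ^ 2 * U) := by positivity
  simp only [pow_zero, pow_one, mul_one] at b2 b4 b5 b6 b8 b9 b10 b11 ⊢
  linarith

theorem v5_stage2 (r e0 g2 g1 g0 s3 s2 s1 s0 : ℝ) (hr : 0 < r)
    (hs : 0 < s3) (hd : g2 ^ 2 < 4 * r * s3) : ∃ δ : ℝ, 0 < δ ∧ ∀ᶠ U : ℝ in atTop, ∀ X : ℝ,
      δ * (U * X ^ 2 + U ^ 2) ≤ Vf 0 0 r e0 0 g2 g1 g0 0 0 s3 s2 s1 s0 X U := by
  obtain ⟨δ0, hδ0p, hdef⟩ := def_form r g2 s3 hr hs (Or.inr hd)
  refine ⟨δ0 / 4, by positivity, ?_⟩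
  have hε : 0 < δ0 / 44 := by positivity
  filter_upwards [sq_small 1 3 0 (by norm_num) e0 _ hε,
    lin_small 1 3 1 (by norm_num) g1 _ hε, lin_small 1 3 0 (by norm_num) g0 _ hε,
    const_small 1 3 2 (by norm_num) s2 _ hε, const_small 1 3 1 (by norm_num) s1 _ hε,
    const_small 1 3 0 (by norm_num) s0 _ hε, eventually_ge_atTop 1]
    with U a2 a5 a6 a9 a10 a11 hU X
  have b2 := (abs_le.1 (a2 X)).1
  have b5 := (abs_le.1 (a5 X)).1
  have b6 := (abs_le.1 (a6 X)).1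
  have b9 := (abs_le.1 (a9 X)).1
  have b10 := (abs_le.1 (a10 X)).1
  have b11 := (abs_le.1 (a11 X)).1
  have hU0 : 0 ≤ U := by linarith
  have m1 := hdef X U (Or.inr hd)
  have m2 : U * (δ0 * (X ^ 2 + U ^ 2)) ≤ U * (r * X ^ 2 + g2 * U * X + s3 * U ^ 2) := by
    gcongr
  apply final_low 3 1 (by norm_num) (by norm_num) hU (by positivity)
  unfold Vf
  have m3 : 0 ≤ δ0 * U ^ 3 := by positivity
  have m4 : 0 ≤ δ0 * (X ^ 2 * U) := by positivity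
  simp only [pow_zero, pow_one, mul_one] at b2 b5 b6 b9 b10 b11 ⊢
  linarith

theorem v5_stage3 (r e0 g1 g0 s2 s1 s0 : ℝ) (hr : 0 < r)
    (hs : 0 < s2) : ∃ δ : ℝ, 0 < δ ∧ ∀ᶠ U : ℝ in atTop, ∀ X : ℝ,
      δ * (U * X ^ 2 + U ^ 2) ≤ Vf 0 0 r e0 0 0 g1 g0 0 0 0 s2 s1 s0 X U := by
  set δ0 := min r s2 with hδ0
  have hδ0p : 0 < δ0 := by positivity
  refine ⟨δ0 / 4, by positivity, ?_⟩
  have hε : 0 < δ0 / 44 := by positivity
  filter_upwards [sq_small 1 2 0 (by norm_num) e0 _ hε,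
    lin_small 1 2 1 (by norm_num) g1 _ hε, lin_small 1 2 0 (by norm_num) g0 _ hε,
    const_small 1 2 1 (by norm_num) s1 _ hε,
    const_small 1 2 0 (by norm_num) s0 _ hε, eventually_ge_atTop 1]
    with U a2 a5 a6 a10 a11 hU X
  have b2 := (abs_le.1 (a2 X)).1
  have b5 := (abs_le.1 (a5 X)).1
  have b6 := (abs_le.1 (a6 X)).1
  have b10 := (abs_le.1 (a10 X)).1
  have b11 := (abs_le.1 (a11 X)).1
  have hU0 : 0 ≤ U := by linarith
  have m1 : δ0 * (X ^ 2 * U) ≤ r * (X ^ 2 * U) := by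
    gcongr
    exact min_le_left _ _
  have m2 : δ0 * U ^ 2 ≤ s2 * U ^ 2 := by
    gcongr
    exact min_le_right _ _
  apply final_low 2 1 (by norm_num) (by norm_num) hU (by positivity)
  unfold Vf
  have m3 : 0 ≤ δ0 * U ^ 2 := by positivity
  have m4 : 0 ≤ δ0 * (X ^ 2 * U) := by positivity
  simp only [pow_zero, pow_one, mul_one] at b2 b5 b6 b10 b11 ⊢
  linarith

end PP72
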