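import Pool.Agent.PP72.QCore
import Pool.Agent.PP72.Quintic

/-!
The boundary direction `α`, when it is a quadratic irrational.
-/

open Polynomial Finset Filter

namespace PP72

variable {α : ℝ} {d : ℕ} {h : ℕ → ℝ[X]}

/-- lattice points of the sector close to the line `y = α x + u₀`, `u₀ ≤ 0` -/
theorem exists_near_bd {α : ℝ} (hα : Irrational α) (h0 : 0 < α) (u0 : ℝ) (hu0 : u0 ≤ 0) (X0 : ℕ) :
    ∃ P ∈ Sec α, X0 < P.1 ∧ (P.1 : ℝ) * |(P.2 : ℝ) - α * P.1 - u0| ≤ 11 := by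
  obtain ⟨X1, hX1⟩ := exists_nat_ge ((|u0| + 6) / α)
  obtain ⟨r, hr, x, y, hx1, hx2, hxy⟩ := exists_approx hα u0 (-3) (max X0 X1)
  have hrpos : 0 < r := by omega
  have hr' : (0 : ℝ) < r := by exact_mod_cast hrpos
  have hr1 : (1 : ℝ) ≤ r := by exact_mod_cast hrpos
  push_cast at hxy
  have hxr : (r : ℝ) ≤ x := by exact_mod_cast hx1
  have hx2' : (x : ℝ) ≤ 2 * r := by
    have : (x : ℝ) < ((2 * r : ℤ) : ℝ) := by exact_mod_cast hx2
    push_cast at this
    linarith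
  rw [abs_le] at hxy
  have hlo : -(11 / 2 / r) ≤ (y : ℝ) - α * x - u0 := by
    have e1 : (11 / 2 / r : ℝ) = 5 / 2 / r + 3 / r := by field_simp; ring
    have e2 : (-3 / r : ℝ) = -(3 / r) := by ring
    rw [e2] at hxy
    linarith [hxy.1]
  have hhi : (y : ℝ) - α * x - u0 ≤ 0 := by
    have e1 : (5 / 2 / r : ℝ) ≤ 3 / r := by
      gcongr
      norm_num
    have e2 : (-3 / r : ℝ) = -(3 / r) := by ring
    rw [e2] at hxy
    linarith [hxy.2]
  have h11 : (11 / 2 / r : ℝ) ≤ 6 := by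
    rw [div_le_iff₀ hr']
    linarith
  have hxX : (|u0| + 6) / α ≤ x := by
    have : (X1 : ℝ) ≤ r := by
      have : X1 ≤ r := by omega
      exact_mod_cast this
    linarith
  rw [div_le_iff₀ h0] at hxX
  have hy0 : (0 : ℝ) ≤ y := by
    have := neg_abs_le u0
    linarith
  have hyα : (y : ℝ) ≤ α * x := by linarith
  have hx0 : 0 ≤ x := by omega
  have hy0' : 0 ≤ y := by exact_mod_cast hy0
  obtain ⟨a, ha⟩ := Int.eq_ofNat_of_zero_le hx0
  obtain ⟨b, hb⟩ := Int.eq_ofNat_of_zero_le hy0'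
  subst ha hb
  push_cast at hyα hlo hhi hx2' hxr
  refine ⟨(a, b), hyα, ?_, ?_⟩
  · change X0 < a
    have : (r : ℤ) ≤ (a : ℤ) := hx1
    omega
  · change (a : ℝ) * |(b : ℝ) - α * a - u0| ≤ 11
    rw [abs_of_nonpos hhi]
    calc (a : ℝ) * -((b : ℝ) - α * a - u0) ≤ (2 * r) * (11 / 2 / r) := by
          gcongr
          · linarith
          · linarith
      _ = 11 := by field_simp

/-- the top part of the expansion is nonnegative at accessible values -/
theorem Pk.neg_top (H : Pk α d h) {θ : ℝ} (K : ℕ) (hKd : K + 1 ≤ d)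
    (hvan : ∀ j, K + 1 < j → j ≤ d → ∀ u, (gT d h θ j).eval u = 0) (us : ℝ)
    (hneg : (gT d h θ (K + 1)).eval us < 0)
    (hnear : ∀ X0 : ℕ, ∃ P ∈ Sec α, X0 < P.1 ∧ (P.1 : ℝ) * |(P.2 : ℝ) - θ * P.1 - us| ≤ 11) :
    False := by
  set g := gT d h θ with hg
  obtain ⟨C, hC0, hC⟩ := low_bdd K g (|us| + 1)
  obtain ⟨L, hL0, hL⟩ := poly_lip (g (K + 1)) us (|us| + 1)
  set κ := -(g (K + 1)).eval us with hκ
  have hκ0 : 0 < κ := by rw [hκ]; linarith
  obtain ⟨X1, hX1⟩ := exists_nat_ge ((11 * L + C) / κ + 11)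
  obtain ⟨P, hP1, hP2, hP3⟩ := hnear X1
  have hxX : (X1 : ℝ) ≤ P.1 := by exact_mod_cast hP2.le
  have hdiv : 0 ≤ (11 * L + C) / κ := by positivity
  have hx11 : (11 : ℝ) ≤ P.1 := by linarith
  have hxM : (11 * L + C) / κ ≤ P.1 - 11 := by linarith
  rw [div_le_iff₀ hκ0] at hxM
  set u := (P.2 : ℝ) - θ * P.1 with hu
  have hu1 : |u - us| ≤ 1 := by
    have := abs_nonneg (u - us)
    nlinarith
  have hub : |u| ≤ |us| + 1 := by
    have : u = (u - us) + us := by ring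
    calc |u| = |(u - us) + us| := by rw [← this]
      _ ≤ |u - us| + |us| := abs_add_le _ _
      _ ≤ _ := by linarith
  have hval : fv d h P = ∑ j ∈ range (K + 1), (P.1 : ℝ) ^ j * (g j).eval u +
      (P.1 : ℝ) ^ (K + 1) * (g (K + 1)).eval u := by
    rw [fv_taylor H.deg θ, ← Finset.sum_range_succ]
    symm
    apply Finset.sum_subset
    · intro j hj
      rw [mem_range] at hj ⊢
      omega
    · intro j hj1 hj2
      rw [mem_range] at hj1 hj2
      have h0 : (g j).eval u = 0 := hvan j (by omega) (by omega) u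
      rw [h0, mul_zero]
  have h1 := (abs_le.1 (hC P.1 u (by linarith) hub)).2
  have h2 := (abs_le.1 (hL u hub)).2
  have h3 := H.fv_nonneg hP1
  rw [hval] at h3
  have hxK : (0 : ℝ) < (P.1 : ℝ) ^ K := by
    have : (0 : ℝ) < P.1 := by linarith
    positivity
  have h4 : (P.1 : ℝ) ^ (K + 1) * (g (K + 1)).eval u ≤
      (P.1 : ℝ) ^ K * (L * (P.1 * |u - us|) - κ * P.1) := by
    have e1 : (P.1 : ℝ) ^ K * (L * (P.1 * |u - us|) - κ * P.1) =
        (P.1 : ℝ) ^ (K + 1) * (L * |u - us| - κ) := by ring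
    rw [e1]
    have : (g (K + 1)).eval u ≤ L * |u - us| - κ := by
      rw [hκ]
      linarith
    gcongr
  have h5 : (P.1 : ℝ) ^ K * (L * (P.1 * |u - us|) - κ * P.1) ≤
      (P.1 : ℝ) ^ K * (L * 11 - κ * P.1) := by gcongr
  have h6 : (P.1 : ℝ) ^ K * (C + 11 * L - κ * P.1) < 0 := by
    apply mul_neg_of_pos_of_neg hxK
    nlinarith
  nlinarith

theorem sec_u {α : ℝ} {P : ℕ × ℕ} (hP : P ∈ Sec α) : (P.2 : ℝ) - α * P.1 ≤ 0 := by
  have : (P.2 : ℝ) ≤ α * P.1 := hP
  linarith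

/-- thinness from a lower bound of order `x ^ J` -/
theorem Pk.thin_of_top (H : Pk α d h) (J : ℕ) (hJ : 2 ≤ J) (θ ε x0 δ : ℝ) (hε : 0 < ε)
    (hε1 : ε ≤ 1) (hδ : 0 < δ)
    (hbd : ∀ P ∈ Near α θ ε, x0 ≤ P.1 →
      δ * ((P.1 : ℝ) ^ J * (1 + ((P.2 : ℝ) - θ * P.1) ^ 2)) ≤ fv d h P) :
    ∃ ε : ℝ, 0 < ε ∧ Thin (fv d h) (Near α θ ε) := by
  obtain ⟨X1, hX1⟩ := exists_nat_ge x0
  refine ⟨ε, hε, ?_⟩
  have hsplit : Near α θ ε ⊆ {P | P ∈ Near α θ ε ∧ X1 ≤ P.1} ∪ {P | P ∈ Sec α ∧ P.1 ≤ X1} := by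
    intro P hP
    by_cases h1 : X1 ≤ P.1
    · exact Or.inl ⟨hP, h1⟩
    · exact Or.inr ⟨hP.1, by omega⟩
  refine Thin.mono (Thin.union ?_ (thin_finite (finite_x H.pos X1))) hsplit
  apply thin_of_bound θ (δ / 2) (by positivity)
  rintro P ⟨hP1, hP2⟩
  have hx : x0 ≤ (P.1 : ℝ) := hX1.trans (by exact_mod_cast hP2)
  obtain ⟨hP0, hus⟩ := near_abs hP1
  have hx1 : (1 : ℝ) ≤ P.1 := by exact_mod_cast hP0
  refine le_trans ?_ (hbd P hP1 hx)
  set u := (P.2 : ℝ) - θ * P.1 with hu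
  have h2 : |u| ≤ P.1 := by nlinarith
  have h3 : (P.1 : ℝ) ^ 2 ≤ (P.1 : ℝ) ^ J := pow_le_pow_right₀ hx1 hJ
  have h4 : |u| ^ 3 ≤ (P.1 : ℝ) ^ 2 * (1 + u ^ 2) := by
    have e1 : |u| ^ 3 = |u| * u ^ 2 := by rw [← sq_abs u]; ring
    rw [e1]
    have e2 : |u| ≤ (P.1 : ℝ) ^ 2 := by nlinarith
    have e3 : |u| * u ^ 2 ≤ (P.1 : ℝ) ^ 2 * u ^ 2 := by gcongr
    have e4 : (0 : ℝ) ≤ (P.1 : ℝ) ^ 2 := by positivity
    nlinarith
  have h5 : (P.1 : ℝ) ^ 2 ≤ (P.1 : ℝ) ^ 2 * (1 + u ^ 2) := by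
    have e4 : (0 : ℝ) ≤ (P.1 : ℝ) ^ 2 := by positivity
    nlinarith [sq_nonneg u]
  calc δ / 2 * ((P.1 : ℝ) ^ 2 + |u| ^ 3) ≤ δ / 2 * (2 * ((P.1 : ℝ) ^ 2 * (1 + u ^ 2))) := by
        gcongr
        linarith
    _ = δ * ((P.1 : ℝ) ^ 2 * (1 + u ^ 2)) := by ring
    _ ≤ δ * ((P.1 : ℝ) ^ J * (1 + u ^ 2)) := by gcongr

/-- **Simple zero at the boundary.** -/
theorem Pk.bd1 (m : ℕ) (hm : 1 ≤ m) (H : Pk α (m + 1 + 1) h) (hne : h (m + 1 + 1) ≠ 0)
    {β δ0 : ℚ} (hq : α ^ 2 + β * α + δ0 = 0) (hμ : rootMultiplicity α (h (m + 1 + 1)) = 1) :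
    ∃ ε : ℝ, 0 < ε ∧ Thin (fv (m + 1 + 1) h) (Near α α ε) := by
  obtain ⟨Q, hQ1, hQ2, hQ3, hQ4⟩ := taylor_root (h (m + 1 + 1)) hne α
  rw [hμ] at hQ3 hQ4
  have hsign := taylor_sign (h (m + 1 + 1)) hne α (-1) α (Or.inr rfl) H.pos (by
    intro τ hτ1 hτ2
    apply H.lead_nonneg (by omega)
    constructor <;> linarith)
  rw [hμ, pow_one] at hsign
  set b := -(taylor α (h (m + 1 + 1))).coeff 1 with hb
  have hb0 : 0 < b := by rw [hb]; linarith
  set A := (h (m + 1)).eval α with hA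
  set g := gT (m + 1 + 1) h α with hg
  have hgd : ∀ j, (g j).natDegree ≤ m + 1 + 1 - j := fun j => gT_natDegree_le α j
  have hg1 : ∀ u, (g (m + 1 + 1)).eval u = 0 := by
    intro u
    have h1 : (g (m + 1 + 1)).natDegree ≤ 0 := by
      have := hgd (m + 1 + 1)
      omega
    rw [eq_C_of_natDegree_le_zero h1, eval_C, hg, gT_coeff, if_pos (by omega), zero_add]
    exact hQ3 0 (by norm_num)
  have hg0 : ∀ u, (g (m + 1)).eval u = A - b * u := by
    intro u
    have h1 : (g (m + 1)).natDegree < 2 := by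
      have := hgd (m + 1)
      omega
    rw [Polynomial.eval_eq_sum_range' h1]
    simp only [Finset.sum_range_succ, Finset.sum_range_zero, pow_zero, pow_one]
    rw [hg, gT_coeff, gT_coeff, if_pos (by omega), if_pos (by omega)]
    have e1 : 1 + (m + 1) = m + 1 + 1 := by ring
    have e0 : 0 + (m + 1) = m + 1 := by ring
    rw [e0, e1, taylor_coeff_zero, hA, hb]
    ring
  have hval : ∀ P : ℕ × ℕ, fv (m + 1 + 1) h P =
      (∑ j ∈ range (m + 1), (P.1 : ℝ) ^ j * (g j).eval ((P.2 : ℝ) - α * P.1)) +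
        (P.1 : ℝ) ^ (m + 1) * (A - b * ((P.2 : ℝ) - α * P.1)) := by
    intro P
    rw [fv_taylor H.deg α, Finset.sum_range_succ, Finset.sum_range_succ, ← hg, hg1, hg0]
    ring
  have hA0 : 0 ≤ A := by
    by_contra hneg
    push Not at hneg
    refine H.neg_top (θ := α) m (by omega) ?_ 0 ?_ (exists_near_bd H.irr H.pos 0 le_rfl)
    · intro j hj1 hj2 u
      have : j = m + 1 + 1 := by omega
      rw [this]
      exact hg1 u
    · change (g (m + 1)).eval 0 < 0
      rw [hg0]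
      linarith
  obtain ⟨ε, hε, hε1, x0, hx0, hlow⟩ := low_terms' (m + 1) 1 g (by
    intro j
    exact hgd j) (b / 4) (by positivity)
  obtain ⟨C, hC0, hC⟩ := low_bdd m g 1
  refine H.simple_core m hm H.irr hq (b / 2) C x0 ε (by positivity) hC0 hε hε1 ?_ ?_
  · intro P hP hx hu
    have hx1 : (1 : ℝ) ≤ P.1 := hx0.trans hx
    have h1 := (abs_le.1 (hC P.1 _ hx1 hu)).1
    have hu0 := sec_u hP.1
    rw [hval]
    set u := (P.2 : ℝ) - α * P.1 with hudef
    rw [abs_of_nonpos hu0]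
    have hxp : (0 : ℝ) ≤ (P.1 : ℝ) ^ (m + 1) := by positivity
    have h2 : b / 2 * ((P.1 : ℝ) ^ (m + 1) * -u) ≤ (P.1 : ℝ) ^ (m + 1) * (A - b * u) := by
      have e1 : b / 2 * ((P.1 : ℝ) ^ (m + 1) * -u) = (P.1 : ℝ) ^ (m + 1) * (b / 2 * -u) := by ring
      rw [e1]
      have : b / 2 * -u ≤ A - b * u := by nlinarith
      gcongr
    linarith
  · intro P hP hx hu
    have hx1 : (1 : ℝ) ≤ P.1 := hx0.trans hx
    have h1 := (abs_le.1 (hlow P.1 _ hx (near_abs hP).2)).1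
    have hu0 := sec_u hP.1
    rw [hval]
    set u := (P.2 : ℝ) - α * P.1 with hudef
    rw [pow_one, abs_of_nonpos hu0] at h1
    rw [abs_of_nonpos hu0] at hu ⊢
    have hxp : (0 : ℝ) ≤ (P.1 : ℝ) ^ (m + 1) := by positivity
    have h2 : b / 4 * ((P.1 : ℝ) ^ (m + 1) * (1 + -u)) ≤
        b / 2 * ((P.1 : ℝ) ^ (m + 1) * -u) := by
      have e1 : b / 2 * ((P.1 : ℝ) ^ (m + 1) * -u) =
          b / 4 * ((P.1 : ℝ) ^ (m + 1) * (2 * -u)) := by ring
      rw [e1]
      gcongr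
      linarith
    have h3 : b * ((P.1 : ℝ) ^ (m + 1) * -u) ≤ (P.1 : ℝ) ^ (m + 1) * (A - b * u) := by
      have e1 : b * ((P.1 : ℝ) ^ (m + 1) * -u) = (P.1 : ℝ) ^ (m + 1) * (b * -u) := by ring
      rw [e1]
      have : b * -u ≤ A - b * u := by nlinarith
      gcongr
    linarith

/-- **Double zero at the boundary**: the first reduction. -/
theorem Pk.bd2 (n : ℕ) (H : Pk α (n + 2 + 2) h) (hne : h (n + 2 + 2) ≠ 0)
    {β δ0 : ℚ} (hq : α ^ 2 + β * α + δ0 = 0) (hμ : rootMultiplicity α (h (n + 2 + 2)) = 2) :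
    (∃ ε : ℝ, 0 < ε ∧ Thin (fv (n + 2 + 2) h) (Near α α ε)) ∨
    ((h (n + 2 + 1)).eval α = 0 ∧ ∃ a u0 : ℝ, 0 < a ∧ u0 ≤ 0 ∧
      (taylor α (h (n + 2 + 2))).coeff 2 = a ∧
      (taylor α (h (n + 2 + 1))).coeff 1 = -2 * a * u0 ∧ (h (n + 2)).eval α = a * u0 ^ 2) := by
  obtain ⟨Q, hQ1, hQ2, hQ3, hQ4⟩ := taylor_root (h (n + 2 + 2)) hne α
  rw [hμ] at hQ3 hQ4
  set a := (taylor α (h (n + 2 + 2))).coeff 2 with ha
  set b := (taylor α (h (n + 2 + 1))).coeff 1 with hb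
  set e := (h (n + 2)).eval α with he
  set A := (h (n + 2 + 1)).eval α with hA
  have hapos : 0 < a := by
    have hsign := taylor_sign (h (n + 2 + 2)) hne α (-1) α (Or.inr rfl) H.pos (by
      intro τ hτ1 hτ2
      apply H.lead_nonneg (by omega)
      constructor <;> linarith)
    rw [hμ] at hsign
    norm_num at hsign
    exact hsign
  set g := gT (n + 2 + 2) h α with hg
  have hgd : ∀ j, (g j).natDegree ≤ n + 2 + 2 - j := fun j => gT_natDegree_le α j
  have hg2 : ∀ u, (g (n + 2 + 2)).eval u = 0 := by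
    intro u
    have h1 : (g (n + 2 + 2)).natDegree ≤ 0 := by
      have := hgd (n + 2 + 2)
      omega
    rw [eq_C_of_natDegree_le_zero h1, eval_C, hg, gT_coeff, if_pos (by omega), zero_add]
    exact hQ3 0 (by norm_num)
  have hg1 : ∀ u, (g (n + 2 + 1)).eval u = A := by
    intro u
    have h1 : (g (n + 2 + 1)).natDegree < 2 := by
      have := hgd (n + 2 + 1)
      omega
    rw [Polynomial.eval_eq_sum_range' h1]
    simp only [Finset.sum_range_succ, Finset.sum_range_zero, pow_zero, pow_one]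
    rw [hg, gT_coeff, gT_coeff, if_pos (by omega), if_pos (by omega)]
    have e1 : 1 + (n + 2 + 1) = n + 2 + 2 := by ring
    have e0 : 0 + (n + 2 + 1) = n + 2 + 1 := by ring
    rw [e0, e1, hQ3 1 (by norm_num), taylor_coeff_zero, hA]
    ring
  have hg0 : ∀ u, (g (n + 2)).eval u = a * u ^ 2 + b * u + e := by
    intro u
    have h1 : (g (n + 2)).natDegree < 3 := by
      have := hgd (n + 2)
      omega
    rw [Polynomial.eval_eq_sum_range' h1]
    simp only [Finset.sum_range_succ, Finset.sum_range_zero, pow_zero, pow_one]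
    rw [hg, gT_coeff, gT_coeff, gT_coeff, if_pos (by omega), if_pos (by omega), if_pos (by omega)]
    have e0 : 0 + (n + 2) = n + 2 := by ring
    have e1 : 1 + (n + 2) = n + 2 + 1 := by ring
    have e2 : 2 + (n + 2) = n + 2 + 2 := by ring
    rw [e0, e1, e2, taylor_coeff_zero, ← ha, ← hb, ← he]
    ring
  have hval : ∀ P : ℕ × ℕ, fv (n + 2 + 2) h P =
      (∑ j ∈ range (n + 2), (P.1 : ℝ) ^ j * (g j).eval ((P.2 : ℝ) - α * P.1)) +
        (P.1 : ℝ) ^ (n + 2) * (a * ((P.2 : ℝ) - α * P.1) ^ 2 + b * ((P.2 : ℝ) - α * P.1) + e) +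
        (P.1 : ℝ) ^ (n + 2 + 1) * A := by
    intro P
    rw [fv_taylor H.deg α, Finset.sum_range_succ, Finset.sum_range_succ, Finset.sum_range_succ,
      ← hg, hg2, hg1, hg0]
    ring
  have hA0 : 0 ≤ A := by
    by_contra hneg
    push Not at hneg
    refine H.neg_top (θ := α) (n + 2) (by omega) ?_ 0 ?_ (exists_near_bd H.irr H.pos 0 le_rfl)
    · intro j hj1 hj2 u
      have : j = n + 2 + 2 := by omega
      rw [this]
      exact hg2 u
    · change (g (n + 2 + 1)).eval 0 < 0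
      rw [hg1]
      exact hneg
  rcases hA0.lt_or_eq with hA1 | hA1
  · -- `A > 0`
    left
    obtain ⟨ε, hε, hε1, x0, hx0, hlow⟩ := low_terms' (n + 2) 2 g hgd (a / 8) (by positivity)
    set M : ℝ := b ^ 2 / a + |e| + a with hM
    have hM0 : 0 ≤ M := by positivity
    apply H.thin_of_top (n + 2) (by omega) α ε (max x0 (2 * M / A)) (min (a / 4) (A / 2)) hε hε1
      (by positivity)
    intro P hP hx
    have hxx0 : x0 ≤ P.1 := (le_max_left _ _).trans hx
    have hx1 : (1 : ℝ) ≤ P.1 := hx0.trans hxx0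
    have hxM : 2 * M / A ≤ P.1 := (le_max_right _ _).trans hx
    rw [div_le_iff₀ hA1] at hxM
    have h1 := (abs_le.1 (hlow P.1 _ hxx0 (near_abs hP).2)).1
    rw [hval]
    set u := (P.2 : ℝ) - α * P.1 with hudef
    set X := (P.1 : ℝ) ^ (n + 2) with hX
    have hXpos : 0 < X := by positivity
    have h2 : (1 + |u|) ^ 2 ≤ 2 * (1 + u ^ 2) := by
      have a1 : |u| ^ 2 = u ^ 2 := sq_abs u
      nlinarith [sq_nonneg (1 - |u|)]
    have h3 : a / 8 * (X * (1 + |u|) ^ 2) ≤ a / 8 * (X * (2 * (1 + u ^ 2))) := by gcongr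
    have h4 : 3 * a / 4 * u ^ 2 - b ^ 2 / a - |e| ≤ a * u ^ 2 + b * u + e := by
      have e1 : 0 ≤ (a * u / 2 + b) ^ 2 / a := by positivity
      have e2 : (a * u / 2 + b) ^ 2 / a = a / 4 * u ^ 2 + b * u + b ^ 2 / a := by
        field_simp
        ring
      have := neg_abs_le e
      linarith
    have h5 : X * (3 * a / 4 * u ^ 2 - b ^ 2 / a - |e|) ≤ X * (a * u ^ 2 + b * u + e) := by
      gcongr
    have h6 : (P.1 : ℝ) ^ (n + 2 + 1) * A = X * (P.1 * A) := by rw [hX]; ring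
    have h7 : X * (2 * M) ≤ X * (P.1 * A) := by gcongr
    have h8 : X * A ≤ X * (P.1 * A) := by
      gcongr
      nlinarith
    have h9 : min (a / 4) (A / 2) * (X * (1 + u ^ 2)) ≤ X * (A / 2 + a / 4 * u ^ 2) := by
      have e1 : min (a / 4) (A / 2) * 1 ≤ A / 2 := by
        rw [mul_one]
        exact min_le_right _ _
      have e2 : min (a / 4) (A / 2) * u ^ 2 ≤ a / 4 * u ^ 2 := by
        gcongr
        exact min_le_left _ _
      have e3 : min (a / 4) (A / 2) * (X * (1 + u ^ 2)) =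
          X * (min (a / 4) (A / 2) * 1 + min (a / 4) (A / 2) * u ^ 2) := by ring
      rw [e3]
      gcongr
    rw [h6]
    have h10 : X * (2 * M) = 2 * (X * (b ^ 2 / a)) + 2 * (X * |e|) + 2 * (X * a) := by
      rw [hM]
      ring
    have h11 : 0 ≤ X * u ^ 2 := by positivity
    have h12 : 0 ≤ X * a := by positivity
    have h13 : X * (3 * a / 4 * u ^ 2 - b ^ 2 / a - |e|) =
        3 * a / 4 * (X * u ^ 2) - X * (b ^ 2 / a) - X * |e| := by ring
    have h14 : a / 8 * (X * (2 * (1 + u ^ 2))) = a / 4 * X + a / 4 * (X * u ^ 2) := by ring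
    have h15 : X * (A / 2 + a / 4 * u ^ 2) = X * A / 2 + a / 4 * (X * u ^ 2) := by ring
    have h16 : 0 ≤ X * (b ^ 2 / a) := by positivity
    have h17 : 0 ≤ X * |e| := by positivity
    have h18 : 0 ≤ a * (X * u ^ 2) := by positivity
    nlinarith
  -- `A = 0`
  have hvan : ∀ j, n + 1 + 1 < j → j ≤ n + 2 + 2 → ∀ u, (gT (n + 2 + 2) h α j).eval u = 0 := by
    intro j hj1 hj2 u
    obtain rfl | rfl : j = n + 2 + 1 ∨ j = n + 2 + 2 := by omega
    · change (g (n + 2 + 1)).eval u = 0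
      rw [hg1, ← hA1]
    · exact hg2 u
  have hqneg : ∀ us : ℝ, us ≤ 0 → 0 ≤ a * us ^ 2 + b * us + e := by
    intro us hus
    by_contra hneg
    push Not at hneg
    refine H.neg_top (θ := α) (n + 1) (by omega) hvan us ?_ (exists_near_bd H.irr H.pos us hus)
    change (g (n + 2)).eval us < 0
    rw [hg0]
    exact hneg
  -- thinness from a lower bound for the quadratic polynomial
  have hthin : (∃ δ1 : ℝ, 0 < δ1 ∧ ∀ u : ℝ, u ≤ 0 → δ1 * (1 + u ^ 2) ≤ a * u ^ 2 + b * u + e) →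
      ∃ ε : ℝ, 0 < ε ∧ Thin (fv (n + 2 + 2) h) (Near α α ε) := by
    rintro ⟨δ1, hδ1, hδq⟩
    obtain ⟨ε, hε, hε1, x0, hx0, hlow⟩ := low_terms' (n + 2) 2 g hgd (δ1 / 4) (by positivity)
    apply H.thin_of_top (n + 2) (by omega) α ε x0 (δ1 / 2) hε hε1 (by positivity)
    intro P hP hx
    have hx1 : (1 : ℝ) ≤ P.1 := hx0.trans hx
    have h1 := (abs_le.1 (hlow P.1 _ hx (near_abs hP).2)).1
    have hu0 := sec_u hP.1
    rw [hval, ← hA1]
    set u := (P.2 : ℝ) - α * P.1 with hudef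
    set X := (P.1 : ℝ) ^ (n + 2) with hX
    have hXpos : 0 < X := by positivity
    have h2 : (1 + |u|) ^ 2 ≤ 2 * (1 + u ^ 2) := by
      have a1 : |u| ^ 2 = u ^ 2 := sq_abs u
      nlinarith [sq_nonneg (1 - |u|)]
    have h3 : δ1 / 4 * (X * (1 + |u|) ^ 2) ≤ δ1 / 4 * (X * (2 * (1 + u ^ 2))) := by gcongr
    have h4 : X * (δ1 * (1 + u ^ 2)) ≤ X * (a * u ^ 2 + b * u + e) := by
      gcongr
      exact hδq u hu0
    nlinarith
  have hb0 : b ≤ 0 ∨ 0 < b := le_or_gt b 0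
  have he0 : 0 ≤ e := by
    have := hqneg 0 le_rfl
    simpa using this
  rcases lt_trichotomy (b ^ 2) (4 * a * e) with hd1 | hd1 | hd1
  · -- definite
    left
    have hepos : 0 < e := by
      by_contra hcon
      push Not at hcon
      nlinarith [sq_nonneg b]
    obtain ⟨δ1, hδ1, hdef⟩ := def_form a b e hapos hepos (Or.inr hd1)
    apply hthin
    refine ⟨δ1, hδ1, fun u _ => ?_⟩
    have := hdef u 1 (Or.inr hd1)
    rw [mul_one] at this
    nlinarith
  · -- double root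
    set us := -b / (2 * a) with hus
    have hbu : b = -2 * a * us := by rw [hus]; field_simp
    have heu : e = a * us ^ 2 := by
      have : 4 * a * e = 4 * a * (a * us ^ 2) := by
        rw [← hd1, hbu]
        ring
      exact mul_left_cancel₀ (by positivity) this
    by_cases hus0 : us ≤ 0
    · right
      exact ⟨hA1.symm, a, us, hapos, hus0, rfl, hbu, heu⟩
    · left
      push Not at hus0
      apply hthin
      refine ⟨a * min 1 (us ^ 2), by positivity, fun u hu => ?_⟩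
      have e1 : a * u ^ 2 + b * u + e = a * (u - us) ^ 2 := by
        rw [hbu, heu]
        ring
      rw [e1]
      have h1 : u ^ 2 + us ^ 2 ≤ (u - us) ^ 2 := by nlinarith
      have h2 : min 1 (us ^ 2) * (1 + u ^ 2) ≤ (u - us) ^ 2 := by
        have a1 : min 1 (us ^ 2) ≤ us ^ 2 := min_le_right _ _
        have a2 : min 1 (us ^ 2) * u ^ 2 ≤ 1 * u ^ 2 := by
          gcongr
          exact min_le_left _ _
        nlinarith
      calc a * min 1 (us ^ 2) * (1 + u ^ 2) = a * (min 1 (us ^ 2) * (1 + u ^ 2)) := by ring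
        _ ≤ a * (u - us) ^ 2 := by gcongr
  · -- indefinite
    left
    have hb1 : b < 0 := by
      rcases hb0 with h1 | h1
      · rcases h1.lt_or_eq with h2 | h2
        · exact h2
        · exfalso
          rw [h2] at hd1
          have : 0 ≤ 4 * a * e := by positivity
          nlinarith
      · exfalso
        have h2 := hqneg (-b / (2 * a)) (by
          apply div_nonpos_of_nonpos_of_nonneg
          · linarith
          · positivity)
        have h3 : 4 * a * (a * (-b / (2 * a)) ^ 2 + b * (-b / (2 * a)) + e) = 4 * a * e - b ^ 2 := by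
          field_simp
          ring
        have h4 : 0 ≤ 4 * a * (a * (-b / (2 * a)) ^ 2 + b * (-b / (2 * a)) + e) := by positivity
        linarith
    rcases he0.lt_or_eq with he1 | he1
    · apply hthin
      refine ⟨min a e, by positivity, fun u hu => ?_⟩
      have a1 : min a e * u ^ 2 ≤ a * u ^ 2 := by
        gcongr
        exact min_le_left _ _
      have a2 : min a e ≤ e := min_le_right _ _
      have a3 : 0 ≤ b * u := mul_nonneg_of_nonpos_of_nonpos hb1.le hu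
      nlinarith
    · -- simple behaviour
      obtain ⟨ε, hε, hε1, x0, hx0, hlow⟩ := low_terms' (n + 2) 2 g hgd (a / 4) (by positivity)
      obtain ⟨C, hC0, hC⟩ := low_bdd (n + 1) g 1
      refine H.simple_core (n + 1) (by omega) H.irr hq (-b) C x0 ε (by linarith) hC0 hε hε1 ?_ ?_
      · intro P hP hx hu
        have hx1 : (1 : ℝ) ≤ P.1 := hx0.trans hx
        have h1 := (abs_le.1 (hC P.1 _ hx1 hu)).1
        have hu0 := sec_u hP.1
        rw [hval, ← hA1, ← he1]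
        set u := (P.2 : ℝ) - α * P.1 with hudef
        rw [abs_of_nonpos hu0]
        have hxp : (0 : ℝ) ≤ (P.1 : ℝ) ^ (n + 1 + 1) := by positivity
        have h2 : -b * ((P.1 : ℝ) ^ (n + 1 + 1) * -u) ≤
            (P.1 : ℝ) ^ (n + 2) * (a * u ^ 2 + b * u + 0) := by
          have e1 : -b * ((P.1 : ℝ) ^ (n + 1 + 1) * -u) = (P.1 : ℝ) ^ (n + 2) * (b * u) := by ring
          rw [e1]
          have : b * u ≤ a * u ^ 2 + b * u + 0 := by nlinarith [sq_nonneg u]
          gcongr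
        linarith
      · intro P hP hx hu
        have hx1 : (1 : ℝ) ≤ P.1 := hx0.trans hx
        have h1 := (abs_le.1 (hlow P.1 _ hx (near_abs hP).2)).1
        have hu0 := sec_u hP.1
        rw [hval, ← hA1, ← he1]
        set u := (P.2 : ℝ) - α * P.1 with hudef
        rw [abs_of_nonpos hu0] at hu h1 ⊢
        set X := (P.1 : ℝ) ^ (n + 2) with hX
        have hXpos : 0 < X := by positivity
        have h2 : (1 + -u) ^ 2 ≤ 4 * u ^ 2 := by nlinarith
        have h3 : a / 4 * (X * (1 + -u) ^ 2) ≤ a / 4 * (X * (4 * u ^ 2)) := by gcongr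
        nlinarith

end PP72
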