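import Mathlib

/-!
Definitions used in the statements about packing polynomials.
-/

open Polynomial

namespace PP72

/-- `F` restricted to the lattice points of the sector `0 ≤ y ≤ α x` is a bijection onto
`{0, 1, 2, …}` -/
def IsPacking (α : ℝ) (F : MvPolynomial (Fin 2) ℝ) : Prop :=
  Set.BijOn (fun P : ℕ × ℕ => MvPolynomial.eval ![(P.1 : ℝ), (P.2 : ℝ)] F)
    {P : ℕ × ℕ | (P.2 : ℝ) ≤ α * P.1} (Set.range fun n : ℕ => (n : ℝ))

/-- the one-variable polynomial `F_k(1, T)`, where `F_k` is the homogeneous part of degree `k` -/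
noncomputable def formPoly (F : MvPolynomial (Fin 2) ℝ) (k : ℕ) : ℝ[X] :=
  MvPolynomial.aeval ![1, X] (MvPolynomial.homogeneousComponent k F)

end PP72
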