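import Pool.Agent.PP72.Near
import Pool.Agent.PP72.Defs

/-!
From polynomials in two variables to the families of forms used in the proof.
-/

open Polynomial Finset

namespace PP72

theorem formPoly_eq (F : MvPolynomial (Fin 2) ℝ) (k : ℕ) :
    formPoly F k = ∑ m ∈ (MvPolynomial.homogeneousComponent k F).support,
      C ((MvPolynomial.homogeneousComponent k F).coeff m) * X ^ (m 1) := by
  unfold formPoly
  rw [MvPolynomial.aeval_def, MvPolynomial.eval₂_eq']
  apply Finset.sum_congr rfl
  intro m _
  rw [Fin.prod_univ_two]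
  simp

theorem mem_support_hom {F : MvPolynomial (Fin 2) ℝ} {k : ℕ} {m : Fin 2 →₀ ℕ}
    (hm : m ∈ (MvPolynomial.homogeneousComponent k F).support) : m 0 + m 1 = k := by
  have h1 := (MvPolynomial.homogeneousComponent_isHomogeneous k F)
  have h2 := h1 (MvPolynomial.mem_support_iff.1 hm)
  rw [← h2, Finsupp.weight_apply, Finsupp.sum_fintype _ _ (by simp)]
  simp

theorem formPoly_natDegree (F : MvPolynomial (Fin 2) ℝ) (k : ℕ) :
    (formPoly F k).natDegree ≤ k := by
  rw [formPoly_eq]
  apply Polynomial.natDegree_sum_le_of_forall_le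
  intro m hm
  refine (natDegree_C_mul_X_pow_le _ _).trans ?_
  have := mem_support_hom hm
  omega

theorem formPoly_sum (F : MvPolynomial (Fin 2) ℝ) (k : ℕ) (x y : ℝ) :
    ∑ i ∈ range (k + 1), (formPoly F k).coeff i * x ^ (k - i) * y ^ i =
      MvPolynomial.eval ![x, y] (MvPolynomial.homogeneousComponent k F) := by
  have h1 : ∀ i ∈ range (k + 1), (formPoly F k).coeff i * x ^ (k - i) * y ^ i =
      ∑ m ∈ (MvPolynomial.homogeneousComponent k F).support,
        if i = m 1 then (MvPolynomial.homogeneousComponent k F).coeff m * x ^ (k - i) * y ^ i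
          else 0 := by
    intro i _
    rw [formPoly_eq, finsetSum_coeff, Finset.sum_mul, Finset.sum_mul]
    apply Finset.sum_congr rfl
    intro m _
    rw [coeff_C_mul, coeff_X_pow]
    split_ifs <;> simp
  rw [Finset.sum_congr rfl h1, Finset.sum_comm, MvPolynomial.eval_eq']
  apply Finset.sum_congr rfl
  intro m hm
  have h2 := mem_support_hom hm
  rw [Finset.sum_ite_eq' , if_pos (mem_range.2 (by omega)), Fin.prod_univ_two]
  have h3 : k - m 1 = m 0 := by omega
  rw [h3]
  simp [mul_assoc]

theorem ev_formPoly (F : MvPolynomial (Fin 2) ℝ) (x y : ℝ) :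
    ev F.totalDegree (formPoly F) x y = MvPolynomial.eval ![x, y] F := by
  unfold ev
  rw [Finset.sum_congr rfl (fun k _ => formPoly_sum F k x y), ← map_sum,
    MvPolynomial.sum_homogeneousComponent]

theorem formPoly_coeff (F : MvPolynomial (Fin 2) ℝ) (m : Fin 2 →₀ ℕ) :
    (formPoly F (m 0 + m 1)).coeff (m 1) = F.coeff m := by
  have hdeg : m.degree = m 0 + m 1 := by
    rw [Finsupp.degree_eq_sum]
    simp
  rw [formPoly_eq, finsetSum_coeff]
  simp only [coeff_C_mul, coeff_X_pow]
  rw [Finset.sum_eq_single m]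
  · rw [if_pos rfl, mul_one, MvPolynomial.coeff_homogeneousComponent, if_pos hdeg]
  · intro b hb hbm
    rw [if_neg, mul_zero]
    intro h1
    apply hbm
    have h2 := mem_support_hom hb
    ext i
    fin_cases i
    · simp only [Fin.zero_eta, Fin.isValue]
      omega
    · simp only [Fin.mk_one, Fin.isValue]
      omega
  · intro hm
    rw [if_pos rfl, mul_one]
    exact MvPolynomial.notMem_support_iff.1 hm

theorem formPoly_lead_ne_zero (F : MvPolynomial (Fin 2) ℝ) (hF : 0 < F.totalDegree) :
    formPoly F F.totalDegree ≠ 0 := by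
  have hF0 : F ≠ 0 := by
    rintro rfl
    simp at hF
  have hs : F.support.Nonempty := by
    rw [Finset.nonempty_iff_ne_empty]
    intro h0
    exact hF0 (MvPolynomial.support_eq_empty.1 h0)
  obtain ⟨m, hm, hmd⟩ := Finset.exists_mem_eq_sup F.support hs (fun s => s.sum fun _ e => e)
  have h1 : F.totalDegree = m 0 + m 1 := by
    unfold MvPolynomial.totalDegree
    rw [hmd, Finsupp.sum_fintype _ _ (by simp)]
    simp
  intro h0
  have h2 := formPoly_coeff F m
  rw [← h1, h0, coeff_zero] at h2
  exact MvPolynomial.mem_support_iff.1 hm h2.symm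

theorem IsPacking.pk {α : ℝ} {F : MvPolynomial (Fin 2) ℝ} (h : IsPacking α F) (hα : 0 < α)
    (hirr : Irrational α) : Pk α F.totalDegree (formPoly F) where
  pos := hα
  irr := hirr
  deg := formPoly_natDegree F
  inj := by
    intro P hP Q hQ hPQ
    rw [ev_formPoly, ev_formPoly] at hPQ
    exact h.injOn hP hQ hPQ
  val := by
    intro P hP
    rw [ev_formPoly]
    obtain ⟨n, hn⟩ := h.mapsTo hP
    exact ⟨n, hn.symm⟩
  surj := by
    intro n
    obtain ⟨P, hP, hPn⟩ := h.surjOn (Set.mem_range_self n)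
    exact ⟨P, hP, by rw [ev_formPoly]; exact hPn⟩

/-- **Theorem A.**  No packing polynomial of degree `≥ 3` on an irrational sector has a leading form
all of whose zeros in the closed sector are rational directions, of order at most three. -/
theorem general_degree {α : ℝ} (hα : 0 < α) (hirr : Irrational α) (F : MvPolynomial (Fin 2) ℝ)
    (hd : 3 ≤ F.totalDegree)
    (hroots : ∀ θ ∈ Set.Icc 0 α, (formPoly F F.totalDegree).eval θ = 0 →
      (∃ r : ℚ, θ = r) ∧ rootMultiplicity θ (formPoly F F.totalDegree) ≤ 3) :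
    ¬ IsPacking α F := by
  intro hP
  have H := hP.pk hα hirr
  have hne := formPoly_lead_ne_zero F (by omega)
  apply H.false_of_local hd
  intro θ hθ h0
  obtain ⟨⟨r, hr⟩, hμ⟩ := hroots θ hθ h0
  have hr0 : (0 : ℚ) ≤ r := by
    have := hθ.1
    rw [hr] at this
    exact_mod_cast this
  have h1 : ((r.num.toNat : ℕ) : ℤ) = r.num := Int.toNat_of_nonneg (Rat.num_nonneg.2 hr0)
  have h2 : (r : ℝ) = ((r.num.toNat : ℕ) : ℝ) / ((r.den : ℕ) : ℝ) := by
    have h3 : ((r.num.toNat : ℕ) : ℝ) = (r.num : ℝ) := by exact_mod_cast h1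
    rw [h3]
    exact_mod_cast (Rat.num_div_den r).symm
  have hden : (0 : ℝ) < (r.den : ℝ) := by exact_mod_cast r.den_pos
  have hv : (r.den, r.num.toNat) ∈ Sec α := by
    change ((r.num.toNat : ℕ) : ℝ) ≤ α * (r.den : ℝ)
    have := hθ.2
    rw [hr, h2, div_le_iff₀ hden] at this
    exact this
  rw [hr, h2] at h0 hμ ⊢
  apply H.near_rational hd hne r.den r.num.toNat r.den_pos hv _ hμ
  exact (rootMultiplicity_pos hne).2 h0

end PP72
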