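import Pool.Agent.PP72.Aux4
import Pool.Agent.PP72.Boundary

/-!
Counting lattice points close to a line of irrational slope, when the first coordinate is bounded by
a power of the value.
-/

open Polynomial Finset Filter

namespace PP72

variable {α : ℝ} {d : ℕ} {h : ℕ → ℝ[X]}

/-- values of a polynomial at well spaced integers -/
theorem poly_count (p : ℝ[X]) (d : ℕ) (hp : p.natDegree ≤ d) (N : ℝ) (T : Finset ℕ) (σ m : ℕ)
    (hm : 1 ≤ m) (hσ : 1 ≤ σ) (hT : ∀ x ∈ T, |p.eval (x : ℝ)| ≤ N)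
    (hsp : ∀ x ∈ T, ∀ y ∈ T, x < y → x + σ ≤ y) (hcard : d * m + 1 ≤ T.card) :
    |p.coeff d| * ((m : ℝ) * σ) ^ d ≤ (d + 1) * N := by
  set e := T.orderEmbOfFin (rfl : T.card = T.card) with he
  have hmem : ∀ i, e i ∈ T := fun i => T.orderEmbOfFin_mem rfl i
  have hstep : ∀ l : ℕ, ∀ i j : Fin T.card, (j : ℕ) = i + l → e i + l * σ ≤ e j := by
    intro l
    induction l with
    | zero =>
      intro i j hij
      have : i = j := Fin.ext (by omega)
      rw [this]
      omega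
    | succ l ih =>
      intro i j hij
      have hjl := j.2
      set k : Fin T.card := ⟨i + l, by omega⟩ with hk
      have h1 := ih i k rfl
      have h2 : e k < e j := e.strictMono (by
        rw [Fin.lt_def]
        simp only [hk]
        omega)
      have h3 := hsp _ (hmem k) _ (hmem j) h2
      have h4 : (l + 1) * σ = l * σ + σ := by ring
      omega
  have hidx : ∀ i : Fin (d + 1), (i : ℕ) * m < T.card := by
    intro i
    have h1 : (i : ℕ) ≤ d := by omega
    have h2 : (i : ℕ) * m ≤ d * m := Nat.mul_le_mul_right m h1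
    omega
  set v : Fin (d + 1) → ℝ := fun i => (e ⟨i * m, hidx i⟩ : ℝ) with hv
  have hms : 0 < (m : ℝ) * σ := by
    have h1 : (0 : ℝ) < m := by exact_mod_cast hm
    have h2 : (0 : ℝ) < σ := by exact_mod_cast hσ
    positivity
  have hgap : ∀ i j : Fin (d + 1), i < j → (m : ℝ) * σ ≤ v j - v i := by
    intro i j hij
    have h0 : (i : ℕ) < j := hij
    have h1 : (i : ℕ) * m ≤ j * m := Nat.mul_le_mul_right m h0.le
    have h2 := hstep ((j : ℕ) * m - i * m) ⟨i * m, hidx i⟩ ⟨j * m, hidx j⟩ (by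
      simp only
      omega)
    have h3 : m ≤ (j : ℕ) * m - i * m := by
      have h4 : (i + 1 : ℕ) * m ≤ j * m := Nat.mul_le_mul_right m h0
      have h5 : (i + 1 : ℕ) * m = i * m + m := by ring
      omega
    have h4 : m * σ ≤ ((j : ℕ) * m - i * m) * σ := Nat.mul_le_mul_right σ h3
    have h5 : e ⟨i * m, hidx i⟩ + m * σ ≤ e ⟨j * m, hidx j⟩ := by omega
    have h6 : (e ⟨i * m, hidx i⟩ : ℝ) + m * σ ≤ (e ⟨j * m, hidx j⟩ : ℝ) := by exact_mod_cast h5
    simp only [hv]
    linarith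
  have habs : ∀ i j : Fin (d + 1), i ≠ j → (m : ℝ) * σ ≤ |v i - v j| := by
    intro i j hij
    rcases lt_or_gt_of_ne hij with h1 | h1
    · have h2 := hgap i j h1
      rw [abs_sub_comm]
      exact h2.trans (le_abs_self _)
    · exact (hgap j i h1).trans (le_abs_self _)
  have hinj : Set.InjOn v ((Finset.univ : Finset (Fin (d + 1))) : Set (Fin (d + 1))) := by
    intro i _ j _ hij
    by_contra hne
    have := habs i j hne
    rw [hij, sub_self, abs_zero] at this
    linarith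
  have hdeg : p.degree < ((Finset.univ : Finset (Fin (d + 1))).card : WithBot ℕ) := by
    rw [Finset.card_univ, Fintype.card_fin]
    refine lt_of_le_of_lt degree_le_natDegree ?_
    exact_mod_cast (by omega : p.natDegree < d + 1)
  have hkey := Lagrange.coeff_eq_sum hinj hdeg
  rw [Finset.card_univ, Fintype.card_fin, Nat.add_sub_cancel] at hkey
  have hterm : ∀ i : Fin (d + 1), |(p.eval (v i)) / ∏ j ∈ Finset.univ.erase i, (v i - v j)| ≤
      N / ((m : ℝ) * σ) ^ d := by
    intro i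
    rw [abs_div, Finset.abs_prod]
    have h1 : ((m : ℝ) * σ) ^ d ≤ ∏ j ∈ Finset.univ.erase i, |v i - v j| := by
      calc ((m : ℝ) * σ) ^ d = ∏ _j ∈ (Finset.univ : Finset (Fin (d + 1))).erase i,
            ((m : ℝ) * σ) := by
            rw [Finset.prod_const, Finset.card_erase_of_mem (Finset.mem_univ _), Finset.card_univ,
              Fintype.card_fin, Nat.add_sub_cancel]
        _ ≤ ∏ j ∈ Finset.univ.erase i, |v i - v j| := by
            apply Finset.prod_le_prod
            · intro _ _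
              exact hms.le
            · intro j hj
              exact habs i j (Finset.ne_of_mem_erase hj).symm
    have h2 : |p.eval (v i)| ≤ N := hT _ (hmem _)
    have hN : 0 ≤ N := (abs_nonneg _).trans h2
    have h3 : 0 < ((m : ℝ) * σ) ^ d := by positivity
    gcongr
  have hsum : |p.coeff d| ≤ (d + 1) * (N / ((m : ℝ) * σ) ^ d) := by
    rw [hkey]
    refine (Finset.abs_sum_le_sum_abs _ _).trans ?_
    refine (Finset.sum_le_sum fun i _ => hterm i).trans ?_
    rw [Finset.sum_const, Finset.card_univ, Fintype.card_fin, nsmul_eq_mul]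
    push_cast
    exact le_rfl
  have h3 : 0 < ((m : ℝ) * σ) ^ d := by positivity
  calc |p.coeff d| * ((m : ℝ) * σ) ^ d ≤ (d + 1) * (N / ((m : ℝ) * σ) ^ d) *
        ((m : ℝ) * σ) ^ d := by gcongr
    _ = (d + 1) * N := by field_simp

/-- values of the leading form at rational directions -/
theorem Pk.form_lower (H : Pk α d h) : ∃ κ : ℝ, 0 < κ ∧ ∀ (a : ℕ) (b : ℤ), 0 < a →
    (h d).eval ((b : ℝ) / a) ≠ 0 → κ ≤ |(h d).eval ((b : ℝ) / a)| * (a : ℝ) ^ d := by
  obtain ⟨c, hc, hev⟩ := H.rat_coeffs d le_rfl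
  -- a common denominator
  set D : ℕ := ∏ i ∈ range (d + 1), (c i).den with hD
  have hD0 : 0 < D := Finset.prod_pos fun i _ => (c i).den_pos
  have hDR : (0 : ℝ) < D := by exact_mod_cast hD0
  refine ⟨1 / D, by positivity, fun a b ha hne => ?_⟩
  have haR : (0 : ℝ) < a := by exact_mod_cast ha
  have hci : ∀ i ∈ range (d + 1), ∃ z : ℤ, (D : ℝ) * (c i : ℝ) = z := by
    intro i hi
    obtain ⟨k, hk⟩ := Finset.dvd_prod_of_mem (fun i => (c i).den) hi
    rw [← hD] at hk
    refine ⟨(c i).num * k, ?_⟩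
    have h1 : ((c i).den : ℝ) ≠ 0 := by exact_mod_cast (c i).den_nz
    have h2 : ((c i : ℚ) : ℝ) = ((c i).num : ℝ) / ((c i).den : ℝ) := by
      rw [Rat.cast_def]
    rw [h2, hk]
    push_cast
    field_simp
  choose! z hz using hci
  have hval : (D : ℝ) * ((h d).eval ((b : ℝ) / a) * (a : ℝ) ^ d) =
      ((∑ i ∈ range (d + 1), z i * b ^ i * (a : ℤ) ^ (d - i) : ℤ) : ℝ) := by
    rw [hev, Finset.sum_mul, Finset.mul_sum]
    push_cast
    apply Finset.sum_congr rfl
    intro i hi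
    have hid : i ≤ d := by
      rw [mem_range] at hi
      omega
    have h1 : (a : ℝ) ^ d = (a : ℝ) ^ i * (a : ℝ) ^ (d - i) := by
      rw [← pow_add]
      congr 1
      omega
    rw [h1, div_pow, ← hz i hi]
    field_simp
  have hne' : (∑ i ∈ range (d + 1), z i * b ^ i * (a : ℤ) ^ (d - i) : ℤ) ≠ 0 := by
    intro h0
    rw [h0] at hval
    push_cast at hval
    have h1 : (h d).eval ((b : ℝ) / a) * (a : ℝ) ^ d ≠ 0 := mul_ne_zero hne (by positivity)
    exact mul_ne_zero hDR.ne' h1 hval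
  have h1 : (1 : ℝ) ≤ |((∑ i ∈ range (d + 1), z i * b ^ i * (a : ℤ) ^ (d - i) : ℤ) : ℝ)| := by
    exact_mod_cast Int.one_le_abs hne'
  rw [← hval, abs_mul, abs_of_pos hDR, abs_mul, abs_of_pos (by positivity : 0 < (a : ℝ) ^ d)]
    at h1
  rw [div_le_iff₀ hDR]
  linarith

/-- the points of a line of rational slope at which `F` is at most `N` -/
theorem Pk.line_count (H : Pk α d h) (hd2 : 2 ≤ d) : ∃ c : ℝ, 0 < c ∧ ∀ (a : ℕ) (b : ℤ),
    0 < a → IsCoprime (a : ℤ) b → (h d).eval ((b : ℝ) / a) ≠ 0 →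
    ∀ (N : ℕ) (S : Finset (ℕ × ℕ)), (∀ P ∈ S, P ∈ Sec α ∧ 0 < P.1 ∧ fv d h P ≤ N) →
      (∀ P ∈ S, ∀ Q ∈ S, (a : ℤ) * (P.2 - Q.2) = b * (P.1 - Q.1)) →
      (S.card : ℝ) ≤ c * (√(N : ℝ) + 1) := by
  obtain ⟨κ, hκ, hform⟩ := H.form_lower
  set c := (d : ℝ) * (√((d + 1) / κ) + 1) with hc
  have hdR : (2 : ℝ) ≤ d := by exact_mod_cast hd2
  have hc0 : 0 < c := by positivity
  refine ⟨c, hc0, fun a b ha hab hne N S hS hline => ?_⟩
  have haR : (0 : ℝ) < a := by exact_mod_cast ha
  have hsq0 : 0 ≤ √(N : ℝ) := Real.sqrt_nonneg _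
  rcases S.eq_empty_or_nonempty with rfl | ⟨P0, hP0⟩
  · rw [Finset.card_empty]
    push_cast
    positivity
  set r : ℝ := (b : ℝ) / a with hr
  set u0 : ℝ := (P0.2 : ℝ) - r * P0.1 with hu0
  -- the polynomial on the line
  set p := ∑ j ∈ range (d + 1), C ((gT d h r j).eval u0) * X ^ j with hp
  have hpdeg : p.natDegree ≤ d := by
    apply natDegree_sum_le_of_forall_le
    intro j hj
    refine (natDegree_C_mul_X_pow_le _ _).trans ?_
    rw [mem_range] at hj
    omega
  have hpd : p.coeff d = (h d).eval r := by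
    rw [hp, finsetSum_coeff]
    simp only [coeff_C_mul, coeff_X_pow]
    rw [Finset.sum_eq_single d]
    · rw [if_pos rfl, mul_one]
      have h1 : (gT d h r d).natDegree ≤ 0 := by
        have := gT_natDegree_le (d := d) (h := h) r d
        omega
      rw [eq_C_of_natDegree_le_zero h1, eval_C, gT_coeff, if_pos (by omega), zero_add,
        taylor_coeff_zero]
    · intro j _ hjd
      rw [if_neg (Ne.symm hjd), mul_zero]
    · intro hdn
      exact absurd (mem_range.2 (by omega)) hdn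
  have hPu : ∀ P ∈ S, (P.2 : ℝ) - r * P.1 = u0 := by
    intro P hP
    have h1 := hline P hP P0 hP0
    have h2 : (a : ℝ) * ((P.2 : ℝ) - P0.2) = b * ((P.1 : ℝ) - P0.1) := by exact_mod_cast h1
    have h3 : (P.2 : ℝ) - P0.2 = r * ((P.1 : ℝ) - P0.1) := by
      rw [hr]
      field_simp
      linarith
    rw [hu0]
    linarith
  have hval : ∀ P ∈ S, p.eval (P.1 : ℝ) = fv d h P := by
    intro P hP
    rw [fv_taylor H.deg r, hPu P hP, hp, eval_finsetSum]
    apply Finset.sum_congr rfl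
    intro j _
    rw [eval_mul, eval_C, eval_pow, eval_X]
    ring
  -- the set of first coordinates
  set T := S.image Prod.fst with hT
  have hinj : Set.InjOn (Prod.fst : ℕ × ℕ → ℕ) (S : Set (ℕ × ℕ)) := by
    intro P hP Q hQ hPQ
    apply Prod.ext hPQ
    have h1 := hPu P hP
    have h2 := hPu Q hQ
    rw [hPQ] at h1
    have h3 : (P.2 : ℝ) = Q.2 := by linarith
    exact_mod_cast h3
  have hcard : T.card = S.card := Finset.card_image_of_injOn hinj
  rw [← hcard]
  by_contra hcon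
  push Not at hcon
  -- choose `m`
  set m := (T.card - 1) / d with hm
  have hdpos : 0 < d := by omega
  have hTc : 0 < T.card := by
    rw [hcard]
    exact Finset.card_pos.2 ⟨P0, hP0⟩
  have h1 : d * m + 1 ≤ T.card := by
    have := Nat.mul_div_le (T.card - 1) d
    rw [← hm] at this
    omega
  have h2 : T.card ≤ d * (m + 1) := by
    have := Nat.lt_mul_div_succ (T.card - 1) hdpos
    rw [← hm] at this
    omega
  have h2R : (T.card : ℝ) ≤ d * ((m : ℝ) + 1) := by exact_mod_cast h2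
  have hm1 : 1 ≤ m := by
    by_contra hm0
    have hm0' : m = 0 := Nat.lt_one_iff.1 (not_le.1 hm0)
    rw [hm0'] at h2R
    push_cast at h2R
    have h3 : (d : ℝ) ≤ c * (√(N : ℝ) + 1) := by
      have h4 : (d : ℝ) ≤ c := by
        rw [hc]
        have : 0 ≤ √(((d : ℝ) + 1) / κ) := Real.sqrt_nonneg _
        nlinarith
      have h5 : c * 1 ≤ c * (√(N : ℝ) + 1) := by
        gcongr
        linarith
      linarith
    linarith
  have key := poly_count p d hpdeg N T a m hm1 ha (by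
    intro x hx
    obtain ⟨P, hP, rfl⟩ := Finset.mem_image.1 hx
    rw [hval P hP, abs_of_nonneg (H.fv_nonneg (hS P hP).1)]
    exact (hS P hP).2.2) (by
    intro x hx y hy hxy
    obtain ⟨P, hP, rfl⟩ := Finset.mem_image.1 hx
    obtain ⟨Q, hQ, rfl⟩ := Finset.mem_image.1 hy
    have h3 := hline Q hQ P hP
    have h4 : (a : ℤ) ∣ b * ((Q.1 : ℤ) - P.1) := ⟨_, h3.symm⟩
    have h5 : (a : ℤ) ∣ (Q.1 : ℤ) - P.1 := hab.dvd_of_dvd_mul_left h4
    have h6 : (a : ℤ) ≤ (Q.1 : ℤ) - P.1 := Int.le_of_dvd (by omega) h5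
    omega) h1
  rw [hpd, mul_pow] at key
  have hf := hform a b ha hne
  have hmR : (1 : ℝ) ≤ m := by exact_mod_cast hm1
  have h3 : κ * (m : ℝ) ^ 2 ≤ (d + 1) * N := by
    calc κ * (m : ℝ) ^ 2 ≤ κ * (m : ℝ) ^ d := by
          have := pow_le_pow_right₀ hmR hd2
          gcongr
      _ ≤ |(h d).eval r| * (a : ℝ) ^ d * (m : ℝ) ^ d := by gcongr
      _ = |(h d).eval r| * ((m : ℝ) ^ d * (a : ℝ) ^ d) := by ring
      _ ≤ (d + 1) * N := key
  have h4 : (m : ℝ) ≤ √((d + 1) / κ) * √(N : ℝ) := by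
    rw [← Real.sqrt_mul (by positivity)]
    apply Real.le_sqrt_of_sq_le
    rw [div_mul_eq_mul_div, le_div_iff₀ hκ]
    linarith
  have h5 : (d : ℝ) * ((m : ℝ) + 1) ≤ c * (√(N : ℝ) + 1) := by
    rw [hc]
    have h6 : 0 ≤ √(((d : ℝ) + 1) / κ) := Real.sqrt_nonneg _
    have h7 : (m : ℝ) + 1 ≤ (√((d + 1) / κ) + 1) * (√(N : ℝ) + 1) := by
      have h8 : (√((d + 1) / κ) + 1) * (√(N : ℝ) + 1) = √((d + 1) / κ) * √(N : ℝ) +
          √((d + 1) / κ) + √(N : ℝ) + 1 := by ring
      linarith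
    calc (d : ℝ) * ((m : ℝ) + 1) ≤ d * ((√((d + 1) / κ) + 1) * (√(N : ℝ) + 1)) := by gcongr
      _ = (d : ℝ) * (√((d + 1) / κ) + 1) * (√(N : ℝ) + 1) := by ring
  linarith

end PP72
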