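import Pool.Agent.PP72.Cnt

/-!
Counting lattice points close to a line of irrational slope: blocks, and the conclusion.
-/

open Polynomial Finset Filter

namespace PP72

variable {α : ℝ} {d : ℕ} {h : ℕ → ℝ[X]}

/-- near an irrational number there are no rational zeros of a polynomial -/
theorem isolated (p : ℝ[X]) (hp : p ≠ 0) {θ : ℝ} : ∃ r : ℝ, 0 < r ∧ ∀ t : ℝ, |t - θ| < r →
    t ≠ θ → p.eval t ≠ 0 := by
  have hfin : ((p.roots.toFinset.erase θ : Finset ℝ) : Set ℝ).Finite := Finset.finite_toSet _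
  have hopen : IsOpen ((p.roots.toFinset.erase θ : Finset ℝ) : Set ℝ)ᶜ :=
    hfin.isClosed.isOpen_compl
  have hmem : θ ∈ ((p.roots.toFinset.erase θ : Finset ℝ) : Set ℝ)ᶜ := by
    intro h1
    rw [Finset.mem_coe] at h1
    exact Finset.notMem_erase _ _ h1
  obtain ⟨r, hr, hball⟩ := Metric.isOpen_iff.1 hopen θ hmem
  refine ⟨r, hr, fun t ht hne h0 => ?_⟩
  have h1 : t ∈ Metric.ball θ r := by
    rw [Metric.mem_ball, Real.dist_eq]
    exact ht
  have h2 := hball h1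
  apply h2
  rw [Finset.mem_coe, Finset.mem_erase, Multiset.mem_toFinset, mem_roots hp]
  exact ⟨hne, h0⟩

/-- the points of a dyadic block close to a line of irrational slope, with value at most `N` -/
theorem Pk.block_count (H : Pk α d h) (hd2 : 2 ≤ d) (hne : h d ≠ 0) {θ : ℝ} (hθ : Irrational θ)
    (s C0 : ℝ) (hC0 : 0 ≤ C0) : ∃ c : ℝ, 0 < c ∧ ∃ X1 : ℕ, ∀ (X N : ℕ) (S : Finset (ℕ × ℕ)),
      X1 < X → (∀ P ∈ S, P ∈ Sec α ∧ X ≤ P.1 ∧ P.1 ≤ 2 * X ∧
        |(P.2 : ℝ) - θ * P.1 - s| ≤ C0 / P.1 ∧ fv d h P ≤ N) →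
      (S.card : ℝ) ≤ c * (√(N : ℝ) + 1) := by
  obtain ⟨c1, hc1, hline⟩ := H.line_count hd2
  obtain ⟨r, hr, hiso⟩ := isolated (h d) hne (θ := θ)
  set B := ⌊4 * C0⌋ with hB
  have hB0 : 0 ≤ B := Int.floor_nonneg.2 (by positivity)
  set I := Finset.Icc (-B) B with hI
  set c := (I.card : ℝ) * c1 + 1 with hc
  have hcpos : 0 < c := by positivity
  obtain ⟨X1, hX1⟩ := exists_nat_ge (2 * C0 / r + 4 * C0 + 1)
  refine ⟨c, hcpos, X1, fun X N S hX hS => ?_⟩
  have hXR : (X1 : ℝ) < X := by exact_mod_cast hX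
  have q1 : 0 ≤ 2 * C0 / r := by positivity
  have hXpos : (0 : ℝ) < X := by
    have : (0 : ℝ) ≤ X1 := Nat.cast_nonneg _
    linarith
  have hX4 : 4 * C0 < X := by linarith
  have hXr : 2 * C0 < r * X := by
    have h1 : 2 * C0 / r < X := by linarith
    rw [div_lt_iff₀ hr] at h1
    linarith
  have hsq0 : 0 ≤ √(N : ℝ) := Real.sqrt_nonneg _
  rcases Nat.lt_or_ge S.card 2 with hsmall | hbig
  · have h1 : (S.card : ℝ) ≤ 1 := by
      have : S.card ≤ 1 := by omega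
      exact_mod_cast this
    have h2 : 1 ≤ c := by
      rw [hc]
      have : 0 ≤ (I.card : ℝ) * c1 := by positivity
      linarith
    calc (S.card : ℝ) ≤ 1 := h1
      _ ≤ c * 1 := by linarith
      _ ≤ c * (√(N : ℝ) + 1) := by
          gcongr
          linarith
  obtain ⟨P0', hP0', P1', hP1', hne01⟩ := Finset.one_lt_card.1 (by omega : 1 < S.card)
  -- distances
  have hv : ∀ P ∈ S, |(P.2 : ℝ) - θ * P.1 - s| ≤ C0 / X := by
    intro P hP
    obtain ⟨_, h2, _, h4, _⟩ := hS P hP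
    refine h4.trans ?_
    have : (X : ℝ) ≤ P.1 := by exact_mod_cast h2
    gcongr
  have hvd : ∀ P ∈ S, ∀ Q ∈ S, |((P.2 : ℝ) - Q.2) - θ * ((P.1 : ℝ) - Q.1)| ≤ 2 * C0 / X := by
    intro P hP Q hQ
    have h1 := abs_le.1 (hv P hP)
    have h2 := abs_le.1 (hv Q hQ)
    have h3 : 2 * C0 / X = C0 / X + C0 / X := by ring
    rw [h3, abs_le]
    constructor <;> linarith [h1.1, h1.2, h2.1, h2.2]
  have hxd : ∀ P ∈ S, ∀ Q ∈ S, |(P.1 : ℝ) - Q.1| ≤ X := by
    intro P hP Q hQ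
    obtain ⟨_, h2, h3, _, _⟩ := hS P hP
    obtain ⟨_, k2, k3, _, _⟩ := hS Q hQ
    have a1 : (X : ℝ) ≤ P.1 := by exact_mod_cast h2
    have a2 : (P.1 : ℝ) ≤ 2 * X := by exact_mod_cast h3
    have a3 : (X : ℝ) ≤ Q.1 := by exact_mod_cast k2
    have a4 : (Q.1 : ℝ) ≤ 2 * X := by exact_mod_cast k3
    rw [abs_le]
    constructor <;> linarith
  have hx01 : P0'.1 ≠ P1'.1 := by
    intro h1
    apply hne01
    apply Prod.ext h1
    have h2 := hvd P0' hP0' P1' hP1'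
    rw [h1, sub_self, mul_zero, _root_.sub_zero] at h2
    have h3 : 2 * C0 / X < 1 := by
      rw [div_lt_one hXpos]
      linarith
    have h4 : |((P0'.2 : ℤ) - P1'.2 : ℤ)| < 1 := by
      have h5 : |(((P0'.2 : ℤ) - P1'.2 : ℤ) : ℝ)| < 1 := by
        push_cast
        exact lt_of_le_of_lt h2 h3
      exact_mod_cast h5
    have h5 := Int.abs_lt_one_iff.1 h4
    omega
  -- order the two points
  obtain ⟨P0, hP0, P1, hP1, hlt⟩ : ∃ P0 ∈ S, ∃ P1 ∈ S, P0.1 < P1.1 := by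
    rcases lt_or_gt_of_ne hx01 with h1 | h1
    · exact ⟨P0', hP0', P1', hP1', h1⟩
    · exact ⟨P1', hP1', P0', hP0', h1⟩
  -- the direction
  set a' : ℤ := (P1.1 : ℤ) - P0.1 with ha'
  set b' : ℤ := (P1.2 : ℤ) - P0.2 with hb'
  have ha'0 : 0 < a' := by rw [ha']; omega
  obtain ⟨g, a0, b0, hg, hcop, hag, hbg⟩ : ∃ g a0 b0 : ℤ, 0 < g ∧ IsCoprime a0 b0 ∧
      a' = g * a0 ∧ b' = g * b0 := by
    have hgpos : 0 < Int.gcd a' b' := Int.gcd_pos_of_ne_zero_left _ ha'0.ne'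
    obtain ⟨a0, b0, hcop, h1, h2⟩ := Int.exists_gcd_one hgpos
    refine ⟨Int.gcd a' b', a0, b0, by exact_mod_cast hgpos, Int.isCoprime_iff_gcd_eq_one.2 hcop,
      ?_, ?_⟩
    · rw [mul_comm]; exact h1
    · rw [mul_comm]; exact h2
  have ha0 : 0 < a0 := by
    by_contra h1
    push Not at h1
    have : g * a0 ≤ 0 := mul_nonpos_of_nonneg_of_nonpos hg.le h1
    omega
  obtain ⟨a, rfl⟩ := Int.eq_ofNat_of_zero_le ha0.le
  have haN : 0 < a := by exact_mod_cast ha0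
  have haR : (0 : ℝ) < a := by exact_mod_cast haN
  have hgR : (1 : ℝ) ≤ (g : ℝ) := by exact_mod_cast (by omega : (1 : ℤ) ≤ g)
  -- `f_d` does not vanish at `b0 / a`
  have hfd : (h d).eval ((b0 : ℝ) / (a : ℕ)) ≠ 0 := by
    apply hiso
    · have h1 := hvd P1 hP1 P0 hP0
      have e1 : (P1.2 : ℝ) - P0.2 = g * b0 := by
        have : ((b' : ℤ) : ℝ) = ((g * b0 : ℤ) : ℝ) := by rw [hbg]
        rw [hb'] at this
        push_cast at this
        exact this
      have e2 : (P1.1 : ℝ) - P0.1 = g * a := by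
        have : ((a' : ℤ) : ℝ) = ((g * (a : ℤ) : ℤ) : ℝ) := by rw [hag]
        rw [ha'] at this
        push_cast at this
        exact this
      rw [e1, e2] at h1
      have e3 : (g : ℝ) * b0 - θ * (g * a) = (g * a) * ((b0 : ℝ) / a - θ) := by
        field_simp
      rw [e3, abs_mul, abs_of_pos (by positivity : (0 : ℝ) < g * a)] at h1
      have h2 : (1 : ℝ) ≤ g * a := by
        have : (1 : ℝ) ≤ a := by exact_mod_cast haN
        calc (1 : ℝ) = 1 * 1 := by norm_num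
          _ ≤ g * a := by gcongr
      have h3 : |(b0 : ℝ) / a - θ| ≤ g * a * |(b0 : ℝ) / a - θ| :=
        le_mul_of_one_le_left (abs_nonneg _) h2
      have h4 : 2 * C0 / X < r := by
        rw [div_lt_iff₀ hXpos]
        exact hXr
      linarith
    · intro h1
      apply hθ
      refine ⟨(b0 : ℚ) / a, ?_⟩
      rw [← h1]
      push_cast
      rfl
  -- the map to the integers
  set f : ℕ × ℕ → ℤ := fun P => a' * ((P.2 : ℤ) - P0.2) - b' * ((P.1 : ℤ) - P0.1) with hf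
  have hmaps : ∀ P ∈ S, f P ∈ I := by
    intro P hP
    have h1 := hvd P hP P0 hP0
    have h2 := hvd P1 hP1 P0 hP0
    have h3 := hxd P hP P0 hP0
    have h4 := hxd P1 hP1 P0 hP0
    set A : ℝ := (P1.1 : ℝ) - P0.1 with hA
    set A2 : ℝ := (P.1 : ℝ) - P0.1 with hA2
    set V : ℝ := ((P.2 : ℝ) - P0.2) - θ * A2 with hV
    set V1 : ℝ := ((P1.2 : ℝ) - P0.2) - θ * A with hV1
    have h5 : ((f P : ℤ) : ℝ) = A * V - A2 * V1 := by
      rw [hf, hV, hV1, hA, hA2, ha', hb']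
      push_cast
      ring
    have h6 : |((f P : ℤ) : ℝ)| ≤ 4 * C0 := by
      rw [h5]
      refine (abs_sub _ _).trans ?_
      rw [abs_mul, abs_mul]
      have h7 : |A| * |V| ≤ X * (2 * C0 / X) := by gcongr
      have h8 : |A2| * |V1| ≤ X * (2 * C0 / X) := by gcongr
      have h9 : (X : ℝ) * (2 * C0 / X) = 2 * C0 := by field_simp
      linarith
    have h7 := abs_le.1 h6
    rw [hI, Finset.mem_Icc]
    constructor
    · have h8 : -(f P) ≤ B := by
        apply Int.le_floor.2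
        push_cast
        linarith [h7.1]
      omega
    · apply Int.le_floor.2
      exact h7.2
  -- the fibers
  have hfib : ∀ δ ∈ I, (((S.filter fun P => f P = δ).card : ℕ) : ℝ) ≤ c1 * (√(N : ℝ) + 1) := by
    intro δ _
    apply hline a b0 haN hcop hfd N
    · intro P hP
      rw [Finset.mem_filter] at hP
      obtain ⟨h1, h2, _, _, h5⟩ := hS P hP.1
      refine ⟨h1, ?_, h5⟩
      have : 0 < X := by exact_mod_cast hXpos
      omega
    · intro P hP Q hQ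
      rw [Finset.mem_filter] at hP hQ
      have h1 : f P = f Q := by rw [hP.2, hQ.2]
      rw [hf] at h1
      simp only at h1
      have h2 : g * ((a : ℤ) * ((P.2 : ℤ) - Q.2)) = g * (b0 * ((P.1 : ℤ) - Q.1)) := by
        rw [hag, hbg] at h1
        linear_combination h1
      exact mul_left_cancel₀ hg.ne' h2
  have hnat : ∀ δ ∈ I, (S.filter fun P => f P = δ).card ≤ ⌊c1 * (√(N : ℝ) + 1)⌋₊ := by
    intro δ hδ
    exact Nat.le_floor (hfib δ hδ)
  have htot := Finset.card_le_mul_card_image_of_maps_to hmaps _ hnat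
  have h1 : (S.card : ℝ) ≤ (⌊c1 * (√(N : ℝ) + 1)⌋₊ : ℝ) * I.card := by exact_mod_cast htot
  have h2 : (⌊c1 * (√(N : ℝ) + 1)⌋₊ : ℝ) ≤ c1 * (√(N : ℝ) + 1) :=
    Nat.floor_le (by positivity)
  have h3 : (0 : ℝ) ≤ I.card := Nat.cast_nonneg _
  calc (S.card : ℝ) ≤ (⌊c1 * (√(N : ℝ) + 1)⌋₊ : ℝ) * I.card := h1
    _ ≤ c1 * (√(N : ℝ) + 1) * I.card := by gcongr
    _ ≤ c * (√(N : ℝ) + 1) := by
        rw [hc]
        have h4 : (I.card * c1 + 1) * (√(N : ℝ) + 1) =
            c1 * (√(N : ℝ) + 1) * I.card + (√(N : ℝ) + 1) := by ring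
        rw [h4]
        linarith

end PP72
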