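import Pool.Agent.PP72.Cnt2

/-!
Lattice points close to a line of irrational slope are thin when the first coordinate is bounded by
a power of the value.
-/

open Polynomial Finset Filter

namespace PP72

variable {α : ℝ} {d : ℕ} {h : ℕ → ℝ[X]}

/-- the logarithm of a power of `N`, times `√N`, is small compared with `N` -/
theorem asym (c A : ℝ) (hc : 0 < c) (hA : 1 ≤ A) (M : ℕ) (ε : ℝ) (hε : 0 < ε) : ∃ N0 : ℕ,
    ∀ N : ℕ, N0 ≤ N →
      (Real.log (A * (1 + N) ^ M) / Real.log 2 + 2) * (c * (√(N : ℝ) + 1)) ≤ ε * N := by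
  have hl2 : 0 < Real.log 2 := Real.log_pos (by norm_num)
  have hlA : 0 ≤ Real.log A := Real.log_nonneg hA
  set c3 := Real.log A / Real.log 2 + 2 + 4 * M / Real.log 2 with hc3
  have hc30 : 0 < c3 := by positivity
  obtain ⟨N0, hN0⟩ := exists_nat_ge ((4 * c * c3 / ε) ^ 4 + 1)
  refine ⟨N0, fun N hN => ?_⟩
  have hNR : (N0 : ℝ) ≤ N := by exact_mod_cast hN
  have h4 : 0 ≤ (4 * c * c3 / ε) ^ 4 := by positivity
  have hN1 : (1 : ℝ) ≤ N := by linarith
  set s := √(√(1 + (N : ℝ))) with hs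
  have hs2 : s ^ 2 = √(1 + (N : ℝ)) := Real.sq_sqrt (Real.sqrt_nonneg _)
  have hs4 : s ^ 4 = 1 + (N : ℝ) := by
    calc s ^ 4 = (s ^ 2) ^ 2 := by ring
      _ = √(1 + (N : ℝ)) ^ 2 := by rw [hs2]
      _ = 1 + (N : ℝ) := Real.sq_sqrt (by positivity)
  have hs0 : 0 ≤ s := Real.sqrt_nonneg _
  have hs1 : 1 ≤ s := by
    by_contra hlt
    push Not at hlt
    have h5 : s ^ 4 < 1 ^ 4 := by gcongr
    linarith
  have hspos : 0 < s := by linarith
  -- logarithms
  have hlog : Real.log (1 + (N : ℝ)) ≤ 4 * s := by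
    rw [← hs4, Real.log_pow]
    have := Real.log_le_sub_one_of_pos hspos
    push_cast
    linarith
  have hN1' : (0 : ℝ) < 1 + N := by positivity
  have hL : Real.log (A * (1 + N) ^ M) / Real.log 2 + 2 ≤ c3 * s := by
    rw [Real.log_mul (by linarith) (by positivity), Real.log_pow, add_div]
    have h5 : Real.log A / Real.log 2 ≤ Real.log A / Real.log 2 * s :=
      le_mul_of_one_le_right (by positivity) hs1
    have h6 : (M : ℝ) * Real.log (1 + N) / Real.log 2 ≤ 4 * M / Real.log 2 * s := by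
      rw [div_mul_eq_mul_div]
      have h7 : (M : ℝ) * Real.log (1 + N) ≤ 4 * M * s := by
        have : (M : ℝ) * Real.log (1 + N) ≤ M * (4 * s) := by gcongr
        linarith
      gcongr
    have h7 : c3 * s = Real.log A / Real.log 2 * s + 2 * s + 4 * M / Real.log 2 * s := by
      rw [hc3]
      ring
    rw [h7]
    linarith
  have hsq : √(N : ℝ) + 1 ≤ 2 * s ^ 2 := by
    have h5 : √(N : ℝ) ≤ √(1 + (N : ℝ)) := Real.sqrt_le_sqrt (by linarith)
    have h6 : 1 ≤ s ^ 2 := one_le_pow₀ hs1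
    rw [← hs2] at h5
    linarith
  have hsbig : 4 * c * c3 ≤ ε * s := by
    have h5 : (4 * c * c3 / ε) ^ 4 ≤ s ^ 4 := by
      rw [hs4]
      linarith
    have h6 := le_of_pow_le_pow_left₀ (by norm_num) hs0 h5
    rw [div_le_iff₀ hε] at h6
    linarith
  have hL0 : 0 ≤ c * (√(N : ℝ) + 1) := by positivity
  calc (Real.log (A * (1 + N) ^ M) / Real.log 2 + 2) * (c * (√(N : ℝ) + 1))
      ≤ c3 * s * (c * (2 * s ^ 2)) := by gcongr
    _ = 4 * c * c3 * s ^ 3 / 2 := by ring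
    _ ≤ ε * s * s ^ 3 / 2 := by gcongr
    _ = ε * s ^ 4 / 2 := by ring
    _ ≤ ε * N := by
        rw [hs4]
        have := mul_le_mul_of_nonneg_left hN1 hε.le
        linarith

/-- **Counting.** Points close to a line of irrational slope whose first coordinate is bounded by a
power of the value form a thin set. -/
theorem Pk.thin_of_poly (H : Pk α d h) (hd2 : 2 ≤ d) (hne : h d ≠ 0) {θ : ℝ}
    (hθ : Irrational θ) (s C0 C : ℝ) (M X0 : ℕ) (A : Set (ℕ × ℕ))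
    (hA : ∀ P ∈ A, P ∈ Sec α ∧ |(P.2 : ℝ) - θ * P.1 - s| ≤ C0 / P.1)
    (hpoly : ∀ P ∈ A, X0 < P.1 → (P.1 : ℝ) ≤ C * (1 + fv d h P) ^ M) :
    Thin (fv d h) A := by
  obtain ⟨c, hc, X1, hblock⟩ := H.block_count hd2 hne hθ s (max C0 0) (le_max_right _ _)
  set C' := max C 1 with hC'
  have hC'1 : 1 ≤ C' := le_max_right _ _
  set X2 := 2 * (X1 + 1) + X0 with hX2
  have hsplit : A ⊆ {P | P ∈ A ∧ X2 < P.1} ∪ {P | P ∈ Sec α ∧ P.1 ≤ X2} := by
    intro P hP
    by_cases h1 : X2 < P.1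
    · exact Or.inl ⟨hP, h1⟩
    · exact Or.inr ⟨(hA P hP).1, by omega⟩
  refine Thin.mono (Thin.union ?_ (thin_finite (finite_x H.pos X2))) hsplit
  intro ε hε
  obtain ⟨N0, hN0⟩ := asym c C' hc hC'1 M ε hε
  refine ⟨N0, fun N hN T hT => ?_⟩
  have hfin := hN0 N hN
  have hl2 : 0 < Real.log 2 := Real.log_pos (by norm_num)
  set L := Real.log (C' * (1 + N) ^ M) / Real.log 2 with hL
  have hNn : (0 : ℝ) ≤ N := Nat.cast_nonneg _
  have hbase : 1 ≤ C' * (1 + (N : ℝ)) ^ M := by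
    have h1 : (1 : ℝ) ≤ (1 + (N : ℝ)) ^ M := one_le_pow₀ (by linarith)
    calc (1 : ℝ) = 1 * 1 := by norm_num
      _ ≤ C' * (1 + (N : ℝ)) ^ M := by gcongr
  have hL0 : 0 ≤ L := div_nonneg (Real.log_nonneg hbase) hl2.le
  -- the blocks
  have hmaps : ∀ P ∈ T, Nat.log 2 P.1 ∈ Finset.range (⌊L⌋₊ + 1) := by
    intro P hP
    obtain ⟨⟨hPA, hPX⟩, hPN⟩ := hT P hP
    have hF := H.fv_nonneg (hA P hPA).1
    have h1 : (P.1 : ℝ) ≤ C' * (1 + (N : ℝ)) ^ M := by
      calc (P.1 : ℝ) ≤ C * (1 + fv d h P) ^ M := hpoly P hPA (by omega)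
        _ ≤ C' * (1 + fv d h P) ^ M := by
            have : 0 ≤ (1 + fv d h P) ^ M := by positivity
            have h2 : C ≤ C' := le_max_left _ _
            gcongr
        _ ≤ C' * (1 + (N : ℝ)) ^ M := by gcongr
    have h2 : (2 : ℝ) ^ (Nat.log 2 P.1) ≤ P.1 := by
      have : 2 ^ (Nat.log 2 P.1) ≤ P.1 := Nat.pow_log_le_self 2 (by omega)
      exact_mod_cast this
    have h3 : (Nat.log 2 P.1 : ℝ) * Real.log 2 ≤ Real.log (C' * (1 + N) ^ M) := by
      rw [← Real.log_pow]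
      exact Real.log_le_log (by positivity) (h2.trans h1)
    have h4 : (Nat.log 2 P.1 : ℝ) ≤ L := by
      rw [hL, le_div_iff₀ hl2]
      exact h3
    rw [Finset.mem_range]
    have := Nat.le_floor h4
    omega
  have hfib : ∀ j ∈ Finset.range (⌊L⌋₊ + 1),
      (T.filter fun P => Nat.log 2 P.1 = j).card ≤ ⌊c * (√(N : ℝ) + 1)⌋₊ := by
    intro j _
    rcases (T.filter fun P => Nat.log 2 P.1 = j).eq_empty_or_nonempty with hemp | ⟨Q, hQ⟩
    · rw [hemp, Finset.card_empty]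
      exact Nat.zero_le _
    apply Nat.le_floor
    apply hblock (2 ^ j) N
    · rw [Finset.mem_filter] at hQ
      obtain ⟨hQT, hQj⟩ := hQ
      obtain ⟨⟨_, hQX⟩, _⟩ := hT Q hQT
      have h1 : Q.1 < 2 ^ (j + 1) := by
        rw [← hQj]
        exact Nat.lt_pow_succ_log_self (by norm_num) _
      have h2 : 2 ^ (j + 1) = 2 * 2 ^ j := by ring
      omega
    · intro P hP
      rw [Finset.mem_filter] at hP
      obtain ⟨hPT, hPj⟩ := hP
      obtain ⟨⟨hPA, hPX⟩, hPN⟩ := hT P hPT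
      obtain ⟨h1, h2⟩ := hA P hPA
      have h3 : 2 ^ j ≤ P.1 := by
        rw [← hPj]
        exact Nat.pow_log_le_self 2 (by omega)
      have h4 : P.1 < 2 ^ (j + 1) := by
        rw [← hPj]
        exact Nat.lt_pow_succ_log_self (by norm_num) _
      have h5 : 2 ^ (j + 1) = 2 * 2 ^ j := by ring
      refine ⟨h1, h3, by omega, ?_, hPN⟩
      refine h2.trans ?_
      have h6 : C0 ≤ max C0 0 := le_max_left _ _
      gcongr
  have htot := Finset.card_le_mul_card_image_of_maps_to hmaps _ hfib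
  rw [Finset.card_range] at htot
  have h1 : (T.card : ℝ) ≤ (⌊c * (√(N : ℝ) + 1)⌋₊ : ℝ) * (⌊L⌋₊ + 1) := by exact_mod_cast htot
  have h2 : (⌊c * (√(N : ℝ) + 1)⌋₊ : ℝ) ≤ c * (√(N : ℝ) + 1) := Nat.floor_le (by positivity)
  have h3 : (⌊L⌋₊ : ℝ) ≤ L := Nat.floor_le hL0
  have h0 : 0 ≤ c * (√(N : ℝ) + 1) := by positivity
  calc (T.card : ℝ) ≤ (⌊c * (√(N : ℝ) + 1)⌋₊ : ℝ) * (⌊L⌋₊ + 1) := h1
    _ ≤ c * (√(N : ℝ) + 1) * (L + 2) := by
        apply mul_le_mul h2 (by linarith) (by positivity) h0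
    _ = (L + 2) * (c * (√(N : ℝ) + 1)) := mul_comm _ _
    _ ≤ ε * N := hfin

end PP72
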