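import Pool.Agent.PP72.Cnt3

/-!
Counting when the square of the logarithm of the first coordinate is small compared to the value.
-/

open Polynomial Finset Filter

namespace PP72

variable {α : ℝ} {d : ℕ} {h : ℕ → ℝ[X]}

/-- a set is thin when, for every `ε`, it has few elements outside a thin set -/
theorem thin_of_eps {f : ℕ × ℕ → ℝ} {A : Set (ℕ × ℕ)}
    (hA : ∀ ε : ℝ, 0 < ε → ∃ B : Set (ℕ × ℕ), Thin f B ∧ ∃ N0 : ℕ, ∀ N : ℕ, N0 ≤ N →
      ∀ T : Finset (ℕ × ℕ), (∀ P ∈ T, P ∈ A ∧ P ∉ B ∧ f P ≤ N) → (T.card : ℝ) ≤ ε * N) :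
    Thin f A := by
  classical
  intro ε hε
  obtain ⟨B, hB, N1, h1⟩ := hA (ε / 2) (by positivity)
  obtain ⟨N2, h2⟩ := hB (ε / 2) (by positivity)
  refine ⟨max N1 N2, fun N hN T hT => ?_⟩
  have e1 := h1 N (le_trans (le_max_left _ _) hN) (T.filter fun P => ¬ P ∈ B) (by
    intro P hP
    rw [Finset.mem_filter] at hP
    exact ⟨(hT P hP.1).1, hP.2, (hT P hP.1).2⟩)
  have e2 := h2 N (le_trans (le_max_right _ _) hN) (T.filter fun P => P ∈ B) (by
    intro P hP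
    rw [Finset.mem_filter] at hP
    exact ⟨hP.2, (hT P hP.1).2⟩)
  have e3 := Finset.card_filter_add_card_filter_not (s := T) (fun P => P ∈ B)
  have e4 : (T.card : ℝ) = ((T.filter fun P => P ∈ B).card : ℝ) +
      ((T.filter fun P => ¬ P ∈ B).card : ℝ) := by
    exact_mod_cast e3.symm
  rw [e4]
  linarith

/-- **Counting.** Points close to a line of irrational slope, for which the square of the logarithm
of the first coordinate is small compared to the value, form a thin set. -/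
theorem Pk.thin_of_log (H : Pk α d h) (hd2 : 2 ≤ d) (hne : h d ≠ 0) {θ : ℝ}
    (hθ : Irrational θ) (s C0 : ℝ) (A : Set (ℕ × ℕ))
    (hA : ∀ P ∈ A, P ∈ Sec α ∧ |(P.2 : ℝ) - θ * P.1 - s| ≤ C0 / P.1)
    (hlog : ∀ η : ℝ, 0 < η → ∃ X0 : ℕ, ∀ P ∈ A, X0 < P.1 →
      Real.log P.1 ^ 2 ≤ η * fv d h P) :
    Thin (fv d h) A := by
  obtain ⟨c, hc, X1, hblock⟩ := H.block_count hd2 hne hθ s (max C0 0) (le_max_right _ _)
  have hl2 : 0 < Real.log 2 := Real.log_pos (by norm_num)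
  apply thin_of_eps
  intro ε hε
  set η := (ε * Real.log 2 / (4 * c)) ^ 2 with hη
  obtain ⟨X0, hX0⟩ := hlog η (by positivity)
  set X2 := 2 * (X1 + 1) + X0 with hX2
  refine ⟨{P | P ∈ Sec α ∧ P.1 ≤ X2}, thin_finite (finite_x H.pos X2), ?_⟩
  obtain ⟨N0, hN0⟩ := exists_nat_ge ((4 * c / ε) ^ 2 + 1)
  refine ⟨N0, fun N hN T hT => ?_⟩
  have hNR : (N0 : ℝ) ≤ N := by exact_mod_cast hN
  have hNn : (0 : ℝ) ≤ N := Nat.cast_nonneg _
  set σ := √(N : ℝ) with hσ
  have hσ0 : 0 ≤ σ := Real.sqrt_nonneg _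
  have hσ2 : σ ^ 2 = N := Real.sq_sqrt hNn
  have hq0 : 0 ≤ (4 * c / ε) ^ 2 := by positivity
  have hσ1 : 1 ≤ σ := by
    rw [hσ, Real.one_le_sqrt]
    linarith
  have hσ8 : 4 * c / ε ≤ σ := by
    apply Real.le_sqrt_of_sq_le
    linarith
  have hT' : ∀ P ∈ T, P ∈ A ∧ X2 < P.1 ∧ fv d h P ≤ N := by
    intro P hP
    obtain ⟨h1, h2, h3⟩ := hT P hP
    refine ⟨h1, ?_, h3⟩
    by_contra hcon
    exact h2 ⟨(hA P h1).1, by omega⟩
  set L := ε / (4 * c) * σ with hL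
  have hL0 : 0 ≤ L := by positivity
  -- the blocks
  have hmaps : ∀ P ∈ T, Nat.log 2 P.1 ∈ Finset.range (⌊L⌋₊ + 1) := by
    intro P hP
    obtain ⟨hPA, hPX, hPN⟩ := hT' P hP
    have hPpos : 0 < P.1 := by omega
    have hP1 : (1 : ℝ) ≤ P.1 := by exact_mod_cast hPpos
    have h1 := hX0 P hPA (by omega)
    have h2 : Real.log P.1 ^ 2 ≤ (ε * Real.log 2 / (4 * c) * σ) ^ 2 := by
      calc Real.log P.1 ^ 2 ≤ η * fv d h P := h1
        _ ≤ η * N := by gcongr
        _ = (ε * Real.log 2 / (4 * c) * σ) ^ 2 := by rw [mul_pow, hσ2]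
    have h3 : Real.log P.1 ≤ ε * Real.log 2 / (4 * c) * σ :=
      le_of_sq_le_sq h2 (by positivity)
    have h4 : (2 : ℝ) ^ (Nat.log 2 P.1) ≤ P.1 := by
      have : 2 ^ (Nat.log 2 P.1) ≤ P.1 := Nat.pow_log_le_self 2 (by omega)
      exact_mod_cast this
    have h5 : (Nat.log 2 P.1 : ℝ) * Real.log 2 ≤ Real.log P.1 := by
      rw [← Real.log_pow]
      exact Real.log_le_log (by positivity) h4
    have h6 : (Nat.log 2 P.1 : ℝ) * Real.log 2 ≤ L * Real.log 2 := by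
      calc (Nat.log 2 P.1 : ℝ) * Real.log 2 ≤ ε * Real.log 2 / (4 * c) * σ := h5.trans h3
        _ = L * Real.log 2 := by rw [hL]; ring
    have h7 : (Nat.log 2 P.1 : ℝ) ≤ L := le_of_mul_le_mul_right h6 hl2
    rw [Finset.mem_range]
    have := Nat.le_floor h7
    omega
  have hfib : ∀ j ∈ Finset.range (⌊L⌋₊ + 1),
      (T.filter fun P => Nat.log 2 P.1 = j).card ≤ ⌊c * (σ + 1)⌋₊ := by
    intro j _
    rcases (T.filter fun P => Nat.log 2 P.1 = j).eq_empty_or_nonempty with hemp | ⟨Q, hQ⟩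
    · rw [hemp, Finset.card_empty]
      exact Nat.zero_le _
    apply Nat.le_floor
    apply hblock (2 ^ j) N
    · rw [Finset.mem_filter] at hQ
      obtain ⟨hQT, hQj⟩ := hQ
      obtain ⟨_, hQX, _⟩ := hT' Q hQT
      have h1 : Q.1 < 2 ^ (j + 1) := by
        rw [← hQj]
        exact Nat.lt_pow_succ_log_self (by norm_num) _
      have h2 : 2 ^ (j + 1) = 2 * 2 ^ j := by ring
      omega
    · intro P hP
      rw [Finset.mem_filter] at hP
      obtain ⟨hPT, hPj⟩ := hP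
      obtain ⟨hPA, hPX, hPN⟩ := hT' P hPT
      obtain ⟨h1, h2⟩ := hA P hPA
      have h3 : 2 ^ j ≤ P.1 := by
        rw [← hPj]
        exact Nat.pow_log_le_self 2 (by omega)
      have h4 : P.1 < 2 ^ (j + 1) := by
        rw [← hPj]
        exact Nat.lt_pow_succ_log_self (by norm_num) _
      have h5 : 2 ^ (j + 1) = 2 * 2 ^ j := by ring
      refine ⟨h1, h3, by omega, ?_, hPN⟩
      refine h2.trans ?_
      have h6 : C0 ≤ max C0 0 := le_max_left _ _
      gcongr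
  have htot := Finset.card_le_mul_card_image_of_maps_to hmaps _ hfib
  rw [Finset.card_range] at htot
  have h1 : (T.card : ℝ) ≤ (⌊c * (σ + 1)⌋₊ : ℝ) * (⌊L⌋₊ + 1) := by exact_mod_cast htot
  have h2 : (⌊c * (σ + 1)⌋₊ : ℝ) ≤ c * (σ + 1) := Nat.floor_le (by positivity)
  have h3 : (⌊L⌋₊ : ℝ) ≤ L := Nat.floor_le hL0
  have h4 : c * (σ + 1) ≤ 2 * c * σ := by
    have : c * 1 ≤ c * σ := by gcongr
    linarith
  have h5 : 2 * c * σ ≤ ε / 2 * σ ^ 2 := by
    have h6 : 4 * c ≤ σ * ε := by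
      rw [div_le_iff₀ hε] at hσ8
      exact hσ8
    have h7 : 4 * c * σ ≤ σ * ε * σ := by gcongr
    linarith
  calc (T.card : ℝ) ≤ (⌊c * (σ + 1)⌋₊ : ℝ) * (⌊L⌋₊ + 1) := h1
    _ ≤ 2 * c * σ * (L + 1) := by
        apply mul_le_mul (h2.trans h4) (by linarith) (by positivity) (by positivity)
    _ = ε / 2 * σ ^ 2 + 2 * c * σ := by
        rw [hL]
        field_simp
        ring
    _ ≤ ε * σ ^ 2 := by linarith
    _ = ε * N := by rw [hσ2]

/-- a power bound implies the logarithmic one -/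
theorem log_of_poly (C : ℝ) (M : ℕ) {η : ℝ} (hη : 0 < η) : ∃ X0 : ℕ, ∀ x : ℕ, X0 < x →
    ∀ f : ℝ, 0 ≤ f → (x : ℝ) ≤ C * (1 + f) ^ M → Real.log x ^ 2 ≤ η * f := by
  set C' := max C 1 with hC'
  have hC'1 : 1 ≤ C' := le_max_right _ _
  set K := C' * (1 + 1 / η) ^ M with hK
  have hK0 : 0 < K := by positivity
  have hlit := (Real.isLittleO_pow_log_id_atTop (n := 2 * M)).def
    (by positivity : (0 : ℝ) < 1 / (2 * K))
  obtain ⟨X1, hX1⟩ := eventually_atTop.1 hlit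
  obtain ⟨X0, hX0⟩ := exists_nat_ge (max X1 3)
  refine ⟨X0, fun x hx f hf hxf => ?_⟩
  by_contra hcon
  push Not at hcon
  have hxX : max X1 3 ≤ (x : ℝ) := hX0.trans (by exact_mod_cast hx.le)
  have hx3 : (3 : ℝ) ≤ x := (le_max_right _ _).trans hxX
  have hxX1 : X1 ≤ (x : ℝ) := (le_max_left _ _).trans hxX
  have hlog1 : 1 ≤ Real.log x := by
    rw [Real.le_log_iff_exp_le (by linarith)]
    have := Real.exp_one_lt_d9
    linarith
  have h1 : 1 + f ≤ (1 + 1 / η) * Real.log x ^ 2 := by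
    have h2 : f ≤ 1 / η * Real.log x ^ 2 := by
      rw [one_div, inv_mul_eq_div, le_div_iff₀ hη]
      linarith
    have h3 : 1 ≤ Real.log x ^ 2 := one_le_pow₀ hlog1
    linarith
  have h2 : (x : ℝ) ≤ K * Real.log x ^ (2 * M) := by
    calc (x : ℝ) ≤ C * (1 + f) ^ M := hxf
      _ ≤ C' * (1 + f) ^ M := by
          have : 0 ≤ (1 + f) ^ M := by positivity
          have h2 : C ≤ C' := le_max_left _ _
          gcongr
      _ ≤ C' * ((1 + 1 / η) * Real.log x ^ 2) ^ M := by gcongr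
      _ = K * Real.log x ^ (2 * M) := by
          rw [mul_pow, ← pow_mul, hK]
          ring
  have h3 := hX1 x hxX1
  rw [Real.norm_eq_abs, Real.norm_eq_abs, id, abs_of_nonneg (by positivity),
    abs_of_nonneg (by linarith : (0 : ℝ) ≤ x)] at h3
  have h4 : K * Real.log x ^ (2 * M) ≤ K * (1 / (2 * K) * x) := by gcongr
  have h5 : K * (1 / (2 * K) * (x : ℝ)) = x / 2 := by field_simp
  rw [h5] at h4
  linarith

end PP72
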