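import Pool.Agent.PP72.Region

/-!
Local analysis near a direction of the sector.
-/

open Polynomial Finset Filter

namespace PP72

variable {α : ℝ} {d : ℕ} {h : ℕ → ℝ[X]}

/-- the values on lattice points -/
noncomputable def fv (d : ℕ) (h : ℕ → ℝ[X]) (P : ℕ × ℕ) : ℝ := ev d h P.1 P.2

/-- lattice points of the sector with slope close to `θ` -/
def Near (α θ ε : ℝ) : Set (ℕ × ℕ) := {P | P ∈ Sec α ∧ 0 < P.1 ∧ |(P.2 : ℝ) / P.1 - θ| < ε}

/-- the polynomials in `u = y - θ x` in the expansion in powers of `x` -/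
noncomputable def gT (d : ℕ) (h : ℕ → ℝ[X]) (θ : ℝ) (j : ℕ) : ℝ[X] :=
  ∑ i ∈ range (d + 1 - j), C ((taylor θ (h (i + j))).coeff i) * X ^ i

theorem gT_coeff (θ : ℝ) (j i : ℕ) :
    (gT d h θ j).coeff i = if i + j ≤ d then (taylor θ (h (i + j))).coeff i else 0 := by
  unfold gT
  rw [finsetSum_coeff]
  simp only [coeff_C_mul, coeff_X_pow]
  split_ifs with hj
  · rw [Finset.sum_eq_single i]
    · simp
    · intro b _ hb
      rw [if_neg (Ne.symm hb)]
      simp
    · intro hb
      exact absurd (mem_range.2 (by omega)) hb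
  · apply Finset.sum_eq_zero
    intro b hb
    rw [if_neg]
    · simp
    · intro hjb
      subst hjb
      have := mem_range.1 hb
      omega

theorem gT_natDegree_le (θ : ℝ) (j : ℕ) : (gT d h θ j).natDegree ≤ d - j := by
  rw [natDegree_le_iff_coeff_eq_zero]
  intro N hN
  rw [gT_coeff]
  split_ifs with h'
  · omega
  · rfl

theorem ev_taylor (hdeg : ∀ k, (h k).natDegree ≤ k) (θ : ℝ) {x : ℝ} (hx : x ≠ 0) (u : ℝ) :
    ev d h x (θ * x + u) = ∑ j ∈ range (d + 1), x ^ j * (gT d h θ j).eval u := by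
  rw [ev_eq hdeg hx]
  have h1 : ∀ k ∈ range (d + 1), x ^ k * (h k).eval ((θ * x + u) / x) =
      ∑ j ∈ range (k + 1), x ^ j * (taylor θ (h (k - j + j))).coeff (k - j) * u ^ (k - j) := by
    intro k _
    have e1 : (θ * x + u) / x = u / x + θ := by field_simp; ring
    rw [e1, ← taylor_eval,
      Polynomial.eval_eq_sum_range' (Nat.lt_succ_of_le ((natDegree_taylor _ _).trans_le (hdeg k))),
      Finset.mul_sum, ← Finset.sum_flip]
    apply Finset.sum_congr rfl
    intro j hj
    have hjk : j ≤ k := Nat.lt_succ_iff.1 (mem_range.1 hj)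
    have e2 : x ^ k = x ^ j * x ^ (k - j) := by
      rw [← pow_add]
      congr 1
      omega
    have e3 : k - j + j = k := by omega
    rw [e2, div_pow, e3]
    have hxi : x ^ (k - j) ≠ 0 := pow_ne_zero _ hx
    field_simp
  rw [Finset.sum_congr rfl h1,
    Finset.sum_range_diag_flip (d + 1)
      (fun j i => x ^ j * (taylor θ (h (i + j))).coeff i * u ^ i)]
  apply Finset.sum_congr rfl
  intro j _
  unfold gT
  rw [eval_finsetSum, Finset.mul_sum]
  apply Finset.sum_congr rfl
  intro i _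
  simp only [eval_mul, eval_C, eval_pow, eval_X]
  ring

/-- nonnegativity of the leading form on the sector -/
theorem Pk.lead_nonneg (H : Pk α d h) (hd : 1 ≤ d) : ∀ θ ∈ Set.Icc 0 α, 0 ≤ (h d).eval θ := by
  -- rational slopes first
  have hrat : ∀ r : ℚ, 0 ≤ r → (r : ℝ) ≤ α → 0 ≤ (h d).eval (r : ℝ) := by
    intro r hr0 hrα
    by_contra hneg
    push Not at hneg
    have h1 : ((r.num.toNat : ℕ) : ℤ) = r.num := Int.toNat_of_nonneg (Rat.num_nonneg.2 hr0)
    have h2 : (r : ℝ) = ((r.num.toNat : ℕ) : ℝ) / ((r.den : ℕ) : ℝ) := by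
      have h3 : ((r.num.toNat : ℕ) : ℝ) = (r.num : ℝ) := by exact_mod_cast h1
      rw [h3]
      exact_mod_cast (Rat.num_div_den r).symm
    set y := r.num.toNat with hy
    set x := r.den with hx
    have hden : (0 : ℝ) < (x : ℝ) := by exact_mod_cast r.den_pos
    have hP : (x, y) ∈ Sec α := by
      change ((y : ℕ) : ℝ) ≤ α * (x : ℝ)
      rw [h2, div_le_iff₀ hden] at hrα
      exact hrα
    set g : ℕ → ℝ[X] := fun k => C ((x : ℝ) ^ k * (h k).eval (r : ℝ)) with hg
    have h4 := lineP_lead (d := d) (g := g) (U := 0) d le_rfl (by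
      intro j h1 h2
      omega) (by
      simp only [hg, eval_C]
      have : (0 : ℝ) < (x : ℝ) ^ d := by positivity
      exact (mul_neg_of_pos_of_neg this hneg).ne)
    have h5 : Tendsto (fun t => (lineP d g 0).eval t) atTop atBot := by
      apply Polynomial.tendsto_atBot_of_leadingCoeff_nonpos
      · rw [← natDegree_pos_iff_degree_pos, h4.1]
        omega
      · rw [h4.2]
        simp only [hg, eval_C]
        have : (0 : ℝ) < (x : ℝ) ^ d := by positivity
        exact (mul_neg_of_pos_of_neg this hneg).le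
    have h6 := (h5.comp tendsto_natCast_atTop_atTop).eventually (eventually_lt_atBot 0)
    obtain ⟨K, hK⟩ := eventually_atTop.1 h6
    have h7 := hK (K + 1) (by omega)
    simp only [Function.comp_apply] at h7
    obtain ⟨v, hv⟩ := H.val _ (sec_smul hP (K + 1))
    have hn : (((K + 1 : ℕ)) : ℝ) ≠ 0 := by positivity
    simp only at hv
    rw [ev_eq H.deg (by push_cast at hn ⊢; exact mul_ne_zero hn hden.ne')] at hv
    have h8 : (lineP d g 0).eval (((K + 1 : ℕ)) : ℝ) = v := by
      rw [← hv, lineP_eval]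
      apply Finset.sum_congr rfl
      intro j _
      simp only [hg, eval_C]
      have : (((K + 1) * y : ℕ) : ℝ) / (((K + 1) * x : ℕ) : ℝ) = (r : ℝ) := by
        rw [h2]
        push_cast
        field_simp
      rw [this]
      push_cast
      rw [mul_pow]
      ring
    rw [h8] at h7
    have : (0 : ℝ) ≤ v := Nat.cast_nonneg _
    linarith
  intro θ hθ
  by_contra hneg
  push Not at hneg
  have hopen : IsOpen {t : ℝ | (h d).eval t < 0} :=
    isOpen_lt (h d).continuous continuous_const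
  have hcl : θ ∈ closure (Set.Ioo 0 α) := by
    rw [closure_Ioo H.pos.ne]
    exact hθ
  obtain ⟨t, ht1, ht2⟩ := mem_closure_iff.1 hcl _ hopen hneg
  obtain ⟨r, hr1, hr2⟩ := Rat.denseRange_cast.exists_mem_open (hopen.inter isOpen_Ioo)
    ⟨t, ht1, ht2⟩
  have h1 := hrat r (by exact_mod_cast hr2.1.le) hr2.2.le
  have h2 : (h d).eval (r : ℝ) < 0 := hr1
  linarith

/-- quadratic lower bound for polynomials -/
theorem poly_quad (L : ℝ[X]) (hL : 2 ≤ L.natDegree) (hlc : 0 < L.leadingCoeff) :
    ∃ δ : ℝ, 0 < δ ∧ ∃ K : ℝ, ∀ x : ℝ, 0 ≤ x → δ * x ^ 2 ≤ L.eval x + K := by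
  set δ := L.leadingCoeff / 2 with hδ
  have hδ0 : 0 < δ := by positivity
  set L' : ℝ[X] := L - C δ * X ^ 2 with hL'
  have hnd : L'.natDegree = L.natDegree := by
    apply natDegree_eq_of_le_of_coeff_ne_zero
    · refine (natDegree_sub_le _ _).trans (max_le le_rfl ?_)
      exact (natDegree_C_mul_X_pow_le _ _).trans hL
    · rw [hL', coeff_sub, coeff_C_mul, coeff_X_pow]
      change L.leadingCoeff - _ ≠ 0
      split_ifs with h'
      · rw [hδ]
        intro h0
        linarith
      · rw [mul_zero, sub_zero]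
        exact hlc.ne'
  have hlc' : 0 < L'.leadingCoeff := by
    rw [leadingCoeff, hnd, hL', coeff_sub, coeff_C_mul, coeff_X_pow]
    change 0 < L.leadingCoeff - _
    split_ifs with h'
    · rw [hδ]
      linarith
    · rw [mul_zero, sub_zero]
      exact hlc
  have h1 : Tendsto (fun x => L'.eval x) atTop atTop := by
    apply Polynomial.tendsto_atTop_of_leadingCoeff_nonneg _ _ hlc'.le
    rw [← natDegree_pos_iff_degree_pos, hnd]
    omega
  obtain ⟨x1, hx1⟩ := eventually_atTop.1 (tendsto_atTop.1 h1 0)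
  obtain ⟨b, hb⟩ := (isCompact_Icc (a := (0 : ℝ)) (b := x1)).bddBelow_image
    L'.continuous.continuousOn
  refine ⟨δ, hδ0, max 0 (-b), fun x hx => ?_⟩
  have key : -(max 0 (-b)) ≤ L'.eval x := by
    by_cases hxx : x ≤ x1
    · have : b ≤ L'.eval x := hb ⟨x, ⟨hx, hxx⟩, rfl⟩
      have := le_max_right 0 (-b)
      linarith
    · push Not at hxx
      have := hx1 x hxx.le
      have := le_max_left 0 (-b)
      linarith
  rw [hL', eval_sub, eval_mul, eval_C, eval_pow, eval_X] at key
  linarith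

/-- **Ray lemma**: on a ray of lattice points the polynomial has degree at least `2` and positive
leading coefficient. -/
theorem Pk.ray (H : Pk α d h) (x0 y0 q p : ℕ) (h0 : (x0, y0) ∈ Sec α) (hv : (q, p) ∈ Sec α)
    (hq : 0 < q) (L : ℝ[X])
    (hL : ∀ t : ℕ, ev d h ((x0 + t * q : ℕ) : ℝ) ((y0 + t * p : ℕ) : ℝ) =
      L.eval ((x0 + t * q : ℕ) : ℝ)) : 2 ≤ L.natDegree ∧ 0 < L.leadingCoeff := by
  set c : ℕ → ℕ × ℕ := fun t => (x0 + t * q, y0 + t * p) with hc
  have hcS : ∀ t, c t ∈ Sec α := fun t => sec_add h0 (sec_smul hv t)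
  have hc01 : c 0 ≠ c 1 := by
    intro h'
    simp only [hc, Prod.mk.injEq] at h'
    omega
  have hdeg2 : 2 ≤ L.natDegree := by
    by_contra hlt
    push Not at hlt
    have hlin : ∀ x, L.eval x = L.coeff 1 * x + L.coeff 0 := by
      intro x
      rw [Polynomial.eval_eq_sum_range' hlt]
      simp only [Finset.sum_range_succ, Finset.sum_range_zero, pow_zero, pow_one]
      ring
    -- a vector of the sector which is not parallel to `(q, p)`
    obtain ⟨e, heS, hne, hpar⟩ : ∃ e : ℕ × ℕ, e ∈ Sec α ∧ e ≠ 0 ∧ e.1 * p ≠ e.2 * q := by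
      by_cases hp : p = 0
      · obtain ⟨b, hb⟩ := exists_nat_ge (1 / α)
        refine ⟨(b, 1), ?_, ?_, ?_⟩
        · change ((1 : ℕ) : ℝ) ≤ α * (b : ℝ)
          rw [div_le_iff₀ H.pos] at hb
          push_cast
          linarith
        · intro h'
          have := congrArg Prod.snd h'
          simp at this
        · simp only [hp]
          omega
      · refine ⟨(1, 0), ?_, ?_, ?_⟩
        · change ((0 : ℕ) : ℝ) ≤ α * ((1 : ℕ) : ℝ)
          push_cast
          linarith [H.pos]
        · intro h'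
          have := congrArg Prod.fst h'
          simp at this
        · simp only
          omega
    apply H.no_progression c hcS hc01 (L.coeff 1 * q) (L.coeff 1 * x0 + L.coeff 0) (by
      intro m
      simp only [hc]
      rw [hL m, hlin]
      push_cast
      ring) e heS hne
    intro M hM K
    refine ⟨K + 1, by omega, ?_⟩
    rintro ⟨m, hm⟩
    simp only [hc, Prod.mk.injEq] at hm
    obtain ⟨h1, h2⟩ := hm
    have h3 : m * q = M * ((K + 1) * e.1) := by omega
    have h4 : m * p = M * ((K + 1) * e.2) := by omega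
    apply hpar
    have h5 : (M * (K + 1)) * (e.1 * p) = (M * (K + 1)) * (e.2 * q) := by
      calc (M * (K + 1)) * (e.1 * p) = (M * ((K + 1) * e.1)) * p := by ring
        _ = (m * q) * p := by rw [h3]
        _ = (m * p) * q := by ring
        _ = (M * ((K + 1) * e.2)) * q := by rw [h4]
        _ = (M * (K + 1)) * (e.2 * q) := by ring
    exact Nat.eq_of_mul_eq_mul_left (by positivity) h5
  refine ⟨hdeg2, ?_⟩
  by_contra hlc
  push Not at hlc
  have h1 : Tendsto (fun x => L.eval x) atTop atBot := by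
    apply Polynomial.tendsto_atBot_of_leadingCoeff_nonpos _ _ hlc
    rw [← natDegree_pos_iff_degree_pos]
    omega
  have h2 : Tendsto (fun t : ℕ => ((x0 + t * q : ℕ) : ℝ)) atTop atTop := by
    apply tendsto_natCast_atTop_atTop.comp
    apply tendsto_atTop_mono (fun t => _) tendsto_id
    intro t
    simp only [id]
    nlinarith
  obtain ⟨K, hK⟩ := eventually_atTop.1 ((h1.comp h2).eventually (eventually_lt_atBot 0))
  have h3 := hK K le_rfl
  simp only [Function.comp_apply] at h3
  obtain ⟨v, hv'⟩ := H.val _ (hcS K)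
  simp only [hc] at hv'
  rw [hL K] at hv'
  rw [hv'] at h3
  have : (0 : ℝ) ≤ v := Nat.cast_nonneg _
  linarith

/-- each line of rational slope is thin -/
theorem Pk.thin_line (H : Pk α d h) (q p : ℕ) (hv : (q, p) ∈ Sec α) (hq : 0 < q) (u0 : ℝ) :
    Thin (fv d h) {P | P ∈ Sec α ∧ 0 < P.1 ∧ (P.2 : ℝ) - (p / q : ℝ) * P.1 = u0} := by
  rcases Set.eq_empty_or_nonempty
    {P : ℕ × ℕ | P ∈ Sec α ∧ 0 < P.1 ∧ (P.2 : ℝ) - (p / q : ℝ) * P.1 = u0} with hA | ⟨P0, hP0⟩
  · rw [hA]
    exact thin_empty _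
  have hq' : (0 : ℝ) < q := by exact_mod_cast hq
  set θ : ℝ := p / q with hθ
  set L := lineP d (gT d h θ) u0 with hL
  have hLP : ∀ x y : ℕ, 0 < x → (y : ℝ) - θ * x = u0 → ev d h x y = L.eval (x : ℝ) := by
    intro x y hx hxy
    have hx' : (x : ℝ) ≠ 0 := by
      have : (0 : ℝ) < x := by exact_mod_cast hx
      exact this.ne'
    have e1 : (y : ℝ) = θ * x + u0 := by linarith
    rw [e1, ev_taylor H.deg θ hx', hL, lineP_eval]
  obtain ⟨h1, h2, h3⟩ := hP0
  have hray := H.ray P0.1 P0.2 q p h1 hv hq L (by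
    intro t
    apply hLP
    · omega
    · push_cast
      rw [hθ]
      rw [hθ] at h3
      have : (p / q : ℝ) * (t * q) = t * p := by field_simp
      linarith)
  obtain ⟨δ, hδ, K, hK⟩ := poly_quad L hray.1 hray.2
  apply thin_of_strip θ |u0| δ K hδ
  · rintro P ⟨_, _, hP3⟩
    rw [hP3]
  · rintro P ⟨_, hP2, hP3⟩
    have := hK (P.1 : ℝ) (Nat.cast_nonneg _)
    unfold fv
    rw [hLP P.1 P.2 hP2 hP3]
    exact this

end PP72
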