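import Pool.Agent.PP72.Irr
import Pool.Agent.PP72.Local

/-!
Lattice points on a conic with an asymptote of irrational slope.
-/

open Polynomial Finset Filter

namespace PP72

variable {α : ℝ} {d : ℕ} {h : ℕ → ℝ[X]}

/-- sublevel sets are finite -/
theorem Pk.finite_sublevel (H : Pk α d h) (K : ℝ) :
    {P : ℕ × ℕ | P ∈ Sec α ∧ fv d h P ≤ K}.Finite := by
  obtain ⟨M, hM⟩ := exists_nat_ge K
  have hv : ∀ P : ℕ × ℕ, ∃ n : ℕ, P ∈ Sec α → fv d h P = n := by
    intro P
    by_cases hP : P ∈ Sec α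
    · obtain ⟨n, hn⟩ := H.val P hP
      exact ⟨n, fun _ => hn⟩
    · exact ⟨0, fun h => absurd h hP⟩
  choose v hv using hv
  apply Set.Finite.of_finite_image (f := v)
  · apply (Set.finite_Iic M).subset
    rintro _ ⟨P, ⟨hP1, hP2⟩, rfl⟩
    have h1 := hv P hP1
    rw [h1] at hP2
    have : (v P : ℝ) ≤ M := hP2.trans hM
    exact_mod_cast this
  · rintro P ⟨hP1, _⟩ Q ⟨hQ1, _⟩ hPQ
    apply H.inj P hP1 Q hQ1
    have h1 := hv P hP1
    have h2 := hv Q hQ1
    unfold fv at h1 h2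
    rw [h1, h2, hPQ]

theorem finite_x {α : ℝ} (hα : 0 < α) (X1 : ℕ) : {P : ℕ × ℕ | P ∈ Sec α ∧ P.1 ≤ X1}.Finite := by
  obtain ⟨Y, hY⟩ := exists_nat_ge (α * X1)
  apply Set.Finite.subset (Set.finite_Iic (X1, Y))
  rintro P ⟨hP1, hP2⟩
  have hP1' : (P.2 : ℝ) ≤ α * P.1 := hP1
  refine Prod.mk_le_mk.2 ⟨hP2, ?_⟩
  have h1 : (P.1 : ℝ) ≤ X1 := by exact_mod_cast hP2
  have h2 : (P.2 : ℝ) ≤ Y := by
    have : α * (P.1 : ℝ) ≤ α * X1 := by gcongr
    linarith
  exact_mod_cast h2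

/-- behaviour at infinity of `P(T) / T ^ d` -/
theorem poly_tri (P : ℝ[X]) (d : ℕ) :
    (∃ δ : ℝ, 0 < δ ∧ ∃ T0 : ℝ, ∀ T : ℝ, T0 ≤ T → δ * T * T ^ d ≤ P.eval T) ∨
    (∃ T0 : ℝ, ∀ T : ℝ, T0 ≤ T → P.eval T < 0) ∨
    (∃ K : ℝ, ∀ T : ℝ, 1 ≤ T → P.eval T ≤ K * T ^ d) := by
  by_cases hd : P.natDegree ≤ d
  · right; right
    obtain ⟨K, _, hK⟩ := poly_bound P d hd
    exact ⟨K, fun T hT => (le_abs_self _).trans (hK T hT)⟩
  push Not at hd
  rcases lt_trichotomy P.leadingCoeff 0 with hlc | hlc | hlc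
  · right; left
    have h1 : Tendsto (fun x => P.eval x) atTop atBot := by
      apply Polynomial.tendsto_atBot_of_leadingCoeff_nonpos _ _ hlc.le
      rw [← natDegree_pos_iff_degree_pos]
      omega
    obtain ⟨T0, hT0⟩ := eventually_atTop.1 (h1.eventually (eventually_lt_atBot 0))
    exact ⟨T0, hT0⟩
  · rw [leadingCoeff_eq_zero] at hlc
    rw [hlc] at hd
    simp at hd
  · left
    set δ := P.leadingCoeff / 2 with hδ
    have hδ0 : 0 < δ := by positivity
    set P' : ℝ[X] := P - C δ * X ^ (d + 1) with hP'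
    have hnd : P'.natDegree = P.natDegree := by
      apply natDegree_eq_of_le_of_coeff_ne_zero
      · refine (natDegree_sub_le _ _).trans (max_le le_rfl ?_)
        exact (natDegree_C_mul_X_pow_le _ _).trans hd
      · rw [hP', coeff_sub, coeff_C_mul, coeff_X_pow]
        change P.leadingCoeff - _ ≠ 0
        split_ifs with h'
        · rw [hδ]
          intro h0
          linarith
        · rw [mul_zero, sub_zero]
          exact hlc.ne'
    have hlc' : 0 < P'.leadingCoeff := by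
      rw [leadingCoeff, hnd, hP', coeff_sub, coeff_C_mul, coeff_X_pow]
      change 0 < P.leadingCoeff - _
      split_ifs with h'
      · rw [hδ]
        linarith
      · rw [mul_zero, sub_zero]
        exact hlc
    have h1 : Tendsto (fun x => P'.eval x) atTop atTop := by
      apply Polynomial.tendsto_atTop_of_leadingCoeff_nonneg _ _ hlc'.le
      rw [← natDegree_pos_iff_degree_pos, hnd]
      omega
    obtain ⟨x1, hx1⟩ := eventually_atTop.1 (tendsto_atTop.1 h1 0)
    refine ⟨δ, hδ0, x1, fun T hT => ?_⟩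
    have h2 := hx1 T hT
    rw [hP', eval_sub, eval_mul, eval_C, eval_pow, eval_X] at h2
    have : δ * T * T ^ d = δ * T ^ (d + 1) := by ring
    linarith

/-- **Conics.**  The lattice points on a conic with an asymptote of irrational slope, close to the
asymptote, are thin. -/
theorem Pk.thin_conic (H : Pk α d h) {θ : ℝ} (hθ : Irrational θ) (D u0 c' v K0 : ℝ) (hD : D ≠ 0)
    (hK0 : 0 ≤ K0) :
    Thin (fv d h) {P | P ∈ Sec α ∧ 0 < P.1 ∧ (P.1 : ℝ) * |(P.2 : ℝ) - θ * P.1 - u0| ≤ K0 ∧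
      ((P.2 : ℝ) - θ * P.1 - u0) * (D * P.1 + ((P.2 : ℝ) - θ * P.1) + c') = v} := by
  -- the polynomial
  set Xq : ℝ[X] := X ^ 2 - C ((u0 + c') / D) * X - C (v / D ^ 2) with hXq
  set Yq : ℝ[X] := C θ * Xq + C u0 * X + C (v / D) with hYq
  set R : ℝ[X] := ∑ k ∈ range (d + 1), ∑ i ∈ range (k + 1),
    C ((h k).coeff i) * Xq ^ (k - i) * Yq ^ i * X ^ (d - k) with hR
  have hReval : ∀ x y T : ℝ, x * T = Xq.eval T → y * T = Yq.eval T →
      R.eval T = T ^ d * ev d h x y := by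
    intro x y T hx hy
    rw [hR, eval_finsetSum]
    unfold ev
    rw [Finset.mul_sum]
    apply Finset.sum_congr rfl
    intro k hk
    rw [eval_finsetSum, Finset.mul_sum]
    apply Finset.sum_congr rfl
    intro i hi
    simp only [eval_mul, eval_C, eval_pow, eval_X]
    rw [← hx, ← hy]
    have hkd : k ≤ d := Nat.lt_succ_iff.1 (mem_range.1 hk)
    have hik : i ≤ k := Nat.lt_succ_iff.1 (mem_range.1 hi)
    have e1 : T ^ d = T ^ (k - i) * T ^ i * T ^ (d - k) := by
      rw [← pow_add, ← pow_add]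
      congr 1
      omega
    rw [e1, mul_pow, mul_pow]
    ring
  -- the parameter
  set M : ℝ := (K0 + |u0| + |c'|) / |D| with hM
  have hDabs : 0 < |D| := abs_pos.2 hD
  have hM0 : 0 ≤ M := by positivity
  have hpar : ∀ P : ℕ × ℕ, P ∈ Sec α → 0 < P.1 →
      (P.1 : ℝ) * |(P.2 : ℝ) - θ * P.1 - u0| ≤ K0 →
      ((P.2 : ℝ) - θ * P.1 - u0) * (D * P.1 + ((P.2 : ℝ) - θ * P.1) + c') = v →
      ∃ T : ℝ, |T - P.1| ≤ M ∧ (0 < T → R.eval T = T ^ d * fv d h P) := by
    intro P _ hP2 hP3 hP4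
    set u := (P.2 : ℝ) - θ * P.1 with hu
    have hx1 : (1 : ℝ) ≤ P.1 := by exact_mod_cast hP2
    have hu1 : |u - u0| ≤ K0 := by
      have := abs_nonneg (u - u0)
      nlinarith
    refine ⟨P.1 + (u + c') / D, ?_, ?_⟩
    · rw [add_sub_cancel_left, abs_div, hM]
      gcongr
      have : u + c' = (u - u0) + u0 + c' := by ring
      rw [this]
      calc |(u - u0) + u0 + c'| ≤ |(u - u0) + u0| + |c'| := abs_add_le _ _
        _ ≤ |u - u0| + |u0| + |c'| := by
            have := abs_add_le (u - u0) u0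
            linarith
        _ ≤ K0 + |u0| + |c'| := by linarith
    · intro hT
      set T := (P.1 : ℝ) + (u + c') / D with hTdef
      have hDT : D * T = D * P.1 + u + c' := by
        rw [hTdef]
        field_simp
        ring
      have hs : (u - u0) * (D * T) = v := by
        rw [hDT]
        exact hP4
      apply hReval
      · rw [hXq]
        simp only [eval_sub, eval_mul, eval_C, eval_pow, eval_X]
        have e1 : (P.1 : ℝ) = T - (u + c') / D := by rw [hTdef]; ring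
        rw [e1, ← hs]
        field_simp
        ring
      · rw [hYq, hXq]
        simp only [eval_sub, eval_add, eval_mul, eval_C, eval_pow, eval_X]
        have e1 : (P.1 : ℝ) = T - (u + c') / D := by rw [hTdef]; ring
        have e2 : (P.2 : ℝ) = θ * P.1 + u := by rw [hu]; ring
        rw [e2, e1, ← hs]
        field_simp
        ring
  obtain ⟨Mn, hMn⟩ := exists_nat_ge (M + 1 + K0)
  -- reduction to large `x`
  have hred : ∀ X1 : ℕ, Thin (fv d h) {P | P ∈ Sec α ∧ X1 < P.1 ∧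
      (P.1 : ℝ) * |(P.2 : ℝ) - θ * P.1 - u0| ≤ K0 ∧
      ((P.2 : ℝ) - θ * P.1 - u0) * (D * P.1 + ((P.2 : ℝ) - θ * P.1) + c') = v} →
      Thin (fv d h) {P | P ∈ Sec α ∧ 0 < P.1 ∧ (P.1 : ℝ) * |(P.2 : ℝ) - θ * P.1 - u0| ≤ K0 ∧
      ((P.2 : ℝ) - θ * P.1 - u0) * (D * P.1 + ((P.2 : ℝ) - θ * P.1) + c') = v} := by
    intro X1 hthin
    refine Thin.mono (hthin.union (thin_finite (finite_x H.pos X1))) ?_
    rintro P ⟨h1, h2, h3, h4⟩
    by_cases hx : X1 < P.1
    · exact Or.inl ⟨h1, hx, h3, h4⟩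
    · exact Or.inr ⟨h1, not_lt.1 hx⟩
  rcases poly_tri R d with ⟨δ, hδ, T0, hT0⟩ | ⟨T0, hT0⟩ | ⟨K, hK⟩
  · -- growth
    obtain ⟨Tn, hTn⟩ := exists_nat_ge T0
    apply hred (Mn + Tn)
    apply thin_irr hθ u0 δ (δ * M + δ * K0 ^ 2) hδ
    · rintro P ⟨h1, h2, h3, h4⟩
      have hx : (Mn : ℝ) ≤ P.1 := by exact_mod_cast (by omega : Mn ≤ P.1)
      have hx1 : K0 ≤ P.1 := by linarith
      have hx0 : (0 : ℝ) < P.1 := by
        have : 0 < P.1 := by omega
        exact_mod_cast this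
      have : (P.1 : ℝ) * |(P.2 : ℝ) - θ * P.1 - u0| ≤ P.1 * 1 := by linarith
      exact le_of_mul_le_mul_left this hx0
    · rintro P ⟨h1, h2, h3, h4⟩
      obtain ⟨T, hT1, hT2⟩ := hpar P h1 (by omega) h3 h4
      have hx : ((Mn + Tn : ℕ) : ℝ) ≤ P.1 := by exact_mod_cast h2.le
      push_cast at hx
      have hT3 := (abs_le.1 hT1).1
      have hTn0 : (0 : ℝ) ≤ Tn := Nat.cast_nonneg _
      have hTT0 : T0 ≤ T := by linarith
      have hT1' : 0 < T := by linarith
      have h5 := hT0 T hTT0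
      rw [hT2 hT1'] at h5
      have hTd : 0 < T ^ d := by positivity
      have h6 : δ * T ≤ fv d h P := by
        have : T ^ d * (δ * T) ≤ T ^ d * fv d h P := by linarith
        exact le_of_mul_le_mul_left this hTd
      have h7 : δ * P.1 ≤ δ * (T + M) := by
        gcongr
        linarith
      have h8 : 0 ≤ δ * K0 ^ 2 := by positivity
      linarith
    · rintro P ⟨h1, h2, h3, h4⟩
      obtain ⟨n, hn⟩ := H.val P h1
      have h5 : (0 : ℝ) ≤ fv d h P := by
        unfold fv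
        rw [hn]
        exact Nat.cast_nonneg _
      have h6 : (P.1 : ℝ) ^ 2 * ((P.2 : ℝ) - θ * P.1 - u0) ^ 2 ≤ K0 ^ 2 := by
        rw [← mul_pow, ← sq_abs]
        rw [abs_mul, abs_of_nonneg (Nat.cast_nonneg P.1 : (0 : ℝ) ≤ (P.1 : ℝ))]
        gcongr
      have h7 : 0 ≤ δ * M := by positivity
      have h8 : δ * ((P.1 : ℝ) ^ 2 * ((P.2 : ℝ) - θ * P.1 - u0) ^ 2) ≤ δ * K0 ^ 2 := by gcongr
      linarith
  · -- negative values
    obtain ⟨Tn, hTn⟩ := exists_nat_ge T0
    apply hred (Mn + Tn)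
    apply (thin_empty _).mono
    rintro P ⟨h1, h2, h3, h4⟩
    obtain ⟨T, hT1, hT2⟩ := hpar P h1 (by omega) h3 h4
    have hx : ((Mn + Tn : ℕ) : ℝ) ≤ P.1 := by exact_mod_cast h2.le
    push_cast at hx
    have hT3 := (abs_le.1 hT1).1
    have hTn0 : (0 : ℝ) ≤ Tn := Nat.cast_nonneg _
    have hTT0 : T0 ≤ T := by linarith
    have hT1' : 0 < T := by linarith
    have h5 := hT0 T hTT0
    rw [hT2 hT1'] at h5
    have hTd : 0 < T ^ d := by positivity
    obtain ⟨n, hn⟩ := H.val P h1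
    have h6 : (0 : ℝ) ≤ fv d h P := by
      unfold fv
      rw [hn]
      exact Nat.cast_nonneg _
    have : 0 ≤ T ^ d * fv d h P := by positivity
    exact absurd h5 (not_lt.2 this)
  · -- bounded values
    apply hred Mn
    apply (thin_finite (H.finite_sublevel K)).mono
    rintro P ⟨h1, h2, h3, h4⟩
    refine ⟨h1, ?_⟩
    obtain ⟨T, hT1, hT2⟩ := hpar P h1 (by omega) h3 h4
    have hx : (Mn : ℝ) ≤ P.1 := by exact_mod_cast h2.le
    have hT3 := (abs_le.1 hT1).1
    have hT1' : 1 ≤ T := by linarith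
    have h5 := hK T hT1'
    rw [hT2 (by linarith)] at h5
    have hTd : 0 < T ^ d := by positivity
    have : T ^ d * fv d h P ≤ T ^ d * K := by linarith
    exact le_of_mul_le_mul_left this hTd

end PP72
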