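import Mathlib

/-!
Elementary lemmas: quadratic and linear functions of `w` when `w` keeps away from their zeros.
-/

namespace PP72

/-- a quadratic function of `w = x (y - θ x - s)` -/
theorem quad_far {θ s a c e C : ℝ} (ha : 0 < a) (hC : 0 ≤ C)
    (hS : ∀ t : ℝ, a * t ^ 2 + c * t + e = 0 → ∃ X0 : ℕ, ∀ x y : ℕ, X0 < x →
      1 ≤ (x : ℝ) * (x * (y - θ * x - s) - t) ^ 4) (M : ℝ) :
    ∃ X1 : ℕ, ∀ x y : ℕ, X1 < x → ∀ w : ℝ, w = x * (y - θ * x - s) →
      (x : ℝ) * (a * w ^ 2 + c * w + e) + C * (1 + w ^ 2) < 0 ∨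
        M ≤ x * (a * w ^ 2 + c * w + e) - C * (1 + w ^ 2) := by
  set W := max 1 (2 * (|c| + |e|) / a) with hW
  have hW1 : 1 ≤ W := le_max_left _ _
  have hW2 : |c| + |e| ≤ a / 2 * W := by
    have h1 : 2 * (|c| + |e|) / a ≤ W := le_max_right _ _
    rw [div_le_iff₀ ha] at h1
    linarith
  -- large values of `w`
  have hlarge : ∀ w : ℝ, W ≤ |w| → a / 4 * (1 + w ^ 2) ≤ a * w ^ 2 + c * w + e := by
    intro w hw
    have hw1 : 1 ≤ |w| := hW1.trans hw
    have h1 : |c| + |e| ≤ a / 2 * |w| := hW2.trans (by gcongr)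
    have h2 : -(|c| * |w|) ≤ c * w := by
      rw [← abs_mul]
      exact neg_abs_le _
    have h3 : -|e| ≤ e := neg_abs_le e
    have h4 : |e| ≤ |e| * |w| := le_mul_of_one_le_right (abs_nonneg _) hw1
    have h5 : (|c| + |e|) * |w| ≤ a / 2 * |w| * |w| :=
      mul_le_mul_of_nonneg_right h1 (abs_nonneg _)
    have h6 : |w| * |w| = w ^ 2 := by rw [← sq, sq_abs]
    have h7 : 1 ≤ w ^ 2 := by
      rw [← h6]
      calc (1 : ℝ) = 1 * 1 := by norm_num
        _ ≤ |w| * |w| := by gcongr
    have h8 : a / 4 * 1 ≤ a / 4 * w ^ 2 := by gcongr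
    have h9 : a / 2 * |w| * |w| = a / 2 * w ^ 2 := by rw [mul_assoc, h6]
    linarith
  set C' := C * (1 + W ^ 2) with hC'
  have hC'0 : 0 ≤ C' := by positivity
  obtain ⟨X2, hX2⟩ := exists_nat_ge ((|M| + C) * 4 / a)
  have hpart1 : ∀ x : ℕ, X2 < x → ∀ w : ℝ, W ≤ |w| →
      M ≤ x * (a * w ^ 2 + c * w + e) - C * (1 + w ^ 2) := by
    intro x hx w hw
    have h1 := hlarge w hw
    have hx2 : (X2 : ℝ) ≤ x := by exact_mod_cast hx.le
    have h2 : |M| + C ≤ x * (a / 4) := by
      rw [div_le_iff₀ ha] at hX2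
      have h3 := mul_le_mul_of_nonneg_right hx2 ha.le
      linarith
    have hxn : (0 : ℝ) ≤ x := Nat.cast_nonneg _
    have h3 : (x : ℝ) * (a / 4 * (1 + w ^ 2)) ≤ x * (a * w ^ 2 + c * w + e) := by gcongr
    have h4 : (|M| + C) * (1 + w ^ 2) ≤ x * (a / 4) * (1 + w ^ 2) := by gcongr
    have h5 : |M| ≤ |M| * (1 + w ^ 2) := by
      have := mul_nonneg (abs_nonneg M) (sq_nonneg w)
      linarith
    have h6 := le_abs_self M
    linarith
  have hsmallC : ∀ w : ℝ, |w| < W → C * (1 + w ^ 2) ≤ C' := by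
    intro w hw
    rw [hC', ← sq_abs w]
    gcongr
  rcases lt_or_ge (c ^ 2 - 4 * a * e) 0 with hdisc | hdisc
  · -- no real zero
    set m0 := (4 * a * e - c ^ 2) / (4 * a) with hm0
    have hm00 : 0 < m0 := by
      apply div_pos _ (by positivity)
      linarith
    obtain ⟨X3, hX3⟩ := exists_nat_ge ((|M| + C') / m0)
    refine ⟨max X2 X3, fun x y hx w _ => ?_⟩
    have hm1 := le_max_left X2 X3
    have hm2 := le_max_right X2 X3
    right
    rcases le_or_gt W |w| with hw | hw
    · exact hpart1 x (by omega) w hw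
    · have h1 : m0 ≤ a * w ^ 2 + c * w + e := by
        have e1 : a * w ^ 2 + c * w + e = a * (w + c / (2 * a)) ^ 2 + m0 := by
          rw [hm0]
          field_simp
          ring
        rw [e1]
        have : 0 ≤ a * (w + c / (2 * a)) ^ 2 := by positivity
        linarith
      have hx3 : (X3 : ℝ) ≤ x := by
        have : X3 ≤ x := by omega
        exact_mod_cast this
      have h2 : |M| + C' ≤ x * m0 := by
        rw [div_le_iff₀ hm00] at hX3
        have h3 := mul_le_mul_of_nonneg_right hx3 hm00.le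
        linarith
      have hxn : (0 : ℝ) ≤ x := Nat.cast_nonneg _
      have h3 : (x : ℝ) * m0 ≤ x * (a * w ^ 2 + c * w + e) := by gcongr
      have h4 := hsmallC w hw
      have h6 := le_abs_self M
      linarith
  · -- two real zeros
    set r := √(c ^ 2 - 4 * a * e) with hr
    have hrr : r ^ 2 = c ^ 2 - 4 * a * e := Real.sq_sqrt hdisc
    set t1 := (-c + r) / (2 * a) with ht1
    set t2 := (-c - r) / (2 * a) with ht2
    have hfac : ∀ w : ℝ, a * w ^ 2 + c * w + e = a * ((w - t1) * (w - t2)) := by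
      intro w
      have e1 : a * ((w - t1) * (w - t2)) = a * w ^ 2 + c * w + (c ^ 2 - r ^ 2) / (4 * a) := by
        rw [ht1, ht2]
        field_simp
        ring
      rw [e1, hrr]
      field_simp
      ring
    obtain ⟨X3, hX3⟩ := hS t1 (by rw [hfac]; ring)
    obtain ⟨X4, hX4⟩ := hS t2 (by rw [hfac]; ring)
    obtain ⟨X5, hX5⟩ := exists_nat_ge (((|M| + C' + 1) / a) ^ 2)
    refine ⟨max (max X2 X3) (max X4 X5), fun x y hx w hw => ?_⟩
    have hm1 := le_max_left (max X2 X3) (max X4 X5)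
    have hm2 := le_max_right (max X2 X3) (max X4 X5)
    have hm3 := le_max_left X2 X3
    have hm4 := le_max_right X2 X3
    have hm5 := le_max_left X4 X5
    have hm6 := le_max_right X4 X5
    rcases le_or_gt W |w| with hwW | hwW
    · exact Or.inr (hpart1 x (by omega) w hwW)
    have g1 := hX3 x y (by omega)
    have g2 := hX4 x y (by omega)
    rw [← hw] at g1 g2
    have hxp : 0 < x := by omega
    have hxpos : (0 : ℝ) < x := by exact_mod_cast hxp
    have hx5 : (X5 : ℝ) < x := by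
      have : X5 < x := by omega
      exact_mod_cast this
    set q := a * w ^ 2 + c * w + e with hq
    -- `a² ≤ q² x`
    have h1 : 1 ≤ ((w - t1) * (w - t2)) ^ 2 * x := by
      have h2 : 1 ≤ (((w - t1) * (w - t2)) ^ 2 * x) ^ 2 := by
        calc (1 : ℝ) = 1 * 1 := by norm_num
          _ ≤ (x * (w - t1) ^ 4) * (x * (w - t2) ^ 4) := by gcongr
          _ = (((w - t1) * (w - t2)) ^ 2 * x) ^ 2 := by ring
      by_contra hcon
      push Not at hcon
      have h3 : 0 ≤ ((w - t1) * (w - t2)) ^ 2 * x := by positivity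
      have h4 : (((w - t1) * (w - t2)) ^ 2 * x) ^ 2 < 1 ^ 2 := by gcongr
      linarith
    have h2 : a ^ 2 ≤ q ^ 2 * x := by
      rw [hq, hfac]
      calc a ^ 2 = a ^ 2 * 1 := (mul_one _).symm
        _ ≤ a ^ 2 * (((w - t1) * (w - t2)) ^ 2 * x) := by gcongr
        _ = (a * ((w - t1) * (w - t2))) ^ 2 * x := by ring
    -- `|M| + C' + 1 < x |q|`
    have h3 : |M| + C' + 1 < x * |q| := by
      have h4 : (|M| + C' + 1) ^ 2 < (x * |q|) ^ 2 := by
        have h5 : (|M| + C' + 1) ^ 2 < a ^ 2 * x := by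
          have h6 : ((|M| + C' + 1) / a) ^ 2 < x := lt_of_le_of_lt hX5 hx5
          rw [div_pow, div_lt_iff₀ (by positivity)] at h6
          linarith
        calc (|M| + C' + 1) ^ 2 < a ^ 2 * x := h5
          _ ≤ q ^ 2 * x * x := by gcongr
          _ = (x * |q|) ^ 2 := by rw [mul_pow, sq_abs]; ring
      exact lt_of_pow_lt_pow_left₀ 2 (by positivity) h4
    have h4 := hsmallC w hwW
    have hM0 := abs_nonneg M
    rcases le_or_gt 0 q with hq0 | hq0
    · right
      rw [abs_of_nonneg hq0] at h3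
      have := le_abs_self M
      linarith
    · left
      rw [abs_of_neg hq0] at h3
      linarith

/-- a linear function of `w = x (y - θ x)`, `w ≤ 0` -/
theorem lin_far {θ b e C : ℝ} (hb : b < 0) (hC : 0 ≤ C)
    (hS : ∀ t : ℝ, b * t + e = 0 → ∃ X0 : ℕ, ∀ x y : ℕ, X0 < x →
      1 ≤ (x : ℝ) * (x * (y - θ * x) - t) ^ 4) (M : ℝ) :
    ∃ X1 : ℕ, ∀ x y : ℕ, X1 < x → ∀ w : ℝ, w = x * (y - θ * x) → w ≤ 0 →
      (∀ D : ℝ, 0 ≤ D → D ≤ C * (1 + w ^ 2) → (x : ℝ) * (b * w + e) + D < 0) ∨
        M ≤ x * (b * w + e) - C * (1 - w) := by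
  set t := -e / b with ht
  have htz : b * t + e = 0 := by
    rw [ht, mul_div_assoc', mul_comm b, mul_div_assoc, div_self hb.ne]
    ring
  have hbw : ∀ w : ℝ, b * w + e = b * (w - t) := by
    intro w
    have : e = -(b * t) := by linarith
    rw [this]
    ring
  obtain ⟨X2, hX2⟩ := hS t htz
  set W := 2 * |t| + 2 with hW
  have ht0 := abs_nonneg t
  set C' := C * (1 + W ^ 2) with hC'
  have hC'0 : 0 ≤ C' := by positivity
  have hb' : 0 < -b := by linarith
  obtain ⟨X3, hX3⟩ := exists_nat_ge ((|M| + C) * 4 / -b)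
  obtain ⟨X4, hX4⟩ := exists_nat_ge ((|M| + C' + 1) ^ 4 / b ^ 4 + 1)
  refine ⟨max X2 (max X3 X4), fun x y hx w hw hw0 => ?_⟩
  have hm1 := le_max_left X2 (max X3 X4)
  have hm2 := le_max_right X2 (max X3 X4)
  have hm3 := le_max_left X3 X4
  have hm4 := le_max_right X3 X4
  have hxp : 0 < x := by omega
  have hxpos : (0 : ℝ) < x := by exact_mod_cast hxp
  have hx1' : (1 : ℝ) ≤ x := by exact_mod_cast hxp
  rcases le_or_gt w (-W) with hwW | hwW
  · -- `w` very negative
    right
    have hx3 : (X3 : ℝ) ≤ x := by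
      have : X3 ≤ x := by omega
      exact_mod_cast this
    have h2 : |M| + C ≤ x * (-b / 4) := by
      rw [div_le_iff₀ hb'] at hX3
      have h3 := mul_le_mul_of_nonneg_right hx3 hb'.le
      linarith
    have h3 : -b / 4 * (1 - w) ≤ b * w + e := by
      rw [hbw]
      have h4 : b * (w - t) = -b * (t - w) := by ring
      have h5 : (1 - w) / 4 ≤ t - w := by
        have := neg_abs_le t
        linarith
      rw [h4]
      calc -b / 4 * (1 - w) = -b * ((1 - w) / 4) := by ring
        _ ≤ -b * (t - w) := by gcongr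
    have h1w : 1 ≤ 1 - w := by linarith
    have h4 : (x : ℝ) * (-b / 4 * (1 - w)) ≤ x * (b * w + e) := by gcongr
    have h5 : (|M| + C) * (1 - w) ≤ x * (-b / 4) * (1 - w) := by gcongr
    have h6 : |M| ≤ |M| * (1 - w) := le_mul_of_one_le_right (abs_nonneg _) h1w
    have h7 := le_abs_self M
    linarith
  · -- bounded `w`
    have g1 := hX2 x y (by omega)
    rw [← hw] at g1
    have hwsq : w ^ 2 ≤ W ^ 2 := by
      rw [← sq_abs w, abs_of_nonpos hw0]
      have : -w ≤ W := by linarith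
      have h0 : 0 ≤ -w := by linarith
      gcongr
    set q := b * w + e with hq
    have h2 : b ^ 4 ≤ q ^ 4 * x := by
      rw [hq, hbw]
      have hb4 : 0 ≤ b ^ 4 := by positivity
      calc b ^ 4 = b ^ 4 * 1 := (mul_one _).symm
        _ ≤ b ^ 4 * (x * (w - t) ^ 4) := by gcongr
        _ = (b * (w - t)) ^ 4 * x := by ring
    have hb40 : 0 < b ^ 4 := by
      have := hb.ne
      positivity
    have h3 : |M| + C' + 1 < x * |q| := by
      have h4 : (|M| + C' + 1) ^ 4 < (x * |q|) ^ 4 := by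
        have h5 : (|M| + C' + 1) ^ 4 < b ^ 4 * x := by
          have h6 : (|M| + C' + 1) ^ 4 / b ^ 4 < x := by
            have : (X4 : ℝ) ≤ x := by
              have : X4 ≤ x := by omega
              exact_mod_cast this
            linarith
          rw [div_lt_iff₀ hb40] at h6
          linarith
        have h6 : (x : ℝ) ^ 1 ≤ (x : ℝ) ^ 3 := pow_le_pow_right₀ hx1' (by norm_num)
        rw [pow_one] at h6
        calc (|M| + C' + 1) ^ 4 < b ^ 4 * x := h5
          _ ≤ q ^ 4 * x * x ^ 3 := by gcongr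
          _ = (x * |q|) ^ 4 := by
              rw [mul_pow, pow_abs, abs_of_nonneg (by positivity : 0 ≤ q ^ 4)]
              ring
      exact lt_of_pow_lt_pow_left₀ 4 (by positivity) h4
    have hM0 := abs_nonneg M
    rcases le_or_gt 0 q with hq0 | hq0
    · right
      rw [abs_of_nonneg hq0] at h3
      have h5 := le_abs_self M
      have h6 : C * (1 - w) ≤ C' := by
        rw [hC']
        apply mul_le_mul_of_nonneg_left _ hC
        have h7 : -w ≤ w ^ 2 + 1 := by nlinarith [sq_nonneg (w + 1), sq_nonneg (w - 1)]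
        have h8 : -w ≤ W := by linarith
        have h9 : W ≤ W ^ 2 := by nlinarith
        linarith
      linarith
    · left
      intro D hD0 hD
      rw [abs_of_neg hq0] at h3
      have h6 : C * (1 + w ^ 2) ≤ C' := by
        rw [hC']
        gcongr
      linarith

end PP72
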