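import Pool.Agent.PP72.Disc4
import Pool.Agent.PP72.Dbl1

/-!
Local analysis near a line `y = θ x + s`.
-/

open Polynomial Finset Filter

namespace PP72

variable {α : ℝ} {d : ℕ} {h : ℕ → ℝ[X]}

/-- `f` grows faster than linearly on the points of the sector with `y - θ x ∈ S` -/
def Big (f : ℕ × ℕ → ℝ) (α θ : ℝ) (S : Set ℝ) : Prop :=
  ∀ c : ℝ, 0 < c → ∃ X0 : ℕ, ∀ P ∈ Sec α, X0 < P.1 → (P.2 : ℝ) - θ * P.1 ∈ S → c * P.1 ≤ f P

/-- second order expansion of a polynomial -/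
theorem poly_lip2 (g : ℝ[X]) (u0 R : ℝ) : ∃ L : ℝ, 0 ≤ L ∧ ∀ u : ℝ, |u| ≤ R →
    |g.eval u - g.eval u0 - (derivative g).eval u0 * (u - u0)| ≤ L * (u - u0) ^ 2 := by
  obtain ⟨q, hq⟩ : X - C u0 ∣ g - C (g.eval u0) := by
    rw [dvd_iff_isRoot]
    simp [IsRoot]
  have hg : g = (X - C u0) * q + C (g.eval u0) := by rw [← hq]; ring
  have hd : (derivative g).eval u0 = q.eval u0 := by
    rw [hg, derivative_add, derivative_mul]
    simp
  obtain ⟨L, hL0, hL⟩ := poly_lip q u0 R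
  refine ⟨L, hL0, fun u hu => ?_⟩
  have h1 : g.eval u - g.eval u0 = (u - u0) * q.eval u := by
    have := congrArg (eval u) hq
    simpa using this
  rw [h1, hd]
  have e1 : (u - u0) * q.eval u - q.eval u0 * (u - u0) = (u - u0) * (q.eval u - q.eval u0) := by
    ring
  rw [e1, abs_mul]
  calc |u - u0| * |q.eval u - q.eval u0| ≤ |u - u0| * (L * |u - u0|) := by
        have := hL u hu
        gcongr
    _ = L * |u - u0| ^ 2 := by ring
    _ = L * (u - u0) ^ 2 := by rw [sq_abs]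

/-- the three top terms of the expansion -/
theorem Pk.expand_three (n : ℕ) (H : Pk α (n + 5) h) (θ : ℝ)
    (hv : ∀ j, n + 3 < j → j ≤ n + 5 → ∀ u, (gT (n + 5) h θ j).eval u = 0) (U : ℝ) :
    ∃ C : ℝ, 0 ≤ C ∧ ∀ P : ℕ × ℕ, 1 ≤ (P.1 : ℝ) → |(P.2 : ℝ) - θ * P.1| ≤ U →
      |fv (n + 5) h P - ((P.1 : ℝ) ^ (n + 3) *
        (gT (n + 5) h θ (n + 3)).eval ((P.2 : ℝ) - θ * P.1) +
        (P.1 : ℝ) ^ (n + 2) * (gT (n + 5) h θ (n + 2)).eval ((P.2 : ℝ) - θ * P.1) +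
        (P.1 : ℝ) ^ (n + 1) * (gT (n + 5) h θ (n + 1)).eval ((P.2 : ℝ) - θ * P.1))| ≤
        C * (P.1 : ℝ) ^ n := by
  obtain ⟨C, hC0, hC⟩ := low_bdd n (gT (n + 5) h θ) U
  refine ⟨C, hC0, fun P hP hu => ?_⟩
  have h1 := hC P.1 ((P.2 : ℝ) - θ * P.1) hP hu
  rw [fv_taylor H.deg θ, Finset.sum_range_succ, Finset.sum_range_succ, Finset.sum_range_succ,
    Finset.sum_range_succ, Finset.sum_range_succ, hv (n + 5) (by omega) (by omega),
    hv (n + 4) (by omega) (by omega)]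
  convert h1 using 2
  ring

/-- near a double zero of the top polynomial -/
theorem Pk.big_double (n : ℕ) (hn : 1 ≤ n) (H : Pk α (n + 5) h) {θ s a : ℝ} (ha : 0 < a)
    (hv : ∀ j, n + 3 < j → j ≤ n + 5 → ∀ u, (gT (n + 5) h θ j).eval u = 0)
    (hA : ∀ u, (gT (n + 5) h θ (n + 3)).eval u = a * (u - s) ^ 2)
    (hnear : ∀ X0 : ℕ, ∃ P ∈ Sec α, X0 < P.1 ∧ (P.1 : ℝ) * |(P.2 : ℝ) - θ * P.1 - s| ≤ 11)
    (hS : ∀ t : ℝ, a * t ^ 2 + (derivative (gT (n + 5) h θ (n + 2))).eval s * t +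
      (gT (n + 5) h θ (n + 1)).eval s = 0 → ∃ X0 : ℕ, ∀ x y : ℕ, X0 < x →
        1 ≤ (x : ℝ) * (x * (y - θ * x - s) - t) ^ 4) :
    ∃ ρ : ℝ, 0 < ρ ∧ Big (fv (n + 5) h) α θ (Set.Ioo (s - ρ) (s + ρ)) := by
  obtain ⟨C, hC0, hC⟩ := H.expand_three n θ hv (|s| + 1)
  set B := gT (n + 5) h θ (n + 2) with hB
  set E := gT (n + 5) h θ (n + 1) with hE
  obtain ⟨L1, hL10, hL1⟩ := poly_lip B s (|s| + 1)
  obtain ⟨L2, hL20, hL2⟩ := poly_lip2 B s (|s| + 1)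
  obtain ⟨L3, hL30, hL3⟩ := poly_lip E s (|s| + 1)
  set c0 := B.eval s with hc0
  set c1 := (derivative B).eval s with hc1
  set e2 := E.eval s with he2
  have hu_le : ∀ u : ℝ, |u - s| ≤ 1 → |u| ≤ |s| + 1 := by
    intro u hu
    calc |u| = |(u - s) + s| := by ring_nf
      _ ≤ |u - s| + |s| := abs_add_le _ _
      _ ≤ |s| + 1 := by linarith
  have he2n := abs_nonneg e2
  have he2l := neg_abs_le e2
  have he2u := le_abs_self e2
  rcases lt_trichotomy c0 0 with hneg | hzero | hpos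
  · -- impossible
    exfalso
    set D := 121 * a + 11 * L1 + |e2| + L3 + C with hD
    have hD0 : 0 ≤ D := by positivity
    obtain ⟨X1, hX1⟩ := exists_nat_ge (D / -c0 + 11)
    obtain ⟨P, hP1, hP2, hP3⟩ := hnear X1
    have hxX : (X1 : ℝ) < P.1 := by exact_mod_cast hP2
    have hc0' : 0 < -c0 := by linarith
    have hdiv : 0 ≤ D / -c0 := by positivity
    have hx1 : (1 : ℝ) ≤ P.1 := by linarith
    have hxpos : (0 : ℝ) < P.1 := by linarith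
    have hxD : D < P.1 * -c0 := by
      have h3 : D / -c0 < P.1 := by linarith
      rw [div_lt_iff₀ hc0'] at h3
      exact h3
    set u := (P.2 : ℝ) - θ * P.1 with hu
    have hv1 : |u - s| ≤ 1 := by
      by_contra hcon
      push Not at hcon
      have h4 : (P.1 : ℝ) * 1 < P.1 * |u - s| := mul_lt_mul_of_pos_left hcon hxpos
      linarith
    have hCP := (abs_le.1 (hC P hx1 (hu_le u hv1))).2
    rw [← hu, hA] at hCP
    have g1 := (abs_le.1 (hL1 u (hu_le u hv1))).2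
    have g3 := (abs_le.1 (hL3 u (hu_le u hv1))).2
    have hF := H.fv_nonneg hP1
    have hxn : 0 < (P.1 : ℝ) ^ n := by positivity
    have hxn1 : 0 < (P.1 : ℝ) ^ (n + 1) := by positivity
    have k1 : (P.1 : ℝ) ^ (n + 3) * (a * (u - s) ^ 2) ≤ (P.1 : ℝ) ^ (n + 1) * (121 * a) := by
      have h4 : ((P.1 : ℝ) * |u - s|) ^ 2 ≤ 11 ^ 2 := by gcongr
      calc (P.1 : ℝ) ^ (n + 3) * (a * (u - s) ^ 2)
          = (P.1 : ℝ) ^ (n + 1) * (a * ((P.1 : ℝ) * |u - s|) ^ 2) := by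
            rw [mul_pow, sq_abs]
            ring
        _ ≤ (P.1 : ℝ) ^ (n + 1) * (a * 11 ^ 2) := by gcongr
        _ = (P.1 : ℝ) ^ (n + 1) * (121 * a) := by ring
    have k2 : (P.1 : ℝ) ^ (n + 2) * B.eval u ≤
        (P.1 : ℝ) ^ (n + 1) * (P.1 * c0 + 11 * L1) := by
      have h4 : P.1 * B.eval u ≤ P.1 * c0 + 11 * L1 := by
        have h5 : (P.1 : ℝ) * B.eval u ≤ P.1 * (c0 + L1 * |u - s|) := by
          gcongr
          linarith
        have h6 : L1 * (P.1 * |u - s|) ≤ L1 * 11 := by gcongr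
        linarith
      calc (P.1 : ℝ) ^ (n + 2) * B.eval u = (P.1 : ℝ) ^ (n + 1) * (P.1 * B.eval u) := by ring
        _ ≤ (P.1 : ℝ) ^ (n + 1) * (P.1 * c0 + 11 * L1) := by gcongr
    have k3 : (P.1 : ℝ) ^ (n + 1) * E.eval u ≤ (P.1 : ℝ) ^ (n + 1) * (|e2| + L3) := by
      gcongr
      have h4 : L3 * |u - s| ≤ L3 := mul_le_of_le_one_right hL30 hv1
      linarith
    have k4 : C * (P.1 : ℝ) ^ n ≤ (P.1 : ℝ) ^ (n + 1) * C := by
      calc C * (P.1 : ℝ) ^ n = (P.1 : ℝ) ^ n * C * 1 := by ring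
        _ ≤ (P.1 : ℝ) ^ n * C * P.1 := by gcongr
        _ = (P.1 : ℝ) ^ (n + 1) * C := by ring
    have k5 : (P.1 : ℝ) ^ (n + 1) * (D + P.1 * c0) < 0 := by
      apply mul_neg_of_pos_of_neg hxn1
      linarith
    have k6 : (P.1 : ℝ) ^ (n + 1) * (D + P.1 * c0) = (P.1 : ℝ) ^ (n + 1) * (121 * a) +
        (P.1 : ℝ) ^ (n + 1) * (P.1 * c0 + 11 * L1) + (P.1 : ℝ) ^ (n + 1) * (|e2| + L3) +
        (P.1 : ℝ) ^ (n + 1) * C := by
      rw [hD]
      ring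
    linarith
  · -- the quadratic function of `w`
    refine ⟨1, one_pos, fun c hc => ?_⟩
    obtain ⟨X1, hX1⟩ := quad_far (θ := θ) (s := s) ha
      (by positivity : 0 ≤ C + L2 + L3) hS c
    refine ⟨X1, fun P hP hx hu => ?_⟩
    have hxp : 0 < P.1 := by omega
    have hxpos : (0 : ℝ) < P.1 := by exact_mod_cast hxp
    have hx1 : (1 : ℝ) ≤ P.1 := by exact_mod_cast hxp
    set u := (P.2 : ℝ) - θ * P.1 with hudef
    have hv1 : |u - s| ≤ 1 := by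
      rw [abs_le]
      constructor <;> linarith [hu.1, hu.2]
    have hCP := abs_le.1 (hC P hx1 (hu_le u hv1))
    rw [← hudef, hA] at hCP
    have g2 := hL2 u (hu_le u hv1)
    have g3 := hL3 u (hu_le u hv1)
    rw [hzero, _root_.sub_zero] at g2
    have g2' := abs_le.1 g2
    have g3' := abs_le.1 g3
    have hF := H.fv_nonneg hP
    set w := (P.1 : ℝ) * (P.2 - θ * P.1 - s) with hw
    have hwv : w = P.1 * (u - s) := by rw [hw, hudef]
    have hxn : 0 < (P.1 : ℝ) ^ n := by positivity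
    have m1 : (P.1 : ℝ) ^ (n + 3) * (a * (u - s) ^ 2) = (P.1 : ℝ) ^ n * (P.1 * (a * w ^ 2)) := by
      rw [hwv]
      ring
    have m2 : (P.1 : ℝ) ^ (n + 2) * (c1 * (u - s)) = (P.1 : ℝ) ^ n * (P.1 * (c1 * w)) := by
      rw [hwv]
      ring
    have m3 : (P.1 : ℝ) ^ (n + 2) * (L2 * (u - s) ^ 2) = (P.1 : ℝ) ^ n * (L2 * w ^ 2) := by
      rw [hwv]
      ring
    have m4 : (P.1 : ℝ) ^ (n + 1) * (L3 * |u - s|) = (P.1 : ℝ) ^ n * (L3 * |w|) := by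
      rw [hwv, abs_mul, abs_of_pos hxpos]
      ring
    have m5 : |w| ≤ 1 + w ^ 2 := by
      rw [← sq_abs w]
      nlinarith [sq_nonneg (|w| - 1), abs_nonneg w]
    have m6 : L3 * |w| ≤ L3 * (1 + w ^ 2) := by gcongr
    have m7 : (P.1 : ℝ) ^ n * (L3 * |w|) ≤ (P.1 : ℝ) ^ n * (L3 * (1 + w ^ 2)) := by gcongr
    have m8 : (P.1 : ℝ) ^ n * (L2 * w ^ 2) ≤ (P.1 : ℝ) ^ n * (L2 * (1 + w ^ 2)) := by
      gcongr
      linarith
    have m9 : C * (P.1 : ℝ) ^ n ≤ (P.1 : ℝ) ^ n * (C * (1 + w ^ 2)) := by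
      have : C * 1 ≤ C * (1 + w ^ 2) := by
        gcongr
        have := sq_nonneg w
        linarith
      calc C * (P.1 : ℝ) ^ n = (P.1 : ℝ) ^ n * (C * 1) := by ring
        _ ≤ (P.1 : ℝ) ^ n * (C * (1 + w ^ 2)) := by gcongr
    -- the terms with `B` and `E`
    have b1 : (P.1 : ℝ) ^ (n + 2) * B.eval u ≤ (P.1 : ℝ) ^ (n + 2) * (c1 * (u - s)) +
        (P.1 : ℝ) ^ (n + 2) * (L2 * (u - s) ^ 2) := by
      rw [← mul_add]
      gcongr
      linarith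
    have b2 : (P.1 : ℝ) ^ (n + 2) * (c1 * (u - s)) -
        (P.1 : ℝ) ^ (n + 2) * (L2 * (u - s) ^ 2) ≤ (P.1 : ℝ) ^ (n + 2) * B.eval u := by
      rw [← mul_sub]
      gcongr
      linarith
    have b3 : (P.1 : ℝ) ^ (n + 1) * E.eval u ≤ (P.1 : ℝ) ^ (n + 1) * e2 +
        (P.1 : ℝ) ^ (n + 1) * (L3 * |u - s|) := by
      rw [← mul_add]
      gcongr
      linarith
    have b4 : (P.1 : ℝ) ^ (n + 1) * e2 - (P.1 : ℝ) ^ (n + 1) * (L3 * |u - s|) ≤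
        (P.1 : ℝ) ^ (n + 1) * E.eval u := by
      rw [← mul_sub]
      gcongr
      linarith
    have b5 : (P.1 : ℝ) ^ (n + 1) * e2 = (P.1 : ℝ) ^ n * (P.1 * e2) := by ring
    rcases hX1 P.1 P.2 hx w rfl with hcase | hcase
    · exfalso
      have k1 : (P.1 : ℝ) ^ n * (P.1 * (a * w ^ 2 + c1 * w + e2) +
          (C + L2 + L3) * (1 + w ^ 2)) < 0 := mul_neg_of_pos_of_neg hxn hcase
      have k2 : (P.1 : ℝ) ^ n * (P.1 * (a * w ^ 2 + c1 * w + e2) +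
          (C + L2 + L3) * (1 + w ^ 2)) = (P.1 : ℝ) ^ n * (P.1 * (a * w ^ 2)) +
          (P.1 : ℝ) ^ n * (P.1 * (c1 * w)) + (P.1 : ℝ) ^ n * (P.1 * e2) +
          (P.1 : ℝ) ^ n * (C * (1 + w ^ 2)) + (P.1 : ℝ) ^ n * (L2 * (1 + w ^ 2)) +
          (P.1 : ℝ) ^ n * (L3 * (1 + w ^ 2)) := by ring
      linarith [hCP.2]
    · have k1 : (P.1 : ℝ) ^ n * c ≤ (P.1 : ℝ) ^ n * (P.1 * (a * w ^ 2 + c1 * w + e2) -
          (C + L2 + L3) * (1 + w ^ 2)) := by gcongr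
      have k2 : (P.1 : ℝ) ^ n * (P.1 * (a * w ^ 2 + c1 * w + e2) -
          (C + L2 + L3) * (1 + w ^ 2)) = (P.1 : ℝ) ^ n * (P.1 * (a * w ^ 2)) +
          (P.1 : ℝ) ^ n * (P.1 * (c1 * w)) + (P.1 : ℝ) ^ n * (P.1 * e2) -
          (P.1 : ℝ) ^ n * (C * (1 + w ^ 2)) - (P.1 : ℝ) ^ n * (L2 * (1 + w ^ 2)) -
          (P.1 : ℝ) ^ n * (L3 * (1 + w ^ 2)) := by ring
      have k3 : c * P.1 ≤ (P.1 : ℝ) ^ n * c := by
        calc c * (P.1 : ℝ) = (P.1 : ℝ) ^ 1 * c := by ring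
          _ ≤ (P.1 : ℝ) ^ n * c := by
              have := pow_le_pow_right₀ hx1 hn
              gcongr
      linarith [hCP.1]
  · -- positive
    set ρ := min 1 (c0 / (2 * (L1 + 1))) with hρ
    have hρ0 : 0 < ρ := by positivity
    refine ⟨ρ, hρ0, fun c hc => ?_⟩
    obtain ⟨X1, hX1⟩ := exists_nat_ge ((|e2| + L3 + C + c) * 2 / c0)
    refine ⟨X1, fun P hP hx hu => ?_⟩
    have hxp : 0 < P.1 := by omega
    have hxpos : (0 : ℝ) < P.1 := by exact_mod_cast hxp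
    have hx1 : (1 : ℝ) ≤ P.1 := by exact_mod_cast hxp
    have hxX : (X1 : ℝ) ≤ P.1 := by exact_mod_cast hx.le
    have hxc : |e2| + L3 + C + c ≤ P.1 * (c0 / 2) := by
      rw [div_le_iff₀ hpos] at hX1
      have := mul_le_mul_of_nonneg_right hxX hpos.le
      linarith
    set u := (P.2 : ℝ) - θ * P.1 with hudef
    have hvρ : |u - s| ≤ ρ := by
      rw [abs_le]
      constructor <;> linarith [hu.1, hu.2]
    have hv1 : |u - s| ≤ 1 := hvρ.trans (min_le_left _ _)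
    have hCP := (abs_le.1 (hC P hx1 (hu_le u hv1))).1
    rw [← hudef, hA] at hCP
    have g1 := (abs_le.1 (hL1 u (hu_le u hv1))).1
    have g3 := (abs_le.1 (hL3 u (hu_le u hv1))).1
    have hB2 : c0 / 2 ≤ B.eval u := by
      have h4 : L1 * |u - s| ≤ c0 / 2 := by
        calc L1 * |u - s| ≤ (L1 + 1) * (c0 / (2 * (L1 + 1))) := by
              apply mul_le_mul (by linarith) (hvρ.trans (min_le_right _ _)) (abs_nonneg _)
                (by positivity)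
          _ = c0 / 2 := by field_simp
      linarith
    have hE2 : -(|e2| + L3) ≤ E.eval u := by
      have h4 : L3 * |u - s| ≤ L3 := mul_le_of_le_one_right hL30 hv1
      linarith
    have k1 : (P.1 : ℝ) ^ (n + 2) * (c0 / 2) ≤ (P.1 : ℝ) ^ (n + 2) * B.eval u := by gcongr
    have k2 : (P.1 : ℝ) ^ (n + 1) * -(|e2| + L3) ≤ (P.1 : ℝ) ^ (n + 1) * E.eval u := by gcongr
    have k3 : 0 ≤ (P.1 : ℝ) ^ (n + 3) * (a * (u - s) ^ 2) := by positivity
    have k4 : C * (P.1 : ℝ) ^ n ≤ (P.1 : ℝ) ^ (n + 1) * C := by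
      calc C * (P.1 : ℝ) ^ n = (P.1 : ℝ) ^ n * C * 1 := by ring
        _ ≤ (P.1 : ℝ) ^ n * C * P.1 := by gcongr
        _ = (P.1 : ℝ) ^ (n + 1) * C := by ring
    have k5 : (P.1 : ℝ) ^ (n + 1) * c ≤
        (P.1 : ℝ) ^ (n + 1) * (P.1 * (c0 / 2) - (|e2| + L3) - C) := by
      gcongr
      linarith
    have k6 : (P.1 : ℝ) ^ (n + 1) * (P.1 * (c0 / 2) - (|e2| + L3) - C) =
        (P.1 : ℝ) ^ (n + 2) * (c0 / 2) + (P.1 : ℝ) ^ (n + 1) * -(|e2| + L3) -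
        (P.1 : ℝ) ^ (n + 1) * C := by ring
    have k7 : c * P.1 ≤ (P.1 : ℝ) ^ (n + 1) * c := by
      calc c * (P.1 : ℝ) = (P.1 : ℝ) ^ 1 * c := by ring
        _ ≤ (P.1 : ℝ) ^ (n + 1) * c := by
            have := pow_le_pow_right₀ hx1 (by omega : 1 ≤ n + 1)
            gcongr
    linarith

end PP72
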