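import Pool.Agent.PP72.Dbl2

/-!
Further local lemmas: the simple case at the boundary, the positive case, algebraic numbers.
-/

open Polynomial Finset Filter

namespace PP72

variable {α : ℝ} {d : ℕ} {h : ℕ → ℝ[X]}

/-- a strip on which `f` grows faster than linearly is thin -/
theorem thin_superlinear {f : ℕ × ℕ → ℝ} {A : Set (ℕ × ℕ)} (θ U : ℝ) (hU : 0 ≤ U)
    (hA : ∀ P ∈ A, |(P.2 : ℝ) - θ * P.1| ≤ U)
    (hf : ∀ c : ℝ, 0 < c → ∃ X0 : ℕ, ∀ P ∈ A, X0 < P.1 → c * P.1 ≤ f P) : Thin f A := by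
  intro ε hε
  set V := 2 * U + 1 with hV
  have hV0 : 0 < V := by positivity
  obtain ⟨X0, hX0⟩ := hf (2 * V / ε) (by positivity)
  obtain ⟨N0, hN0⟩ := exists_nat_ge (2 * ((X0 + 1 : ℝ) * V) / ε)
  refine ⟨N0, fun N hN T hT => ?_⟩
  have hN' : 2 * ((X0 + 1 : ℝ) * V) / ε ≤ N := hN0.trans (by exact_mod_cast hN)
  have hNn : (0 : ℝ) ≤ N := Nat.cast_nonneg _
  have hX0n : (0 : ℝ) ≤ X0 := Nat.cast_nonneg _
  have h5 : 0 ≤ ε * N / (2 * V) := by positivity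
  have hbox : (T.card : ℝ) ≤ (X0 + ε * N / (2 * V) + 1) * V := by
    apply card_box θ _ _ (by positivity) hU
    intro P hP
    obtain ⟨h1, h2⟩ := hT P hP
    refine ⟨?_, hA P h1⟩
    rcases Nat.lt_or_ge X0 P.1 with hlt | hge
    · have h3 := (hX0 P h1 hlt).trans h2
      have h4 : (P.1 : ℝ) ≤ ε * N / (2 * V) := by
        rw [le_div_iff₀ (by positivity)]
        rw [div_mul_eq_mul_div, div_le_iff₀ hε] at h3
        linarith
      linarith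
    · have h3 : (P.1 : ℝ) ≤ X0 := by exact_mod_cast hge
      linarith
  rw [div_le_iff₀ hε] at hN'
  have h6 : (X0 + ε * N / (2 * V) + 1) * V = (X0 + 1) * V + ε * N / 2 := by
    field_simp
    ring
  rw [h6] at hbox
  linarith

/-- a point where the top polynomial is positive -/
theorem Pk.big_pos (n : ℕ) (H : Pk α (n + 5) h) {θ s : ℝ}
    (hv : ∀ j, n + 3 < j → j ≤ n + 5 → ∀ u, (gT (n + 5) h θ j).eval u = 0)
    (hA : 0 < (gT (n + 5) h θ (n + 3)).eval s) :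
    ∃ ρ : ℝ, 0 < ρ ∧ Big (fv (n + 5) h) α θ (Set.Ioo (s - ρ) (s + ρ)) := by
  obtain ⟨C, hC0, hC⟩ := H.expand_three n θ hv (|s| + 1)
  set A := gT (n + 5) h θ (n + 3) with hAdef
  set B := gT (n + 5) h θ (n + 2) with hB
  set E := gT (n + 5) h θ (n + 1) with hE
  obtain ⟨L0, hL00, hL0⟩ := poly_lip A s (|s| + 1)
  obtain ⟨L1, hL10, hL1⟩ := poly_bdd B (|s| + 1)
  obtain ⟨L3, hL30, hL3⟩ := poly_bdd E (|s| + 1)
  set a := A.eval s with ha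
  have hu_le : ∀ u : ℝ, |u - s| ≤ 1 → |u| ≤ |s| + 1 := by
    intro u hu
    calc |u| = |(u - s) + s| := by ring_nf
      _ ≤ |u - s| + |s| := abs_add_le _ _
      _ ≤ |s| + 1 := by linarith
  set ρ := min 1 (a / (2 * (L0 + 1))) with hρ
  have hρ0 : 0 < ρ := by positivity
  refine ⟨ρ, hρ0, fun c hc => ?_⟩
  obtain ⟨X1, hX1⟩ := exists_nat_ge ((L1 + L3 + C + c) * 2 / a)
  refine ⟨X1, fun P hP hx hu => ?_⟩
  have hxp : 0 < P.1 := by omega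
  have hxpos : (0 : ℝ) < P.1 := by exact_mod_cast hxp
  have hx1 : (1 : ℝ) ≤ P.1 := by exact_mod_cast hxp
  have hxX : (X1 : ℝ) ≤ P.1 := by exact_mod_cast hx.le
  have hxc : L1 + L3 + C + c ≤ P.1 * (a / 2) := by
    rw [div_le_iff₀ hA] at hX1
    have := mul_le_mul_of_nonneg_right hxX hA.le
    linarith
  set u := (P.2 : ℝ) - θ * P.1 with hudef
  have hvρ : |u - s| ≤ ρ := by
    rw [abs_le]
    constructor <;> linarith [hu.1, hu.2]
  have hv1 : |u - s| ≤ 1 := hvρ.trans (min_le_left _ _)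
  have hCP := (abs_le.1 (hC P hx1 (hu_le u hv1))).1
  rw [← hudef] at hCP
  have g0 := (abs_le.1 (hL0 u (hu_le u hv1))).1
  have g1 := (abs_le.1 (hL1 u (hu_le u hv1))).1
  have g3 := (abs_le.1 (hL3 u (hu_le u hv1))).1
  have hA2 : a / 2 ≤ A.eval u := by
    have h4 : L0 * |u - s| ≤ a / 2 := by
      calc L0 * |u - s| ≤ (L0 + 1) * (a / (2 * (L0 + 1))) := by
            apply mul_le_mul (by linarith) (hvρ.trans (min_le_right _ _)) (abs_nonneg _)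
              (by positivity)
        _ = a / 2 := by field_simp
    linarith
  have k0 : (P.1 : ℝ) ^ (n + 3) * (a / 2) ≤ (P.1 : ℝ) ^ (n + 3) * A.eval u := by gcongr
  have k1 : (P.1 : ℝ) ^ (n + 2) * -L1 ≤ (P.1 : ℝ) ^ (n + 2) * B.eval u := by gcongr
  have k2 : (P.1 : ℝ) ^ (n + 1) * -L3 ≤ (P.1 : ℝ) ^ (n + 1) * E.eval u := by gcongr
  have k3 : (P.1 : ℝ) ^ (n + 1) * L3 ≤ (P.1 : ℝ) ^ (n + 2) * L3 := by
    have := pow_le_pow_right₀ hx1 (by omega : n + 1 ≤ n + 2)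
    gcongr
  have k4 : C * (P.1 : ℝ) ^ n ≤ (P.1 : ℝ) ^ (n + 2) * C := by
    have := pow_le_pow_right₀ hx1 (by omega : n ≤ n + 2)
    rw [mul_comm]
    gcongr
  have k5 : (P.1 : ℝ) ^ (n + 2) * c ≤ (P.1 : ℝ) ^ (n + 2) * (P.1 * (a / 2) - L1 - L3 - C) := by
    gcongr
    linarith
  have k6 : (P.1 : ℝ) ^ (n + 2) * (P.1 * (a / 2) - L1 - L3 - C) =
      (P.1 : ℝ) ^ (n + 3) * (a / 2) - (P.1 : ℝ) ^ (n + 2) * L1 - (P.1 : ℝ) ^ (n + 2) * L3 -
      (P.1 : ℝ) ^ (n + 2) * C := by ring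
  have k7 : c * P.1 ≤ (P.1 : ℝ) ^ (n + 2) * c := by
    calc c * (P.1 : ℝ) = (P.1 : ℝ) ^ 1 * c := by ring
      _ ≤ (P.1 : ℝ) ^ (n + 2) * c := by
          have := pow_le_pow_right₀ hx1 (by omega : 1 ≤ n + 2)
          gcongr
  linarith

/-- at the boundary, the top polynomial has a simple zero at `0` -/
theorem Pk.big_simple (n : ℕ) (H : Pk α (n + 5) h) {a b : ℝ} (ha : 0 ≤ a) (hb : b < 0)
    (hv : ∀ j, n + 3 < j → j ≤ n + 5 → ∀ u, (gT (n + 5) h α j).eval u = 0)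
    (hA : ∀ u, (gT (n + 5) h α (n + 3)).eval u = a * u ^ 2 + b * u)
    (hS : ∀ t : ℝ, b * t + (gT (n + 5) h α (n + 2)).eval 0 = 0 → ∃ X0 : ℕ, ∀ x y : ℕ, X0 < x →
      1 ≤ (x : ℝ) * (x * (y - α * x) - t) ^ 4) :
    Big (fv (n + 5) h) α α (Set.Ioo (-1) 1) := by
  obtain ⟨C, hC0, hC⟩ := H.expand_three n α hv 1
  set B := gT (n + 5) h α (n + 2) with hB
  set E := gT (n + 5) h α (n + 1) with hE
  obtain ⟨L1, hL10, hL1⟩ := poly_lip B 0 1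
  obtain ⟨L3, hL30, hL3⟩ := poly_bdd E 1
  set c0 := B.eval 0 with hc0
  intro c hc
  obtain ⟨X1, hX1⟩ := lin_far (θ := α) hb (by positivity : 0 ≤ a + L1 + L3 + C) hS c
  refine ⟨X1, fun P hP hx hu => ?_⟩
  have hxp : 0 < P.1 := by omega
  have hxpos : (0 : ℝ) < P.1 := by exact_mod_cast hxp
  have hx1 : (1 : ℝ) ≤ P.1 := by exact_mod_cast hxp
  have hu0 := sec_u hP
  set u := (P.2 : ℝ) - α * P.1 with hudef
  have hu1 : |u| ≤ 1 := by
    rw [abs_le]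
    constructor <;> linarith [hu.1, hu.2]
  have hCP := abs_le.1 (hC P hx1 hu1)
  rw [← hudef, hA] at hCP
  have g1 := abs_le.1 (hL1 u hu1)
  have g3 := abs_le.1 (hL3 u hu1)
  rw [_root_.sub_zero, abs_of_nonpos hu0] at g1
  have hF := H.fv_nonneg hP
  set w := (P.1 : ℝ) * (P.2 - α * P.1) with hw
  have hwv : w = P.1 * u := by rw [hw, hudef]
  have hw0 : w ≤ 0 := by
    rw [hwv]
    exact mul_nonpos_of_nonneg_of_nonpos hxpos.le hu0
  have hxn1 : 0 < (P.1 : ℝ) ^ (n + 1) := by positivity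
  have m1 : (P.1 : ℝ) ^ (n + 3) * (a * u ^ 2 + b * u) =
      (P.1 : ℝ) ^ (n + 1) * (a * w ^ 2) + (P.1 : ℝ) ^ (n + 1) * (P.1 * (b * w)) := by
    rw [hwv]
    ring
  have m2 : (P.1 : ℝ) ^ (n + 2) * (L1 * -u) = (P.1 : ℝ) ^ (n + 1) * (L1 * -w) := by
    rw [hwv]
    ring
  have m3 : (P.1 : ℝ) ^ (n + 2) * c0 = (P.1 : ℝ) ^ (n + 1) * (P.1 * c0) := by ring
  have b1 : (P.1 : ℝ) ^ (n + 2) * B.eval u ≤ (P.1 : ℝ) ^ (n + 2) * c0 +
      (P.1 : ℝ) ^ (n + 2) * (L1 * -u) := by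
    rw [← mul_add]
    gcongr
    linarith
  have b2 : (P.1 : ℝ) ^ (n + 2) * c0 - (P.1 : ℝ) ^ (n + 2) * (L1 * -u) ≤
      (P.1 : ℝ) ^ (n + 2) * B.eval u := by
    rw [← mul_sub]
    gcongr
    linarith
  have b3 : (P.1 : ℝ) ^ (n + 1) * E.eval u ≤ (P.1 : ℝ) ^ (n + 1) * L3 := by
    gcongr
    linarith
  have b4 : (P.1 : ℝ) ^ (n + 1) * -L3 ≤ (P.1 : ℝ) ^ (n + 1) * E.eval u :=
    mul_le_mul_of_nonneg_left g3.1 hxn1.le
  have b5 : C * (P.1 : ℝ) ^ n ≤ (P.1 : ℝ) ^ (n + 1) * C := by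
    have := pow_le_pow_right₀ hx1 (by omega : n ≤ n + 1)
    rw [mul_comm]
    gcongr
  have hww : 0 ≤ w ^ 2 := sq_nonneg w
  have m5 : -w ≤ 1 + w ^ 2 := by nlinarith [sq_nonneg (w + 1)]
  rcases hX1 P.1 P.2 hx w rfl hw0 with hcase | hcase
  · exfalso
    have hD := hcase (a * w ^ 2 + L1 * -w + L3 + C) (by
      have : 0 ≤ -w := by linarith
      positivity) (by
      have t1 : L1 * -w ≤ L1 * (1 + w ^ 2) := by gcongr
      have t2 : 0 ≤ L3 * w ^ 2 := by positivity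
      have t3 : 0 ≤ C * w ^ 2 := by positivity
      linarith)
    have k1 : (P.1 : ℝ) ^ (n + 1) * (P.1 * (b * w + c0) + (a * w ^ 2 + L1 * -w + L3 + C)) < 0 :=
      mul_neg_of_pos_of_neg hxn1 hD
    have k2 : (P.1 : ℝ) ^ (n + 1) * (P.1 * (b * w + c0) + (a * w ^ 2 + L1 * -w + L3 + C)) =
        (P.1 : ℝ) ^ (n + 1) * (P.1 * (b * w)) + (P.1 : ℝ) ^ (n + 1) * (P.1 * c0) +
        (P.1 : ℝ) ^ (n + 1) * (a * w ^ 2) + (P.1 : ℝ) ^ (n + 1) * (L1 * -w) +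
        (P.1 : ℝ) ^ (n + 1) * L3 + (P.1 : ℝ) ^ (n + 1) * C := by ring
    linarith [hCP.2]
  · have k1 : (P.1 : ℝ) ^ (n + 1) * c ≤ (P.1 : ℝ) ^ (n + 1) * (P.1 * (b * w + c0) -
        (a + L1 + L3 + C) * (1 - w)) := by gcongr
    have k0 : (P.1 : ℝ) ^ (n + 1) * (L1 * -w + L3 + C) ≤
        (P.1 : ℝ) ^ (n + 1) * ((a + L1 + L3 + C) * (1 - w)) := by
      gcongr
      have hnw : 0 ≤ -w := by linarith
      have t1 : 0 ≤ a * (1 - w) := mul_nonneg ha (by linarith)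
      have t2 : 0 ≤ L3 * -w := by positivity
      have t3 : 0 ≤ C * -w := by positivity
      linarith
    have k2 : (P.1 : ℝ) ^ (n + 1) * (P.1 * (b * w + c0) - (a + L1 + L3 + C) * (1 - w)) =
        (P.1 : ℝ) ^ (n + 1) * (P.1 * (b * w)) + (P.1 : ℝ) ^ (n + 1) * (P.1 * c0) -
        (P.1 : ℝ) ^ (n + 1) * ((a + L1 + L3 + C) * (1 - w)) := by ring
    have k3 : (P.1 : ℝ) ^ (n + 1) * (L1 * -w + L3 + C) =
        (P.1 : ℝ) ^ (n + 1) * (L1 * -w) + (P.1 : ℝ) ^ (n + 1) * L3 +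
        (P.1 : ℝ) ^ (n + 1) * C := by ring
    have k4 : 0 ≤ (P.1 : ℝ) ^ (n + 1) * (a * w ^ 2) := by positivity
    have k5 : c * P.1 ≤ (P.1 : ℝ) ^ (n + 1) * c := by
      calc c * (P.1 : ℝ) = (P.1 : ℝ) ^ 1 * c := by ring
        _ ≤ (P.1 : ℝ) ^ (n + 1) * c := by
            have := pow_le_pow_right₀ hx1 (by omega : 1 ≤ n + 1)
            gcongr
    linarith [hCP.1]

/-- values of polynomials with algebraic coefficients -/
theorem eval_mem_alg {p : ℝ[X]} (hp : ∀ i, p.coeff i ∈ algebraicClosure ℚ ℝ) {x : ℝ}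
    (hx : x ∈ algebraicClosure ℚ ℝ) : p.eval x ∈ algebraicClosure ℚ ℝ := by
  rw [eval_eq_sum_range]
  exact sum_mem fun i _ => mul_mem (hp i) (pow_mem hx i)

theorem taylor_mem_alg {p : ℝ[X]} (hp : ∀ i, p.coeff i ∈ algebraicClosure ℚ ℝ) {θ : ℝ}
    (hθ : θ ∈ algebraicClosure ℚ ℝ) (i : ℕ) :
    (taylor θ p).coeff i ∈ algebraicClosure ℚ ℝ := by
  rw [taylor_coeff]
  apply eval_mem_alg _ hθ
  intro j
  rw [hasseDeriv_coeff]
  exact mul_mem (natCast_mem _ _) (hp _)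

theorem Pk.coeff_mem_alg (H : Pk α d h) (k : ℕ) (hk : k ≤ d) (i : ℕ) :
    (h k).coeff i ∈ algebraicClosure ℚ ℝ := by
  obtain ⟨c, hc, _⟩ := H.rat_coeffs k hk
  rw [hc]
  exact (algebraicClosure ℚ ℝ).algebraMap_mem (c i)

theorem Pk.gT_mem_alg (H : Pk α d h) {θ : ℝ} (hθ : θ ∈ algebraicClosure ℚ ℝ) (j i : ℕ) :
    (gT d h θ j).coeff i ∈ algebraicClosure ℚ ℝ := by
  rw [gT_coeff]
  split_ifs with hij
  · exact taylor_mem_alg (H.coeff_mem_alg _ hij) hθ i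
  · exact zero_mem _

theorem deriv_mem_alg {p : ℝ[X]} (hp : ∀ i, p.coeff i ∈ algebraicClosure ℚ ℝ) (i : ℕ) :
    (derivative p).coeff i ∈ algebraicClosure ℚ ℝ := by
  rw [coeff_derivative]
  exact mul_mem (hp _) (add_mem (natCast_mem _ _) (one_mem _))

/-- zeros of quadratic polynomials with algebraic coefficients -/
theorem quad_mem_alg {a c e t : ℝ} (ha : a ≠ 0) (ha' : a ∈ algebraicClosure ℚ ℝ)
    (hc : c ∈ algebraicClosure ℚ ℝ) (he : e ∈ algebraicClosure ℚ ℝ)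
    (ht : a * t ^ 2 + c * t + e = 0) : t ∈ algebraicClosure ℚ ℝ := by
  have h2 : (2 : ℝ) ∈ algebraicClosure ℚ ℝ := ofNat_mem _ _
  have h4 : (4 : ℝ) ∈ algebraicClosure ℚ ℝ := ofNat_mem _ _
  have h1 : (t + c / (2 * a)) ^ 2 ∈ algebraicClosure ℚ ℝ := by
    have e1 : (t + c / (2 * a)) ^ 2 = (c ^ 2 - 4 * a * e) / (4 * a ^ 2) := by
      have e2 : e = -(a * t ^ 2 + c * t) := by linarith
      rw [e2]
      field_simp
      ring
    rw [e1]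
    exact div_mem (sub_mem (pow_mem hc 2) (mul_mem (mul_mem h4 ha') he))
      (mul_mem h4 (pow_mem ha' 2))
  have h3 : t + c / (2 * a) ∈ algebraicClosure ℚ ℝ := by
    rw [mem_algebraicClosure_iff] at h1 ⊢
    exact h1.of_pow (by norm_num)
  have h5 : t = (t + c / (2 * a)) - c / (2 * a) := by ring
  rw [h5]
  exact sub_mem h3 (div_mem hc (mul_mem h2 ha'))

end PP72
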