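import Pool.Agent.PP72.Dbl3

/-!
Double irrational zeros of the leading form.
-/

open Polynomial Finset Filter

namespace PP72

variable {α : ℝ} {d : ℕ} {h : ℕ → ℝ[X]}

/-- a quadratic function, nonnegative on a neighborhood of its zero, has a double zero there -/
theorem quad_double {a b e s r : ℝ} (ha : 0 < a) (hr : 0 < r) (hz : a * s ^ 2 + b * s + e = 0)
    (hnn : ∀ u : ℝ, |u - s| ≤ r → 0 ≤ a * u ^ 2 + b * u + e) :
    b = -(2 * a * s) ∧ ∀ u : ℝ, a * u ^ 2 + b * u + e = a * (u - s) ^ 2 := by
  set k := 2 * a * s + b with hk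
  have hexp : ∀ v : ℝ, a * (s + v) ^ 2 + b * (s + v) + e = a * v ^ 2 + k * v := by
    intro v
    have : a * (s + v) ^ 2 + b * (s + v) + e =
        (a * s ^ 2 + b * s + e) + (a * v ^ 2 + k * v) := by rw [hk]; ring
    rw [this, hz, zero_add]
  have hk0 : k = 0 := by
    by_contra hne
    have hkpos : 0 < |k| := abs_pos.2 hne
    set τ := min 1 (r * (2 * a) / |k|) with hτ
    have hτ0 : 0 < τ := by positivity
    have hτ1 : τ ≤ 1 := min_le_left _ _
    set v := -(k / (2 * a)) * τ with hv
    have hvr : |v| ≤ r := by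
      rw [hv, abs_mul, abs_neg, abs_div, abs_of_pos (by positivity : 0 < 2 * a),
        abs_of_pos hτ0]
      calc |k| / (2 * a) * τ ≤ |k| / (2 * a) * (r * (2 * a) / |k|) := by
            gcongr
            exact min_le_right _ _
        _ = r := by field_simp
    have h1 := hnn (s + v) (by
      have : s + v - s = v := by ring
      rw [this]
      exact hvr)
    rw [hexp] at h1
    have h2 : a * v ^ 2 + k * v = k ^ 2 / (4 * a) * (τ ^ 2 - 2 * τ) := by
      rw [hv]
      field_simp
      ring
    rw [h2] at h1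
    have h3 : τ ^ 2 - 2 * τ < 0 := by nlinarith
    have h4 : 0 < k ^ 2 / (4 * a) := by positivity
    have h5 := mul_neg_of_pos_of_neg h4 h3
    linarith
  refine ⟨by linarith, fun u => ?_⟩
  have h1 := hexp (u - s)
  rw [hk0] at h1
  have h2 : s + (u - s) = u := by ring
  rw [h2] at h1
  linarith

theorem Big.mono {f : ℕ × ℕ → ℝ} {α θ : ℝ} {S T : Set ℝ} (h : Big f α θ T) (hST : S ⊆ T) :
    Big f α θ S := by
  intro c hc
  obtain ⟨X0, hX⟩ := h c hc
  exact ⟨X0, fun P hP hx hu => hX P hP hx (hST hu)⟩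

theorem Big.union {f : ℕ × ℕ → ℝ} {α θ : ℝ} {S T : Set ℝ} (h1 : Big f α θ S)
    (h2 : Big f α θ T) : Big f α θ (S ∪ T) := by
  intro c hc
  obtain ⟨X1, hX1⟩ := h1 c hc
  obtain ⟨X2, hX2⟩ := h2 c hc
  refine ⟨max X1 X2, fun P hP hx hu => ?_⟩
  have h3 := le_max_left X1 X2
  have h4 := le_max_right X1 X2
  rcases hu with hu | hu
  · exact hX1 P hP (by omega) hu
  · exact hX2 P hP (by omega) hu

/-- **Double irrational zeros of the leading form.** -/
theorem Pk.near_double (n : ℕ) (hn : 1 ≤ n) (H : Pk α (n + 5) h) (hne : h (n + 5) ≠ 0) {θ : ℝ}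
    (hirr : Irrational θ) (hθ0 : 0 < θ) (hθα : θ ≤ α) (hz : (h (n + 5)).eval θ = 0)
    (hμ : rootMultiplicity θ (h (n + 5)) = 2) (hz1 : (h (n + 4)).eval θ = 0)
    (hS : ∀ s t : ℝ, IsAlgebraic ℚ s → IsAlgebraic ℚ t → ∃ X0 : ℕ, ∀ x y : ℕ, X0 < x →
      1 ≤ (x : ℝ) * (x * (y - θ * x - s) - t) ^ 4) :
    ∃ ε : ℝ, 0 < ε ∧ Thin (fv (n + 5) h) (Near α θ ε) := by
  obtain ⟨Q, hQ1, hQ2, hQ3, hQ4⟩ := taylor_root (h (n + 5)) hne θ
  rw [hμ] at hQ3 hQ4
  set a := (taylor θ (h (n + 5))).coeff 2 with ha
  set b := (taylor θ (h (n + 4))).coeff 1 with hb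
  set e := (h (n + 3)).eval θ with he
  have ha0 : a ≠ 0 := by
    rw [hQ4]
    exact hQ2
  obtain ⟨hv, hA⟩ := gT_top (K := n + 3) (h := h) (θ := θ) hz (hQ3 1 (by norm_num)) hz1
  -- algebraic numbers
  have hθalg : θ ∈ algebraicClosure ℚ ℝ := by
    rw [mem_algebraicClosure_iff]
    obtain ⟨P, hP⟩ := H.rational (n + 5) (by simp)
    refine ⟨P, ?_, ?_⟩
    · rintro rfl
      apply hne
      rw [hP, Polynomial.map_zero]
    · rw [hP, eval_map_algebraMap] at hz
      exact hz
  have haalg : a ∈ algebraicClosure ℚ ℝ := taylor_mem_alg (H.coeff_mem_alg _ (by omega)) hθalg 2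
  have hbalg : b ∈ algebraicClosure ℚ ℝ := taylor_mem_alg (H.coeff_mem_alg _ (by omega)) hθalg 1
  have h2alg : (2 : ℝ) ∈ algebraicClosure ℚ ℝ := ofNat_mem _ _
  -- accessible values
  have hacc : ∀ s : ℝ, (θ = α → s ≤ 0) → ∀ X0 : ℕ, ∃ P ∈ Sec α, X0 < P.1 ∧
      (P.1 : ℝ) * |(P.2 : ℝ) - θ * P.1 - s| ≤ 11 := by
    intro s hs X0
    rcases hθα.lt_or_eq with hlt | heq
    · obtain ⟨P, h1, h2, h3⟩ := exists_near hirr hθ0 hlt s X0
      exact ⟨P, h1, h2, h3.trans (by norm_num)⟩
    · have h1 := hs heq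
      subst heq
      exact exists_near_bd hirr hθ0 s h1 X0
  have hnn : ∀ s : ℝ, (θ = α → s ≤ 0) → 0 ≤ a * s ^ 2 + b * s + e := by
    intro s hs
    by_contra hneg
    push Not at hneg
    refine H.neg_top (θ := θ) (n + 2) (by omega) ?_ s ?_ (hacc s hs)
    · intro j hj1 hj2 u
      exact hv j (by omega) (by omega) u
    · rw [hA]
      exact hneg
  have hapos : 0 < a := by
    rcases lt_or_gt_of_ne ha0 with hneg | hpos
    · exfalso
      set m := -a with hm
      have hm0 : 0 < m := by rw [hm]; linarith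
      set s := -(1 + (|b| + |e|) / m) with hs
      have hq0 : 0 ≤ (|b| + |e|) / m := by positivity
      have h1 := hnn s (fun _ => by rw [hs]; linarith)
      have h2 : |s| = 1 + (|b| + |e|) / m := by
        rw [hs, abs_neg, abs_of_nonneg (by positivity)]
      have h3 : b * s ≤ |b| * |s| := by
        rw [← abs_mul]
        exact le_abs_self _
      have h4 : e ≤ |e| * |s| := by
        calc e ≤ |e| := le_abs_self _
          _ = |e| * 1 := (mul_one _).symm
          _ ≤ |e| * |s| := by
              gcongr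
              linarith
      have h5 : a * s ^ 2 = -(m * |s|) * |s| := by
        rw [hm, ← sq_abs s]
        ring
      have h6 : m * |s| = m + (|b| + |e|) := by
        rw [h2]
        field_simp
      have h7 : 0 < |s| := by rw [h2]; positivity
      have h8 : 0 < m * |s| := by positivity
      rw [h5, h6] at h1
      have h9 : -(m + (|b| + |e|)) * |s| + |b| * |s| + |e| * |s| = -(m * |s|) := by ring
      linarith
    · exact hpos
  -- the compact part
  set U0 := max 1 (2 * (|b| + |e|) / a) with hU0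
  have hU01 : 1 ≤ U0 := le_max_left _ _
  have hU02 : |b| + |e| ≤ a / 2 * U0 := by
    have h1 : 2 * (|b| + |e|) / a ≤ U0 := le_max_right _ _
    rw [div_le_iff₀ hapos] at h1
    linarith
  have hBig : Big (fv (n + 5) h) α θ (Set.Icc (-U0) U0) := by
    refine IsCompact.induction_on (isCompact_Icc (a := -U0) (b := U0))
      (p := fun S => Big (fv (n + 5) h) α θ S) ?_ ?_ ?_ ?_
    · intro c _
      exact ⟨0, fun P _ _ hu => absurd hu (Set.notMem_empty _)⟩
    · intro S T hST hT
      exact hT.mono hST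
    · intro S T h1 h2
      exact h1.union h2
    · intro s _
      have hnhds : ∀ ρ : ℝ, 0 < ρ → Set.Ioo (s - ρ) (s + ρ) ∈ nhdsWithin s (Set.Icc (-U0) U0) := by
        intro ρ hρ
        exact mem_nhdsWithin_of_mem_nhds (Ioo_mem_nhds (by linarith) (by linarith))
      by_cases hs : θ = α → s ≤ 0
      · rcases (hnn s hs).lt_or_eq with hpos | hzero
        · obtain ⟨ρ, hρ, hB⟩ := H.big_pos n (θ := θ) (s := s) hv (by rw [hA]; exact hpos)
          exact ⟨_, hnhds ρ hρ, hB⟩
        · -- a zero of the top polynomial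
          have hdouble : (b = -(2 * a * s) ∧ ∀ u : ℝ, a * u ^ 2 + b * u + e = a * (u - s) ^ 2) →
              ∃ t ∈ nhdsWithin s (Set.Icc (-U0) U0), Big (fv (n + 5) h) α θ t := by
            rintro ⟨hbs, hdbl⟩
            have hsalg : s ∈ algebraicClosure ℚ ℝ := by
              have h1 : s = -b / (2 * a) := by
                rw [hbs]
                field_simp
              rw [h1]
              exact div_mem (neg_mem hbalg) (mul_mem h2alg haalg)
            obtain ⟨ρ, hρ, hB⟩ := H.big_double n hn (θ := θ) (s := s) hapos hv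
              (fun u => by rw [hA]; exact hdbl u) (hacc s hs) (by
              intro t ht
              apply hS s t (mem_algebraicClosure_iff.1 hsalg)
              rw [← mem_algebraicClosure_iff]
              refine quad_mem_alg hapos.ne' haalg ?_ ?_ ht
              · exact eval_mem_alg (deriv_mem_alg (H.gT_mem_alg hθalg _)) hsalg
              · exact eval_mem_alg (H.gT_mem_alg hθalg _) hsalg)
            exact ⟨_, hnhds ρ hρ, hB⟩
          by_cases hcase : θ = α ∧ s = 0
          · obtain ⟨hθα', hs0⟩ := hcase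
            subst hs0
            have he0 : e = 0 := by
              have h1 : a * (0 : ℝ) ^ 2 + b * 0 + e = e := by ring
              rw [h1] at hzero
              exact hzero.symm
            have hb0 : b ≤ 0 := by
              by_contra hbpos
              push Not at hbpos
              have h1 := hnn (-(b / (2 * a))) (fun _ => by
                have : 0 < b / (2 * a) := by positivity
                linarith)
              have h2 : a * (-(b / (2 * a))) ^ 2 + b * (-(b / (2 * a))) + e =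
                  -(b ^ 2 / (4 * a)) := by
                rw [he0]
                field_simp
                ring
              rw [h2] at h1
              have h3 : 0 < b ^ 2 / (4 * a) := by positivity
              linarith
            rcases hb0.lt_or_eq with hblt | hbeq
            · subst hθα'
              have hB := H.big_simple n hapos.le hblt hv (fun u => by
                rw [hA]
                change a * u ^ 2 + b * u + e = a * u ^ 2 + b * u
                rw [he0]
                ring) (by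
                intro t ht
                obtain ⟨X0, hX0⟩ := hS 0 t (isAlgebraic_zero) (by
                  rw [← mem_algebraicClosure_iff]
                  have h1 : t = -(gT (n + 5) h θ (n + 2)).eval 0 / b := by
                    rw [eq_div_iff hblt.ne]
                    linarith
                  rw [h1]
                  exact div_mem (neg_mem (eval_mem_alg (H.gT_mem_alg hθalg _) (zero_mem _))) hbalg)
                refine ⟨X0, fun x y hx => ?_⟩
                have := hX0 x y hx
                rw [_root_.sub_zero] at this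
                exact this)
              refine ⟨_, hnhds 1 one_pos, ?_⟩
              rw [zero_sub, zero_add]
              exact hB
            · apply hdouble
              refine ⟨by rw [hbeq]; ring, fun u => ?_⟩
              rw [hbeq, he0]
              ring
          · apply hdouble
            -- `s` is an interior point of the set of accessible values
            obtain ⟨r, hr, hrs⟩ : ∃ r : ℝ, 0 < r ∧ (θ = α → s + r ≤ 0) := by
              by_cases h1 : θ = α
              · have h2 : s ≠ 0 := fun h3 => hcase ⟨h1, h3⟩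
                have h3 : s < 0 := lt_of_le_of_ne (hs h1) h2
                exact ⟨-s, by linarith, fun _ => by linarith⟩
              · exact ⟨1, one_pos, fun h2 => absurd h2 h1⟩
            apply quad_double hapos hr hzero.symm
            intro u hu
            apply hnn u
            intro h1
            have h2 := (abs_le.1 hu).2
            have h3 := hrs h1
            linarith
      · -- no points
        push Not at hs
        obtain ⟨h1, h2⟩ := hs
        refine ⟨Set.Ioi 0, mem_nhdsWithin_of_mem_nhds (Ioi_mem_nhds h2), ?_⟩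
        intro c _
        refine ⟨0, fun P hP _ hu => ?_⟩
        exfalso
        rw [h1] at hu
        have h3 := sec_u hP
        have h4 : 0 < (P.2 : ℝ) - α * P.1 := hu
        linarith
  -- the unbounded part
  obtain ⟨ε, hε, hε1, x0, hx0, hlow⟩ := low_terms' (n + 3) 2 (gT (n + 5) h θ) (by
    intro j
    exact gT_natDegree_le θ j) (a / 32) (by positivity)
  obtain ⟨X1, hX1⟩ := exists_nat_ge x0
  refine ⟨ε, hε, ?_⟩
  have hsplit : Near α θ ε ⊆
      ({P | P ∈ Sec α ∧ |(P.2 : ℝ) - θ * P.1| ≤ U0} ∪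
        {P | P ∈ Near α θ ε ∧ X1 ≤ P.1 ∧ U0 < |(P.2 : ℝ) - θ * P.1|}) ∪
      {P | P ∈ Sec α ∧ P.1 ≤ X1} := by
    intro P hP
    by_cases h1 : |(P.2 : ℝ) - θ * P.1| ≤ U0
    · exact Or.inl (Or.inl ⟨hP.1, h1⟩)
    · by_cases h2 : X1 ≤ P.1
      · exact Or.inl (Or.inr ⟨hP, h2, not_le.1 h1⟩)
      · exact Or.inr ⟨hP.1, by omega⟩
  refine Thin.mono (Thin.union (Thin.union ?_ ?_) (thin_finite (finite_x H.pos X1))) hsplit
  · apply thin_superlinear θ U0 (by linarith)
    · rintro P ⟨_, hP⟩
      exact hP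
    · intro c hc
      obtain ⟨X0, hX0⟩ := hBig c hc
      refine ⟨X0, ?_⟩
      rintro P ⟨hP1, hP2⟩ hx
      exact hX0 P hP1 hx (abs_le.1 hP2)
  · apply thin_of_bound θ (a / 8) (by positivity)
    rintro P ⟨hP1, hP2, hP3⟩
    have hx : x0 ≤ (P.1 : ℝ) := hX1.trans (by exact_mod_cast hP2)
    have hx1 : (1 : ℝ) ≤ P.1 := hx0.trans hx
    obtain ⟨_, hus⟩ := near_abs hP1
    have h1 := (abs_le.1 (hlow P.1 _ hx hus)).1
    rw [fv_taylor H.deg θ, Finset.sum_range_succ, Finset.sum_range_succ, Finset.sum_range_succ,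
      hv (n + 5) (by omega) (by omega), hv (n + 4) (by omega) (by omega), hA, mul_zero, mul_zero,
      add_zero, add_zero]
    set u := (P.2 : ℝ) - θ * P.1 with hu
    have hu1 : 1 ≤ |u| := hU01.trans hP3.le
    have hux : |u| ≤ P.1 := by
      have hxn : (0 : ℝ) ≤ P.1 := by linarith
      calc |u| ≤ ε * P.1 := hus
        _ ≤ 1 * P.1 := by gcongr
        _ = P.1 := one_mul _
    have husq : |u| * |u| = u ^ 2 := by rw [← sq, sq_abs]
    have hu2 : 1 ≤ u ^ 2 := by
      rw [← husq]
      calc (1 : ℝ) = 1 * 1 := by norm_num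
        _ ≤ |u| * |u| := by gcongr
    -- the top polynomial
    have hAu : a / 2 * u ^ 2 ≤ a * u ^ 2 + b * u + e := by
      have h2 : |b| + |e| ≤ a / 2 * |u| := hU02.trans (by gcongr)
      have h3 : -(|b| * |u|) ≤ b * u := by
        rw [← abs_mul]
        exact neg_abs_le _
      have h4 : -|e| ≤ e := neg_abs_le e
      have h5 : |e| ≤ |e| * |u| := le_mul_of_one_le_right (abs_nonneg _) hu1
      have h6 : (|b| + |e|) * |u| ≤ a / 2 * |u| * |u| :=
        mul_le_mul_of_nonneg_right h2 (abs_nonneg _)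
      have h7 : a / 2 * |u| * |u| = a / 2 * u ^ 2 := by rw [mul_assoc, husq]
      linarith
    have h2 : a / 32 * ((P.1 : ℝ) ^ (n + 3) * (1 + |u|) ^ 2) ≤
        (P.1 : ℝ) ^ (n + 3) * (a / 8 * u ^ 2) := by
      have h3 : (1 + |u|) ^ 2 ≤ 4 * u ^ 2 := by
        calc (1 + |u|) ^ 2 ≤ (|u| + |u|) ^ 2 := by gcongr
          _ = 4 * (|u| * |u|) := by ring
          _ = 4 * u ^ 2 := by rw [husq]
      calc a / 32 * ((P.1 : ℝ) ^ (n + 3) * (1 + |u|) ^ 2)
          ≤ a / 32 * ((P.1 : ℝ) ^ (n + 3) * (4 * u ^ 2)) := by gcongr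
        _ = (P.1 : ℝ) ^ (n + 3) * (a / 8 * u ^ 2) := by ring
    have h3 : (P.1 : ℝ) ^ (n + 3) * (a / 2 * u ^ 2) ≤
        (P.1 : ℝ) ^ (n + 3) * (a * u ^ 2 + b * u + e) := by gcongr
    have h4 : (P.1 : ℝ) ^ 2 ≤ (P.1 : ℝ) ^ (n + 3) := pow_le_pow_right₀ hx1 (by omega)
    have h5 : (P.1 : ℝ) ^ 2 ≤ (P.1 : ℝ) ^ (n + 3) * u ^ 2 := by
      calc (P.1 : ℝ) ^ 2 = (P.1 : ℝ) ^ 2 * 1 := (mul_one _).symm
        _ ≤ (P.1 : ℝ) ^ (n + 3) * u ^ 2 := by gcongr
    have h6 : |u| ^ 3 ≤ (P.1 : ℝ) ^ (n + 3) * u ^ 2 := by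
      calc |u| ^ 3 = |u| * (|u| * |u|) := by ring
        _ = |u| * u ^ 2 := by rw [husq]
        _ ≤ P.1 * u ^ 2 := by gcongr
        _ ≤ (P.1 : ℝ) ^ (n + 3) * u ^ 2 := by
            gcongr
            calc (P.1 : ℝ) = (P.1 : ℝ) ^ 1 := (pow_one _).symm
              _ ≤ (P.1 : ℝ) ^ (n + 3) := pow_le_pow_right₀ hx1 (by omega)
    have h7 : a / 8 * ((P.1 : ℝ) ^ 2 + |u| ^ 3) ≤
        a / 8 * (2 * ((P.1 : ℝ) ^ (n + 3) * u ^ 2)) := by
      gcongr
      linarith
    have h8 : 0 ≤ (P.1 : ℝ) ^ (n + 3) * u ^ 2 := by positivity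
    have h9 : 0 ≤ a * ((P.1 : ℝ) ^ (n + 3) * u ^ 2) := by positivity
    linarith

end PP72
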