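import Pool.Agent.PP72.Dbl4
import Pool.Agent.PP72.Cnt4

/-!
Double irrational zeros of the leading form, when the strips around the line are understood.
-/

open Polynomial Finset Filter

namespace PP72

variable {α : ℝ} {d : ℕ} {h : ℕ → ℝ[X]}

/-- a quadratic function, for large values of `w` -/
theorem quad_large {a c e C : ℝ} (ha : 0 < a) (hC : 0 ≤ C) : ∃ W : ℝ, ∀ M : ℝ,
    ∃ X1 : ℕ, ∀ x : ℕ, X1 < x → ∀ w : ℝ, W ≤ |w| →
      M ≤ x * (a * w ^ 2 + c * w + e) - C * (1 + w ^ 2) := by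
  set W := max 1 (2 * (|c| + |e|) / a) with hW
  have hW1 : 1 ≤ W := le_max_left _ _
  have hW2 : |c| + |e| ≤ a / 2 * W := by
    have h1 : 2 * (|c| + |e|) / a ≤ W := le_max_right _ _
    rw [div_le_iff₀ ha] at h1
    linarith
  have hlarge : ∀ w : ℝ, W ≤ |w| → a / 4 * (1 + w ^ 2) ≤ a * w ^ 2 + c * w + e := by
    intro w hw
    have hw1 : 1 ≤ |w| := hW1.trans hw
    have h1 : |c| + |e| ≤ a / 2 * |w| := hW2.trans (by gcongr)
    have h2 : -(|c| * |w|) ≤ c * w := by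
      rw [← abs_mul]
      exact neg_abs_le _
    have h3 : -|e| ≤ e := neg_abs_le e
    have h4 : |e| ≤ |e| * |w| := le_mul_of_one_le_right (abs_nonneg _) hw1
    have h5 : (|c| + |e|) * |w| ≤ a / 2 * |w| * |w| :=
      mul_le_mul_of_nonneg_right h1 (abs_nonneg _)
    have h6 : |w| * |w| = w ^ 2 := by rw [← sq, sq_abs]
    have h7 : 1 ≤ w ^ 2 := by
      rw [← h6]
      calc (1 : ℝ) = 1 * 1 := by norm_num
        _ ≤ |w| * |w| := by gcongr
    have h8 : a / 4 * 1 ≤ a / 4 * w ^ 2 := by gcongr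
    have h9 : a / 2 * |w| * |w| = a / 2 * w ^ 2 := by rw [mul_assoc, h6]
    linarith
  refine ⟨W, fun M => ?_⟩
  obtain ⟨X2, hX2⟩ := exists_nat_ge ((|M| + C) * 4 / a)
  refine ⟨X2, fun x hx w hw => ?_⟩
  have h1 := hlarge w hw
  have hx2 : (X2 : ℝ) ≤ x := by exact_mod_cast hx.le
  have h2 : |M| + C ≤ x * (a / 4) := by
    rw [div_le_iff₀ ha] at hX2
    have h3 := mul_le_mul_of_nonneg_right hx2 ha.le
    linarith
  have hxn : (0 : ℝ) ≤ x := Nat.cast_nonneg _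
  have h3 : (x : ℝ) * (a / 4 * (1 + w ^ 2)) ≤ x * (a * w ^ 2 + c * w + e) := by gcongr
  have h4 : (|M| + C) * (1 + w ^ 2) ≤ x * (a / 4) * (1 + w ^ 2) := by gcongr
  have h5 : |M| ≤ |M| * (1 + w ^ 2) := by
    have := mul_nonneg (abs_nonneg M) (sq_nonneg w)
    linarith
  have h6 := le_abs_self M
  linarith

/-- near a double zero of the top polynomial, away from the line -/
theorem Pk.far_double (n : ℕ) (hn : 1 ≤ n) (H : Pk α (n + 5) h) {θ s a : ℝ} (ha : 0 < a)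
    (hv : ∀ j, n + 3 < j → j ≤ n + 5 → ∀ u, (gT (n + 5) h θ j).eval u = 0)
    (hA : ∀ u, (gT (n + 5) h θ (n + 3)).eval u = a * (u - s) ^ 2)
    (hnear : ∀ X0 : ℕ, ∃ P ∈ Sec α, X0 < P.1 ∧ (P.1 : ℝ) * |(P.2 : ℝ) - θ * P.1 - s| ≤ 11) :
    ∃ ρ W : ℝ, 0 < ρ ∧ ∀ c : ℝ, 0 < c → ∃ X0 : ℕ, ∀ P ∈ Sec α, X0 < P.1 →
      (P.2 : ℝ) - θ * P.1 ∈ Set.Ioo (s - ρ) (s + ρ) → W < P.1 * |(P.2 : ℝ) - θ * P.1 - s| →
      c * P.1 ≤ fv (n + 5) h P := by
  obtain ⟨C, hC0, hC⟩ := H.expand_three n θ hv (|s| + 1)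
  set B := gT (n + 5) h θ (n + 2) with hB
  set E := gT (n + 5) h θ (n + 1) with hE
  obtain ⟨L1, hL10, hL1⟩ := poly_lip B s (|s| + 1)
  obtain ⟨L2, hL20, hL2⟩ := poly_lip2 B s (|s| + 1)
  obtain ⟨L3, hL30, hL3⟩ := poly_lip E s (|s| + 1)
  set c0 := B.eval s with hc0
  set c1 := (derivative B).eval s with hc1
  set e2 := E.eval s with he2
  have hu_le : ∀ u : ℝ, |u - s| ≤ 1 → |u| ≤ |s| + 1 := by
    intro u hu
    calc |u| = |(u - s) + s| := by ring_nf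
      _ ≤ |u - s| + |s| := abs_add_le _ _
      _ ≤ |s| + 1 := by linarith
  have he2n := abs_nonneg e2
  have he2l := neg_abs_le e2
  have he2u := le_abs_self e2
  rcases lt_trichotomy c0 0 with hneg | hzero | hpos
  · -- impossible
    exfalso
    set D := 121 * a + 11 * L1 + |e2| + L3 + C with hD
    have hD0 : 0 ≤ D := by positivity
    obtain ⟨X1, hX1⟩ := exists_nat_ge (D / -c0 + 11)
    obtain ⟨P, hP1, hP2, hP3⟩ := hnear X1
    have hxX : (X1 : ℝ) < P.1 := by exact_mod_cast hP2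
    have hc0' : 0 < -c0 := by linarith
    have hdiv : 0 ≤ D / -c0 := by positivity
    have hx1 : (1 : ℝ) ≤ P.1 := by linarith
    have hxpos : (0 : ℝ) < P.1 := by linarith
    have hxD : D < P.1 * -c0 := by
      have h3 : D / -c0 < P.1 := by linarith
      rw [div_lt_iff₀ hc0'] at h3
      exact h3
    set u := (P.2 : ℝ) - θ * P.1 with hu
    have hv1 : |u - s| ≤ 1 := by
      by_contra hcon
      push Not at hcon
      have h4 : (P.1 : ℝ) * 1 < P.1 * |u - s| := mul_lt_mul_of_pos_left hcon hxpos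
      linarith
    have hCP := (abs_le.1 (hC P hx1 (hu_le u hv1))).2
    rw [← hu, hA] at hCP
    have g1 := (abs_le.1 (hL1 u (hu_le u hv1))).2
    have g3 := (abs_le.1 (hL3 u (hu_le u hv1))).2
    have hF := H.fv_nonneg hP1
    have hxn : 0 < (P.1 : ℝ) ^ n := by positivity
    have hxn1 : 0 < (P.1 : ℝ) ^ (n + 1) := by positivity
    have k1 : (P.1 : ℝ) ^ (n + 3) * (a * (u - s) ^ 2) ≤ (P.1 : ℝ) ^ (n + 1) * (121 * a) := by
      have h4 : ((P.1 : ℝ) * |u - s|) ^ 2 ≤ 11 ^ 2 := by gcongr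
      calc (P.1 : ℝ) ^ (n + 3) * (a * (u - s) ^ 2)
          = (P.1 : ℝ) ^ (n + 1) * (a * ((P.1 : ℝ) * |u - s|) ^ 2) := by
            rw [mul_pow, sq_abs]
            ring
        _ ≤ (P.1 : ℝ) ^ (n + 1) * (a * 11 ^ 2) := by gcongr
        _ = (P.1 : ℝ) ^ (n + 1) * (121 * a) := by ring
    have k2 : (P.1 : ℝ) ^ (n + 2) * B.eval u ≤
        (P.1 : ℝ) ^ (n + 1) * (P.1 * c0 + 11 * L1) := by
      have h4 : P.1 * B.eval u ≤ P.1 * c0 + 11 * L1 := by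
        have h5 : (P.1 : ℝ) * B.eval u ≤ P.1 * (c0 + L1 * |u - s|) := by
          gcongr
          linarith
        have h6 : L1 * (P.1 * |u - s|) ≤ L1 * 11 := by gcongr
        linarith
      calc (P.1 : ℝ) ^ (n + 2) * B.eval u = (P.1 : ℝ) ^ (n + 1) * (P.1 * B.eval u) := by ring
        _ ≤ (P.1 : ℝ) ^ (n + 1) * (P.1 * c0 + 11 * L1) := by gcongr
    have k3 : (P.1 : ℝ) ^ (n + 1) * E.eval u ≤ (P.1 : ℝ) ^ (n + 1) * (|e2| + L3) := by
      gcongr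
      have h4 : L3 * |u - s| ≤ L3 := mul_le_of_le_one_right hL30 hv1
      linarith
    have k4 : C * (P.1 : ℝ) ^ n ≤ (P.1 : ℝ) ^ (n + 1) * C := by
      calc C * (P.1 : ℝ) ^ n = (P.1 : ℝ) ^ n * C * 1 := by ring
        _ ≤ (P.1 : ℝ) ^ n * C * P.1 := by gcongr
        _ = (P.1 : ℝ) ^ (n + 1) * C := by ring
    have k5 : (P.1 : ℝ) ^ (n + 1) * (D + P.1 * c0) < 0 := by
      apply mul_neg_of_pos_of_neg hxn1
      linarith
    have k6 : (P.1 : ℝ) ^ (n + 1) * (D + P.1 * c0) = (P.1 : ℝ) ^ (n + 1) * (121 * a) +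
        (P.1 : ℝ) ^ (n + 1) * (P.1 * c0 + 11 * L1) + (P.1 : ℝ) ^ (n + 1) * (|e2| + L3) +
        (P.1 : ℝ) ^ (n + 1) * C := by
      rw [hD]
      ring
    linarith
  · -- the quadratic function of `w`
    obtain ⟨W, hquad⟩ := quad_large (c := c1) (e := e2) ha
      (by positivity : 0 ≤ C + L2 + L3)
    refine ⟨1, W, one_pos, fun c hc => ?_⟩
    obtain ⟨X1, hX1⟩ := hquad c
    refine ⟨X1, fun P hP hx hu hfar => ?_⟩
    have hxp : 0 < P.1 := by omega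
    have hxpos : (0 : ℝ) < P.1 := by exact_mod_cast hxp
    have hx1 : (1 : ℝ) ≤ P.1 := by exact_mod_cast hxp
    set u := (P.2 : ℝ) - θ * P.1 with hudef
    have hv1 : |u - s| ≤ 1 := by
      rw [abs_le]
      constructor <;> linarith [hu.1, hu.2]
    have hCP := abs_le.1 (hC P hx1 (hu_le u hv1))
    rw [← hudef, hA] at hCP
    have g2 := hL2 u (hu_le u hv1)
    have g3 := hL3 u (hu_le u hv1)
    rw [hzero, _root_.sub_zero] at g2
    have g2' := abs_le.1 g2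
    have g3' := abs_le.1 g3
    have hF := H.fv_nonneg hP
    set w := (P.1 : ℝ) * (P.2 - θ * P.1 - s) with hw
    have hwv : w = P.1 * (u - s) := by rw [hw, hudef]
    have hxn : 0 < (P.1 : ℝ) ^ n := by positivity
    have m1 : (P.1 : ℝ) ^ (n + 3) * (a * (u - s) ^ 2) = (P.1 : ℝ) ^ n * (P.1 * (a * w ^ 2)) := by
      rw [hwv]
      ring
    have m2 : (P.1 : ℝ) ^ (n + 2) * (c1 * (u - s)) = (P.1 : ℝ) ^ n * (P.1 * (c1 * w)) := by
      rw [hwv]
      ring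
    have m3 : (P.1 : ℝ) ^ (n + 2) * (L2 * (u - s) ^ 2) = (P.1 : ℝ) ^ n * (L2 * w ^ 2) := by
      rw [hwv]
      ring
    have m4 : (P.1 : ℝ) ^ (n + 1) * (L3 * |u - s|) = (P.1 : ℝ) ^ n * (L3 * |w|) := by
      rw [hwv, abs_mul, abs_of_pos hxpos]
      ring
    have m5 : |w| ≤ 1 + w ^ 2 := by
      rw [← sq_abs w]
      nlinarith [sq_nonneg (|w| - 1), abs_nonneg w]
    have m6 : L3 * |w| ≤ L3 * (1 + w ^ 2) := by gcongr
    have m7 : (P.1 : ℝ) ^ n * (L3 * |w|) ≤ (P.1 : ℝ) ^ n * (L3 * (1 + w ^ 2)) := by gcongr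
    have m8 : (P.1 : ℝ) ^ n * (L2 * w ^ 2) ≤ (P.1 : ℝ) ^ n * (L2 * (1 + w ^ 2)) := by
      gcongr
      linarith
    have m9 : C * (P.1 : ℝ) ^ n ≤ (P.1 : ℝ) ^ n * (C * (1 + w ^ 2)) := by
      have : C * 1 ≤ C * (1 + w ^ 2) := by
        gcongr
        have := sq_nonneg w
        linarith
      calc C * (P.1 : ℝ) ^ n = (P.1 : ℝ) ^ n * (C * 1) := by ring
        _ ≤ (P.1 : ℝ) ^ n * (C * (1 + w ^ 2)) := by gcongr
    -- the terms with `B` and `E`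
    have b1 : (P.1 : ℝ) ^ (n + 2) * B.eval u ≤ (P.1 : ℝ) ^ (n + 2) * (c1 * (u - s)) +
        (P.1 : ℝ) ^ (n + 2) * (L2 * (u - s) ^ 2) := by
      rw [← mul_add]
      gcongr
      linarith
    have b2 : (P.1 : ℝ) ^ (n + 2) * (c1 * (u - s)) -
        (P.1 : ℝ) ^ (n + 2) * (L2 * (u - s) ^ 2) ≤ (P.1 : ℝ) ^ (n + 2) * B.eval u := by
      rw [← mul_sub]
      gcongr
      linarith
    have b3 : (P.1 : ℝ) ^ (n + 1) * E.eval u ≤ (P.1 : ℝ) ^ (n + 1) * e2 +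
        (P.1 : ℝ) ^ (n + 1) * (L3 * |u - s|) := by
      rw [← mul_add]
      gcongr
      linarith
    have b4 : (P.1 : ℝ) ^ (n + 1) * e2 - (P.1 : ℝ) ^ (n + 1) * (L3 * |u - s|) ≤
        (P.1 : ℝ) ^ (n + 1) * E.eval u := by
      rw [← mul_sub]
      gcongr
      linarith
    have b5 : (P.1 : ℝ) ^ (n + 1) * e2 = (P.1 : ℝ) ^ n * (P.1 * e2) := by ring
    have hcase := hX1 P.1 hx w (by
      rw [hwv, abs_mul, abs_of_pos hxpos]
      exact hfar.le)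
    have k1 : (P.1 : ℝ) ^ n * c ≤ (P.1 : ℝ) ^ n * (P.1 * (a * w ^ 2 + c1 * w + e2) -
        (C + L2 + L3) * (1 + w ^ 2)) := by gcongr
    have k2 : (P.1 : ℝ) ^ n * (P.1 * (a * w ^ 2 + c1 * w + e2) -
        (C + L2 + L3) * (1 + w ^ 2)) = (P.1 : ℝ) ^ n * (P.1 * (a * w ^ 2)) +
        (P.1 : ℝ) ^ n * (P.1 * (c1 * w)) + (P.1 : ℝ) ^ n * (P.1 * e2) -
        (P.1 : ℝ) ^ n * (C * (1 + w ^ 2)) - (P.1 : ℝ) ^ n * (L2 * (1 + w ^ 2)) -
        (P.1 : ℝ) ^ n * (L3 * (1 + w ^ 2)) := by ring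
    have k3 : c * P.1 ≤ (P.1 : ℝ) ^ n * c := by
      calc c * (P.1 : ℝ) = (P.1 : ℝ) ^ 1 * c := by ring
        _ ≤ (P.1 : ℝ) ^ n * c := by
            have := pow_le_pow_right₀ hx1 hn
            gcongr
    linarith [hCP.1]
  · -- positive
    set ρ := min 1 (c0 / (2 * (L1 + 1))) with hρ
    have hρ0 : 0 < ρ := by positivity
    refine ⟨ρ, 0, hρ0, fun c hc => ?_⟩
    obtain ⟨X1, hX1⟩ := exists_nat_ge ((|e2| + L3 + C + c) * 2 / c0)
    refine ⟨X1, fun P hP hx hu _ => ?_⟩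
    have hxp : 0 < P.1 := by omega
    have hxpos : (0 : ℝ) < P.1 := by exact_mod_cast hxp
    have hx1 : (1 : ℝ) ≤ P.1 := by exact_mod_cast hxp
    have hxX : (X1 : ℝ) ≤ P.1 := by exact_mod_cast hx.le
    have hxc : |e2| + L3 + C + c ≤ P.1 * (c0 / 2) := by
      rw [div_le_iff₀ hpos] at hX1
      have := mul_le_mul_of_nonneg_right hxX hpos.le
      linarith
    set u := (P.2 : ℝ) - θ * P.1 with hudef
    have hvρ : |u - s| ≤ ρ := by
      rw [abs_le]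
      constructor <;> linarith [hu.1, hu.2]
    have hv1 : |u - s| ≤ 1 := hvρ.trans (min_le_left _ _)
    have hCP := (abs_le.1 (hC P hx1 (hu_le u hv1))).1
    rw [← hudef, hA] at hCP
    have g1 := (abs_le.1 (hL1 u (hu_le u hv1))).1
    have g3 := (abs_le.1 (hL3 u (hu_le u hv1))).1
    have hB2 : c0 / 2 ≤ B.eval u := by
      have h4 : L1 * |u - s| ≤ c0 / 2 := by
        calc L1 * |u - s| ≤ (L1 + 1) * (c0 / (2 * (L1 + 1))) := by
              apply mul_le_mul (by linarith) (hvρ.trans (min_le_right _ _)) (abs_nonneg _)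
                (by positivity)
          _ = c0 / 2 := by field_simp
      linarith
    have hE2 : -(|e2| + L3) ≤ E.eval u := by
      have h4 : L3 * |u - s| ≤ L3 := mul_le_of_le_one_right hL30 hv1
      linarith
    have k1 : (P.1 : ℝ) ^ (n + 2) * (c0 / 2) ≤ (P.1 : ℝ) ^ (n + 2) * B.eval u := by gcongr
    have k2 : (P.1 : ℝ) ^ (n + 1) * -(|e2| + L3) ≤ (P.1 : ℝ) ^ (n + 1) * E.eval u := by gcongr
    have k3 : 0 ≤ (P.1 : ℝ) ^ (n + 3) * (a * (u - s) ^ 2) := by positivity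
    have k4 : C * (P.1 : ℝ) ^ n ≤ (P.1 : ℝ) ^ (n + 1) * C := by
      calc C * (P.1 : ℝ) ^ n = (P.1 : ℝ) ^ n * C * 1 := by ring
        _ ≤ (P.1 : ℝ) ^ n * C * P.1 := by gcongr
        _ = (P.1 : ℝ) ^ (n + 1) * C := by ring
    have k5 : (P.1 : ℝ) ^ (n + 1) * c ≤
        (P.1 : ℝ) ^ (n + 1) * (P.1 * (c0 / 2) - (|e2| + L3) - C) := by
      gcongr
      linarith
    have k6 : (P.1 : ℝ) ^ (n + 1) * (P.1 * (c0 / 2) - (|e2| + L3) - C) =
        (P.1 : ℝ) ^ (n + 2) * (c0 / 2) + (P.1 : ℝ) ^ (n + 1) * -(|e2| + L3) -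
        (P.1 : ℝ) ^ (n + 1) * C := by ring
    have k7 : c * P.1 ≤ (P.1 : ℝ) ^ (n + 1) * c := by
      calc c * (P.1 : ℝ) = (P.1 : ℝ) ^ 1 * c := by ring
        _ ≤ (P.1 : ℝ) ^ (n + 1) * c := by
            have := pow_le_pow_right₀ hx1 (by omega : 1 ≤ n + 1)
            gcongr
    linarith

end PP72
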