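import Pool.Agent.PP72.Dbl5

/-!
Double irrational zeros of the leading form: the final local statement.
-/

open Polynomial Finset Filter

namespace PP72

variable {α : ℝ} {d : ℕ} {h : ℕ → ℝ[X]}

/-- a linear function, for large negative values of `w` -/
theorem lin_large {b e C : ℝ} (hb : b < 0) (hC : 0 ≤ C) : ∃ W : ℝ, ∀ M : ℝ,
    ∃ X1 : ℕ, ∀ x : ℕ, X1 < x → ∀ w : ℝ, w ≤ 0 → W ≤ |w| →
      M ≤ x * (b * w + e) - C * (1 - w) := by
  set t := -e / b with ht
  have htz : b * t + e = 0 := by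
    rw [ht, mul_div_assoc', mul_comm b, mul_div_assoc, div_self hb.ne]
    ring
  have hbw : ∀ w : ℝ, b * w + e = b * (w - t) := by
    intro w
    have : e = -(b * t) := by linarith
    rw [this]
    ring
  set W := 2 * |t| + 2 with hW
  have ht0 := abs_nonneg t
  have hb' : 0 < -b := by linarith
  refine ⟨W, fun M => ?_⟩
  obtain ⟨X3, hX3⟩ := exists_nat_ge ((|M| + C) * 4 / -b)
  refine ⟨X3, fun x hx w hw0 hwW => ?_⟩
  rw [abs_of_nonpos hw0] at hwW
  have hx3 : (X3 : ℝ) ≤ x := by exact_mod_cast hx.le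
  have hxn : (0 : ℝ) ≤ x := Nat.cast_nonneg _
  have h2 : |M| + C ≤ x * (-b / 4) := by
    rw [div_le_iff₀ hb'] at hX3
    have h3 := mul_le_mul_of_nonneg_right hx3 hb'.le
    linarith
  have h3 : -b / 4 * (1 - w) ≤ b * w + e := by
    rw [hbw]
    have h4 : b * (w - t) = -b * (t - w) := by ring
    have h5 : (1 - w) / 4 ≤ t - w := by
      have := neg_abs_le t
      linarith
    rw [h4]
    calc -b / 4 * (1 - w) = -b * ((1 - w) / 4) := by ring
      _ ≤ -b * (t - w) := by gcongr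
  have h1w : 1 ≤ 1 - w := by linarith
  have h4 : (x : ℝ) * (-b / 4 * (1 - w)) ≤ x * (b * w + e) := by gcongr
  have h5 : (|M| + C) * (1 - w) ≤ x * (-b / 4) * (1 - w) := by gcongr
  have h6 : |M| ≤ |M| * (1 - w) := le_mul_of_one_le_right (abs_nonneg _) h1w
  have h7 := le_abs_self M
  linarith

/-- at the boundary, a simple zero of the top polynomial at `0`: away from the line -/
theorem Pk.far_simple (n : ℕ) (H : Pk α (n + 5) h) {a b : ℝ} (ha : 0 ≤ a) (hb : b < 0)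
    (hv : ∀ j, n + 3 < j → j ≤ n + 5 → ∀ u, (gT (n + 5) h α j).eval u = 0)
    (hA : ∀ u, (gT (n + 5) h α (n + 3)).eval u = a * u ^ 2 + b * u) :
    ∃ W : ℝ, ∀ c : ℝ, 0 < c → ∃ X0 : ℕ, ∀ P ∈ Sec α, X0 < P.1 →
      (P.2 : ℝ) - α * P.1 ∈ Set.Ioo (-1) 1 → W < P.1 * |(P.2 : ℝ) - α * P.1| →
      c * P.1 ≤ fv (n + 5) h P := by
  obtain ⟨C, hC0, hC⟩ := H.expand_three n α hv 1
  set B := gT (n + 5) h α (n + 2) with hB
  set E := gT (n + 5) h α (n + 1) with hE
  obtain ⟨L1, hL10, hL1⟩ := poly_lip B 0 1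
  obtain ⟨L3, hL30, hL3⟩ := poly_bdd E 1
  set c0 := B.eval 0 with hc0
  obtain ⟨W, hlin⟩ := lin_large (e := c0) hb (by positivity : 0 ≤ a + L1 + L3 + C)
  refine ⟨W, fun c hc => ?_⟩
  obtain ⟨X1, hX1⟩ := hlin c
  refine ⟨X1, fun P hP hx hu hfar => ?_⟩
  have hxp : 0 < P.1 := by omega
  have hxpos : (0 : ℝ) < P.1 := by exact_mod_cast hxp
  have hx1 : (1 : ℝ) ≤ P.1 := by exact_mod_cast hxp
  have hu0 := sec_u hP
  set u := (P.2 : ℝ) - α * P.1 with hudef
  have hu1 : |u| ≤ 1 := by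
    rw [abs_le]
    constructor <;> linarith [hu.1, hu.2]
  have hCP := abs_le.1 (hC P hx1 hu1)
  rw [← hudef, hA] at hCP
  have g1 := abs_le.1 (hL1 u hu1)
  have g3 := abs_le.1 (hL3 u hu1)
  rw [_root_.sub_zero, abs_of_nonpos hu0] at g1
  have hF := H.fv_nonneg hP
  set w := (P.1 : ℝ) * (P.2 - α * P.1) with hw
  have hwv : w = P.1 * u := by rw [hw, hudef]
  have hw0 : w ≤ 0 := by
    rw [hwv]
    exact mul_nonpos_of_nonneg_of_nonpos hxpos.le hu0
  have hxn1 : 0 < (P.1 : ℝ) ^ (n + 1) := by positivity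
  have m1 : (P.1 : ℝ) ^ (n + 3) * (a * u ^ 2 + b * u) =
      (P.1 : ℝ) ^ (n + 1) * (a * w ^ 2) + (P.1 : ℝ) ^ (n + 1) * (P.1 * (b * w)) := by
    rw [hwv]
    ring
  have m2 : (P.1 : ℝ) ^ (n + 2) * (L1 * -u) = (P.1 : ℝ) ^ (n + 1) * (L1 * -w) := by
    rw [hwv]
    ring
  have m3 : (P.1 : ℝ) ^ (n + 2) * c0 = (P.1 : ℝ) ^ (n + 1) * (P.1 * c0) := by ring
  have b1 : (P.1 : ℝ) ^ (n + 2) * B.eval u ≤ (P.1 : ℝ) ^ (n + 2) * c0 +
      (P.1 : ℝ) ^ (n + 2) * (L1 * -u) := by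
    rw [← mul_add]
    gcongr
    linarith
  have b2 : (P.1 : ℝ) ^ (n + 2) * c0 - (P.1 : ℝ) ^ (n + 2) * (L1 * -u) ≤
      (P.1 : ℝ) ^ (n + 2) * B.eval u := by
    rw [← mul_sub]
    gcongr
    linarith
  have b3 : (P.1 : ℝ) ^ (n + 1) * E.eval u ≤ (P.1 : ℝ) ^ (n + 1) * L3 := by
    gcongr
    linarith
  have b4 : (P.1 : ℝ) ^ (n + 1) * -L3 ≤ (P.1 : ℝ) ^ (n + 1) * E.eval u :=
    mul_le_mul_of_nonneg_left g3.1 hxn1.le
  have b5 : C * (P.1 : ℝ) ^ n ≤ (P.1 : ℝ) ^ (n + 1) * C := by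
    have := pow_le_pow_right₀ hx1 (by omega : n ≤ n + 1)
    rw [mul_comm]
    gcongr
  have hww : 0 ≤ w ^ 2 := sq_nonneg w
  have m5 : -w ≤ 1 + w ^ 2 := by nlinarith [sq_nonneg (w + 1)]
  have hcase := hX1 P.1 hx w hw0 (by
    rw [hwv, abs_mul, abs_of_pos hxpos]
    exact hfar.le)
  have k1 : (P.1 : ℝ) ^ (n + 1) * c ≤ (P.1 : ℝ) ^ (n + 1) * (P.1 * (b * w + c0) -
      (a + L1 + L3 + C) * (1 - w)) := by gcongr
  have k0 : (P.1 : ℝ) ^ (n + 1) * (L1 * -w + L3 + C) ≤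
      (P.1 : ℝ) ^ (n + 1) * ((a + L1 + L3 + C) * (1 - w)) := by
    gcongr
    have hnw : 0 ≤ -w := by linarith
    have t1 : 0 ≤ a * (1 - w) := mul_nonneg ha (by linarith)
    have t2 : 0 ≤ L3 * -w := by positivity
    have t3 : 0 ≤ C * -w := by positivity
    linarith
  have k2 : (P.1 : ℝ) ^ (n + 1) * (P.1 * (b * w + c0) - (a + L1 + L3 + C) * (1 - w)) =
      (P.1 : ℝ) ^ (n + 1) * (P.1 * (b * w)) + (P.1 : ℝ) ^ (n + 1) * (P.1 * c0) -
      (P.1 : ℝ) ^ (n + 1) * ((a + L1 + L3 + C) * (1 - w)) := by ring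
  have k3 : (P.1 : ℝ) ^ (n + 1) * (L1 * -w + L3 + C) =
      (P.1 : ℝ) ^ (n + 1) * (L1 * -w) + (P.1 : ℝ) ^ (n + 1) * L3 +
      (P.1 : ℝ) ^ (n + 1) * C := by ring
  have k4 : 0 ≤ (P.1 : ℝ) ^ (n + 1) * (a * w ^ 2) := by positivity
  have k5 : c * P.1 ≤ (P.1 : ℝ) ^ (n + 1) * c := by
    calc c * (P.1 : ℝ) = (P.1 : ℝ) ^ 1 * c := by ring
      _ ≤ (P.1 : ℝ) ^ (n + 1) * c := by
          have := pow_le_pow_right₀ hx1 (by omega : 1 ≤ n + 1)
          gcongr
  linarith [hCP.1]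

/-- the part of the sector with `y - θ x ∈ S` -/
def Str (α θ : ℝ) (S : Set ℝ) : Set (ℕ × ℕ) := {P | P ∈ Sec α ∧ (P.2 : ℝ) - θ * P.1 ∈ S}

/-- a strip on which `f` grows faster than linearly -/
theorem Big.thin {f : ℕ × ℕ → ℝ} {α θ : ℝ} {S : Set ℝ} (hB : Big f α θ S) {U : ℝ} (hU : 0 ≤ U)
    (hS : ∀ u ∈ S, |u| ≤ U) : Thin f (Str α θ S) := by
  apply thin_superlinear θ U hU
  · rintro P ⟨_, hP⟩
    exact hS _ hP
  · intro c hc
    obtain ⟨X0, hX0⟩ := hB c hc
    exact ⟨X0, fun P hP hx => hX0 P hP.1 hx hP.2⟩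

/-- a strip, away from a line, and around the line -/
theorem Pk.strip_split (H : Pk α d h) (hd2 : 2 ≤ d) (hne : h d ≠ 0) {θ : ℝ} (hirr : Irrational θ)
    {s ρ W : ℝ} (hρ : 0 < ρ)
    (hfar : ∀ c : ℝ, 0 < c → ∃ X0 : ℕ, ∀ P ∈ Sec α, X0 < P.1 →
      (P.2 : ℝ) - θ * P.1 ∈ Set.Ioo (s - ρ) (s + ρ) → W < P.1 * |(P.2 : ℝ) - θ * P.1 - s| →
      c * P.1 ≤ fv d h P)
    (hlog : ∀ U η : ℝ, 0 < η → ∃ X0 : ℕ, ∀ P ∈ Sec α, X0 < P.1 → |(P.2 : ℝ) - θ * P.1| ≤ U →
      Real.log P.1 ^ 2 ≤ η * fv d h P) :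
    Thin (fv d h) (Str α θ (Set.Ioo (s - ρ) (s + ρ))) := by
  have habs : ∀ u ∈ Set.Ioo (s - ρ) (s + ρ), |u| ≤ |s| + ρ := by
    intro u hu
    have h1 := neg_abs_le s
    have h2 := le_abs_self s
    rw [abs_le]
    constructor <;> linarith [hu.1, hu.2]
  have hU : 0 ≤ |s| + ρ := by positivity
  have hsplit : Str α θ (Set.Ioo (s - ρ) (s + ρ)) ⊆
      ({P | P ∈ Str α θ (Set.Ioo (s - ρ) (s + ρ)) ∧ W < P.1 * |(P.2 : ℝ) - θ * P.1 - s|} ∪
        {P | P ∈ Str α θ (Set.Ioo (s - ρ) (s + ρ)) ∧ 0 < P.1 ∧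
          P.1 * |(P.2 : ℝ) - θ * P.1 - s| ≤ W}) ∪ {P | P ∈ Sec α ∧ P.1 ≤ 0} := by
    intro P hP
    by_cases h1 : W < P.1 * |(P.2 : ℝ) - θ * P.1 - s|
    · exact Or.inl (Or.inl ⟨hP, h1⟩)
    · by_cases h2 : 0 < P.1
      · exact Or.inl (Or.inr ⟨hP, h2, not_lt.1 h1⟩)
      · exact Or.inr ⟨hP.1, by omega⟩
  refine Thin.mono (Thin.union (Thin.union ?_ ?_) (thin_finite (finite_x H.pos 0))) hsplit
  · apply thin_superlinear θ (|s| + ρ) hU
    · rintro P ⟨⟨_, hP⟩, _⟩
      exact habs _ hP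
    · intro c hc
      obtain ⟨X0, hX0⟩ := hfar c hc
      exact ⟨X0, fun P hP hx => hX0 P hP.1.1 hx hP.1.2 hP.2⟩
  · apply H.thin_of_log hd2 hne hirr s W
    · rintro P ⟨⟨hP1, _⟩, hP2, hP3⟩
      have hPpos : (0 : ℝ) < P.1 := by exact_mod_cast hP2
      refine ⟨hP1, ?_⟩
      rw [le_div_iff₀ hPpos, mul_comm]
      exact hP3
    · intro η hη
      obtain ⟨X0, hX0⟩ := hlog (|s| + ρ) η hη
      exact ⟨X0, fun P hP hx => hX0 P hP.1.1 hx (habs _ hP.1.2)⟩

/-- **Double irrational zeros of the leading form**, with a logarithmic bound on the strips. -/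
theorem Pk.near_double_log (n : ℕ) (hn : 1 ≤ n) (H : Pk α (n + 5) h) (hne : h (n + 5) ≠ 0)
    {θ : ℝ} (hirr : Irrational θ) (hθ0 : 0 < θ) (hθα : θ ≤ α) (hz : (h (n + 5)).eval θ = 0)
    (hμ : rootMultiplicity θ (h (n + 5)) = 2) (hz1 : (h (n + 4)).eval θ = 0)
    (hlog : ∀ U η : ℝ, 0 < η → ∃ X0 : ℕ, ∀ P ∈ Sec α, X0 < P.1 → |(P.2 : ℝ) - θ * P.1| ≤ U →
      Real.log P.1 ^ 2 ≤ η * fv (n + 5) h P) :
    ∃ ε : ℝ, 0 < ε ∧ Thin (fv (n + 5) h) (Near α θ ε) := by
  obtain ⟨Q, hQ1, hQ2, hQ3, hQ4⟩ := taylor_root (h (n + 5)) hne θ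
  rw [hμ] at hQ3 hQ4
  set a := (taylor θ (h (n + 5))).coeff 2 with ha
  set b := (taylor θ (h (n + 4))).coeff 1 with hb
  set e := (h (n + 3)).eval θ with he
  have ha0 : a ≠ 0 := by
    rw [hQ4]
    exact hQ2
  obtain ⟨hv, hA⟩ := gT_top (K := n + 3) (h := h) (θ := θ) hz (hQ3 1 (by norm_num)) hz1
  -- accessible values
  have hacc : ∀ s : ℝ, (θ = α → s ≤ 0) → ∀ X0 : ℕ, ∃ P ∈ Sec α, X0 < P.1 ∧
      (P.1 : ℝ) * |(P.2 : ℝ) - θ * P.1 - s| ≤ 11 := by
    intro s hs X0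
    rcases hθα.lt_or_eq with hlt | heq
    · obtain ⟨P, h1, h2, h3⟩ := exists_near hirr hθ0 hlt s X0
      exact ⟨P, h1, h2, h3.trans (by norm_num)⟩
    · have h1 := hs heq
      subst heq
      exact exists_near_bd hirr hθ0 s h1 X0
  have hnn : ∀ s : ℝ, (θ = α → s ≤ 0) → 0 ≤ a * s ^ 2 + b * s + e := by
    intro s hs
    by_contra hneg
    push Not at hneg
    refine H.neg_top (θ := θ) (n + 2) (by omega) ?_ s ?_ (hacc s hs)
    · intro j hj1 hj2 u
      exact hv j (by omega) (by omega) u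
    · rw [hA]
      exact hneg
  have hapos : 0 < a := by
    rcases lt_or_gt_of_ne ha0 with hneg | hpos
    · exfalso
      set m := -a with hm
      have hm0 : 0 < m := by rw [hm]; linarith
      set s := -(1 + (|b| + |e|) / m) with hs
      have hq0 : 0 ≤ (|b| + |e|) / m := by positivity
      have h1 := hnn s (fun _ => by rw [hs]; linarith)
      have h2 : |s| = 1 + (|b| + |e|) / m := by
        rw [hs, abs_neg, abs_of_nonneg (by positivity)]
      have h3 : b * s ≤ |b| * |s| := by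
        rw [← abs_mul]
        exact le_abs_self _
      have h4 : e ≤ |e| * |s| := by
        calc e ≤ |e| := le_abs_self _
          _ = |e| * 1 := (mul_one _).symm
          _ ≤ |e| * |s| := by
              gcongr
              linarith
      have h5 : a * s ^ 2 = -(m * |s|) * |s| := by
        rw [hm, ← sq_abs s]
        ring
      have h6 : m * |s| = m + (|b| + |e|) := by
        rw [h2]
        field_simp
      have h7 : 0 < |s| := by rw [h2]; positivity
      have h8 : 0 < m * |s| := by positivity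
      rw [h5, h6] at h1
      have h9 : -(m + (|b| + |e|)) * |s| + |b| * |s| + |e| * |s| = -(m * |s|) := by ring
      linarith
    · exact hpos
  -- the compact part
  set U0 := max 1 (2 * (|b| + |e|) / a) with hU0
  have hU01 : 1 ≤ U0 := le_max_left _ _
  have hU02 : |b| + |e| ≤ a / 2 * U0 := by
    have h1 : 2 * (|b| + |e|) / a ≤ U0 := le_max_right _ _
    rw [div_le_iff₀ hapos] at h1
    linarith
  have hThin : Thin (fv (n + 5) h) (Str α θ (Set.Icc (-U0) U0)) := by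
    refine IsCompact.induction_on (isCompact_Icc (a := -U0) (b := U0))
      (p := fun S => Thin (fv (n + 5) h) (Str α θ S)) ?_ ?_ ?_ ?_
    · apply Thin.mono (thin_empty _)
      rintro P ⟨_, hP⟩
      exact absurd hP (Set.notMem_empty _)
    · intro S T hST hT
      exact hT.mono fun P hP => ⟨hP.1, hST hP.2⟩
    · intro S T h1 h2
      refine (h1.union h2).mono ?_
      rintro P ⟨hP, hu | hu⟩
      · exact Or.inl ⟨hP, hu⟩
      · exact Or.inr ⟨hP, hu⟩
    · intro s _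
      have hnhds : ∀ ρ : ℝ, 0 < ρ → Set.Ioo (s - ρ) (s + ρ) ∈ nhdsWithin s (Set.Icc (-U0) U0) := by
        intro ρ hρ
        exact mem_nhdsWithin_of_mem_nhds (Ioo_mem_nhds (by linarith) (by linarith))
      by_cases hs : θ = α → s ≤ 0
      · rcases (hnn s hs).lt_or_eq with hpos | hzero
        · obtain ⟨ρ, hρ, hB⟩ := H.big_pos n (θ := θ) (s := s) hv (by rw [hA]; exact hpos)
          refine ⟨_, hnhds ρ hρ, hB.thin (U := |s| + ρ) (by positivity) ?_⟩
          intro u hu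
          have h1 := neg_abs_le s
          have h2 := le_abs_self s
          rw [abs_le]
          constructor <;> linarith [hu.1, hu.2]
        · -- a zero of the top polynomial
          have hdouble : (b = -(2 * a * s) ∧ ∀ u : ℝ, a * u ^ 2 + b * u + e = a * (u - s) ^ 2) →
              ∃ t ∈ nhdsWithin s (Set.Icc (-U0) U0), Thin (fv (n + 5) h) (Str α θ t) := by
            rintro ⟨_, hdbl⟩
            obtain ⟨ρ, W, hρ, hB⟩ := H.far_double n hn (θ := θ) (s := s) hapos hv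
              (fun u => by rw [hA]; exact hdbl u) (hacc s hs)
            exact ⟨_, hnhds ρ hρ, H.strip_split (by omega) hne hirr hρ hB hlog⟩
          by_cases hcase : θ = α ∧ s = 0
          · obtain ⟨hθα', hs0⟩ := hcase
            subst hs0
            have he0 : e = 0 := by
              have h1 : a * (0 : ℝ) ^ 2 + b * 0 + e = e := by ring
              rw [h1] at hzero
              exact hzero.symm
            have hb0 : b ≤ 0 := by
              by_contra hbpos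
              push Not at hbpos
              have h1 := hnn (-(b / (2 * a))) (fun _ => by
                have : 0 < b / (2 * a) := by positivity
                linarith)
              have h2 : a * (-(b / (2 * a))) ^ 2 + b * (-(b / (2 * a))) + e =
                  -(b ^ 2 / (4 * a)) := by
                rw [he0]
                field_simp
                ring
              rw [h2] at h1
              have h3 : 0 < b ^ 2 / (4 * a) := by positivity
              linarith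
            rcases hb0.lt_or_eq with hblt | hbeq
            · subst hθα'
              obtain ⟨W, hB⟩ := H.far_simple n hapos.le hblt hv (fun u => by
                rw [hA]
                change a * u ^ 2 + b * u + e = a * u ^ 2 + b * u
                rw [he0]
                ring)
              refine ⟨_, hnhds 1 one_pos, H.strip_split (W := W) (by omega) hne hirr one_pos ?_
                hlog⟩
              intro c hc
              obtain ⟨X0, hX0⟩ := hB c hc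
              refine ⟨X0, fun P hP hx hu hW => hX0 P hP hx ?_ ?_⟩
              · rw [zero_sub, zero_add] at hu
                exact hu
              · rw [_root_.sub_zero] at hW
                exact hW
            · apply hdouble
              refine ⟨by rw [hbeq]; ring, fun u => ?_⟩
              rw [hbeq, he0]
              ring
          · apply hdouble
            -- `s` is an interior point of the set of accessible values
            obtain ⟨r, hr, hrs⟩ : ∃ r : ℝ, 0 < r ∧ (θ = α → s + r ≤ 0) := by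
              by_cases h1 : θ = α
              · have h2 : s ≠ 0 := fun h3 => hcase ⟨h1, h3⟩
                have h3 : s < 0 := lt_of_le_of_ne (hs h1) h2
                exact ⟨-s, by linarith, fun _ => by linarith⟩
              · exact ⟨1, one_pos, fun h2 => absurd h2 h1⟩
            apply quad_double hapos hr hzero.symm
            intro u hu
            apply hnn u
            intro h1
            have h2 := (abs_le.1 hu).2
            have h3 := hrs h1
            linarith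
      · -- no points
        push Not at hs
        obtain ⟨h1, h2⟩ := hs
        refine ⟨Set.Ioi 0, mem_nhdsWithin_of_mem_nhds (Ioi_mem_nhds h2), ?_⟩
        apply Thin.mono (thin_empty _)
        rintro P ⟨hP, hu⟩
        exfalso
        rw [h1] at hu
        have h3 := sec_u hP
        have h4 : 0 < (P.2 : ℝ) - α * P.1 := hu
        linarith
  -- the unbounded part
  obtain ⟨ε, hε, hε1, x0, hx0, hlow⟩ := low_terms' (n + 3) 2 (gT (n + 5) h θ) (by
    intro j
    exact gT_natDegree_le θ j) (a / 32) (by positivity)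
  obtain ⟨X1, hX1⟩ := exists_nat_ge x0
  refine ⟨ε, hε, ?_⟩
  have hsplit : Near α θ ε ⊆
      ({P | P ∈ Sec α ∧ |(P.2 : ℝ) - θ * P.1| ≤ U0} ∪
        {P | P ∈ Near α θ ε ∧ X1 ≤ P.1 ∧ U0 < |(P.2 : ℝ) - θ * P.1|}) ∪
      {P | P ∈ Sec α ∧ P.1 ≤ X1} := by
    intro P hP
    by_cases h1 : |(P.2 : ℝ) - θ * P.1| ≤ U0
    · exact Or.inl (Or.inl ⟨hP.1, h1⟩)
    · by_cases h2 : X1 ≤ P.1
      · exact Or.inl (Or.inr ⟨hP, h2, not_le.1 h1⟩)
      · exact Or.inr ⟨hP.1, by omega⟩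
  refine Thin.mono (Thin.union (Thin.union ?_ ?_) (thin_finite (finite_x H.pos X1))) hsplit
  · refine hThin.mono ?_
    rintro P ⟨hP1, hP2⟩
    exact ⟨hP1, abs_le.1 hP2⟩
  · apply thin_of_bound θ (a / 8) (by positivity)
    rintro P ⟨hP1, hP2, hP3⟩
    have hx : x0 ≤ (P.1 : ℝ) := hX1.trans (by exact_mod_cast hP2)
    have hx1 : (1 : ℝ) ≤ P.1 := hx0.trans hx
    obtain ⟨_, hus⟩ := near_abs hP1
    have h1 := (abs_le.1 (hlow P.1 _ hx hus)).1
    rw [fv_taylor H.deg θ, Finset.sum_range_succ, Finset.sum_range_succ, Finset.sum_range_succ,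
      hv (n + 5) (by omega) (by omega), hv (n + 4) (by omega) (by omega), hA, mul_zero, mul_zero,
      add_zero, add_zero]
    set u := (P.2 : ℝ) - θ * P.1 with hu
    have hu1 : 1 ≤ |u| := hU01.trans hP3.le
    have hux : |u| ≤ P.1 := by
      have hxn : (0 : ℝ) ≤ P.1 := by linarith
      calc |u| ≤ ε * P.1 := hus
        _ ≤ 1 * P.1 := by gcongr
        _ = P.1 := one_mul _
    have husq : |u| * |u| = u ^ 2 := by rw [← sq, sq_abs]
    have hu2 : 1 ≤ u ^ 2 := by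
      rw [← husq]
      calc (1 : ℝ) = 1 * 1 := by norm_num
        _ ≤ |u| * |u| := by gcongr
    -- the top polynomial
    have hAu : a / 2 * u ^ 2 ≤ a * u ^ 2 + b * u + e := by
      have h2 : |b| + |e| ≤ a / 2 * |u| := hU02.trans (by gcongr)
      have h3 : -(|b| * |u|) ≤ b * u := by
        rw [← abs_mul]
        exact neg_abs_le _
      have h4 : -|e| ≤ e := neg_abs_le e
      have h5 : |e| ≤ |e| * |u| := le_mul_of_one_le_right (abs_nonneg _) hu1
      have h6 : (|b| + |e|) * |u| ≤ a / 2 * |u| * |u| :=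
        mul_le_mul_of_nonneg_right h2 (abs_nonneg _)
      have h7 : a / 2 * |u| * |u| = a / 2 * u ^ 2 := by rw [mul_assoc, husq]
      linarith
    have h2 : a / 32 * ((P.1 : ℝ) ^ (n + 3) * (1 + |u|) ^ 2) ≤
        (P.1 : ℝ) ^ (n + 3) * (a / 8 * u ^ 2) := by
      have h3 : (1 + |u|) ^ 2 ≤ 4 * u ^ 2 := by
        calc (1 + |u|) ^ 2 ≤ (|u| + |u|) ^ 2 := by gcongr
          _ = 4 * (|u| * |u|) := by ring
          _ = 4 * u ^ 2 := by rw [husq]
      calc a / 32 * ((P.1 : ℝ) ^ (n + 3) * (1 + |u|) ^ 2)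
          ≤ a / 32 * ((P.1 : ℝ) ^ (n + 3) * (4 * u ^ 2)) := by gcongr
        _ = (P.1 : ℝ) ^ (n + 3) * (a / 8 * u ^ 2) := by ring
    have h3 : (P.1 : ℝ) ^ (n + 3) * (a / 2 * u ^ 2) ≤
        (P.1 : ℝ) ^ (n + 3) * (a * u ^ 2 + b * u + e) := by gcongr
    have h4 : (P.1 : ℝ) ^ 2 ≤ (P.1 : ℝ) ^ (n + 3) := pow_le_pow_right₀ hx1 (by omega)
    have h5 : (P.1 : ℝ) ^ 2 ≤ (P.1 : ℝ) ^ (n + 3) * u ^ 2 := by
      calc (P.1 : ℝ) ^ 2 = (P.1 : ℝ) ^ 2 * 1 := (mul_one _).symm
        _ ≤ (P.1 : ℝ) ^ (n + 3) * u ^ 2 := by gcongr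
    have h6 : |u| ^ 3 ≤ (P.1 : ℝ) ^ (n + 3) * u ^ 2 := by
      calc |u| ^ 3 = |u| * (|u| * |u|) := by ring
        _ = |u| * u ^ 2 := by rw [husq]
        _ ≤ P.1 * u ^ 2 := by gcongr
        _ ≤ (P.1 : ℝ) ^ (n + 3) * u ^ 2 := by
            gcongr
            calc (P.1 : ℝ) = (P.1 : ℝ) ^ 1 := (pow_one _).symm
              _ ≤ (P.1 : ℝ) ^ (n + 3) := pow_le_pow_right₀ hx1 (by omega)
    have h7 : a / 8 * ((P.1 : ℝ) ^ 2 + |u| ^ 3) ≤
        a / 8 * (2 * ((P.1 : ℝ) ^ (n + 3) * u ^ 2)) := by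
      gcongr
      linarith
    have h8 : 0 ≤ (P.1 : ℝ) ^ (n + 3) * u ^ 2 := by positivity
    have h9 : 0 ≤ a * ((P.1 : ℝ) ^ (n + 3) * u ^ 2) := by positivity
    linarith

end PP72
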