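import Pool.Agent.PP72.Boundary
import Pool.Agent.PP72.Aux4

/-!
Common zeros of the two top forms at which the third form does not vanish: the quadratic
`x² A(t) + x B(t) + E(t)`.
-/

open Polynomial Finset Filter

namespace PP72

variable {α : ℝ} {d : ℕ} {h : ℕ → ℝ[X]}

/-- the lower forms -/
theorem low_sum (K : ℕ) (h : ℕ → ℝ[X]) (a b : ℝ) : ∃ S : ℝ, 0 ≤ S ∧ ∀ t ∈ Set.Icc a b,
    ∀ x : ℝ, 1 ≤ x → |∑ k ∈ range K, x ^ k * (h k).eval t| * x ≤ S * x ^ K := by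
  have hb : ∀ k : ℕ, ∃ B : ℝ, 0 ≤ B ∧ ∀ t ∈ Set.Icc a b, |(h k).eval t| ≤ B := by
    intro k
    obtain ⟨B, hB⟩ := (isCompact_Icc (a := a) (b := b)).exists_bound_of_continuousOn
      (h k).continuous.continuousOn
    refine ⟨max B 0, le_max_right _ _, fun t ht => ?_⟩
    exact (hB t ht).trans (le_max_left _ _)
  choose B hB0 hB using hb
  refine ⟨∑ k ∈ range K, B k, Finset.sum_nonneg fun k _ => hB0 k, fun t ht x hx => ?_⟩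
  have hx0 : 0 ≤ x := by linarith
  rw [Finset.sum_mul]
  refine le_trans (mul_le_mul_of_nonneg_right (Finset.abs_sum_le_sum_abs _ _) hx0) ?_
  rw [Finset.sum_mul]
  refine Finset.sum_le_sum fun k hk => ?_
  rw [abs_mul, abs_of_nonneg (pow_nonneg hx0 k), mul_comm (x ^ k) _, mul_assoc, ← pow_succ]
  apply mul_le_mul (hB k t ht) _ (pow_nonneg hx0 _) (hB0 k)
  apply pow_le_pow_right₀ hx
  have := mem_range.1 hk
  omega

/-- the values at the lattice points of the sector -/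
theorem Pk.fv_top (K : ℕ) (H : Pk α (K + 2) h) {P : ℕ × ℕ} (hx : 0 < P.1) :
    fv (K + 2) h P = (P.1 : ℝ) ^ K * ((P.1 : ℝ) ^ 2 * (h (K + 2)).eval ((P.2 : ℝ) / P.1) +
      (P.1 : ℝ) * (h (K + 1)).eval ((P.2 : ℝ) / P.1) + (h K).eval ((P.2 : ℝ) / P.1)) +
      ∑ k ∈ range K, (P.1 : ℝ) ^ k * (h k).eval ((P.2 : ℝ) / P.1) := by
  have hx' : (P.1 : ℝ) ≠ 0 := by exact_mod_cast hx.ne'
  have hval : fv (K + 2) h P = ∑ k ∈ range (K + 2 + 1), (P.1 : ℝ) ^ k *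
      (h k).eval ((P.2 : ℝ) / P.1) := ev_eq H.deg hx'
  rw [hval, Finset.sum_range_succ, Finset.sum_range_succ, Finset.sum_range_succ]
  ring

/-- a lower bound for the quadratic gives thinness -/
theorem Pk.thin_of_quad (K : ℕ) (hK : 3 ≤ K) (H : Pk α (K + 2) h) (θ ε c : ℝ) (hε : 0 < ε)
    (hc : 0 < c) (hq : ∀ t ∈ Set.Icc 0 α, |t - θ| < ε → ∀ x : ℝ, 0 ≤ x →
      c ≤ x ^ 2 * (h (K + 2)).eval t + x * (h (K + 1)).eval t + (h K).eval t) :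
    ∃ ε : ℝ, 0 < ε ∧ Thin (fv (K + 2) h) (Near α θ ε) := by
  obtain ⟨S, hS0, hS⟩ := low_sum K h 0 α
  obtain ⟨x1, hx1⟩ := exists_nat_ge (2 * S / c)
  refine ⟨ε, hε, ?_⟩
  have hsplit : Near α θ ε ⊆ {P | P ∈ Near α θ ε ∧ x1 + 1 ≤ P.1} ∪
      {P | P ∈ Sec α ∧ P.1 ≤ x1} := by
    intro P hP
    by_cases h1 : x1 + 1 ≤ P.1
    · exact Or.inl ⟨hP, h1⟩
    · exact Or.inr ⟨hP.1, by omega⟩
  refine Thin.mono (Thin.union ?_ (thin_finite (finite_x H.pos x1))) hsplit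
  apply thin_of_bound 0 (c / 2 / (1 + α ^ 3)) (by have := H.pos; positivity)
  rintro P ⟨⟨hP1, hP2, hP3⟩, hP4⟩
  have hxpos : (0 : ℝ) < P.1 := by exact_mod_cast hP2
  have hx1' : (1 : ℝ) ≤ P.1 := by exact_mod_cast hP2
  have hxx : (x1 : ℝ) ≤ P.1 := by exact_mod_cast (by omega : x1 ≤ P.1)
  have ht : (P.2 : ℝ) / P.1 ∈ Set.Icc 0 α := by
    refine ⟨by positivity, ?_⟩
    rw [div_le_iff₀ hxpos]
    exact hP1
  have h1 := hq _ ht hP3 P.1 hxpos.le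
  have h2 := hS _ ht P.1 hx1'
  rw [H.fv_top K hP2]
  have h3 : S ≤ c / 2 * P.1 := by
    rw [div_le_iff₀ hc] at hx1
    have := mul_le_mul_of_nonneg_left hxx hc.le
    linarith
  set R := ∑ k ∈ range K, (P.1 : ℝ) ^ k * (h k).eval ((P.2 : ℝ) / P.1) with hR
  have h4 : |R| ≤ c / 2 * (P.1 : ℝ) ^ K := by
    have h5 : |R| * P.1 ≤ (c / 2 * (P.1 : ℝ) ^ K) * P.1 := by
      calc |R| * P.1 ≤ S * (P.1 : ℝ) ^ K := h2
        _ ≤ (c / 2 * P.1) * (P.1 : ℝ) ^ K := by gcongr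
        _ = _ := by ring
    exact le_of_mul_le_mul_right h5 hxpos
  have h5 := (abs_le.1 h4).1
  have h6 := mul_le_mul_of_nonneg_left h1 (pow_nonneg hxpos.le K)
  have h7 : (P.1 : ℝ) ^ 3 ≤ (P.1 : ℝ) ^ K := pow_le_pow_right₀ hx1' hK
  have h8 : (P.1 : ℝ) ^ 2 ≤ (P.1 : ℝ) ^ 3 := pow_le_pow_right₀ hx1' (by norm_num)
  have h9 : |(P.2 : ℝ) - 0 * P.1| ^ 3 ≤ α ^ 3 * (P.1 : ℝ) ^ 3 := by
    rw [zero_mul, sub_zero, abs_of_nonneg (Nat.cast_nonneg _), ← mul_pow]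
    have : (P.2 : ℝ) ≤ α * P.1 := hP1
    gcongr
  have hα := H.pos
  have h10 : c / 2 / (1 + α ^ 3) * ((P.1 : ℝ) ^ 2 + |(P.2 : ℝ) - 0 * P.1| ^ 3) ≤
      c / 2 * (P.1 : ℝ) ^ 3 := by
    have h11 : (P.1 : ℝ) ^ 2 + |(P.2 : ℝ) - 0 * P.1| ^ 3 ≤ (1 + α ^ 3) * (P.1 : ℝ) ^ 3 := by
      linarith
    calc c / 2 / (1 + α ^ 3) * ((P.1 : ℝ) ^ 2 + |(P.2 : ℝ) - 0 * P.1| ^ 3)
        ≤ c / 2 / (1 + α ^ 3) * ((1 + α ^ 3) * (P.1 : ℝ) ^ 3) := by gcongr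
      _ = _ := by field_simp
  have h12 : c / 2 * (P.1 : ℝ) ^ 3 ≤ c / 2 * (P.1 : ℝ) ^ K := by gcongr
  linarith

end PP72
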