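import Pool.Agent.PP72.Disc

/-!
The quadratic `x² A(t) + x B(t) + E(t)` on one side of a direction.
-/

open Polynomial Finset Filter

namespace PP72

theorem near_const (f : ℝ[X]) (θ σ s : ℝ) (hs : 0 < f.eval θ * s) : ∃ ε : ℝ, 0 < ε ∧
    ∀ τ, 0 ≤ τ → τ < ε → f.eval θ * s / 2 < f.eval (θ + σ * τ) * s ∧
      f.eval (θ + σ * τ) * s < 2 * (f.eval θ * s) := by
  have hcont : Continuous fun τ : ℝ => f.eval (θ + σ * τ) * s := by
    have := f.continuous
    fun_prop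
  have hopen : IsOpen {τ : ℝ | f.eval θ * s / 2 < f.eval (θ + σ * τ) * s ∧
      f.eval (θ + σ * τ) * s < 2 * (f.eval θ * s)} :=
    (isOpen_lt continuous_const hcont).inter (isOpen_lt hcont continuous_const)
  have h0 : (0 : ℝ) ∈ {τ : ℝ | f.eval θ * s / 2 < f.eval (θ + σ * τ) * s ∧
      f.eval (θ + σ * τ) * s < 2 * (f.eval θ * s)} := by
    simp only [Set.mem_setOf_eq, mul_zero, add_zero]
    constructor <;> linarith
  obtain ⟨r, hr, hball⟩ := Metric.isOpen_iff.1 hopen 0 h0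
  refine ⟨r, hr, fun τ hτ0 hτ => hball ?_⟩
  rw [Metric.mem_ball, Real.dist_eq, sub_zero, abs_of_nonneg hτ0]
  exact hτ

theorem eval_side {A Q : ℝ[X]} {θ : ℝ} {μ : ℕ} (h : A = (X - C θ) ^ μ * Q) (σ τ : ℝ) :
    A.eval (θ + σ * τ) = τ ^ μ * (Q.eval (θ + σ * τ) * σ ^ μ) := by
  conv_lhs => rw [h]
  rw [eval_mul, eval_pow, eval_sub, eval_X, eval_C]
  have e1 : θ + σ * τ - θ = σ * τ := by ring
  rw [e1, mul_pow]
  ring

theorem side_or (A B E : ℝ[X]) (θ σ τ0 : ℝ) (hσ : σ = 1 ∨ σ = -1) (hτ0 : 0 < τ0) (hA : A ≠ 0)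
    (hAnn : ∀ τ, 0 < τ → τ ≤ τ0 → 0 ≤ A.eval (θ + σ * τ)) (hE : 0 < E.eval θ)
    (hΔ : ¬ (X - C θ) ^ (rootMultiplicity θ A + 1) ∣ B ^ 2 - 4 * A * E) :
    (∃ ε c : ℝ, 0 < ε ∧ 0 < c ∧ ∀ τ, 0 < τ → τ < ε → ∀ x : ℝ, 0 ≤ x →
      c ≤ x ^ 2 * A.eval (θ + σ * τ) + x * B.eval (θ + σ * τ) + E.eval (θ + σ * τ)) ∨
    (∃ ε c C' : ℝ, 0 < ε ∧ 0 < c ∧ 0 < C' ∧ ∀ τ, 0 < τ → τ < ε →
      B.eval (θ + σ * τ) < 0 ∧ 0 < A.eval (θ + σ * τ) ∧
      A.eval (θ + σ * τ) ≤ C' * τ ^ (rootMultiplicity θ A) ∧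
      E.eval θ / 2 < E.eval (θ + σ * τ) ∧
      4 * c * A.eval (θ + σ * τ) ≤
        (B.eval (θ + σ * τ)) ^ 2 - 4 * A.eval (θ + σ * τ) * E.eval (θ + σ * τ)) := by
  have hσp : ∀ n : ℕ, σ ^ n ≠ 0 := by
    intro n
    rcases hσ with h1 | h1 <;> rw [h1]
    · simp
    · exact pow_ne_zero _ (by norm_num)
  obtain ⟨QA, hQA1, hQA2, _, hQA4⟩ := taylor_root A hA θ
  have hsA := taylor_sign A hA θ σ τ0 hσ hτ0 hAnn
  rw [hQA4] at hsA
  set μ := rootMultiplicity θ A with hμ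
  set D := B ^ 2 - 4 * A * E with hD
  have hD0 : D ≠ 0 := by
    intro h0
    rw [h0] at hΔ
    exact hΔ (dvd_zero _)
  obtain ⟨QD, hQD1, hQD2, _, _⟩ := taylor_root D hD0 θ
  have hκ : rootMultiplicity θ D ≤ μ := by
    by_contra hcon
    push Not at hcon
    exact hΔ ((pow_dvd_pow _ hcon).trans (pow_rootMultiplicity_dvd D θ))
  set κ := rootMultiplicity θ D with hκdef
  have hDe : ∀ t : ℝ, D.eval t = (B.eval t) ^ 2 - 4 * A.eval t * E.eval t := by
    intro t
    rw [hD]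
    simp
  obtain ⟨ε1, hε1, h1⟩ := near_const QA θ σ (σ ^ μ) hsA
  obtain ⟨ε2, hε2, h2⟩ := near_const E θ σ 1 (by linarith)
  set sA := QA.eval θ * σ ^ μ with hsAdef
  rcases lt_trichotomy (QD.eval θ * σ ^ κ) 0 with hneg | hzero | hpos
  · -- definite
    left
    obtain ⟨ε3, hε3, h3⟩ := near_const QD θ σ (-σ ^ κ) (by linarith)
    set sD := QD.eval θ * -σ ^ κ with hsD
    have hsD0 : 0 < sD := by rw [hsD]; linarith
    refine ⟨min (min ε1 ε3) 1, sD / (16 * sA), by positivity, by positivity, ?_⟩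
    intro τ hτ hτε x _
    have hτ1 := h1 τ hτ.le (hτε.trans_le ((min_le_left _ _).trans (min_le_left _ _)))
    have hτ3 := h3 τ hτ.le (hτε.trans_le ((min_le_left _ _).trans (min_le_right _ _)))
    have hτle : τ ≤ 1 := (hτε.trans_le (min_le_right _ _)).le
    have eA := eval_side hQA1 σ τ
    have eD := eval_side hQD1 σ τ
    rw [hDe] at eD
    have hτμ : 0 < τ ^ μ := pow_pos hτ _
    have hτκ : τ ^ μ ≤ τ ^ κ := pow_le_pow_of_le_one hτ.le hτle hκ
    have hApos : 0 < A.eval (θ + σ * τ) := by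
      rw [eA]
      have : 0 < QA.eval (θ + σ * τ) * σ ^ μ := by linarith [hτ1.1]
      positivity
    have hAle : A.eval (θ + σ * τ) ≤ τ ^ μ * (2 * sA) := by
      rw [eA]
      exact mul_le_mul_of_nonneg_left hτ1.2.le hτμ.le
    have hDle : (B.eval (θ + σ * τ)) ^ 2 - 4 * A.eval (θ + σ * τ) * E.eval (θ + σ * τ) ≤
        -(τ ^ μ * (sD / 2)) := by
      rw [eD]
      have h5 : QD.eval (θ + σ * τ) * σ ^ κ ≤ -(sD / 2) := by linarith [hτ3.1]
      calc τ ^ κ * (QD.eval (θ + σ * τ) * σ ^ κ) ≤ τ ^ κ * -(sD / 2) :=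
            mul_le_mul_of_nonneg_left h5 (pow_nonneg hτ.le _)
        _ = -(τ ^ κ * (sD / 2)) := by ring
        _ ≤ -(τ ^ μ * (sD / 2)) := by
            have := mul_le_mul_of_nonneg_right hτκ (by linarith : (0 : ℝ) ≤ sD / 2)
            linarith
    have hc : 4 * (sD / (16 * sA)) * A.eval (θ + σ * τ) ≤ τ ^ μ * (sD / 2) := by
      calc 4 * (sD / (16 * sA)) * A.eval (θ + σ * τ) ≤ 4 * (sD / (16 * sA)) * (τ ^ μ * (2 * sA)) := by
            gcongr
        _ = τ ^ μ * (sD / 2) := by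
            field_simp
            ring
    set a := A.eval (θ + σ * τ) with ha
    set b := B.eval (θ + σ * τ) with hb
    set e := E.eval (θ + σ * τ) with he
    set c := sD / (16 * sA) with hcdef
    have hkey : 0 ≤ 4 * a * (x ^ 2 * a + x * b + e - c) := by
      have h6 : 4 * a * (x ^ 2 * a + x * b + e - c) =
          (2 * a * x + b) ^ 2 - (b ^ 2 - 4 * a * e) - 4 * c * a := by ring
      rw [h6]
      have h7 := sq_nonneg (2 * a * x + b)
      linarith
    have h8 := nonneg_of_mul_nonneg_right hkey (by positivity)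
    linarith
  · exfalso
    rcases mul_eq_zero.1 hzero with h0 | h0
    · exact hQD2 h0
    · exact hσp _ h0
  · -- indefinite
    obtain ⟨ε3, hε3, h3⟩ := near_const QD θ σ (σ ^ κ) hpos
    set sD := QD.eval θ * σ ^ κ with hsD
    have hmain : ∀ τ, 0 < τ → τ < min (min (min ε1 ε2) ε3) 1 → 0 < A.eval (θ + σ * τ) ∧
        A.eval (θ + σ * τ) ≤ 2 * sA * τ ^ μ ∧ E.eval θ / 2 < E.eval (θ + σ * τ) ∧
        4 * (sD / (16 * sA)) * A.eval (θ + σ * τ) ≤
          (B.eval (θ + σ * τ)) ^ 2 - 4 * A.eval (θ + σ * τ) * E.eval (θ + σ * τ) := by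
      intro τ hτ hτε
      have hτ1 := h1 τ hτ.le (hτε.trans_le
        ((min_le_left _ _).trans ((min_le_left _ _).trans (min_le_left _ _))))
      have hτ2 := h2 τ hτ.le (hτε.trans_le
        ((min_le_left _ _).trans ((min_le_left _ _).trans (min_le_right _ _))))
      have hτ3 := h3 τ hτ.le (hτε.trans_le ((min_le_left _ _).trans (min_le_right _ _)))
      have hτle : τ ≤ 1 := (hτε.trans_le (min_le_right _ _)).le
      have eA := eval_side hQA1 σ τ
      have eD := eval_side hQD1 σ τ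
      rw [hDe] at eD
      have hτμ : 0 < τ ^ μ := pow_pos hτ _
      have hτκ : τ ^ μ ≤ τ ^ κ := pow_le_pow_of_le_one hτ.le hτle hκ
      have hApos : 0 < A.eval (θ + σ * τ) := by
        rw [eA]
        have : 0 < QA.eval (θ + σ * τ) * σ ^ μ := by linarith [hτ1.1]
        positivity
      have hAle : A.eval (θ + σ * τ) ≤ τ ^ μ * (2 * sA) := by
        rw [eA]
        exact mul_le_mul_of_nonneg_left hτ1.2.le hτμ.le
      refine ⟨hApos, by linarith, by linarith [hτ2.1], ?_⟩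
      rw [eD]
      calc 4 * (sD / (16 * sA)) * A.eval (θ + σ * τ) ≤
          4 * (sD / (16 * sA)) * (τ ^ μ * (2 * sA)) := by gcongr
        _ = τ ^ μ * (sD / 2) := by
            field_simp
            ring
        _ ≤ τ ^ κ * (sD / 2) := mul_le_mul_of_nonneg_right hτκ (by linarith)
        _ ≤ τ ^ κ * (QD.eval (θ + σ * τ) * σ ^ κ) :=
            mul_le_mul_of_nonneg_left hτ3.1.le (pow_nonneg hτ.le _)
    have hB0 : B ≠ 0 := by
      rintro rfl
      set τ := min (min (min ε1 ε2) ε3) 1 / 2 with hτ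
      have hτpos : 0 < min (min (min ε1 ε2) ε3) 1 := by positivity
      obtain ⟨g1, g2, g3, g4⟩ := hmain τ (by linarith) (by linarith)
      rw [eval_zero] at g4
      have g5 : 0 < 4 * (sD / (16 * sA)) * A.eval (θ + σ * τ) := by positivity
      have g6 : 0 ≤ 4 * A.eval (θ + σ * τ) * E.eval (θ + σ * τ) := by
        have : 0 < E.eval (θ + σ * τ) := by linarith
        positivity
      linarith
    obtain ⟨QB, hQB1, hQB2, _, _⟩ := taylor_root B hB0 θ
    set ν := rootMultiplicity θ B with hν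
    rcases lt_trichotomy (QB.eval θ * σ ^ ν) 0 with hBn | hBz | hBp
    · right
      obtain ⟨ε4, hε4, h4⟩ := near_const QB θ σ (-σ ^ ν) (by linarith)
      refine ⟨min (min (min (min ε1 ε2) ε3) 1) ε4, sD / (16 * sA), 2 * sA, by positivity,
        by positivity, by positivity, ?_⟩
      intro τ hτ hτε
      obtain ⟨g1, g2, g3, g4⟩ := hmain τ hτ (hτε.trans_le (min_le_left _ _))
      refine ⟨?_, g1, g2, g3, g4⟩
      have hτ4 := h4 τ hτ.le (hτε.trans_le (min_le_right _ _))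
      rw [eval_side hQB1 σ τ]
      have h5 : QB.eval (θ + σ * τ) * σ ^ ν < 0 := by linarith [hτ4.1]
      exact mul_neg_of_pos_of_neg (pow_pos hτ _) h5
    · exfalso
      rcases mul_eq_zero.1 hBz with h0 | h0
      · exact hQB2 h0
      · exact hσp _ h0
    · left
      obtain ⟨ε4, hε4, h4⟩ := near_const QB θ σ (σ ^ ν) hBp
      refine ⟨min (min (min (min ε1 ε2) ε3) 1) ε4, E.eval θ / 2, by positivity,
        by positivity, ?_⟩
      intro τ hτ hτε x hx
      obtain ⟨g1, g2, g3, g4⟩ := hmain τ hτ (hτε.trans_le (min_le_left _ _))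
      have hτ4 := h4 τ hτ.le (hτε.trans_le (min_le_right _ _))
      have hB : 0 < B.eval (θ + σ * τ) := by
        rw [eval_side hQB1 σ τ]
        have h5 : 0 < QB.eval (θ + σ * τ) * σ ^ ν := by linarith [hτ4.1]
        exact mul_pos (pow_pos hτ _) h5
      have h6 : 0 ≤ x ^ 2 * A.eval (θ + σ * τ) := by positivity
      have h7 : 0 ≤ x * B.eval (θ + σ * τ) := by positivity
      linarith

end PP72
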