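import Pool.Agent.PP72.Disc2

/-!
An indefinite quadratic `x² A(t) + x B(t) + E(t)` contradicts the packing property.
-/

open Polynomial Finset Filter

namespace PP72

variable {α : ℝ} {d : ℕ} {h : ℕ → ℝ[X]}

/-- lattice points with slope close to `θ`, on a given side -/
theorem exists_side_slope {θ σ τ0 : ℝ} (hσ : σ = 1 ∨ σ = -1) (hτ0 : 0 < τ0)
    (hside : ∀ τ, 0 < τ → τ ≤ τ0 → θ + σ * τ ∈ Set.Icc 0 α) (x : ℕ) (hx : 1 ≤ x)
    (hx0 : 1 / τ0 ≤ x) : ∃ y : ℕ, ∃ τ : ℝ, 0 < τ ∧ τ ≤ 1 / x ∧ (y : ℝ) / x = θ + σ * τ := by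
  have hxpos : (0 : ℝ) < x := by exact_mod_cast hx
  have hxne : (x : ℝ) ≠ 0 := hxpos.ne'
  have hinv : 1 / (x : ℝ) ≤ τ0 := by
    rw [div_le_iff₀ hτ0] at hx0
    rw [div_le_iff₀ hxpos]
    linarith
  have hgen : ∀ z : ℤ, ∀ τ : ℝ, 0 < τ → τ ≤ 1 / x → (z : ℝ) / x = θ + σ * τ →
      ∃ y : ℕ, ∃ τ : ℝ, 0 < τ ∧ τ ≤ 1 / x ∧ (y : ℝ) / x = θ + σ * τ := by
    intro z τ hτ hτ1 hz
    have h1 := (hside τ hτ (hτ1.trans hinv)).1
    rw [← hz] at h1
    have h2 : (0 : ℝ) ≤ z := by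
      by_contra hcon
      push Not at hcon
      exact absurd h1 (not_le.2 (div_neg_of_neg_of_pos hcon hxpos))
    have h3 : 0 ≤ z := by exact_mod_cast h2
    obtain ⟨y, hy⟩ := Int.eq_ofNat_of_zero_le h3
    refine ⟨y, τ, hτ, hτ1, ?_⟩
    rw [← hz, hy]
    push_cast
    rfl
  rcases hσ with rfl | rfl
  · apply hgen (⌊θ * x⌋ + 1) (((⌊θ * x⌋ + 1 : ℤ) : ℝ) / x - θ)
    · have h1 := Int.lt_floor_add_one (θ * x)
      rw [sub_pos, lt_div_iff₀ hxpos]
      push_cast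
      exact h1
    · have h1 := Int.floor_le (θ * x)
      rw [sub_le_iff_le_add, div_le_iff₀ hxpos]
      push_cast
      have : (1 / (x : ℝ) + θ) * x = 1 + θ * x := by field_simp
      rw [this]
      linarith
    · ring
  · apply hgen (⌈θ * x⌉ - 1) (θ - ((⌈θ * x⌉ - 1 : ℤ) : ℝ) / x)
    · have h1 := Int.ceil_lt_add_one (θ * x)
      rw [sub_pos, div_lt_iff₀ hxpos]
      push_cast
      linarith
    · have h1 := Int.le_ceil (θ * x)
      rw [sub_le_iff_le_add, ← sub_le_iff_le_add', le_div_iff₀ hxpos]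
      push_cast
      have : (θ - 1 / (x : ℝ)) * x = θ * x - 1 := by field_simp
      rw [this]
      linarith
    · ring

/-- the case of a zero of order at least three -/
theorem Pk.no_indef (K : ℕ) (H : Pk α (K + 2) h) {θ σ τ0 : ℝ} (hσ : σ = 1 ∨ σ = -1)
    (hτ0 : 0 < τ0) (hside : ∀ τ, 0 < τ → τ ≤ τ0 → θ + σ * τ ∈ Set.Icc 0 α) (μ : ℕ) (hμ : 3 ≤ μ)
    (hE : 0 < (h K).eval θ) {ε c C' : ℝ} (hε : 0 < ε) (hc : 0 < c) (hC : 0 < C')
    (hind : ∀ τ, 0 < τ → τ < ε →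
      (h (K + 1)).eval (θ + σ * τ) < 0 ∧ 0 < (h (K + 2)).eval (θ + σ * τ) ∧
      (h (K + 2)).eval (θ + σ * τ) ≤ C' * τ ^ μ ∧
      (h K).eval θ / 2 < (h K).eval (θ + σ * τ) ∧
      4 * c * (h (K + 2)).eval (θ + σ * τ) ≤ ((h (K + 1)).eval (θ + σ * τ)) ^ 2 -
        4 * (h (K + 2)).eval (θ + σ * τ) * (h K).eval (θ + σ * τ)) : False := by
  obtain ⟨S, hS0, hS⟩ := low_sum K h 0 α
  set e0 := (h K).eval θ / 2 with he0
  have he0pos : 0 < e0 := by positivity
  obtain ⟨x, hx⟩ := exists_nat_gt (1 / τ0 + 1 / ε + C' / e0 + 2 * C' / c + 2 * S / c + 1)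
  have p1 : 0 ≤ 1 / τ0 := by positivity
  have p2 : 0 ≤ 1 / ε := by positivity
  have p3 : 0 ≤ C' / e0 := by positivity
  have p4 : 0 ≤ 2 * C' / c := by positivity
  have p5 : 0 ≤ 2 * S / c := by positivity
  have hx1 : (1 : ℝ) ≤ x := by linarith
  have hx1' : 1 ≤ x := by exact_mod_cast hx1
  have hxpos : (0 : ℝ) < x := by linarith
  obtain ⟨y, τ, hτ, hτx, hy⟩ := exists_side_slope hσ hτ0 hside x hx1' (by linarith)
  have hτε : τ < ε := by
    have h1 : 1 / ε < x := by linarith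
    rw [div_lt_iff₀ hε] at h1
    have h2 : 1 / (x : ℝ) < ε := by
      rw [div_lt_iff₀ hxpos]
      linarith
    linarith
  obtain ⟨hB, hA, hAC, hEe, hD⟩ := hind τ hτ hτε
  rw [← hy] at hB hA hAC hEe hD
  have hτ0' : τ ≤ τ0 := by
    have h1 : 1 / τ0 ≤ x := by linarith
    rw [div_le_iff₀ hτ0] at h1
    have h2 : 1 / (x : ℝ) ≤ τ0 := by
      rw [div_le_iff₀ hxpos]
      linarith
    linarith
  have ht := hside τ hτ hτ0'
  rw [← hy] at ht
  set a := (h (K + 2)).eval ((y : ℝ) / x) with ha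
  set b := (h (K + 1)).eval ((y : ℝ) / x) with hb
  set e := (h K).eval ((y : ℝ) / x) with he
  -- `a` is small
  have hτ1 : τ ≤ 1 := hτx.trans (by rw [div_le_iff₀ hxpos]; linarith)
  have haC : a * (x : ℝ) ^ 3 ≤ C' := by
    have h1 : τ ^ μ ≤ τ ^ 3 := pow_le_pow_of_le_one hτ.le hτ1 hμ
    have h2 : τ ^ 3 ≤ (1 / (x : ℝ)) ^ 3 := by gcongr
    have h3 : a ≤ C' * (1 / (x : ℝ)) ^ 3 := hAC.trans (by gcongr; linarith)
    calc a * (x : ℝ) ^ 3 ≤ (C' * (1 / (x : ℝ)) ^ 3) * (x : ℝ) ^ 3 := by gcongr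
      _ = C' := by field_simp
  -- the vertex
  set x0 := -b / (2 * a) with hx0
  have hx0a : 2 * a * x0 = -b := by rw [hx0]; field_simp
  have hx0x : (x : ℝ) ≤ x0 := by
    have h1 : e0 ≤ a * x0 ^ 2 := by
      have h2 : a * (4 * a * x0 ^ 2) = b ^ 2 := by
        calc a * (4 * a * x0 ^ 2) = (2 * a * x0) ^ 2 := by ring
          _ = b ^ 2 := by rw [hx0a]; ring
      have h3 : a * (4 * e0) ≤ a * (4 * a * x0 ^ 2) := by
        rw [h2]
        have h4 : 0 ≤ 4 * c * a := by positivity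
        have h5 : a * e0 ≤ a * e := mul_le_mul_of_nonneg_left hEe.le hA.le
        linarith
      have h4 := le_of_mul_le_mul_left h3 hA
      linarith
    by_contra hcon
    push Not at hcon
    have hx00 : 0 ≤ x0 := by
      rw [hx0]
      apply div_nonneg _ (by positivity)
      linarith
    have h2 : x0 ^ 2 ≤ (x : ℝ) ^ 2 := by gcongr
    have h3 : e0 * x ≤ C' := by
      calc e0 * x ≤ (a * x0 ^ 2) * x := by gcongr
        _ ≤ (a * (x : ℝ) ^ 2) * x := by gcongr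
        _ = a * (x : ℝ) ^ 3 := by ring
        _ ≤ C' := haC
    have h4 : C' / e0 < x := by linarith
    rw [div_lt_iff₀ he0pos] at h4
    linarith
  -- the multiple
  set j := ⌊x0 / x⌋₊ with hj
  have hx00 : 0 < x0 := by linarith
  have hj1 : (j : ℝ) * x ≤ x0 := by
    have := Nat.floor_le (by positivity : 0 ≤ x0 / x)
    rwa [le_div_iff₀ hxpos] at this
  have hj2 : x0 < (j : ℝ) * x + x := by
    have := Nat.lt_floor_add_one (x0 / x)
    rw [div_lt_iff₀ hxpos] at this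
    rw [← hj] at this
    linarith
  have hj0 : 1 ≤ j := by
    apply Nat.le_floor
    rw [le_div_iff₀ hxpos]
    push_cast
    linarith
  have hj0' : (1 : ℝ) ≤ j := by exact_mod_cast hj0
  set X := (j : ℝ) * x with hX
  have hXx : (x : ℝ) ≤ X := by
    rw [hX]
    have := mul_le_mul_of_nonneg_right hj0' hxpos.le
    linarith
  have hXpos : 0 < X := by linarith
  -- the value
  have hquad : X ^ 2 * a + X * b + e ≤ -(c / 2) := by
    have h1 : X ^ 2 * a + X * b + e = a * (X - x0) ^ 2 - (a * x0 ^ 2 - e) := by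
      have : b = -(2 * a * x0) := by linarith
      rw [this]
      ring
    have h2 : a * (X - x0) ^ 2 ≤ c / 2 := by
      have h3 : (X - x0) ^ 2 ≤ (x : ℝ) ^ 2 := by
        apply sq_le_sq'
        · linarith
        · linarith
      have h4 : a * (X - x0) ^ 2 ≤ a * (x : ℝ) ^ 2 := mul_le_mul_of_nonneg_left h3 hA.le
      have h5 : a * (x : ℝ) ^ 2 * x ≤ c / 2 * x := by
        have h6 : 2 * C' / c < x := by linarith
        rw [div_lt_iff₀ hc] at h6
        have h7 : a * (x : ℝ) ^ 2 * x = a * (x : ℝ) ^ 3 := by ring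
        rw [h7]
        linarith
      exact h4.trans (le_of_mul_le_mul_right h5 hxpos)
    have h3 : c ≤ a * x0 ^ 2 - e := by
      have h4 : a * (4 * c) ≤ a * (4 * (a * x0 ^ 2 - e)) := by
        have h5 : a * (4 * (a * x0 ^ 2 - e)) = (2 * a * x0) ^ 2 - 4 * a * e := by ring
        rw [h5, hx0a]
        have h6 : (-b) ^ 2 = b ^ 2 := by ring
        rw [h6]
        linarith
      have h5 := le_of_mul_le_mul_left h4 hA
      linarith
    rw [h1]
    linarith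
  have hP : (j * x, j * y) ∈ Sec α := by
    have h1 : (x, y) ∈ Sec α := by
      change (y : ℝ) ≤ α * x
      have := ht.2
      rwa [div_le_iff₀ hxpos] at this
    exact sec_smul h1 j
  have hjx : 0 < j * x := Nat.mul_pos (by omega) (by omega)
  have hslope : (((j * y : ℕ) : ℝ)) / ((j * x : ℕ) : ℝ) = (y : ℝ) / x := by
    push_cast
    have : (j : ℝ) ≠ 0 := by linarith
    field_simp
  have hval := H.fv_top K (P := (j * x, j * y)) hjx
  change fv (K + 2) h (j * x, j * y) = (((j * x : ℕ) : ℝ)) ^ K *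
    ((((j * x : ℕ) : ℝ)) ^ 2 * (h (K + 2)).eval ((((j * y : ℕ) : ℝ)) / ((j * x : ℕ) : ℝ)) +
      (((j * x : ℕ) : ℝ)) * (h (K + 1)).eval ((((j * y : ℕ) : ℝ)) / ((j * x : ℕ) : ℝ)) +
      (h K).eval ((((j * y : ℕ) : ℝ)) / ((j * x : ℕ) : ℝ))) +
      ∑ k ∈ range K, (((j * x : ℕ) : ℝ)) ^ k *
        (h k).eval ((((j * y : ℕ) : ℝ)) / ((j * x : ℕ) : ℝ)) at hval
  have hcastX : ((j * x : ℕ) : ℝ) = X := by
    rw [hX]
    push_cast
    ring
  rw [hslope, hcastX] at hval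
  have hnn := H.fv_nonneg hP
  have hlow := hS _ ht X (hx1.trans hXx)
  set R := ∑ k ∈ range K, X ^ k * (h k).eval ((y : ℝ) / x) with hR
  have hXK : 0 < X ^ K := pow_pos hXpos _
  have h1 : R * X ≤ S * X ^ K := by
    have := mul_le_mul_of_nonneg_right (le_abs_self R) hXpos.le
    linarith
  have h2 : X ^ K * (X ^ 2 * a + X * b + e) ≤ X ^ K * (-(c / 2)) :=
    mul_le_mul_of_nonneg_left hquad hXK.le
  have h3 : S < c / 2 * X := by
    have h4 : 2 * S / c < x := by linarith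
    rw [div_lt_iff₀ hc] at h4
    have h5 := mul_le_mul_of_nonneg_left hXx hc.le
    linarith
  have h4 : R < X ^ K * (c / 2) := by
    by_contra hcon
    push Not at hcon
    have h5 := mul_le_mul_of_nonneg_right hcon hXpos.le
    have h6 := mul_lt_mul_of_pos_right h3 hXK
    linarith
  rw [hval] at hnn
  linarith

end PP72
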