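import Pool.Agent.PP72.Disc3

/-!
Directions at which the two top forms vanish and the third does not.
-/

open Polynomial Finset Filter

namespace PP72

variable {α : ℝ} {d : ℕ} {h : ℕ → ℝ[X]}

theorem exists_zero' (hα0 : 0 < α) {θ : ℝ} (hθ : θ ∈ Set.Icc 0 α) (X0 : ℕ) :
    ∃ P ∈ Sec α, X0 < P.1 ∧ (P.1 : ℝ) * |(P.2 : ℝ) - θ * P.1 - 0| ≤ 11 := by
  by_cases hirr : Irrational θ
  · have h0 : 0 < θ := lt_of_le_of_ne hθ.1 (by
      rintro rfl
      exact hirr ⟨0, by simp⟩)
    rcases hθ.2.lt_or_eq with hlt | heq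
    · obtain ⟨P, h1, h2, h3⟩ := exists_near hirr h0 hlt 0 X0
      exact ⟨P, h1, h2, h3.trans (by norm_num)⟩
    · rw [heq] at hirr h0 ⊢
      exact exists_near_bd hirr h0 0 le_rfl X0
  · obtain ⟨r, hr⟩ : ∃ r : ℚ, (r : ℝ) = θ := by
      unfold Irrational at hirr
      push Not at hirr
      exact hirr
    have hr0 : (0 : ℚ) ≤ r := by
      have := hθ.1
      rw [← hr] at this
      exact_mod_cast this
    have hrα : (r : ℝ) ≤ α := by
      rw [hr]
      exact hθ.2
    obtain ⟨hv, h2⟩ := rat_slope hr0 hrα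
    refine ⟨((X0 + 1) * r.den, (X0 + 1) * r.num.toNat), sec_smul hv (X0 + 1), ?_, ?_⟩
    · have := r.den_pos
      change X0 < (X0 + 1) * r.den
      nlinarith
    · rw [← hr, h2]
      have hden : ((r.den : ℕ) : ℝ) ≠ 0 := by exact_mod_cast r.den_pos.ne'
      have e : (((((X0 + 1) * r.den, (X0 + 1) * r.num.toNat) : ℕ × ℕ).2 : ℕ) : ℝ) -
          ((r.num.toNat : ℕ) : ℝ) / ((r.den : ℕ) : ℝ) *
          (((((X0 + 1) * r.den, (X0 + 1) * r.num.toNat) : ℕ × ℕ).1 : ℕ) : ℝ) - 0 = 0 := by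
        push_cast
        field_simp
        ring
      rw [e, abs_zero, mul_zero]
      norm_num

/-- the three top polynomials in `u = y - θ x` at a zero of order two -/
theorem gT_top {K : ℕ} {θ : ℝ} (h0 : (h (K + 2)).eval θ = 0)
    (h1 : (taylor θ (h (K + 2))).coeff 1 = 0) (h2 : (h (K + 1)).eval θ = 0) :
    (∀ j, K < j → j ≤ K + 2 → ∀ u, (gT (K + 2) h θ j).eval u = 0) ∧
    ∀ u, (gT (K + 2) h θ K).eval u = (taylor θ (h (K + 2))).coeff 2 * u ^ 2 +
      (taylor θ (h (K + 1))).coeff 1 * u + (h K).eval θ := by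
  constructor
  · intro j hj1 hj2 u
    rcases (by omega : j = K + 1 ∨ j = K + 2) with rfl | rfl
    · have hd : (gT (K + 2) h θ (K + 1)).natDegree ≤ 1 := by
        have := gT_natDegree_le (d := K + 2) (h := h) θ (K + 1)
        omega
      rw [Polynomial.eval_eq_sum_range' (Nat.lt_succ_of_le hd)]
      simp only [Finset.sum_range_succ, Finset.sum_range_zero, pow_zero, pow_one, zero_add,
        mul_one, gT_coeff]
      rw [if_pos (by omega), if_pos (by omega)]
      have e1 : 1 + (K + 1) = K + 2 := by ring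
      have e0 : 0 + (K + 1) = K + 1 := by ring
      rw [e1, h1, taylor_coeff_zero]
      rw [h2]
      ring
    · have hd : (gT (K + 2) h θ (K + 2)).natDegree ≤ 0 := by
        have := gT_natDegree_le (d := K + 2) (h := h) θ (K + 2)
        omega
      rw [eq_C_of_natDegree_le_zero hd, eval_C, gT_coeff, if_pos (by omega), zero_add,
        taylor_coeff_zero, h0]
  · intro u
    have hd : (gT (K + 2) h θ K).natDegree ≤ 2 := by
      have := gT_natDegree_le (d := K + 2) (h := h) θ K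
      omega
    rw [Polynomial.eval_eq_sum_range' (Nat.lt_succ_of_le hd)]
    simp only [Finset.sum_range_succ, Finset.sum_range_zero, pow_zero, pow_one, zero_add,
      mul_one, gT_coeff]
    rw [if_pos (by omega), if_pos (by omega), if_pos (by omega)]
    have e1 : 1 + K = K + 1 := by ring
    have e2 : 2 + K = K + 2 := by ring
    rw [e1, e2, taylor_coeff_zero]
    ring

/-- the third form is nonnegative where the second vanishes and the first has a multiple zero -/
theorem Pk.third_nonneg (K : ℕ) (hK : 1 ≤ K) (H : Pk α (K + 2) h) {θ : ℝ} (hθ : θ ∈ Set.Icc 0 α)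
    (h0 : (h (K + 2)).eval θ = 0) (h1 : (taylor θ (h (K + 2))).coeff 1 = 0)
    (h2 : (h (K + 1)).eval θ = 0) : 0 ≤ (h K).eval θ := by
  by_contra hneg
  push Not at hneg
  obtain ⟨g1, g2⟩ := gT_top h0 h1 h2
  obtain ⟨m, rfl⟩ : ∃ m, K = m + 1 := ⟨K - 1, by omega⟩
  refine H.neg_top (θ := θ) m (by omega) ?_ 0 ?_ (exists_zero' H.pos hθ)
  · intro j hj1 hj2 u
    exact g1 j hj1 hj2 u
  · rw [g2]
    simp only [ne_eq, OfNat.ofNat_ne_zero, not_false_eq_true, zero_pow, mul_zero, zero_add]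
    exact hneg

end PP72
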