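import Pool.Agent.PP72.Disc4

/-!
Directions at which the two top forms vanish and the third is positive.
-/

open Polynomial Finset Filter

namespace PP72

variable {α : ℝ} {d : ℕ} {h : ℕ → ℝ[X]}

theorem nonneg_at_zero (g : ℝ → ℝ) (hg : Continuous g) (ε : ℝ) (hε : 0 < ε)
    (h : ∀ τ, 0 < τ → τ < ε → 0 ≤ g τ) : 0 ≤ g 0 := by
  by_contra hneg
  push Not at hneg
  have hopen : IsOpen {τ : ℝ | g τ < 0} := isOpen_lt hg continuous_const
  obtain ⟨r, hr, hball⟩ := Metric.isOpen_iff.1 hopen 0 hneg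
  have hτpos : 0 < min ε r / 2 := by positivity
  have hτε : min ε r / 2 < ε := by
    have := min_le_left ε r
    linarith
  have h1 : g (min ε r / 2) < 0 := by
    apply hball
    rw [Metric.mem_ball, Real.dist_eq, sub_zero, abs_of_pos hτpos]
    have := min_le_right ε r
    linarith
  have := h _ hτpos hτε
  linarith

/-- the case of order at most two at an irrational direction -/
theorem Pk.no_indef2 (K : ℕ) (hK : 1 ≤ K) (H : Pk α (K + 2) h) (hne : h (K + 2) ≠ 0) {θ σ τ0 : ℝ}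
    (hσ : σ = 1 ∨ σ = -1) (hτ0 : 0 < τ0)
    (hside : ∀ τ, 0 < τ → τ ≤ τ0 → θ + σ * τ ∈ Set.Icc 0 α) (hθ : θ ∈ Set.Icc 0 α)
    (hirr : Irrational θ) (h0 : (h (K + 2)).eval θ = 0) (h1 : (h (K + 1)).eval θ = 0)
    (hμ : rootMultiplicity θ (h (K + 2)) ≤ 2)
    (hE : 0 < (h K).eval θ) {ε c C' : ℝ} (hε : 0 < ε) (hc : 0 < c)
    (hind : ∀ τ, 0 < τ → τ < ε →
      (h (K + 1)).eval (θ + σ * τ) < 0 ∧ 0 < (h (K + 2)).eval (θ + σ * τ) ∧
      (h (K + 2)).eval (θ + σ * τ) ≤ C' * τ ^ (rootMultiplicity θ (h (K + 2))) ∧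
      (h K).eval θ / 2 < (h K).eval (θ + σ * τ) ∧
      4 * c * (h (K + 2)).eval (θ + σ * τ) ≤ ((h (K + 1)).eval (θ + σ * τ)) ^ 2 -
        4 * (h (K + 2)).eval (θ + σ * τ) * (h K).eval (θ + σ * τ)) : False := by
  have hθ0 : 0 < θ := lt_of_le_of_ne hθ.1 (by
    rintro rfl
    exact hirr ⟨0, by simp⟩)
  obtain ⟨Q, hQ1, hQ2, hQ3, hQ4⟩ := taylor_root (h (K + 2)) hne θ
  have hsA := taylor_sign (h (K + 2)) hne θ σ τ0 hσ hτ0 (fun τ hτ1 hτ2 =>
    H.lead_nonneg (by omega) _ (hside τ hτ1 hτ2))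
  rw [hQ4] at hsA
  have hμ1 : 0 < rootMultiplicity θ (h (K + 2)) := (rootMultiplicity_pos hne).2 h0
  obtain ⟨B1, hB1⟩ : ∃ B1, h (K + 1) = (X - C θ) * B1 := dvd_iff_isRoot.2 h1
  have hσ2 : σ ^ 2 = 1 := by
    rcases hσ with h2 | h2 <;> simp [h2]
  have eB : ∀ τ : ℝ, (h (K + 1)).eval (θ + σ * τ) = τ * (B1.eval (θ + σ * τ) * σ) := by
    intro τ
    have hB2 : h (K + 1) = (X - C θ) ^ 1 * B1 := by rw [pow_one]; exact hB1
    have := eval_side hB2 σ τ
    rw [pow_one, pow_one] at this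
    exact this
  have eA := fun τ => eval_side hQ1 σ τ
  rcases (by omega : rootMultiplicity θ (h (K + 2)) = 1 ∨ rootMultiplicity θ (h (K + 2)) = 2)
    with hm | hm
  · rw [hm] at eA hsA hind
    simp only [pow_one] at eA hsA hind
    have hg := nonneg_at_zero (fun τ => τ * (B1.eval (θ + σ * τ)) ^ 2 -
      4 * c * (Q.eval (θ + σ * τ) * σ)) (by
        have g1 := B1.continuous
        have g2 := Q.continuous
        fun_prop) ε hε (by
      intro τ hτ hτε
      obtain ⟨g1, g2, g3, g4, g5⟩ := hind τ hτ hτε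
      have hEpos : 0 < (h K).eval (θ + σ * τ) := by linarith
      have g6 : 0 ≤ 4 * (h (K + 2)).eval (θ + σ * τ) * (h K).eval (θ + σ * τ) := by positivity
      have g7 : 4 * c * (h (K + 2)).eval (θ + σ * τ) ≤ ((h (K + 1)).eval (θ + σ * τ)) ^ 2 := by
        linarith
      rw [eA, eB] at g7
      have g8 : τ * (4 * c * (Q.eval (θ + σ * τ) * σ)) ≤
          τ * (τ * (B1.eval (θ + σ * τ)) ^ 2) := by
        have e1 : (τ * (B1.eval (θ + σ * τ) * σ)) ^ 2 =
            τ * (τ * (B1.eval (θ + σ * τ)) ^ 2) * σ ^ 2 := by ring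
        rw [e1, hσ2, mul_one] at g7
        linarith
      have g9 := le_of_mul_le_mul_left g8 hτ
      change 0 ≤ τ * (B1.eval (θ + σ * τ)) ^ 2 - 4 * c * (Q.eval (θ + σ * τ) * σ)
      linarith)
    simp only [mul_zero, add_zero, zero_mul, zero_sub] at hg
    have : 0 < 4 * c * (Q.eval θ * σ) := by positivity
    linarith
  · rw [hm] at eA hsA hind hQ4
    rw [hσ2, mul_one] at hsA
    simp only [hσ2, mul_one] at eA
    set a := Q.eval θ with ha
    set b := B1.eval θ with hb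
    set e := (h K).eval θ with he
    have hdisc : 0 ≤ b ^ 2 - 4 * a * e - 4 * c * a := by
      have hg := nonneg_at_zero (fun τ => (B1.eval (θ + σ * τ)) ^ 2 -
        4 * Q.eval (θ + σ * τ) * (h K).eval (θ + σ * τ) - 4 * c * Q.eval (θ + σ * τ)) (by
          have g1 := B1.continuous
          have g2 := Q.continuous
          have g3 := (h K).continuous
          fun_prop) ε hε (by
        intro τ hτ hτε
        obtain ⟨g1, g2, g3, g4, g5⟩ := hind τ hτ hτε
        rw [eA, eB] at g5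
        have g8 : τ ^ 2 * (4 * c * Q.eval (θ + σ * τ)) ≤
            τ ^ 2 * ((B1.eval (θ + σ * τ)) ^ 2 -
              4 * Q.eval (θ + σ * τ) * (h K).eval (θ + σ * τ)) := by
          have e1 : (τ * (B1.eval (θ + σ * τ) * σ)) ^ 2 =
              τ ^ 2 * (B1.eval (θ + σ * τ)) ^ 2 * σ ^ 2 := by ring
          rw [e1, hσ2, mul_one] at g5
          linarith
        have g9 := le_of_mul_le_mul_left g8 (by positivity)
        change 0 ≤ (B1.eval (θ + σ * τ)) ^ 2 -
          4 * Q.eval (θ + σ * τ) * (h K).eval (θ + σ * τ) - 4 * c * Q.eval (θ + σ * τ)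
        linarith)
      simp only [mul_zero, add_zero] at hg
      exact hg
    have hσb : 0 ≤ -(b * σ) := by
      have hg := nonneg_at_zero (fun τ => -(B1.eval (θ + σ * τ) * σ)) (by
          have g1 := B1.continuous
          fun_prop) ε hε (by
        intro τ hτ hτε
        obtain ⟨g1, _⟩ := hind τ hτ hτε
        rw [eB] at g1
        have g2 : B1.eval (θ + σ * τ) * σ < 0 := by
          by_contra hcon
          push Not at hcon
          have := mul_nonneg hτ.le hcon
          linarith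
        change 0 ≤ -(B1.eval (θ + σ * τ) * σ)
        linarith)
      simp only [mul_zero, add_zero] at hg
      exact hg
    have hac : 0 < 4 * a * e := by positivity
    have hca : 0 < 4 * c * a := by positivity
    have hu0 : 0 ≤ σ * (-b / (2 * a)) := by
      have : σ * (-b / (2 * a)) = -(b * σ) / (2 * a) := by ring
      rw [this]
      positivity
    have hb1 : (taylor θ (h (K + 1))).coeff 1 = b := by
      rw [hB1, taylor_mul, map_sub, taylor_X, taylor_C]
      have e1 : (X + C θ - C θ : ℝ[X]) = X := by ring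
      rw [e1, show (1 : ℕ) = 0 + 1 from rfl, coeff_X_mul, taylor_coeff_zero]
    obtain ⟨g1, g2⟩ := gT_top h0 (hQ3 1 (by omega)) h1
    obtain ⟨m, rfl⟩ : ∃ m, K = m + 1 := ⟨K - 1, by omega⟩
    refine H.neg_top (θ := θ) m (by omega) ?_ (-b / (2 * a)) ?_ ?_
    · intro j hj1 hj2 u
      exact g1 j hj1 hj2 u
    · rw [g2, hQ4, hb1]
      have e1 : a * (-b / (2 * a)) ^ 2 + b * (-b / (2 * a)) + e =
          -(b ^ 2 - 4 * a * e) / (4 * a) := by
        field_simp
        ring
      rw [← he, e1]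
      apply div_neg_of_neg_of_pos _ (by positivity)
      linarith
    · intro X0
      rcases hθ.2.lt_or_eq with hlt | heq
      · obtain ⟨P, p1, p2, p3⟩ := exists_near hirr hθ0 hlt (-b / (2 * a)) X0
        exact ⟨P, p1, p2, p3.trans (by norm_num)⟩
      · have hσ' : σ = -1 := by
          rcases hσ with h2 | h2
          · exfalso
            have := (hside τ0 hτ0 le_rfl).2
            rw [h2] at this
            linarith
          · exact h2
        rw [hσ'] at hu0
        subst heq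
        exact exists_near_bd hirr hθ0 _ (by linarith) X0

/-- the third form is positive and the discriminant vanishes to a small order -/
theorem Pk.near_disc (K : ℕ) (hK : 3 ≤ K) (H : Pk α (K + 2) h) (hne : h (K + 2) ≠ 0) {θ : ℝ}
    (hθ : θ ∈ Set.Icc 0 α) (h0 : (h (K + 2)).eval θ = 0) (h1 : (h (K + 1)).eval θ = 0)
    (hE : 0 < (h K).eval θ)
    (hΔ : ¬ (X - C θ) ^ (rootMultiplicity θ (h (K + 2)) + 1) ∣
      h (K + 1) ^ 2 - 4 * h (K + 2) * h K)
    (hμ : Irrational θ ∨ 3 ≤ rootMultiplicity θ (h (K + 2))) :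
    ∃ ε : ℝ, 0 < ε ∧ Thin (fv (K + 2) h) (Near α θ ε) := by
  have hone : ∀ σ τ0 : ℝ, (σ = 1 ∨ σ = -1) → 0 < τ0 →
      (∀ τ, 0 < τ → τ ≤ τ0 → θ + σ * τ ∈ Set.Icc 0 α) →
      ∃ ε c : ℝ, 0 < ε ∧ 0 < c ∧ ∀ τ, 0 < τ → τ < ε → ∀ x : ℝ, 0 ≤ x →
        c ≤ x ^ 2 * (h (K + 2)).eval (θ + σ * τ) + x * (h (K + 1)).eval (θ + σ * τ) +
          (h K).eval (θ + σ * τ) := by
    intro σ τ0 hσ hτ0 hside
    rcases side_or (h (K + 2)) (h (K + 1)) (h K) θ σ τ0 hσ hτ0 hne (fun τ hτ1 hτ2 =>
      H.lead_nonneg (by omega) _ (hside τ hτ1 hτ2)) hE hΔ with hgood | ⟨ε, c, C', hε, hc, hC, hind⟩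
    · exact hgood
    · exfalso
      rcases Nat.lt_or_ge (rootMultiplicity θ (h (K + 2))) 3 with hlt | hge
      · have hirr : Irrational θ := by
          rcases hμ with h2 | h2
          · exact h2
          · omega
        exact H.no_indef2 K (by omega) hne hσ hτ0 hside hθ hirr h0 h1 (by omega) hE hε hc hind
      · exact H.no_indef K hσ hτ0 hside _ hge hE hε hc hC hind
  have hplus : ∃ ε c : ℝ, 0 < ε ∧ 0 < c ∧ ∀ t ∈ Set.Icc 0 α, θ < t → t - θ < ε →
      ∀ x : ℝ, 0 ≤ x → c ≤ x ^ 2 * (h (K + 2)).eval t + x * (h (K + 1)).eval t +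
        (h K).eval t := by
    rcases hθ.2.lt_or_eq with hlt | heq
    · obtain ⟨ε, c, hε, hc, hg⟩ := hone 1 (α - θ) (Or.inl rfl) (by linarith) (by
        intro τ hτ1 hτ2
        have := hθ.1
        constructor <;> linarith)
      refine ⟨ε, c, hε, hc, fun t ht htθ htε x hx => ?_⟩
      have := hg (t - θ) (by linarith) htε x hx
      rw [one_mul, add_sub_cancel] at this
      exact this
    · refine ⟨1, 1, one_pos, one_pos, fun t ht htθ _ _ _ => ?_⟩
      exfalso
      have := ht.2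
      linarith
  have hminus : ∃ ε c : ℝ, 0 < ε ∧ 0 < c ∧ ∀ t ∈ Set.Icc 0 α, t < θ → θ - t < ε →
      ∀ x : ℝ, 0 ≤ x → c ≤ x ^ 2 * (h (K + 2)).eval t + x * (h (K + 1)).eval t +
        (h K).eval t := by
    rcases hθ.1.lt_or_eq with hlt | heq
    · obtain ⟨ε, c, hε, hc, hg⟩ := hone (-1) θ (Or.inr rfl) hlt (by
        intro τ hτ1 hτ2
        have := hθ.2
        constructor <;> linarith)
      refine ⟨ε, c, hε, hc, fun t ht htθ htε x hx => ?_⟩
      have := hg (θ - t) (by linarith) htε x hx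
      have e1 : θ + -1 * (θ - t) = t := by ring
      rw [e1] at this
      exact this
    · refine ⟨1, 1, one_pos, one_pos, fun t ht htθ _ _ _ => ?_⟩
      exfalso
      have := ht.1
      linarith
  obtain ⟨ε1, c1, hε1, hc1, hg1⟩ := hplus
  obtain ⟨ε2, c2, hε2, hc2, hg2⟩ := hminus
  apply H.thin_of_quad K hK θ (min ε1 ε2) (min (min c1 c2) ((h K).eval θ)) (by positivity)
    (by positivity)
  intro t ht htθ x hx
  rw [abs_lt] at htθ
  have hm1 := min_le_left ε1 ε2
  have hm2 := min_le_right ε1 ε2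
  have hc12 := min_le_left (min c1 c2) ((h K).eval θ)
  rcases lt_trichotomy t θ with hlt | heq | hgt
  · exact (hc12.trans (min_le_right _ _)).trans (hg2 t ht hlt (by linarith) x hx)
  · rw [heq, h0, h1]
    have := min_le_right (min c1 c2) ((h K).eval θ)
    linarith
  · exact (hc12.trans (min_le_left _ _)).trans (hg1 t ht hgt (by linarith) x hx)

end PP72
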