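import Mathlib

/-!
Monomials in the region `U₀ ≤ U ≤ E x`, for `U₀` large and `E` small.
-/

open Finset

namespace PP72

/-- the statement holds for all `(x, U)` with `U` large and `U / x` small -/
def Ev (P : ℝ → ℝ → Prop) : Prop :=
  ∃ E : ℝ, 0 < E ∧ E ≤ 1 ∧ ∃ U0 : ℝ, 1 ≤ U0 ∧ ∀ x U : ℝ, U0 ≤ U → U ≤ E * x → P x U

theorem Ev.mono {P Q : ℝ → ℝ → Prop} (h : Ev P)
    (hPQ : ∀ x U : ℝ, 1 ≤ U → U ≤ x → P x U → Q x U) : Ev Q := by
  obtain ⟨E, hE, hE1, U0, hU0, h⟩ := h
  refine ⟨E, hE, hE1, U0, hU0, fun x U h1 h2 => ?_⟩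
  have hU : 1 ≤ U := hU0.trans h1
  have hx : 0 < x := by
    by_contra hx
    push Not at hx
    nlinarith
  exact hPQ x U hU (by nlinarith) (h x U h1 h2)

theorem Ev.and {P Q : ℝ → ℝ → Prop} (hP : Ev P) (hQ : Ev Q) : Ev fun x U => P x U ∧ Q x U := by
  obtain ⟨E1, hE1, hE11, U1, hU1, h1⟩ := hP
  obtain ⟨E2, hE2, hE21, U2, hU2, h2⟩ := hQ
  refine ⟨min E1 E2, lt_min hE1 hE2, (min_le_left _ _).trans hE11, max U1 U2,
    hU1.trans (le_max_left _ _), fun x U ha hb => ?_⟩
  have hU : 1 ≤ U := (hU1.trans (le_max_left _ _)).trans ha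
  have hx : 0 < x := by
    by_contra hx
    push Not at hx
    have : 0 < min E1 E2 := lt_min hE1 hE2
    nlinarith
  constructor
  · apply h1 x U ((le_max_left _ _).trans ha)
    refine hb.trans ?_
    gcongr
    exact min_le_left _ _
  · apply h2 x U ((le_max_right _ _).trans ha)
    refine hb.trans ?_
    gcongr
    exact min_le_right _ _

theorem ev_of_forall {P : ℝ → ℝ → Prop} (h : ∀ x U : ℝ, 1 ≤ U → U ≤ x → P x U) : Ev P := by
  refine ⟨1, one_pos, le_rfl, 1, le_rfl, fun x U h1 h2 => ?_⟩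
  rw [one_mul] at h2
  exact h x U h1 h2

/-- `U` large -/
theorem ev_of_large {P : ℝ → Prop} (h : ∃ U0 : ℝ, ∀ U : ℝ, U0 ≤ U → P U) :
    Ev fun _ U => P U := by
  obtain ⟨U0, h⟩ := h
  refine ⟨1, one_pos, le_rfl, max 1 U0, le_max_left _ _, fun x U h1 _ => ?_⟩
  exact h U ((le_max_right _ _).trans h1)

/-- `x ≥ K U` -/
theorem ev_ratio (K : ℝ) : Ev fun x U => K * U ≤ x := by
  refine ⟨min 1 (1 / (|K| + 1)), by positivity, min_le_left _ _, 1, le_rfl, fun x U h1 h2 => ?_⟩
  have hK : 0 < |K| + 1 := by positivity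
  have hx : 0 < x := by
    by_contra hx
    push Not at hx
    have : 0 < min 1 (1 / (|K| + 1)) := by positivity
    nlinarith
  have h3 : U ≤ 1 / (|K| + 1) * x := by
    refine h2.trans ?_
    gcongr
    exact min_le_right _ _
  have h4 : (|K| + 1) * U ≤ x := by
    calc (|K| + 1) * U ≤ (|K| + 1) * (1 / (|K| + 1) * x) := by gcongr
      _ = x := by field_simp
  have h5 : K * U ≤ (|K| + 1) * U := by
    have := le_abs_self K
    nlinarith
  linarith

/-- monomials -/
def mon (p : ℕ × ℕ) (x U : ℝ) : ℝ := x ^ p.1 * U ^ p.2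

/-- `p` is dominated by the monomials `m1`, `m2`, `m3` -/
def Dom (p m1 m2 m3 : ℕ × ℕ) : Prop :=
  ∃ w1 ∈ range 4, ∃ w2 ∈ range 4, ∃ w3 ∈ range 4, 1 ≤ w1 + w2 + w3 ∧
    (w1 + w2 + w3) * p.1 ≤ w1 * m1.1 + w2 * m2.1 + w3 * m3.1 ∧
    (w1 + w2 + w3) * p.1 + (w1 + w2 + w3) * p.2 ≤
      (w1 * m1.1 + w2 * m2.1 + w3 * m3.1) + (w1 * m1.2 + w2 * m2.2 + w3 * m3.2) ∧
    ((w1 + w2 + w3) * p.1 + (w1 + w2 + w3) * p.2 <
      (w1 * m1.1 + w2 * m2.1 + w3 * m3.1) + (w1 * m1.2 + w2 * m2.2 + w3 * m3.2) ∨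
      w1 * m1.2 + w2 * m2.2 + w3 * m3.2 < (w1 + w2 + w3) * p.2)

instance (p m1 m2 m3 : ℕ × ℕ) : Decidable (Dom p m1 m2 m3) := by
  unfold Dom
  infer_instance

theorem mon_nonneg (p : ℕ × ℕ) {x U : ℝ} (hx : 0 ≤ x) (hU : 0 ≤ U) : 0 ≤ mon p x U := by
  unfold mon
  positivity

theorem mon_pos (p : ℕ × ℕ) {x U : ℝ} (hx : 0 < x) (hU : 0 < U) : 0 < mon p x U := by
  unfold mon
  positivity

theorem dom_small {p m1 m2 m3 : ℕ × ℕ} (h : Dom p m1 m2 m3) (η : ℝ) (hη : 0 < η) :
    Ev fun x U => mon p x U ≤ η * (mon m1 x U + mon m2 x U + mon m3 x U) := by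
  obtain ⟨w1, _, w2, _, w3, _, hn, h1, h2, h3⟩ := h
  set n := w1 + w2 + w3 with hndef
  set A := w1 * m1.1 + w2 * m2.1 + w3 * m3.1 with hA
  set B := w1 * m1.2 + w2 * m2.2 + w3 * m3.2 with hB
  have hηn : 0 < η ^ n := by positivity
  refine ⟨min 1 (η ^ n), by positivity, min_le_left _ _, max 1 (1 / η ^ n), le_max_left _ _,
    fun x U ha hb => ?_⟩
  have hU1 : 1 ≤ U := (le_max_left _ _).trans ha
  have hU2 : 1 / η ^ n ≤ U := (le_max_right _ _).trans ha
  have hx0 : 0 < x := by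
    by_contra hx
    push Not at hx
    have : 0 < min 1 (η ^ n) := by positivity
    nlinarith
  have hxU : U ≤ x := by
    refine hb.trans ?_
    have := min_le_left 1 (η ^ n)
    nlinarith
  have hxη : U ≤ η ^ n * x := by
    refine hb.trans ?_
    gcongr
    exact min_le_right _ _
  have hx1 : 1 ≤ x := hU1.trans hxU
  have hU0 : 0 < U := by linarith
  -- the key inequality
  have key : x ^ (n * p.1) * U ^ (n * p.2) ≤ η ^ n * (x ^ A * U ^ B) := by
    by_cases hc : n * p.2 ≤ B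
    · have h4 : n * p.1 + n * p.2 < A + B := by
        rcases h3 with h3 | h3
        · exact h3
        · omega
      have e1 : x ^ A = x ^ (n * p.1) * x ^ (A - n * p.1) := by
        rw [← pow_add]
        congr 1
        omega
      have e2 : U ^ B = U ^ (n * p.2) * U ^ (B - n * p.2) := by
        rw [← pow_add]
        congr 1
        omega
      have e3 : 1 ≤ η ^ n * (x ^ (A - n * p.1) * U ^ (B - n * p.2)) := by
        have e4 : U ≤ x ^ (A - n * p.1) * U ^ (B - n * p.2) := by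
          calc U = U ^ 1 := (pow_one U).symm
            _ ≤ U ^ ((A - n * p.1) + (B - n * p.2)) := pow_le_pow_right₀ hU1 (by omega)
            _ = U ^ (A - n * p.1) * U ^ (B - n * p.2) := pow_add _ _ _
            _ ≤ x ^ (A - n * p.1) * U ^ (B - n * p.2) := by gcongr
        rw [div_le_iff₀ hηn] at hU2
        nlinarith
      rw [e1, e2]
      calc x ^ (n * p.1) * U ^ (n * p.2) = x ^ (n * p.1) * U ^ (n * p.2) * 1 := (mul_one _).symm
        _ ≤ x ^ (n * p.1) * U ^ (n * p.2) *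
            (η ^ n * (x ^ (A - n * p.1) * U ^ (B - n * p.2))) := by gcongr
        _ = _ := by ring
    · push Not at hc
      obtain ⟨k, hk⟩ : ∃ k, n * p.2 = B + (k + 1) := ⟨n * p.2 - B - 1, by omega⟩
      have e1 : x ^ A = x ^ (n * p.1) * (x ^ (A - n * p.1 - (k + 1)) * (x ^ k * x)) := by
        rw [← pow_succ, ← pow_add, ← pow_add]
        congr 1
        omega
      rw [hk, e1, pow_add, pow_succ]
      have e2 : 1 ≤ x ^ (A - n * p.1 - (k + 1)) := one_le_pow₀ hx1
      have e3 : U ^ k ≤ x ^ k := by gcongr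
      calc x ^ (n * p.1) * (U ^ B * (U ^ k * U))
          ≤ x ^ (n * p.1) * (U ^ B * (x ^ k * (η ^ n * x))) := by gcongr
        _ = x ^ (n * p.1) * (U ^ B * (x ^ k * (η ^ n * x))) * 1 := (mul_one _).symm
        _ ≤ x ^ (n * p.1) * (U ^ B * (x ^ k * (η ^ n * x))) *
            x ^ (A - n * p.1 - (k + 1)) := by gcongr
        _ = _ := by ring
  set S := mon m1 x U + mon m2 x U + mon m3 x U with hS
  have p1 := mon_nonneg m1 hx0.le hU0.le
  have p2 := mon_nonneg m2 hx0.le hU0.le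
  have p3 := mon_nonneg m3 hx0.le hU0.le
  have s1 : mon m1 x U ≤ S := by linarith
  have s2 : mon m2 x U ≤ S := by linarith
  have s3 : mon m3 x U ≤ S := by linarith
  have hS0 : 0 ≤ S := by linarith
  have hprod : x ^ A * U ^ B = mon m1 x U ^ w1 * mon m2 x U ^ w2 * mon m3 x U ^ w3 := by
    unfold mon
    rw [hA, hB, pow_add, pow_add, pow_add, pow_add]
    simp only [mul_pow, ← pow_mul]
    rw [mul_comm m1.1, mul_comm m1.2, mul_comm m2.1, mul_comm m2.2, mul_comm m3.1, mul_comm m3.2]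
    ring
  apply le_of_pow_le_pow_left₀ (n := n) (by omega) (by positivity)
  calc (mon p x U) ^ n = x ^ (n * p.1) * U ^ (n * p.2) := by
        unfold mon
        rw [mul_pow, ← pow_mul, ← pow_mul, mul_comm p.1, mul_comm p.2]
    _ ≤ η ^ n * (x ^ A * U ^ B) := key
    _ = η ^ n * (mon m1 x U ^ w1 * mon m2 x U ^ w2 * mon m3 x U ^ w3) := by rw [hprod]
    _ ≤ η ^ n * (S ^ w1 * S ^ w2 * S ^ w3) := by gcongr
    _ = (η * S) ^ n := by rw [mul_pow, ← pow_add, ← pow_add]

/-- sums of dominated monomials -/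
theorem rest_small (T : Finset (ℕ × ℕ)) (c : ℕ × ℕ → ℝ) (m1 m2 m3 : ℕ × ℕ)
    (h : ∀ p ∈ T, c p = 0 ∨ Dom p m1 m2 m3) (η : ℝ) (hη : 0 < η) :
    Ev fun x U => |∑ p ∈ T, c p * mon p x U| ≤ η * (mon m1 x U + mon m2 x U + mon m3 x U) := by
  classical
  induction T using Finset.induction_on generalizing η with
  | empty =>
    apply ev_of_forall
    intro x U hU hx
    have hx0 : 0 ≤ x := by linarith
    have hU0 : 0 ≤ U := by linarith
    have p1 := mon_nonneg m1 hx0 hU0
    have p2 := mon_nonneg m2 hx0 hU0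
    have p3 := mon_nonneg m3 hx0 hU0
    simp only [sum_empty, abs_zero]
    positivity
  | insert a s ha ih =>
    have h1 := ih (fun p hp => h p (Finset.mem_insert_of_mem hp)) (η / 2) (by positivity)
    have h2 : Ev fun x U => |c a * mon a x U| ≤
        η / 2 * (mon m1 x U + mon m2 x U + mon m3 x U) := by
      rcases h a (Finset.mem_insert_self _ _) with h0 | h0
      · apply ev_of_forall
        intro x U hU hx
        have hx0 : 0 ≤ x := by linarith
        have hU0 : 0 ≤ U := by linarith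
        have p1 := mon_nonneg m1 hx0 hU0
        have p2 := mon_nonneg m2 hx0 hU0
        have p3 := mon_nonneg m3 hx0 hU0
        rw [h0, zero_mul, abs_zero]
        positivity
      · refine (dom_small h0 (η / 2 / (|c a| + 1)) (by positivity)).mono ?_
        intro x U hU hx h3
        have hx0 : 0 ≤ x := by linarith
        have hU0 : 0 ≤ U := by linarith
        have p0 := mon_nonneg a hx0 hU0
        have p1 := mon_nonneg m1 hx0 hU0
        have p2 := mon_nonneg m2 hx0 hU0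
        have p3 := mon_nonneg m3 hx0 hU0
        rw [abs_mul, abs_of_nonneg p0]
        have hc : 0 < |c a| + 1 := by positivity
        calc |c a| * mon a x U ≤ (|c a| + 1) * mon a x U := by
              gcongr
              linarith
          _ ≤ (|c a| + 1) * (η / 2 / (|c a| + 1) * (mon m1 x U + mon m2 x U + mon m3 x U)) := by
              gcongr
          _ = _ := by field_simp
    refine (h1.and h2).mono ?_
    rintro x U _ _ ⟨h3, h4⟩
    rw [Finset.sum_insert ha]
    refine (abs_add_le _ _).trans ?_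
    linarith

end PP72
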