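import Pool.Agent.PP72.Quad

/-!
Quartics: rational directions in which the leading form has a zero of order four.
-/

open Polynomial Finset Filter

namespace PP72

variable {α : ℝ} {d : ℕ} {h : ℕ → ℝ[X]}

/-- counting lattice points along a curve `x = φ(u)`, `u = y - (p/q) x` -/
theorem card_curve (q p : ℕ) (hq : 0 < q) (V R : ℝ) (hV : 0 ≤ V) (hR : 0 ≤ R) (φ : ℝ → ℝ)
    (T : Finset (ℕ × ℕ))
    (hT : ∀ P ∈ T, |(P.2 : ℝ) - (p / q : ℝ) * P.1| ≤ V ∧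
      |(P.1 : ℝ) - φ ((P.2 : ℝ) - (p / q : ℝ) * P.1)| ≤ R) :
    (T.card : ℝ) ≤ (2 * (q * V) + 1) * (2 * R + 1) := by
  classical
  have hq' : (0 : ℝ) < q := by exact_mod_cast hq
  have hqV : 0 ≤ (q : ℝ) * V := by positivity
  set k : ℕ × ℕ → ℤ := fun P => (q : ℤ) * P.2 - p * P.1 with hk
  have hku : ∀ P : ℕ × ℕ, (P.2 : ℝ) - (p / q : ℝ) * P.1 = (k P : ℝ) / q := by
    intro P
    simp only [hk]
    push_cast
    field_simp
  set m : ℕ := ⌊(q : ℝ) * V⌋₊ with hm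
  have hkm : ∀ P ∈ T, 0 ≤ k P + m ∧ k P + m ≤ 2 * m := by
    intro P hP
    have h1 := (hT P hP).1
    rw [hku, abs_div, abs_of_pos hq', div_le_iff₀ hq'] at h1
    have h2 : ((|k P| : ℤ) : ℝ) ≤ (q : ℝ) * V := by
      push_cast
      linarith
    have h3 : |k P| ≤ (m : ℤ) := by
      have h4 : (|k P|).toNat ≤ m := by
        apply Nat.le_floor
        have h5 : (((|k P|).toNat : ℕ) : ℝ) = ((|k P| : ℤ) : ℝ) := by
          have : (((|k P|).toNat : ℕ) : ℤ) = |k P| := Int.toNat_of_nonneg (abs_nonneg _)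
          exact_mod_cast this
        rw [h5]
        exact h2
      omega
    have h4 := abs_le.1 h3
    constructor <;> omega
  have hxb : ∀ P ∈ T, ⌈φ ((k P : ℝ) / q) - R⌉ ≤ (P.1 : ℤ) ∧
      ((P.1 : ℝ) - (⌈φ ((k P : ℝ) / q) - R⌉ : ℤ)) ≤ 2 * R := by
    intro P hP
    have h1 := (hT P hP).2
    rw [hku, abs_le] at h1
    constructor
    · rw [Int.ceil_le]
      push_cast
      linarith [h1.1]
    · have := Int.le_ceil (φ ((k P : ℝ) / q) - R)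
      linarith [h1.2]
  have hmap : T.card ≤ (Finset.range (2 * m + 1) ×ˢ Finset.range (⌊2 * R⌋₊ + 1)).card := by
    apply Finset.card_le_card_of_injOn
      (fun P => ((k P + m).toNat, ((P.1 : ℤ) - ⌈φ ((k P : ℝ) / q) - R⌉).toNat))
    · intro P hP
      have hP' : P ∈ T := by simpa using hP
      obtain ⟨h1, h2⟩ := hkm P hP'
      obtain ⟨h3, h4⟩ := hxb P hP'
      simp only [Finset.coe_product, Finset.coe_range, Set.mem_prod, Set.mem_Iio]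
      refine ⟨by omega, ?_⟩
      apply Nat.lt_succ_of_le
      apply Nat.le_floor
      have h5 : ((((P.1 : ℤ) - ⌈φ ((k P : ℝ) / q) - R⌉).toNat : ℕ) : ℝ) =
          (P.1 : ℝ) - (⌈φ ((k P : ℝ) / q) - R⌉ : ℤ) := by
        have h6 : ((((P.1 : ℤ) - ⌈φ ((k P : ℝ) / q) - R⌉).toNat : ℕ) : ℤ) =
            (P.1 : ℤ) - ⌈φ ((k P : ℝ) / q) - R⌉ := Int.toNat_of_nonneg (by omega)
        have h7 : (((((P.1 : ℤ) - ⌈φ ((k P : ℝ) / q) - R⌉).toNat : ℕ) : ℤ) : ℝ) =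
            (((P.1 : ℤ) - ⌈φ ((k P : ℝ) / q) - R⌉ : ℤ) : ℝ) := by rw [h6]
        push_cast at h7
        exact h7
      rw [h5]
      exact h4
    · intro P hP Q hQ hPQ
      have hP' : P ∈ T := by simpa using hP
      have hQ' : Q ∈ T := by simpa using hQ
      simp only [Prod.mk.injEq] at hPQ
      obtain ⟨e1, e2⟩ := hPQ
      have h1 := (hkm P hP').1
      have h2 := (hkm Q hQ').1
      have e3 : k P = k Q := by omega
      have h3 := (hxb P hP').1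
      have h4 := (hxb Q hQ').1
      rw [e3] at e2 h3
      have e4 : (P.1 : ℤ) = Q.1 := by omega
      have e5 : (q : ℤ) * P.2 = q * Q.2 := by
        simp only [hk] at e3
        rw [e4] at e3
        linarith
      have e6 : (P.2 : ℤ) = Q.2 := mul_left_cancel₀ (by exact_mod_cast hq.ne') e5
      exact Prod.ext (by exact_mod_cast e4) (by exact_mod_cast e6)
  rw [Finset.card_product, Finset.card_range, Finset.card_range] at hmap
  have h8 : (T.card : ℝ) ≤ (2 * (m : ℝ) + 1) * ((⌊2 * R⌋₊ : ℝ) + 1) := by exact_mod_cast hmap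
  have h9 : (m : ℝ) ≤ q * V := Nat.floor_le hqV
  have h10 := Nat.floor_le (by positivity : (0 : ℝ) ≤ 2 * R)
  calc (T.card : ℝ) ≤ (2 * (m : ℝ) + 1) * ((⌊2 * R⌋₊ : ℝ) + 1) := h8
    _ ≤ (2 * (q * V) + 1) * (2 * R + 1) := by gcongr

theorem thin_of_curve {f : ℕ × ℕ → ℝ} {A : Set (ℕ × ℕ)} (q p : ℕ) (hq : 0 < q) (φ : ℝ → ℝ)
    (δ K : ℝ) (hδ : 0 < δ)
    (h : ∀ P ∈ A, δ * (((P.1 : ℝ) - φ ((P.2 : ℝ) - (p / q : ℝ) * P.1)) ^ 2 +
      |(P.2 : ℝ) - (p / q : ℝ) * P.1| ^ 3) ≤ f P + K) : Thin f A := by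
  intro ε hε
  set K' : ℝ := max K 0 with hK'
  have hK0 : 0 ≤ K' := le_max_right _ _
  have hq' : (0 : ℝ) < q := by exact_mod_cast hq
  set R : ℝ := max 1 (max (6 * (2 * q + 1) / (ε * δ)) (2 * K' / δ)) with hR
  obtain ⟨N0, hN0⟩ := exists_nat_ge (δ * R ^ 6)
  refine ⟨N0, fun N hN T hT => ?_⟩
  have hN' : δ * R ^ 6 ≤ N := le_trans hN0 (by exact_mod_cast hN)
  set r : ℝ := (((N : ℝ) + K') / δ) ^ ((1 : ℝ) / 6) with hr
  have hNd : (0 : ℝ) ≤ ((N : ℝ) + K') / δ := by positivity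
  have hr0 : 0 ≤ r := Real.rpow_nonneg hNd _
  have hr6 : r ^ 6 = ((N : ℝ) + K') / δ := by
    rw [hr, ← Real.rpow_natCast, ← Real.rpow_mul hNd]
    norm_num
  have hRr : R ≤ r := by
    have h1 : R ^ 6 ≤ r ^ 6 := by
      rw [hr6, le_div_iff₀ hδ]
      linarith
    exact le_of_pow_le_pow_left₀ (by norm_num) hr0 h1
  have hR1 : 1 ≤ R := le_max_left _ _
  have hr1 : 1 ≤ r := le_trans hR1 hRr
  have hbox : (T.card : ℝ) ≤ (2 * (q * r ^ 2) + 1) * (2 * r ^ 3 + 1) := by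
    apply card_curve q p hq _ _ (by positivity) (by positivity) φ
    intro P hP
    have h1 := h P (hT P hP).1
    have h2 := (hT P hP).2
    have h3 : ((P.1 : ℝ) - φ ((P.2 : ℝ) - (p / q : ℝ) * P.1)) ^ 2 +
        |(P.2 : ℝ) - (p / q : ℝ) * P.1| ^ 3 ≤ r ^ 6 := by
      rw [hr6, le_div_iff₀ hδ]
      have := le_max_left K 0
      linarith
    have h4 : (0 : ℝ) ≤ |(P.2 : ℝ) - (p / q : ℝ) * P.1| ^ 3 := by positivity
    have h5 : (0 : ℝ) ≤ ((P.1 : ℝ) - φ ((P.2 : ℝ) - (p / q : ℝ) * P.1)) ^ 2 := by positivity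
    constructor
    · apply le_of_pow_le_pow_left₀ (n := 3) (by norm_num) (by positivity)
      calc |(P.2 : ℝ) - (p / q : ℝ) * P.1| ^ 3 ≤ r ^ 6 := by linarith
        _ = (r ^ 2) ^ 3 := by ring
    · apply le_of_pow_le_pow_left₀ (n := 2) (by norm_num) (by positivity)
      calc |(P.1 : ℝ) - φ ((P.2 : ℝ) - (p / q : ℝ) * P.1)| ^ 2
          = ((P.1 : ℝ) - φ ((P.2 : ℝ) - (p / q : ℝ) * P.1)) ^ 2 := sq_abs _
        _ ≤ r ^ 6 := by linarith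
        _ = (r ^ 3) ^ 2 := by ring
  have hNr : (N : ℝ) = δ * r ^ 6 - K' := by
    rw [hr6]
    field_simp
    ring
  have h6 : (2 * (q * r ^ 2) + 1) * (2 * r ^ 3 + 1) ≤ 3 * (2 * q + 1) * r ^ 5 := by
    have a1 : (1 : ℝ) ≤ r ^ 3 := one_le_pow₀ hr1
    have a2 : (1 : ℝ) ≤ r ^ 2 := one_le_pow₀ hr1
    calc (2 * (q * r ^ 2) + 1) * (2 * r ^ 3 + 1)
        ≤ (2 * (q * r ^ 2) + r ^ 2) * (2 * r ^ 3 + r ^ 3) := by gcongr
      _ = 3 * (2 * q + 1) * r ^ 5 := by ring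
  have h7 : 6 * (2 * q + 1) / (ε * δ) ≤ r :=
    le_trans (le_trans (le_max_left _ _) (le_max_right _ _)) hRr
  have h8 : 2 * K' / δ ≤ r := le_trans (le_trans (le_max_right _ _) (le_max_right _ _)) hRr
  rw [div_le_iff₀ (by positivity)] at h7
  rw [div_le_iff₀ hδ] at h8
  have h9 : K' ≤ δ * r ^ 6 / 2 := by
    have a1 : r ≤ r ^ 6 := by
      calc r = r ^ 1 := (pow_one r).symm
        _ ≤ r ^ 6 := pow_le_pow_right₀ hr1 (by norm_num)
    nlinarith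
  have h10 : ε * (δ * r ^ 6) / 2 ≤ ε * N := by
    rw [hNr]
    nlinarith
  calc (T.card : ℝ) ≤ 3 * (2 * q + 1) * r ^ 5 := le_trans hbox h6
    _ = (6 * (2 * q + 1)) * r ^ 5 / 2 := by ring
    _ ≤ (r * (ε * δ)) * r ^ 5 / 2 := by gcongr
    _ = ε * (δ * r ^ 6) / 2 := by ring
    _ ≤ ε * N := h10

/-- the expansion also holds at `x = 0` -/
theorem ev_taylor' (hdeg : ∀ k, (h k).natDegree ≤ k) (θ : ℝ) (x u : ℝ) :
    ev d h x (θ * x + u) = ∑ j ∈ range (d + 1), x ^ j * (gT d h θ j).eval u := by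
  have h1 : Continuous fun x : ℝ => ev d h x (θ * x + u) := by
    unfold ev
    fun_prop
  have h2 : Continuous fun x : ℝ => ∑ j ∈ range (d + 1), x ^ j * (gT d h θ j).eval u := by
    fun_prop
  have h3 := h1.ext_on (dense_compl_singleton (0 : ℝ)) h2 (by
    intro x hx
    exact ev_taylor hdeg θ hx u)
  exact congrFun h3 x

/-- lattice points with prescribed `u` and `x` close to a prescribed value -/
theorem exists_point {α : ℝ} (q p a b : ℕ) (hq : 0 < q) (hv : (q, p) ∈ Sec α)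
    (hW : (a, b) ∈ Sec α) (m : ℕ) (t : ℝ) (ht : (m * a : ℝ) ≤ t) :
    ∃ P ∈ Sec α, 0 < P.1 ∧ (P.2 : ℝ) - (p / q : ℝ) * P.1 = m * ((b : ℝ) - (p / q : ℝ) * a) ∧
      |(P.1 : ℝ) - t| ≤ q := by
  have hq' : (0 : ℝ) < q := by exact_mod_cast hq
  set s : ℕ := ⌊(t - m * a) / q⌋₊ with hs
  have hs0 : 0 ≤ (t - m * a) / q := div_nonneg (by linarith) hq'.le
  have h1 : (s : ℝ) ≤ (t - m * a) / q := Nat.floor_le hs0
  have h2 : (t - m * a) / q < s + 1 := Nat.lt_floor_add_one _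
  rw [le_div_iff₀ hq'] at h1
  rw [div_lt_iff₀ hq'] at h2
  refine ⟨(m * a + (s + 1) * q, m * b + (s + 1) * p), ?_, ?_, ?_, ?_⟩
  · exact sec_add (sec_smul hW m) (sec_smul hv (s + 1))
  · change 0 < m * a + (s + 1) * q
    positivity
  · push_cast
    field_simp
    ring
  · push_cast
    rw [abs_le]
    constructor <;> nlinarith

theorem cubic_lead (a3 a2 a1 a0 : ℝ)
    (h2 : 2 ≤ (C a3 * X ^ 3 + C a2 * X ^ 2 + C a1 * X + C a0 : ℝ[X]).natDegree)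
    (hlc : 0 < (C a3 * X ^ 3 + C a2 * X ^ 2 + C a1 * X + C a0 : ℝ[X]).leadingCoeff) :
    0 < a3 ∨ (a3 = 0 ∧ 0 < a2) := by
  by_cases h3 : a3 = 0
  · right
    refine ⟨h3, ?_⟩
    subst h3
    rw [C_0, zero_mul, zero_add] at h2 hlc
    by_cases h4 : a2 = 0
    · subst h4
      rw [C_0, zero_mul, zero_add] at h2
      have := natDegree_linear_le (a := a1) (b := a0)
      omega
    · rw [leadingCoeff_quadratic h4] at hlc
      exact hlc
  · left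
    rw [leadingCoeff_cubic h3] at hlc
    exact hlc

/-- positive definite valleys are excluded by surjectivity -/
theorem no_definite (C ρ F1 H1 K L M θ : ℚ) (hC : 0 < C)
    (hΔ : 0 < 4 * C * (ρ * H1 + K) - F1 ^ 2)
    (hsurj : ∀ n : ℕ, ∃ x y : ℕ, (n : ℚ) = C * ((x : ℚ) - ρ * (y - θ * x) ^ 2) ^ 2 +
      F1 * ((x : ℚ) - ρ * (y - θ * x) ^ 2) * (y - θ * x) + H1 * ((x : ℚ) - ρ * (y - θ * x) ^ 2) +
      (ρ * H1 + K) * (y - θ * x) ^ 2 + L * (y - θ * x) + M) : False := by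
  set Δ := 4 * C * (ρ * H1 + K) - F1 ^ 2 with hΔdef
  set β := 2 * C * L - F1 * H1 with hβ
  set κ := 4 * C * M - H1 ^ 2 with hκ
  obtain ⟨W, hW, hWr⟩ := exists_common_den
    {-Δ * θ, Δ, β, 2 * C - F1 * θ, F1, H1, -2 * C * ρ, 4 * C * ρ * θ, -2 * C * ρ * θ ^ 2,
      4 * C * Δ, β ^ 2 - Δ * κ}
  obtain ⟨z1, hz1⟩ := hWr (-Δ * θ) (by simp)
  obtain ⟨z2, hz2⟩ := hWr Δ (by simp)
  obtain ⟨z3, hz3⟩ := hWr β (by simp)
  obtain ⟨z4, hz4⟩ := hWr (2 * C - F1 * θ) (by simp)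
  obtain ⟨z5, hz5⟩ := hWr F1 (by simp)
  obtain ⟨z6, hz6⟩ := hWr H1 (by simp)
  obtain ⟨z7, hz7⟩ := hWr (-2 * C * ρ) (by simp)
  obtain ⟨z8, hz8⟩ := hWr (4 * C * ρ * θ) (by simp)
  obtain ⟨z9, hz9⟩ := hWr (-2 * C * ρ * θ ^ 2) (by simp)
  obtain ⟨r1, hr1⟩ := hWr (4 * C * Δ) (by simp)
  obtain ⟨r2, hr2⟩ := hWr (β ^ 2 - Δ * κ) (by simp)
  set D := Δ.den with hD
  set a0 := Δ.num with ha0
  have hDpos : (0 : ℚ) < D := by exact_mod_cast Δ.den_pos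
  have hΔD : Δ * D = a0 := Rat.mul_den_eq_num Δ
  have ha0pos : 0 < a0 := Rat.num_pos.2 hΔ
  have hWpos : (0 : ℚ) < W := by exact_mod_cast hW
  have hr1pos : 0 < r1 := by
    have : (0 : ℚ) < r1 := by
      rw [← hr1]
      positivity
    exact_mod_cast this
  obtain ⟨a1, ha1⟩ := Int.eq_ofNat_of_zero_le ha0pos.le
  obtain ⟨R1, hR1⟩ := Int.eq_ofNat_of_zero_le hr1pos.le
  have ha1pos : 0 < a1 := by
    have : (0 : ℤ) < (a1 : ℤ) := by rw [← ha1]; exact ha0pos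
    exact_mod_cast this
  have hR1pos : 0 < R1 := by
    have : (0 : ℤ) < (R1 : ℤ) := by rw [← hR1]; exact hr1pos
    exact_mod_cast this
  apply not_norm_form (D ^ 2 * W * R1) (a1 * D) ((D : ℤ) ^ 2 * W * r2)
    (by have := Δ.den_pos; positivity) (by have := Δ.den_pos; positivity)
  intro n
  obtain ⟨x, y, hn⟩ := hsurj n
  set N1 : ℤ := z1 * x + z2 * y + z3 with hN1
  set N2 : ℤ := z4 * x + z5 * y + z6 + z7 * y ^ 2 + z8 * (x * y) + z9 * x ^ 2 with hN2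
  refine ⟨D * N1, N2, ?_⟩
  have hN1' : (N1 : ℚ) = W * (Δ * (y - θ * x) + β) := by
    rw [hN1]
    push_cast
    rw [← hz1, ← hz2, ← hz3]
    ring
  have hN2' : (N2 : ℚ) = W * (2 * C * ((x : ℚ) - ρ * (y - θ * x) ^ 2) + F1 * (y - θ * x) + H1) := by
    rw [hN2]
    push_cast
    rw [← hz4, ← hz5, ← hz6, ← hz7, ← hz8, ← hz9]
    ring
  have key : 4 * C * Δ * n + (β ^ 2 - Δ * κ) = (Δ * (y - θ * x) + β) ^ 2 +
      Δ * (2 * C * ((x : ℚ) - ρ * (y - θ * x) ^ 2) + F1 * (y - θ * x) + H1) ^ 2 := by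
    rw [hn, hβ, hκ, hΔdef]
    ring
  have hfin : ((D ^ 2 * W * R1 : ℕ) : ℚ) * n + ((D : ℚ) ^ 2 * W * r2) =
      (D * (N1 : ℚ)) ^ 2 + ((a1 * D : ℕ) : ℚ) * (N2 : ℚ) ^ 2 := by
    have e1 : ((R1 : ℕ) : ℚ) = (r1 : ℚ) := by
      rw [hR1]
      rfl
    have e2 : ((a1 : ℕ) : ℚ) = (a0 : ℚ) := by
      rw [ha1]
      rfl
    push_cast
    rw [e1, e2, hN1', hN2', ← hr1, ← hr2, ← hΔD]
    calc (D : ℚ) ^ 2 * W * (W * (4 * C * Δ)) * n + (D : ℚ) ^ 2 * W * (W * (β ^ 2 - Δ * κ))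
        = (D : ℚ) ^ 2 * (W : ℚ) ^ 2 * (4 * C * Δ * n + (β ^ 2 - Δ * κ)) := by ring
      _ = _ := by rw [key]; ring
  exact_mod_cast hfin

end PP72
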