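import Pool.Agent.PP72.Irr
import Pool.Agent.PP72.Quartic

/-!
Irrational directions in which the leading form has a double zero: the first reduction.
-/

open Polynomial Finset Filter

namespace PP72

variable {α : ℝ} {d : ℕ} {h : ℕ → ℝ[X]}

/-- the terms of low degree in `x` are small near the direction -/
theorem low_terms (J : ℕ) (g : ℕ → ℝ[X]) (hdeg : ∀ j, (g j).natDegree ≤ J + 2 - j) (η : ℝ)
    (hη : 0 < η) : ∃ ε : ℝ, 0 < ε ∧ ∃ x0 : ℝ, 1 ≤ x0 ∧ ∀ x u : ℝ, x0 ≤ x → |u| ≤ ε * x →
      |∑ j ∈ range J, x ^ j * (g j).eval u| ≤ η * (x ^ J * (1 + u ^ 2)) := by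
  have hb : ∀ j, ∃ C : ℝ, 0 ≤ C ∧ ∀ u : ℝ, |(g j).eval u| ≤ C * (1 + |u|) ^ (J + 2 - j) := by
    intro j
    refine ⟨∑ i ∈ range (J + 2 - j + 1), |(g j).coeff i|,
      Finset.sum_nonneg fun i _ => abs_nonneg _, fun u => ?_⟩
    rw [Polynomial.eval_eq_sum_range' (Nat.lt_succ_of_le (hdeg j)), Finset.sum_mul]
    refine le_trans (Finset.abs_sum_le_sum_abs _ _) (Finset.sum_le_sum fun i hi => ?_)
    rw [abs_mul, abs_pow]
    apply mul_le_mul_of_nonneg_left _ (abs_nonneg _)
    have h1 : (1 : ℝ) ≤ 1 + |u| := by linarith [abs_nonneg u]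
    calc |u| ^ i ≤ (1 + |u|) ^ i := by
          gcongr
          linarith
      _ ≤ (1 + |u|) ^ (J + 2 - j) :=
          pow_le_pow_right₀ h1 (Nat.lt_succ_iff.1 (mem_range.1 hi))
  choose C hC0 hC using hb
  set S : ℝ := ∑ j ∈ range J, C j with hS
  have hS0 : 0 ≤ S := Finset.sum_nonneg fun j _ => hC0 j
  set e : ℝ := min 1 (η / (2 * (S + 1))) with he
  have he0 : 0 < e := by positivity
  have he1 : e ≤ 1 := min_le_left _ _
  refine ⟨e / 2, by positivity, max 1 (2 / e), le_max_left _ _, fun x u hx hu => ?_⟩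
  have hx1 : 1 ≤ x := (le_max_left _ _).trans hx
  have hx2 : 2 / e ≤ x := (le_max_right _ _).trans hx
  rw [div_le_iff₀ he0] at hx2
  have hx0 : 0 < x := by linarith
  have h1u : 1 + |u| ≤ e * x := by linarith
  have h1u0 : 0 ≤ 1 + |u| := by positivity
  have hsq : (1 + |u|) ^ 2 ≤ 2 * (1 + u ^ 2) := by
    have := sq_abs u
    nlinarith [sq_nonneg (1 - |u|)]
  have hSe : S * e * 2 ≤ η := by
    have h1 : e ≤ η / (2 * (S + 1)) := min_le_right _ _
    calc S * e * 2 ≤ (S + 1) * (η / (2 * (S + 1))) * 2 := by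
          gcongr
          linarith
      _ = η := by field_simp
  calc |∑ j ∈ range J, x ^ j * (g j).eval u| ≤ ∑ j ∈ range J, C j * (e * (x ^ J * (1 + |u|) ^ 2)) := by
        refine le_trans (Finset.abs_sum_le_sum_abs _ _) (Finset.sum_le_sum fun j hj => ?_)
        have hjJ : j < J := mem_range.1 hj
        rw [abs_mul, abs_of_pos (by positivity : (0 : ℝ) < x ^ j)]
        calc x ^ j * |(g j).eval u| ≤ x ^ j * (C j * (1 + |u|) ^ (J + 2 - j)) := by
              gcongr
              exact hC j u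
          _ = C j * (x ^ j * (1 + |u|) ^ (J + 2 - j)) := by ring
          _ ≤ C j * (e * (x ^ J * (1 + |u|) ^ 2)) := by
              apply mul_le_mul_of_nonneg_left _ (hC0 j)
              have e1 : J + 2 - j = (J - j) + 2 := by omega
              have e2 : (1 + |u|) ^ (J - j) ≤ e * x ^ (J - j) := by
                calc (1 + |u|) ^ (J - j) ≤ (e * x) ^ (J - j) := by gcongr
                  _ = e ^ (J - j) * x ^ (J - j) := by rw [mul_pow]
                  _ ≤ e * x ^ (J - j) := by
                      apply mul_le_mul_of_nonneg_right _ (by positivity)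
                      calc e ^ (J - j) ≤ e ^ 1 := by
                            apply pow_le_pow_of_le_one he0.le he1
                            omega
                        _ = e := pow_one e
              have e3 : x ^ J = x ^ j * x ^ (J - j) := by
                rw [← pow_add]
                congr 1
                omega
              rw [e1, pow_add, e3]
              calc x ^ j * ((1 + |u|) ^ (J - j) * (1 + |u|) ^ 2)
                  ≤ x ^ j * ((e * x ^ (J - j)) * (1 + |u|) ^ 2) := by gcongr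
                _ = e * (x ^ j * x ^ (J - j) * (1 + |u|) ^ 2) := by ring
    _ = S * (e * (x ^ J * (1 + |u|) ^ 2)) := by rw [← Finset.sum_mul]
    _ ≤ S * (e * (x ^ J * (2 * (1 + u ^ 2)))) := by gcongr
    _ = (S * e * 2) * (x ^ J * (1 + u ^ 2)) := by ring
    _ ≤ η * (x ^ J * (1 + u ^ 2)) := by gcongr

/-- **First reduction** at an irrational direction with a double zero. -/
theorem Pk.double_or (J : ℕ) (H : Pk α (J + 2) h) (hJ : 2 ≤ J) (hne : h (J + 2) ≠ 0) {θ : ℝ}
    (hθ : Irrational θ) (h0 : 0 < θ) (hα : θ < α)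
    (hμ : rootMultiplicity θ (h (J + 2)) = 2) :
    (∃ ε : ℝ, 0 < ε ∧ Thin (fv (J + 2) h) (Near α θ ε)) ∨
    ((h (J + 1)).eval θ = 0 ∧ ∃ a u0 : ℝ, 0 < a ∧
      (taylor θ (h (J + 2))).coeff 2 = a ∧
      (taylor θ (h (J + 1))).coeff 1 = -2 * a * u0 ∧ (h J).eval θ = a * u0 ^ 2) := by
  obtain ⟨Q, hQ1, hQ2, hQ3, hQ4⟩ := taylor_root (h (J + 2)) hne θ
  rw [hμ] at hQ3 hQ4
  set a := (taylor θ (h (J + 2))).coeff 2 with ha
  set b := (taylor θ (h (J + 1))).coeff 1 with hb
  set e := (h J).eval θ with he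
  set A := (h (J + 1)).eval θ with hA
  have hapos : 0 < a := by
    have h1 := taylor_sign (h (J + 2)) hne θ 1 (α - θ) (Or.inl rfl) (by linarith) (by
      intro τ hτ1 hτ2
      apply H.lead_nonneg (by omega)
      constructor <;> linarith)
    rw [hμ, one_pow, mul_one] at h1
    exact h1
  set g := gT (J + 2) h θ with hg
  have hgd : ∀ j, (g j).natDegree ≤ J + 2 - j := fun j => gT_natDegree_le θ j
  have hg2 : ∀ u, (g (J + 2)).eval u = 0 := by
    intro u
    have h1 : (g (J + 2)).natDegree ≤ 0 := by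
      have := hgd (J + 2)
      omega
    rw [eq_C_of_natDegree_le_zero h1, eval_C, hg, gT_coeff, if_pos (by omega), zero_add]
    exact hQ3 0 (by norm_num)
  have hg1 : ∀ u, (g (J + 1)).eval u = A := by
    intro u
    have h1 : (g (J + 1)).natDegree < 2 := by
      have := hgd (J + 1)
      omega
    rw [Polynomial.eval_eq_sum_range' h1]
    simp only [Finset.sum_range_succ, Finset.sum_range_zero, pow_zero, pow_one]
    rw [hg, gT_coeff, gT_coeff, if_pos (by omega), if_pos (by omega)]
    have e1 : 1 + (J + 1) = J + 2 := by ring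
    have e0 : 0 + (J + 1) = J + 1 := by ring
    rw [e0, e1, hQ3 1 (by norm_num), taylor_coeff_zero, hA]
    ring
  have hg0 : ∀ u, (g J).eval u = a * u ^ 2 + b * u + e := by
    intro u
    have h1 : (g J).natDegree < 3 := by
      have := hgd J
      omega
    rw [Polynomial.eval_eq_sum_range' h1]
    simp only [Finset.sum_range_succ, Finset.sum_range_zero, pow_zero, pow_one]
    rw [hg, gT_coeff, gT_coeff, gT_coeff, if_pos (by omega), if_pos (by omega), if_pos (by omega)]
    have e0 : 0 + J = J := by ring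
    have e1 : 1 + J = J + 1 := by ring
    have e2 : 2 + J = J + 2 := by ring
    rw [e0, e1, e2, taylor_coeff_zero, ← ha, ← hb, ← he]
    ring
  -- the value at a lattice point
  have hval : ∀ P : ℕ × ℕ, ∀ u : ℝ, u = (P.2 : ℝ) - θ * P.1 → fv (J + 2) h P =
      (∑ j ∈ range J, (P.1 : ℝ) ^ j * (g j).eval u) + (P.1 : ℝ) ^ J * (a * u ^ 2 + b * u + e) +
        (P.1 : ℝ) ^ (J + 1) * A := by
    intro P u hu
    have e1 : (P.2 : ℝ) = θ * P.1 + u := by rw [hu]; ring
    unfold fv
    rw [e1, ev_taylor' H.deg, Finset.sum_range_succ, Finset.sum_range_succ, Finset.sum_range_succ]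
    change _ + (P.1 : ℝ) ^ J * (g J).eval u + (P.1 : ℝ) ^ (J + 1) * (g (J + 1)).eval u +
      (P.1 : ℝ) ^ (J + 2) * (g (J + 2)).eval u = _
    rw [hg0, hg1, hg2]
    ring
  have hslope : ∀ ε : ℝ, ∀ P ∈ Near α θ ε, |(P.2 : ℝ) - θ * P.1| ≤ ε * P.1 := by
    rintro ε P ⟨_, hP2, hP3⟩
    have hx : (0 : ℝ) < P.1 := by exact_mod_cast hP2
    have e1 : (P.2 : ℝ) - θ * P.1 = ((P.2 : ℝ) / P.1 - θ) * P.1 := by field_simp
    rw [e1, abs_mul, abs_of_pos hx]
    exact (mul_lt_mul_of_pos_right hP3 hx).le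
  -- thinness from a bound for large x
  have hthin : ∀ ε x0 δ : ℝ, 0 < ε → 0 < δ → ε ≤ 1 → 1 ≤ x0 → (∀ x u : ℝ, x0 ≤ x → |u| ≤ ε * x →
      δ * (x ^ J * (1 + u ^ 2)) ≤ (∑ j ∈ range J, x ^ j * (g j).eval u) +
        x ^ J * (a * u ^ 2 + b * u + e) + x ^ (J + 1) * A) →
      ∃ ε : ℝ, 0 < ε ∧ Thin (fv (J + 2) h) (Near α θ ε) := by
    intro ε x0 δ hε hδ hε1 hx01 hbd
    obtain ⟨X1, hX1⟩ := exists_nat_ge x0
    refine ⟨ε, hε, ?_⟩
    have hsplit : Near α θ ε ⊆ {P | P ∈ Near α θ ε ∧ X1 ≤ P.1} ∪ {P | P ∈ Sec α ∧ P.1 ≤ X1} := by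
      intro P hP
      by_cases h1 : X1 ≤ P.1
      · exact Or.inl ⟨hP, h1⟩
      · exact Or.inr ⟨hP.1, by omega⟩
    refine Thin.mono (Thin.union ?_ ?_) hsplit
    · apply thin_of_bound θ (δ / 2) (by positivity)
      rintro P ⟨hP1, hP2⟩
      have hx : x0 ≤ (P.1 : ℝ) := hX1.trans (by exact_mod_cast hP2)
      have hx1 : (1 : ℝ) ≤ P.1 := hx01.trans hx
      have h1 := hbd P.1 ((P.2 : ℝ) - θ * P.1) hx (hslope ε P hP1)
      rw [← hval P _ rfl] at h1
      refine le_trans ?_ h1
      set u := (P.2 : ℝ) - θ * P.1 with hu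
      have h2 : |u| ≤ P.1 := by
        have := hslope ε P hP1
        nlinarith
      have h3 : (P.1 : ℝ) ^ 2 ≤ (P.1 : ℝ) ^ J := pow_le_pow_right₀ hx1 hJ
      have h4 : |u| ^ 3 ≤ (P.1 : ℝ) ^ 2 * (1 + u ^ 2) := by
        have e1 : |u| ^ 3 = |u| * u ^ 2 := by rw [← sq_abs u]; ring
        rw [e1]
        have e2 : |u| ≤ (P.1 : ℝ) ^ 2 := by nlinarith
        have e3 : |u| * u ^ 2 ≤ (P.1 : ℝ) ^ 2 * u ^ 2 := by gcongr
        have e4 : (0 : ℝ) ≤ (P.1 : ℝ) ^ 2 := by positivity
        nlinarith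
      have h5 : (P.1 : ℝ) ^ 2 ≤ (P.1 : ℝ) ^ 2 * (1 + u ^ 2) := by
        have e4 : (0 : ℝ) ≤ (P.1 : ℝ) ^ 2 := by positivity
        nlinarith [sq_nonneg u]
      calc δ / 2 * ((P.1 : ℝ) ^ 2 + |u| ^ 3) ≤ δ / 2 * (2 * ((P.1 : ℝ) ^ 2 * (1 + u ^ 2))) := by
            gcongr
            linarith
        _ = δ * ((P.1 : ℝ) ^ 2 * (1 + u ^ 2)) := by ring
        _ ≤ δ * ((P.1 : ℝ) ^ J * (1 + u ^ 2)) := by gcongr
    · apply thin_finite
      obtain ⟨Y, hY⟩ := exists_nat_ge (α * X1)
      apply Set.Finite.subset (Set.finite_Iic (X1, Y))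
      rintro P ⟨hP1, hP2⟩
      have hP1' : (P.2 : ℝ) ≤ α * P.1 := hP1
      refine Prod.mk_le_mk.2 ⟨hP2, ?_⟩
      have h1 : (P.1 : ℝ) ≤ X1 := by exact_mod_cast hP2
      have h2 : (P.2 : ℝ) ≤ Y := by
        have := H.pos
        nlinarith
      exact_mod_cast h2
  -- lattice points with `u` near a given value give a contradiction
  have hneg : ∀ us κ : ℝ, 0 < κ → (∃ x1 : ℝ, 1 ≤ x1 ∧ ∀ x u : ℝ, x1 ≤ x → |u - us| ≤ 5 / x →
      (∑ j ∈ range J, x ^ j * (g j).eval u) + x ^ J * (a * u ^ 2 + b * u + e) +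
        x ^ (J + 1) * A < 0) → False := by
    rintro us κ _ ⟨x1, hx1, hx⟩
    obtain ⟨X1, hX1⟩ := exists_nat_ge x1
    obtain ⟨P, hP1, hP2, hP3⟩ := exists_near hθ h0 hα us X1
    have hxP : x1 ≤ (P.1 : ℝ) := hX1.trans (by exact_mod_cast hP2.le)
    have hxpos : (0 : ℝ) < P.1 := by linarith
    have h1 := hx P.1 ((P.2 : ℝ) - θ * P.1) hxP (by
      rw [le_div_iff₀ hxpos]
      linarith)
    rw [← hval P _ rfl] at h1
    obtain ⟨n, hn⟩ := H.val P hP1
    have h2 : fv (J + 2) h P = n := hn
    rw [h2] at h1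
    have : (0 : ℝ) ≤ n := Nat.cast_nonneg _
    linarith
  rcases lt_trichotomy A 0 with hA0 | hA0 | hA0
  · -- negative: contradiction
    exfalso
    obtain ⟨ε, hε, x0, hx01, hlow⟩ := low_terms J g hgd 1 one_pos
    apply hneg 0 1 one_pos
    set M : ℝ := 26 + (a * 25 + |b| * 5 + |e|) with hM
    refine ⟨max (max x0 5) (max (5 / ε) ((M + 1) / (-A))), by
      exact hx01.trans ((le_max_left _ _).trans (le_max_left _ _)), ?_⟩
    intro x u hx hu
    have hx0 : x0 ≤ x := ((le_max_left _ _).trans (le_max_left _ _)).trans hx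
    have hx5 : 5 ≤ x := ((le_max_right _ _).trans (le_max_left _ _)).trans hx
    have hxε : 5 / ε ≤ x := ((le_max_left _ _).trans (le_max_right _ _)).trans hx
    have hxM : (M + 1) / (-A) ≤ x := ((le_max_right _ _).trans (le_max_right _ _)).trans hx
    rw [div_le_iff₀ hε] at hxε
    rw [div_le_iff₀ (by linarith)] at hxM
    have hxpos : 0 < x := by linarith
    rw [sub_zero] at hu
    have hu1 : |u| ≤ 1 := by
      refine hu.trans ?_
      rw [div_le_iff₀ hxpos]
      linarith
    have hu5 : u ^ 2 ≤ 1 := by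
      rw [← sq_abs]
      nlinarith [abs_nonneg u]
    have h1 := hlow x u hx0 (by nlinarith)
    have h2 := (abs_le.1 h1).2
    have hxJ : 0 < x ^ J := by positivity
    have h3 : a * u ^ 2 + b * u + e ≤ a * 25 + |b| * 5 + |e| := by
      have e1 : a * u ^ 2 ≤ a * 25 := by nlinarith
      have e2 : b * u ≤ |b| * 5 := by
        calc b * u ≤ |b * u| := le_abs_self _
          _ = |b| * |u| := abs_mul _ _
          _ ≤ |b| * 5 := by
              gcongr
              linarith
      linarith [le_abs_self e]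
    have h4 : x ^ J * (a * u ^ 2 + b * u + e) ≤ x ^ J * (a * 25 + |b| * 5 + |e|) := by gcongr
    have h5 : 1 * (x ^ J * (1 + u ^ 2)) ≤ x ^ J * 26 := by
      rw [one_mul]
      gcongr
      linarith
    have h6 : x ^ (J + 1) * A ≤ -(x ^ J * (M + 1)) := by
      rw [pow_succ]
      nlinarith
    have h7 : x ^ J * 26 + x ^ J * (a * 25 + |b| * 5 + |e|) = x ^ J * M := by rw [hM]; ring
    nlinarith
  · -- `A = 0`
    rcases lt_trichotomy (b ^ 2) (4 * a * e) with hd1 | hd1 | hd1
    · -- definite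
      left
      set δ0 := (4 * a * e - b ^ 2) / (8 * (a + |e| + 1)) with hδ0
      have hδpos : 0 < δ0 := by
        apply div_pos
        · linarith
        · positivity
      have hepos : 0 < e := by
        by_contra hcon
        push Not at hcon
        nlinarith [sq_nonneg b]
      have hee : |e| = e := abs_of_pos hepos
      have hδe : δ0 * (8 * (a + e + 1)) = 4 * a * e - b ^ 2 := by
        rw [hδ0, hee]
        field_simp
      have hδa : δ0 < a := by
        by_contra hcon
        push Not at hcon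
        nlinarith [mul_pos hapos hepos, sq_nonneg b]
      have hdef : ∀ u : ℝ, δ0 * (1 + u ^ 2) ≤ a * u ^ 2 + b * u + e := by
        intro u
        have e2 : b ^ 2 ≤ 4 * (a - δ0) * (e - δ0) := by nlinarith
        have e3 : 0 ≤ 4 * (a - δ0) * ((a - δ0) * u ^ 2 + b * u + (e - δ0)) := by
          have : 4 * (a - δ0) * ((a - δ0) * u ^ 2 + b * u + (e - δ0)) =
              (2 * (a - δ0) * u + b) ^ 2 + (4 * (a - δ0) * (e - δ0) - b ^ 2) := by ring
          rw [this]
          have : 0 ≤ 4 * (a - δ0) * (e - δ0) - b ^ 2 := by linarith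
          positivity
        have e4 : 0 ≤ (a - δ0) * u ^ 2 + b * u + (e - δ0) := by
          by_contra hneg'
          push Not at hneg'
          have : 4 * (a - δ0) * ((a - δ0) * u ^ 2 + b * u + (e - δ0)) < 0 :=
            mul_neg_of_pos_of_neg (by linarith) hneg'
          linarith
        linarith
      obtain ⟨ε, hε, x0, hx01, hlow⟩ := low_terms J g hgd (δ0 / 2) (by positivity)
      apply hthin (min ε 1) x0 (δ0 / 2) (by positivity) (by positivity) (min_le_right _ _) hx01
      intro x u hx hu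
      have hx1 : 1 ≤ x := hx01.trans hx
      have hxpos : 0 < x := by linarith
      have h1 := hlow x u hx (hu.trans (by gcongr; exact min_le_left _ _))
      have h2 := (abs_le.1 h1).1
      have h3 : x ^ J * (δ0 * (1 + u ^ 2)) ≤ x ^ J * (a * u ^ 2 + b * u + e) := by
        gcongr
        exact hdef u
      rw [hA0, mul_zero, add_zero]
      nlinarith
    · -- double root
      right
      refine ⟨hA0, a, -b / (2 * a), hapos, rfl, ?_, ?_⟩
      · field_simp
      · field_simp
        linarith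
    · -- indefinite
      exfalso
      set us := -b / (2 * a) with hus
      have husa : 2 * a * us = -b := by rw [hus]; field_simp
      set κ := (b ^ 2 - 4 * a * e) / (4 * a) with hκ
      have hκ0 : 0 < κ := div_pos (by linarith) (by positivity)
      have hmin : ∀ u, a * u ^ 2 + b * u + e = a * (u - us) ^ 2 - κ := by
        intro u
        have h1 : 4 * a * κ = b ^ 2 - 4 * a * e := by rw [hκ]; field_simp
        have h2 : 4 * a * (a * u ^ 2 + b * u + e) = 4 * a * (a * (u - us) ^ 2 - κ) := by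
          have e3 : 4 * a * (a * (u - us) ^ 2 - κ) = (2 * a * u - 2 * a * us) ^ 2 - 4 * a * κ := by
            ring
          rw [e3, husa, h1]
          ring
        exact mul_left_cancel₀ (by positivity) h2
      obtain ⟨ε, hε, x0, hx01, hlow⟩ := low_terms J g hgd (κ / (4 * (2 + (|us| + 1) ^ 2)))
        (by positivity)
      apply hneg us κ hκ0
      refine ⟨max (max x0 5) (max ((|us| + 1) / ε) (20 * a / κ + 5)), by
        exact hx01.trans ((le_max_left _ _).trans (le_max_left _ _)), ?_⟩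
      intro x u hx hu
      have hx0 : x0 ≤ x := ((le_max_left _ _).trans (le_max_left _ _)).trans hx
      have hx5 : 5 ≤ x := ((le_max_right _ _).trans (le_max_left _ _)).trans hx
      have hxε : (|us| + 1) / ε ≤ x := ((le_max_left _ _).trans (le_max_right _ _)).trans hx
      have hxM : 20 * a / κ + 5 ≤ x := ((le_max_right _ _).trans (le_max_right _ _)).trans hx
      rw [div_le_iff₀ hε] at hxε
      have hxpos : 0 < x := by linarith
      have hxM' : 20 * a ≤ κ * x := by
        have : 20 * a / κ ≤ x := by linarith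
        rw [div_le_iff₀ hκ0] at this
        linarith
      have hu1 : |u - us| ≤ 1 := by
        refine hu.trans ?_
        rw [div_le_iff₀ hxpos]
        linarith
      have hub : |u| ≤ |us| + 1 := by
        have : u = (u - us) + us := by ring
        calc |u| = |(u - us) + us| := by rw [← this]
          _ ≤ |u - us| + |us| := abs_add_le _ _
          _ ≤ |us| + 1 := by linarith
      have h1 := hlow x u hx0 (hub.trans (by linarith))
      have h2 := (abs_le.1 h1).2
      have hxJ : 0 < x ^ J := by positivity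
      have hu2 : u ^ 2 ≤ (|us| + 1) ^ 2 := by
        rw [← sq_abs]
        gcongr
      have h3 : κ / (4 * (2 + (|us| + 1) ^ 2)) * (x ^ J * (1 + u ^ 2)) ≤ κ / 4 * x ^ J := by
        have e1 : 1 + u ^ 2 ≤ 2 + (|us| + 1) ^ 2 := by linarith
        calc κ / (4 * (2 + (|us| + 1) ^ 2)) * (x ^ J * (1 + u ^ 2))
            ≤ κ / (4 * (2 + (|us| + 1) ^ 2)) * (x ^ J * (2 + (|us| + 1) ^ 2)) := by gcongr
          _ = κ / 4 * x ^ J := by field_simp
      have h4 : a * (u - us) ^ 2 ≤ κ / 4 := by
        have e1 : (u - us) ^ 2 ≤ 5 / x := by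
          rw [← sq_abs]
          nlinarith [abs_nonneg (u - us)]
        have e2 : a * (5 / x) ≤ κ / 4 := by
          rw [mul_div_assoc', div_le_iff₀ hxpos]
          linarith
        nlinarith
      rw [hmin, hA0, mul_zero, add_zero]
      nlinarith
  · -- `A > 0`
    left
    obtain ⟨ε, hε, x0, hx01, hlow⟩ := low_terms J g hgd (a / 4) (by positivity)
    set M : ℝ := b ^ 2 / a + |e| + a with hM
    apply hthin (min ε 1) (max x0 (2 * M / A)) (min (a / 4) (A / 2)) (by positivity) (by positivity)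
      (min_le_right _ _) (hx01.trans (le_max_left _ _))
    intro x u hx hu
    have hx0 : x0 ≤ x := (le_max_left _ _).trans hx
    have hx1 : 1 ≤ x := hx01.trans hx0
    have hxpos : 0 < x := by linarith
    have hxM : 2 * M / A ≤ x := (le_max_right _ _).trans hx
    rw [div_le_iff₀ hA0] at hxM
    have h1 := hlow x u hx0 (hu.trans (by gcongr; exact min_le_left _ _))
    have h2 := (abs_le.1 h1).1
    have hxJ : 0 < x ^ J := by positivity
    have h3 : 3 * a / 4 * u ^ 2 - b ^ 2 / a - |e| ≤ a * u ^ 2 + b * u + e := by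
      have e1 : 0 ≤ (a * u / 2 + b) ^ 2 / a := by positivity
      have e2 : (a * u / 2 + b) ^ 2 / a = a / 4 * u ^ 2 + b * u + b ^ 2 / a := by
        field_simp
        ring
      have := neg_abs_le e
      linarith
    have h4 : x ^ J * (3 * a / 4 * u ^ 2 - b ^ 2 / a - |e|) ≤ x ^ J * (a * u ^ 2 + b * u + e) := by
      gcongr
    have h5 : x ^ J * (2 * M) ≤ x ^ (J + 1) * A := by
      rw [pow_succ]
      nlinarith
    have h6 : min (a / 4) (A / 2) * (x ^ J * (1 + u ^ 2)) ≤ x ^ J * (A / 2 + a / 4 * u ^ 2) := by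
      have e1 : min (a / 4) (A / 2) * 1 ≤ A / 2 := by
        rw [mul_one]
        exact min_le_right _ _
      have e2 : min (a / 4) (A / 2) * u ^ 2 ≤ a / 4 * u ^ 2 := by
        gcongr
        exact min_le_left _ _
      have e3 : min (a / 4) (A / 2) * (x ^ J * (1 + u ^ 2)) =
          x ^ J * (min (a / 4) (A / 2) * 1 + min (a / 4) (A / 2) * u ^ 2) := by ring
      rw [e3]
      gcongr
    have h7 : x ^ J * A ≤ x ^ (J + 1) * A := by
      gcongr
      omega
    have h8 : x ^ J * (2 * M) = 2 * (x ^ J * (b ^ 2 / a + |e| + a)) := by rw [hM]; ring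
    have h9 : 0 ≤ x ^ J * u ^ 2 := by positivity
    nlinarith

end PP72
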