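import Pool.Agent.PP72.Double4g
import Pool.Agent.PP72.Double

/-!
Quartics: irrational directions with a double zero are thin.
-/

open Polynomial Finset Filter

namespace PP72

variable {α : ℝ} {d : ℕ} {h : ℕ → ℝ[X]}

theorem Pk.near_double4 (H : Pk α 4 h) (hne : h 4 ≠ 0) {θ : ℝ} (hθ : Irrational θ) (h0 : 0 < θ)
    (hα : θ < α) (hμ : rootMultiplicity θ (h 4) = 2) :
    ∃ ε : ℝ, 0 < ε ∧ Thin (fv 4 h) (Near α θ ε) := by
  rcases H.double_or 2 le_rfl hne hθ h0 hα hμ with hthin | ⟨hA, a, u0, ha, ha2, hb1, he⟩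
  · exact hthin
  · refine H.double4_core hne hθ hμ hA a u0 ha ha2 hb1 he fun X0 => ?_
    obtain ⟨P, hP1, hP2, hP3⟩ := exists_near hθ h0 hα u0 X0
    exact ⟨P, hP1, hP2, hP3.trans (by norm_num)⟩

end PP72
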