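import Mathlib

/-!
An arithmetic progression is not contained in the set of values of `Z₁² + a Z₂²`, `a > 0`,
nor in the set of squares.
-/

namespace PP72

open scoped NumberTheorySymbols

theorem jacobi_neg (a R : ℕ) (ha : 0 < a) (hR : 0 < R) :
    jacobiSym (-(a : ℤ)) (4 * a * R - 1) = -1 := by
  have hodd : Odd (4 * a * R - 1) := by
    have h1 : 1 ≤ a * R := Nat.mul_pos ha hR
    refine ⟨2 * (a * R) - 1, ?_⟩
    have : 4 * a * R = 4 * (a * R) := by ring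
    omega
  have h1 : 1 ≤ a * R := Nat.mul_pos ha hR
  have e4 : 4 * a * R = 4 * (a * R) := by ring
  -- J(-1 | n) = -1
  have hm1 : jacobiSym (-1) (4 * a * R - 1) = -1 := by
    rw [jacobiSym.at_neg_one hodd, ZMod.χ₄_nat_three_mod_four]
    omega
  -- J(a | n) = J(a | 4 a - 1) = 1
  have h2 : jacobiSym (a : ℤ) (4 * a * R - 1) = jacobiSym (a : ℤ) (4 * a - 1) := by
    rw [jacobiSym.mod_right _ hodd]
    congr 1
    have e1 : (a : ℤ).natAbs = a := Int.natAbs_natCast a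
    rw [e1]
    have h3 : 4 * a * R - 1 = (4 * a - 1) + 4 * a * (R - 1) := by
      obtain ⟨R', rfl⟩ : ∃ R', R = R' + 1 := ⟨R - 1, by omega⟩
      have : 4 * a * (R' + 1) = 4 * a * R' + 4 * a := by ring
      simp only [Nat.add_sub_cancel]
      omega
    rw [h3, Nat.add_mul_mod_self_left, Nat.mod_eq_of_lt (by omega)]
  have h3 : jacobiSym (a : ℤ) (4 * a - 1) = 1 := by
    have hodd' : Odd (4 * a - 1) := ⟨2 * a - 1, by omega⟩
    have h4 : jacobiSym ((2 : ℤ) ^ 2 * a) (4 * a - 1) = 1 := by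
      have h5 : jacobiSym ((2 : ℤ) ^ 2 * a) (4 * a - 1) = jacobiSym 1 (4 * a - 1) := by
        apply jacobiSym.mod_left'
        have h6 : (((4 * a - 1 : ℕ)) : ℤ) = 4 * a - 1 := by
          rw [Nat.cast_sub (by omega)]
          push_cast
          ring
        rw [h6]
        have h7 : (2 : ℤ) ^ 2 * a = 1 + (4 * a - 1) := by ring
        rw [h7, Int.add_emod_right]
      rw [h5, jacobiSym.one_left]
    rw [jacobiSym.mul_left] at h4
    have h5 : jacobiSym ((2 : ℤ) ^ 2) (4 * a - 1) = 1 := by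
      apply jacobiSym.sq_one'
      rw [Int.gcd_eq_natAbs]
      have : Nat.Coprime 2 (4 * a - 1) := by
        rw [Nat.coprime_two_left]
        exact hodd'
      simpa using this
    rw [h5, one_mul] at h4
    exact h4
  have h4 : (-(a : ℤ)) = (-1) * a := by ring
  rw [h4, jacobiSym.mul_left, hm1, h2, h3]
  norm_num

/-- An arithmetic progression is not contained in the set of values of `Z₁² + a Z₂²`. -/
theorem not_norm_form (R a : ℕ) (S : ℤ) (hR : 0 < R) (ha : 0 < a) :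
    ¬ ∀ n : ℕ, ∃ Z1 Z2 : ℤ, (R : ℤ) * n + S = Z1 ^ 2 + a * Z2 ^ 2 := by
  intro h
  obtain ⟨l, hl, hdvd, hJ⟩ := jacobiSym.eq_neg_one_at_prime_divisor_of_eq_neg_one
    (jacobi_neg a R ha hR)
  have hlR : ¬ l ∣ R := by
    intro h1
    have h2 : l ∣ 4 * a * R := Dvd.dvd.mul_left h1 _
    have h3 : l ∣ 1 := by
      have h4 : 1 ≤ a * R := Nat.mul_pos ha hR
      have h5 : 4 * a * R = 4 * (a * R) := by ring
      have h6 : 1 = 4 * a * R - (4 * a * R - 1) := by omega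
      rw [h6]
      exact Nat.dvd_sub h2 hdvd
    exact hl.one_lt.ne' (Nat.dvd_one.1 h3)
  -- choose n with R n + S ≡ l mod l^2
  have hcop : IsCoprime (R : ℤ) ((l : ℤ) ^ 2) := by
    apply IsCoprime.pow_right
    rw [Nat.isCoprime_iff_coprime]
    exact (Nat.Coprime.symm ((Nat.Prime.coprime_iff_not_dvd hl).2 hlR))
  obtain ⟨u, v, huv⟩ := hcop
  -- n0 = u (l - S) + k l^2 ≥ 0
  set n0 : ℤ := (u * (l - S)) % ((l : ℤ) ^ 2) with hn0
  have hl2 : (0 : ℤ) < (l : ℤ) ^ 2 := by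
    have : (0 : ℤ) < l := by exact_mod_cast hl.pos
    positivity
  have hn0' : 0 ≤ n0 := Int.emod_nonneg _ hl2.ne'
  obtain ⟨n, hn⟩ := Int.eq_ofNat_of_zero_le hn0'
  obtain ⟨Z1, Z2, hZ⟩ := h n
  have h1 : ∃ w : ℤ, Z1 ^ 2 + a * Z2 ^ 2 = l + (l : ℤ) ^ 2 * w := by
    have h2 := Int.emod_add_mul_ediv (u * (l - S)) ((l : ℤ) ^ 2)
    rw [← hn0] at h2
    refine ⟨-(R : ℤ) * ((u * (l - S)) / ((l : ℤ) ^ 2)) - v * (l - S), ?_⟩
    rw [← hZ]
    have h3 : (n : ℤ) = n0 := hn.symm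
    rw [h3]
    have h4 : n0 = u * (l - S) - (l : ℤ) ^ 2 * ((u * (l - S)) / ((l : ℤ) ^ 2)) := by linarith
    generalize (u * (l - S)) / ((l : ℤ) ^ 2) = w at h4 ⊢
    rw [h4]
    have h5 : (R : ℤ) * u = 1 - v * (l : ℤ) ^ 2 := by linarith
    calc (R : ℤ) * (u * (l - S) - (l : ℤ) ^ 2 * w) + S
        = ((R : ℤ) * u) * (l - S) - R * (l : ℤ) ^ 2 * w + S := by ring
      _ = (1 - v * (l : ℤ) ^ 2) * (l - S) - R * (l : ℤ) ^ 2 * w + S := by rw [h5]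
      _ = _ := by ring
  obtain ⟨w, hw⟩ := h1
  have hlZ : Prime (l : ℤ) := Nat.prime_iff_prime_int.1 hl
  have hdiv : (l : ℤ) ∣ Z1 ^ 2 + a * Z2 ^ 2 := by
    rw [hw]
    exact ⟨1 + l * w, by ring⟩
  have : Fact l.Prime := ⟨hl⟩
  have hZ2 : (l : ℤ) ∣ Z2 := by
    by_contra hnd
    have hne : ((Z2 : ℤ) : ZMod l) ≠ 0 := by
      rw [Ne, ZMod.intCast_zmod_eq_zero_iff_dvd]
      exact hnd
    have hsum : ((Z1 : ℤ) : ZMod l) ^ 2 + a * ((Z2 : ℤ) : ZMod l) ^ 2 = 0 := by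
      have h2 := (ZMod.intCast_zmod_eq_zero_iff_dvd (Z1 ^ 2 + a * Z2 ^ 2) l).2 hdiv
      push_cast at h2
      exact h2
    have hsq : IsSquare ((-(a : ℤ) : ℤ) : ZMod l) := by
      refine ⟨(Z1 : ZMod l) * (Z2 : ZMod l)⁻¹, ?_⟩
      push_cast
      have h3 : (Z1 : ZMod l) ^ 2 = -(a * (Z2 : ZMod l) ^ 2) := by
        linear_combination hsum
      have h4 : (Z2 : ZMod l) * (Z2 : ZMod l)⁻¹ = 1 := mul_inv_cancel₀ hne
      calc -(a : ZMod l) = -(a : ZMod l) * ((Z2 : ZMod l) * (Z2 : ZMod l)⁻¹) ^ 2 := by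
            rw [h4]; ring
        _ = (-(a * (Z2 : ZMod l) ^ 2)) * ((Z2 : ZMod l)⁻¹) ^ 2 := by ring
        _ = (Z1 : ZMod l) ^ 2 * ((Z2 : ZMod l)⁻¹) ^ 2 := by rw [← h3]
        _ = _ := by ring
    exact ZMod.nonsquare_of_jacobiSym_eq_neg_one hJ hsq
  have hZ1 : (l : ℤ) ∣ Z1 := by
    have h2 : (l : ℤ) ∣ Z1 ^ 2 := by
      have h3 : (l : ℤ) ∣ a * Z2 ^ 2 := Dvd.dvd.mul_left (dvd_pow hZ2 (by norm_num)) _
      have h4 := dvd_sub hdiv h3
      rwa [add_sub_cancel_right] at h4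
    exact hlZ.dvd_of_dvd_pow h2
  have h5 : (l : ℤ) ^ 2 ∣ Z1 ^ 2 + a * Z2 ^ 2 :=
    dvd_add (pow_dvd_pow_of_dvd hZ1 2) (Dvd.dvd.mul_left (pow_dvd_pow_of_dvd hZ2 2) _)
  have h6 : (l : ℤ) ^ 2 ∣ l := by
    have h7 : (l : ℤ) ^ 2 ∣ (l : ℤ) ^ 2 * w := ⟨w, rfl⟩
    have h8 := dvd_sub h5 h7
    rwa [hw, add_sub_cancel_right] at h8
  have h9 : (l : ℤ) ^ 2 ≤ l := Int.le_of_dvd (by exact_mod_cast hl.pos) h6
  have h10 : (2 : ℤ) ≤ l := by exact_mod_cast hl.two_le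
  nlinarith

/-- an arithmetic progression is not contained in the set of squares -/
theorem not_square (R : ℕ) (S : ℤ) (hR : 0 < R) :
    ¬ ∀ n : ℕ, ∃ Z : ℤ, (R : ℤ) * n + S = Z ^ 2 := by
  intro h
  apply not_norm_form R 1 S hR one_pos
  intro n
  obtain ⟨Z, hZ⟩ := h n
  exact ⟨Z, 0, by rw [hZ]; ring⟩

/-- common denominators -/
theorem exists_common_den (s : Finset ℚ) : ∃ W : ℕ, 0 < W ∧ ∀ r ∈ s, ∃ z : ℤ, (W : ℚ) * r = z := by
  refine ⟨∏ r ∈ s, r.den, Finset.prod_pos fun r _ => r.den_pos, fun r hr => ?_⟩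
  obtain ⟨m, hm⟩ := Finset.dvd_prod_of_mem (fun r : ℚ => r.den) hr
  refine ⟨m * r.num, ?_⟩
  rw [hm]
  push_cast
  have := Rat.mul_den_eq_num r
  rw [← this]
  ring

end PP72
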