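import Pool.Agent.PP72.Near

/-!
Quadratic irrational directions: factorisation of the forms and the coordinate `V₁`.
-/

open Polynomial Finset Filter

namespace PP72

variable {α : ℝ} {d : ℕ} {h : ℕ → ℝ[X]}

theorem lin1 {θ : ℝ} (hθ : Irrational θ) (a b : ℚ) (h : (a : ℝ) + b * θ = 0) : a = 0 ∧ b = 0 := by
  have hb : b = 0 := by
    by_contra hb
    apply hθ
    refine ⟨-a / b, ?_⟩
    have hb' : (b : ℝ) ≠ 0 := by exact_mod_cast hb
    push_cast
    field_simp
    linarith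
  subst hb
  refine ⟨?_, rfl⟩
  have : (a : ℝ) = 0 := by simpa using h
  exact_mod_cast this

theorem lin2 {θ : ℝ} (hθ : Irrational θ) {β δ0 : ℚ} (hq : θ ^ 2 + β * θ + δ0 = 0) (a b c : ℚ)
    (h : (a : ℝ) + b * θ + c * θ ^ 2 = 0) : a = c * δ0 ∧ b = c * β := by
  have h1 : ((a - c * δ0 : ℚ) : ℝ) + ((b - c * β : ℚ) : ℝ) * θ = 0 := by
    push_cast
    have : θ ^ 2 = -(β * θ) - δ0 := by linarith
    rw [this] at h
    linarith
  obtain ⟨h2, h3⟩ := lin1 hθ _ _ h1
  constructor <;> linarith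

/-- a rational polynomial with a double zero at an irrational point is divisible by the square of
the minimal polynomial -/
theorem minpoly_sq_dvd (P : ℚ[X]) (hP : P ≠ 0) {θ : ℝ} (hθ : Irrational θ)
    (h0 : aeval θ P = 0) (h1 : aeval θ (derivative P) = 0) :
    (minpoly ℚ θ) ^ 2 ∣ P ∧ 2 ≤ (minpoly ℚ θ).natDegree ∧ (minpoly ℚ θ).Monic := by
  have halg : IsAlgebraic ℚ θ := ⟨P, hP, h0⟩
  have hint : IsIntegral ℚ θ := halg.isIntegral
  have hmon : (minpoly ℚ θ).Monic := minpoly.monic hint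
  have hdeg : 2 ≤ (minpoly ℚ θ).natDegree := by
    rw [minpoly.two_le_natDegree_iff hint]
    intro hr
    obtain ⟨r, hr⟩ := hr
    apply hθ
    exact ⟨r, hr⟩
  obtain ⟨R, hR⟩ := minpoly.dvd ℚ θ h0
  have hm' : aeval θ (derivative (minpoly ℚ θ)) ≠ 0 := by
    intro hz
    have h2 := minpoly.dvd ℚ θ hz
    have h3 : derivative (minpoly ℚ θ) ≠ 0 := by
      intro h4
      have h5 := derivative_eq_zero.1 h4
      omega
    have h6 := natDegree_le_of_dvd h2 h3
    have h7 := natDegree_derivative_lt (p := minpoly ℚ θ) (by omega)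
    omega
  have hR0 : aeval θ R = 0 := by
    rw [hR, derivative_mul] at h1
    simp only [map_add, map_mul, minpoly.aeval, zero_mul, add_zero] at h1
    rcases mul_eq_zero.1 h1 with h2 | h2
    · exact absurd h2 hm'
    · exact h2
  obtain ⟨R', hR'⟩ := minpoly.dvd ℚ θ hR0
  refine ⟨⟨R', ?_⟩, hdeg, hmon⟩
  rw [hR]
  conv_lhs => rw [hR']
  ring

/-- the quadratic equation of an irrational double zero, for degree at most `5` -/
theorem Pk.exists_quad (H : Pk α d h) (hd5 : d ≤ 5) (hne : h d ≠ 0) {θ : ℝ} (hθ : Irrational θ)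
    (hμ : 2 ≤ rootMultiplicity θ (h d)) :
    ∃ β δ0 : ℚ, θ ^ 2 + β * θ + δ0 = 0 ∧ ∃ s : ℚ[X], s.natDegree ≤ d - 4 ∧
      h d = ((X ^ 2 + C β * X + C δ0) ^ 2 * s).map (algebraMap ℚ ℝ) := by
  obtain ⟨P, hP⟩ := H.rational d (by simp)
  obtain ⟨Q, hQ1, hQ2, hQ3, hQ4⟩ := taylor_root (h d) hne θ
  have hP0 : P ≠ 0 := by
    rintro rfl
    apply hne
    rw [hP, Polynomial.map_zero]
  have h0 : aeval θ P = 0 := by
    have := hQ3 0 (by omega)
    rw [taylor_coeff_zero, hP, eval_map_algebraMap] at this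
    exact this
  have h1 : aeval θ (derivative P) = 0 := by
    have := hQ3 1 (by omega)
    rw [taylor_coeff_one, hP, derivative_map, eval_map_algebraMap] at this
    exact this
  obtain ⟨⟨s, hs⟩, hdeg, hmon⟩ := minpoly_sq_dvd P hP0 hθ h0 h1
  set m := minpoly ℚ θ with hm
  have hPd : P.natDegree ≤ d := by
    have := H.deg d
    rw [hP, natDegree_map] at this
    exact this
  have hs0 : s ≠ 0 := by
    rintro rfl
    rw [mul_zero] at hs
    exact hP0 hs
  have hnd : P.natDegree = 2 * m.natDegree + s.natDegree := by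
    rw [hs, natDegree_mul (pow_ne_zero _ hmon.ne_zero) hs0, natDegree_pow]
  have hm2 : m.natDegree = 2 := by omega
  have hmeq : m = X ^ 2 + C (m.coeff 1) * X + C (m.coeff 0) := by
    have h2 := hmon.as_sum
    rw [hm2] at h2
    simp only [Finset.sum_range_succ, Finset.sum_range_zero, pow_zero, pow_one, mul_one,
      zero_add] at h2
    rw [h2]
    simp only [coeff_add, coeff_X_pow, coeff_C_mul, coeff_C, coeff_X]
    simp
    ring
  refine ⟨m.coeff 1, m.coeff 0, ?_, s, by omega, ?_⟩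
  · have h2 : aeval θ m = 0 := minpoly.aeval ℚ θ
    rw [hmeq] at h2
    simpa using h2
  · rw [hP, hs, ← hmeq]

/-- divisibility of a rational polynomial of degree `≤ 3` vanishing at a quadratic irrational -/
theorem div_quad {θ : ℝ} (hθ : Irrational θ) {β δ0 : ℚ} (hq : θ ^ 2 + β * θ + δ0 = 0)
    (a0 a1 a2 a3 : ℚ) (h : (a0 : ℝ) + a1 * θ + a2 * θ ^ 2 + a3 * θ ^ 3 = 0) :
    ∃ l0 l1 : ℚ, a0 = l0 * δ0 ∧ a1 = l0 * β + l1 * δ0 ∧ a2 = l0 + l1 * β ∧ a3 = l1 := by
  have h3 : θ ^ 3 = -(β * θ ^ 2) - δ0 * θ := by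
    have : θ ^ 3 = θ * θ ^ 2 := by ring
    have h2 : θ ^ 2 = -(β * θ) - δ0 := by linarith
    rw [this]
    nth_rewrite 1 [h2]
    ring
  have h4 : (a0 : ℝ) + ((a1 - a3 * δ0 : ℚ) : ℝ) * θ + ((a2 - a3 * β : ℚ) : ℝ) * θ ^ 2 = 0 := by
    push_cast
    rw [h3] at h
    linarith
  obtain ⟨h5, h6⟩ := lin2 hθ hq _ _ _ h4
  refine ⟨a2 - a3 * β, a3, h5, ?_, ?_, rfl⟩
  · linarith
  · ring

end PP72
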