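import Pool.Agent.PP72.VOne
import Pool.Agent.PP72.Vform
import Pool.Agent.PP72.Aux4
import Pool.Agent.PP72.Norm

/-!
Quartics: irrational directions with a double zero are thin.
-/

open Polynomial Finset Filter

namespace PP72

variable {α : ℝ} {d : ℕ} {h : ℕ → ℝ[X]}

/-- the values of a rational quadratic polynomial in `V₁` do not cover `ℕ` -/
theorem no_quadratic_in_V (c r r0 β δ0 l0 l1 : ℚ) (hc : 0 < c)
    (hsurj : ∀ n : ℕ, ∃ x y : ℕ, (n : ℚ) =
      c * ((y : ℚ) ^ 2 + β * x * y + δ0 * x ^ 2 + (l0 / (2 * c) * x + l1 / (2 * c) * y)) ^ 2 +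
      r * ((y : ℚ) ^ 2 + β * x * y + δ0 * x ^ 2 + (l0 / (2 * c) * x + l1 / (2 * c) * y)) + r0) :
    False := by
  obtain ⟨W, hW, hWr⟩ := exists_common_den
    {2 * c, 2 * c * β, 2 * c * δ0, l0, l1, r, 4 * c, r ^ 2 - 4 * c * r0}
  obtain ⟨z1, hz1⟩ := hWr (2 * c) (by simp)
  obtain ⟨z2, hz2⟩ := hWr (2 * c * β) (by simp)
  obtain ⟨z3, hz3⟩ := hWr (2 * c * δ0) (by simp)
  obtain ⟨z4, hz4⟩ := hWr l0 (by simp)
  obtain ⟨z5, hz5⟩ := hWr l1 (by simp)
  obtain ⟨z6, hz6⟩ := hWr r (by simp)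
  obtain ⟨r1, hr1⟩ := hWr (4 * c) (by simp)
  obtain ⟨r2, hr2⟩ := hWr (r ^ 2 - 4 * c * r0) (by simp)
  have hWpos : (0 : ℚ) < W := by exact_mod_cast hW
  have hr1pos : 0 < r1 := by
    have : (0 : ℚ) < r1 := by
      rw [← hr1]
      positivity
    exact_mod_cast this
  obtain ⟨R1, hR1⟩ := Int.eq_ofNat_of_zero_le hr1pos.le
  have hR1pos : 0 < R1 := by
    have : (0 : ℤ) < (R1 : ℤ) := by rw [← hR1]; exact hr1pos
    exact_mod_cast this
  apply not_square (W * R1) (W * r2) (by positivity)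
  intro n
  obtain ⟨x, y, hn⟩ := hsurj n
  refine ⟨z1 * y ^ 2 + z2 * (x * y) + z3 * x ^ 2 + z4 * x + z5 * y + z6, ?_⟩
  have key : 4 * c * n + (r ^ 2 - 4 * c * r0) =
      (2 * c * (y : ℚ) ^ 2 + 2 * c * β * (x * y) + 2 * c * δ0 * x ^ 2 + l0 * x + l1 * y + r) ^ 2 := by
    rw [hn]
    field_simp
    ring
  have hfin : ((W * R1 : ℕ) : ℚ) * n + (W * r2 : ℚ) =
      ((z1 : ℚ) * y ^ 2 + z2 * (x * y) + z3 * x ^ 2 + z4 * x + z5 * y + z6) ^ 2 := by
    have e1 : ((R1 : ℕ) : ℚ) = (r1 : ℚ) := by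
      rw [hR1]
      rfl
    push_cast
    rw [e1, ← hr1, ← hr2, ← hz1, ← hz2, ← hz3, ← hz4, ← hz5, ← hz6]
    calc (W : ℚ) * (W * (4 * c)) * n + W * (W * (r ^ 2 - 4 * c * r0))
        = (W : ℚ) ^ 2 * (4 * c * n + (r ^ 2 - 4 * c * r0)) := by ring
      _ = _ := by rw [key]; ring
  exact_mod_cast hfin

theorem Pk.double4_core (H : Pk α 4 h) (hne : h 4 ≠ 0) {θ : ℝ} (hθ : Irrational θ)
    (hμ : rootMultiplicity θ (h 4) = 2) (hA : (h 3).eval θ = 0) (a u0 : ℝ) (ha : 0 < a)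
    (ha2 : (taylor θ (h 4)).coeff 2 = a) (hb1 : (taylor θ (h 3)).coeff 1 = -2 * a * u0)
    (he : (h 2).eval θ = a * u0 ^ 2)
    (hnear : ∀ X0 : ℕ, ∃ P ∈ Sec α, X0 < P.1 ∧ (P.1 : ℝ) * |(P.2 : ℝ) - θ * P.1 - u0| ≤ 11) :
    ∃ ε : ℝ, 0 < ε ∧ Thin (fv 4 h) (Near α θ ε) := by
  obtain ⟨β, δ0, hq, s, hs, hfac⟩ := H.exists_quad (by norm_num) hne hθ hμ.ge
  obtain ⟨c, hc⟩ : ∃ c : ℚ, s = C c := ⟨s.coeff 0, eq_C_of_natDegree_le_zero (by omega)⟩
  set D : ℝ := 2 * θ + β with hD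
  have hDne : D ≠ 0 := irr_D_ne hθ β
  -- the form of degree four
  have h4 : ∀ T : ℝ, (h 4).eval T = c * (T ^ 2 + β * T + δ0) ^ 2 := by
    intro T
    rw [hfac, hc, eval_map_algebraMap]
    simp only [map_mul, map_pow, map_add, aeval_X, aeval_C]
    simp only [eq_ratCast]
    ring
  have hac : a = c * D ^ 2 := by
    have h5 : taylor θ (h 4) = C (c : ℝ) * X ^ 4 + C (2 * c * D) * X ^ 3 + C (c * D ^ 2) * X ^ 2 := by
      apply Polynomial.funext
      intro t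
      rw [taylor_eval, h4]
      simp only [eval_add, eval_mul, eval_C, eval_pow, eval_X]
      have e1 : (t + θ) ^ 2 + β * (t + θ) + δ0 = t ^ 2 + D * t + (θ ^ 2 + β * θ + δ0) := by
        rw [hD]
        ring
      rw [e1, hq]
      ring
    have h6 := ha2
    change (taylor θ (h 4)).coeff 2 = a at h6
    rw [h5] at h6
    simp only [coeff_add, coeff_C_mul, coeff_X_pow] at h6
    norm_num at h6
    exact h6.symm
  have hcpos' : (0 : ℝ) < c := by
    have hD2 : 0 < D ^ 2 := by positivity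
    by_contra hcon
    push Not at hcon
    have : (c : ℝ) * D ^ 2 ≤ 0 := mul_nonpos_of_nonpos_of_nonneg hcon hD2.le
    linarith
  have hcpos : 0 < c := by exact_mod_cast hcpos'
  -- the lower forms
  obtain ⟨A3, hA3, hA3e⟩ := H.rat_coeffs 3 (by norm_num)
  obtain ⟨A2, hA2, hA2e⟩ := H.rat_coeffs 2 (by norm_num)
  obtain ⟨A1, hA1, hA1e⟩ := H.rat_coeffs 1 (by norm_num)
  obtain ⟨A0, hA0, hA0e⟩ := H.rat_coeffs 0 (by norm_num)
  simp only [Finset.sum_range_succ, Finset.sum_range_zero, pow_zero, pow_one, zero_add,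
    mul_one] at hA3e hA2e hA1e hA0e
  have hA' : (h 3).eval θ = 0 := hA
  obtain ⟨l0, l1, hl0, hl1, hl2, hl3⟩ := div_quad hθ hq (A3 0) (A3 1) (A3 2) (A3 3) (by
    rw [← hA', hA3e])
  have hlam : (taylor θ (h 3)).coeff 1 = D * (l0 + l1 * θ) := by
    have h5 : taylor θ (h 3) = C (l1 : ℝ) * X ^ 3 + C (l0 + l1 * θ + l1 * D) * X ^ 2 +
        C (D * (l0 + l1 * θ)) * X := by
      apply Polynomial.funext
      intro t
      rw [taylor_eval, hA3e, hl0, hl1, hl2, hl3]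
      simp only [eval_add, eval_mul, eval_C, eval_pow, eval_X]
      push_cast
      have e1 : (l0 : ℝ) * δ0 + (l0 * β + l1 * δ0) * (t + θ) + (l0 + l1 * β) * (t + θ) ^ 2 +
          l1 * (t + θ) ^ 3 = (t ^ 2 + D * t + (θ ^ 2 + β * θ + δ0)) * (l0 + l1 * (t + θ)) := by
        rw [hD]
        ring
      rw [e1, hq]
      ring
    rw [h5]
    simp only [coeff_add, coeff_C_mul, coeff_X_pow, coeff_X]
    norm_num
  have hb2 : D * (l0 + l1 * θ) = -2 * a * u0 := by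
    rw [← hlam]
    exact hb1
  have hu0c : D * u0 = -(l0 + l1 * θ) / (2 * c) := by
    have h5 : D * (l0 + l1 * θ) = D * (-2 * c * (D * u0)) := by
      rw [hb2, hac]
      ring
    have h6 := mul_left_cancel₀ hDne h5
    rw [h6]
    field_simp
  have he' : (A2 0 : ℝ) + A2 1 * θ + A2 2 * θ ^ 2 = (l0 + l1 * θ) ^ 2 / (4 * c) := by
    rw [← hA2e]
    have h5 : (h 2).eval θ = a * u0 ^ 2 := he
    rw [h5, hac]
    have h6 : (c : ℝ) * D ^ 2 * u0 ^ 2 = c * (D * u0) ^ 2 := by ring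
    rw [h6, hu0c]
    field_simp
    ring
  obtain ⟨hp0, hp1⟩ := lin2 hθ hq (A2 0 - l0 ^ 2 / (4 * c)) (A2 1 - l0 * l1 / (2 * c))
    (A2 2 - l1 ^ 2 / (4 * c)) (by
      push_cast
      have : (l0 + l1 * θ : ℝ) ^ 2 / (4 * c) = l0 ^ 2 / (4 * c) + l0 * l1 / (2 * c) * θ +
          l1 ^ 2 / (4 * c) * θ ^ 2 := by
        field_simp
        ring
      rw [this] at he'
      linarith)
  set r := A2 2 - l1 ^ 2 / (4 * c) with hr
  set t0 := A1 0 - r * l0 / (2 * c) with ht0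
  set t1 := A1 1 - r * l1 / (2 * c) with ht1
  -- the polynomial in terms of `V₁`
  have hform : ∀ x y : ℝ, ev 4 h x y =
      c * V1f β δ0 (l0 / (2 * c)) (l1 / (2 * c)) x y ^ 2 +
      r * V1f β δ0 (l0 / (2 * c)) (l1 / (2 * c)) x y + (t0 * x + t1 * y) + A0 0 := by
    intro x y
    have hx : ∀ x : ℝ, x ≠ 0 → ev 4 h x y =
        c * V1f β δ0 (l0 / (2 * c)) (l1 / (2 * c)) x y ^ 2 +
        r * V1f β δ0 (l0 / (2 * c)) (l1 / (2 * c)) x y + (t0 * x + t1 * y) + A0 0 := by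
      intro x hx
      rw [ev_eq H.deg hx]
      simp only [Finset.sum_range_succ, Finset.sum_range_zero, pow_zero, pow_one, zero_add,
        one_mul]
      rw [h4, hA3e, hA2e, hA1e, hA0e, hl0, hl1, hl2, hl3]
      have hp0' : (A2 0 : ℝ) = r * δ0 + l0 ^ 2 / (4 * c) := by
        have : A2 0 = r * δ0 + l0 ^ 2 / (4 * c) := by linarith
        rw [this]
        push_cast
        ring
      have hp1' : (A2 1 : ℝ) = r * β + l0 * l1 / (2 * c) := by
        have : A2 1 = r * β + l0 * l1 / (2 * c) := by linarith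
        rw [this]
        push_cast
        ring
      have hp2' : (A2 2 : ℝ) = r + l1 ^ 2 / (4 * c) := by
        have : A2 2 = r + l1 ^ 2 / (4 * c) := by rw [hr]; ring
        rw [this]
        push_cast
        ring
      have hq0' : (A1 0 : ℝ) = t0 + r * l0 / (2 * c) := by
        have : A1 0 = t0 + r * l0 / (2 * c) := by rw [ht0]; ring
        rw [this]
        push_cast
        ring
      have hq1' : (A1 1 : ℝ) = t1 + r * l1 / (2 * c) := by
        have : A1 1 = t1 + r * l1 / (2 * c) := by rw [ht1]; ring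
        rw [this]
        push_cast
        ring
      rw [hp0', hp1', hp2', hq0', hq1']
      unfold V1f
      push_cast
      field_simp
      ring
    by_cases hx0 : x = 0
    · have h1 : Continuous fun x : ℝ => ev 4 h x y := by
        unfold ev
        fun_prop
      have h2 : Continuous fun x : ℝ => (c : ℝ) * V1f β δ0 (l0 / (2 * c)) (l1 / (2 * c)) x y ^ 2 +
          r * V1f β δ0 (l0 / (2 * c)) (l1 / (2 * c)) x y + (t0 * x + t1 * y) + A0 0 := by
        unfold V1f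
        fun_prop
      have h3 := h1.ext_on (dense_compl_singleton (0 : ℝ)) h2 (fun x hx' => hx x hx')
      exact congrFun h3 x
    · exact hx x hx0
  have hu0' : (2 * θ + β) * u0 = -(((l0 : ℝ) / (2 * c)) + ((l1 : ℝ) / (2 * c)) * θ) := by
    change D * u0 = _
    rw [hu0c]
    field_simp
  rcases lt_trichotomy ((t0 : ℝ) + t1 * θ) 0 with hτ | hτ | hτ
  · -- negative
    exfalso
    set k1 : ℝ := (l1 : ℝ) / (2 * c) with hk1
    set c0 : ℝ := |u0| + 1 with hc0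
    set B : ℝ := 11 * |D| + (c0 ^ 2 + |k1| * c0) with hB
    have hB0 : 0 ≤ B := by positivity
    set M : ℝ := c * B ^ 2 + |(r : ℝ)| * B + |(t1 : ℝ)| * c0 + |(A0 0 : ℝ)| + 1 with hM
    obtain ⟨X1, hX1⟩ := exists_nat_ge (M / (-((t0 : ℝ) + t1 * θ)) + 11)
    obtain ⟨P, hP1, hP2, hP3⟩ := hnear X1
    have hxP : M / (-((t0 : ℝ) + t1 * θ)) + 11 ≤ P.1 := hX1.trans (by exact_mod_cast hP2.le)
    have hM0 : 0 ≤ M := by positivity
    have hMd : 0 ≤ M / (-((t0 : ℝ) + t1 * θ)) := div_nonneg hM0 (by linarith)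
    have hx5 : (11 : ℝ) ≤ P.1 := by linarith
    have hxM : M / (-((t0 : ℝ) + t1 * θ)) ≤ P.1 := by linarith
    rw [div_le_iff₀ (by linarith)] at hxM
    set u := (P.2 : ℝ) - θ * P.1 with hu
    have hu1 : |u - u0| ≤ 1 := by
      have := mul_le_mul_of_nonneg_right hx5 (abs_nonneg (u - u0))
      linarith
    have hub : |u| ≤ c0 := by
      have : u = (u - u0) + u0 := by ring
      calc |u| = |(u - u0) + u0| := by rw [← this]
        _ ≤ |u - u0| + |u0| := abs_add_le _ _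
        _ ≤ c0 := by rw [hc0]; linarith
    have e1 : (P.2 : ℝ) = θ * P.1 + u := by rw [hu]; ring
    have hVb : |V1f β δ0 (l0 / (2 * c)) (l1 / (2 * c)) P.1 P.2| ≤ B := by
      rw [e1, V1f_eq hq hu0']
      calc |(2 * θ + β) * ((P.1 : ℝ) * (u - u0)) + (u ^ 2 + l1 / (2 * c) * u)|
          ≤ |(2 * θ + β) * ((P.1 : ℝ) * (u - u0))| + |u ^ 2 + l1 / (2 * c) * u| := abs_add_le _ _
        _ ≤ 11 * |D| + (c0 ^ 2 + |k1| * c0) := by
            apply add_le_add
            · rw [abs_mul, abs_mul, abs_of_nonneg (Nat.cast_nonneg P.1 : (0 : ℝ) ≤ (P.1 : ℝ))]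
              change |D| * _ ≤ _
              have := mul_le_mul_of_nonneg_left hP3 (abs_nonneg D)
              linarith
            · calc |u ^ 2 + l1 / (2 * c) * u| ≤ |u ^ 2| + |l1 / (2 * c) * u| := abs_add_le _ _
                _ = |u| ^ 2 + |k1| * |u| := by rw [abs_pow, abs_mul]
                _ ≤ _ := by gcongr
    obtain ⟨n, hn⟩ := H.val P hP1
    rw [hform] at hn
    set V := V1f β δ0 (l0 / (2 * c)) (l1 / (2 * c)) P.1 P.2 with hV
    have s1 : (c : ℝ) * V ^ 2 ≤ c * B ^ 2 := by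
      have : V ^ 2 ≤ B ^ 2 := by
        rw [← sq_abs V]
        gcongr
      gcongr
    have s2 : (r : ℝ) * V ≤ |(r : ℝ)| * B := by
      calc (r : ℝ) * V ≤ |(r : ℝ) * V| := le_abs_self _
        _ = |(r : ℝ)| * |V| := abs_mul _ _
        _ ≤ |(r : ℝ)| * B := by gcongr
    have s3 : (t1 : ℝ) * u ≤ |(t1 : ℝ)| * c0 := by
      calc (t1 : ℝ) * u ≤ |(t1 : ℝ) * u| := le_abs_self _
        _ = |(t1 : ℝ)| * |u| := abs_mul _ _
        _ ≤ |(t1 : ℝ)| * c0 := by gcongr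
    have s4 : (t0 : ℝ) * P.1 + t1 * P.2 = ((t0 : ℝ) + t1 * θ) * P.1 + t1 * u := by
      rw [e1]
      ring
    have s5 := le_abs_self (A0 0 : ℝ)
    have s6 : (0 : ℝ) ≤ n := Nat.cast_nonneg _
    rw [s4] at hn
    linarith
  · -- zero
    exfalso
    obtain ⟨ht00, ht10⟩ := lin1 hθ t0 t1 hτ
    apply no_quadratic_in_V c r (A0 0) β δ0 l0 l1 hcpos
    intro n
    obtain ⟨P, _, hn⟩ := H.surj n
    refine ⟨P.1, P.2, ?_⟩
    rw [hform, ht00, ht10] at hn
    unfold V1f at hn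
    have h2 : ((n : ℚ) : ℝ) = ((c * ((P.2 : ℚ) ^ 2 + β * P.1 * P.2 + δ0 * P.1 ^ 2 +
        (l0 / (2 * c) * P.1 + l1 / (2 * c) * P.2)) ^ 2 +
        r * ((P.2 : ℚ) ^ 2 + β * P.1 * P.2 + δ0 * P.1 ^ 2 +
        (l0 / (2 * c) * P.1 + l1 / (2 * c) * P.2)) + A0 0 : ℚ) : ℝ) := by
      push_cast at hn ⊢
      rw [← hn]
      ring
    exact_mod_cast h2
  · -- positive
    obtain ⟨ε, hε, hthin⟩ := thin_V1 (f := fv 4 h) hθ (k0 := (l0 : ℝ) / (2 * c))
      (k1 := (l1 : ℝ) / (2 * c)) hq hDne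
    set τ := (t0 : ℝ) + t1 * θ with hτdef
    refine ⟨min ε (τ / (2 * (|(t1 : ℝ)| + 1))), by positivity, ?_⟩
    apply hthin _ (fun P hP => near_abs (near_mono (min_le_left _ _) hP)) (min (c / 2) (τ / 2))
      ((r : ℝ) ^ 2 / (2 * c) - A0 0) (by positivity)
    intro P hP
    unfold fv
    rw [hform]
    set u := (P.2 : ℝ) - θ * P.1 with hu
    have e1 : (P.2 : ℝ) = θ * P.1 + u := by rw [hu]; ring
    have s4 : (t0 : ℝ) * P.1 + t1 * P.2 = τ * P.1 + t1 * u := by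
      rw [e1, hτdef]
      ring
    rw [s4]
    set V := V1f β δ0 (l0 / (2 * c)) (l1 / (2 * c)) P.1 P.2 with hV
    have s5 : |u| ≤ τ / (2 * (|(t1 : ℝ)| + 1)) * P.1 := by
      refine (near_abs hP).2.trans ?_
      gcongr
      exact min_le_right _ _
    have hxnn : (0 : ℝ) ≤ P.1 := Nat.cast_nonneg _
    have s6 : -(τ / 2 * P.1) ≤ t1 * u := by
      have : |(t1 : ℝ) * u| ≤ τ / 2 * P.1 := by
        rw [abs_mul]
        calc |(t1 : ℝ)| * |u| ≤ (|(t1 : ℝ)| + 1) * (τ / (2 * (|(t1 : ℝ)| + 1)) * P.1) := by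
              gcongr
              linarith
          _ = τ / 2 * P.1 := by field_simp
      linarith [(abs_le.1 this).1]
    have s7 : (c : ℝ) / 2 * V ^ 2 - (r : ℝ) ^ 2 / (2 * c) ≤ c * V ^ 2 + r * V := by
      have e2 : 0 ≤ (c * V + r) ^ 2 / (2 * c) := by positivity
      have e3 : (c * V + r) ^ 2 / (2 * c) = (c : ℝ) / 2 * V ^ 2 + r * V + (r : ℝ) ^ 2 / (2 * c) := by
        field_simp
        ring
      linarith
    have s8 : min ((c : ℝ) / 2) (τ / 2) * V ^ 2 ≤ c / 2 * V ^ 2 := by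
      gcongr
      exact min_le_left _ _
    have s9 : min ((c : ℝ) / 2) (τ / 2) * (P.1 : ℝ) ≤ τ / 2 * P.1 := by
      gcongr
      exact min_le_right _ _
    rw [mul_add]
    linarith

end PP72
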