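import Pool.Agent.PP72.Fin9

/-!
The structure of the leading form, for polynomials in two variables.
-/

open Polynomial Finset Filter

namespace PP72

/-- **The structure theorem**, for polynomials in two variables. -/
theorem structure_final {α : ℝ} (hα : 0 < α) (hirr : Irrational α) (F : MvPolynomial (Fin 2) ℝ)
    (hd : 3 ≤ F.totalDegree) (hF : IsPacking α F) :
    ∃ θ ∈ Set.Icc 0 α, (formPoly F F.totalDegree).eval θ = 0 ∧
      (formPoly F (F.totalDegree - 1)).eval θ = 0 ∧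
      ((formPoly F (F.totalDegree - 2)).eval θ ≤ 0 ∨
        (X - C θ) ^ (rootMultiplicity θ (formPoly F F.totalDegree) + 1) ∣
          formPoly F (F.totalDegree - 1) ^ 2 -
            4 * formPoly F F.totalDegree * formPoly F (F.totalDegree - 2)) ∧
      (0 ≤ (formPoly F (F.totalDegree - 2)).eval θ ∨
        rootMultiplicity θ (formPoly F F.totalDegree) = 1) ∧
      (((∃ r : ℚ, θ = r) ∧ 6 ≤ rootMultiplicity θ (formPoly F F.totalDegree)) ∨
        (Irrational θ ∧ 3 ≤ rootMultiplicity θ (formPoly F F.totalDegree)) ∨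
        (Irrational θ ∧ rootMultiplicity θ (formPoly F F.totalDegree) ≤ 2 ∧
          (∃ (m : ℚ[X]) (c : ℚ), Irreducible m ∧ 3 ≤ m.natDegree ∧ c ≠ 0 ∧
            formPoly F F.totalDegree =
              (C c * m ^ rootMultiplicity θ (formPoly F F.totalDegree)).map
                (algebraMap ℚ ℝ)) ∧
          (rootMultiplicity θ (formPoly F F.totalDegree) = 1 →
            θ = α ∧ formPoly F (F.totalDegree - 1) = 0 ∧
              (formPoly F (F.totalDegree - 2)).eval α ≤ 0) ∧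
          (∃ K : ℝ, ∀ X0 : ℕ, ∃ x y : ℕ, X0 < x ∧ (y : ℝ) ≤ α * x ∧
            |(y : ℝ) - θ * x| ≤ K ∧
            MvPolynomial.eval ![(x : ℝ), (y : ℝ)] F ≤ K * Real.log x ^ 2) ∧
          (∃ s t : ℝ, IsAlgebraic ℚ s ∧ IsAlgebraic ℚ t ∧ ∀ X0 : ℕ, ∃ x y : ℕ, X0 < x ∧
            (x : ℝ) * (x * (y - θ * x - s) - t) ^ 4 < 1))) := by
  have H := hF.pk hα hirr
  have hne := formPoly_lead_ne_zero F (by omega : 1 ≤ F.totalDegree)
  obtain ⟨θ, hθ, h1, h2, h3, h4, h5⟩ := H.structure hd hne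
  refine ⟨θ, hθ, h1, h2, h3, h4, ?_⟩
  rcases h5 with h5 | h5 | ⟨g1, g2, k1, k2, ⟨K, k3⟩, k4⟩
  · exact Or.inl h5
  · exact Or.inr (Or.inl h5)
  · refine Or.inr (Or.inr ⟨g1, g2, k1, k2, ⟨K, fun X0 => ?_⟩, k4⟩)
    obtain ⟨⟨x, y⟩, hP, hx, hu, hv⟩ := k3 X0
    refine ⟨x, y, hx, hP, hu, ?_⟩
    rw [← ev_formPoly F x y]
    exact hv

end PP72
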