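import Pool.Agent.PP72.Tri3

/-!
Points near a line, with approximation properties.
-/

open Polynomial Finset Filter

namespace PP72

variable {α : ℝ} {d : ℕ} {h : ℕ → ℝ[X]}

/-- zeros of polynomials with algebraic coefficients -/
theorem alg_of_root {p : ℝ[X]} (hp0 : p ≠ 0) (hp : ∀ i, p.coeff i ∈ algebraicClosure ℚ ℝ) {t : ℝ}
    (ht : p.eval t = 0) : t ∈ algebraicClosure ℚ ℝ := by
  have : Algebra.IsAlgebraic ℚ (algebraicClosure ℚ ℝ) := algebraicClosure.isAlgebraic ℚ ℝ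
  have hl : p ∈ Polynomial.lifts (algebraMap (algebraicClosure ℚ ℝ) ℝ) := by
    rw [lifts_iff_coeff_lifts]
    intro n
    exact ⟨⟨p.coeff n, hp n⟩, rfl⟩
  obtain ⟨q, hq⟩ := (mem_lifts p).1 hl
  rw [mem_algebraicClosure_iff]
  apply IsAlgebraic.restrictScalars ℚ (S := algebraicClosure ℚ ℝ)
  refine ⟨q, ?_, ?_⟩
  · rintro rfl
    apply hp0
    rw [← hq, Polynomial.map_zero]
  · rw [← hq, eval_map_algebraMap] at ht
    exact ht

theorem prod_lower (x w : ℝ) (hx : 0 ≤ x) (m : Multiset ℝ)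
    (hm : ∀ t ∈ m, 1 ≤ x * (w - t) ^ 4) :
    1 ≤ x ^ m.card * ((m.map fun a => X - C a).prod.eval w) ^ 4 := by
  induction m using Multiset.induction with
  | empty => simp
  | cons t m ih =>
    rw [Multiset.card_cons, Multiset.map_cons, Multiset.prod_cons, eval_mul]
    have h1 := hm t (Multiset.mem_cons_self t m)
    have h2 := ih fun t' ht' => hm t' (Multiset.mem_cons_of_mem ht')
    have h3 : (X - C t : ℝ[X]).eval w = w - t := by simp
    rw [h3]
    have key : ∀ E : ℝ, 1 ≤ x ^ m.card * E ^ 4 → 1 ≤ x ^ (m.card + 1) * ((w - t) * E) ^ 4 := by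
      intro E hE
      calc (1 : ℝ) = 1 * 1 := by norm_num
        _ ≤ (x * (w - t) ^ 4) * (x ^ m.card * E ^ 4) := by gcongr
        _ = x ^ (m.card + 1) * ((w - t) * E) ^ 4 := by ring
    exact key _ h2

/-- a polynomial of degree at most three at `w = x (y - θ x - s)` -/
theorem poly_lower {θ s : ℝ} {q : ℝ[X]} (hq : q ≠ 0) (hqd : q.natDegree ≤ 3)
    (halg : ∀ i, q.coeff i ∈ algebraicClosure ℚ ℝ)
    (hS : ∀ t : ℝ, IsAlgebraic ℚ t → ∃ X0 : ℕ, ∀ x y : ℕ, X0 < x →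
      1 ≤ (x : ℝ) * (x * (y - θ * x - s) - t) ^ 4) (W : ℝ) :
    ∃ c : ℝ, 0 < c ∧ ∃ X1 : ℕ, ∀ x y : ℕ, X1 < x → |(x : ℝ) * (y - θ * x - s)| ≤ W →
      c ≤ (x : ℝ) ^ 3 * (q.eval ((x : ℝ) * (y - θ * x - s))) ^ 4 := by
  classical
  obtain ⟨r, hr1, hr2, hr3⟩ := exists_prod_multiset_X_sub_C_mul q
  have hr0 : r ≠ 0 := by
    rintro rfl
    rw [mul_zero] at hr1
    exact hq hr1.symm
  -- lower bound for the factor without zeros
  obtain ⟨c0, hc0, hc⟩ : ∃ c0 : ℝ, 0 < c0 ∧ ∀ w ∈ Set.Icc (-W) W, c0 ≤ |r.eval w| := by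
    rcases (Set.Icc (-W) W).eq_empty_or_nonempty with hemp | hne
    · exact ⟨1, one_pos, fun w hw => absurd hw (by rw [hemp]; exact Set.notMem_empty _)⟩
    · obtain ⟨w0, hw0, hmin⟩ := isCompact_Icc.exists_isMinOn hne
        (r.continuous.abs.continuousOn (s := Set.Icc (-W) W))
      refine ⟨|r.eval w0|, ?_, fun w hw => hmin hw⟩
      rw [abs_pos]
      intro h1
      have h2 : w0 ∈ r.roots := (mem_roots hr0).2 h1
      rw [hr3] at h2
      exact Multiset.notMem_zero _ h2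
  -- the zeros
  have hroot : ∀ t, ∃ X0 : ℕ, t ∈ q.roots → ∀ x y : ℕ, X0 < x →
      1 ≤ (x : ℝ) * (x * (y - θ * x - s) - t) ^ 4 := by
    intro t
    by_cases ht : t ∈ q.roots
    · obtain ⟨X0, hX0⟩ := hS t (mem_algebraicClosure_iff.1
        (alg_of_root hq halg ((mem_roots hq).1 ht)))
      exact ⟨X0, fun _ => hX0⟩
    · exact ⟨0, fun h1 => absurd h1 ht⟩
  choose f hf using hroot
  refine ⟨c0 ^ 4, by positivity, q.roots.toFinset.sup f, fun x y hx hw => ?_⟩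
  set w := (x : ℝ) * (y - θ * x - s) with hwdef
  have hxp : 0 < x := by omega
  have hx1 : (1 : ℝ) ≤ x := by exact_mod_cast hxp
  have h1 := prod_lower x w (by linarith) q.roots (by
    intro t ht
    apply hf t ht x y
    have : f t ≤ q.roots.toFinset.sup f := Finset.le_sup (Multiset.mem_toFinset.2 ht)
    omega)
  have h2 := hc w (abs_le.1 hw)
  have h3 : q.eval w = (q.roots.map fun a => X - C a).prod.eval w * r.eval w := by
    conv_lhs => rw [← hr1]
    rw [eval_mul]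
  have hcard : q.roots.card ≤ 3 := by omega
  have h4 : (x : ℝ) ^ q.roots.card ≤ (x : ℝ) ^ 3 := pow_le_pow_right₀ hx1 hcard
  have h5 : c0 ^ 4 ≤ (r.eval w) ^ 4 := by
    have : (r.eval w) ^ 4 = |r.eval w| ^ 4 := by
      rw [pow_abs, abs_of_nonneg (by positivity)]
    rw [this]
    gcongr
  set p := (q.roots.map fun a => X - C a).prod.eval w with hp
  calc c0 ^ 4 = 1 * c0 ^ 4 := (one_mul _).symm
    _ ≤ ((x : ℝ) ^ q.roots.card * p ^ 4) * (r.eval w) ^ 4 := by gcongr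
    _ ≤ ((x : ℝ) ^ 3 * p ^ 4) * (r.eval w) ^ 4 := by gcongr
    _ = (x : ℝ) ^ 3 * (q.eval w) ^ 4 := by
        rw [h3]
        ring

/-- Taylor expansion with remainder, in powers of `1 / x` -/
theorem taylor_inv (g : ℝ[X]) (s W : ℝ) (m : ℕ) : ∃ C : ℝ, 0 ≤ C ∧ ∀ x u : ℝ, 1 ≤ x →
    x * |u - s| ≤ W →
    |g.eval u - ∑ i ∈ range m, (taylor s g).coeff i * (u - s) ^ i| ≤ C / x ^ m := by
  set p := taylor s g with hp
  set N := p.natDegree + 1 with hN
  refine ⟨∑ i ∈ range N, |p.coeff (m + i)| * |W| ^ (m + i),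
    Finset.sum_nonneg fun i _ => by positivity, fun x u hx hu => ?_⟩
  have hxpos : 0 < x := by linarith
  have h1 : g.eval u = p.eval (u - s) := by
    rw [hp, taylor_eval]
    congr 1
    ring
  rw [h1, Polynomial.eval_eq_sum_range' (n := m + N) (by omega), Finset.sum_range_add,
    add_sub_cancel_left, Finset.sum_div]
  refine (Finset.abs_sum_le_sum_abs _ _).trans (Finset.sum_le_sum fun i _ => ?_)
  rw [abs_mul, abs_pow, mul_div_assoc]
  apply mul_le_mul_of_nonneg_left _ (abs_nonneg _)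
  rw [le_div_iff₀ (by positivity)]
  calc |u - s| ^ (m + i) * x ^ m ≤ |u - s| ^ (m + i) * x ^ (m + i) := by
        have := pow_le_pow_right₀ hx (by omega : m ≤ m + i)
        gcongr
    _ = (x * |u - s|) ^ (m + i) := by rw [mul_pow]; ring
    _ ≤ |W| ^ (m + i) := by
        have := hu.trans (le_abs_self W)
        gcongr

/-- the logarithmic bound, from a lower bound for a polynomial -/
theorem log_of_lower {η c C : ℝ} (hη : 0 < η) (hc : 0 < c) (hC : 0 ≤ C) (m : ℕ) : ∃ X0 : ℕ,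
    ∀ x : ℕ, X0 < x → ∀ f q : ℝ, c ≤ (x : ℝ) ^ 3 * q ^ 4 →
      |f - (x : ℝ) ^ (m + 1) * q| ≤ C * (x : ℝ) ^ m → 0 ≤ f → Real.log x ^ 2 ≤ η * f := by
  set K := C + 1 / η with hK
  have hK0 : 0 < K := by positivity
  have hlit := (Real.isLittleO_pow_log_id_atTop (n := 8)).def
    (by positivity : (0 : ℝ) < c / K ^ 4)
  obtain ⟨X1, hX1⟩ := eventually_atTop.1 hlit
  obtain ⟨X0, hX0⟩ := exists_nat_ge (max X1 3)
  refine ⟨X0, fun x hx f q hq hf hf0 => ?_⟩
  have hxX : max X1 3 ≤ (x : ℝ) := hX0.trans (by exact_mod_cast hx.le)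
  have hx3 : (3 : ℝ) ≤ x := (le_max_right _ _).trans hxX
  have hxX1 : X1 ≤ (x : ℝ) := (le_max_left _ _).trans hxX
  have hlog1 : 1 ≤ Real.log x := by
    rw [Real.le_log_iff_exp_le (by linarith)]
    have := Real.exp_one_lt_d9
    linarith
  have hlog2 : 1 ≤ Real.log x ^ 2 := one_le_pow₀ hlog1
  have h3 := hX1 x hxX1
  rw [Real.norm_eq_abs, Real.norm_eq_abs, id, abs_of_nonneg (by positivity),
    abs_of_nonneg (by linarith : (0 : ℝ) ≤ x), div_mul_eq_mul_div, le_div_iff₀ (by positivity)]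
    at h3
  -- `K log² x ≤ x |q|`
  have h4 : K * Real.log x ^ 2 ≤ x * |q| := by
    have h5 : (K * Real.log x ^ 2) ^ 4 ≤ (x * |q|) ^ 4 := by
      calc (K * Real.log x ^ 2) ^ 4 = Real.log x ^ 8 * K ^ 4 := by ring
        _ ≤ c * x := h3
        _ ≤ ((x : ℝ) ^ 3 * q ^ 4) * x := by gcongr
        _ = (x * |q|) ^ 4 := by
            rw [mul_pow, pow_abs, abs_of_nonneg (by positivity : 0 ≤ q ^ 4)]
            ring
    exact le_of_pow_le_pow_left₀ (by norm_num) (by positivity) h5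
  have h5 : C + 1 / η * Real.log x ^ 2 ≤ x * |q| := by
    refine le_trans ?_ h4
    rw [hK, add_mul]
    have : C * 1 ≤ C * Real.log x ^ 2 := by gcongr
    linarith
  have hxm : 1 ≤ (x : ℝ) ^ m := one_le_pow₀ (by linarith)
  have h6 : (x : ℝ) ^ m * (x * |q| - C) ≤ f := by
    have h7 : |(x : ℝ) ^ (m + 1) * q| ≤ |f| + |f - (x : ℝ) ^ (m + 1) * q| := by
      have h8 : (x : ℝ) ^ (m + 1) * q = f - (f - (x : ℝ) ^ (m + 1) * q) := by ring
      calc |(x : ℝ) ^ (m + 1) * q| = |f - (f - (x : ℝ) ^ (m + 1) * q)| := by rw [← h8]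
        _ ≤ |f| + |f - (x : ℝ) ^ (m + 1) * q| := abs_sub _ _
    rw [abs_mul, abs_of_nonneg hf0, abs_of_nonneg (by positivity : 0 ≤ (x : ℝ) ^ (m + 1))] at h7
    have h8 : (x : ℝ) ^ (m + 1) * |q| = (x : ℝ) ^ m * (x * |q|) := by ring
    rw [mul_sub]
    linarith
  have h7 : 1 / η * Real.log x ^ 2 ≤ f := by
    have h9 : 0 ≤ x * |q| - C := by
      have : 0 ≤ 1 / η * Real.log x ^ 2 := by positivity
      linarith
    calc 1 / η * Real.log x ^ 2 ≤ x * |q| - C := by linarith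
      _ = 1 * (x * |q| - C) := (one_mul _).symm
      _ ≤ (x : ℝ) ^ m * (x * |q| - C) := by gcongr
      _ ≤ f := h6
  rw [one_div, inv_mul_eq_div, div_le_iff₀ hη] at h7
  linarith

/-- **points near a line are thin**, under the approximation property -/
theorem Pk.thin_ln_far (n : ℕ) (hn : n + 4 ≤ d) (H : Pk α d h) (hne : h d ≠ 0)
    {θ s : ℝ} (hirr : Irrational θ) (hθ : θ ∈ algebraicClosure ℚ ℝ)
    (hs : s ∈ algebraicClosure ℚ ℝ)
    (hv : ∀ j, n + 4 < j → j ≤ d → ∀ u, (gT d h θ j).eval u = 0)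
    (hdeg : (gT d h θ (n + 4)).natDegree ≤ 3) (hG : gT d h θ (n + 4) ≠ 0)
    (hz : (gT d h θ (n + 4)).eval s = 0)
    (hS : ∀ t : ℝ, IsAlgebraic ℚ t → ∃ X0 : ℕ, ∀ x y : ℕ, X0 < x →
      1 ≤ (x : ℝ) * (x * (y - θ * x - s) - t) ^ 4) (W : ℝ) :
    Thin (fv d h) (Ln α θ s W) := by
  apply H.thin_ln_log (by omega) hne hirr
  -- the coefficients
  set c : ℕ → ℕ → ℝ := fun j i => (taylor s (gT d h θ j)).coeff i with hc
  have hcalg : ∀ j i, c j i ∈ algebraicClosure ℚ ℝ := fun j i =>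
    taylor_mem_alg (H.gT_mem_alg hθ j) hs i
  obtain ⟨C4, hC40, hC4⟩ := taylor_inv (gT d h θ (n + 4)) s W 4
  obtain ⟨C3, hC30, hC3⟩ := taylor_inv (gT d h θ (n + 3)) s W 3
  obtain ⟨C2, hC20, hC2⟩ := taylor_inv (gT d h θ (n + 2)) s W 2
  obtain ⟨C1, hC10, hC1⟩ := taylor_inv (gT d h θ (n + 1)) s W 1
  obtain ⟨C0, hC00, hC0⟩ := low_bdd n (gT d h θ) (|s| + |W|)
  have hc00 : c (n + 4) 0 = 0 := by
    rw [hc]
    change (taylor s (gT d h θ (n + 4))).coeff 0 = 0
    rw [taylor_coeff_zero]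
    exact hz
  -- the expansion in powers of `x`, with `w = x (y - θ x - s)`
  set q1 : ℝ[X] := C (c (n + 4) 1) * X + C (c (n + 3) 0) with hq1
  set q2 : ℝ[X] := C (c (n + 4) 2) * X ^ 2 + C (c (n + 3) 1) * X + C (c (n + 2) 0) with hq2
  set q3 : ℝ[X] := C (c (n + 4) 3) * X ^ 3 + C (c (n + 3) 2) * X ^ 2 +
    C (c (n + 2) 1) * X + C (c (n + 1) 0) with hq3
  set D := C4 + C3 + C2 + C1 + C0 with hD
  have hD0 : 0 ≤ D := by positivity
  have hexp : ∀ P ∈ Ln α θ s W, |fv d h P - ((P.1 : ℝ) ^ (n + 3) *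
      q1.eval (P.1 * ((P.2 : ℝ) - θ * P.1 - s)) + (P.1 : ℝ) ^ (n + 2) *
      q2.eval (P.1 * ((P.2 : ℝ) - θ * P.1 - s)) + (P.1 : ℝ) ^ (n + 1) *
      q3.eval (P.1 * ((P.2 : ℝ) - θ * P.1 - s)))| ≤ D * (P.1 : ℝ) ^ n := by
    rintro P ⟨hP1, hP2, hP3⟩
    have hx1 : (1 : ℝ) ≤ P.1 := by exact_mod_cast hP2
    have hxpos : (0 : ℝ) < P.1 := by linarith
    set u := (P.2 : ℝ) - θ * P.1 with hu
    have g4 := hC4 P.1 u hx1 hP3
    have g3 := hC3 P.1 u hx1 hP3
    have g2 := hC2 P.1 u hx1 hP3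
    have g1 := hC1 P.1 u hx1 hP3
    have g0 := hC0 P.1 u hx1 (by
      have h4 : |u - s| ≤ P.1 * |u - s| := le_mul_of_one_le_left (abs_nonneg _) hx1
      have h5 := le_abs_self W
      calc |u| = |(u - s) + s| := by ring_nf
        _ ≤ |u - s| + |s| := abs_add_le _ _
        _ ≤ |s| + |W| := by linarith)
    rw [H.fv_trunc θ (n + 4) hn hv, Finset.sum_range_succ, Finset.sum_range_succ,
      Finset.sum_range_succ, Finset.sum_range_succ]
    rw [← hu]
    simp only [Finset.sum_range_succ, Finset.sum_range_zero, zero_add, pow_zero, pow_one,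
      mul_one] at g4 g3 g2 g1
    have hmul : ∀ (k : ℕ) (a b Cc : ℝ), |a - b| ≤ Cc / (P.1 : ℝ) ^ k →
        |(P.1 : ℝ) ^ (n + k) * a - (P.1 : ℝ) ^ (n + k) * b| ≤ Cc * (P.1 : ℝ) ^ n := by
      intro k a b Cc hab
      rw [← mul_sub, abs_mul, abs_of_pos (by positivity : (0 : ℝ) < (P.1 : ℝ) ^ (n + k))]
      calc (P.1 : ℝ) ^ (n + k) * |a - b| ≤ (P.1 : ℝ) ^ (n + k) * (Cc / (P.1 : ℝ) ^ k) := by gcongr
        _ = Cc * (P.1 : ℝ) ^ n := by
            rw [pow_add]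
            field_simp
    have k4 := abs_le.1 (hmul 4 _ _ _ g4)
    have k3 := abs_le.1 (hmul 3 _ _ _ g3)
    have k2 := abs_le.1 (hmul 2 _ _ _ g2)
    have k1 := abs_le.1 (hmul 1 _ _ C1 (by rw [pow_one]; exact g1))
    have k0 := abs_le.1 g0
    have e4 : (P.1 : ℝ) ^ (n + 3) * q1.eval (P.1 * (u - s)) + (P.1 : ℝ) ^ (n + 2) *
        q2.eval (P.1 * (u - s)) + (P.1 : ℝ) ^ (n + 1) * q3.eval (P.1 * (u - s)) =
        (P.1 : ℝ) ^ (n + 4) * (c (n + 4) 0 + c (n + 4) 1 * (u - s) +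
          c (n + 4) 2 * (u - s) ^ 2 + c (n + 4) 3 * (u - s) ^ 3) +
        (P.1 : ℝ) ^ (n + 3) * (c (n + 3) 0 + c (n + 3) 1 * (u - s) +
          c (n + 3) 2 * (u - s) ^ 2) +
        (P.1 : ℝ) ^ (n + 2) * (c (n + 2) 0 + c (n + 2) 1 * (u - s)) +
        (P.1 : ℝ) ^ (n + 1) * c (n + 1) 0 := by
      rw [hc00, hq1, hq2, hq3]
      simp only [eval_add, eval_mul, eval_C, eval_X, eval_pow]
      ring
    rw [e4, abs_le]
    have hDn : D * (P.1 : ℝ) ^ n = C4 * (P.1 : ℝ) ^ n + C3 * (P.1 : ℝ) ^ n +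
        C2 * (P.1 : ℝ) ^ n + C1 * (P.1 : ℝ) ^ n + C0 * (P.1 : ℝ) ^ n := by
      rw [hD]
      ring
    rw [hDn]
    simp only [hc]
    constructor
    · linarith [k4.1, k3.1, k2.1, k1.1, k0.1]
    · linarith [k4.2, k3.2, k2.2, k1.2, k0.2]
  -- conclusion from one of the polynomials
  have hfin : ∀ (m : ℕ) (q : ℝ[X]) (Cq : ℝ), q ≠ 0 → q.natDegree ≤ 3 →
      (∀ i, q.coeff i ∈ algebraicClosure ℚ ℝ) → 0 ≤ Cq →
      (∀ P ∈ Ln α θ s W, |fv d h P - (P.1 : ℝ) ^ (m + 1) *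
        q.eval (P.1 * ((P.2 : ℝ) - θ * P.1 - s))| ≤ Cq * (P.1 : ℝ) ^ m) →
      ∀ η : ℝ, 0 < η → ∃ X0 : ℕ, ∀ P ∈ Ln α θ s W, X0 < P.1 →
        Real.log P.1 ^ 2 ≤ η * fv d h P := by
    intro m q Cq hq hqd hqalg hCq hbd η hη
    obtain ⟨c, hc, X1, hX1⟩ := poly_lower hq hqd hqalg hS W
    obtain ⟨X2, hX2⟩ := log_of_lower hη hc hCq m
    refine ⟨X1 + X2, fun P hP hx => ?_⟩
    apply hX2 P.1 (by omega) _ _ _ (hbd P hP) (H.fv_nonneg hP.1)
    apply hX1 P.1 P.2 (by omega)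
    obtain ⟨_, h2, h3⟩ := hP
    have hxpos : (0 : ℝ) < P.1 := by exact_mod_cast h2
    rw [abs_mul, abs_of_pos hxpos]
    exact h3
  have hb : ∀ q : ℝ[X], ∃ B : ℝ, 0 ≤ B ∧ ∀ P ∈ Ln α θ s W,
      |q.eval (P.1 * ((P.2 : ℝ) - θ * P.1 - s))| ≤ B := by
    intro q
    obtain ⟨B, hB0, hB⟩ := poly_bdd q W
    refine ⟨B, hB0, fun P hP => hB _ ?_⟩
    obtain ⟨_, h2, h3⟩ := hP
    have hxpos : (0 : ℝ) < P.1 := by exact_mod_cast h2
    rw [abs_mul, abs_of_pos hxpos]
    exact h3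
  obtain ⟨B2, hB20, hB2⟩ := hb q2
  obtain ⟨B3, hB30, hB3⟩ := hb q3
  have hxp : ∀ P ∈ Ln α θ s W, (1 : ℝ) ≤ P.1 := by
    rintro P ⟨_, h2, _⟩
    exact_mod_cast h2
  by_cases hq1z : q1 = 0
  · by_cases hq2z : q2 = 0
    · have hq3z : q3 ≠ 0 := by
        intro h3
        apply hG
        have t1 : c (n + 4) 1 = 0 := by
          have := congrArg (fun p => coeff p 1) hq1z
          simpa [hq1] using this
        have t2 : c (n + 4) 2 = 0 := by
          have := congrArg (fun p => coeff p 2) hq2z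
          simpa [hq2, coeff_X, coeff_C] using this
        have t3 : c (n + 4) 3 = 0 := by
          have := congrArg (fun p => coeff p 3) h3
          simpa [hq3, coeff_X, coeff_C, coeff_X_pow] using this
        have t0 : taylor s (gT d h θ (n + 4)) = 0 := by
          ext i
          rw [coeff_zero]
          rcases (by omega : i = 0 ∨ i = 1 ∨ i = 2 ∨ i = 3 ∨ 4 ≤ i) with rfl | rfl | rfl | rfl | hi
          · exact hc00
          · exact t1
          · exact t2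
          · exact t3
          · apply coeff_eq_zero_of_natDegree_lt
            rw [natDegree_taylor]
            omega
        have t5 := taylor_injective s
        apply t5
        rw [t0]
        simp
      apply hfin n q3 D hq3z _ _ hD0
      · intro P hP
        have h1 := hexp P hP
        rw [hq1z, hq2z, eval_zero, mul_zero, mul_zero, zero_add, zero_add] at h1
        exact h1
      · rw [hq3]
        compute_degree
      · intro i
        rw [hq3]
        simp only [coeff_add, coeff_C_mul, coeff_X, coeff_C, coeff_X_pow, mul_ite, mul_one,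
          mul_zero]
        refine add_mem (add_mem (add_mem ?_ ?_) ?_) ?_ <;> split_ifs <;>
          first | exact hcalg _ _ | exact zero_mem _
    · apply hfin (n + 1) q2 (D + B3) hq2z _ _ (by positivity)
      · intro P hP
        have hx1 := hxp P hP
        have h1 := abs_le.1 (hexp P hP)
        rw [hq1z, eval_zero, mul_zero, zero_add] at h1
        have h3 := abs_le.1 (hB3 P hP)
        have k1 : (P.1 : ℝ) ^ (n + 1) * q3.eval (P.1 * ((P.2 : ℝ) - θ * P.1 - s)) ≤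
            (P.1 : ℝ) ^ (n + 1) * B3 := by
          gcongr
          exact h3.2
        have k2 : (P.1 : ℝ) ^ (n + 1) * -B3 ≤
            (P.1 : ℝ) ^ (n + 1) * q3.eval (P.1 * ((P.2 : ℝ) - θ * P.1 - s)) := by
          gcongr
          exact h3.1
        have k3 : D * (P.1 : ℝ) ^ n ≤ D * (P.1 : ℝ) ^ (n + 1) := by
          have := pow_le_pow_right₀ hx1 (by omega : n ≤ n + 1)
          gcongr
        have e1 : n + 1 + 1 = n + 2 := by ring
        rw [e1, abs_le, add_mul]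
        constructor <;> linarith [h1.1, h1.2]
      · rw [hq2]
        compute_degree!
      · intro i
        rw [hq2]
        simp only [coeff_add, coeff_C_mul, coeff_X, coeff_C, coeff_X_pow, mul_ite, mul_one,
          mul_zero]
        refine add_mem (add_mem ?_ ?_) ?_ <;> split_ifs <;>
          first | exact hcalg _ _ | exact zero_mem _
  · apply hfin (n + 2) q1 (D + B3 + B2) hq1z _ _ (by positivity)
    · intro P hP
      have hx1 := hxp P hP
      have h1 := abs_le.1 (hexp P hP)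
      have h3 := abs_le.1 (hB3 P hP)
      have h2 := abs_le.1 (hB2 P hP)
      have k1 : (P.1 : ℝ) ^ (n + 1) * q3.eval (P.1 * ((P.2 : ℝ) - θ * P.1 - s)) ≤
          (P.1 : ℝ) ^ (n + 2) * B3 := by
        have := pow_le_pow_right₀ hx1 (by omega : n + 1 ≤ n + 2)
        calc _ ≤ (P.1 : ℝ) ^ (n + 1) * B3 := by
              gcongr
              exact h3.2
          _ ≤ (P.1 : ℝ) ^ (n + 2) * B3 := by gcongr
      have k2 : -((P.1 : ℝ) ^ (n + 2) * B3) ≤
          (P.1 : ℝ) ^ (n + 1) * q3.eval (P.1 * ((P.2 : ℝ) - θ * P.1 - s)) := by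
        have := pow_le_pow_right₀ hx1 (by omega : n + 1 ≤ n + 2)
        have k5 : (P.1 : ℝ) ^ (n + 1) * B3 ≤ (P.1 : ℝ) ^ (n + 2) * B3 := by gcongr
        have k6 : (P.1 : ℝ) ^ (n + 1) * -B3 ≤
            (P.1 : ℝ) ^ (n + 1) * q3.eval (P.1 * ((P.2 : ℝ) - θ * P.1 - s)) := by
          gcongr
          exact h3.1
        linarith
      have k7 : (P.1 : ℝ) ^ (n + 2) * q2.eval (P.1 * ((P.2 : ℝ) - θ * P.1 - s)) ≤
          (P.1 : ℝ) ^ (n + 2) * B2 := by
        gcongr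
        exact h2.2
      have k8 : (P.1 : ℝ) ^ (n + 2) * -B2 ≤
          (P.1 : ℝ) ^ (n + 2) * q2.eval (P.1 * ((P.2 : ℝ) - θ * P.1 - s)) := by
        gcongr
        exact h2.1
      have k3 : D * (P.1 : ℝ) ^ n ≤ D * (P.1 : ℝ) ^ (n + 2) := by
        have := pow_le_pow_right₀ hx1 (by omega : n ≤ n + 2)
        gcongr
      have e1 : n + 2 + 1 = n + 3 := by ring
      rw [e1, abs_le, add_mul, add_mul]
      constructor <;> linarith [h1.1, h1.2]
    · rw [hq1]
      compute_degree!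
    · intro i
      rw [hq1]
      simp only [coeff_add, coeff_C_mul, coeff_X, coeff_C, mul_ite, mul_one, mul_zero]
      refine add_mem ?_ ?_ <;> split_ifs <;> first | exact hcalg _ _ | exact zero_mem _

end PP72
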