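import Pool.Agent.PP72.Fin9
import Pool.Agent.PP72.Tri4

/-!
The structure of the leading form of a packing polynomial: orders up to three.
-/

open Polynomial Finset Filter

namespace PP72

variable {α : ℝ} {d : ℕ} {h : ℕ → ℝ[X]}

/-- a zero of odd order of the leading form is a boundary direction -/
theorem Pk.triple_bd (H : Pk α d h) (hd1 : 1 ≤ d) (hne : h d ≠ 0) {θ : ℝ} (h0 : 0 < θ)
    (hθ : θ ≤ α) (hμ : rootMultiplicity θ (h d) = 3) : θ = α := by
  by_contra hcon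
  have hlt : θ < α := lt_of_le_of_ne hθ hcon
  have h1 := taylor_sign (h d) hne θ (-1) θ (Or.inr rfl) h0 (by
    intro τ hτ1 hτ2
    apply H.lead_nonneg hd1
    constructor <;> linarith)
  have h2 := taylor_sign (h d) hne θ 1 (α - θ) (Or.inl rfl) (by linarith) (by
    intro τ hτ1 hτ2
    apply H.lead_nonneg hd1
    constructor <;> linarith)
  rw [hμ] at h1 h2
  have h3 : (-1 : ℝ) ^ 3 = -1 := by norm_num
  rw [h3] at h1
  rw [one_pow] at h2
  linarith

/-- the form of the conclusion -/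
def Shape3 (α : ℝ) (d : ℕ) (h : ℕ → ℝ[X]) (θ : ℝ) : Prop :=
  (∃ (m : ℚ[X]) (c : ℚ), Irreducible m ∧ 3 ≤ m.natDegree ∧ c ≠ 0 ∧
    h d = (C c * m ^ rootMultiplicity θ (h d)).map (algebraMap ℚ ℝ)) ∧
  (rootMultiplicity θ (h d) ≠ 2 → θ = α) ∧
  (rootMultiplicity θ (h d) = 1 → h (d - 1) = 0 ∧ (h (d - 2)).eval α ≤ 0) ∧
  (∃ C : ℝ, ∀ X0 : ℕ, ∃ P ∈ Sec α, X0 < P.1 ∧ |(P.2 : ℝ) - θ * P.1| ≤ C ∧
    fv d h P ≤ C * Real.log P.1 ^ 2) ∧
  (∃ s t : ℝ, IsAlgebraic ℚ s ∧ IsAlgebraic ℚ t ∧ ∀ X0 : ℕ, ∃ x y : ℕ, X0 < x ∧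
    (x : ℝ) * (x * (y - θ * x - s) - t) ^ 4 < 1)

/-- no small values: the logarithmic bound -/
theorem log_of_not_small {θ : ℝ} {f : ℕ × ℕ → ℝ} (hs : ¬ ∃ C : ℝ, ∀ X0 : ℕ, ∃ P ∈ Sec α,
      X0 < P.1 ∧ |(P.2 : ℝ) - θ * P.1| ≤ C ∧ f P ≤ C * Real.log P.1 ^ 2) :
    ∀ U η : ℝ, 0 < η → ∃ X0 : ℕ, ∀ P ∈ Sec α, X0 < P.1 → |(P.2 : ℝ) - θ * P.1| ≤ U →
      Real.log P.1 ^ 2 ≤ η * f P := by
  intro U η hη
  push Not at hs
  set C1 := max |U| (1 / η) with hC1
  obtain ⟨X0, hX0⟩ := hs C1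
  refine ⟨X0, fun P hP hx hu => ?_⟩
  have h1 : |U| ≤ C1 := le_max_left _ _
  have h2 : 1 / η ≤ C1 := le_max_right _ _
  have h3 := hX0 P hP hx (hu.trans ((le_abs_self U).trans h1))
  have h4 : 1 / η * Real.log P.1 ^ 2 ≤ C1 * Real.log P.1 ^ 2 := by gcongr
  have h5 : 1 / η * Real.log P.1 ^ 2 ≤ f P := by linarith
  rw [one_div, inv_mul_eq_div, div_le_iff₀ hη] at h5
  linarith

theorem Pk.halg_of_zero (H : Pk α d h) (hne : h d ≠ 0) {θ : ℝ} (hz : (h d).eval θ = 0) :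
    IsIntegral ℚ θ := by
  apply IsAlgebraic.isIntegral
  obtain ⟨q, hq⟩ := H.rational d (by simp)
  refine ⟨q, ?_, ?_⟩
  · rintro rfl
    apply hne
    rw [hq, Polynomial.map_zero]
  · rw [hq, eval_map_algebraMap] at hz
    exact hz

/-- irrational zeros of order three, in degree at least six -/
theorem Pk.near_or_shape3 (K : ℕ) (hK : 3 ≤ K) (H : Pk α (K + 3) h) (hne : h (K + 3) ≠ 0)
    {θ : ℝ} (hirr : Irrational θ) (hθ0 : 0 < θ) (hθα : θ ≤ α) (hz : (h (K + 3)).eval θ = 0)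
    (hμ : rootMultiplicity θ (h (K + 3)) = 3) (hz1 : (h (K + 2)).eval θ = 0)
    (hsix : ∀ β δ0 : ℚ, α ^ 2 + β * α + δ0 = 0 → Pk α 6 h → gT 6 h α 6 = 0 →
      gT 6 h α 5 = 0 → gT 6 h α 4 = 0 → (gT 6 h α 3).coeff 3 ≠ 0 →
      ∃ ε : ℝ, 0 < ε ∧ Thin (fv 6 h) (Near α α ε)) :
    (∃ ε : ℝ, 0 < ε ∧ Thin (fv (K + 3) h) (Near α θ ε)) ∨ Shape3 α (K + 3) h θ := by
  have hθα' := H.triple_bd (by omega) hne hθ0 hθα hμ
  subst hθα'
  have halg := H.halg_of_zero hne hz
  have hθalg : θ ∈ algebraicClosure ℚ ℝ := mem_algebraicClosure_iff.2 halg.isAlgebraic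
  obtain ⟨Q, hQ1, hQ2, hQ3, hQ4⟩ := taylor_root (h (K + 3)) hne θ
  rw [hμ] at hQ3 hQ4
  have hc3 : (taylor θ (h (K + 3))).coeff 3 ≠ 0 := by
    rw [hQ4]
    exact hQ2
  have hv : ∀ j, K + 1 < j → j ≤ K + 3 → gT (K + 3) h θ j = 0 := fun j hj1 hj2 =>
    gT_zero3 hQ3 hz1 j hj1 hj2
  have hv' : ∀ j, K + 1 < j → j ≤ K + 3 → ∀ u, (gT (K + 3) h θ j).eval u = 0 := by
    intro j hj1 hj2 u
    rw [hv j hj1 hj2, eval_zero]
  have hcub0 : gT (K + 3) h θ K ≠ 0 := by
    intro h0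
    apply hc3
    have h1 : (gT (K + 3) h θ K).coeff 3 = (taylor θ (h (K + 3))).coeff 3 := by
      have e1 : 3 + K = K + 3 := by ring
      rw [gT_coeff, if_pos (by omega), e1]
    rw [← h1, h0, coeff_zero]
  set b1 := (taylor θ (h (K + 2))).coeff 1 with hb1
  set e0 := (h (K + 1)).eval θ with he0
  have hlin : gT (K + 3) h θ (K + 1) = C b1 * X + C e0 := gT_lin3 hQ3
  -- the degree of the minimal polynomial
  have hk2 : 2 ≤ (minpoly ℚ θ).natDegree := by
    have h0 : 0 < (minpoly ℚ θ).natDegree := minpoly.natDegree_pos halg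
    have h1 : (minpoly ℚ θ).natDegree ≠ 1 := by
      rw [Ne, minpoly.natDegree_eq_one_iff]
      rintro ⟨r, hr⟩
      exact hirr ⟨r, hr⟩
    omega
  -- thinness from the logarithmic bound
  have hnear : (b1 = 0 → e0 = 0 → 4 ≤ K) →
      (∀ U η : ℝ, 0 < η → ∃ X0 : ℕ, ∀ P ∈ Sec θ, X0 < P.1 → |(P.2 : ℝ) - θ * P.1| ≤ U →
        Real.log P.1 ^ 2 ≤ η * fv (K + 3) h P) →
      ∃ ε : ℝ, 0 < ε ∧ Thin (fv (K + 3) h) (Near θ θ ε) := fun hK4 hlog =>
    H.near_triple K hK hne hμ hz1 hK4 fun s _ _ W =>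
      H.thin_ln_strip (by omega) hne hirr hlog s W
  rcases lt_or_ge (rootMultiplicity θ (h (K + 3)) * (minpoly ℚ θ).natDegree) (K + 3)
    with hlt | hge
  · left
    apply hnear
    · intro _ _
      rw [hμ] at hlt
      omega
    · exact H.log_strip fun U => H.rg_strip' hne hirr hz hlt U
  obtain ⟨hd, hmirr, c, hc, hform⟩ := H.form_eq hne hz hge
  rw [hμ] at hd
  by_cases hlin0 : b1 = 0 ∧ e0 = 0
  · obtain ⟨hb1z, he0z⟩ := hlin0
    have hlinz : gT (K + 3) h θ (K + 1) = 0 := by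
      rw [hlin, hb1z, he0z]
      simp
    rcases hk2.lt_or_eq with hk3 | hk2'
    · -- degree at least three
      have hK4 : 4 ≤ K := by omega
      by_cases hs3 : ∃ C : ℝ, ∀ X0 : ℕ, ∃ P ∈ Sec θ, X0 < P.1 ∧ |(P.2 : ℝ) - θ * P.1| ≤ C ∧
          fv (K + 3) h P ≤ C * Real.log P.1 ^ 2
      · by_cases hs4 : ∃ s t : ℝ, IsAlgebraic ℚ s ∧ IsAlgebraic ℚ t ∧ ∀ X0 : ℕ,
            ∃ x y : ℕ, X0 < x ∧ (x : ℝ) * (x * (y - θ * x - s) - t) ^ 4 < 1
        · right
          refine ⟨⟨_, c, hmirr, hk3, hc, hform⟩, fun _ => rfl, fun h1 => ?_, hs3, hs4⟩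
          rw [hμ] at h1
          norm_num at h1
        · left
          push Not at hs4
          apply H.near_triple K hK hne hμ hz1 (fun _ _ => hK4)
          intro s hs1 _ W
          have hs1' := hs1 (fun u => by rw [hlinz, eval_zero])
          obtain ⟨n, rfl⟩ : ∃ n, K = n + 4 := ⟨K - 4, by omega⟩
          have hsalg : s ∈ algebraicClosure ℚ ℝ :=
            alg_of_root hcub0 (H.gT_mem_alg hθalg _) hs1'
          apply H.thin_ln_far n (by omega) hne hirr hθalg hsalg _ _ hcub0 hs1'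
            (fun t ht => hs4 s t (mem_algebraicClosure_iff.1 hsalg) ht) W
          · intro j hj1 hj2 u
            rcases (by omega : j = n + 4 + 1 ∨ n + 4 + 1 < j) with rfl | hj
            · rw [hlinz, eval_zero]
            · exact hv' j hj hj2 u
          · have := gT_natDegree_le (d := n + 4 + 3) (h := h) θ (n + 4)
            omega
      · left
        exact hnear (fun _ _ => hK4) (log_of_not_small hs3)
    · -- quadratic
      left
      obtain rfl : K = 3 := by omega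
      obtain ⟨b, c', hq⟩ : ∃ b c : ℚ, θ ^ 2 + b * θ + c = 0 := by
        by_contra hq
        have := three_le_natDegree hirr halg hq
        omega
      refine hsix b c' hq H (hv 6 (by omega) (by omega)) (hv 5 (by omega) (by omega)) hlinz ?_
      rw [gT_coeff, if_pos (by omega)]
      exact hc3
  · -- the linear polynomial does not vanish
    left
    apply hnear (fun g1 g2 => absurd ⟨g1, g2⟩ hlin0)
    apply H.log_strip
    intro U
    have hlinne : gT (K + 3) h θ (K + 1) ≠ 0 := by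
      intro h0
      apply hlin0
      rw [hlin] at h0
      constructor
      · have := congrArg (fun p => coeff p 1) h0
        simpa using this
      · have := congrArg (fun p => coeff p 0) h0
        simpa using this
    apply H.rg_strip hne hirr halg K (by omega) hv hlinne _ U
    have hnd : (gT (K + 3) h θ (K + 1)).natDegree ≤ 1 := by
      rw [hlin]
      exact natDegree_linear_le
    calc (minpoly ℚ θ).natDegree * (gT (K + 3) h θ (K + 1)).natDegree
        ≤ (minpoly ℚ θ).natDegree * 1 := Nat.mul_le_mul_left _ hnd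
      _ < K + 3 := by omega

theorem Shape.three {θ : ℝ} (hS : Shape α d h θ) (hμ : rootMultiplicity θ (h d) ≤ 2)
    (hpos : 0 < rootMultiplicity θ (h d)) : Shape3 α d h θ := by
  obtain ⟨h1, h2, h3, h4⟩ := hS
  refine ⟨h1, fun g => (h2 (by omega)).1, fun g => (h2 g).2, h3, h4⟩

/-- **The structure theorem**, orders up to three. -/
theorem Pk.structure3 (H : Pk α d h) (hd3 : 3 ≤ d) (hne : h d ≠ 0)
    (hsix : ∀ β δ0 : ℚ, α ^ 2 + β * α + δ0 = 0 → Pk α 6 h → gT 6 h α 6 = 0 →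
      gT 6 h α 5 = 0 → gT 6 h α 4 = 0 → (gT 6 h α 3).coeff 3 ≠ 0 →
      ∃ ε : ℝ, 0 < ε ∧ Thin (fv 6 h) (Near α α ε)) :
    ∃ θ ∈ Set.Icc 0 α, (h d).eval θ = 0 ∧ (h (d - 1)).eval θ = 0 ∧
      ((h (d - 2)).eval θ ≤ 0 ∨ (X - C θ) ^ (rootMultiplicity θ (h d) + 1) ∣
        h (d - 1) ^ 2 - 4 * h d * h (d - 2)) ∧
      (0 ≤ (h (d - 2)).eval θ ∨ rootMultiplicity θ (h d) = 1) ∧
      (((∃ r : ℚ, θ = r) ∧ 6 ≤ rootMultiplicity θ (h d)) ∨
        (Irrational θ ∧ 4 ≤ rootMultiplicity θ (h d)) ∨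
        (Irrational θ ∧ rootMultiplicity θ (h d) ≤ 3 ∧ Shape3 α d h θ)) := by
  rcases Nat.lt_or_ge d 6 with hd | hd
  · obtain ⟨hμ, hz, hzero, hS⟩ := H.low_shape hd3 (by omega) hne
    have hS3 := hS.three (by omega) (by omega)
    have h1 := hS3
    obtain ⟨_, _, h3, _⟩ := h1
    obtain ⟨_, h3⟩ := h3 hμ
    refine ⟨α, ⟨H.pos.le, le_rfl⟩, hz, by rw [hzero, eval_zero], Or.inl h3, Or.inr hμ,
      Or.inr (Or.inr ⟨H.irr, by omega, hS3⟩)⟩
  · by_contra hcon
    push Not at hcon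
    apply H.false_of_local hd3
    intro θ hθ hz
    obtain ⟨n, rfl⟩ : ∃ n, d = n + 5 := ⟨d - 5, by omega⟩
    have hK1 : n + 5 - 1 = n + 3 + 1 := by omega
    have hK2 : n + 5 - 2 = n + 3 := by omega
    rw [hK1, hK2] at hcon
    by_cases h1 : (h (n + 3 + 1)).eval θ = 0
    · by_cases hc : 0 < (h (n + 3)).eval θ ∧ ¬ (X - C θ) ^
          (rootMultiplicity θ (h (n + 5)) + 1) ∣
          h (n + 3 + 1) ^ 2 - 4 * h (n + 5) * h (n + 3)
      · exact H.near_third (n + 3) (by omega) hne hθ hz h1 (Or.inl hc)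
      by_cases hc' : (h (n + 3)).eval θ < 0 ∧ 2 ≤ rootMultiplicity θ (h (n + 5))
      · exact H.near_third (n + 3) (by omega) hne hθ hz h1 (Or.inr hc')
      have hpos : 0 < rootMultiplicity θ (h (n + 5)) := (rootMultiplicity_pos hne).2 hz
      have hcc : (h (n + 3)).eval θ ≤ 0 ∨ (X - C θ) ^
          (rootMultiplicity θ (h (n + 5)) + 1) ∣
          h (n + 3 + 1) ^ 2 - 4 * h (n + 5) * h (n + 3) := by
        by_contra hx
        push Not at hx
        exact hc hx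
      have hcc' : 0 ≤ (h (n + 3)).eval θ ∨ rootMultiplicity θ (h (n + 5)) = 1 := by
        by_contra hx
        push Not at hx
        exact hc' ⟨hx.1, by omega⟩
      obtain ⟨g1, g2, g3⟩ := hcon θ hθ hz h1 hcc hcc'
      by_cases hirr : Irrational θ
      · have h0 : 0 < θ := lt_of_le_of_ne hθ.1 (by
          rintro rfl
          exact hirr ⟨0, by simp⟩)
        have hμ3 : rootMultiplicity θ (h (n + 5)) ≤ 3 := by
          have := g2 hirr
          omega
        rcases (by omega : rootMultiplicity θ (h (n + 5)) ≤ 2 ∨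
          rootMultiplicity θ (h (n + 5)) = 3) with hμ2 | hμ3'
        · rcases H.near_or_shape n (by omega) hne hirr h0 hθ.2 hz hμ2 h1 with h3 | h3
          · exact h3
          · exact absurd (h3.three hμ2 hpos) (g3 hirr hμ3)
        · obtain ⟨K, rfl⟩ : ∃ K, n = K + 1 := ⟨n - 1, by omega⟩
          have hKd : K + 1 + 5 = (K + 3) + 3 := by ring
          have hKd1 : K + 1 + 3 + 1 = (K + 3) + 2 := by ring
          rw [hKd] at H hne hz hμ3' g3 ⊢
          rw [hKd1] at h1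
          rcases H.near_or_shape3 (K + 3) (by omega) hne hirr h0 hθ.2 hz hμ3' h1 hsix
            with h3 | h3
          · exact h3
          · exact absurd h3 (g3 hirr (by omega))
      · obtain ⟨r, hr⟩ : ∃ r : ℚ, (r : ℝ) = θ := by
          unfold Irrational at hirr
          push Not at hirr
          exact hirr
        have hμ5 : rootMultiplicity θ (h (n + 5)) ≤ 5 := by
          have := g1 ⟨r, hr.symm⟩
          omega
        rw [← hr] at hθ hz hμ5 ⊢
        exact H.near_rat hd3 hne hθ hz hμ5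
    · exact H.near_sub (n + 3) (by omega) θ
        (lt_of_le_of_ne (H.sub_nonneg (n + 3) hθ hz) (Ne.symm h1))

end PP72
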