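import Pool.Agent.PP72.Six

/-!
A boundary direction of order three which is a quadratic irrational, in degree six.
-/

open Polynomial Finset Filter

namespace PP72

variable {α : ℝ} {d : ℕ} {h : ℕ → ℝ[X]}

/-- the local statement at an arbitrary point, for a cubic top polynomial -/
theorem Pk.exp3_local (H : Pk α d h) (hirr : Irrational α) {β δ0 : ℚ}
    (hq : α ^ 2 + β * α + δ0 = 0) {G B E D : ℝ[X]} (hf : Exp3 (fv d h) α G B E D)
    {c0 c1 c2 c3 : ℝ} (hG : ∀ u, G.eval u = c0 + c1 * u + c2 * u ^ 2 + c3 * u ^ 3)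
    (hc3 : c3 < 0) (hGnn : ∀ u ≤ 0, 0 ≤ G.eval u) (q0 : QT α c0) (q1 : QT α c1) (q2 : QT α c2)
    (q3 : QT α c3) (s : ℝ) (hs0 : s ≤ 0) :
    ∃ ρ : ℝ, 0 < ρ ∧ Thin (fv d h) (Str α α (Set.Ioo (s - ρ) (s + ρ))) := by
  rcases (hGnn s hs0).lt_or_eq with hpos | hzero
  · exact hf.pos hpos
  obtain ⟨a, ha⟩ : ∃ a, a = -c3 := ⟨_, rfl⟩
  have ha0 : 0 < a := by linarith
  have hzero' : c0 + c1 * s + c2 * s ^ 2 + c3 * s ^ 3 = 0 := by rw [← hG, ← hzero]
  have hexp : ∀ u, G.eval u = (c1 + 2 * c2 * s + 3 * c3 * s ^ 2) * (u - s) +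
      (u - s) ^ 2 * ((c2 + 3 * c3 * s) + c3 * (u - s)) := by
    intro u
    rw [hG]
    linear_combination hzero'
  rcases hs0.lt_or_eq with hslt | hseq
  · -- an interior point
    have hg1 : c1 + 2 * c2 * s + 3 * c3 * s ^ 2 = 0 := by
      have hmin : IsLocalMin (fun u => c0 + c1 * u + c2 * u ^ 2 + c3 * u ^ 3) s := by
        have h1 : ∀ᶠ u in nhds s, u < 0 := Iio_mem_nhds hslt
        filter_upwards [h1] with u hu
        rw [hzero', ← hG]
        exact hGnn u hu.le
      have hder : HasDerivAt (fun u => c0 + c1 * u + c2 * u ^ 2 + c3 * u ^ 3)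
          (c1 + 2 * c2 * s + 3 * c3 * s ^ 2) s := by
        have h0 : HasDerivAt (fun _ : ℝ => c0) 0 s := hasDerivAt_const s c0
        have h1 : HasDerivAt (fun u : ℝ => c1 * u) (c1 * 1) s := (hasDerivAt_id s).const_mul c1
        have h2 : HasDerivAt (fun u : ℝ => c2 * u ^ 2) (c2 * (2 * s)) s := by
          simpa using (hasDerivAt_pow 2 s).const_mul c2
        have h3 : HasDerivAt (fun u : ℝ => c3 * u ^ 3) (c3 * (3 * s ^ 2)) s := by
          simpa using (hasDerivAt_pow 3 s).const_mul c3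
        have h4 : HasDerivAt (fun u => c0 + c1 * u + c2 * u ^ 2 + c3 * u ^ 3)
            (0 + c1 * 1 + c2 * (2 * s) + c3 * (3 * s ^ 2)) s := ((h0.add h1).add h2).add h3
        have e1 : c1 + 2 * c2 * s + 3 * c3 * s ^ 2 =
            0 + c1 * 1 + c2 * (2 * s) + c3 * (3 * s ^ 2) := by ring
        rw [e1]
        exact h4
      exact hmin.hasDerivAt_eq_zero hder
    have hexp' : ∀ u, G.eval u = (u - s) ^ 2 * ((c2 + 3 * c3 * s) + c3 * (u - s)) := by
      intro u
      rw [hexp, hg1, zero_mul, zero_add]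
    obtain ⟨g2, hg2⟩ : ∃ g2, g2 = c2 + 3 * c3 * s := ⟨_, rfl⟩
    rw [← hg2] at hexp'
    have hg2pos : 0 < g2 := by
      have h1 := hGnn 0 le_rfl
      rw [hexp'] at h1
      have h2 : 0 < (0 - s) ^ 2 := by
        have : 0 < 0 - s := by linarith
        positivity
      have h3 : 0 ≤ g2 + c3 * (0 - s) := by
        by_contra hcon
        push Not at hcon
        have := mul_neg_of_pos_of_neg h2 hcon
        linarith
      have h4 : 0 < c3 * s := mul_pos_of_neg_of_neg hc3 hslt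
      linarith
    have hsQ : QT α s := by
      have hN : QT α (9 * c0 * c3 - c1 * c2) := by
        have e1 : 9 * c0 * c3 - c1 * c2 = ((9 : ℚ) : ℝ) * c0 * c3 + -(c1 * c2) := by
          push_cast
          ring
        rw [e1]
        exact (((QT.rat α 9).mul hq q0).mul hq q3).add (q1.mul hq q2).neg
      have hM : QT α (2 * (c2 ^ 2 - 3 * c1 * c3)) := by
        have e1 : 2 * (c2 ^ 2 - 3 * c1 * c3) = ((2 : ℚ) : ℝ) * (c2 ^ 2 + -(((3 : ℚ) : ℝ) * c1 * c3)) := by
          push_cast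
          ring
        rw [e1]
        exact (QT.rat α 2).mul hq ((q2.pow hq 2).add (((QT.rat α 3).mul hq q1).mul hq q3).neg)
      have hc1 : c1 = -(2 * c2 * s + 3 * c3 * s ^ 2) := by linarith
      have hc0 : c0 = c2 * s ^ 2 + 2 * c3 * s ^ 3 := by
        rw [hc1] at hzero'
        linarith
      have hM' : 2 * (c2 ^ 2 - 3 * c1 * c3) = 2 * g2 ^ 2 := by
        rw [hc1, hg2]
        ring
      have hN' : 9 * c0 * c3 - c1 * c2 = s * (2 * g2 ^ 2) := by
        rw [hc0, hc1, hg2]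
        ring
      have hs : s = (9 * c0 * c3 - c1 * c2) / (2 * (c2 ^ 2 - 3 * c1 * c3)) := by
        rw [hM', hN']
        field_simp
      rw [hs]
      exact QT.div hirr hq hN hM
    refine H.exp3_double hirr hq hf (s := s) (c := g2 / 2) (C := g2 + a) (ρ0 := g2 / (2 * a))
      hs0 hsQ (by positivity) (by positivity) (by positivity) hGnn ?_ ?_
    · intro u _ hu
      rw [hexp']
      have h1 : a * |u - s| ≤ g2 / 2 := by
        rw [le_div_iff₀ (by positivity)] at hu
        linarith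
      have h2 := le_abs_self (u - s)
      have h3 : -(a * |u - s|) ≤ c3 * (u - s) := by
        have : a * (u - s) ≤ a * |u - s| := by gcongr
        have e1 : c3 * (u - s) = -(a * (u - s)) := by rw [ha]; ring
        linarith
      have h4 : g2 / 2 ≤ g2 + c3 * (u - s) := by linarith
      calc g2 / 2 * (u - s) ^ 2 = (u - s) ^ 2 * (g2 / 2) := by ring
        _ ≤ (u - s) ^ 2 * (g2 + c3 * (u - s)) := by gcongr
    · intro u _ hu
      rw [hexp']
      have h2 := neg_abs_le (u - s)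
      have h3 : c3 * (u - s) ≤ a := by
        have : a * -(u - s) ≤ a * 1 := by
          gcongr
          linarith
        have e1 : c3 * (u - s) = a * -(u - s) := by rw [ha]; ring
        linarith
      calc (u - s) ^ 2 * (g2 + c3 * (u - s)) ≤ (u - s) ^ 2 * (g2 + a) := by gcongr
        _ = (g2 + a) * (u - s) ^ 2 := by ring
  · -- the boundary
    subst hseq
    have hc0 : c0 = 0 := by
      have h1 : c0 + c1 * 0 + c2 * 0 ^ 2 + c3 * 0 ^ 3 = c0 := by ring
      rw [h1] at hzero'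
      exact hzero'
    have hG' : ∀ u, G.eval u = u * (c1 + c2 * u + c3 * u ^ 2) := by
      intro u
      rw [hG, hc0]
      ring
    have hneg : ∀ u < 0, c1 + c2 * u + c3 * u ^ 2 ≤ 0 := by
      intro u hu
      by_contra hcon
      push Not at hcon
      have h1 := hGnn u hu.le
      rw [hG'] at h1
      have := mul_neg_of_neg_of_pos hu hcon
      linarith
    set S := |c2| + |c3| with hS
    have hS0 : 0 ≤ S := by positivity
    have hbd : ∀ u : ℝ, |u| ≤ 1 → |c2 * u + c3 * u ^ 2| ≤ S * |u| := by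
      intro u hu
      refine (abs_add_le _ _).trans ?_
      rw [abs_mul, abs_mul, abs_pow]
      have h1 : |u| ^ 2 ≤ |u| := by
        rw [sq]
        exact mul_le_of_le_one_right (abs_nonneg _) hu
      have h2 : |c3| * |u| ^ 2 ≤ |c3| * |u| := by gcongr
      rw [hS]
      linarith
    have hc1 : c1 ≤ 0 := by
      by_contra hcon
      push Not at hcon
      have hτ : 0 < min 1 (c1 / (2 * (S + 1))) := by positivity
      have h1 := hneg (-(min 1 (c1 / (2 * (S + 1))))) (by linarith)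
      have h2 : |(-(min 1 (c1 / (2 * (S + 1)))) : ℝ)| = min 1 (c1 / (2 * (S + 1))) := by
        rw [abs_neg, abs_of_pos hτ]
      have h3 := hbd (-(min 1 (c1 / (2 * (S + 1))))) (by
        rw [h2]
        exact min_le_left _ _)
      rw [h2] at h3
      have h4 : S * min 1 (c1 / (2 * (S + 1))) ≤ c1 / 2 := by
        calc S * min 1 (c1 / (2 * (S + 1))) ≤ (S + 1) * (c1 / (2 * (S + 1))) := by
              gcongr
              · linarith
              · exact min_le_right _ _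
          _ = c1 / 2 := by field_simp
      have h5 := (abs_le.1 h3).1
      linarith
    rcases hc1.lt_or_eq with hc1lt | hc1eq
    · obtain ⟨b, hb⟩ : ∃ b, b = -c1 / 2 := ⟨_, rfl⟩
      have hb0 : 0 < b := by linarith
      refine H.exp3_simple hirr hq hf hb0 (ρ0 := min 1 (b / (S + 1))) (by positivity) ?_
      intro u hu0 hu
      have hu1 : |u| ≤ 1 := hu.trans (min_le_left _ _)
      have h3 := (abs_le.1 (hbd u hu1)).2
      have h4 : S * |u| ≤ b := by
        calc S * |u| ≤ (S + 1) * (b / (S + 1)) := by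
              gcongr
              · linarith
              · exact hu.trans (min_le_right _ _)
          _ = b := by field_simp
      have h5 : c1 + c2 * u + c3 * u ^ 2 ≤ -b := by linarith
      rw [hG', abs_of_nonpos hu0]
      have h6 : -u * b ≤ -u * -(c1 + c2 * u + c3 * u ^ 2) := by
        have : 0 ≤ -u := by linarith
        gcongr
        linarith
      linarith
    · have hG2 : ∀ u, G.eval u = u ^ 2 * (c2 + c3 * u) := by
        intro u
        rw [hG', hc1eq]
        ring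
      have hc2 : 0 ≤ c2 := by
        by_contra hcon
        push Not at hcon
        have hτ : c2 / (2 * a) < 0 := div_neg_of_neg_of_pos hcon (by positivity)
        have h1 := hGnn _ hτ.le
        rw [hG2] at h1
        have h2 : c2 + c3 * (c2 / (2 * a)) = c2 / 2 := by
          have e1 : c3 = -a := by linarith
          rw [e1]
          field_simp
          ring
        rw [h2] at h1
        have h3 : 0 < (c2 / (2 * a)) ^ 2 := by
          have := hτ.ne
          positivity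
        have := mul_neg_of_pos_of_neg h3 (by linarith : c2 / 2 < 0)
        linarith
      rcases hc2.lt_or_eq with hc2pos | hc2eq
      · refine H.exp3_double hirr hq hf (s := 0) (c := c2) (C := c2 + a) (ρ0 := 1)
          le_rfl (by simpa using QT.rat α 0) hc2pos (by positivity) one_pos hGnn ?_ ?_
        · intro u hu _
          rw [hG2, _root_.sub_zero]
          have h1 : 0 ≤ c3 * u := mul_nonneg_of_nonpos_of_nonpos hc3.le hu
          have h2 : c2 * u ^ 2 ≤ (c2 + c3 * u) * u ^ 2 := by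
            gcongr
            linarith
          linarith
        · intro u hu hu1
          rw [_root_.sub_zero] at hu1 ⊢
          rw [hG2]
          have h1 : c3 * u ≤ a := by
            have h2 := neg_abs_le u
            have h3 : a * -u ≤ a * 1 := by
              gcongr
              linarith
            have e1 : c3 * u = a * -u := by rw [ha]; ring
            linarith
          have h2 : (c2 + c3 * u) * u ^ 2 ≤ (c2 + a) * u ^ 2 := by gcongr
          linarith
      · refine H.exp3_triple hirr hq hf ha0 ?_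
        intro u
        rw [hG2, ← hc2eq, ha]
        ring

/-- **Order three at the boundary, quadratic irrational, degree six.** -/
theorem Pk.near_six (H : Pk α 6 h) (hirr : Irrational α) {β δ0 : ℚ}
    (hq : α ^ 2 + β * α + δ0 = 0)
    (h6 : gT 6 h α 6 = 0) (h5 : gT 6 h α 5 = 0) (h4 : gT 6 h α 4 = 0)
    (h3 : (gT 6 h α 3).coeff 3 ≠ 0) : ∃ ε : ℝ, 0 < ε ∧ Thin (fv 6 h) (Near α α ε) := by
  obtain ⟨G, hGdef⟩ : ∃ G, G = gT 6 h α 3 := ⟨_, rfl⟩
  have hf : Exp3 (fv 6 h) α G (gT 6 h α 2) (gT 6 h α 1) (gT 6 h α 0) := by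
    intro P
    rw [fv_taylor H.deg α, hGdef]
    simp only [Finset.sum_range_succ, Finset.sum_range_zero, h6, h5, h4, eval_zero]
    ring
  have hGdeg : G.natDegree < 4 := by
    have := gT_natDegree_le (d := 6) (h := h) α 3
    rw [hGdef]
    omega
  obtain ⟨c0, hc0⟩ : ∃ c, c = G.coeff 0 := ⟨_, rfl⟩
  obtain ⟨c1, hc1⟩ : ∃ c, c = G.coeff 1 := ⟨_, rfl⟩
  obtain ⟨c2, hc2⟩ : ∃ c, c = G.coeff 2 := ⟨_, rfl⟩
  obtain ⟨c3, hc3⟩ : ∃ c, c = G.coeff 3 := ⟨_, rfl⟩
  have hG : ∀ u, G.eval u = c0 + c1 * u + c2 * u ^ 2 + c3 * u ^ 3 := by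
    intro u
    rw [Polynomial.eval_eq_sum_range' hGdeg]
    simp only [Finset.sum_range_succ, Finset.sum_range_zero, hc0, hc1, hc2, hc3]
    ring
  have hGnn : ∀ u ≤ 0, 0 ≤ G.eval u := by
    intro u hu
    by_contra hneg
    push Not at hneg
    rw [hGdef] at hneg
    refine H.neg_top (θ := α) 2 (by norm_num) ?_ u hneg (exists_near_bd hirr H.pos u hu)
    intro j hj1 hj2 v
    have hj : j = 4 ∨ j = 5 ∨ j = 6 := by omega
    rcases hj with rfl | rfl | rfl
    · rw [h4, eval_zero]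
    · rw [h5, eval_zero]
    · rw [h6, eval_zero]
  have hQ : ∀ i, i ≤ 3 → QT α (G.coeff i) := by
    intro i hi
    rw [hGdef, gT_coeff, if_pos (by omega)]
    exact H.taylor_QT hq (i + 3) (by rw [mem_range]; omega) i
  have hc3ne : c3 ≠ 0 := by rw [hc3, hGdef]; exact h3
  have hc3neg : c3 < 0 := by
    rcases lt_or_gt_of_ne hc3ne with hneg | hpos
    · exact hneg
    exfalso
    set S := |c0| + |c1| + |c2| with hS
    have hS0 : 0 ≤ S := by positivity
    obtain ⟨R, hR⟩ : ∃ R, R = 1 + S / c3 := ⟨_, rfl⟩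
    have hR1 : 1 ≤ R := by
      have : 0 ≤ S / c3 := by positivity
      linarith
    have hcR : c3 * R = c3 + S := by
      rw [hR]
      field_simp
    have h1 := hGnn (-R) (by linarith)
    rw [hG] at h1
    have hR2 : 1 ≤ R ^ 2 := one_le_pow₀ hR1
    have hRR : R ≤ R ^ 2 := by nlinarith
    have k0 : c0 ≤ |c0| * R ^ 2 := by
      calc c0 ≤ |c0| := le_abs_self _
        _ = |c0| * 1 := (mul_one _).symm
        _ ≤ |c0| * R ^ 2 := by gcongr
    have k1 : c1 * -R ≤ |c1| * R ^ 2 := by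
      calc c1 * -R = -c1 * R := by ring
        _ ≤ |c1| * R := by
            gcongr
            exact neg_le_abs c1
        _ ≤ |c1| * R ^ 2 := by gcongr
    have k2 : c2 * (-R) ^ 2 ≤ |c2| * R ^ 2 := by
      rw [neg_sq]
      gcongr
      exact le_abs_self _
    have k3 : c3 * (-R) ^ 3 = -((c3 + S) * R ^ 2) := by
      rw [← hcR]
      ring
    have k4 : (c3 + S) * R ^ 2 = c3 * R ^ 2 + (|c0| * R ^ 2 + |c1| * R ^ 2 + |c2| * R ^ 2) := by
      rw [hS]
      ring
    have k5 : 0 < c3 * R ^ 2 := by positivity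
    linarith
  obtain ⟨a, ha⟩ : ∃ a, a = -c3 := ⟨_, rfl⟩
  have ha0 : 0 < a := by linarith
  -- the compact part
  set T := |c0| + |c1| + |c2| with hT
  have hT0 : 0 ≤ T := by positivity
  set U0 := max 1 (2 * T / a) with hU0
  have hU01 : 1 ≤ U0 := le_max_left _ _
  have hU02 : T ≤ a / 2 * U0 := by
    have h1 : 2 * T / a ≤ U0 := le_max_right _ _
    rw [div_le_iff₀ ha0] at h1
    linarith
  have hThin : Thin (fv 6 h) (Str α α (Set.Icc (-U0) U0)) := by
    refine IsCompact.induction_on (isCompact_Icc (a := -U0) (b := U0))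
      (p := fun S => Thin (fv 6 h) (Str α α S)) ?_ ?_ ?_ ?_
    · apply Thin.mono (thin_empty _)
      rintro P ⟨_, hP⟩
      exact absurd hP (Set.notMem_empty _)
    · intro S T hST hT
      exact hT.mono fun P hP => ⟨hP.1, hST hP.2⟩
    · intro S T h1 h2
      refine (h1.union h2).mono ?_
      rintro P ⟨hP, hu | hu⟩
      · exact Or.inl ⟨hP, hu⟩
      · exact Or.inr ⟨hP, hu⟩
    · intro s _
      by_cases hs : s ≤ 0
      · obtain ⟨ρ, hρ, hρT⟩ := H.exp3_local hirr hq hf hG hc3neg hGnn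
          (by rw [hc0]; exact hQ 0 (by norm_num)) (by rw [hc1]; exact hQ 1 (by norm_num))
          (by rw [hc2]; exact hQ 2 (by norm_num)) (by rw [hc3]; exact hQ 3 (by norm_num)) s hs
        exact ⟨_, mem_nhdsWithin_of_mem_nhds (Ioo_mem_nhds (by linarith) (by linarith)), hρT⟩
      · push Not at hs
        refine ⟨Set.Ioi 0, mem_nhdsWithin_of_mem_nhds (Ioi_mem_nhds hs), ?_⟩
        apply Thin.mono (thin_empty _)
        rintro P ⟨hP, hu⟩
        exfalso
        have h3 := sec_u hP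
        have h4 : 0 < (P.2 : ℝ) - α * P.1 := hu
        linarith
  -- the unbounded part
  obtain ⟨ε, hε, hε1, x0, hx0, hlow⟩ := low_terms' 3 3 (gT 6 h α) (by
    intro j
    exact gT_natDegree_le α j) (a / 32) (by positivity)
  obtain ⟨X1, hX1⟩ := exists_nat_ge x0
  refine ⟨ε, hε, ?_⟩
  have hsplit : Near α α ε ⊆
      ({P | P ∈ Sec α ∧ |(P.2 : ℝ) - α * P.1| ≤ U0} ∪
        {P | P ∈ Near α α ε ∧ X1 ≤ P.1 ∧ U0 < |(P.2 : ℝ) - α * P.1|}) ∪
      {P | P ∈ Sec α ∧ P.1 ≤ X1} := by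
    intro P hP
    by_cases h1 : |(P.2 : ℝ) - α * P.1| ≤ U0
    · exact Or.inl (Or.inl ⟨hP.1, h1⟩)
    · by_cases h2 : X1 ≤ P.1
      · exact Or.inl (Or.inr ⟨hP, h2, not_le.1 h1⟩)
      · exact Or.inr ⟨hP.1, by omega⟩
  refine Thin.mono (Thin.union (Thin.union ?_ ?_) (thin_finite (finite_x H.pos X1))) hsplit
  · refine hThin.mono ?_
    rintro P ⟨hP1, hP2⟩
    exact ⟨hP1, abs_le.1 hP2⟩
  · apply thin_of_bound α (a / 8) (by positivity)
    rintro P ⟨hP1, hP2, hP3⟩
    have hx : x0 ≤ (P.1 : ℝ) := hX1.trans (by exact_mod_cast hP2)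
    have hx1 : (1 : ℝ) ≤ P.1 := hx0.trans hx
    obtain ⟨_, hus⟩ := near_abs hP1
    have hu0 := sec_u hP1.1
    have h1 := (abs_le.1 (hlow P.1 _ hx hus)).1
    have hval : fv 6 h P = (∑ j ∈ range 3, (P.1 : ℝ) ^ j * (gT 6 h α j).eval
        ((P.2 : ℝ) - α * P.1)) + (P.1 : ℝ) ^ 3 * G.eval ((P.2 : ℝ) - α * P.1) := by
      rw [hf P]
      simp only [Finset.sum_range_succ, Finset.sum_range_zero]
      ring
    rw [hval]
    set u := (P.2 : ℝ) - α * P.1 with hu
    have hu1 : 1 ≤ |u| := hU01.trans hP3.le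
    obtain ⟨v, hv⟩ : ∃ v, v = |u| := ⟨_, rfl⟩
    have huv : u = -v := by
      rw [hv, abs_of_nonpos hu0]
      ring
    rw [← hv] at hu1 h1 ⊢
    have hUv : U0 < v := by rw [hv]; exact hP3
    have hv2 : 1 ≤ v ^ 2 := one_le_pow₀ hu1
    have hvv : v ≤ v ^ 2 := by nlinarith
    have hv3 : 1 ≤ v ^ 3 := one_le_pow₀ hu1
    have hGv : a / 2 * v ^ 3 ≤ G.eval u := by
      rw [hG, huv]
      have k0 : -(|c0| * v ^ 2) ≤ c0 := by
        have : |c0| * 1 ≤ |c0| * v ^ 2 := by gcongr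
        have h2 := neg_abs_le c0
        linarith
      have k1 : -(|c1| * v ^ 2) ≤ c1 * -v := by
        have e1 : |c1| * v ≤ |c1| * v ^ 2 := by gcongr
        have e2 : c1 * v ≤ |c1| * v := by
          gcongr
          exact le_abs_self _
        linarith
      have k2 : -(|c2| * v ^ 2) ≤ c2 * (-v) ^ 2 := by
        rw [neg_sq]
        have e2 : -|c2| * v ^ 2 ≤ c2 * v ^ 2 := by
          gcongr
          exact neg_abs_le _
        linarith
      have k3 : c3 * (-v) ^ 3 = a * v ^ 3 := by rw [ha]; ring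
      have k4 : T * v ^ 2 ≤ a / 2 * v * v ^ 2 := by
        gcongr
        calc T ≤ a / 2 * U0 := hU02
          _ ≤ a / 2 * v := by gcongr
      have k5 : a / 2 * v * v ^ 2 = a / 2 * v ^ 3 := by ring
      have k6 : T * v ^ 2 = |c0| * v ^ 2 + |c1| * v ^ 2 + |c2| * v ^ 2 := by rw [hT]; ring
      linarith
    have h2 : a / 32 * ((P.1 : ℝ) ^ 3 * (1 + v) ^ 3) ≤ (P.1 : ℝ) ^ 3 * (a / 4 * v ^ 3) := by
      have h3 : (1 + v) ^ 3 ≤ 8 * v ^ 3 := by
        calc (1 + v) ^ 3 ≤ (v + v) ^ 3 := by gcongr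
          _ = 8 * v ^ 3 := by ring
      calc a / 32 * ((P.1 : ℝ) ^ 3 * (1 + v) ^ 3)
          ≤ a / 32 * ((P.1 : ℝ) ^ 3 * (8 * v ^ 3)) := by gcongr
        _ = (P.1 : ℝ) ^ 3 * (a / 4 * v ^ 3) := by ring
    have h3 : (P.1 : ℝ) ^ 3 * (a / 2 * v ^ 3) ≤ (P.1 : ℝ) ^ 3 * G.eval u := by gcongr
    have h4 : (P.1 : ℝ) ^ 2 ≤ (P.1 : ℝ) ^ 3 := pow_le_pow_right₀ hx1 (by norm_num)
    have hx3 : 1 ≤ (P.1 : ℝ) ^ 3 := one_le_pow₀ hx1
    have h5 : (P.1 : ℝ) ^ 2 ≤ (P.1 : ℝ) ^ 3 * v ^ 3 := by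
      calc (P.1 : ℝ) ^ 2 ≤ (P.1 : ℝ) ^ 3 := h4
        _ = (P.1 : ℝ) ^ 3 * 1 := (mul_one _).symm
        _ ≤ (P.1 : ℝ) ^ 3 * v ^ 3 := by gcongr
    have h6 : v ^ 3 ≤ (P.1 : ℝ) ^ 3 * v ^ 3 := by
      calc v ^ 3 = 1 * v ^ 3 := (one_mul _).symm
        _ ≤ (P.1 : ℝ) ^ 3 * v ^ 3 := by gcongr
    have h7 : a / 8 * ((P.1 : ℝ) ^ 2 + v ^ 3) ≤
        a / 8 * ((P.1 : ℝ) ^ 3 * v ^ 3 + (P.1 : ℝ) ^ 3 * v ^ 3) := by gcongr
    have h8 : a / 8 * ((P.1 : ℝ) ^ 3 * v ^ 3 + (P.1 : ℝ) ^ 3 * v ^ 3) =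
        (P.1 : ℝ) ^ 3 * (a / 2 * v ^ 3) - (P.1 : ℝ) ^ 3 * (a / 4 * v ^ 3) := by ring
    linarith

end PP72
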