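import Pool.Agent.PP72.Hi2
import Pool.Agent.PP72.Six2

/-!
The structure of the leading form of a packing polynomial: the final form.
-/

open Polynomial Finset Filter

namespace PP72

variable {α : ℝ} {d : ℕ} {h : ℕ → ℝ[X]}

/-- **The structure theorem.** -/
theorem Pk.structure4 (H : Pk α d h) (hd3 : 3 ≤ d) (hne : h d ≠ 0) :
    ∃ θ ∈ Set.Icc 0 α, (h d).eval θ = 0 ∧ (h (d - 1)).eval θ = 0 ∧
      ((h (d - 2)).eval θ ≤ 0 ∨ (X - C θ) ^ (rootMultiplicity θ (h d) + 1) ∣
        h (d - 1) ^ 2 - 4 * h d * h (d - 2)) ∧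
      (0 ≤ (h (d - 2)).eval θ ∨ rootMultiplicity θ (h d) = 1) ∧
      (((((∃ r : ℚ, θ = r) ∧ 6 ≤ rootMultiplicity θ (h d)) ∨
        (Irrational θ ∧ 4 ≤ rootMultiplicity θ (h d))) ∧
          (0 < (h (d - 2)).eval θ ∨ (X - C θ) ^ 3 ∣ h (d - 1))) ∨
        (Irrational θ ∧ rootMultiplicity θ (h d) ≤ 3 ∧ Shape3 α d h θ)) := by
  rcases Nat.lt_or_ge d 6 with hd | hd
  · obtain ⟨hμ, hz, hzero, hS⟩ := H.low_shape hd3 (by omega) hne
    have hS3 := hS.three (by omega) (by omega)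
    have h1 := hS3
    obtain ⟨_, _, h3, _⟩ := h1
    obtain ⟨_, h3⟩ := h3 hμ
    refine ⟨α, ⟨H.pos.le, le_rfl⟩, hz, by rw [hzero, eval_zero], Or.inl h3, Or.inr hμ,
      Or.inr ⟨H.irr, by omega, hS3⟩⟩
  · by_contra hcon
    push Not at hcon
    apply H.false_of_local hd3
    intro θ hθ hz
    obtain ⟨n, rfl⟩ : ∃ n, d = n + 5 := ⟨d - 5, by omega⟩
    have hK1 : n + 5 - 1 = n + 3 + 1 := by omega
    have hK2 : n + 5 - 2 = n + 3 := by omega
    rw [hK1, hK2] at hcon
    by_cases h1 : (h (n + 3 + 1)).eval θ = 0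
    · by_cases hc : 0 < (h (n + 3)).eval θ ∧ ¬ (X - C θ) ^
          (rootMultiplicity θ (h (n + 5)) + 1) ∣
          h (n + 3 + 1) ^ 2 - 4 * h (n + 5) * h (n + 3)
      · exact H.near_third (n + 3) (by omega) hne hθ hz h1 (Or.inl hc)
      by_cases hc' : (h (n + 3)).eval θ < 0 ∧ 2 ≤ rootMultiplicity θ (h (n + 5))
      · exact H.near_third (n + 3) (by omega) hne hθ hz h1 (Or.inr hc')
      have hpos : 0 < rootMultiplicity θ (h (n + 5)) := (rootMultiplicity_pos hne).2 hz
      have hcc : (h (n + 3)).eval θ ≤ 0 ∨ (X - C θ) ^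
          (rootMultiplicity θ (h (n + 5)) + 1) ∣
          h (n + 3 + 1) ^ 2 - 4 * h (n + 5) * h (n + 3) := by
        by_contra hx
        push Not at hx
        exact hc hx
      have hcc' : 0 ≤ (h (n + 3)).eval θ ∨ rootMultiplicity θ (h (n + 5)) = 1 := by
        by_contra hx
        push Not at hx
        exact hc' ⟨hx.1, by omega⟩
      obtain ⟨g1, g3⟩ := hcon θ hθ hz h1 hcc hcc'
      by_cases hirr : Irrational θ
      · have h0 : 0 < θ := lt_of_le_of_ne hθ.1 (by
          rintro rfl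
          exact hirr ⟨0, by simp⟩)
        rcases (by omega : 4 ≤ rootMultiplicity θ (h (n + 5)) ∨
          rootMultiplicity θ (h (n + 5)) ≤ 2 ∨
          rootMultiplicity θ (h (n + 5)) = 3) with hμ4 | hμ2 | hμ3'
        · obtain ⟨e1, e2⟩ := g1 (Or.inr ⟨hirr, hμ4⟩)
          have e3 : (h (n + 3)).eval θ = 0 := by
            rcases hcc' with g | g
            · exact le_antisymm e1 g
            · omega
          have hn1 : 1 ≤ n := by omega
          exact H.near_high_irr (n + 3) (by omega) hne hirr h0 hθ.2 hz hμ4 h1 e3 e2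
        · rcases H.near_or_shape n (by omega) hne hirr h0 hθ.2 hz hμ2 h1 with h3 | h3
          · exact h3
          · exact absurd (h3.three hμ2 hpos) (g3 hirr (by omega))
        · obtain ⟨K, rfl⟩ : ∃ K, n = K + 1 := ⟨n - 1, by omega⟩
          have hKd : K + 1 + 5 = (K + 3) + 3 := by ring
          have hKd1 : K + 1 + 3 + 1 = (K + 3) + 2 := by ring
          rw [hKd] at H hne hz hμ3' g3 ⊢
          rw [hKd1] at h1
          rcases H.near_or_shape3 (K + 3) (by omega) hne hirr h0 hθ.2 hz hμ3' h1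
            (fun β δ0 hq H6 g6 g5 g4 g3 => H6.near_six H.irr hq g6 g5 g4 g3) with h3 | h3
          · exact h3
          · exact absurd h3 (g3 hirr (by omega))
      · obtain ⟨r, hr⟩ : ∃ r : ℚ, (r : ℝ) = θ := by
          unfold Irrational at hirr
          push Not at hirr
          exact hirr
        rcases Nat.lt_or_ge (rootMultiplicity θ (h (n + 5))) 6 with hμ5 | hμ6
        · have hμ5' : rootMultiplicity θ (h (n + 5)) ≤ 5 := by omega
          rw [← hr] at hθ hz hμ5' ⊢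
          exact H.near_rat hd3 hne hθ hz hμ5'
        · obtain ⟨e1, e2⟩ := g1 (Or.inl ⟨⟨r, hr.symm⟩, hμ6⟩)
          have e3 : (h (n + 3)).eval θ = 0 := by
            rcases hcc' with g | g
            · exact le_antisymm e1 g
            · omega
          obtain ⟨_, _, _, hc', _⟩ := taylor_root (h (n + 5)) hne θ
          have hc4 : ∀ i < 4, (taylor θ (h (n + 3 + 2))).coeff i = 0 := fun i hi =>
            hc' i (by omega)
          rw [← hr] at hθ h1 e2 e3 hc4 ⊢
          exact H.near_high_rat (n + 3) (by omega) hθ hc4 h1 e3 e2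
    · exact H.near_sub (n + 3) (by omega) θ
        (lt_of_le_of_ne (H.sub_nonneg (n + 3) hθ hz) (Ne.symm h1))

/-- **The structure theorem**, for polynomials in two variables. -/
theorem structure_final4 {α : ℝ} (hα : 0 < α) (hirr : Irrational α)
    (F : MvPolynomial (Fin 2) ℝ) (hd : 3 ≤ F.totalDegree) (hF : IsPacking α F) :
    ∃ θ ∈ Set.Icc 0 α, (formPoly F F.totalDegree).eval θ = 0 ∧
      (formPoly F (F.totalDegree - 1)).eval θ = 0 ∧
      ((formPoly F (F.totalDegree - 2)).eval θ ≤ 0 ∨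
        (X - C θ) ^ (rootMultiplicity θ (formPoly F F.totalDegree) + 1) ∣
          formPoly F (F.totalDegree - 1) ^ 2 -
            4 * formPoly F F.totalDegree * formPoly F (F.totalDegree - 2)) ∧
      (0 ≤ (formPoly F (F.totalDegree - 2)).eval θ ∨
        rootMultiplicity θ (formPoly F F.totalDegree) = 1) ∧
      (((((∃ r : ℚ, θ = r) ∧ 6 ≤ rootMultiplicity θ (formPoly F F.totalDegree)) ∨
          (Irrational θ ∧ 4 ≤ rootMultiplicity θ (formPoly F F.totalDegree))) ∧
          (0 < (formPoly F (F.totalDegree - 2)).eval θ ∨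
            (X - C θ) ^ 3 ∣ formPoly F (F.totalDegree - 1))) ∨
        (Irrational θ ∧ rootMultiplicity θ (formPoly F F.totalDegree) ≤ 3 ∧
          (∃ (m : ℚ[X]) (c : ℚ), Irreducible m ∧ 3 ≤ m.natDegree ∧ c ≠ 0 ∧
            formPoly F F.totalDegree =
              (C c * m ^ rootMultiplicity θ (formPoly F F.totalDegree)).map
                (algebraMap ℚ ℝ)) ∧
          (rootMultiplicity θ (formPoly F F.totalDegree) ≠ 2 → θ = α) ∧
          (rootMultiplicity θ (formPoly F F.totalDegree) = 1 →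
            formPoly F (F.totalDegree - 1) = 0 ∧
              (formPoly F (F.totalDegree - 2)).eval α ≤ 0) ∧
          (∃ K : ℝ, ∀ X0 : ℕ, ∃ x y : ℕ, X0 < x ∧ (y : ℝ) ≤ α * x ∧
            |(y : ℝ) - θ * x| ≤ K ∧
            MvPolynomial.eval ![(x : ℝ), (y : ℝ)] F ≤ K * Real.log x ^ 2) ∧
          (∃ s t : ℝ, IsAlgebraic ℚ s ∧ IsAlgebraic ℚ t ∧ ∀ X0 : ℕ, ∃ x y : ℕ, X0 < x ∧
            (x : ℝ) * (x * (y - θ * x - s) - t) ^ 4 < 1))) := by
  have H := hF.pk hα hirr
  have hne := formPoly_lead_ne_zero F (by omega : 1 ≤ F.totalDegree)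
  obtain ⟨θ, hθ, h1, h2, h3, h4, h5⟩ := H.structure4 hd hne
  refine ⟨θ, hθ, h1, h2, h3, h4, ?_⟩
  rcases h5 with h5 | ⟨g1, g2, k1, k2, k3, ⟨K, k4⟩, k5⟩
  · exact Or.inl h5
  · refine Or.inr ⟨g1, g2, k1, k2, k3, ⟨K, fun X0 => ?_⟩, k5⟩
    obtain ⟨⟨x, y⟩, hP, hx, hu, hv⟩ := k4 X0
    refine ⟨x, y, hx, hP, hu, ?_⟩
    rw [← ev_formPoly F x y]
    exact hv

end PP72
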