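import Pool.Agent.PP72.Basic

/-!
There is no packing polynomial on an irrational sector of the form
homogeneous form of degree `d ≥ 2` plus a constant.
-/

open Polynomial Finset

namespace PP72

/-- the binary form with the coefficients `w` -/
def phi (d : ℕ) (w : ℕ → ℤ) (x y : ℤ) : ℤ := ∑ i ∈ range (d + 1), w i * x ^ (d - i) * y ^ i

/-- the dehomogenised form -/
noncomputable def gp (d : ℕ) (w : ℕ → ℤ) : ℤ[X] := ∑ i ∈ range (d + 1), C (w i) * X ^ i

theorem phi_smul (d : ℕ) (w : ℕ → ℤ) (n x y : ℤ) :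
    phi d w (n * x) (n * y) = n ^ d * phi d w x y := by
  unfold phi
  rw [Finset.mul_sum]
  apply Finset.sum_congr rfl
  intro i hi
  have hi' : i ≤ d := Nat.lt_succ_iff.1 (mem_range.1 hi)
  have : n ^ d = n ^ (d - i) * n ^ i := by rw [← pow_add, Nat.sub_add_cancel hi']
  rw [this, mul_pow, mul_pow]
  ring

theorem phi_modEq (d : ℕ) (w : ℕ → ℤ) {m x x' y y' : ℤ} (hx : x ≡ x' [ZMOD m])
    (hy : y ≡ y' [ZMOD m]) : phi d w x y ≡ phi d w x' y' [ZMOD m] := by
  unfold phi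
  apply Int.ModEq.sum
  intro i _
  exact ((Int.ModEq.refl (w i)).mul (hx.pow (d - i))).mul (hy.pow i)

theorem phi_one (d : ℕ) (w : ℕ → ℤ) (t : ℤ) : phi d w 1 t = (gp d w).eval t := by
  unfold phi gp
  rw [eval_finsetSum]
  apply Finset.sum_congr rfl
  intro i _
  simp

theorem phi_zero (d : ℕ) (w : ℕ → ℤ) (y : ℤ) : phi d w 0 y = w d * y ^ d := by
  unfold phi
  rw [Finset.sum_range_succ, Finset.sum_eq_zero]
  · simp
  · intro i hi
    have : d - i ≠ 0 := by
      have := mem_range.1 hi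
      omega
    rw [zero_pow this]
    ring

theorem phi_eq (d : ℕ) (w : ℕ → ℤ) (x t : ℤ) : phi d w x (x * t) = x ^ d * (gp d w).eval t := by
  have := phi_smul d w x 1 t
  rw [mul_one] at this
  rw [this, phi_one]

theorem exists_sq_mul (f : ℚ[X]) (hf : f ≠ 0) : ∃ a b : ℚ[X], f = a ^ 2 * b ∧ Squarefree b := by
  induction hn : f.natDegree using Nat.strong_induction_on generalizing f with
  | _ n ih =>
    by_cases hsq : Squarefree f
    · exact ⟨1, f, by ring, hsq⟩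
    · unfold Squarefree at hsq
      push Not at hsq
      obtain ⟨q, ⟨f1, hf1⟩, hq⟩ := hsq
      have hq0 : q ≠ 0 := by
        rintro rfl
        apply hf
        rw [hf1]
        ring
      have hf10 : f1 ≠ 0 := by
        rintro rfl
        apply hf
        rw [hf1]
        ring
      have hdeg : 0 < q.natDegree := by
        by_contra hdeg
        push Not at hdeg
        have h0 : q.natDegree = 0 := by omega
        apply hq
        rw [Polynomial.isUnit_iff_degree_eq_zero]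
        rw [Polynomial.degree_eq_natDegree hq0, h0]
        rfl
      have hlt : f1.natDegree < n := by
        rw [← hn, hf1, natDegree_mul (mul_ne_zero hq0 hq0) hf10, natDegree_mul hq0 hq0]
        omega
      obtain ⟨a, b, hab, hb⟩ := ih _ hlt f1 hf10 rfl
      refine ⟨q * a, b, ?_, hb⟩
      rw [hf1, hab]
      ring

theorem map_CZ (n : ℤ) : (C n : ℤ[X]).map (Int.castRingHom ℚ) = C (n : ℚ) := by
  rw [Polynomial.map_C]
  rfl

theorem exists_int_mul (u : ℚ[X]) : ∃ (b : ℤ) (U : ℤ[X]), b ≠ 0 ∧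
    U.map (Int.castRingHom ℚ) = C (b : ℚ) * u := by
  obtain ⟨b, hb0, hb⟩ := IsLocalization.integerNormalization_spec (nonZeroDivisors ℤ) u
  refine ⟨b, IsLocalization.integerNormalization (nonZeroDivisors ℤ) u,
    nonZeroDivisors.ne_zero hb0, ?_⟩
  have h1 : (algebraMap ℤ ℚ) = Int.castRingHom ℚ := rfl
  rw [← h1, hb]
  ext i
  simp [zsmul_eq_mul]

theorem hensel_int (B : ℤ[X]) (p : ℕ) (hp : p.Prime) (t0 : ℤ) (h0 : (p : ℤ) ∣ B.eval t0)
    (h1 : ¬ (p : ℤ) ∣ B.derivative.eval t0) (n : ℕ) :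
    ∃ t : ℤ, (p : ℤ) ^ (n + 1) ∣ B.eval t ∧ (p : ℤ) ∣ t - t0 := by
  have hpZ : Prime (p : ℤ) := Nat.prime_iff_prime_int.1 hp
  induction n with
  | zero => exact ⟨t0, by simpa using h0, by simp⟩
  | succ n ih =>
    obtain ⟨t, ht, htt⟩ := ih
    have hd1 : ¬ (p : ℤ) ∣ B.derivative.eval t := by
      intro hc
      apply h1
      have h2 : t - t0 ∣ B.derivative.eval t - B.derivative.eval t0 :=
        Polynomial.sub_dvd_eval_sub t t0 _
      have h3 := htt.trans h2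
      have h4 := dvd_sub hc h3
      simpa using h4
    obtain ⟨c, hc⟩ := ht
    have hcop : IsCoprime (B.derivative.eval t) (p : ℤ) := by
      have := (Prime.coprime_iff_not_dvd hpZ).2 hd1
      exact this.symm
    obtain ⟨s, r, hsr⟩ := hcop
    refine ⟨t + (-((p : ℤ) ^ (n + 1) * c * s)), ?_, ?_⟩
    · obtain ⟨k, hk⟩ := B.binomExpansion t (-((p : ℤ) ^ (n + 1) * c * s))
      rw [hk, hc]
      have h5 : (p : ℤ) ^ (n + 1) * c + B.derivative.eval t * -((p : ℤ) ^ (n + 1) * c * s) =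
          (p : ℤ) ^ (n + 1) * c * (r * p) := by
        have : r * (p : ℤ) = 1 - s * B.derivative.eval t := by linarith
        rw [this]
        ring
      rw [h5]
      apply dvd_add
      · exact ⟨c * r, by ring⟩
      · exact ⟨k * (p : ℤ) ^ n * (c * s) ^ 2, by ring⟩
    · have h6 : (p : ℤ) ∣ (p : ℤ) ^ (n + 1) * c * s :=
        ⟨(p : ℤ) ^ n * c * s, by ring⟩
      have h7 := dvd_sub htt h6
      have h8 : t + (-((p : ℤ) ^ (n + 1) * c * s)) - t0 = t - t0 - (p : ℤ) ^ (n + 1) * c * s := by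
        ring
      rw [h8]
      exact h7

/-- the arithmetic core: if `phi` takes the value `D p` for a large prime `p`, then it is divisible
by `p ^ d` at a point of the sector which is not divisible by `p` -/
theorem exists_bad_point {d : ℕ} (hd : 2 ≤ d) (w : ℕ → ℤ) (hw : gp d w ≠ 0) (D : ℕ) (hD : 0 < D)
    {α : ℝ} (hα : 0 < α) : ∃ K : ℕ, ∀ p : ℕ, p.Prime → K < p → ∀ x0 y0 : ℕ,
      phi d w x0 y0 = D * p → ∃ x y : ℕ, (x, y) ∈ Sec α ∧ ((p : ℤ) ^ d ∣ phi d w x y) ∧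
        ¬ (p ∣ x ∧ p ∣ y) := by
  set g := gp d w with hg
  have hgQ : g.map (Int.castRingHom ℚ) ≠ 0 := by
    rw [Ne, Polynomial.map_eq_zero_iff (RingHom.injective_int _)]
    exact hw
  obtain ⟨a, b, hab, hb⟩ := exists_sq_mul _ hgQ
  obtain ⟨N1, A, hN1, hA⟩ := exists_int_mul a
  obtain ⟨N2, B, hN2, hB⟩ := exists_int_mul b
  have hAB : A ^ 2 * B = C (N1 ^ 2 * N2) * g := by
    apply Polynomial.map_injective (Int.castRingHom ℚ) (RingHom.injective_int _)
    rw [Polynomial.map_mul, Polynomial.map_mul, Polynomial.map_pow, hA, hB, hab, map_CZ]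
    have h1 : (C ((N1 ^ 2 * N2 : ℤ) : ℚ) : ℚ[X]) = C (N1 : ℚ) ^ 2 * C (N2 : ℚ) := by
      rw [← C_pow, ← C_mul]
      push_cast
      rfl
    rw [h1]
    ring
  set N := N1 ^ 2 * N2 with hN
  have hN0 : N ≠ 0 := mul_ne_zero (pow_ne_zero _ hN1) hN2
  have hBsep : IsCoprime (B.map (Int.castRingHom ℚ)) (B.map (Int.castRingHom ℚ)).derivative := by
    have h1 : (B.map (Int.castRingHom ℚ)).Separable := by
      rw [PerfectField.separable_iff_squarefree, hB]
      have hu : IsUnit (C (N2 : ℚ)) := by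
        rw [Polynomial.isUnit_C]
        exact isUnit_iff_ne_zero.2 (by exact_mod_cast hN2)
      exact (squarefree_mul_iff.2 ⟨(hu.isRelPrime_left), hu.squarefree, hb⟩)
    exact h1
  obtain ⟨u, v, huv⟩ := hBsep
  obtain ⟨M1, U, hM1, hU⟩ := exists_int_mul u
  obtain ⟨M2, V, hM2, hV⟩ := exists_int_mul v
  have hR : C M2 * U * B + C M1 * V * B.derivative = C (M1 * M2) := by
    apply Polynomial.map_injective (Int.castRingHom ℚ) (RingHom.injective_int _)
    rw [Polynomial.map_add, Polynomial.map_mul, Polynomial.map_mul, Polynomial.map_mul,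
      Polynomial.map_mul, hU, hV, ← Polynomial.derivative_map, map_CZ, map_CZ, map_CZ]
    have h1 : (C ((M1 * M2 : ℤ) : ℚ) : ℚ[X]) = C (M1 : ℚ) * C (M2 : ℚ) := by
      rw [← C_mul]
      push_cast
      rfl
    rw [h1]
    linear_combination (C (M1 : ℚ) * C (M2 : ℚ)) * huv
  refine ⟨D + N.natAbs + (M1 * M2).natAbs + (w d).natAbs, fun p hp hK x0 y0 hxy => ?_⟩
  have hpZ : Prime (p : ℤ) := Nat.prime_iff_prime_int.1 hp
  have hsmall : ∀ n : ℤ, n.natAbs < p → (p : ℤ) ∣ n → n = 0 := by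
    intro n hn hdvd
    exact Int.eq_zero_of_abs_lt_dvd hdvd (by
      rw [Int.abs_eq_natAbs]
      exact_mod_cast hn)
  have hpD : ¬ (p : ℤ) ∣ D := by
    intro hc
    have := hsmall D (by simp; omega) hc
    omega
  have hpN : ¬ (p : ℤ) ∣ N := fun hc => hN0 (hsmall N (by omega) hc)
  have hpR : ¬ (p : ℤ) ∣ M1 * M2 := fun hc => mul_ne_zero hM1 hM2 (hsmall _ (by omega) hc)
  have hppD : ¬ (p : ℤ) ^ 2 ∣ D * p := by
    intro hc
    obtain ⟨c, hc⟩ := hc
    apply hpD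
    refine ⟨c, ?_⟩
    have hp0 : (p : ℤ) ≠ 0 := hpZ.ne_zero
    apply mul_right_cancel₀ hp0
    rw [hc]
    ring
  have hple : (p : ℤ) ^ 2 ∣ (p : ℤ) ^ d := pow_dvd_pow _ hd
  have hp1 : 1 < p := hp.one_lt
  by_cases hx : (p : ℤ) ∣ x0
  · -- the prime divides `x0`
    have hy : ¬ (p : ℤ) ∣ y0 := by
      intro hy
      obtain ⟨x1, hx1⟩ := hx
      obtain ⟨y1, hy1⟩ := hy
      apply hppD
      rw [← hxy, hx1, hy1, phi_smul]
      exact hple.mul_right _
    have h1 : phi d w x0 y0 ≡ phi d w 0 y0 [ZMOD p] :=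
      phi_modEq d w (Int.modEq_zero_iff_dvd.2 hx) (Int.ModEq.refl _)
    rw [hxy, phi_zero] at h1
    have h2 : (p : ℤ) ∣ w d * (y0 : ℤ) ^ d := by
      apply Int.modEq_zero_iff_dvd.1
      apply h1.symm.trans
      exact Int.modEq_zero_iff_dvd.2 (dvd_mul_left _ _)
    have h3 : (p : ℤ) ∣ w d := by
      rcases hpZ.dvd_or_dvd h2 with h3 | h3
      · exact h3
      · exact absurd (hpZ.dvd_of_dvd_pow h3) hy
    have h4 : w d = 0 := hsmall _ (by omega) h3
    obtain ⟨m, hm⟩ := exists_nat_ge (1 / α)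
    refine ⟨p ^ d * (m + 1), 1, ?_, ?_, ?_⟩
    · change ((1 : ℕ) : ℝ) ≤ α * ((p ^ d * (m + 1) : ℕ) : ℝ)
      rw [div_le_iff₀ hα] at hm
      have h5 : (1 : ℝ) ≤ (p : ℝ) ^ d := one_le_pow₀ (by exact_mod_cast hp1.le)
      have h6 : (0 : ℝ) ≤ (m : ℝ) := Nat.cast_nonneg _
      push_cast
      have h7 : (m : ℝ) ≤ (p : ℝ) ^ d * (m + 1) := by nlinarith
      nlinarith
    · have h5 : phi d w ((p ^ d * (m + 1) : ℕ) : ℤ) ((1 : ℕ) : ℤ) ≡ phi d w 0 ((1 : ℕ) : ℤ)
          [ZMOD (p : ℤ) ^ d] := by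
        apply phi_modEq d w _ (Int.ModEq.refl _)
        push_cast
        exact Int.modEq_zero_iff_dvd.2 (dvd_mul_right _ _)
      rw [phi_zero, h4, zero_mul] at h5
      exact Int.modEq_zero_iff_dvd.1 h5
    · rintro ⟨-, h6⟩
      have := Nat.dvd_one.1 h6
      omega
  · -- the prime does not divide `x0`
    have hcop : IsCoprime (x0 : ℤ) ((p : ℤ) ^ 2) :=
      ((Prime.coprime_iff_not_dvd hpZ).2 hx).symm.pow_right
    obtain ⟨s, r, hsr⟩ := hcop
    have h1 : (x0 : ℤ) * (y0 * s) ≡ y0 [ZMOD (p : ℤ) ^ 2] := by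
      apply (Int.modEq_iff_dvd.2 _)
      refine ⟨r * y0, ?_⟩
      linear_combination (-(y0 : ℤ)) * hsr
    have h2 : (x0 : ℤ) ^ d * g.eval (y0 * s) ≡ D * p [ZMOD (p : ℤ) ^ 2] := by
      rw [hg, ← phi_eq, ← hxy]
      exact phi_modEq d w (Int.ModEq.refl _) h1
    set t0 : ℤ := y0 * s with ht0
    have hpow : ¬ (p : ℤ) ∣ (x0 : ℤ) ^ d := fun hc => hx (hpZ.dvd_of_dvd_pow hc)
    have h3 : (p : ℤ) ∣ g.eval t0 := by
      have h4 : (x0 : ℤ) ^ d * g.eval t0 ≡ D * p [ZMOD (p : ℤ)] :=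
        h2.of_dvd (dvd_pow_self _ two_ne_zero)
      have h5 : (p : ℤ) ∣ (x0 : ℤ) ^ d * g.eval t0 := by
        apply Int.modEq_zero_iff_dvd.1
        apply h4.trans
        exact Int.modEq_zero_iff_dvd.2 (dvd_mul_left _ _)
      exact (hpZ.dvd_or_dvd h5).resolve_left hpow
    have h4 : ¬ (p : ℤ) ^ 2 ∣ g.eval t0 := by
      intro hc
      apply hppD
      apply Int.modEq_zero_iff_dvd.1
      apply h2.symm.trans
      exact Int.modEq_zero_iff_dvd.2 (hc.mul_left _)
    have h5 : ∀ t : ℤ, A.eval t ^ 2 * B.eval t = N * g.eval t := by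
      intro t
      have := congrArg (fun q => q.eval t) hAB
      simpa using this
    have hcopN : IsCoprime ((p : ℤ) ^ d) N :=
      ((Prime.coprime_iff_not_dvd hpZ).2 hpN).pow_left
    have hcopN2 : IsCoprime ((p : ℤ) ^ 2) N :=
      ((Prime.coprime_iff_not_dvd hpZ).2 hpN).pow_left
    have h6 : (p : ℤ) ∣ B.eval t0 := by
      have h7 : (p : ℤ) ∣ A.eval t0 ^ 2 * B.eval t0 := by
        rw [h5]
        exact h3.mul_left _
      rcases hpZ.dvd_or_dvd h7 with h8 | h8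
      · exfalso
        have h9 : (p : ℤ) ∣ A.eval t0 := hpZ.dvd_of_dvd_pow h8
        have h10 : (p : ℤ) ^ 2 ∣ N * g.eval t0 := by
          rw [← h5]
          exact (pow_dvd_pow_of_dvd h9 2).mul_right _
        exact h4 (hcopN2.dvd_of_dvd_mul_left h10)
      · exact h8
    have h7 : ¬ (p : ℤ) ∣ B.derivative.eval t0 := by
      intro hc
      apply hpR
      have h8 := congrArg (fun q => q.eval t0) hR
      simp only [eval_add, eval_mul, eval_C] at h8
      rw [← h8]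
      exact dvd_add (h6.mul_left _) (hc.mul_left _)
    obtain ⟨t, ht, -⟩ := hensel_int B p hp t0 h6 h7 (d - 1)
    rw [Nat.sub_add_cancel (by omega : 1 ≤ d)] at ht
    have h8 : (p : ℤ) ^ d ∣ g.eval t := by
      have h9 : (p : ℤ) ^ d ∣ N * g.eval t := by
        rw [← h5]
        exact ht.mul_left _
      exact hcopN.dvd_of_dvd_mul_left h9
    have hpd : (0 : ℤ) < (p : ℤ) ^ d := by
      have : (0 : ℤ) < p := by exact_mod_cast hp.pos
      positivity
    obtain ⟨t', ht'⟩ : ∃ t' : ℕ, (t' : ℤ) = t % (p : ℤ) ^ d :=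
      ⟨(t % (p : ℤ) ^ d).toNat, Int.toNat_of_nonneg (Int.emod_nonneg _ hpd.ne')⟩
    have htt : (t' : ℤ) ≡ t [ZMOD (p : ℤ) ^ d] := by
      rw [ht']
      exact Int.mod_modEq _ _
    obtain ⟨m, hm⟩ := exists_nat_ge ((t' : ℝ) / α)
    refine ⟨1 + p ^ d * m, t', ?_, ?_, ?_⟩
    · change ((t' : ℕ) : ℝ) ≤ α * ((1 + p ^ d * m : ℕ) : ℝ)
      rw [div_le_iff₀ hα] at hm
      have h9 : (1 : ℝ) ≤ (p : ℝ) ^ d := one_le_pow₀ (by exact_mod_cast hp1.le)
      have h10 : (0 : ℝ) ≤ (m : ℝ) := Nat.cast_nonneg _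
      push_cast
      have h11 : (m : ℝ) ≤ 1 + (p : ℝ) ^ d * m := by nlinarith
      nlinarith
    · have h9 : phi d w ((1 + p ^ d * m : ℕ) : ℤ) (t' : ℤ) ≡ phi d w 1 t [ZMOD (p : ℤ) ^ d] := by
        apply phi_modEq d w _ htt
        push_cast
        apply Int.modEq_iff_dvd.2
        exact ⟨-m, by ring⟩
      rw [phi_one] at h9
      exact Int.modEq_zero_iff_dvd.1 (h9.trans (Int.modEq_zero_iff_dvd.2 h8))
    · rintro ⟨h9, -⟩
      have h10 : p ∣ p ^ d * m := (dvd_pow_self p (by omega)).mul_right _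
      have h11 : p ∣ 1 := (Nat.dvd_add_left h10).1 h9
      have := Nat.dvd_one.1 h11
      omega

variable {α : ℝ} {d : ℕ} {h : ℕ → ℝ[X]}

/-- **No packing polynomial of degree `d ≥ 2` on an irrational sector is the sum of a form of
degree `d` and a constant.** -/
theorem Pk.no_homog (H : Pk α d h) (hd : 2 ≤ d) (hmid : ∀ k, 0 < k → k < d → h k = 0) : False := by
  obtain ⟨D, hD, z, hz⟩ := H.exists_den
  set w : ℕ → ℤ := fun i => z d i with hw
  set e : ℝ := (h 0).coeff 0 with he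
  have hDR : (0 : ℝ) < D := by exact_mod_cast hD
  -- the values
  have hev : ∀ x y : ℕ, (D : ℝ) * ev d h x y = (phi d w x y : ℤ) + D * e := by
    intro x y
    unfold ev phi
    rw [Finset.sum_range_succ, Finset.sum_eq_single 0]
    · push_cast
      rw [mul_add, add_comm, Finset.mul_sum]
      congr 1
      · apply Finset.sum_congr rfl
        intro i _
        rw [hw, ← hz d (mem_range.2 (Nat.lt_succ_self d)) i]
        ring
      · simp [he]
    · intro k hk hk0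
      rw [hmid k (Nat.pos_of_ne_zero hk0) (mem_range.1 hk)]
      simp
    · intro hk
      exact absurd (mem_range.2 (by omega)) hk
  have h00 : ((0, 0) : ℕ × ℕ) ∈ Sec α := by
    change ((0 : ℕ) : ℝ) ≤ α * ((0 : ℕ) : ℝ)
    simp
  have hphi0 : phi d w 0 0 = 0 := by
    rw [phi_zero, zero_pow (by omega), mul_zero]
  -- the constant is zero
  obtain ⟨n0, hn0⟩ := H.val _ h00
  have he0 : e = n0 := by
    have h1 := hev 0 0
    simp only [Nat.cast_zero, hphi0, Int.cast_zero, zero_add] at h1 hn0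
    rw [hn0] at h1
    exact (mul_left_cancel₀ hDR.ne' h1).symm
  have hezero : e = 0 := by
    obtain ⟨P, hP, hP0⟩ := H.surj 0
    have h1 := hev P.1 P.2
    rw [hP0] at h1
    obtain ⟨v, hv⟩ := H.val _ (sec_smul hP 2)
    have h2 := hev (2 * P.1) (2 * P.2)
    simp only at hv
    rw [hv] at h2
    have h3 : phi d w ((2 * P.1 : ℕ) : ℤ) ((2 * P.2 : ℕ) : ℤ) = 2 ^ d * phi d w P.1 P.2 := by
      push_cast
      exact phi_smul d w 2 P.1 P.2
    rw [h3] at h2
    push_cast at h1 h2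
    have h4 : ((phi d w P.1 P.2 : ℤ) : ℝ) = - (D * e) := by linarith
    rw [h4] at h2
    have h5 : (0 : ℝ) ≤ D * v := by positivity
    have h6 : (4 : ℝ) ≤ 2 ^ d := by
      calc (4 : ℝ) = 2 ^ 2 := by norm_num
        _ ≤ 2 ^ d := pow_le_pow_right₀ (by norm_num) hd
    have h7 : 0 ≤ e := by rw [he0]; positivity
    have h8 : 0 ≤ D * e := by positivity
    have h9 : D * e = 0 := by nlinarith
    rcases mul_eq_zero.1 h9 with h10 | h10
    · exact absurd h10 hDR.ne'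
    · exact h10
  have hval : ∀ x y : ℕ, ∀ v : ℕ, ev d h x y = v → phi d w x y = D * v := by
    intro x y v hv
    have h1 := hev x y
    rw [hv, hezero, mul_zero, add_zero] at h1
    exact_mod_cast h1.symm
  -- homogeneity
  have hsm : ∀ n x y : ℕ, ev d h ((n * x : ℕ) : ℝ) ((n * y : ℕ) : ℝ) = n ^ d * ev d h x y := by
    intro n x y
    have h1 := hev x y
    have h2 := hev (n * x) (n * y)
    rw [hezero, mul_zero, add_zero] at h1 h2
    have h3 : phi d w ((n * x : ℕ) : ℤ) ((n * y : ℕ) : ℤ) = n ^ d * phi d w x y := by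
      push_cast
      exact phi_smul d w n x y
    rw [h3] at h2
    push_cast at h2
    rw [← h1] at h2
    apply mul_left_cancel₀ hDR.ne'
    push_cast
    rw [h2]
    ring
  have hgne : gp d w ≠ 0 := by
    intro hg
    have h10 : ((1, 0) : ℕ × ℕ) ∈ Sec α := by
      change ((0 : ℕ) : ℝ) ≤ α * ((1 : ℕ) : ℝ)
      simpa using H.pos.le
    have h1 : ev d h ((0 : ℕ) : ℝ) ((0 : ℕ) : ℝ) = ev d h ((1 : ℕ) : ℝ) ((0 : ℕ) : ℝ) := by
      apply mul_left_cancel₀ hDR.ne'
      rw [hev 0 0, hev 1 0]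
      have h2 : phi d w ((1 : ℕ) : ℤ) ((0 : ℕ) : ℤ) = 0 := by
        rw [Nat.cast_one, phi_one, hg]
        simp
      rw [h2]
      simp [hphi0]
    have h3 := H.inj _ h00 _ h10 h1
    simp at h3
  obtain ⟨K, hK⟩ := exists_bad_point hd w hgne D hD H.pos
  obtain ⟨p, hpK, hp⟩ := Nat.exists_infinite_primes (K + D + 1)
  obtain ⟨P0, hP0, hv0⟩ := H.surj p
  obtain ⟨x, y, hxy, hdvd, hnot⟩ := hK p hp (by omega) P0.1 P0.2 (hval _ _ _ hv0)
  obtain ⟨v, hv⟩ := H.val _ hxy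
  simp only at hv
  rw [hval x y v hv] at hdvd
  have hdvd' : p ^ d ∣ D * v := by exact_mod_cast hdvd
  have hcop : Nat.Coprime (p ^ d) D := by
    apply Nat.Coprime.pow_left
    rw [Nat.Prime.coprime_iff_not_dvd hp]
    intro hc
    have := Nat.le_of_dvd hD hc
    omega
  obtain ⟨n', hn'⟩ := hcop.dvd_of_dvd_mul_left hdvd'
  obtain ⟨Q, hQ, hQv⟩ := H.surj n'
  have h1 : ev d h ((p * Q.1 : ℕ) : ℝ) ((p * Q.2 : ℕ) : ℝ) = ev d h x y := by
    rw [hsm, hQv, hv, hn']
    push_cast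
    ring
  have h2 := H.inj _ (sec_smul hQ p) _ hxy h1
  rw [Prod.mk.injEq] at h2
  exact hnot ⟨⟨Q.1, h2.1.symm⟩, ⟨Q.2, h2.2.symm⟩⟩

theorem Pk.no_homog3 (H : Pk α 3 h) (h2 : h 2 = 0) (h1 : h 1 = 0) : False := by
  apply H.no_homog (by norm_num)
  intro k hk hk3
  interval_cases k
  · exact h1
  · exact h2

end PP72
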