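import Pool.Agent.PP72.Fin13
import Pool.Agent.PP72.Homog

/-!
The final forms: degrees three, four, five, and the leading form in every degree.
-/

open Polynomial Finset Filter

namespace PP72

variable {α : ℝ} {d : ℕ} {h : ℕ → ℝ[X]}

/-- the whole leading form is a power of the minimal polynomial if there are small values -/
theorem Pk.full_of_small (H : Pk α d h) (hne : h d ≠ 0) {θ : ℝ} (hirr : Irrational θ)
    (hz : (h d).eval θ = 0)
    (hs : ∃ C : ℝ, ∀ X0 : ℕ, ∃ P ∈ Sec α, X0 < P.1 ∧ |(P.2 : ℝ) - θ * P.1| ≤ C ∧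
      fv d h P ≤ C * Real.log P.1 ^ 2) :
    d ≤ rootMultiplicity θ (h d) * (minpoly ℚ θ).natDegree := by
  by_contra hlt
  push Not at hlt
  obtain ⟨K, hK⟩ := hs
  obtain ⟨C, M, hCM⟩ := H.rg_strip' hne hirr hz hlt K
  have hK1 : (0 : ℝ) < |K| + 1 := by positivity
  -- `C (1 + (|K| + 1) (log x) ^ 2) ^ M < x` for large `x`
  have hlim : Tendsto (fun x : ℝ => (C : ℝ) * ((|K| + 2) * Real.log x ^ 2) ^ M / x) atTop
      (nhds 0) := by
    have h1 : (fun x : ℝ => (C : ℝ) * ((|K| + 2) * Real.log x ^ 2) ^ M / x) =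
        fun x : ℝ => ((C : ℝ) * (|K| + 2) ^ M) * (Real.log x ^ (2 * M) / x) := by
      funext x
      rw [mul_pow, ← pow_mul]
      ring
    rw [h1]
    have h2 : Tendsto (fun x : ℝ => Real.log x ^ (2 * M) / x) atTop (nhds 0) := by
      have h3 := Real.tendsto_pow_log_div_mul_add_atTop 1 0 (2 * M) one_ne_zero
      simpa using h3
    simpa using h2.const_mul ((C : ℝ) * (|K| + 2) ^ M)
  have hev : ∀ᶠ x : ℝ in atTop, (C : ℝ) * ((|K| + 2) * Real.log x ^ 2) ^ M / x < 1 :=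
    hlim.eventually (gt_mem_nhds one_pos)
  have hev2 : ∀ᶠ x : ℝ in atTop, 1 ≤ Real.log x :=
    Real.tendsto_log_atTop.eventually (eventually_ge_atTop 1)
  obtain ⟨X1, hX1⟩ := ((hev.and hev2).and (eventually_gt_atTop 0)).exists_forall_of_atTop
  obtain ⟨X0, hX0⟩ := exists_nat_ge X1
  obtain ⟨P, hP, hx, hu, hv⟩ := hK X0
  have hPpos : 0 < P.1 := by omega
  have hx' : X1 ≤ (P.1 : ℝ) := by
    have : (X0 : ℝ) < P.1 := by exact_mod_cast hx
    linarith
  obtain ⟨⟨g1, g2⟩, g3⟩ := hX1 P.1 hx'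
  have h5 := hCM P hP hPpos hu
  have hlog : (1 : ℝ) ≤ Real.log P.1 ^ 2 := one_le_pow₀ g2
  have h6 : 1 + fv d h P ≤ (|K| + 2) * Real.log P.1 ^ 2 := by
    have h7 := le_abs_self K
    have h8 : 0 ≤ Real.log P.1 ^ 2 := by positivity
    nlinarith [mul_le_mul_of_nonneg_right h7 h8]
  have h9 : 0 ≤ fv d h P := by
    obtain ⟨n, hn⟩ := H.val P hP
    have : fv d h P = n := hn
    rw [this]
    exact Nat.cast_nonneg _
  have h10 : (C : ℝ) * (1 + fv d h P) ^ M ≤ C * ((|K| + 2) * Real.log P.1 ^ 2) ^ M := by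
    gcongr
  rw [div_lt_one g3] at g1
  linarith

/-- **The structure theorem**, final form. -/
theorem structure_final5 {α : ℝ} (hα : 0 < α) (hirr : Irrational α)
    (F : MvPolynomial (Fin 2) ℝ) (hd : 3 ≤ F.totalDegree) (hF : IsPacking α F) :
    (∃ k, 0 < k ∧ k < F.totalDegree ∧ formPoly F k ≠ 0) ∧
    ∃ θ ∈ Set.Icc 0 α, (formPoly F F.totalDegree).eval θ = 0 ∧
      (formPoly F (F.totalDegree - 1)).eval θ = 0 ∧
      ((formPoly F (F.totalDegree - 2)).eval θ ≤ 0 ∨
        (X - C θ) ^ (rootMultiplicity θ (formPoly F F.totalDegree) + 1) ∣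
          formPoly F (F.totalDegree - 1) ^ 2 -
            4 * formPoly F F.totalDegree * formPoly F (F.totalDegree - 2)) ∧
      (0 ≤ (formPoly F (F.totalDegree - 2)).eval θ ∨
        rootMultiplicity θ (formPoly F F.totalDegree) = 1) ∧
      (((((∃ r : ℚ, θ = r) ∧ 6 ≤ rootMultiplicity θ (formPoly F F.totalDegree)) ∨
          (Irrational θ ∧ 4 ≤ rootMultiplicity θ (formPoly F F.totalDegree))) ∧
          (0 < (formPoly F (F.totalDegree - 2)).eval θ ∨
            (X - C θ) ^ 3 ∣ formPoly F (F.totalDegree - 1))) ∨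
        (Irrational θ ∧ rootMultiplicity θ (formPoly F F.totalDegree) ≤ 3 ∧
          3 ≤ (minpoly ℚ θ).natDegree ∧
          F.totalDegree =
            rootMultiplicity θ (formPoly F F.totalDegree) * (minpoly ℚ θ).natDegree ∧
          (∃ c : ℚ, c ≠ 0 ∧ formPoly F F.totalDegree =
            (C c * minpoly ℚ θ ^ rootMultiplicity θ (formPoly F F.totalDegree)).map
              (algebraMap ℚ ℝ)) ∧
          (rootMultiplicity θ (formPoly F F.totalDegree) ≠ 2 → θ = α) ∧
          (rootMultiplicity θ (formPoly F F.totalDegree) = 1 →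
            formPoly F (F.totalDegree - 1) = 0 ∧
              ((formPoly F (F.totalDegree - 2)).eval α < 0 ∨
                formPoly F (F.totalDegree - 2) = 0)) ∧
          (∃ K : ℝ, ∀ X0 : ℕ, ∃ x y : ℕ, X0 < x ∧ (y : ℝ) ≤ α * x ∧
            |(y : ℝ) - θ * x| ≤ K ∧
            MvPolynomial.eval ![(x : ℝ), (y : ℝ)] F ≤ K * Real.log x ^ 2) ∧
          (∃ s t : ℝ, IsAlgebraic ℚ s ∧ IsAlgebraic ℚ t ∧ ∀ X0 : ℕ, ∃ x y : ℕ, X0 < x ∧
            (x : ℝ) * (x * (y - θ * x - s) - t) ^ 4 < 1))) := by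
  have H := hF.pk hα hirr
  have hne := formPoly_lead_ne_zero F (by omega : 1 ≤ F.totalDegree)
  refine ⟨?_, ?_⟩
  · by_contra hcon
    push Not at hcon
    exact H.no_homog (by omega) hcon
  obtain ⟨θ, hθ, h1, h2, h3, h4, h5⟩ := H.structure4 hd hne
  refine ⟨θ, hθ, h1, h2, h3, h4, ?_⟩
  rcases h5 with h5 | ⟨g1, g2, k1, k2, k3, ⟨K, k4⟩, k5⟩
  · exact Or.inl h5
  · have hfull := H.full_of_small hne g1 h1 ⟨K, k4⟩
    obtain ⟨hdeg, _, c, hc, hform⟩ := H.form_eq hne h1 hfull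
    have hn3 : 3 ≤ (minpoly ℚ θ).natDegree := by
      obtain ⟨m, c', hm, hm3, hc', hf'⟩ := k1
      have h6 := congrArg Polynomial.natDegree hf'
      have h7 := congrArg Polynomial.natDegree hform
      rw [h7] at h6
      have hθint : IsIntegral ℚ θ := by
        by_contra hcon
        have h8 := minpoly.eq_zero hcon
        rw [h8, natDegree_zero, mul_zero] at hdeg
        omega
      have hmp : minpoly ℚ θ ≠ 0 := minpoly.ne_zero hθint
      rw [natDegree_map, natDegree_map, natDegree_C_mul hc, natDegree_C_mul hc', natDegree_pow,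
        natDegree_pow] at h6
      have hpos : 0 < rootMultiplicity θ (formPoly F F.totalDegree) :=
        (rootMultiplicity_pos hne).2 h1
      have h9 := Nat.eq_of_mul_eq_mul_left hpos h6
      omega
    refine Or.inr ⟨g1, g2, hn3, hdeg, ⟨c, hc, hform⟩, k2, ?_, ⟨K, fun X0 => ?_⟩, k5⟩
    · intro hμ
      obtain ⟨j1, j2⟩ := k3 hμ
      refine ⟨j1, ?_⟩
      rcases lt_or_eq_of_le j2 with j3 | j3
      · exact Or.inl j3
      · right
        have hθα : θ = α := k2 (by omega)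
        rw [hμ, one_mul, hθα] at hdeg
        exact H.second_zero (F.totalDegree - 2) (by omega) j3 (by omega)
    · obtain ⟨⟨x, y⟩, hP, hx, hu, hv⟩ := k4 X0
      refine ⟨x, y, hx, hP, hu, ?_⟩
      rw [← ev_formPoly F x y]
      exact hv

/-- **Degrees three, four and five**, final form. -/
theorem low_degree14 {α : ℝ} (hα : 0 < α) (hirr : Irrational α) (F : MvPolynomial (Fin 2) ℝ)
    (hd3 : 3 ≤ F.totalDegree) (hd5 : F.totalDegree ≤ 5) (hF : IsPacking α F) :
    (minpoly ℚ α).natDegree = F.totalDegree ∧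
      (∃ c : ℚ, c ≠ 0 ∧
        formPoly F F.totalDegree = (C c * minpoly ℚ α).map (algebraMap ℚ ℝ)) ∧
      formPoly F (F.totalDegree - 1) = 0 ∧
      ((formPoly F (F.totalDegree - 2)).eval α < 0 ∨
        (4 ≤ F.totalDegree ∧ formPoly F (F.totalDegree - 2) = 0 ∧
          ∃ k, 0 < k ∧ k < F.totalDegree - 2 ∧ formPoly F k ≠ 0)) ∧
      (derivative (formPoly F F.totalDegree)).eval α < 0 ∧
      ∃ ρ K : ℝ, ρ = (formPoly F (F.totalDegree - 2)).eval α /
          (derivative (formPoly F F.totalDegree)).eval α ∧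
        ρ ∈ IntermediateField.adjoin ℚ {α} ∧
        (∀ ε : ℝ, 0 < ε → ∃ X0 : ℕ, ∀ x y : ℕ, X0 < x → (y : ℝ) ≤ α * x →
          ρ - ε < x * (α * x - y)) ∧
        (∀ X0 : ℕ, ∃ x y : ℕ, X0 < x ∧ (y : ℝ) ≤ α * x ∧
          MvPolynomial.eval ![(x : ℝ), (y : ℝ)] F ≤ K * Real.log x ^ 2 ∧
          |x * (α * x - y) - ρ| ≤ K * Real.log x ^ 2 / x) := by
  have H := hF.pk hα hirr
  obtain ⟨h1, h2, h3, h4, h5, h6⟩ := low_degree9 hα hirr F hd3 hd5 hF
  refine ⟨h1, h2, h3, ?_, h5, h6⟩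
  rcases lt_or_eq_of_le h4 with h7 | h7
  · exact Or.inl h7
  · right
    have h8 : formPoly F (F.totalDegree - 2) = 0 :=
      H.second_zero (F.totalDegree - 2) (by omega) h7 (by omega)
    have h9 : ∃ k, 0 < k ∧ k < F.totalDegree - 2 ∧ formPoly F k ≠ 0 := by
      by_contra hcon
      push Not at hcon
      apply H.no_homog (by omega)
      intro k hk0 hkd
      by_cases hk1 : k = F.totalDegree - 1
      · rw [hk1]
        exact h3
      by_cases hk2 : k = F.totalDegree - 2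
      · rw [hk2]
        exact h8
      · exact hcon k hk0 (by omega)
    obtain ⟨k, hk⟩ := h9
    exact ⟨by omega, h8, k, hk⟩

end PP72
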