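import Pool.Agent.PP72.Final5
import Pool.Agent.PP72.Cnt4

/-!
The boundary direction when the square of the logarithm of the first coordinate is small compared
to the value.
-/

open Polynomial Finset Filter

namespace PP72

variable {α : ℝ} {d : ℕ} {h : ℕ → ℝ[X]}

/-- the boundary direction, a simple zero, with a logarithmic bound for the first coordinate -/
theorem Pk.near_bd_log (K : ℕ) (hK : 1 ≤ K) (H : Pk α (K + 2) h) (hne : h (K + 2) ≠ 0)
    (h2 : (h (K + 2)).eval α = 0) (h1 : (h (K + 1)).eval α = 0)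
    (hb : (derivative (h (K + 2))).eval α < 0) (h0 : (h K).eval α ≤ 0)
    (hlog : ∀ η : ℝ, 0 < η → ∃ X0 : ℕ, ∀ P ∈ Sec α, X0 < P.1 →
      P.1 * (α * P.1 - P.2) < (h K).eval α / (derivative (h (K + 2))).eval α + 1 →
      Real.log P.1 ^ 2 ≤ η * fv (K + 2) h P) :
    ∃ r : ℝ, 0 < r ∧ Thin (fv (K + 2) h) (Near α α r) := by
  apply H.near_bd_core K hK h2 h1 hb h0 one_pos 0
  set R := (h K).eval α / (derivative (h (K + 2))).eval α + 1 with hR
  apply H.thin_of_log (by omega) hne H.irr 0 R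
  · rintro P ⟨hP1, hP2, hP3⟩
    have hPpos : (0 : ℝ) < P.1 := by exact_mod_cast hP2
    refine ⟨hP1, ?_⟩
    have hy : (P.2 : ℝ) ≤ α * P.1 := hP1
    rw [_root_.sub_zero, abs_of_nonpos (by linarith), le_div_iff₀ hPpos]
    linarith
  · intro η hη
    obtain ⟨X0, hX0⟩ := hlog η hη
    exact ⟨X0, fun P hP hx => hX0 P hP.1 hx hP.2.2⟩

/-- small values near the boundary -/
theorem Pk.close_log (K : ℕ) (hK : 1 ≤ K) (H : Pk α (K + 2) h)
    (h2 : (h (K + 2)).eval α = 0) (h1 : (h (K + 1)).eval α = 0)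
    (hb : (derivative (h (K + 2))).eval α < 0) (h0 : (h K).eval α ≤ 0) (C1 : ℝ) (hC1 : 0 ≤ C1) :
    ∃ C : ℝ, C1 ≤ C ∧ ∀ x y : ℕ, 3 ≤ x → (y : ℝ) ≤ α * x →
      x * (α * x - y) < (h K).eval α / (derivative (h (K + 2))).eval α + 1 →
      fv (K + 2) h (x, y) ≤ C1 * Real.log x ^ 2 →
      |(x : ℝ) * (α * x - y) - (h K).eval α / (derivative (h (K + 2))).eval α| ≤
        C * Real.log x ^ 2 / x := by
  obtain ⟨M, hM, hE⟩ := H.expand K h2 h1
  set b := -(derivative (h (K + 2))).eval α with hbdef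
  have hb0 : 0 < b := by rw [hbdef]; linarith
  have hρ : (h K).eval α / (derivative (h (K + 2))).eval α = -(h K).eval α / b := by
    rw [hbdef, neg_div_neg_eq]
  rw [hρ]
  set e := -(h K).eval α with he
  have he0 : 0 ≤ e := by rw [he]; linarith
  set ρ := e / b with hρdef
  have hρ0 : 0 ≤ ρ := by positivity
  have hbρ : b * ρ = e := by rw [hρdef]; field_simp
  set M' := M * ((ρ + 1) ^ 2 + (ρ + 1) + 1) with hM'
  have hM'0 : 0 ≤ M' := by positivity
  refine ⟨max C1 ((C1 + M') / b), le_max_left _ _, fun x y hx hy hw hF => ?_⟩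
  have hx3 : (3 : ℝ) ≤ x := by exact_mod_cast hx
  have hxpos : (0 : ℝ) < x := by linarith
  have hx1 : (1 : ℝ) ≤ x := by linarith
  have hlog1 : 1 ≤ Real.log x := by
    rw [Real.le_log_iff_exp_le (by linarith)]
    have := Real.exp_one_lt_d9
    linarith
  have hlog2 : 1 ≤ Real.log x ^ 2 := one_le_pow₀ hlog1
  have hEx := hE x y (by omega) hy
  set F := fv (K + 2) h (x, y) with hFdef
  have hF0 : 0 ≤ F := H.fv_nonneg (P := (x, y)) hy
  set δ := α * x - y with hδ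
  have hδ0 : 0 ≤ δ := by rw [hδ]; linarith
  set w := (x : ℝ) * δ with hwdef
  have hw0 : 0 ≤ w := by positivity
  have hδw : δ ≤ (ρ + 1) / x := by
    rw [le_div_iff₀ hxpos]
    linarith
  have hinv : 1 / (x : ℝ) ≤ 1 := by
    rw [div_le_one hxpos]
    exact hx1
  have hδ2 : δ ^ 2 ≤ (ρ + 1) ^ 2 / x := by
    calc δ ^ 2 ≤ ((ρ + 1) / x) ^ 2 := by gcongr
      _ = (ρ + 1) ^ 2 / x * (1 / x) := by ring
      _ ≤ (ρ + 1) ^ 2 / x * 1 := by gcongr
      _ = (ρ + 1) ^ 2 / x := mul_one _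
  have herr : M * (δ ^ 2 + δ + 1 / x) ≤ M' / x := by
    calc M * (δ ^ 2 + δ + 1 / x) ≤ M * ((ρ + 1) ^ 2 / x + (ρ + 1) / x + 1 / x) := by gcongr
      _ = M' / x := by rw [hM']; ring
  have hxK : 0 < (x : ℝ) ^ K := pow_pos hxpos _
  have hxK1 : (x : ℝ) ≤ (x : ℝ) ^ K := by
    calc (x : ℝ) = (x : ℝ) ^ 1 := (pow_one _).symm
      _ ≤ (x : ℝ) ^ K := pow_le_pow_right₀ hx1 hK
  -- `b |w - ρ| ≤ F / x ^ K + M' / x`
  have e1 : (x : ℝ) ^ K * (b * w + (h K).eval α) = (x : ℝ) ^ K * (b * (w - ρ)) := by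
    have : (h K).eval α = -e := by rw [he]; ring
    rw [this, ← hbρ]
    ring
  rw [e1] at hEx
  have h3 : (x : ℝ) ^ K * (b * |w - ρ|) ≤ F + (x : ℝ) ^ K * (M' / x) := by
    have h4 : |(x : ℝ) ^ K * (b * (w - ρ))| ≤ |F| + |F - (x : ℝ) ^ K * (b * (w - ρ))| := by
      have h5 : (x : ℝ) ^ K * (b * (w - ρ)) = F - (F - (x : ℝ) ^ K * (b * (w - ρ))) := by ring
      calc |(x : ℝ) ^ K * (b * (w - ρ))| = |F - (F - (x : ℝ) ^ K * (b * (w - ρ)))| := by
            rw [← h5]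
        _ ≤ |F| + |F - (x : ℝ) ^ K * (b * (w - ρ))| := abs_sub _ _
    rw [abs_mul, abs_mul, abs_of_pos hxK, abs_of_pos hb0, abs_of_nonneg hF0] at h4
    have h6 : (x : ℝ) ^ K * (M * (δ ^ 2 + δ + 1 / x)) ≤ (x : ℝ) ^ K * (M' / x) := by gcongr
    linarith
  have h4 : F ≤ (x : ℝ) ^ K * (C1 * Real.log x ^ 2 / x) := by
    calc F ≤ C1 * Real.log x ^ 2 := hF
      _ = x * (C1 * Real.log x ^ 2 / x) := by field_simp
      _ ≤ (x : ℝ) ^ K * (C1 * Real.log x ^ 2 / x) := by gcongr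
  have h5 : b * |w - ρ| ≤ C1 * Real.log x ^ 2 / x + M' / x := by
    have h6 : (x : ℝ) ^ K * (b * |w - ρ|) ≤
        (x : ℝ) ^ K * (C1 * Real.log x ^ 2 / x + M' / x) := by
      rw [mul_add]
      linarith
    exact le_of_mul_le_mul_left h6 hxK
  have h6 : b * |w - ρ| ≤ (C1 + M') * Real.log x ^ 2 / x := by
    refine h5.trans ?_
    rw [← add_div]
    gcongr
    have h7 : M' * 1 ≤ M' * Real.log x ^ 2 := by gcongr
    linarith
  calc |w - ρ| ≤ (C1 + M') * Real.log x ^ 2 / x / b := by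
        rw [le_div_iff₀ hb0, mul_comm]
        exact h6
    _ = (C1 + M') / b * Real.log x ^ 2 / x := by ring
    _ ≤ max C1 ((C1 + M') / b) * Real.log x ^ 2 / x := by
        gcongr
        exact le_max_right _ _

/-- low degree: small values at infinitely many points near the boundary -/
theorem Pk.low_small (K : ℕ) (H : Pk α (K + 2) h) (hd3 : 3 ≤ K + 2) (hd5 : K + 2 ≤ 5)
    (hne : h (K + 2) ≠ 0) : ∃ C : ℝ, 0 ≤ C ∧ ∀ X0 : ℕ, ∃ x y : ℕ, X0 < x ∧ (y : ℝ) ≤ α * x ∧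
      x * (α * x - y) < (h K).eval α / (derivative (h (K + 2))).eval α + 1 ∧
      fv (K + 2) h (x, y) ≤ C * Real.log x ^ 2 ∧
      |(x : ℝ) * (α * x - y) - (h K).eval α / (derivative (h (K + 2))).eval α| ≤
        C * Real.log x ^ 2 / x := by
  obtain ⟨⟨hk3, hkd⟩, hz, hz1, hle, hder, _, _⟩ := H.low_cond5 hd3 hd5 hne
  have hK1 : K + 2 - 1 = K + 1 := by omega
  have hK2 : K + 2 - 2 = K := by omega
  rw [hK1] at hz1
  rw [hK2] at hle
  have hK : 1 ≤ K := by omega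
  obtain ⟨η, hη, hinf⟩ : ∃ η : ℝ, 0 < η ∧ ∀ X0 : ℕ, ∃ P ∈ Sec α, X0 < P.1 ∧
      P.1 * (α * P.1 - P.2) < (h K).eval α / (derivative (h (K + 2))).eval α + 1 ∧
      η * fv (K + 2) h P < Real.log P.1 ^ 2 := by
    by_contra hcon
    push Not at hcon
    apply H.false_of_local hd3
    intro θ hθ hzθ
    by_cases hθα : θ = α
    · rw [hθα]
      exact H.near_bd_log K hK hne hz hz1 hder hle hcon
    · exact H.low_others hd3 hd5 hne hθ hzθ (fun h => absurd h hθα)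
  obtain ⟨C, hC1, hC⟩ := H.close_log K hK hz hz1 hder hle (1 / η) (by positivity)
  have hC0 : 0 ≤ C := le_trans (by positivity) hC1
  refine ⟨C, hC0, fun X0 => ?_⟩
  obtain ⟨⟨x, y⟩, hP, hx, hw, hF⟩ := hinf (X0 + 3)
  have hF' : fv (K + 2) h (x, y) ≤ 1 / η * Real.log x ^ 2 := by
    rw [one_div, inv_mul_eq_div, le_div_iff₀ hη]
    have : η * fv (K + 2) h (x, y) < Real.log x ^ 2 := hF
    linarith
  have hx' : X0 + 3 < x := hx
  refine ⟨x, y, by omega, hP, hw, ?_, hC x y (by omega) hP hw hF'⟩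
  refine hF'.trans ?_
  gcongr

/-- degrees three, four and five: the degree of `α` is the degree of `F` -/
theorem Pk.low_deg (H : Pk α d h) (hd3 : 3 ≤ d) (hd5 : d ≤ 5) (hne : h d ≠ 0)
    (hrg : (minpoly ℚ α).natDegree < d → (h d).eval α = 0 → (derivative (h d)).eval α < 0 →
      ∃ C : ℝ, ∃ M : ℕ, ∀ P ∈ Sec α, 0 < P.1 → α * P.1 - P.2 ≤ 1 →
        (P.1 : ℝ) ≤ C * (1 + fv d h P) ^ M) :
    (minpoly ℚ α).natDegree = d := by
  obtain ⟨⟨hk3, hkd⟩, hz, hz1, hle, hder, _, _⟩ := H.low_cond5 hd3 hd5 hne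
  by_contra hcon
  have hlt : (minpoly ℚ α).natDegree < d := lt_of_le_of_ne hkd hcon
  obtain ⟨C, M, hpoly⟩ := hrg hlt hz hder
  obtain ⟨K, rfl⟩ : ∃ K, d = K + 2 := ⟨d - 2, by omega⟩
  have hK1 : K + 2 - 1 = K + 1 := by omega
  have hK2 : K + 2 - 2 = K := by omega
  rw [hK1] at hz1
  rw [hK2] at hle
  apply H.false_of_local hd3
  intro θ hθ hzθ
  by_cases hθα : θ = α
  · rw [hθα]
    apply H.near_bd_log K (by omega) hne hz hz1 hder hle
    intro η hη
    obtain ⟨X1, hX1⟩ := log_of_poly C M hη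
    set R := (h K).eval α / (derivative (h (K + 2))).eval α + 1 with hR
    obtain ⟨X2, hX2⟩ := exists_nat_ge |R|
    refine ⟨X1 + X2, fun P hP hx hw => ?_⟩
    have hPpos : (0 : ℝ) < P.1 := by
      have : 0 < P.1 := by omega
      exact_mod_cast this
    apply hX1 P.1 (by omega) _ (H.fv_nonneg hP)
    apply hpoly P hP (by omega)
    by_contra hcon'
    push Not at hcon'
    have hx2 : |R| ≤ P.1 := by
      have : (X2 : ℝ) ≤ P.1 := by
        have : X2 ≤ P.1 := by omega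
        exact_mod_cast this
      linarith
    have h5 : (P.1 : ℝ) * 1 < P.1 * (α * P.1 - P.2) := mul_lt_mul_of_pos_left hcon' hPpos
    have hRR := le_abs_self R
    linarith
  · exact H.low_others hd3 hd5 hne hθ hzθ (fun h => absurd h hθα)

end PP72
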