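import Pool.Agent.PP72.Basic

/-!
The leading form is a constant times a power of an irreducible polynomial if it has a zero `θ` such
that the order times the degree of `θ` is at least the degree.
-/

open Polynomial Finset

namespace PP72

variable {α : ℝ} {d : ℕ} {h : ℕ → ℝ[X]}

theorem rootMultiplicity_minpoly {θ : ℝ} (hθ : IsIntegral ℚ θ) :
    rootMultiplicity θ ((minpoly ℚ θ).map (algebraMap ℚ ℝ)) = 1 := by
  have h0 : (minpoly ℚ θ).map (algebraMap ℚ ℝ) ≠ 0 :=
    (Polynomial.map_ne_zero_iff (algebraMap ℚ ℝ).injective).2 (minpoly.ne_zero hθ)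
  have h1 : ((minpoly ℚ θ).map (algebraMap ℚ ℝ)).IsRoot θ := by
    rw [IsRoot, eval_map_algebraMap, minpoly.aeval]
  have h2 : ((minpoly ℚ θ).map (algebraMap ℚ ℝ)).Separable :=
    (minpoly.irreducible hθ).separable.map
  have h3 := rootMultiplicity_le_one_of_separable h2 θ
  have h4 := (rootMultiplicity_pos h0).2 h1
  omega

theorem rootMultiplicity_pow' {p : ℝ[X]} (hp : p ≠ 0) (θ : ℝ) (n : ℕ) :
    rootMultiplicity θ (p ^ n) = n * rootMultiplicity θ p := by
  induction n with
  | zero => simp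
  | succ n ih =>
    rw [pow_succ, rootMultiplicity_mul (mul_ne_zero (pow_ne_zero _ hp) hp), ih]
    ring

/-- a rational polynomial `q` with a zero `θ` of order `μ` is divisible by the power `μ` of the
minimal polynomial; equality of the degrees -/
theorem pow_minpoly {q : ℚ[X]} (hq : q ≠ 0) {θ : ℝ} (hθ : IsIntegral ℚ θ) (n : ℕ)
    (hqn : q.natDegree ≤ n)
    (hdeg : n ≤ rootMultiplicity θ (q.map (algebraMap ℚ ℝ)) * (minpoly ℚ θ).natDegree) :
    n = rootMultiplicity θ (q.map (algebraMap ℚ ℝ)) * (minpoly ℚ θ).natDegree ∧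
      ∃ c : ℚ, c ≠ 0 ∧ q = C c * minpoly ℚ θ ^ rootMultiplicity θ (q.map (algebraMap ℚ ℝ)) := by
  set m := minpoly ℚ θ with hm
  have hm0 : m ≠ 0 := minpoly.ne_zero hθ
  have hirr : Irreducible m := minpoly.irreducible hθ
  have hfin : FiniteMultiplicity m q :=
    FiniteMultiplicity.of_not_isUnit hirr.not_isUnit hq
  obtain ⟨r, hr, hnr⟩ := hfin.exists_eq_pow_mul_and_not_dvd
  set ν := multiplicity m q with hν
  have hr0 : r ≠ 0 := by
    rintro rfl
    exact hnr (dvd_zero _)
  have hrθ : aeval θ r ≠ 0 := fun h0 => hnr (minpoly.dvd ℚ θ h0)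
  have hmr0 : m.map (algebraMap ℚ ℝ) ≠ 0 :=
    (Polynomial.map_ne_zero_iff (algebraMap ℚ ℝ).injective).2 hm0
  have hrr0 : r.map (algebraMap ℚ ℝ) ≠ 0 :=
    (Polynomial.map_ne_zero_iff (algebraMap ℚ ℝ).injective).2 hr0
  have hμ : rootMultiplicity θ (q.map (algebraMap ℚ ℝ)) = ν := by
    rw [hr, Polynomial.map_mul, Polynomial.map_pow,
      rootMultiplicity_mul (mul_ne_zero (pow_ne_zero _ hmr0) hrr0), rootMultiplicity_pow' hmr0,
      rootMultiplicity_minpoly hθ, mul_one]
    have h1 : rootMultiplicity θ (r.map (algebraMap ℚ ℝ)) = 0 := by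
      apply rootMultiplicity_eq_zero
      intro h2
      rw [IsRoot, eval_map_algebraMap] at h2
      exact hrθ h2
    rw [h1, add_zero]
  rw [hμ] at hdeg ⊢
  have hdq : q.natDegree = ν * m.natDegree + r.natDegree := by
    conv_lhs => rw [hr]
    rw [natDegree_mul (pow_ne_zero _ hm0) hr0, natDegree_pow]
  have hrdeg : r.natDegree = 0 := by omega
  refine ⟨by omega, r.coeff 0, ?_, ?_⟩
  · intro h0
    apply hr0
    rw [eq_C_of_natDegree_eq_zero hrdeg, h0, C_0]
  · rw [← eq_C_of_natDegree_eq_zero hrdeg, mul_comm]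
    exact hr

/-- **the leading form** -/
theorem Pk.form_eq (H : Pk α d h) (hne : h d ≠ 0) {θ : ℝ} (hz : (h d).eval θ = 0)
    (hdeg : d ≤ rootMultiplicity θ (h d) * (minpoly ℚ θ).natDegree) :
    d = rootMultiplicity θ (h d) * (minpoly ℚ θ).natDegree ∧ Irreducible (minpoly ℚ θ) ∧
      ∃ c : ℚ, c ≠ 0 ∧ h d =
        (C c * minpoly ℚ θ ^ rootMultiplicity θ (h d)).map (algebraMap ℚ ℝ) := by
  obtain ⟨q, hq⟩ := H.rational d (by simp)
  have hq0 : q ≠ 0 := by
    rintro rfl
    apply hne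
    rw [hq, Polynomial.map_zero]
  have halg : IsIntegral ℚ θ := by
    apply IsAlgebraic.isIntegral
    refine ⟨q, hq0, ?_⟩
    rw [hq, eval_map_algebraMap] at hz
    exact hz
  have hqd : q.natDegree ≤ d := by
    have h1 := H.deg d
    rw [hq, natDegree_map] at h1
    exact h1
  have hdeg' : d ≤ rootMultiplicity θ (q.map (algebraMap ℚ ℝ)) * (minpoly ℚ θ).natDegree := by
    rw [← hq]
    exact hdeg
  obtain ⟨h1, c, hc, h2⟩ := pow_minpoly hq0 halg d hqd hdeg'
  rw [← hq] at h1 h2
  refine ⟨h1, minpoly.irreducible halg, c, hc, ?_⟩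
  rw [← h2]
  exact hq

/-- the second form vanishes if the leading one is a constant times the minimal polynomial -/
theorem Pk.second_zero (H : Pk α d h) {θ : ℝ} (i : ℕ) (hi : i ≤ d)
    (hz : (h i).eval θ = 0) (hk : i < (minpoly ℚ θ).natDegree) : h i = 0 := by
  obtain ⟨q, hq⟩ := H.rational i (mem_range.2 (by omega))
  have h1 : minpoly ℚ θ ∣ q := by
    apply minpoly.dvd
    rw [hq, eval_map_algebraMap] at hz
    exact hz
  have h2 : q.natDegree < (minpoly ℚ θ).natDegree := by
    have h3 := H.deg i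
    rw [hq, natDegree_map] at h3
    omega
  have h3 : q = 0 := by
    by_contra h0
    exact absurd (natDegree_le_of_dvd h1 h0) (by omega)
  rw [hq, h3, Polynomial.map_zero]

end PP72
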