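import Pool.Agent.PP72.QTheta
import Pool.Agent.PP72.Quartic

/-!
Quadratic irrational directions: the analysis near the direction.
-/

open Polynomial Finset Filter

namespace PP72

variable {α : ℝ} {d : ℕ} {h : ℕ → ℝ[X]}

theorem low_terms' (J μ : ℕ) (g : ℕ → ℝ[X]) (hdeg : ∀ j, (g j).natDegree ≤ J + μ - j) (η : ℝ)
    (hη : 0 < η) : ∃ ε : ℝ, 0 < ε ∧ ε ≤ 1 ∧ ∃ x0 : ℝ, 1 ≤ x0 ∧ ∀ x u : ℝ, x0 ≤ x → |u| ≤ ε * x →
      |∑ j ∈ range J, x ^ j * (g j).eval u| ≤ η * (x ^ J * (1 + |u|) ^ μ) := by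
  have hb : ∀ j, ∃ C : ℝ, 0 ≤ C ∧ ∀ u : ℝ, |(g j).eval u| ≤ C * (1 + |u|) ^ (J + μ - j) := by
    intro j
    refine ⟨∑ i ∈ range (J + μ - j + 1), |(g j).coeff i|,
      Finset.sum_nonneg fun i _ => abs_nonneg _, fun u => ?_⟩
    rw [Polynomial.eval_eq_sum_range' (Nat.lt_succ_of_le (hdeg j)), Finset.sum_mul]
    refine le_trans (Finset.abs_sum_le_sum_abs _ _) (Finset.sum_le_sum fun i hi => ?_)
    rw [abs_mul, abs_pow]
    apply mul_le_mul_of_nonneg_left _ (abs_nonneg _)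
    have h1 : 1 ≤ 1 + |u| := by linarith [abs_nonneg u]
    calc |u| ^ i ≤ (1 + |u|) ^ i := by
          gcongr
          linarith
      _ ≤ (1 + |u|) ^ (J + μ - j) :=
          pow_le_pow_right₀ h1 (Nat.lt_succ_iff.1 (mem_range.1 hi))
  choose C hC0 hC using hb
  set S : ℝ := ∑ j ∈ range J, C j with hS
  have hS0 : 0 ≤ S := Finset.sum_nonneg fun j _ => hC0 j
  set e : ℝ := min 1 (η / (S + 1)) with he
  have he0 : 0 < e := by positivity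
  have he1 : e ≤ 1 := min_le_left _ _
  refine ⟨e / 2, by positivity, by linarith, max 1 (2 / e), le_max_left _ _,
    fun x u hx hu => ?_⟩
  have hx1 : 1 ≤ x := (le_max_left _ _).trans hx
  have hx2 : 2 / e ≤ x := (le_max_right _ _).trans hx
  have hx0 : 0 < x := by linarith
  rw [div_le_iff₀ he0] at hx2
  have h1u : 1 + |u| ≤ e * x := by linarith
  have h1u0 : 0 ≤ 1 + |u| := by positivity
  have hSe : S * e ≤ η := by
    have h1 : e ≤ η / (S + 1) := min_le_right _ _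
    calc S * e ≤ (S + 1) * (η / (S + 1)) := by
          gcongr
          linarith
      _ = η := by field_simp
  calc |∑ j ∈ range J, x ^ j * (g j).eval u| ≤ ∑ j ∈ range J, C j * (e * (x ^ J * (1 + |u|) ^ μ)) := by
        refine le_trans (Finset.abs_sum_le_sum_abs _ _) (Finset.sum_le_sum fun j hj => ?_)
        have hjJ : j < J := mem_range.1 hj
        rw [abs_mul, abs_of_pos (by positivity : (0 : ℝ) < x ^ j)]
        calc x ^ j * |(g j).eval u| ≤ x ^ j * (C j * (1 + |u|) ^ (J + μ - j)) := by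
              gcongr
              exact hC j u
          _ = C j * (x ^ j * (1 + |u|) ^ (J + μ - j)) := by ring
          _ ≤ C j * (e * (x ^ J * (1 + |u|) ^ μ)) := by
              apply mul_le_mul_of_nonneg_left _ (hC0 j)
              have e1 : J + μ - j = (J - j) + μ := by omega
              have e2 : (1 + |u|) ^ (J - j) ≤ e * x ^ (J - j) := by
                calc (1 + |u|) ^ (J - j) ≤ (e * x) ^ (J - j) := by gcongr
                  _ = e ^ (J - j) * x ^ (J - j) := by rw [mul_pow]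
                  _ ≤ e * x ^ (J - j) := by
                      apply mul_le_mul_of_nonneg_right _ (by positivity)
                      calc e ^ (J - j) ≤ e ^ 1 := by
                            apply pow_le_pow_of_le_one he0.le he1
                            omega
                        _ = e := pow_one e
              have e3 : x ^ J = x ^ j * x ^ (J - j) := by
                rw [← pow_add]
                congr 1
                omega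
              rw [e1, pow_add, e3]
              calc x ^ j * ((1 + |u|) ^ (J - j) * (1 + |u|) ^ μ)
                  ≤ x ^ j * ((e * x ^ (J - j)) * (1 + |u|) ^ μ) := by gcongr
                _ = e * (x ^ j * x ^ (J - j) * (1 + |u|) ^ μ) := by ring
    _ = (S * e) * (x ^ J * (1 + |u|) ^ μ) := by rw [← Finset.sum_mul]; ring
    _ ≤ η * (x ^ J * (1 + |u|) ^ μ) := by gcongr

theorem poly_bdd (q : ℝ[X]) (R : ℝ) : ∃ C : ℝ, 0 ≤ C ∧ ∀ u : ℝ, |u| ≤ R → |q.eval u| ≤ C := by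
  obtain ⟨B, hB⟩ := (isCompact_Icc (a := -R) (b := R)).exists_bound_of_continuousOn
    q.continuous.continuousOn
  refine ⟨max B 0, le_max_right _ _, fun u hu => ?_⟩
  exact (hB u (abs_le.1 hu)).trans (le_max_left _ _)

theorem low_bdd (m : ℕ) (g : ℕ → ℝ[X]) (R : ℝ) : ∃ C : ℝ, 0 ≤ C ∧ ∀ x u : ℝ, 1 ≤ x → |u| ≤ R →
    |∑ j ∈ range (m + 1), x ^ j * (g j).eval u| ≤ C * x ^ m := by
  have hb : ∀ j, ∃ C : ℝ, 0 ≤ C ∧ ∀ u : ℝ, |u| ≤ R → |(g j).eval u| ≤ C :=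
    fun j => poly_bdd (g j) R
  choose C hC0 hC using hb
  refine ⟨∑ j ∈ range (m + 1), C j, Finset.sum_nonneg fun j _ => hC0 j, fun x u hx hu => ?_⟩
  rw [Finset.sum_mul]
  refine le_trans (Finset.abs_sum_le_sum_abs _ _) (Finset.sum_le_sum fun j hj => ?_)
  have hjm : j ≤ m := Nat.lt_succ_iff.1 (mem_range.1 hj)
  have hx0 : 0 < x := by linarith
  rw [abs_mul, abs_of_pos (by positivity : (0 : ℝ) < x ^ j), mul_comm]
  have h1 : x ^ j ≤ x ^ m := pow_le_pow_right₀ hx hjm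
  have h2 := hC j u hu
  have h3 := hC0 j
  gcongr

theorem poly_lip (g : ℝ[X]) (u0 R : ℝ) : ∃ L : ℝ, 0 ≤ L ∧ ∀ u : ℝ, |u| ≤ R →
    |g.eval u - g.eval u0| ≤ L * |u - u0| := by
  obtain ⟨q, hq⟩ : X - C u0 ∣ g - C (g.eval u0) := by
    rw [dvd_iff_isRoot]
    simp [IsRoot]
  obtain ⟨L, hL0, hL⟩ := poly_bdd q R
  refine ⟨L, hL0, fun u hu => ?_⟩
  have h1 := congrArg (fun p => p.eval u) hq
  simp only [eval_sub, eval_C, eval_mul, eval_X] at h1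
  rw [h1, abs_mul, mul_comm]
  have := hL u hu
  gcongr

/-- the value in terms of the expansion at `θ` -/
theorem fv_taylor (hdeg : ∀ k, (h k).natDegree ≤ k) (θ : ℝ) (P : ℕ × ℕ) :
    fv d h P = ∑ j ∈ range (d + 1), (P.1 : ℝ) ^ j * (gT d h θ j).eval ((P.2 : ℝ) - θ * P.1) := by
  rw [← ev_taylor' hdeg θ]
  unfold fv
  congr 1
  ring

theorem Pk.fv_nonneg (H : Pk α d h) {P : ℕ × ℕ} (hP : P ∈ Sec α) : 0 ≤ fv d h P := by
  obtain ⟨n, hn⟩ := H.val P hP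
  unfold fv
  rw [hn]
  exact Nat.cast_nonneg _

/-- **Double zero at a quadratic irrational**, in degree at least five. -/
theorem Pk.quad_core (m : ℕ) (hm : 1 ≤ m) (H : Pk α (m + 2 + 2) h) {θ : ℝ} (hθ : Irrational θ)
    {β δ0 : ℚ} (hq : θ ^ 2 + β * θ + δ0 = 0) (a u0 : ℝ) (ha : 0 < a) (hu0 : QT θ u0)
    (hg2 : ∀ u, (gT (m + 2 + 2) h θ (m + 2 + 2)).eval u = 0)
    (hg1 : ∀ u, (gT (m + 2 + 2) h θ (m + 2 + 1)).eval u = 0)
    (hg0 : ∀ u, (gT (m + 2 + 2) h θ (m + 2)).eval u = a * (u - u0) ^ 2)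
    (hnear : ∀ X0 : ℕ, ∃ P ∈ Sec α, X0 < P.1 ∧ (P.1 : ℝ) * |(P.2 : ℝ) - θ * P.1 - u0| ≤ 11) :
    ∃ ε : ℝ, 0 < ε ∧ Thin (fv (m + 2 + 2) h) (Near α θ ε) := by
  set g := gT (m + 2 + 2) h θ with hg
  have hgd : ∀ j, (g j).natDegree ≤ m + 2 + 2 - j := fun j => gT_natDegree_le θ j
  have hval : ∀ P : ℕ × ℕ, fv (m + 2 + 2) h P =
      (∑ j ∈ range (m + 2), (P.1 : ℝ) ^ j * (g j).eval ((P.2 : ℝ) - θ * P.1)) +
        (P.1 : ℝ) ^ (m + 2) * (a * ((P.2 : ℝ) - θ * P.1 - u0) ^ 2) := by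
    intro P
    rw [fv_taylor H.deg θ, Finset.sum_range_succ, Finset.sum_range_succ, Finset.sum_range_succ,
      ← hg, hg2, hg1, hg0]
    ring
  -- far from the line
  set K1 : ℝ := 2 * (3 + 2 * u0 ^ 2) with hK1
  have hK10 : 0 < K1 := by positivity
  obtain ⟨ε1, hε1, hε11, x1, hx1, hlow1⟩ := low_terms' (m + 2) 2 g hgd (a / (2 * K1))
    (by positivity)
  have hfar : ∀ P : ℕ × ℕ, x1 ≤ P.1 → |(P.2 : ℝ) - θ * P.1| ≤ ε1 * P.1 →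
      1 ≤ |(P.2 : ℝ) - θ * P.1 - u0| →
      a / 2 * ((P.1 : ℝ) ^ (m + 2) * ((P.2 : ℝ) - θ * P.1 - u0) ^ 2) ≤ fv (m + 2 + 2) h P := by
    intro P hx hu hu1
    have h1 := (abs_le.1 (hlow1 P.1 _ hx hu)).1
    rw [hval]
    set u := (P.2 : ℝ) - θ * P.1 with hudef
    have hxp : (0 : ℝ) < (P.1 : ℝ) ^ (m + 2) := by
      have : (0 : ℝ) < P.1 := by linarith
      positivity
    have hsq : 1 ≤ (u - u0) ^ 2 := by
      rw [← sq_abs]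
      exact one_le_pow₀ hu1
    have h2 : (1 + |u|) ^ 2 ≤ K1 * (u - u0) ^ 2 := by
      have a1 : |u| ^ 2 = u ^ 2 := sq_abs u
      have a2 : (1 + |u|) ^ 2 ≤ 2 * (1 + u ^ 2) := by nlinarith [sq_nonneg (1 - |u|)]
      have a3 : u ^ 2 ≤ 2 * (u - u0) ^ 2 + 2 * u0 ^ 2 := by nlinarith [sq_nonneg (u - 2 * u0)]
      have a4 : u0 ^ 2 ≤ u0 ^ 2 * (u - u0) ^ 2 := by nlinarith [sq_nonneg u0]
      rw [hK1]
      nlinarith
    have h3 : a / (2 * K1) * ((P.1 : ℝ) ^ (m + 2) * (1 + |u|) ^ 2) ≤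
        a / (2 * K1) * ((P.1 : ℝ) ^ (m + 2) * (K1 * (u - u0) ^ 2)) := by gcongr
    have h4 : a / (2 * K1) * ((P.1 : ℝ) ^ (m + 2) * (K1 * (u - u0) ^ 2)) =
        a / 2 * ((P.1 : ℝ) ^ (m + 2) * (u - u0) ^ 2) := by field_simp
    rw [h4] at h3
    have h5 : (P.1 : ℝ) ^ (m + 2) * (a * (u - u0) ^ 2) =
        a * ((P.1 : ℝ) ^ (m + 2) * (u - u0) ^ 2) := by ring
    rw [h5]
    linarith
  -- close to the line
  obtain ⟨C1, hC1, hlow2⟩ := low_bdd m g (|u0| + 1)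
  obtain ⟨L, hL0, hL⟩ := poly_lip (g (m + 1)) u0 (|u0| + 1)
  set κ := (g (m + 1)).eval u0 with hκ
  have hclose : ∀ P : ℕ × ℕ, 0 < P.1 → |(P.2 : ℝ) - θ * P.1 - u0| ≤ 1 →
      |fv (m + 2 + 2) h P - ((P.1 : ℝ) ^ m * (a * ((P.1 : ℝ) * ((P.2 : ℝ) - θ * P.1 - u0)) ^ 2) +
        κ * (P.1 : ℝ) ^ (m + 1))| ≤
      (P.1 : ℝ) ^ m * (L * ((P.1 : ℝ) * |(P.2 : ℝ) - θ * P.1 - u0|) + C1) := by
    intro P hP hu
    have hx1 : (1 : ℝ) ≤ P.1 := by exact_mod_cast hP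
    rw [hval, Finset.sum_range_succ]
    set u := (P.2 : ℝ) - θ * P.1 with hudef
    have hub : |u| ≤ |u0| + 1 := by
      have : u = (u - u0) + u0 := by ring
      calc |u| = |(u - u0) + u0| := by rw [← this]
        _ ≤ |u - u0| + |u0| := abs_add_le _ _
        _ ≤ _ := by linarith
    have h1 := hlow2 P.1 u hx1 hub
    have h2 := hL u hub
    have e1 : ∑ j ∈ range (m + 1), (P.1 : ℝ) ^ j * (g j).eval u +
        (P.1 : ℝ) ^ (m + 1) * (g (m + 1)).eval u + (P.1 : ℝ) ^ (m + 2) * (a * (u - u0) ^ 2) -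
        ((P.1 : ℝ) ^ m * (a * ((P.1 : ℝ) * (u - u0)) ^ 2) + κ * (P.1 : ℝ) ^ (m + 1)) =
        ∑ j ∈ range (m + 1), (P.1 : ℝ) ^ j * (g j).eval u +
        (P.1 : ℝ) ^ (m + 1) * ((g (m + 1)).eval u - κ) := by ring
    rw [e1]
    refine (abs_add_le _ _).trans ?_
    have h3 : |(P.1 : ℝ) ^ (m + 1) * ((g (m + 1)).eval u - κ)| ≤
        (P.1 : ℝ) ^ (m + 1) * (L * |u - u0|) := by
      rw [abs_mul, abs_of_nonneg (by positivity : (0 : ℝ) ≤ (P.1 : ℝ) ^ (m + 1))]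
      gcongr
    have e2 : (P.1 : ℝ) ^ (m + 1) * (L * |u - u0|) = (P.1 : ℝ) ^ m * (L * (P.1 * |u - u0|)) := by
      ring
    rw [e2] at h3
    linarith
  have hκ0 : 0 ≤ κ := by
    by_contra hneg
    push Not at hneg
    obtain ⟨X1, hX1⟩ := exists_nat_ge ((121 * a + 11 * L + C1) / (-κ) + 11)
    obtain ⟨P, hP1, hP2, hP3⟩ := hnear X1
    have hxX : (X1 : ℝ) ≤ P.1 := by exact_mod_cast hP2.le
    have hdiv : 0 ≤ (121 * a + 11 * L + C1) / (-κ) := div_nonneg (by positivity) (by linarith)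
    have hx11 : (11 : ℝ) ≤ P.1 := by linarith
    have hxM : (121 * a + 11 * L + C1) / (-κ) ≤ P.1 - 11 := by linarith
    rw [div_le_iff₀ (by linarith)] at hxM
    have hu1 : |(P.2 : ℝ) - θ * P.1 - u0| ≤ 1 := by
      have := abs_nonneg ((P.2 : ℝ) - θ * P.1 - u0)
      nlinarith
    have h1 := (abs_le.1 (hclose P (by omega) hu1)).2
    have h2 := H.fv_nonneg hP1
    set w := (P.1 : ℝ) * ((P.2 : ℝ) - θ * P.1 - u0) with hw
    have hwabs : |w| ≤ 11 := by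
      rw [hw, abs_mul, abs_of_nonneg (Nat.cast_nonneg P.1 : (0 : ℝ) ≤ (P.1 : ℝ))]
      exact hP3
    have hw2 : w ^ 2 ≤ 121 := by
      rw [← sq_abs]
      nlinarith [abs_nonneg w]
    have hxm : (0 : ℝ) < (P.1 : ℝ) ^ m := by positivity
    have h3 : (P.1 : ℝ) ^ m * (a * w ^ 2) ≤ (P.1 : ℝ) ^ m * (a * 121) := by gcongr
    have h4 : (P.1 : ℝ) ^ m * (L * ((P.1 : ℝ) * |(P.2 : ℝ) - θ * P.1 - u0|) + C1) ≤
        (P.1 : ℝ) ^ m * (L * 11 + C1) := by gcongr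
    have e1 : κ * (P.1 : ℝ) ^ (m + 1) = (P.1 : ℝ) ^ m * (κ * P.1) := by ring
    rw [e1] at h1
    have h5 : 121 * a + 11 * L + C1 + κ * P.1 < 0 := by nlinarith
    have h6 : (P.1 : ℝ) ^ m * (121 * a + 11 * L + C1 + κ * P.1) < 0 :=
      mul_neg_of_pos_of_neg hxm h5
    nlinarith
  -- the three parts
  set K0 : ℝ := 1 + 2 * (L + C1) / a with hK0
  have hK01 : 1 ≤ K0 := by
    have : 0 ≤ 2 * (L + C1) / a := by positivity
    linarith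
  obtain ⟨X1, hX1⟩ := exists_nat_ge x1
  refine ⟨ε1, hε1, ?_⟩
  have hsplit : Near α θ ε1 ⊆
      (({P | P ∈ Sec α ∧ P.1 ≤ X1} ∪
        {P | P ∈ Near α θ ε1 ∧ X1 < P.1 ∧ 1 < |(P.2 : ℝ) - θ * P.1 - u0|}) ∪
      {P | P ∈ Near α θ ε1 ∧ |(P.2 : ℝ) - θ * P.1 - u0| ≤ 1 ∧
        K0 ≤ (P.1 : ℝ) * |(P.2 : ℝ) - θ * P.1 - u0|}) ∪
      {P | P ∈ Sec α ∧ 0 < P.1 ∧ (P.1 : ℝ) * |(P.2 : ℝ) - θ * P.1 - u0| ≤ K0} := by
    intro P hP
    by_cases c1 : (P.1 : ℝ) * |(P.2 : ℝ) - θ * P.1 - u0| ≤ K0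
    · exact Or.inr ⟨hP.1, hP.2.1, c1⟩
    left
    by_cases c2 : |(P.2 : ℝ) - θ * P.1 - u0| ≤ 1
    · exact Or.inr ⟨hP, c2, (not_le.1 c1).le⟩
    left
    by_cases c3 : P.1 ≤ X1
    · exact Or.inl ⟨hP.1, c3⟩
    · exact Or.inr ⟨hP, not_le.1 c3, not_le.1 c2⟩
  refine Thin.mono (Thin.union (Thin.union (Thin.union ?_ ?_) ?_) ?_) hsplit
  · exact thin_finite (finite_x H.pos X1)
  · -- far
    set c2 : ℝ := 2 + 2 * u0 ^ 2 with hc2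
    have hc20 : 0 < c2 := by positivity
    apply thin_of_bound θ (a / 2 / (1 + c2)) (by positivity)
    rintro P ⟨hP1, hP2, hP3⟩
    have hx : x1 ≤ P.1 := hX1.trans (by exact_mod_cast hP2.le)
    obtain ⟨hP0, hu⟩ := near_abs hP1
    have h1 := hfar P hx hu hP3.le
    set u := (P.2 : ℝ) - θ * P.1 with hudef
    have hxx : (1 : ℝ) ≤ P.1 := by exact_mod_cast hP0
    have hsq : 1 ≤ (u - u0) ^ 2 := by
      rw [← sq_abs]
      exact one_le_pow₀ hP3.le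
    have h2 : (P.1 : ℝ) ^ 2 ≤ (P.1 : ℝ) ^ (m + 2) := pow_le_pow_right₀ hxx (by omega)
    have h3 : (P.1 : ℝ) ≤ (P.1 : ℝ) ^ (m + 2) := by
      calc (P.1 : ℝ) = (P.1 : ℝ) ^ 1 := (pow_one _).symm
        _ ≤ (P.1 : ℝ) ^ (m + 2) := pow_le_pow_right₀ hxx (by omega)
    have h4 : |u| ≤ P.1 := by nlinarith
    have h5 : u ^ 2 ≤ c2 * (u - u0) ^ 2 := by
      have a3 : u ^ 2 ≤ 2 * (u - u0) ^ 2 + 2 * u0 ^ 2 := by nlinarith [sq_nonneg (u - 2 * u0)]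
      have a4 : u0 ^ 2 ≤ u0 ^ 2 * (u - u0) ^ 2 := by nlinarith [sq_nonneg u0]
      rw [hc2]
      nlinarith
    have h6 : |u| ^ 3 ≤ (P.1 : ℝ) ^ (m + 2) * (c2 * (u - u0) ^ 2) := by
      calc |u| ^ 3 = |u| * |u| ^ 2 := by ring
        _ = |u| * u ^ 2 := by rw [sq_abs]
        _ ≤ (P.1 : ℝ) ^ (m + 2) * (c2 * (u - u0) ^ 2) := by
            have := h4.trans h3
            gcongr
    have h7 : (P.1 : ℝ) ^ 2 ≤ (P.1 : ℝ) ^ (m + 2) * (u - u0) ^ 2 := by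
      calc (P.1 : ℝ) ^ 2 = (P.1 : ℝ) ^ 2 * 1 := (mul_one _).symm
        _ ≤ _ := by gcongr
    calc a / 2 / (1 + c2) * ((P.1 : ℝ) ^ 2 + |u| ^ 3)
        ≤ a / 2 / (1 + c2) * ((P.1 : ℝ) ^ (m + 2) * (u - u0) ^ 2 +
            (P.1 : ℝ) ^ (m + 2) * (c2 * (u - u0) ^ 2)) := by gcongr
      _ = a / 2 * ((P.1 : ℝ) ^ (m + 2) * (u - u0) ^ 2) := by field_simp
      _ ≤ _ := h1
  · -- close
    have hbound : ∀ P ∈ {P : ℕ × ℕ | P ∈ Near α θ ε1 ∧ |(P.2 : ℝ) - θ * P.1 - u0| ≤ 1 ∧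
        K0 ≤ (P.1 : ℝ) * |(P.2 : ℝ) - θ * P.1 - u0|},
        a / 2 * ((P.1 : ℝ) * ((P.1 : ℝ) * ((P.2 : ℝ) - θ * P.1 - u0)) ^ 2) ≤
          fv (m + 2 + 2) h P ∧ 1 ≤ ((P.1 : ℝ) * ((P.2 : ℝ) - θ * P.1 - u0)) ^ 2 ∧
          (1 : ℝ) ≤ P.1 := by
      rintro P ⟨hP1, hP2, hP3⟩
      obtain ⟨hP0, hu⟩ := near_abs hP1
      have hxx : (1 : ℝ) ≤ P.1 := by exact_mod_cast hP0
      have h1 := (abs_le.1 (hclose P hP0 hP2)).1
      set w := (P.1 : ℝ) * ((P.2 : ℝ) - θ * P.1 - u0) with hw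
      have hwabs : (P.1 : ℝ) * |(P.2 : ℝ) - θ * P.1 - u0| = |w| := by
        rw [hw, abs_mul, abs_of_nonneg (Nat.cast_nonneg P.1 : (0 : ℝ) ≤ (P.1 : ℝ))]
      rw [hwabs] at h1 hP3
      have hw1 : 1 ≤ |w| := hK01.trans hP3
      have h2 : L * |w| + C1 ≤ a / 2 * w ^ 2 := by
        have a1 : (L + C1) * |w| ≤ a / 2 * w ^ 2 := by
          rw [← sq_abs w]
          have a2 : L + C1 ≤ a / 2 * |w| := by
            have : 2 * (L + C1) / a ≤ |w| := by linarith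
            rw [div_le_iff₀ ha] at this
            linarith
          nlinarith
        nlinarith
      have hxm : (P.1 : ℝ) ≤ (P.1 : ℝ) ^ m := by
        calc (P.1 : ℝ) = (P.1 : ℝ) ^ 1 := (pow_one _).symm
          _ ≤ (P.1 : ℝ) ^ m := pow_le_pow_right₀ hxx hm
      have h3 : 0 ≤ κ * (P.1 : ℝ) ^ (m + 1) := by positivity
      have h4 : (P.1 : ℝ) ^ m * (L * |w| + C1) ≤ (P.1 : ℝ) ^ m * (a / 2 * w ^ 2) := by gcongr
      have h5 : a / 2 * ((P.1 : ℝ) * w ^ 2) ≤ (P.1 : ℝ) ^ m * (a / 2 * w ^ 2) := by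
        calc a / 2 * ((P.1 : ℝ) * w ^ 2) = P.1 * (a / 2 * w ^ 2) := by ring
          _ ≤ (P.1 : ℝ) ^ m * (a / 2 * w ^ 2) := by gcongr
      refine ⟨?_, ?_, hxx⟩
      · have e1 : (P.1 : ℝ) ^ m * (a * w ^ 2) = (P.1 : ℝ) ^ m * (a / 2 * w ^ 2) +
            (P.1 : ℝ) ^ m * (a / 2 * w ^ 2) := by ring
        linarith
      · rw [← sq_abs]
        exact one_le_pow₀ hw1
    apply thin_irr hθ u0 (a / 2) 0 (by positivity)
    · rintro P ⟨_, hP2, _⟩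
      exact hP2
    · intro P hP
      obtain ⟨h1, h2, h3⟩ := hbound P hP
      rw [add_zero]
      refine le_trans ?_ h1
      have : (P.1 : ℝ) ≤ (P.1 : ℝ) * ((P.1 : ℝ) * ((P.2 : ℝ) - θ * P.1 - u0)) ^ 2 := by nlinarith
      gcongr
    · intro P hP
      obtain ⟨h1, h2, h3⟩ := hbound P hP
      rw [add_zero]
      refine le_trans ?_ h1
      have e1 : (P.1 : ℝ) ^ 2 * ((P.2 : ℝ) - θ * P.1 - u0) ^ 2 =
          ((P.1 : ℝ) * ((P.2 : ℝ) - θ * P.1 - u0)) ^ 2 := by ring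
      rw [e1]
      have : ((P.1 : ℝ) * ((P.2 : ℝ) - θ * P.1 - u0)) ^ 2 ≤
          (P.1 : ℝ) * ((P.1 : ℝ) * ((P.2 : ℝ) - θ * P.1 - u0)) ^ 2 := by nlinarith
      gcongr
  · exact H.thin_w hθ hq u0 hu0 K0 (by linarith)

/-- **Simple behaviour at a quadratic irrational.** -/
theorem Pk.simple_core (m : ℕ) (hm : 1 ≤ m) (H : Pk α d h) {θ : ℝ} (hθ : Irrational θ)
    {β δ0 : ℚ} (hq : θ ^ 2 + β * θ + δ0 = 0) (b C x0 ε : ℝ) (hb : 0 < b) (hC : 0 ≤ C)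
    (hε : 0 < ε) (hε1 : ε ≤ 1)
    (h1 : ∀ P ∈ Near α θ ε, x0 ≤ P.1 → |(P.2 : ℝ) - θ * P.1| ≤ 1 →
      b * ((P.1 : ℝ) ^ (m + 1) * |(P.2 : ℝ) - θ * P.1|) - C * (P.1 : ℝ) ^ m ≤ fv d h P)
    (h2 : ∀ P ∈ Near α θ ε, x0 ≤ P.1 → 1 ≤ |(P.2 : ℝ) - θ * P.1| →
      b * ((P.1 : ℝ) ^ (m + 1) * |(P.2 : ℝ) - θ * P.1|) ≤ fv d h P) :
    ∃ ε : ℝ, 0 < ε ∧ Thin (fv d h) (Near α θ ε) := by
  set K0 : ℝ := 1 + 2 * C / b with hK0
  have hK01 : 1 ≤ K0 := by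
    have : 0 ≤ 2 * C / b := by positivity
    linarith
  obtain ⟨X1, hX1⟩ := exists_nat_ge x0
  refine ⟨ε, hε, ?_⟩
  have hsplit : Near α θ ε ⊆
      (({P | P ∈ Sec α ∧ P.1 ≤ X1} ∪
        {P | P ∈ Near α θ ε ∧ X1 < P.1 ∧ 1 < |(P.2 : ℝ) - θ * P.1|}) ∪
      {P | P ∈ Near α θ ε ∧ X1 < P.1 ∧ |(P.2 : ℝ) - θ * P.1| ≤ 1 ∧
        K0 ≤ (P.1 : ℝ) * |(P.2 : ℝ) - θ * P.1|}) ∪
      {P | P ∈ Sec α ∧ 0 < P.1 ∧ (P.1 : ℝ) * |(P.2 : ℝ) - θ * P.1 - 0| ≤ K0} := by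
    intro P hP
    by_cases c1 : (P.1 : ℝ) * |(P.2 : ℝ) - θ * P.1| ≤ K0
    · right
      refine ⟨hP.1, hP.2.1, ?_⟩
      rw [sub_zero]
      exact c1
    left
    by_cases c3 : P.1 ≤ X1
    · exact Or.inl (Or.inl ⟨hP.1, c3⟩)
    by_cases c2 : |(P.2 : ℝ) - θ * P.1| ≤ 1
    · exact Or.inr ⟨hP, not_le.1 c3, c2, (not_le.1 c1).le⟩
    · exact Or.inl (Or.inr ⟨hP, not_le.1 c3, not_le.1 c2⟩)
  refine Thin.mono (Thin.union (Thin.union (Thin.union ?_ ?_) ?_) ?_) hsplit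
  · exact thin_finite (finite_x H.pos X1)
  · apply thin_of_bound θ (b / 2) (by positivity)
    rintro P ⟨hP1, hP2, hP3⟩
    have hx : x0 ≤ P.1 := hX1.trans (by exact_mod_cast hP2.le)
    obtain ⟨hP0, hu⟩ := near_abs hP1
    have h3 := h2 P hP1 hx hP3.le
    set u := (P.2 : ℝ) - θ * P.1 with hudef
    have hxx : (1 : ℝ) ≤ P.1 := by exact_mod_cast hP0
    have h4 : |u| ≤ P.1 := by nlinarith
    have h5 : (P.1 : ℝ) ^ 2 ≤ (P.1 : ℝ) ^ (m + 1) := pow_le_pow_right₀ hxx (by omega)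
    have h6 : (P.1 : ℝ) ^ 2 ≤ (P.1 : ℝ) ^ (m + 1) * |u| := by
      calc (P.1 : ℝ) ^ 2 = (P.1 : ℝ) ^ 2 * 1 := (mul_one _).symm
        _ ≤ (P.1 : ℝ) ^ (m + 1) * |u| := by gcongr
    have h7 : |u| ^ 3 ≤ (P.1 : ℝ) ^ (m + 1) * |u| := by
      calc |u| ^ 3 = |u| ^ 2 * |u| := by ring
        _ ≤ (P.1 : ℝ) ^ 2 * |u| := by gcongr
        _ ≤ (P.1 : ℝ) ^ (m + 1) * |u| := by gcongr
    calc b / 2 * ((P.1 : ℝ) ^ 2 + |u| ^ 3) ≤
        b / 2 * ((P.1 : ℝ) ^ (m + 1) * |u| + (P.1 : ℝ) ^ (m + 1) * |u|) := by gcongr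
      _ = b * ((P.1 : ℝ) ^ (m + 1) * |u|) := by ring
      _ ≤ _ := h3
  · have hbound : ∀ P ∈ {P : ℕ × ℕ | P ∈ Near α θ ε ∧ X1 < P.1 ∧ |(P.2 : ℝ) - θ * P.1| ≤ 1 ∧
        K0 ≤ (P.1 : ℝ) * |(P.2 : ℝ) - θ * P.1|},
        b / 2 * ((P.1 : ℝ) * ((P.1 : ℝ) * |(P.2 : ℝ) - θ * P.1|)) ≤ fv d h P ∧
          1 ≤ (P.1 : ℝ) * |(P.2 : ℝ) - θ * P.1| ∧ (1 : ℝ) ≤ P.1 := by
      rintro P ⟨hP1, hP2, hP3, hP4⟩
      obtain ⟨hP0, hu⟩ := near_abs hP1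
      have hxx : (1 : ℝ) ≤ P.1 := by exact_mod_cast hP0
      have hx : x0 ≤ P.1 := hX1.trans (by exact_mod_cast hP2.le)
      have h3 := h1 P hP1 hx hP3
      set w := (P.1 : ℝ) * |(P.2 : ℝ) - θ * P.1| with hw
      have hw1 : 1 ≤ w := hK01.trans hP4
      have h4 : C ≤ b / 2 * w := by
        have : 2 * C / b ≤ w := by linarith
        rw [div_le_iff₀ hb] at this
        linarith
      have hxm : (P.1 : ℝ) ≤ (P.1 : ℝ) ^ m := by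
        calc (P.1 : ℝ) = (P.1 : ℝ) ^ 1 := (pow_one _).symm
          _ ≤ (P.1 : ℝ) ^ m := pow_le_pow_right₀ hxx hm
      have e1 : b * ((P.1 : ℝ) ^ (m + 1) * |(P.2 : ℝ) - θ * P.1|) = (P.1 : ℝ) ^ m * (b * w) := by
        rw [hw]
        ring
      rw [e1] at h3
      have h5 : (P.1 : ℝ) ^ m * C ≤ (P.1 : ℝ) ^ m * (b / 2 * w) := by gcongr
      have h6 : b / 2 * ((P.1 : ℝ) * w) ≤ (P.1 : ℝ) ^ m * (b / 2 * w) := by
        calc b / 2 * ((P.1 : ℝ) * w) = P.1 * (b / 2 * w) := by ring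
          _ ≤ (P.1 : ℝ) ^ m * (b / 2 * w) := by gcongr
      refine ⟨?_, hw1, hxx⟩
      have e2 : (P.1 : ℝ) ^ m * (b * w) = (P.1 : ℝ) ^ m * (b / 2 * w) +
          (P.1 : ℝ) ^ m * (b / 2 * w) := by ring
      linarith
    apply thin_irr hθ 0 (b / 2) 0 (by positivity)
    · rintro P ⟨_, _, hP3, _⟩
      rw [sub_zero]
      exact hP3
    · intro P hP
      obtain ⟨h3, h4, h5⟩ := hbound P hP
      rw [add_zero]
      refine le_trans ?_ h3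
      have : (P.1 : ℝ) ≤ (P.1 : ℝ) * ((P.1 : ℝ) * |(P.2 : ℝ) - θ * P.1|) := by nlinarith
      gcongr
    · intro P hP
      obtain ⟨h3, h4, h5⟩ := hbound P hP
      have hP3 := hP.2.2.1
      rw [add_zero, sub_zero]
      refine le_trans ?_ h3
      have e1 : (P.1 : ℝ) ^ 2 * ((P.2 : ℝ) - θ * P.1) ^ 2 =
          (P.1 : ℝ) * ((P.1 : ℝ) * |(P.2 : ℝ) - θ * P.1|) * |(P.2 : ℝ) - θ * P.1| := by
        rw [← sq_abs ((P.2 : ℝ) - θ * P.1)]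
        ring
      rw [e1]
      have h6 : 0 ≤ (P.1 : ℝ) * ((P.1 : ℝ) * |(P.2 : ℝ) - θ * P.1|) := by positivity
      have : (P.1 : ℝ) * ((P.1 : ℝ) * |(P.2 : ℝ) - θ * P.1|) * |(P.2 : ℝ) - θ * P.1| ≤
          (P.1 : ℝ) * ((P.1 : ℝ) * |(P.2 : ℝ) - θ * P.1|) := by nlinarith
      gcongr
  · exact H.thin_w hθ hq 0 (by simpa using QT.rat θ 0) K0 (by linarith)

end PP72
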