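import Mathlib

/-!
# Elimination for the Runge argument
-/

set_option autoImplicit false

open Polynomial

namespace PP72

theorem re_clear (P : ℚ[X]) : ∃ N : ℤ, N ≠ 0 ∧ ∃ q : ℤ[X],
    q.map (Int.castRingHom ℚ) = C (N : ℚ) * P := by
  obtain ⟨b, hb, hq⟩ := IsLocalization.integerNormalization_spec (nonZeroDivisors ℤ) P
  refine ⟨b, nonZeroDivisors.ne_zero hb, IsLocalization.integerNormalization (nonZeroDivisors ℤ) P,
    ?_⟩
  have h1 : (algebraMap ℤ ℚ) = Int.castRingHom ℚ := rfl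
  rw [h1] at hq
  rw [hq]
  ext i
  simp

theorem re_bound (p : ℚ[X]) : ∃ K M : ℕ, ∀ c : ℕ, |p.eval (c : ℚ)| ≤ K * (1 + c) ^ M := by
  refine ⟨⌈∑ i ∈ Finset.range (p.natDegree + 1), |p.coeff i|⌉₊, p.natDegree, fun c => ?_⟩
  rw [eval_eq_sum_range]
  refine (Finset.abs_sum_le_sum_abs _ _).trans ?_
  have h1 : ∀ i ∈ Finset.range (p.natDegree + 1), |p.coeff i * (c : ℚ) ^ i| ≤
      |p.coeff i| * (1 + c) ^ p.natDegree := by
    intro i hi
    rw [Finset.mem_range] at hi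
    rw [abs_mul, abs_pow, Nat.abs_cast]
    refine mul_le_mul_of_nonneg_left ?_ (abs_nonneg _)
    calc (c : ℚ) ^ i ≤ (1 + c) ^ i := pow_le_pow_left₀ (by positivity) (by linarith) i
      _ ≤ (1 + c) ^ p.natDegree := pow_le_pow_right₀ (by
        have : (0 : ℚ) ≤ c := by positivity
        linarith) (by omega)
  refine (Finset.sum_le_sum h1).trans ?_
  rw [← Finset.sum_mul]
  exact mul_le_mul_of_nonneg_right (Nat.le_ceil _) (by positivity)

theorem re_den (p : ℚ[X]) : ∃ D : ℕ, ∀ c : ℕ, p.eval (c : ℚ) ≠ 0 → 1 ≤ D * |p.eval (c : ℚ)| := by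
  obtain ⟨N, hN, q, hq⟩ := re_clear p
  refine ⟨N.natAbs, fun c hc => ?_⟩
  have h1 : (N : ℚ) * p.eval (c : ℚ) = ((q.eval (c : ℤ) : ℤ) : ℚ) := by
    have h2 := congrArg (fun P => P.eval (c : ℚ)) hq
    simp only [eval_mul, eval_C] at h2
    rw [← h2, eval_map]
    have h3 : ((c : ℤ) : ℚ) = (c : ℚ) := by push_cast; rfl
    rw [← h3]
    exact eval₂_at_intCast (Int.castRingHom ℚ) (c : ℤ)
  have hN' : (N : ℚ) ≠ 0 := by exact_mod_cast hN
  have h4 : q.eval (c : ℤ) ≠ 0 := by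
    intro h
    rw [h, Int.cast_zero] at h1
    exact mul_ne_zero hN' hc h1
  have h5 : (1 : ℚ) ≤ |((q.eval (c : ℤ) : ℤ) : ℚ)| := by
    have := Int.one_le_abs h4
    exact_mod_cast this
  rw [← h1, abs_mul] at h5
  have h6 : ((N.natAbs : ℕ) : ℚ) = |(N : ℚ)| := by
    rw [Nat.cast_natAbs, Int.cast_abs]
  rw [h6]
  exact h5

theorem re_swap (u c : ℚ) (S : ℚ[X][X]) :
    evalEval c u (Bivariate.swap S) = evalEval u c S := by
  have := Bivariate.aevalAeval_swap (R := ℚ) (A := ℚ) c u S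
  rw [coe_aevalAeval_eq_evalEval, coe_aevalAeval_eq_evalEval] at this
  exact this

theorem re_top (S : ℚ[X][X]) (hS : S ≠ 0) : ∃ K M : ℕ, ∃ E : Finset ℕ, ∀ (u : ℤ) (c : ℕ),
    evalEval (u : ℚ) (c : ℚ) S = 0 → K * (1 + c) ^ M < u.natAbs → c ∈ E := by
  classical
  set P : ℚ[X][X] := Bivariate.swap S with hP
  have hP0 : P ≠ 0 := by
    rw [hP]
    exact (EmbeddingLike.map_ne_zero_iff).2 hS
  have hl : P.leadingCoeff ≠ 0 := leadingCoeff_ne_zero.2 hP0
  have hfin : {c : ℕ | P.leadingCoeff.eval (c : ℚ) = 0}.Finite := by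
    have h1 := (P.leadingCoeff.roots.toFinset.finite_toSet).preimage
      (f := fun c : ℕ => (c : ℚ)) (Nat.cast_injective.injOn)
    refine h1.subset fun c hc => ?_
    simp only [Set.mem_preimage, Finset.mem_coe, Multiset.mem_toFinset]
    exact (mem_roots hl).2 hc
  choose K M hKM using fun j : ℕ => re_bound (P.coeff j)
  obtain ⟨D, hD⟩ := re_den P.leadingCoeff
  set m := P.natDegree with hm
  refine ⟨D * ∑ j ∈ Finset.range m, K j, ∑ j ∈ Finset.range m, M j, hfin.toFinset,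
    fun u c h0 hlt => ?_⟩
  rw [Set.Finite.mem_toFinset, Set.mem_ofPred_eq]
  by_contra hne
  have hDl := hD c hne
  have hsum0 : eval (C (u : ℚ)) P =
      ∑ j ∈ Finset.range (m + 1), P.coeff j * (C (u : ℚ)) ^ j := eval_eq_sum_range (p := P) _
  rw [← re_swap, ← hP, evalEval, hsum0, eval_finsetSum, Finset.sum_range_succ] at h0
  simp only [eval_mul, eval_pow, eval_C] at h0
  rw [hm, coeff_natDegree, ← hm] at h0
  have hu1 : 1 ≤ |(u : ℚ)| := by
    have h1 : 1 ≤ u.natAbs := by omega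
    have h2 : (1 : ℚ) ≤ (u.natAbs : ℚ) := by exact_mod_cast h1
    rwa [Nat.cast_natAbs, Int.cast_abs] at h2
  rcases Nat.eq_zero_or_pos m with hm0 | hm0
  · rw [hm0] at h0
    simp at h0
    exact hne h0
  obtain ⟨m', hm'⟩ : ∃ m', m = m' + 1 := ⟨m - 1, by omega⟩
  -- the sum of the lower terms
  have hlow : |∑ j ∈ Finset.range m, (P.coeff j).eval (c : ℚ) * (u : ℚ) ^ j| ≤
      (∑ j ∈ Finset.range m, (K j : ℚ)) * (1 + c) ^ (∑ j ∈ Finset.range m, M j) *
        |(u : ℚ)| ^ m' := by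
    refine (Finset.abs_sum_le_sum_abs _ _).trans ?_
    rw [Finset.sum_mul, Finset.sum_mul]
    refine Finset.sum_le_sum fun j hj => ?_
    have hj' := Finset.mem_range.1 hj
    rw [abs_mul, abs_pow]
    have hc1 : (1 : ℚ) ≤ 1 + c := by
      have : (0 : ℚ) ≤ c := by positivity
      linarith
    refine mul_le_mul ((hKM j c).trans (mul_le_mul_of_nonneg_left
      (pow_le_pow_right₀ hc1 ?_) (by positivity))) (pow_le_pow_right₀ hu1 (by omega))
      (by positivity) (by positivity)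
    exact Finset.single_le_sum (f := M) (fun _ _ => Nat.zero_le _) hj
  have htop : |P.leadingCoeff.eval (c : ℚ)| * |(u : ℚ)| ^ m ≤
      (∑ j ∈ Finset.range m, (K j : ℚ)) * (1 + c) ^ (∑ j ∈ Finset.range m, M j) *
        |(u : ℚ)| ^ m' := by
    rw [← abs_pow, ← abs_mul]
    have h1 : P.leadingCoeff.eval (c : ℚ) * (u : ℚ) ^ m =
        -∑ j ∈ Finset.range m, (P.coeff j).eval (c : ℚ) * (u : ℚ) ^ j := by linarith
    rw [h1, abs_neg]
    exact hlow
  have hu0 : 0 < |(u : ℚ)| ^ m' := by positivity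
  have h2 : |P.leadingCoeff.eval (c : ℚ)| * |(u : ℚ)| ≤
      (∑ j ∈ Finset.range m, (K j : ℚ)) * (1 + c) ^ (∑ j ∈ Finset.range m, M j) := by
    rw [hm', pow_succ] at htop
    rw [← hm'] at htop
    refine le_of_mul_le_mul_right ?_ hu0
    calc _ = |P.leadingCoeff.eval (c : ℚ)| * (|(u : ℚ)| ^ m' * |(u : ℚ)|) := by ring
      _ ≤ _ := htop
  have h3 : |(u : ℚ)| ≤ D * ((∑ j ∈ Finset.range m, (K j : ℚ)) *
      (1 + c) ^ (∑ j ∈ Finset.range m, M j)) := by
    calc |(u : ℚ)| = 1 * |(u : ℚ)| := by ring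
      _ ≤ D * |P.leadingCoeff.eval (c : ℚ)| * |(u : ℚ)| :=
        mul_le_mul_of_nonneg_right hDl (abs_nonneg _)
      _ = D * (|P.leadingCoeff.eval (c : ℚ)| * |(u : ℚ)|) := by ring
      _ ≤ _ := mul_le_mul_of_nonneg_left h2 (by positivity)
  have h4 : ((D : ℚ) * ∑ j ∈ Finset.range m, (K j : ℚ)) *
      (1 + c) ^ (∑ j ∈ Finset.range m, M j) < |(u : ℚ)| := by
    have h5 : (((D * ∑ j ∈ Finset.range m, K j) * (1 + c) ^ (∑ j ∈ Finset.range m, M j) : ℕ) : ℚ) <
        ((u.natAbs : ℕ) : ℚ) := by exact_mod_cast hlt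
    rw [Nat.cast_natAbs, Int.cast_abs] at h5
    push_cast at h5
    exact h5
  have h6 : ((D : ℚ) * ∑ j ∈ Finset.range m, (K j : ℚ)) *
      (1 + c) ^ (∑ j ∈ Finset.range m, M j) = D * ((∑ j ∈ Finset.range m, (K j : ℚ)) *
      (1 + c) ^ (∑ j ∈ Finset.range m, M j)) := by ring
  linarith

/-- the norm -/
theorem re_norm (R G : ℚ[X][X]) (hR : R ≠ 0) :
    ∃ S : ℚ[X][X], S ≠ 0 ∧ ∃ Q : ℚ[X][X], S.comp G = R * Q := by
  set K := FractionRing ℚ[X] with hK
  set φ : ℚ[X] →+* K := algebraMap ℚ[X] K with hφ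
  have hinj : Function.Injective φ := IsFractionRing.injective ℚ[X] K
  have hR' : R.map φ ≠ 0 := (Polynomial.map_ne_zero_iff hinj).2 hR
  have : Module.Finite K (AdjoinRoot (R.map φ)) := (AdjoinRoot.powerBasis hR').finite
  obtain ⟨P, hPm, hP⟩ := (Algebra.IsIntegral.of_finite K (AdjoinRoot (R.map φ))).isIntegral
    (AdjoinRoot.mk (R.map φ) (G.map φ))
  have hmk : AdjoinRoot.mk (R.map φ) (P.comp (G.map φ)) = 0 := by
    rw [comp, hom_eval₂]
    exact hP
  obtain ⟨Q, hQ⟩ := AdjoinRoot.mk_eq_zero.1 hmk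
  obtain ⟨b, hb, hq⟩ := IsLocalization.integerNormalization_spec (nonZeroDivisors ℚ[X]) P
  obtain ⟨b', hb', hq'⟩ := IsLocalization.integerNormalization_spec (nonZeroDivisors ℚ[X]) Q
  set P0 := IsLocalization.integerNormalization (nonZeroDivisors ℚ[X]) P with hP0
  set Q0 := IsLocalization.integerNormalization (nonZeroDivisors ℚ[X]) Q with hQ0
  have hb0 : b ≠ 0 := nonZeroDivisors.ne_zero hb
  have hb0' : b' ≠ 0 := nonZeroDivisors.ne_zero hb'
  have e1 : P0.map φ = C (φ b) * P := by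
    rw [hq]
    ext i
    simp [Algebra.smul_def, hφ]
  have e2 : Q0.map φ = C (φ b') * Q := by
    rw [hq']
    ext i
    simp [Algebra.smul_def, hφ]
  refine ⟨C b' * P0, ?_, C b * Q0, ?_⟩
  · refine mul_ne_zero (C_ne_zero.2 hb0') ?_
    intro h
    rw [h, Polynomial.map_zero] at e1
    have h3 : C (φ b) ≠ 0 := C_ne_zero.2 ((map_ne_zero_iff φ hinj).2 hb0)
    exact mul_ne_zero h3 hPm.ne_zero e1.symm
  · apply Polynomial.map_injective φ hinj
    rw [Polynomial.map_comp, Polynomial.map_mul, map_C, e1, Polynomial.map_mul, Polynomial.map_mul,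
      map_C, e2]
    rw [mul_comp, mul_comp, C_comp, C_comp, hQ]
    ring

theorem re_comp (u y : ℚ) (S G : ℚ[X][X]) :
    evalEval u y (S.comp G) = evalEval u (evalEval u y G) S := by
  have h1 : evalEval u y (S.comp G) = evalEvalRingHom u y (eval₂ C G S) := rfl
  rw [h1, hom_eval₂]
  have h2 : (evalEvalRingHom u y).comp C = evalRingHom u := by
    ext
    · simp
    · simp
  rw [h2]
  have h3 : evalEval u (evalEval u y G) S = eval₂ (evalRingHom u) (evalEval u y G) S := by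
    rw [eval₂_evalRingHom]
  rw [h3]
  rfl

theorem rg_elim (d : ℕ) (hd : 0 < d) (G : ℚ[X][X]) (hG : G.natDegree = d) (A : ℕ)
    (r : Fin (A + 1) × Fin d → ℤ[X]) (hr : r ≠ 0) :
    ∃ C M : ℕ, ∃ E : Finset ℕ, ∀ (u y : ℤ) (c : ℕ), evalEval (u : ℚ) (y : ℚ) G = c →
      ∑ s, (r s).eval (c : ℤ) * u ^ (s.1 : ℕ) * y ^ (s.2 : ℕ) = 0 →
      C * (1 + c) ^ M < u.natAbs → c ∈ E := by
  classical
  -- the polynomials in `T` over `ℚ[u]`
  set ι : ℤ →+* ℚ[X] := Int.castRingHom ℚ[X] with hι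
  set ρ : Fin d → ℚ[X][X] := fun b => ∑ a : Fin (A + 1), C (X ^ (a : ℕ)) * (r (a, b)).map ι with hρ
  set R : ℚ[X][X] := ∑ b : Fin d, (ρ b).comp G * X ^ (b : ℕ) with hRdef
  have hcoeff : ∀ (b : Fin d) (n : ℕ) (a : Fin (A + 1)),
      ((ρ b).coeff n).coeff (a : ℕ) = ((r (a, b)).coeff n : ℚ) := by
    intro b n a
    simp only [hρ, finsetSum_coeff, coeff_C_mul, coeff_map]
    rw [Finset.sum_eq_single a]
    · have h1 : ι ((r (a, b)).coeff n) = C (((r (a, b)).coeff n : ℤ) : ℚ) := by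
        rw [hι]
        simp
      rw [h1, coeff_mul_C, coeff_X_pow, if_pos rfl, one_mul]
    · intro a' _ ha'
      have h1 : ι ((r (a', b)).coeff n) = C (((r (a', b)).coeff n : ℤ) : ℚ) := by
        rw [hι]
        simp
      rw [h1, coeff_mul_C, coeff_X_pow, if_neg (fun h => ha' (Fin.ext h).symm), zero_mul]
    · intro h
      exact absurd (Finset.mem_univ a) h
  obtain ⟨⟨a0, b0⟩, hab⟩ : ∃ s, r s ≠ 0 := by
    by_contra h
    push Not at h
    exact hr (funext h)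
  obtain ⟨n0, hn0⟩ : ∃ n, (r (a0, b0)).coeff n ≠ 0 := by
    by_contra h
    push Not at h
    exact hab (Polynomial.ext h)
  have hρb : ρ b0 ≠ 0 := by
    intro h
    have h1 := hcoeff b0 n0 a0
    rw [h] at h1
    simp only [coeff_zero] at h1
    exact hn0 (by exact_mod_cast h1.symm)
  have hGd : G.natDegree ≠ 0 := by omega
  have hdeg : ∀ b : Fin d, (ρ b).comp G * X ^ (b : ℕ) ≠ 0 →
      ((ρ b).comp G * X ^ (b : ℕ)).natDegree = (ρ b).natDegree * d + b := by
    intro b hb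
    have h1 : (ρ b).comp G ≠ 0 := left_ne_zero_of_mul hb
    rw [natDegree_mul h1 (pow_ne_zero _ X_ne_zero), natDegree_comp, hG, natDegree_X_pow]
  have hcomp0 : (ρ b0).comp G ≠ 0 := by
    intro h
    rcases comp_eq_zero_iff.1 h with h1 | ⟨-, h2⟩
    · exact hρb h1
    · rw [h2, natDegree_C] at hGd
      exact hGd rfl
  have hR : R ≠ 0 := by
    have h1 := degree_sum_eq_of_disjoint (fun b : Fin d => (ρ b).comp G * X ^ (b : ℕ))
      Finset.univ (by
        intro b hb b' hb' hne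
        simp only [Finset.mem_univ, true_and, Set.mem_ofPred_eq] at hb hb'
        simp only [Function.comp, Function.onFun]
        intro heq
        have h2 := natDegree_eq_of_degree_eq heq
        rw [hdeg b hb, hdeg b' hb'] at h2
        apply hne
        have h3 : (b : ℕ) % d = (b' : ℕ) % d := by
          have h4 := congrArg (fun k => k % d) h2
          simpa [Nat.add_mod] using h4
        rw [Nat.mod_eq_of_lt b.2, Nat.mod_eq_of_lt b'.2] at h3
        exact Fin.ext h3)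
    intro h
    rw [← hRdef, h, degree_zero] at h1
    have h2 : (⊥ : WithBot ℕ) < degree ((ρ b0).comp G * X ^ (b0 : ℕ)) := by
      rw [bot_lt_iff_ne_bot, Ne, degree_eq_bot]
      exact mul_ne_zero hcomp0 (pow_ne_zero _ X_ne_zero)
    have h3 : degree ((ρ b0).comp G * X ^ (b0 : ℕ)) ≤
        Finset.univ.sup fun b : Fin d => degree ((ρ b).comp G * X ^ (b : ℕ)) :=
      Finset.le_sup (f := fun b : Fin d => degree ((ρ b).comp G * X ^ (b : ℕ)))
        (Finset.mem_univ b0)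
    rw [← h1] at h3
    exact absurd (h2.trans_le h3) (lt_irrefl _)
  obtain ⟨S, hS0, Q, hS⟩ := re_norm R G hR
  obtain ⟨K, M, E, hE⟩ := re_top S hS0
  refine ⟨K, M, E, fun u y c hc hsum hlt => hE u c ?_ hlt⟩
  have h1 := re_comp (u : ℚ) (y : ℚ) S G
  rw [hc] at h1
  rw [← h1, hS, evalEval_mul]
  have h2 : evalEval (u : ℚ) (y : ℚ) R = 0 := by
    rw [hRdef, evalEval_finsetSum]
    have h3 : ∀ b : Fin d, evalEval (u : ℚ) (y : ℚ) ((ρ b).comp G * X ^ (b : ℕ)) =
        ∑ a : Fin (A + 1), (((r (a, b)).eval (c : ℤ) * u ^ (a : ℕ) * y ^ (b : ℕ) : ℤ) : ℚ) := by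
      intro b
      rw [evalEval_mul, re_comp, hc, evalEval_pow, evalEval_X, hρ]
      simp only
      rw [evalEval_finsetSum, Finset.sum_mul]
      refine Finset.sum_congr rfl fun a _ => ?_
      rw [evalEval_mul, evalEval_C, eval_pow, eval_X]
      have h4 : evalEval (u : ℚ) (c : ℚ) ((r (a, b)).map ι) = (((r (a, b)).eval (c : ℤ) : ℤ) : ℚ) := by
        have h5 : evalEval (u : ℚ) (c : ℚ) ((r (a, b)).map ι) =
            eval₂ (evalRingHom (u : ℚ)) (c : ℚ) ((r (a, b)).map ι) := by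
          rw [eval₂_evalRingHom]
        rw [h5, eval₂_map]
        have h6 : (evalRingHom (u : ℚ)).comp ι = Int.castRingHom ℚ := RingHom.ext_int _ _
        rw [h6]
        have h7 : ((c : ℤ) : ℚ) = (c : ℚ) := by push_cast; rfl
        rw [← h7]
        exact eval₂_at_intCast (Int.castRingHom ℚ) (c : ℤ)
      rw [h4]
      push_cast
      ring
    rw [Finset.sum_congr rfl fun b _ => h3 b]
    rw [Fintype.sum_prod_type] at hsum
    rw [Finset.sum_comm]
    have h8 := congrArg (fun k : ℤ => (k : ℚ)) hsum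
    simp only [Int.cast_zero] at h8
    rw [Int.cast_sum] at h8
    rw [← h8]
    refine Finset.sum_congr rfl fun a _ => ?_
    rw [Int.cast_sum]
  rw [h2, zero_mul]

end PP72
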