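import Mathlib

/-!
The polynomial `F(u + t y, y)` as a polynomial in `y` over `ℚ[u]`.
-/

open Polynomial Finset

namespace PP72

/-- the polynomial `F(u + t y, y)` over `ℚ[u]` -/
noncomputable def shearPoly (d : ℕ) (q : ℕ → ℚ[X]) (t : ℕ) : ℚ[X][X] :=
  ∑ i ∈ range (d + 1), ∑ l ∈ range (i + 1),
    C (C ((q i).coeff l)) * (C X + C (C (t : ℚ)) * X) ^ (i - l) * X ^ l

theorem shear_term_deg (t : ℕ) (a : ℚ) (j l : ℕ) :
    (C (C a) * (C X + C (C (t : ℚ)) * X) ^ j * X ^ l : ℚ[X][X]).natDegree ≤ j + l := by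
  have h1 : (C X + C (C (t : ℚ)) * X : ℚ[X][X]).natDegree ≤ 1 := by
    apply (natDegree_add_le _ _).trans
    rw [natDegree_C]
    exact max_le (by norm_num) ((natDegree_C_mul_le _ _).trans natDegree_X_le)
  calc (C (C a) * (C X + C (C (t : ℚ)) * X) ^ j * X ^ l : ℚ[X][X]).natDegree
      ≤ (C (C a) * (C X + C (C (t : ℚ)) * X) ^ j : ℚ[X][X]).natDegree +
          (X ^ l : ℚ[X][X]).natDegree := natDegree_mul_le
    _ ≤ j + l := by
        rw [natDegree_X_pow]
        have h2 := (natDegree_C_mul_le (C a) ((C X + C (C (t : ℚ)) * X : ℚ[X][X]) ^ j))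
        have h3 := natDegree_pow_le_of_le j h1
        omega

theorem shear_term_coeff (t : ℕ) (a : ℚ) (j l : ℕ) :
    (C (C a) * (C X + C (C (t : ℚ)) * X) ^ j * X ^ l : ℚ[X][X]).coeff (j + l) =
      C (a * (t : ℚ) ^ j) := by
  have h1 : (C X + C (C (t : ℚ)) * X : ℚ[X][X]).natDegree ≤ 1 := by
    apply (natDegree_add_le _ _).trans
    rw [natDegree_C]
    exact max_le (by norm_num) ((natDegree_C_mul_le _ _).trans natDegree_X_le)
  rw [coeff_mul_X_pow, coeff_C_mul]
  have h2 := coeff_pow_of_natDegree_le h1 (m := j)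
  rw [mul_one] at h2
  rw [h2]
  simp

theorem shear_coeff (d : ℕ) (q : ℕ → ℚ[X]) (t : ℕ) : (shearPoly d q t).coeff d =
    C (∑ l ∈ range (d + 1), (q d).coeff l * (t : ℚ) ^ (d - l)) := by
  unfold shearPoly
  rw [Finset.sum_range_succ, coeff_add, finsetSum_coeff, Finset.sum_eq_zero, zero_add,
    finsetSum_coeff, map_sum]
  · apply Finset.sum_congr rfl
    intro l hl
    have h1 : d - l + l = d := by
      have := mem_range.1 hl
      omega
    have h2 := shear_term_coeff t ((q d).coeff l) (d - l) l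
    rw [h1] at h2
    exact h2
  · intro i hi
    rw [finsetSum_coeff]
    apply Finset.sum_eq_zero
    intro l hl
    apply coeff_eq_zero_of_natDegree_lt
    have h1 := mem_range.1 hi
    have h2 := mem_range.1 hl
    have h3 := shear_term_deg t ((q i).coeff l) (i - l) l
    omega

theorem shear_natDegree (d : ℕ) (q : ℕ → ℚ[X]) (t : ℕ)
    (ht : ∑ l ∈ range (d + 1), (q d).coeff l * (t : ℚ) ^ (d - l) ≠ 0) :
    (shearPoly d q t).natDegree = d := by
  apply le_antisymm
  · unfold shearPoly
    apply natDegree_sum_le_of_forall_le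
    intro i hi
    apply natDegree_sum_le_of_forall_le
    intro l hl
    have h1 := mem_range.1 hi
    have h2 := mem_range.1 hl
    have h3 := shear_term_deg t ((q i).coeff l) (i - l) l
    omega
  · apply le_natDegree_of_ne_zero
    rw [shear_coeff]
    exact C_ne_zero.2 ht

theorem shear_eval (d : ℕ) (q : ℕ → ℚ[X]) (t : ℕ) (u y : ℚ) :
    evalEval u y (shearPoly d q t) = ∑ i ∈ range (d + 1), ∑ l ∈ range (i + 1),
      (q i).coeff l * (u + t * y) ^ (i - l) * y ^ l := by
  unfold shearPoly
  rw [evalEval, eval_finsetSum, eval_finsetSum]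
  apply Finset.sum_congr rfl
  intro i _
  rw [eval_finsetSum, eval_finsetSum]
  apply Finset.sum_congr rfl
  intro l _
  simp

/-- a suitable shear -/
theorem exists_shear (d : ℕ) (q : ℚ[X]) (hq : q ≠ 0) (hd : q.natDegree ≤ d) : ∃ t : ℕ,
    ∑ l ∈ range (d + 1), q.coeff l * (t : ℚ) ^ (d - l) ≠ 0 := by
  by_contra hcon
  push Not at hcon
  set T : ℚ[X] := ∑ l ∈ range (d + 1), C (q.coeff l) * X ^ (d - l) with hT
  have hT0 : T = 0 := by
    apply Polynomial.eq_zero_of_infinite_isRoot
    apply Set.Infinite.mono (s := Set.range fun n : ℕ => (n : ℚ))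
    · rintro _ ⟨n, rfl⟩
      change eval (n : ℚ) T = 0
      rw [hT, eval_finsetSum]
      simpa using hcon n
    · exact Set.infinite_range_of_injective Nat.cast_injective
  apply hq
  ext l
  rw [coeff_zero]
  rcases Nat.lt_or_ge d l with hl | hl
  · exact coeff_eq_zero_of_natDegree_lt (by omega)
  · have h1 : T.coeff (d - l) = q.coeff l := by
      rw [hT, finsetSum_coeff]
      simp only [coeff_C_mul, coeff_X_pow]
      rw [Finset.sum_eq_single l]
      · simp
      · intro b hb hbl
        have := mem_range.1 hb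
        rw [if_neg (by omega), mul_zero]
      · intro hl'
        exact absurd (mem_range.2 (by omega)) hl'
    rw [← h1, hT0, coeff_zero]

end PP72
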