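import Pool.Agent.PP72.RgRank
import Pool.Agent.PP72.RgShear
import Pool.Agent.PP72.RgElim
import Pool.Agent.PP72.QCore

/-!
Runge's method at a zero of any order of the leading form: bounded strips.
-/

open Polynomial Finset

namespace PP72

theorem rg_vanishR {K : Type*} [Field K] [Algebra ℚ K] [FiniteDimensional ℚ K] [Algebra K ℝ]
    (d t A ν : ℕ) (hA : Module.finrank ℚ K * (ν * (A + d)) < (A + 1) * d) (B : Set (ℕ × ℕ))
    (f : ℕ × ℕ → ℕ) (hx : ∀ P ∈ B, 0 < P.1) (u : ℕ × ℕ → ℝ)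
    (hu : Temp B (fun P => (f P : ℝ)) u)
    (hmono : ∀ s : Fin (A + 1) × Fin d, HasR K B (fun P => 1 / (P.1 : ℝ)) (fun P => (f P : ℝ)) u
      ν (A + d) fun P => (1 / (P.1 : ℝ)) ^ (A + d - 1 - s.1 - s.2) *
        (1 - t * ((P.2 : ℝ) / P.1)) ^ (s.1 : ℕ) * ((P.2 : ℝ) / P.1) ^ (s.2 : ℕ)) :
    ∃ r : Fin (A + 1) × Fin d → ℤ[X], r ≠ 0 ∧ ∃ C M : ℕ, ∀ P ∈ B, C * (1 + f P) ^ M < P.1 →
      ∑ s, (r s).eval (f P : ℤ) * ((P.1 : ℤ) - t * P.2) ^ (s.1 : ℕ) * (P.2 : ℤ) ^ (s.2 : ℕ) =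
        0 := by
  classical
  set z : ℕ × ℕ → ℝ := fun P => 1 / (P.1 : ℝ) with hzdef
  set c : ℕ × ℕ → ℝ := fun P => (f P : ℝ) with hcdef
  have hc : ∀ P ∈ B, 0 ≤ c P := fun P _ => Nat.cast_nonneg _
  have hz0 : ∀ P ∈ B, 0 < z P := by
    intro P hP
    have h1 : (0 : ℝ) < P.1 := by exact_mod_cast hx P hP
    rw [hzdef]
    positivity
  have hz : ∀ P ∈ B, 0 ≤ z P ∧ z P ≤ 1 := by
    intro P hP
    refine ⟨(hz0 P hP).le, ?_⟩
    have h1 : (1 : ℝ) ≤ P.1 := by exact_mod_cast hx P hP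
    rw [hzdef]
    beta_reduce
    rw [div_le_one (by linarith)]
    exact h1
  have hzx : ∀ P ∈ B, z P * P.1 = 1 := by
    intro P hP
    have h1 : (0 : ℝ) < P.1 := by exact_mod_cast hx P hP
    rw [hzdef]
    field_simp
  set m := A + d with hm
  choose p e he hpe using hmono
  obtain ⟨r, hr, hrp⟩ := rg_relation' (σ := Fin (A + 1) × Fin d) (κ := Fin ν × Fin m) (by
    simp only [Fintype.card_prod, Fintype.card_fin]
    exact hA) (fun s k => (p s k.1).coeff (k.2 : ℕ))
  have hlow : ∀ i : Fin ν, ∃ q : K[X][X], ∀ z c : ℝ,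
      Phi K z c (∑ s, Polynomial.C ((r s).map (Int.castRingHom K)) * p s i) =
        z ^ m * Phi K z c q := by
    intro i
    apply Phi_low
    intro j hj
    rw [finsetSum_coeff]
    have h1 := hrp (i, ⟨j, hj⟩)
    beta_reduce at h1
    rw [← h1]
    apply Finset.sum_congr rfl
    intro s _
    rw [coeff_C_mul]
  choose q hq using hlow
  have hE : Temp B c fun P => (∑ i : Fin ν, Phi K (z P) (c P) (q i) * u P ^ (i : ℕ)) +
      ∑ s, eval₂ (algebraMap K ℝ) (c P) ((r s).map (Int.castRingHom K)) * e s P := by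
    apply Temp.add _ _ hc
    · apply Temp.sum _ _ _ hc
      intro i _
      exact (temp_Phi (q i) hz hc).mul (hu.pow i hc) hc
    · apply Temp.sum _ _ _ hc
      intro s _
      exact (temp_inner _ hc).mul (he s) hc
  obtain ⟨C0, hC0, M, hCM⟩ := hE
  obtain ⟨C, hC⟩ := exists_nat_ge C0
  refine ⟨r, hr, C, M, fun P hP hlt => ?_⟩
  have hzP := hz0 P hP
  have hrc : ∀ s, eval₂ (algebraMap K ℝ) (c P) ((r s).map (Int.castRingHom K)) =
      (((r s).eval (f P : ℤ) : ℤ) : ℝ) := by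
    intro s
    rw [eval₂_map]
    have h1 : (algebraMap K ℝ).comp (Int.castRingHom K) = Int.castRingHom ℝ :=
      RingHom.ext_int _ _
    have h2 : c P = Int.castRingHom ℝ (f P : ℤ) := by
      rw [hcdef]
      simp
    rw [h1, h2, eval₂_at_apply]
    simp
  set R : ℤ := ∑ s, (r s).eval (f P : ℤ) * ((P.1 : ℤ) - t * P.2) ^ (s.1 : ℕ) *
    (P.2 : ℤ) ^ (s.2 : ℕ) with hR
  set EE := (∑ i : Fin ν, Phi K (z P) (c P) (q i) * u P ^ (i : ℕ)) +
      ∑ s, eval₂ (algebraMap K ℝ) (c P) ((r s).map (Int.castRingHom K)) * e s P with hEE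
  have hRz : z P ^ (m - 1) * (R : ℝ) = z P ^ m * EE := by
    have h1 : z P ^ (m - 1) * (R : ℝ) = ∑ s, (((r s).eval (f P : ℤ) : ℤ) : ℝ) *
        (z P ^ (m - 1 - s.1 - s.2) * (1 - t * ((P.2 : ℝ) / P.1)) ^ (s.1 : ℕ) *
        ((P.2 : ℝ) / P.1) ^ (s.2 : ℕ)) := by
      rw [hR]
      push_cast
      rw [Finset.mul_sum]
      apply Finset.sum_congr rfl
      intro s _
      have h2 : m - 1 = (m - 1 - s.1 - s.2) + s.1 + s.2 := by
        have h3 := s.1.2
        have h4 := s.2.2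
        omega
      have h3 : z P ^ (m - 1) = z P ^ (m - 1 - s.1 - s.2) * z P ^ (s.1 : ℕ) *
          z P ^ (s.2 : ℕ) := by
        rw [← pow_add, ← pow_add, ← h2]
      have h4 : (P.2 : ℝ) / P.1 = z P * P.2 := by
        rw [hzdef]
        ring
      have h5 : 1 - (t : ℝ) * ((P.2 : ℝ) / P.1) = z P * (P.1 - t * P.2) := by
        rw [h4, ← hzx P hP]
        ring
      rw [h3, h5, h4, mul_pow, mul_pow]
      ring
    have h2 : ∀ s ∈ (Finset.univ : Finset (Fin (A + 1) × Fin d)),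
        (((r s).eval (f P : ℤ) : ℤ) : ℝ) *
        (z P ^ (m - 1 - s.1 - s.2) * (1 - t * ((P.2 : ℝ) / P.1)) ^ (s.1 : ℕ) *
        ((P.2 : ℝ) / P.1) ^ (s.2 : ℕ)) =
        (∑ i : Fin ν, Phi K (z P) (c P) (Polynomial.C ((r s).map (Int.castRingHom K)) * p s i) *
          u P ^ (i : ℕ)) + z P ^ m *
          (eval₂ (algebraMap K ℝ) (c P) ((r s).map (Int.castRingHom K)) * e s P) := by
      intro s _
      have h3 := hpe s P hP
      beta_reduce at h3
      rw [← Fin.sum_univ_eq_sum_range (fun i => Phi K (z P) (c P) (p s i) * u P ^ i) ν] at h3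
      rw [h3, mul_add, Finset.mul_sum, ← hrc s]
      congr 1
      · apply Finset.sum_congr rfl
        intro i _
        rw [map_mul, Phi_C]
        ring
      · ring
    rw [h1, Finset.sum_congr rfl h2, Finset.sum_add_distrib, Finset.sum_comm, ← Finset.mul_sum,
      hEE, mul_add]
    congr 1
    rw [Finset.mul_sum]
    apply Finset.sum_congr rfl
    intro i _
    rw [← Finset.sum_mul, ← map_sum, hq]
    ring
  have hRE : (R : ℝ) = z P * EE := by
    have hm1 : m = (m - 1) + 1 := by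
      rcases Nat.eq_zero_or_pos d with hd | hd
      · exfalso
        rw [hd, mul_zero] at hA
        exact absurd hA (Nat.not_lt_zero _)
      · omega
    have h3 : 0 < z P ^ (m - 1) := pow_pos hzP _
    apply mul_left_cancel₀ h3.ne'
    rw [hRz, ← mul_assoc, ← pow_succ, ← hm1]
  have hR1 : |(R : ℝ)| < 1 := by
    rw [hRE, abs_mul, abs_of_pos hzP]
    have h1 := hCM P hP
    have h2 : (C0 : ℝ) * (1 + c P) ^ M < P.1 := by
      calc (C0 : ℝ) * (1 + c P) ^ M ≤ C * (1 + c P) ^ M := by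
            have := hc P hP
            gcongr
        _ < P.1 := by
            rw [hcdef]
            beta_reduce
            exact_mod_cast hlt
    calc z P * |EE| ≤ z P * (C0 * (1 + c P) ^ M) := by gcongr
      _ < z P * P.1 := by gcongr
      _ = 1 := hzx P hP
  have h1 : |R| < 1 := by exact_mod_cast hR1
  exact Int.abs_lt_one_iff.1 h1

variable {α : ℝ} {d : ℕ} {h : ℕ → ℝ[X]}

/-- **Runge's method** on bounded strips along a line of irrational algebraic slope `θ` -/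
theorem Pk.rg_strip (H : Pk α d h) (hne : h d ≠ 0) {θ : ℝ} (hirr : Irrational θ)
    (halg : IsIntegral ℚ θ) (J : ℕ) (hJ : J + 1 ≤ d)
    (htop : ∀ j, J + 1 < j → j ≤ d → gT d h θ j = 0) (hg : gT d h θ (J + 1) ≠ 0)
    (hk : (minpoly ℚ θ).natDegree * (gT d h θ (J + 1)).natDegree < d) (U : ℝ) :
    ∃ C M : ℕ, ∀ P ∈ Sec α, 0 < P.1 → |(P.2 : ℝ) - θ * P.1| ≤ U →
      (P.1 : ℝ) ≤ C * (1 + fv d h P) ^ M := by
  classical
  -- rational polynomials
  have hrat : ∀ i, ∃ q : ℚ[X], i ∈ range (d + 1) → h i = q.map (algebraMap ℚ ℝ) := by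
    intro i
    by_cases hi : i ∈ range (d + 1)
    · obtain ⟨q, hq⟩ := H.rational i hi
      exact ⟨q, fun _ => hq⟩
    · exact ⟨0, fun h => absurd h hi⟩
  choose q hq using hrat
  have hqd := hq d (by simp)
  have hqd0 : q d ≠ 0 := by
    intro h0
    apply hne
    rw [hqd, h0, Polynomial.map_zero]
  have hqdeg : (q d).natDegree ≤ d := by
    have h1 := H.deg d
    rw [hqd, natDegree_map] at h1
    exact h1
  -- the field
  set K := IntermediateField.adjoin ℚ {θ} with hK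
  have : FiniteDimensional ℚ K := IntermediateField.adjoin.finiteDimensional halg
  have hfin : Module.finrank ℚ K = (minpoly ℚ θ).natDegree :=
    IntermediateField.adjoin.finrank halg
  set a : K := IntermediateField.AdjoinSimple.gen ℚ θ with ha
  have haθ : algebraMap K ℝ a = θ := IntermediateField.AdjoinSimple.algebraMap_gen ℚ θ
  set p : ℕ → K[X] := fun i => (q i).map (algebraMap ℚ K) with hp
  have hinj : Function.Injective (algebraMap K ℝ) := (algebraMap K ℝ).injective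
  have hpm : ∀ i ∈ range (d + 1), (p i).map (algebraMap K ℝ) = h i := by
    intro i hi
    rw [hp, hq i hi]
    beta_reduce
    rw [Polynomial.map_map]
    congr 1
  -- the Taylor polynomials over the field
  set g : ℕ → K[X] := fun j => ∑ i ∈ range (d + 1 - j), C ((taylor a (p (i + j))).coeff i) * X ^ i
    with hgdef
  have hgm : ∀ j, (g j).map (algebraMap K ℝ) = gT d h θ j := by
    intro j
    rw [hgdef]
    unfold gT
    beta_reduce
    rw [Polynomial.map_sum]
    apply Finset.sum_congr rfl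
    intro i hi
    rw [Polynomial.map_mul, Polynomial.map_C, Polynomial.map_pow, Polynomial.map_X]
    congr 2
    rw [← hpm (i + j) (mem_range.2 (by
      have := mem_range.1 hi
      omega)), ← haθ, ← map_taylor, coeff_map]
  have hge : ∀ j (t : ℝ), aeval t (g j) = (gT d h θ j).eval t := by
    intro j t
    rw [← hgm, eval_map_algebraMap]
  -- the values
  have hval : ∀ P : ℕ × ℕ, ∃ n : ℕ, P ∈ Sec α → ev d h P.1 P.2 = n := by
    intro P
    by_cases hP : P ∈ Sec α
    · obtain ⟨n, hn⟩ := H.val P hP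
      exact ⟨n, fun _ => hn⟩
    · exact ⟨0, fun h => absurd h hP⟩
  choose f hf using hval
  set B : Set (ℕ × ℕ) := {P | P ∈ Sec α ∧ 0 < P.1 ∧ |(P.2 : ℝ) - θ * P.1| ≤ U} with hB
  set ν := (gT d h θ (J + 1)).natDegree with hν
  set z : ℕ × ℕ → ℝ := fun P => 1 / (P.1 : ℝ) with hzdef
  set c : ℕ × ℕ → ℝ := fun P => (f P : ℝ) with hcdef
  set u : ℕ × ℕ → ℝ := fun P => (P.2 : ℝ) - θ * P.1 with hudef
  have hc : ∀ P ∈ B, 0 ≤ c P := fun P _ => Nat.cast_nonneg _
  have hBx : ∀ P ∈ B, 0 < P.1 := fun P hP => hP.2.1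
  have hz : ∀ P ∈ B, 0 ≤ z P ∧ z P ≤ 1 := by
    intro P hP
    have h1 : (1 : ℝ) ≤ P.1 := by exact_mod_cast hBx P hP
    rw [hzdef]
    beta_reduce
    refine ⟨by positivity, ?_⟩
    rw [div_le_one (by linarith)]
    exact h1
  have hu : Temp B c u := Temp.of_bdd U (fun P hP => hP.2.2) hc
  have hg0 : g (J + 1) ≠ 0 := by
    intro h0
    apply hg
    rw [← hgm, h0, Polynomial.map_zero]
  have hgν : (g (J + 1)).natDegree = ν := by
    rw [hν, ← hgm, natDegree_map]
  have hrel : ∀ P ∈ B, c P * z P ^ (J + 1) = ∑ j ∈ range (J + 2),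
      z P ^ (J + 1 - j) * aeval (u P) (g j) := by
    intro P hP
    have hxpos : (0 : ℝ) < P.1 := by exact_mod_cast hBx P hP
    have h1 : c P = ∑ j ∈ range (J + 2), (P.1 : ℝ) ^ j * (gT d h θ j).eval (u P) := by
      have h2 : c P = fv d h P := (hf P hP.1).symm
      rw [h2, fv_taylor H.deg θ]
      have h3 : range (J + 2) ⊆ range (d + 1) := by
        intro j hj
        rw [mem_range] at hj ⊢
        omega
      rw [← Finset.sum_subset h3]
      intro j hj hj'
      rw [mem_range] at hj hj'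
      rw [htop j (by omega) (by omega), eval_zero, mul_zero]
    rw [h1, Finset.sum_mul]
    apply Finset.sum_congr rfl
    intro j hj
    have h2 : J + 1 = j + (J + 1 - j) := by
      have := mem_range.1 hj
      omega
    have h3 : (P.1 : ℝ) ^ j * z P ^ (J + 1) = z P ^ (J + 1 - j) := by
      conv_lhs => rw [h2, pow_add, ← mul_assoc, ← mul_pow]
      rw [hzdef]
      beta_reduce
      rw [mul_one_div_cancel hxpos.ne', one_pow, one_mul]
    rw [hge, ← h3]
    ring
  have hν' := hasR_of_rel J g hg0 hgν hz hc hu hrel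
  -- the auxiliary polynomial
  obtain ⟨t, ht⟩ := exists_shear d (q d) hqd0 hqdeg
  set k := (minpoly ℚ θ).natDegree with hkdef
  have hslope : ∀ n, HasR K B z c u ν n fun P => (P.2 : ℝ) / P.1 := by
    intro n
    have h1 := hν' n
    have h2 : HasR K B z c u ν n u := (h1.pow_all hu hz hc 1).congr fun P _ => by rw [pow_one]
    have h3 := (h1.poly hu hz hc (C (C a))).add (h2.smul X hz hc) hc
    refine h3.congr fun P hP => ?_
    have hxpos : (0 : ℝ) < P.1 := by exact_mod_cast hBx P hP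
    rw [Phi_C_C, Phi_X, haθ, hudef, hzdef]
    beta_reduce
    field_simp
    ring
  have hA : Module.finrank ℚ K * (ν * (k * ν * d + d)) < (k * ν * d + 1) * d := by
    rw [hfin]
    have h2 : k * ν * (k * ν + 1) ≤ k * ν * d := Nat.mul_le_mul_left _ hk
    have h3 : k * (ν * (k * ν * d + d)) = d * (k * ν * (k * ν + 1)) := by ring
    rw [h3]
    calc d * (k * ν * (k * ν + 1)) ≤ d * (k * ν * d) := Nat.mul_le_mul_left _ h2
      _ < d * (k * ν * d) + d := by omega
      _ = (k * ν * d + 1) * d := by ring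
  obtain ⟨r, hr, C1, M1, h1⟩ := rg_vanishR (K := K) d t (k * ν * d) ν hA B f hBx u hu (by
    intro s
    have e1 := hν' (k * ν * d + d)
    have e2 := hslope (k * ν * d + d)
    have e3 : HasR K B z c u ν (k * ν * d + d) fun P => 1 - (t : ℝ) * ((P.2 : ℝ) / P.1) :=
      ((e1.one hu hz hc).add (e2.smul (C (C (-(t : K)))) hz hc) hc).congr fun P _ => by
        rw [Phi_C_C, map_neg, map_natCast]
        ring
    have e4 := (((e3.pow e1 hu hz hc (s.1 : ℕ)).mul (e2.pow e1 hu hz hc (s.2 : ℕ)) e1 hu hz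
      hc).smul (X ^ (k * ν * d + d - 1 - s.1 - s.2)) hz hc)
    refine e4.congr fun P _ => ?_
    rw [map_pow, Phi_X, mul_assoc])
  obtain ⟨C2, M2, E, h2⟩ := rg_elim d (by omega) (shearPoly d q t)
    (shear_natDegree _ _ _ ht) _ r hr
  -- finitely many exceptions
  have hfinE : {P | P ∈ Sec α ∧ f P ∈ E}.Finite := by
    apply Set.Finite.of_finite_image (f := f)
    · apply Set.Finite.subset E.finite_toSet
      rintro _ ⟨P, hP, rfl⟩
      exact hP.2
    · intro P hP Q hQ hPQ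
      apply H.inj P hP.1 Q hQ.1
      rw [hf P hP.1, hf Q hQ.1, hPQ]
  obtain ⟨X1, hX1⟩ : ∃ X1 : ℕ, ∀ P, P ∈ Sec α → f P ∈ E → P.1 ≤ X1 := by
    obtain ⟨X1, hX1⟩ := (hfinE.image Prod.fst).bddAbove
    exact ⟨X1, fun P hP1 hP2 => hX1 ⟨P, ⟨hP1, hP2⟩, rfl⟩⟩
  -- the slope of the sheared coordinate
  set κ := |1 - t * θ| with hκ
  have hκ0 : 0 < κ := by
    rw [hκ, abs_pos]
    intro h0
    rcases Nat.eq_zero_or_pos t with ht0 | ht0
    · rw [ht0] at h0
      simp at h0
    · apply hirr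
      refine ⟨1 / (t : ℚ), ?_⟩
      have ht' : (t : ℝ) ≠ 0 := by exact_mod_cast ht0.ne'
      push_cast
      field_simp
      linarith
  obtain ⟨C3, hC3⟩ := exists_nat_ge ((C2 + t * |U|) / κ)
  refine ⟨C1 + C3 + X1, M1 + M2, fun P hP hx hU => ?_⟩
  have hfP : fv d h P = f P := hf P hP
  rw [hfP]
  have hfn : (0 : ℝ) ≤ f P := Nat.cast_nonneg _
  have hf1 : (1 : ℝ) ≤ 1 + f P := by linarith
  have hPB : P ∈ B := ⟨hP, hx, hU⟩
  have hpow : (1 : ℝ) ≤ (1 + f P) ^ (M1 + M2) := one_le_pow₀ hf1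
  have hpow1 : (1 + f P : ℝ) ^ M1 ≤ (1 + f P) ^ (M1 + M2) := pow_le_pow_right₀ hf1 (by omega)
  have hpow2 : (1 + f P : ℝ) ^ M2 ≤ (1 + f P) ^ (M1 + M2) := pow_le_pow_right₀ hf1 (by omega)
  push_cast
  have hC1n : (0 : ℝ) ≤ C1 := Nat.cast_nonneg _
  have hC3n : (0 : ℝ) ≤ C3 := Nat.cast_nonneg _
  have hX1n : (0 : ℝ) ≤ X1 := Nat.cast_nonneg _
  have t1 : 0 ≤ (C1 : ℝ) * (1 + f P) ^ (M1 + M2) := by positivity
  have t3 : 0 ≤ (C3 : ℝ) * (1 + f P) ^ (M1 + M2) := by positivity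
  have tX : 0 ≤ (X1 : ℝ) * (1 + f P) ^ (M1 + M2) := by positivity
  have hexpand : ((C1 : ℝ) + C3 + X1) * (1 + f P) ^ (M1 + M2) =
      C1 * (1 + f P) ^ (M1 + M2) + C3 * (1 + f P) ^ (M1 + M2) +
        X1 * (1 + f P) ^ (M1 + M2) := by ring
  rw [hexpand]
  by_cases hlt : C1 * (1 + f P) ^ M1 < P.1
  · have hsum := h1 P hPB hlt
    set v : ℤ := (P.1 : ℤ) - t * P.2 with hv
    have hev : evalEval (v : ℚ) ((P.2 : ℤ) : ℚ) (shearPoly d q t) = f P := by
      rw [shear_eval]
      have hux : (v : ℚ) + t * ((P.2 : ℤ) : ℚ) = P.1 := by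
        rw [hv]
        push_cast
        ring
      rw [hux]
      have h3 := hf P hP
      unfold ev at h3
      have h4 : ((∑ i ∈ range (d + 1), ∑ l ∈ range (i + 1),
          (q i).coeff l * (P.1 : ℚ) ^ (i - l) * ((P.2 : ℤ) : ℚ) ^ l : ℚ) : ℝ) =
          ((f P : ℚ) : ℝ) := by
        push_cast
        rw [← h3]
        apply Finset.sum_congr rfl
        intro i hi
        apply Finset.sum_congr rfl
        intro l _
        rw [hq i hi, coeff_map]
        simp
      exact_mod_cast h4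
    by_cases hlt2 : C2 * (1 + f P) ^ M2 < v.natAbs
    · have hE := h2 v P.2 (f P) hev hsum hlt2
      have h3 := hX1 P hP hE
      have h4 : (P.1 : ℝ) ≤ X1 := by exact_mod_cast h3
      have h5 : (X1 : ℝ) * 1 ≤ X1 * (1 + f P) ^ (M1 + M2) := by gcongr
      linarith
    · push Not at hlt2
      have h3 : |(v : ℝ)| ≤ C2 * (1 + f P) ^ M2 := by
        have h4 : ((v.natAbs : ℕ) : ℝ) ≤ C2 * (1 + f P) ^ M2 := by exact_mod_cast hlt2
        rw [Nat.cast_natAbs] at h4
        push_cast at h4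
        exact h4
      have h4 : κ * P.1 ≤ |(v : ℝ)| + t * |U| := by
        have h5 : (1 - t * θ) * P.1 = v + t * ((P.2 : ℝ) - θ * P.1) := by
          rw [hv]
          push_cast
          ring
        have h6 : κ * P.1 = |(1 - t * θ) * (P.1 : ℝ)| := by
          rw [abs_mul, ← hκ, abs_of_nonneg (Nat.cast_nonneg _)]
        rw [h6, h5]
        have h7 : |(t : ℝ) * ((P.2 : ℝ) - θ * P.1)| ≤ t * |U| := by
          rw [abs_mul, abs_of_nonneg (Nat.cast_nonneg _)]
          have h9 := le_abs_self U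
          have h10 := hU.trans h9
          gcongr
        have h8 := abs_add_le (v : ℝ) (t * ((P.2 : ℝ) - θ * P.1))
        linarith
      have h5 : κ * P.1 ≤ (C2 + t * |U|) * (1 + f P) ^ (M1 + M2) := by
        have h6 : (t : ℝ) * |U| * 1 ≤ t * |U| * (1 + f P) ^ (M1 + M2) := by gcongr
        have h7 : (C2 : ℝ) * (1 + f P) ^ M2 ≤ C2 * (1 + f P) ^ (M1 + M2) := by gcongr
        have h8 : ((C2 : ℝ) + t * |U|) * (1 + f P) ^ (M1 + M2) =
          C2 * (1 + f P) ^ (M1 + M2) + t * |U| * (1 + f P) ^ (M1 + M2) := by ring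
        linarith
      have h6 : (P.1 : ℝ) ≤ C3 * (1 + f P) ^ (M1 + M2) := by
        have h7 : κ * P.1 ≤ κ * (C3 * (1 + f P) ^ (M1 + M2)) := by
          refine h5.trans ?_
          have h8 : (C2 : ℝ) + t * |U| ≤ κ * C3 := by
            rw [div_le_iff₀ hκ0] at hC3
            linarith
          calc ((C2 : ℝ) + t * |U|) * (1 + f P) ^ (M1 + M2)
              ≤ κ * C3 * (1 + f P) ^ (M1 + M2) := by gcongr
            _ = _ := by ring
        exact le_of_mul_le_mul_left h7 hκ0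
      linarith
  · push Not at hlt
    have h3 : (P.1 : ℝ) ≤ C1 * (1 + f P) ^ M1 := by exact_mod_cast hlt
    have h4 : (C1 : ℝ) * (1 + f P) ^ M1 ≤ C1 * (1 + f P) ^ (M1 + M2) := by gcongr
    linarith

/-- **Runge's method** on bounded strips: a zero `θ` of order `μ` of the leading form, with
`μ` times the degree of `θ` smaller than the degree of the polynomial -/
theorem Pk.rg_strip' (H : Pk α d h) (hne : h d ≠ 0) {θ : ℝ} (hirr : Irrational θ)
    (hz : (h d).eval θ = 0)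
    (hdeg : rootMultiplicity θ (h d) * (minpoly ℚ θ).natDegree < d) (U : ℝ) :
    ∃ C M : ℕ, ∀ P ∈ Sec α, 0 < P.1 → |(P.2 : ℝ) - θ * P.1| ≤ U →
      (P.1 : ℝ) ≤ C * (1 + fv d h P) ^ M := by
  classical
  have halg : IsIntegral ℚ θ := by
    apply IsAlgebraic.isIntegral
    obtain ⟨q, hq⟩ := H.rational d (by simp)
    refine ⟨q, ?_, ?_⟩
    · rintro rfl
      apply hne
      rw [hq, Polynomial.map_zero]
    · rw [hq, eval_map_algebraMap] at hz
      exact hz
  have hk1 : 1 ≤ (minpoly ℚ θ).natDegree := minpoly.natDegree_pos halg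
  set μ := rootMultiplicity θ (h d) with hμ
  have hμd : μ < d := lt_of_le_of_lt (Nat.le_mul_of_pos_right _ hk1) hdeg
  -- the Taylor coefficient of order `μ` of the leading form
  have htop : gT d h θ (d - μ) ≠ 0 := by
    intro h0
    have h1 : (gT d h θ (d - μ)).coeff μ = 0 := by rw [h0, coeff_zero]
    rw [gT_coeff, if_pos (by omega)] at h1
    have h2 : μ + (d - μ) = d := by omega
    rw [h2] at h1
    obtain ⟨Q, hQ⟩ := exists_eq_pow_rootMultiplicity_mul_and_not_dvd (h d) hne θ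
    rw [← hμ] at hQ
    have h3 : taylor θ (h d) = X ^ μ * taylor θ Q := by
      conv_lhs => rw [hQ.1]
      rw [taylor_mul, taylor_pow]
      simp [taylor_X, taylor_C]
    rw [h3, coeff_X_pow_mul', if_pos le_rfl, Nat.sub_self, taylor_coeff_zero] at h1
    exact hQ.2 (dvd_iff_isRoot.2 h1)
  set j0 := Nat.findGreatest (fun j => gT d h θ j ≠ 0) d with hj0
  have h1 : gT d h θ j0 ≠ 0 :=
    Nat.findGreatest_spec (P := fun j => gT d h θ j ≠ 0) (Nat.sub_le d μ) htop
  have h2 : d - μ ≤ j0 := Nat.le_findGreatest (Nat.sub_le d μ) htop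
  have h3 : j0 ≤ d := Nat.findGreatest_le d
  have h4 : ∀ j, j0 < j → j ≤ d → gT d h θ j = 0 := by
    intro j hj hjd
    by_contra h5
    exact Nat.findGreatest_is_greatest hj hjd h5
  have h5 : (gT d h θ j0).natDegree ≤ μ := by
    have := gT_natDegree_le (d := d) (h := h) θ j0
    omega
  obtain ⟨J, hJ⟩ : ∃ J, j0 = J + 1 := ⟨j0 - 1, by omega⟩
  rw [hJ] at h1 h3 h4 h5
  apply H.rg_strip hne hirr halg J h3 h4 h1 _ U
  calc (minpoly ℚ θ).natDegree * (gT d h θ (J + 1)).natDegree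
      ≤ (minpoly ℚ θ).natDegree * μ := Nat.mul_le_mul_left _ h5
    _ = μ * (minpoly ℚ θ).natDegree := Nat.mul_comm _ _
    _ < d := hdeg

end PP72
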