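import Pool.Agent.PP72.Final7
import Pool.Agent.PP72.Fin8
import Pool.Agent.PP72.Dbl6
import Pool.Agent.PP72.RgStrip
import Pool.Agent.PP72.RgForm

/-!
The structure of the leading form of a packing polynomial.
-/

open Polynomial Finset Filter

namespace PP72

variable {α : ℝ} {d : ℕ} {h : ℕ → ℝ[X]}

/-- the degree of an irrational algebraic number which is not quadratic -/
theorem three_le_natDegree {θ : ℝ} (hirr : Irrational θ) (halg : IsIntegral ℚ θ)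
    (hq : ¬ ∃ b c : ℚ, θ ^ 2 + b * θ + c = 0) : 3 ≤ (minpoly ℚ θ).natDegree := by
  have h0 : 0 < (minpoly ℚ θ).natDegree := minpoly.natDegree_pos halg
  have h1 : (minpoly ℚ θ).natDegree ≠ 1 := by
    rw [Ne, minpoly.natDegree_eq_one_iff]
    rintro ⟨r, hr⟩
    exact hirr ⟨r, hr⟩
  have h2 : (minpoly ℚ θ).natDegree ≠ 2 := by
    intro h2
    apply hq
    have hmon := minpoly.monic halg
    have h3 := minpoly.aeval ℚ θ
    rw [aeval_eq_sum_range, h2, Finset.sum_range_succ, Finset.sum_range_succ,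
      Finset.sum_range_succ, Finset.sum_range_zero] at h3
    have h4 : (minpoly ℚ θ).coeff 2 = 1 := by
      rw [← h2]
      exact hmon
    rw [h4] at h3
    refine ⟨(minpoly ℚ θ).coeff 1, (minpoly ℚ θ).coeff 0, ?_⟩
    simp only [Algebra.smul_def, eq_ratCast, Rat.cast_one, one_mul, pow_one, pow_zero, mul_one,
      zero_add] at h3
    linarith
  omega

/-- bounds on the strips, from the polynomial bounds -/
theorem Pk.log_strip (H : Pk α d h) {θ : ℝ}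
    (hpoly : ∀ U : ℝ, ∃ C M : ℕ, ∀ P ∈ Sec α, 0 < P.1 → |(P.2 : ℝ) - θ * P.1| ≤ U →
      (P.1 : ℝ) ≤ C * (1 + fv d h P) ^ M) :
    ∀ U η : ℝ, 0 < η → ∃ X0 : ℕ, ∀ P ∈ Sec α, X0 < P.1 → |(P.2 : ℝ) - θ * P.1| ≤ U →
      Real.log P.1 ^ 2 ≤ η * fv d h P := by
  intro U η hη
  obtain ⟨C, M, hCM⟩ := hpoly U
  obtain ⟨X0, hX0⟩ := log_of_poly C M hη
  exact ⟨X0, fun P hP hx hu => hX0 P.1 hx _ (H.fv_nonneg hP) (hCM P hP (by omega) hu)⟩

/-- simple and double irrational zeros, with logarithmic bounds on the strips -/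
theorem Pk.near_irr_log (n : ℕ) (hn : 1 ≤ n) (H : Pk α (n + 5) h) (hne : h (n + 5) ≠ 0)
    {θ : ℝ} (hirr : Irrational θ) (hθ0 : 0 < θ) (hθα : θ ≤ α) (hz : (h (n + 5)).eval θ = 0)
    (hμ : rootMultiplicity θ (h (n + 5)) ≤ 2) (hz1 : (h (n + 4)).eval θ = 0)
    (hlog : ∀ U η : ℝ, 0 < η → ∃ X0 : ℕ, ∀ P ∈ Sec α, X0 < P.1 → |(P.2 : ℝ) - θ * P.1| ≤ U →
      Real.log P.1 ^ 2 ≤ η * fv (n + 5) h P) :
    ∃ ε : ℝ, 0 < ε ∧ Thin (fv (n + 5) h) (Near α θ ε) := by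
  have hpos : 0 < rootMultiplicity θ (h (n + 5)) := (rootMultiplicity_pos hne).2 hz
  rcases (by omega : rootMultiplicity θ (h (n + 5)) = 1 ∨
    rootMultiplicity θ (h (n + 5)) = 2) with hμ1 | hμ2
  · have hθα' := H.simple_bd (by omega) hne hθ0 hθα hμ1
    subst hθα'
    rcases le_or_gt ((h (n + 3)).eval θ) 0 with h2 | h2
    · apply H.near_bd_log (n + 3) (by omega) hne hz hz1 (H.deriv_neg (by omega) hne hμ1) h2
      intro η hη
      set R := (h (n + 3)).eval θ / (derivative (h (n + 3 + 2))).eval θ + 1 with hR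
      obtain ⟨X0, hX0⟩ := hlog |R| η hη
      refine ⟨X0, fun P hP hx hw => hX0 P hP hx ?_⟩
      have hPpos : 0 < P.1 := by omega
      have hx1 : (1 : ℝ) ≤ P.1 := by exact_mod_cast hPpos
      have hy : (P.2 : ℝ) ≤ θ * P.1 := hP
      rw [abs_of_nonpos (by linarith)]
      have h3 : θ * P.1 - P.2 ≤ P.1 * (θ * P.1 - P.2) :=
        le_mul_of_one_le_left (by linarith) hx1
      have h4 := le_abs_self R
      linarith
    · exact Pk.bd_simple (n + 3) (by omega) H hne hμ1 (Or.inr ⟨hz1, h2⟩)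
  · exact H.near_double_log n hn hne hirr hθ0 hθα hz hμ2 hz1 hlog

/-- simple and double irrational zeros, with approximation properties -/
theorem Pk.near_irr_far (n : ℕ) (hn : 1 ≤ n) (H : Pk α (n + 5) h) (hne : h (n + 5) ≠ 0)
    {θ : ℝ} (hirr : Irrational θ) (hθ0 : 0 < θ) (hθα : θ ≤ α) (hz : (h (n + 5)).eval θ = 0)
    (hμ : rootMultiplicity θ (h (n + 5)) ≤ 2) (hz1 : (h (n + 4)).eval θ = 0)
    (hS : ∀ s t : ℝ, IsAlgebraic ℚ s → IsAlgebraic ℚ t → ∃ X0 : ℕ, ∀ x y : ℕ, X0 < x →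
      1 ≤ (x : ℝ) * (x * (y - θ * x - s) - t) ^ 4) :
    ∃ ε : ℝ, 0 < ε ∧ Thin (fv (n + 5) h) (Near α θ ε) := by
  have hpos : 0 < rootMultiplicity θ (h (n + 5)) := (rootMultiplicity_pos hne).2 hz
  rcases (by omega : rootMultiplicity θ (h (n + 5)) = 1 ∨
    rootMultiplicity θ (h (n + 5)) = 2) with hμ1 | hμ2
  · have hθα' := H.simple_bd (by omega) hne hθ0 hθα hμ1
    subst hθα'
    obtain ⟨X0, h3⟩ := far_of_prop (H.rho_alg hne hz (n + 3) (by omega)) hS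
    rcases le_or_gt ((h (n + 3)).eval θ) 0 with h2 | h2
    · exact H.near_bd_final (n + 3) (by omega) hne hz hz1
        (H.deriv_neg (by omega) hne hμ1) h2 X0 h3
    · exact Pk.bd_simple (n + 3) (by omega) H hne hμ1 (Or.inr ⟨hz1, h2⟩)
  · exact H.near_double n (by omega) hne hirr hθ0 hθα hz hμ2 hz1 hS

/-- the form of the conclusion -/
def Shape (α : ℝ) (d : ℕ) (h : ℕ → ℝ[X]) (θ : ℝ) : Prop :=
  (∃ (m : ℚ[X]) (c : ℚ), Irreducible m ∧ 3 ≤ m.natDegree ∧ c ≠ 0 ∧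
    h d = (C c * m ^ rootMultiplicity θ (h d)).map (algebraMap ℚ ℝ)) ∧
  (rootMultiplicity θ (h d) = 1 → θ = α ∧ h (d - 1) = 0 ∧ (h (d - 2)).eval α ≤ 0) ∧
  (∃ C : ℝ, ∀ X0 : ℕ, ∃ P ∈ Sec α, X0 < P.1 ∧ |(P.2 : ℝ) - θ * P.1| ≤ C ∧
    fv d h P ≤ C * Real.log P.1 ^ 2) ∧
  (∃ s t : ℝ, IsAlgebraic ℚ s ∧ IsAlgebraic ℚ t ∧ ∀ X0 : ℕ, ∃ x y : ℕ, X0 < x ∧
    (x : ℝ) * (x * (y - θ * x - s) - t) ^ 4 < 1)

/-- irrational zeros of order at most two, in degree at least six -/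
theorem Pk.near_or_shape (n : ℕ) (hn : 1 ≤ n) (H : Pk α (n + 5) h) (hne : h (n + 5) ≠ 0)
    {θ : ℝ} (hirr : Irrational θ) (hθ0 : 0 < θ) (hθα : θ ≤ α) (hz : (h (n + 5)).eval θ = 0)
    (hμ : rootMultiplicity θ (h (n + 5)) ≤ 2) (hz1 : (h (n + 4)).eval θ = 0) :
    (∃ ε : ℝ, 0 < ε ∧ Thin (fv (n + 5) h) (Near α θ ε)) ∨ Shape α (n + 5) h θ := by
  by_cases hq : ∃ b c : ℚ, θ ^ 2 + b * θ + c = 0
  · obtain ⟨b, c, hq⟩ := hq
    exact Or.inl (H.near_quad (by omega) hne hirr hq hθ0 hθα hz hμ)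
  have halg : IsIntegral ℚ θ := by
    apply IsAlgebraic.isIntegral
    obtain ⟨q, hq⟩ := H.rational (n + 5) (by simp)
    refine ⟨q, ?_, ?_⟩
    · rintro rfl
      apply hne
      rw [hq, Polynomial.map_zero]
    · rw [hq, eval_map_algebraMap] at hz
      exact hz
  have hk3 := three_le_natDegree hirr halg hq
  rcases lt_or_ge (rootMultiplicity θ (h (n + 5)) * (minpoly ℚ θ).natDegree) (n + 5)
    with hlt | hge
  · exact Or.inl (H.near_irr_log n hn hne hirr hθ0 hθα hz hμ hz1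
      (H.log_strip fun U => H.rg_strip' hne hirr hz hlt U))
  obtain ⟨hd, hmirr, c, hc, hform⟩ := H.form_eq hne hz hge
  have hshape1 : ∃ (m : ℚ[X]) (c : ℚ), Irreducible m ∧ 3 ≤ m.natDegree ∧ c ≠ 0 ∧
      h (n + 5) = (C c * m ^ rootMultiplicity θ (h (n + 5))).map (algebraMap ℚ ℝ) :=
    ⟨_, c, hmirr, hk3, hc, hform⟩
  by_cases hs2 : rootMultiplicity θ (h (n + 5)) = 1 → θ = α ∧ h (n + 5 - 1) = 0 ∧
      (h (n + 5 - 2)).eval α ≤ 0
  · by_cases hs3 : ∃ C : ℝ, ∀ X0 : ℕ, ∃ P ∈ Sec α, X0 < P.1 ∧ |(P.2 : ℝ) - θ * P.1| ≤ C ∧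
        fv (n + 5) h P ≤ C * Real.log P.1 ^ 2
    · by_cases hs4 : ∃ s t : ℝ, IsAlgebraic ℚ s ∧ IsAlgebraic ℚ t ∧ ∀ X0 : ℕ,
          ∃ x y : ℕ, X0 < x ∧ (x : ℝ) * (x * (y - θ * x - s) - t) ^ 4 < 1
      · exact Or.inr ⟨hshape1, hs2, hs3, hs4⟩
      · left
        push Not at hs4
        exact H.near_irr_far n hn hne hirr hθ0 hθα hz hμ hz1 hs4
    · left
      push Not at hs3
      apply H.near_irr_log n hn hne hirr hθ0 hθα hz hμ hz1
      intro U η hη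
      set C1 := max |U| (1 / η) with hC1
      obtain ⟨X0, hX0⟩ := hs3 C1
      refine ⟨X0, fun P hP hx hu => ?_⟩
      have h1 : |U| ≤ C1 := le_max_left _ _
      have h2 : 1 / η ≤ C1 := le_max_right _ _
      have h3 := hX0 P hP hx (hu.trans ((le_abs_self U).trans h1))
      have h4 : 1 / η * Real.log P.1 ^ 2 ≤ C1 * Real.log P.1 ^ 2 := by gcongr
      have h5 : 1 / η * Real.log P.1 ^ 2 ≤ fv (n + 5) h P := by linarith
      rw [one_div, inv_mul_eq_div, div_le_iff₀ hη] at h5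
      linarith
  · left
    push Not at hs2
    obtain ⟨hμ1, hs2⟩ := hs2
    have hθα' := H.simple_bd (by omega) hne hθ0 hθα hμ1
    subst hθα'
    have hzero : h (n + 5 - 1) = 0 := by
      apply H.second_zero (n + 5 - 1) (by omega) hz1
      rw [hμ1, one_mul] at hd
      omega
    exact Pk.bd_simple (n + 3) (by omega) H hne hμ1 (Or.inr ⟨hz1, hs2 rfl hzero⟩)

/-- low degree -/
theorem Pk.low_shape (H : Pk α d h) (hd3 : 3 ≤ d) (hd5 : d ≤ 5) (hne : h d ≠ 0) :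
    rootMultiplicity α (h d) = 1 ∧ (h d).eval α = 0 ∧ h (d - 1) = 0 ∧ Shape α d h α := by
  obtain ⟨⟨hk3, hkd⟩, hz, hz1, hle, hder, _, hfar⟩ := H.low_cond5 hd3 hd5 hne
  have hμ : rootMultiplicity α (h d) = 1 := by
    have h1 : 0 < rootMultiplicity α (h d) := (rootMultiplicity_pos hne).2 hz
    by_contra hμ
    obtain ⟨β, δ0, hq', _⟩ := H.exists_quad hd5 hne H.irr (by omega)
    have := minpoly_le_two hq'
    omega
  have hdeg : (minpoly ℚ α).natDegree = d := by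
    apply H.low_deg hd3 hd5 hne
    intro hlt _ _
    obtain ⟨C, M, hCM⟩ := H.rg_strip' hne H.irr hz (by rw [hμ, one_mul]; exact hlt) 1
    refine ⟨C, M, fun P hP hx hu => hCM P hP hx ?_⟩
    have hy : (P.2 : ℝ) ≤ α * P.1 := hP
    rw [abs_of_nonpos (by linarith)]
    linarith
  have hzero : h (d - 1) = 0 := H.second_zero (d - 1) (by omega) hz1 (by omega)
  obtain ⟨_, hmirr, c, hc, hform⟩ := H.form_eq hne hz (by rw [hμ, one_mul, hdeg])
  refine ⟨hμ, hz, hzero, ⟨_, c, hmirr, hk3, hc, hform⟩, fun _ => ⟨rfl, hzero, hle⟩, ?_, ?_⟩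
  · obtain ⟨K, rfl⟩ : ∃ K, d = K + 2 := ⟨d - 2, by omega⟩
    obtain ⟨C, hC0, hC⟩ := H.low_small K hd3 hd5 hne
    set R := (h K).eval α / (derivative (h (K + 2))).eval α + 1 with hR
    refine ⟨max C |R|, fun X0 => ?_⟩
    obtain ⟨x, y, hx, hy, hw, hF, _⟩ := hC X0
    refine ⟨(x, y), hy, hx, ?_, ?_⟩
    · have hPpos : 0 < x := by omega
      have hx1 : (1 : ℝ) ≤ x := by exact_mod_cast hPpos
      change |(y : ℝ) - α * x| ≤ max C |R|
      rw [abs_of_nonpos (by linarith)]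
      have h3 : α * x - y ≤ x * (α * x - y) := le_mul_of_one_le_left (by linarith) hx1
      have h4 := le_abs_self R
      have h5 := le_max_right C |R|
      linarith
    · refine hF.trans ?_
      change C * Real.log x ^ 2 ≤ max C |R| * Real.log x ^ 2
      gcongr
      exact le_max_left _ _
  · refine ⟨0, -((h (d - 2)).eval α / (derivative (h d)).eval α), isAlgebraic_zero,
      H.rho_alg hne hz (d - 2) (by omega), fun X0 => ?_⟩
    obtain ⟨x, y, hx, _, hlt⟩ := hfar X0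
    refine ⟨x, y, hx, ?_⟩
    have h2 : (x : ℝ) * (x * (y - α * x - 0) -
        -((h (d - 2)).eval α / (derivative (h d)).eval α)) ^ 4 =
        (x : ℝ) * (x * (α * x - y) - (h (d - 2)).eval α / (derivative (h d)).eval α) ^ 4 := by
      ring
    rw [h2]
    exact hlt

/-- **The structure theorem.** -/
theorem Pk.structure (H : Pk α d h) (hd3 : 3 ≤ d) (hne : h d ≠ 0) :
    ∃ θ ∈ Set.Icc 0 α, (h d).eval θ = 0 ∧ (h (d - 1)).eval θ = 0 ∧
      ((h (d - 2)).eval θ ≤ 0 ∨ (X - C θ) ^ (rootMultiplicity θ (h d) + 1) ∣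
        h (d - 1) ^ 2 - 4 * h d * h (d - 2)) ∧
      (0 ≤ (h (d - 2)).eval θ ∨ rootMultiplicity θ (h d) = 1) ∧
      (((∃ r : ℚ, θ = r) ∧ 6 ≤ rootMultiplicity θ (h d)) ∨
        (Irrational θ ∧ 3 ≤ rootMultiplicity θ (h d)) ∨
        (Irrational θ ∧ rootMultiplicity θ (h d) ≤ 2 ∧ Shape α d h θ)) := by
  rcases Nat.lt_or_ge d 6 with hd | hd
  · obtain ⟨hμ, hz, hzero, hS⟩ := H.low_shape hd3 (by omega) hne
    have h1 := hS
    obtain ⟨_, h2, _⟩ := h1
    obtain ⟨_, _, h3⟩ := h2 hμ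
    refine ⟨α, ⟨H.pos.le, le_rfl⟩, hz, by rw [hzero, eval_zero], Or.inl h3, Or.inr hμ,
      Or.inr (Or.inr ⟨H.irr, by omega, hS⟩)⟩
  · by_contra hcon
    push Not at hcon
    apply H.false_of_local hd3
    intro θ hθ hz
    obtain ⟨n, rfl⟩ : ∃ n, d = n + 5 := ⟨d - 5, by omega⟩
    have hK1 : n + 5 - 1 = n + 3 + 1 := by omega
    have hK2 : n + 5 - 2 = n + 3 := by omega
    rw [hK1, hK2] at hcon
    by_cases h1 : (h (n + 3 + 1)).eval θ = 0
    · by_cases hc : 0 < (h (n + 3)).eval θ ∧ ¬ (X - C θ) ^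
          (rootMultiplicity θ (h (n + 5)) + 1) ∣
          h (n + 3 + 1) ^ 2 - 4 * h (n + 5) * h (n + 3)
      · exact H.near_third (n + 3) (by omega) hne hθ hz h1 (Or.inl hc)
      by_cases hc' : (h (n + 3)).eval θ < 0 ∧ 2 ≤ rootMultiplicity θ (h (n + 5))
      · exact H.near_third (n + 3) (by omega) hne hθ hz h1 (Or.inr hc')
      have hpos : 0 < rootMultiplicity θ (h (n + 5)) := (rootMultiplicity_pos hne).2 hz
      have hcc : (h (n + 3)).eval θ ≤ 0 ∨ (X - C θ) ^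
          (rootMultiplicity θ (h (n + 5)) + 1) ∣
          h (n + 3 + 1) ^ 2 - 4 * h (n + 5) * h (n + 3) := by
        by_contra hx
        push Not at hx
        exact hc hx
      have hcc' : 0 ≤ (h (n + 3)).eval θ ∨ rootMultiplicity θ (h (n + 5)) = 1 := by
        by_contra hx
        push Not at hx
        exact hc' ⟨hx.1, by omega⟩
      obtain ⟨g1, g2, g3⟩ := hcon θ hθ hz h1 hcc hcc'
      by_cases hirr : Irrational θ
      · have h0 : 0 < θ := lt_of_le_of_ne hθ.1 (by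
          rintro rfl
          exact hirr ⟨0, by simp⟩)
        have hμ2 : rootMultiplicity θ (h (n + 5)) ≤ 2 := by
          have := g2 hirr
          omega
        rcases H.near_or_shape n (by omega) hne hirr h0 hθ.2 hz hμ2 h1 with h3 | h3
        · exact h3
        · exact absurd h3 (g3 hirr hμ2)
      · obtain ⟨r, hr⟩ : ∃ r : ℚ, (r : ℝ) = θ := by
          unfold Irrational at hirr
          push Not at hirr
          exact hirr
        have hμ5 : rootMultiplicity θ (h (n + 5)) ≤ 5 := by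
          have := g1 ⟨r, hr.symm⟩
          omega
        rw [← hr] at hθ hz hμ5 ⊢
        exact H.near_rat hd3 hne hθ hz hμ5
    · exact H.near_sub (n + 3) (by omega) θ
        (lt_of_le_of_ne (H.sub_nonneg (n + 3) hθ hz) (Ne.symm h1))

/-- **Degrees three, four and five.** -/
theorem low_degree9 {α : ℝ} (hα : 0 < α) (hirr : Irrational α) (F : MvPolynomial (Fin 2) ℝ)
    (hd3 : 3 ≤ F.totalDegree) (hd5 : F.totalDegree ≤ 5) (hF : IsPacking α F) :
    (minpoly ℚ α).natDegree = F.totalDegree ∧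
      (∃ c : ℚ, c ≠ 0 ∧
        formPoly F F.totalDegree = (C c * minpoly ℚ α).map (algebraMap ℚ ℝ)) ∧
      formPoly F (F.totalDegree - 1) = 0 ∧
      (formPoly F (F.totalDegree - 2)).eval α ≤ 0 ∧
      (derivative (formPoly F F.totalDegree)).eval α < 0 ∧
      ∃ ρ K : ℝ, ρ = (formPoly F (F.totalDegree - 2)).eval α /
          (derivative (formPoly F F.totalDegree)).eval α ∧
        ρ ∈ IntermediateField.adjoin ℚ {α} ∧
        (∀ ε : ℝ, 0 < ε → ∃ X0 : ℕ, ∀ x y : ℕ, X0 < x → (y : ℝ) ≤ α * x →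
          ρ - ε < x * (α * x - y)) ∧
        (∀ X0 : ℕ, ∃ x y : ℕ, X0 < x ∧ (y : ℝ) ≤ α * x ∧
          MvPolynomial.eval ![(x : ℝ), (y : ℝ)] F ≤ K * Real.log x ^ 2 ∧
          |x * (α * x - y) - ρ| ≤ K * Real.log x ^ 2 / x) := by
  have H := hF.pk hα hirr
  have hne := formPoly_lead_ne_zero F (by omega : 1 ≤ F.totalDegree)
  obtain ⟨_, hz, hz1, hle, hder, hinf, _⟩ := H.low_cond5 hd3 hd5 hne
  obtain ⟨hμ, _, hzero, _⟩ := H.low_shape hd3 hd5 hne
  have hdeg : (minpoly ℚ α).natDegree = F.totalDegree := by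
    apply H.low_deg hd3 hd5 hne
    intro hlt _ _
    obtain ⟨C, M, hCM⟩ := H.rg_strip' hne H.irr hz (by rw [hμ, one_mul]; exact hlt) 1
    refine ⟨C, M, fun P hP hx hu => hCM P hP hx ?_⟩
    have hy : (P.2 : ℝ) ≤ α * P.1 := hP
    rw [abs_of_nonpos (by linarith)]
    linarith
  obtain ⟨_, _, c, hc, hform⟩ := H.form_eq hne hz (by rw [hμ, one_mul, hdeg])
  rw [hμ, pow_one] at hform
  have hρ := H.rho_mem (F.totalDegree - 2) (by omega)
  obtain ⟨K, hK0, hK⟩ : ∃ K : ℝ, 0 ≤ K ∧ ∀ X0 : ℕ, ∃ x y : ℕ, X0 < x ∧ (y : ℝ) ≤ α * x ∧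
      x * (α * x - y) < (formPoly F (F.totalDegree - 2)).eval α /
        (derivative (formPoly F F.totalDegree)).eval α + 1 ∧
      fv F.totalDegree (formPoly F) (x, y) ≤ K * Real.log x ^ 2 ∧
      |(x : ℝ) * (α * x - y) - (formPoly F (F.totalDegree - 2)).eval α /
        (derivative (formPoly F F.totalDegree)).eval α| ≤ K * Real.log x ^ 2 / x := by
    obtain ⟨k, hk⟩ : ∃ k, F.totalDegree = k + 2 := ⟨F.totalDegree - 2, by omega⟩
    rw [hk] at H hne hd3 hd5 ⊢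
    exact H.low_small k hd3 hd5 hne
  refine ⟨hdeg, ⟨c, hc, hform⟩, hzero, hle, hder, _, K, rfl, hρ, hinf, fun X0 => ?_⟩
  obtain ⟨x, y, hx, hy, _, hF', hw⟩ := hK X0
  refine ⟨x, y, hx, hy, ?_, hw⟩
  have := ev_formPoly F x y
  rw [← this]
  exact hF'

end PP72
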