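import Pool.Agent.PP72.Side4

/-!
Quartics: rational directions of multiplicity four are thin.
-/

open Polynomial Finset Filter

set_option linter.unusedSimpArgs false
set_option linter.unusedTactic false
set_option linter.unusedVariables false

namespace PP72

variable {α : ℝ} {d : ℕ} {h : ℕ → ℝ[X]}

/-- thinness near a rational direction from thinness of the two sides -/
theorem Pk.near_of_sides (H : Pk α d h) (q p : ℕ) (hq : 0 < q) (hv : (q, p) ∈ Sec α)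
    (hup : ∃ E : ℝ, 0 < E ∧ ∃ U0 : ℝ, Thin (fv d h) {P | P ∈ Sec α ∧ 0 < P.1 ∧
      U0 ≤ (1 : ℝ) * ((P.2 : ℝ) - (p / q : ℝ) * P.1) ∧
      (1 : ℝ) * ((P.2 : ℝ) - (p / q : ℝ) * P.1) ≤ E * P.1})
    (hdown : 0 < p → ∃ E : ℝ, 0 < E ∧ ∃ U0 : ℝ, Thin (fv d h) {P | P ∈ Sec α ∧ 0 < P.1 ∧
      U0 ≤ (-1 : ℝ) * ((P.2 : ℝ) - (p / q : ℝ) * P.1) ∧
      (-1 : ℝ) * ((P.2 : ℝ) - (p / q : ℝ) * P.1) ≤ E * P.1}) :
    ∃ ε : ℝ, 0 < ε ∧ Thin (fv d h) (Near α (p / q : ℝ) ε) := by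
  have hq' : (0 : ℝ) < q := by exact_mod_cast hq
  set θ : ℝ := p / q with hθ
  have hdown' : ∃ E : ℝ, 0 < E ∧ ∃ U0 : ℝ, Thin (fv d h) {P | P ∈ Sec α ∧ 0 < P.1 ∧
      U0 ≤ (-1 : ℝ) * ((P.2 : ℝ) - θ * P.1) ∧
      (-1 : ℝ) * ((P.2 : ℝ) - θ * P.1) ≤ E * P.1} := by
    rcases Nat.eq_zero_or_pos p with h0 | hp
    · refine ⟨1, one_pos, 1, ?_⟩
      apply (thin_empty _).mono
      rintro P ⟨_, _, hP3, _⟩
      rw [hθ, h0] at hP3
      have : (0 : ℝ) ≤ P.2 := Nat.cast_nonneg _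
      push_cast at hP3
      rw [zero_div, zero_mul] at hP3
      linarith
    · exact hdown hp
  obtain ⟨E1, hE1, U1, h1⟩ := hup
  obtain ⟨E2, hE2, U2, h2⟩ := hdown'
  obtain ⟨K, hK⟩ := exists_nat_ge (q * max U1 U2)
  refine ⟨min E1 E2, by positivity, ?_⟩
  have hlines : Thin (fv d h) (⋃ k ∈ Finset.Icc (-(K : ℤ)) K,
      {P : ℕ × ℕ | P ∈ Sec α ∧ 0 < P.1 ∧ (P.2 : ℝ) - (p / q : ℝ) * P.1 = (k : ℝ) / q}) :=
    thin_biUnion _ _ fun k _ => H.thin_line q p hv hq _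
  refine Thin.mono ((h1.union h2).union hlines) ?_
  rintro P ⟨hP1, hP2, hP3⟩
  have hx : (0 : ℝ) < P.1 := by exact_mod_cast hP2
  have hu : |(P.2 : ℝ) - θ * P.1| < min E1 E2 * P.1 := by
    have e1 : (P.2 : ℝ) - θ * P.1 = ((P.2 : ℝ) / P.1 - θ) * P.1 := by field_simp
    rw [e1, abs_mul, abs_of_pos hx]
    exact mul_lt_mul_of_pos_right hP3 hx
  rw [abs_lt] at hu
  have hm1 : min E1 E2 * P.1 ≤ E1 * P.1 := by
    gcongr
    exact min_le_left _ _
  have hm2 : min E1 E2 * P.1 ≤ E2 * P.1 := by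
    gcongr
    exact min_le_right _ _
  by_cases c1 : U1 ≤ (P.2 : ℝ) - θ * P.1
  · left; left
    refine ⟨hP1, hP2, ?_, ?_⟩
    · rw [one_mul]
      exact c1
    · rw [one_mul]
      change (P.2 : ℝ) - θ * P.1 ≤ _
      linarith [hu.2]
  by_cases c2 : U2 ≤ -((P.2 : ℝ) - θ * P.1)
  · left; right
    refine ⟨hP1, hP2, ?_, ?_⟩
    · change U2 ≤ -1 * ((P.2 : ℝ) - θ * P.1)
      linarith
    · change -1 * ((P.2 : ℝ) - θ * P.1) ≤ _
      linarith [hu.1]
  right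
  push Not at c1 c2
  set k : ℤ := (q : ℤ) * P.2 - p * P.1 with hk
  have hkq : (P.2 : ℝ) - θ * P.1 = (k : ℝ) / q := by
    rw [hk, hθ]
    push_cast
    field_simp
  have hkK : k ∈ Finset.Icc (-(K : ℤ)) K := by
    rw [Finset.mem_Icc]
    rw [hkq, div_lt_iff₀ hq'] at c1
    rw [hkq, ← neg_div, div_lt_iff₀ hq'] at c2
    have h3 : (k : ℝ) ≤ K := by
      have := le_max_left U1 U2
      nlinarith
    have h4 : (-(k : ℝ)) ≤ K := by
      have := le_max_right U1 U2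
      nlinarith
    constructor
    · have : (-(K : ℤ) : ℝ) ≤ k := by
        push_cast
        linarith
      exact_mod_cast this
    · exact_mod_cast h3
  simp only [Set.mem_iUnion]
  exact ⟨k, hkK, hP1, hP2, hkq⟩

/-- the Taylor coefficients at a rational point are rational -/
theorem Pk.taylor_rational (H : Pk α d h) (r : ℚ) (k : ℕ) (hk : k ∈ range (d + 1)) (i : ℕ) :
    ∃ c : ℚ, (taylor (r : ℝ) (h k)).coeff i = c := by
  obtain ⟨P, hP⟩ := H.rational k hk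
  refine ⟨(taylor r P).coeff i, ?_⟩
  have h1 := map_taylor P r (algebraMap ℚ ℝ)
  have h2 : (algebraMap ℚ ℝ) r = (r : ℝ) := rfl
  rw [hP, ← h2, ← h1, coeff_map]
  rfl

theorem Pk.expand4 (H : Pk α 4 h) (hne : h 4 ≠ 0) (r : ℚ)
    (hμ : rootMultiplicity (r : ℝ) (h 4) = 4) (hpos : 0 ≤ (h 4).eval ((r : ℝ) + 1 * 0)) :
    ∃ A B C E F1 H1 γ J K L M : ℚ, (taylor (r : ℝ) (h 4)).coeff 4 = γ ∧
    ∀ x u : ℝ, ev 4 h x ((r : ℝ) * x + u) = Q4 A B C E F1 H1 γ J K L M x u := by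
  obtain ⟨Q, hQ1, hQ2, hQ3, hQ4⟩ := taylor_root (h 4) hne (r : ℝ)
  rw [hμ] at hQ3 hQ4
  obtain ⟨A, hA⟩ := H.taylor_rational r 3 (by simp) 0
  obtain ⟨B, hB⟩ := H.taylor_rational r 3 (by simp) 1
  obtain ⟨C, hC⟩ := H.taylor_rational r 2 (by simp) 0
  obtain ⟨E, hE⟩ := H.taylor_rational r 3 (by simp) 2
  obtain ⟨F1, hF1⟩ := H.taylor_rational r 2 (by simp) 1
  obtain ⟨H1, hH1⟩ := H.taylor_rational r 1 (by simp) 0
  obtain ⟨γ, hγ⟩ := H.taylor_rational r 4 (by simp) 4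
  obtain ⟨J, hJ⟩ := H.taylor_rational r 3 (by simp) 3
  obtain ⟨K, hK⟩ := H.taylor_rational r 2 (by simp) 2
  obtain ⟨L, hL⟩ := H.taylor_rational r 1 (by simp) 1
  obtain ⟨M, hM⟩ := H.taylor_rational r 0 (by simp) 0
  refine ⟨A, B, C, E, F1, H1, γ, J, K, L, M, hγ, ?_⟩
  intro x u
  rw [ev_taylor' H.deg]
  have z0 := hQ3 0 (by norm_num)
  have z1 := hQ3 1 (by norm_num)
  have z2 := hQ3 2 (by norm_num)
  have z3 := hQ3 3 (by norm_num)
  have g4 : (gT 4 h (r : ℝ) 4).eval u = 0 := by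
    unfold gT
    simp only [Nat.reduceAdd, Nat.reduceSub, Finset.sum_range_succ, Finset.sum_range_zero,
      eval_add, eval_mul, eval_C, eval_pow, eval_X, pow_zero, zero_add, eval_zero, mul_one]
    exact z0
  have g3 : (gT 4 h (r : ℝ) 3).eval u = A := by
    unfold gT
    simp only [Nat.reduceAdd, Nat.reduceSub, Finset.sum_range_succ, Finset.sum_range_zero,
      eval_add, eval_mul, eval_C, eval_pow, eval_X, pow_zero, zero_add, eval_zero, mul_one]
    rw [hA, z1]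
    ring
  have g2 : (gT 4 h (r : ℝ) 2).eval u = B * u + C := by
    unfold gT
    simp only [Nat.reduceAdd, Nat.reduceSub, Finset.sum_range_succ, Finset.sum_range_zero,
      eval_add, eval_mul, eval_C, eval_pow, eval_X, pow_zero, zero_add, eval_zero, mul_one]
    rw [hC, hB, z2]
    ring
  have g1 : (gT 4 h (r : ℝ) 1).eval u = E * u ^ 2 + F1 * u + H1 := by
    unfold gT
    simp only [Nat.reduceAdd, Nat.reduceSub, Finset.sum_range_succ, Finset.sum_range_zero,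
      eval_add, eval_mul, eval_C, eval_pow, eval_X, pow_zero, zero_add, eval_zero, mul_one]
    rw [hH1, hF1, hE, z3]
    ring
  have g0 : (gT 4 h (r : ℝ) 0).eval u = γ * u ^ 4 + J * u ^ 3 + K * u ^ 2 + L * u + M := by
    unfold gT
    simp only [Nat.reduceAdd, Nat.reduceSub, Finset.sum_range_succ, Finset.sum_range_zero,
      eval_add, eval_mul, eval_C, eval_pow, eval_X, pow_zero, zero_add, eval_zero, mul_one]
    rw [hM, hL, hK, hJ, hγ]
    ring
  simp only [Finset.sum_range_succ, Finset.sum_range_zero]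
  rw [g4, g3, g2, g1, g0]
  unfold Q4
  ring

/-- rational directions in which the leading form of a quartic vanishes to order four -/
theorem Pk.near_rational4 (H : Pk α 4 h) (hne : h 4 ≠ 0) (q p : ℕ) (hq : 0 < q)
    (hv : (q, p) ∈ Sec α) (hμ : rootMultiplicity (p / q : ℝ) (h 4) = 4) :
    ∃ ε : ℝ, 0 < ε ∧ Thin (fv 4 h) (Near α (p / q : ℝ) ε) := by
  have hq' : (0 : ℝ) < q := by exact_mod_cast hq
  have hθ0 : (0 : ℝ) ≤ p / q := by positivity
  have hθα : (p / q : ℝ) < α := by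
    have h1 : (p / q : ℝ) ≤ α := by
      have : (p : ℝ) ≤ α * q := hv
      rw [div_le_iff₀ hq']
      exact this
    refine lt_of_le_of_ne h1 ?_
    intro h2
    apply H.irr
    exact ⟨(p : ℚ) / q, by push_cast; rw [← h2]⟩
  have hnn := H.lead_nonneg (by omega)
  have er : (((p : ℚ) / q : ℚ) : ℝ) = (p / q : ℝ) := by push_cast; rfl
  obtain ⟨A, B, C, E, F1, H1, γ, J, K, L, M, hγ, hexp⟩ := H.expand4 hne ((p : ℚ) / q)
    (by rw [er]; exact hμ) (by
      rw [er, mul_zero, add_zero]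
      exact hnn _ ⟨hθ0, hθα.le⟩)
  rw [er] at hγ hexp
  have hγ0 : 0 < γ := by
    have h1 := taylor_sign (h 4) hne (p / q : ℝ) 1 (α - p / q) (Or.inl rfl) (by linarith) (by
      intro τ hτ1 hτ2
      apply hnn
      constructor <;> linarith)
    rw [hμ, hγ, one_pow, mul_one] at h1
    exact_mod_cast h1
  apply H.near_of_sides q p hq hv
  · -- above
    obtain ⟨r, hr1, hr2⟩ := exists_rat_btwn hθα
    have hr0 : (0 : ℝ) ≤ r := hθ0.trans hr1.le
    have h1 : ((r.num.toNat : ℕ) : ℤ) = r.num :=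
      Int.toNat_of_nonneg (Rat.num_nonneg.2 (by exact_mod_cast hr0))
    have h2 : (r : ℝ) = ((r.num.toNat : ℕ) : ℝ) / ((r.den : ℕ) : ℝ) := by
      have h3 : ((r.num.toNat : ℕ) : ℝ) = (r.num : ℝ) := by exact_mod_cast h1
      rw [h3]
      exact_mod_cast (Rat.num_div_den r).symm
    have hden : (0 : ℝ) < (r.den : ℝ) := by exact_mod_cast r.den_pos
    have := H.side4 q p hq hv A B C E F1 H1 γ J K L M hγ0 hexp 1 (Or.inl rfl) r.den r.num.toNat
      (by
        change ((r.num.toNat : ℕ) : ℝ) ≤ α * (r.den : ℝ)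
        rw [h2, div_lt_iff₀ hden] at hr2
        exact hr2.le) (((r.num.toNat : ℕ) : ℝ) - (p / q : ℝ) * r.den)
      (by
        rw [h2, lt_div_iff₀ hden] at hr1
        linarith) (by push_cast; ring)
    push_cast at this
    exact this
  · intro hp
    have hp' : (0 : ℝ) < p := by exact_mod_cast hp
    have := H.side4 q p hq hv A B C E F1 H1 γ J K L M hγ0 hexp (-1) (Or.inr ⟨rfl, hp⟩) 1 0
      (by
        change ((0 : ℕ) : ℝ) ≤ α * ((1 : ℕ) : ℝ)
        have := H.pos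
        push_cast
        linarith) (p / q : ℝ) (by positivity) (by push_cast; ring)
    push_cast at this
    exact this

end PP72
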