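import Pool.Agent.PP72.Double4
import Pool.Agent.PP72.Bridge
import Pool.Agent.PP72.Near4

/-!
Degrees three and four.
-/

open Polynomial Finset Filter

namespace PP72

variable {α : ℝ} {d : ℕ} {h : ℕ → ℝ[X]}

/-- an irrational zero in the interior of the sector is exactly double, in degree at most five -/
theorem Pk.mult_two (H : Pk α d h) (hd1 : 1 ≤ d) (hd5 : d ≤ 5) (hne : h d ≠ 0) {θ : ℝ}
    (hθ : Irrational θ) (h0 : 0 < θ) (hα : θ < α) (hz : (h d).eval θ = 0) :
    rootMultiplicity θ (h d) = 2 ∧ 4 ≤ d := by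
  have hpos : 0 < rootMultiplicity θ (h d) := (rootMultiplicity_pos hne).2 hz
  have hnn := H.lead_nonneg hd1
  have h1 := taylor_sign (h d) hne θ 1 (α - θ) (Or.inl rfl) (by linarith) (by
    intro τ hτ1 hτ2
    apply hnn
    constructor <;> linarith)
  have h2 := taylor_sign (h d) hne θ (-1) θ (Or.inr rfl) h0 (by
    intro τ hτ1 hτ2
    apply hnn
    constructor <;> linarith)
  set μ := rootMultiplicity θ (h d) with hμ
  have heven : Even μ := by
    by_contra hodd
    rw [Nat.not_even_iff_odd] at hodd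
    rw [hodd.neg_one_pow] at h2
    rw [one_pow] at h1
    linarith
  have h2μ : 2 ≤ μ := by
    obtain ⟨k, hk⟩ := heven
    omega
  obtain ⟨β, δ0, hq, s, hs, hfac⟩ := H.exists_quad hd5 hne hθ h2μ
  have hs0 : s ≠ 0 := by
    rintro rfl
    rw [mul_zero, Polynomial.map_zero] at hfac
    exact hne hfac
  -- `s(θ) ≠ 0`
  have hsθ : aeval θ s ≠ 0 := by
    have hsd : s.natDegree ≤ 1 := by omega
    intro hz'
    have h3 : s = C (s.coeff 0) + C (s.coeff 1) * X := by
      rw [add_comm]
      exact eq_X_add_C_of_natDegree_le_one hsd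
    rw [h3] at hz'
    simp only [map_add, map_mul, aeval_C, aeval_X, eq_ratCast] at hz'
    obtain ⟨h4, h5⟩ := lin1 hθ _ _ hz'
    apply hs0
    rw [h3, h4, h5]
    simp
  set D : ℝ := 2 * θ + β with hD
  have hDne : D ≠ 0 := irr_D_ne hθ β
  have h4 : (taylor θ (h d)).coeff 2 = D ^ 2 * aeval θ s := by
    have h5 : taylor θ (h d) = X ^ 2 * ((X + C D) ^ 2 * taylor θ (s.map (algebraMap ℚ ℝ))) := by
      rw [hfac, Polynomial.map_mul, taylor_mul, ← mul_assoc]
      congr 1
      apply Polynomial.funext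
      intro t
      rw [taylor_eval]
      simp only [Polynomial.map_pow, Polynomial.map_add, Polynomial.map_mul, map_X, map_C,
        eval_add, eval_mul, eval_C, eval_pow, eval_X, eq_ratCast]
      have e1 : (t + θ) ^ 2 + β * (t + θ) + δ0 = t ^ 2 + D * t + (θ ^ 2 + β * θ + δ0) := by
        rw [hD]
        ring
      rw [e1, hq]
      ring
    rw [h5, coeff_X_pow_mul', if_pos le_rfl, Nat.sub_self, coeff_zero_eq_eval_zero, eval_mul,
      taylor_eval, zero_add, eval_map_algebraMap]
    simp
  obtain ⟨Q, hQ1, hQ2, hQ3, hQ4⟩ := taylor_root (h d) hne θ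
  have hμ2 : μ ≤ 2 := by
    by_contra hcon
    push Not at hcon
    have h5 := hQ3 2 hcon
    rw [h4] at h5
    rcases mul_eq_zero.1 h5 with h6 | h6
    · exact absurd h6 (pow_ne_zero _ hDne)
    · exact hsθ h6
  refine ⟨by omega, ?_⟩
  -- degree at least four
  have h5 : (h d).natDegree = 4 + s.natDegree := by
    have hm : (X ^ 2 + C β * X + C δ0 : ℚ[X]).natDegree = 2 := by
      have h6 : (X ^ 2 + C β * X + C δ0 : ℚ[X]) = C 1 * X ^ 2 + C β * X + C δ0 := by simp
      rw [h6]
      exact natDegree_quadratic one_ne_zero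
    have hm0 : (X ^ 2 + C β * X + C δ0 : ℚ[X]) ≠ 0 := by
      intro h7
      rw [h7] at hm
      simp at hm
    rw [hfac, natDegree_map, natDegree_mul (pow_ne_zero _ hm0) hs0, natDegree_pow, hm]
  have h6 := H.deg d
  omega

/-- degrees three and four, when `α` is not a zero of the leading form -/
theorem Pk.false_low (H : Pk α d h) (hd3 : 3 ≤ d) (hd4 : d ≤ 4) (hne : h d ≠ 0)
    (hαz : (h d).eval α ≠ 0) : False := by
  apply H.false_of_local hd3
  intro θ hθ hz
  have hθα : θ < α := lt_of_le_of_ne hθ.2 (by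
    rintro rfl
    exact hαz hz)
  by_cases hirr : Irrational θ
  · have h0 : 0 < θ := lt_of_le_of_ne hθ.1 (by
      rintro rfl
      exact hirr ⟨0, by simp⟩)
    obtain ⟨hμ, hd⟩ := H.mult_two (by omega) (by omega) hne hirr h0 hθα hz
    obtain rfl : d = 4 := by omega
    exact H.near_double4 hne hirr h0 hθα hμ
  · obtain ⟨r, hr⟩ : ∃ r : ℚ, (r : ℝ) = θ := by
      unfold Irrational at hirr
      push Not at hirr
      exact hirr
    have hr0 : (0 : ℚ) ≤ r := by
      have := hθ.1
      rw [← hr] at this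
      exact_mod_cast this
    have h1 : ((r.num.toNat : ℕ) : ℤ) = r.num := Int.toNat_of_nonneg (Rat.num_nonneg.2 hr0)
    have h2 : (r : ℝ) = ((r.num.toNat : ℕ) : ℝ) / ((r.den : ℕ) : ℝ) := by
      have h3 : ((r.num.toNat : ℕ) : ℝ) = (r.num : ℝ) := by exact_mod_cast h1
      rw [h3]
      exact_mod_cast (Rat.num_div_den r).symm
    have hden : (0 : ℝ) < (r.den : ℝ) := by exact_mod_cast r.den_pos
    have hv : (r.den, r.num.toNat) ∈ Sec α := by
      change ((r.num.toNat : ℕ) : ℝ) ≤ α * (r.den : ℝ)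
      have := hθ.2
      rw [← hr, h2, div_le_iff₀ hden] at this
      exact this
    rw [← hr, h2] at hz ⊢
    have hpos := (rootMultiplicity_pos hne).2 hz
    have hle : rootMultiplicity ((r.num.toNat : ℕ) / (r.den : ℕ) : ℝ) (h d) ≤ d := by
      rw [← count_roots]
      exact ((Multiset.count_le_card _ _).trans (card_roots' _)).trans (H.deg d)
    by_cases h3 : rootMultiplicity ((r.num.toNat : ℕ) / (r.den : ℕ) : ℝ) (h d) ≤ 3
    · exact H.near_rational hd3 hne r.den r.num.toNat r.den_pos hv hpos h3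
    · obtain rfl : d = 4 := by omega
      exact H.near_rational4 hne r.den r.num.toNat r.den_pos hv (by omega)

/-- **Theorem B** (first form). -/
theorem no_cubic_quartic {α : ℝ} (hα : 0 < α) (F : MvPolynomial (Fin 2) ℝ)
    (hd3 : 3 ≤ F.totalDegree) (hd4 : F.totalDegree ≤ 4)
    (halg : ∀ p : ℚ[X], p ≠ 0 → p.natDegree ≤ F.totalDegree → aeval α p ≠ 0) :
    ¬ IsPacking α F := by
  intro hP
  have hirr : Irrational α := by
    rintro ⟨r, hr⟩
    apply halg (X - C r) (X_sub_C_ne_zero r) (by rw [natDegree_X_sub_C]; omega)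
    simp [← hr]
  have H := hP.pk hα hirr
  have hne := formPoly_lead_ne_zero F (by omega)
  apply H.false_low hd3 hd4 hne
  intro hz
  obtain ⟨P, hPm⟩ := H.rational F.totalDegree (by simp)
  have hP0 : P ≠ 0 := by
    rintro rfl
    apply hne
    rw [hPm, Polynomial.map_zero]
  apply halg P hP0
  · have := formPoly_natDegree F F.totalDegree
    rw [hPm, natDegree_map] at this
    exact this
  · rw [hPm, eval_map_algebraMap] at hz
    exact hz

end PP72
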