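import Pool.Agent.PP72.Side5
import Pool.Agent.PP72.Near4

/-!
Quintics: rational directions of multiplicity four or five.
-/

open Polynomial Finset Filter

namespace PP72

variable {α : ℝ} {d : ℕ} {h : ℕ → ℝ[X]}

theorem Pk.expand5 (H : Pk α 5 h) (r : ℚ)
    (hz : ∀ i < 4, (taylor (r : ℝ) (h 5)).coeff i = 0) (τ : ℤ) (hτ : (τ : ℝ) ^ 2 = 1) :
    ∃ c : ℕ × ℕ → ℚ, (c (1, 4) : ℝ) = (taylor (r : ℝ) (h 5)).coeff 4 ∧
      (c (0, 5) : ℝ) = (taylor (r : ℝ) (h 5)).coeff 5 * τ ∧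
      ∀ x U : ℝ, ev 5 h x ((r : ℝ) * x + τ * U) = G5 c x U := by
  have ht : ∀ k, ∀ i, k ∈ range 6 → ∃ t : ℚ, (taylor (r : ℝ) (h k)).coeff i = t :=
    fun k i hk => H.taylor_rational r k hk i
  choose! t ht using ht
  have hτ4 : (τ : ℝ) ^ 4 = 1 := by
    calc (τ : ℝ) ^ 4 = ((τ : ℝ) ^ 2) ^ 2 := by ring
      _ = 1 := by rw [hτ, one_pow]
  have hτ5 : (τ : ℝ) ^ 5 = τ := by
    calc (τ : ℝ) ^ 5 = (τ : ℝ) ^ 4 * τ := by ring
      _ = (τ : ℝ) := by rw [hτ4, one_mul]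
  have hcoe : ∀ k i, k ∈ range 6 → (taylor (r : ℝ) (h k)).coeff i = t k i := fun k i hk => ht k i hk
  refine ⟨fun P => t (P.2 + P.1) P.2 * τ ^ P.2, ?_, ?_, ?_⟩
  · push_cast
    rw [hcoe 5 4 (by simp), hτ4, mul_one]
  · push_cast
    rw [hcoe 5 5 (by simp), hτ5]
  intro x U
  rw [ev_taylor' H.deg, G5_eq]
  have z0 := hz 0 (by norm_num)
  have z1 := hz 1 (by norm_num)
  have z2 := hz 2 (by norm_num)
  have z3 := hz 3 (by norm_num)
  unfold gT
  simp only [Nat.reduceAdd, Nat.reduceSub, Finset.sum_range_succ, Finset.sum_range_zero,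
      eval_add, eval_mul, eval_C, eval_pow, eval_X, pow_zero, zero_add, mul_one,
      add_zero]
  rw [z0, z1, z2, z3]
  rw [hcoe 0 0 (by simp), hcoe 1 0 (by simp), hcoe 1 1 (by simp), hcoe 2 0 (by simp),
    hcoe 2 1 (by simp), hcoe 2 2 (by simp), hcoe 3 0 (by simp), hcoe 3 1 (by simp),
    hcoe 3 2 (by simp), hcoe 3 3 (by simp), hcoe 4 0 (by simp), hcoe 4 1 (by simp),
    hcoe 4 2 (by simp), hcoe 4 3 (by simp), hcoe 4 4 (by simp), hcoe 5 4 (by simp),
    hcoe 5 5 (by simp)]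
  push_cast
  ring

/-- rational directions in which the leading form of a quintic vanishes to order `4` or `5` -/
theorem Pk.near_rational5 (H : Pk α 5 h) (hne : h 5 ≠ 0) (q p : ℕ) (hq : 0 < q)
    (hv : (q, p) ∈ Sec α) (hμ : rootMultiplicity (p / q : ℝ) (h 5) = 4 ∨
      rootMultiplicity (p / q : ℝ) (h 5) = 5) :
    ∃ ε : ℝ, 0 < ε ∧ Thin (fv 5 h) (Near α (p / q : ℝ) ε) := by
  have hq' : (0 : ℝ) < q := by exact_mod_cast hq
  have hθ0 : (0 : ℝ) ≤ p / q := by positivity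
  have hθα : (p / q : ℝ) < α := by
    have h1 : (p / q : ℝ) ≤ α := by
      have : (p : ℝ) ≤ α * q := hv
      rw [div_le_iff₀ hq']
      exact this
    refine lt_of_le_of_ne h1 ?_
    intro h2
    apply H.irr
    exact ⟨(p : ℚ) / q, by push_cast; rw [← h2]⟩
  have hnn := H.lead_nonneg (by omega)
  have er : (((p : ℚ) / q : ℚ) : ℝ) = (p / q : ℝ) := by push_cast; rfl
  obtain ⟨Q, hQ1, hQ2, hQ3, hQ4⟩ := taylor_root (h 5) hne (p / q : ℝ)
  have hz : ∀ i < 4, (taylor (((p : ℚ) / q : ℚ) : ℝ) (h 5)).coeff i = 0 := by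
    intro i hi
    rw [er]
    apply hQ3
    rcases hμ with h1 | h1 <;> rw [h1] <;> omega
  -- one side
  have hside : ∀ τ : ℤ, (τ = 1 ∨ (τ = -1 ∧ 0 < p)) →
      (∃ a b : ℕ, (a, b) ∈ Sec α ∧ ∃ w : ℝ, 0 < w ∧ (b : ℝ) - (p / q : ℝ) * a = τ * w) →
      (∃ τ0 : ℝ, 0 < τ0 ∧ ∀ s, 0 < s → s ≤ τ0 → 0 ≤ (h 5).eval ((p / q : ℝ) + τ * s)) →
      SideThin α 5 h q p τ := by
    rintro τ hτ hcone ⟨τ0, hτ0, hs⟩
    have hτ1 : (τ : ℝ) = 1 ∨ (τ : ℝ) = -1 := by
      rcases hτ with h1 | ⟨h1, _⟩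
      · left
        rw [h1]
        norm_num
      · right
        rw [h1]
        norm_num
    have hτ2 : (τ : ℝ) ^ 2 = 1 := by
      rcases hτ1 with h1 | h1 <;> rw [h1] <;> norm_num
    obtain ⟨c, hc14, hc05, hexp⟩ := H.expand5 ((p : ℚ) / q) hz τ hτ2
    rw [er] at hc14 hc05 hexp
    have S : Side α 5 h q p τ (G5 c) := ⟨H, hq, hv, hτ, hexp, hcone⟩
    apply S.side5
    have hsign := taylor_sign (h 5) hne (p / q : ℝ) τ τ0 hτ1 hτ0 hs
    rcases hμ with h1 | h1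
    · left
      rw [h1] at hsign
      have e1 : (τ : ℝ) ^ 4 = 1 := by
        calc (τ : ℝ) ^ 4 = ((τ : ℝ) ^ 2) ^ 2 := by ring
          _ = 1 := by rw [hτ2, one_pow]
      rw [e1, mul_one, ← hc14] at hsign
      exact_mod_cast hsign
    · right
      constructor
      · have h2 := hQ3 4 (by rw [h1]; norm_num)
        rw [← hc14] at h2
        exact_mod_cast h2
      · rw [h1] at hsign
        have e1 : (τ : ℝ) ^ 5 = τ := by
          calc (τ : ℝ) ^ 5 = ((τ : ℝ) ^ 2) ^ 2 * τ := by ring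
            _ = (τ : ℝ) := by rw [hτ2]; ring
        rw [e1, ← hc05] at hsign
        exact_mod_cast hsign
  apply H.near_of_sides q p hq hv
  · -- above
    obtain ⟨r, hr1, hr2⟩ := exists_rat_btwn hθα
    have hr0 : (0 : ℝ) ≤ r := hθ0.trans hr1.le
    have h1 : ((r.num.toNat : ℕ) : ℤ) = r.num :=
      Int.toNat_of_nonneg (Rat.num_nonneg.2 (by exact_mod_cast hr0))
    have h2 : (r : ℝ) = ((r.num.toNat : ℕ) : ℝ) / ((r.den : ℕ) : ℝ) := by
      have h3 : ((r.num.toNat : ℕ) : ℝ) = (r.num : ℝ) := by exact_mod_cast h1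
      rw [h3]
      exact_mod_cast (Rat.num_div_den r).symm
    have hden : (0 : ℝ) < (r.den : ℝ) := by exact_mod_cast r.den_pos
    have := hside 1 (Or.inl rfl) ⟨r.den, r.num.toNat, (by
        change ((r.num.toNat : ℕ) : ℝ) ≤ α * (r.den : ℝ)
        rw [h2, div_lt_iff₀ hden] at hr2
        exact hr2.le), ((r.num.toNat : ℕ) : ℝ) - (p / q : ℝ) * r.den,
      (by
        rw [h2, lt_div_iff₀ hden] at hr1
        linarith), (by push_cast; ring)⟩ ⟨α - p / q, by linarith, by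
        intro s hs1 hs2
        apply hnn
        push_cast
        constructor <;> linarith⟩
    unfold SideThin at this
    push_cast at this
    exact this
  · intro hp
    have hp' : (0 : ℝ) < p := by exact_mod_cast hp
    have hθ : (0 : ℝ) < p / q := by positivity
    have := hside (-1) (Or.inr ⟨rfl, hp⟩) ⟨1, 0, (by
        change ((0 : ℕ) : ℝ) ≤ α * ((1 : ℕ) : ℝ)
        have := H.pos
        push_cast
        linarith), (p / q : ℝ), hθ, (by push_cast; ring)⟩ ⟨p / q, hθ, by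
        intro s hs1 hs2
        apply hnn
        push_cast
        constructor <;> linarith⟩
    unfold SideThin at this
    push_cast at this
    exact this

end PP72
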