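import Pool.Agent.PP72.Double4
import Pool.Agent.PP72.Boundary
import Pool.Agent.PP72.Near5
import Pool.Agent.PP72.Low

/-!
Quadratic irrational directions in general, and the theorems.
-/

open Polynomial Finset Filter

namespace PP72

variable {α : ℝ} {d : ℕ} {h : ℕ → ℝ[X]}

theorem gT_double (n : ℕ) {θ : ℝ}
    (hQ3 : ∀ i < 2, (taylor θ (h (n + 2 + 2))).coeff i = 0) :
    (∀ u, (gT (n + 2 + 2) h θ (n + 2 + 2)).eval u = 0) ∧
    (∀ u, (gT (n + 2 + 2) h θ (n + 2 + 1)).eval u = (h (n + 2 + 1)).eval θ) ∧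
    (∀ u, (gT (n + 2 + 2) h θ (n + 2)).eval u = (taylor θ (h (n + 2 + 2))).coeff 2 * u ^ 2 +
      (taylor θ (h (n + 2 + 1))).coeff 1 * u + (h (n + 2)).eval θ) := by
  have hgd : ∀ j, (gT (n + 2 + 2) h θ j).natDegree ≤ n + 2 + 2 - j := fun j => gT_natDegree_le θ j
  refine ⟨?_, ?_, ?_⟩
  · intro u
    have h1 : (gT (n + 2 + 2) h θ (n + 2 + 2)).natDegree ≤ 0 := by
      have := hgd (n + 2 + 2)
      omega
    rw [eq_C_of_natDegree_le_zero h1, eval_C, gT_coeff, if_pos (by omega), zero_add]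
    exact hQ3 0 (by norm_num)
  · intro u
    have h1 : (gT (n + 2 + 2) h θ (n + 2 + 1)).natDegree < 2 := by
      have := hgd (n + 2 + 1)
      omega
    rw [Polynomial.eval_eq_sum_range' h1]
    simp only [Finset.sum_range_succ, Finset.sum_range_zero, pow_zero, pow_one]
    rw [gT_coeff, gT_coeff, if_pos (by omega), if_pos (by omega)]
    have e1 : 1 + (n + 2 + 1) = n + 2 + 2 := by ring
    have e0 : 0 + (n + 2 + 1) = n + 2 + 1 := by ring
    rw [e0, e1, hQ3 1 (by norm_num), taylor_coeff_zero]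
    ring
  · intro u
    have h1 : (gT (n + 2 + 2) h θ (n + 2)).natDegree < 3 := by
      have := hgd (n + 2)
      omega
    rw [Polynomial.eval_eq_sum_range' h1]
    simp only [Finset.sum_range_succ, Finset.sum_range_zero, pow_zero, pow_one]
    rw [gT_coeff, gT_coeff, gT_coeff, if_pos (by omega), if_pos (by omega), if_pos (by omega)]
    have e0 : 0 + (n + 2) = n + 2 := by ring
    have e1 : 1 + (n + 2) = n + 2 + 1 := by ring
    have e2 : 2 + (n + 2) = n + 2 + 2 := by ring
    rw [e0, e1, e2, taylor_coeff_zero]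
    ring

/-- an irrational double zero forces degree at least four -/
theorem Pk.four_le (H : Pk α d h) (hne : h d ≠ 0) {θ : ℝ} (hθ : Irrational θ)
    (hμ : 2 ≤ rootMultiplicity θ (h d)) : 4 ≤ d := by
  obtain ⟨P, hP⟩ := H.rational d (by simp)
  obtain ⟨Q, hQ1, hQ2, hQ3, hQ4⟩ := taylor_root (h d) hne θ
  have hP0 : P ≠ 0 := by
    rintro rfl
    apply hne
    rw [hP, Polynomial.map_zero]
  have h0 : aeval θ P = 0 := by
    have := hQ3 0 (by omega)
    rw [taylor_coeff_zero, hP, eval_map_algebraMap] at this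
    exact this
  have h1 : aeval θ (derivative P) = 0 := by
    have := hQ3 1 (by omega)
    rw [taylor_coeff_one, hP, derivative_map, eval_map_algebraMap] at this
    exact this
  obtain ⟨hdvd, hdeg, hmon⟩ := minpoly_sq_dvd P hP0 hθ h0 h1
  have h2 := natDegree_le_of_dvd hdvd hP0
  rw [natDegree_pow] at h2
  have h3 := H.deg d
  rw [hP, natDegree_map] at h3
  omega

/-- an irrational zero has order at most two, in degree at most five -/
theorem Pk.mult_le_two (H : Pk α d h) (hd5 : d ≤ 5) (hne : h d ≠ 0) {θ : ℝ}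
    (hθ : Irrational θ) : rootMultiplicity θ (h d) ≤ 2 := by
  set μ := rootMultiplicity θ (h d) with hμ
  by_contra hcon
  push Not at hcon
  obtain ⟨β, δ0, hq, s, hs, hfac⟩ := H.exists_quad hd5 hne hθ (by omega)
  have hs0 : s ≠ 0 := by
    rintro rfl
    rw [mul_zero, Polynomial.map_zero] at hfac
    exact hne hfac
  have hsθ : aeval θ s ≠ 0 := by
    have hsd : s.natDegree ≤ 1 := by omega
    intro hz'
    have h3 : s = C (s.coeff 0) + C (s.coeff 1) * X := by
      rw [add_comm]
      exact eq_X_add_C_of_natDegree_le_one hsd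
    rw [h3] at hz'
    simp only [map_add, map_mul, aeval_C, aeval_X, eq_ratCast] at hz'
    obtain ⟨h4, h5⟩ := lin1 hθ _ _ hz'
    apply hs0
    rw [h3, h4, h5]
    simp
  set D : ℝ := 2 * θ + β with hD
  have hDne : D ≠ 0 := irr_D_ne hθ β
  have h4 : (taylor θ (h d)).coeff 2 = D ^ 2 * aeval θ s := by
    have h5 : taylor θ (h d) = X ^ 2 * ((X + C D) ^ 2 * taylor θ (s.map (algebraMap ℚ ℝ))) := by
      rw [hfac, Polynomial.map_mul, taylor_mul, ← mul_assoc]
      congr 1
      apply Polynomial.funext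
      intro t
      rw [taylor_eval]
      simp only [Polynomial.map_pow, Polynomial.map_add, Polynomial.map_mul, map_X, map_C,
        eval_add, eval_mul, eval_C, eval_pow, eval_X, eq_ratCast]
      have e1 : (t + θ) ^ 2 + β * (t + θ) + δ0 = t ^ 2 + D * t + (θ ^ 2 + β * θ + δ0) := by
        rw [hD]
        ring
      rw [e1, hq]
      ring
    rw [h5, coeff_X_pow_mul', if_pos le_rfl, Nat.sub_self, coeff_zero_eq_eval_zero, eval_mul,
      taylor_eval, zero_add, eval_map_algebraMap]
    simp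
  obtain ⟨Q, hQ1, hQ2, hQ3, hQ4⟩ := taylor_root (h d) hne θ
  have h5 := hQ3 2 hcon
  rw [h4] at h5
  rcases mul_eq_zero.1 h5 with h6 | h6
  · exact absurd h6 (pow_ne_zero _ hDne)
  · exact hsθ h6

/-- **Quadratic irrational directions**, zeros of order at most two. -/
theorem Pk.near_quad (H : Pk α d h) (hd3 : 3 ≤ d) (hne : h d ≠ 0) {θ : ℝ} (hθ : Irrational θ)
    {β δ0 : ℚ} (hq : θ ^ 2 + β * θ + δ0 = 0) (h0 : 0 < θ) (hα : θ ≤ α) (hz : (h d).eval θ = 0)
    (hμ : rootMultiplicity θ (h d) ≤ 2) :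
    ∃ ε : ℝ, 0 < ε ∧ Thin (fv d h) (Near α θ ε) := by
  have hpos : 0 < rootMultiplicity θ (h d) := (rootMultiplicity_pos hne).2 hz
  -- the case of order two, given the first reduction
  have hsecond : ∀ n : ℕ, d = n + 2 + 2 → rootMultiplicity θ (h d) = 2 →
      (∀ u0 : ℝ, (u0 ≤ 0 ∨ θ < α) → ∀ X0 : ℕ, ∃ P ∈ Sec α, X0 < P.1 ∧
        (P.1 : ℝ) * |(P.2 : ℝ) - θ * P.1 - u0| ≤ 11) →
      (h (n + 2 + 1)).eval θ = 0 → ∀ a u0 : ℝ, 0 < a → (u0 ≤ 0 ∨ θ < α) →
      (taylor θ (h (n + 2 + 2))).coeff 2 = a →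
      (taylor θ (h (n + 2 + 1))).coeff 1 = -2 * a * u0 → (h (n + 2)).eval θ = a * u0 ^ 2 →
      ∃ ε : ℝ, 0 < ε ∧ Thin (fv d h) (Near α θ ε) := by
    rintro n rfl hμ2 hnear hA a u0 ha hu0 ha2 hb1 he
    rcases Nat.eq_zero_or_pos n with hn | hn
    · subst hn
      exact H.double4_core hne hθ hμ2 hA a u0 ha ha2 hb1 he (hnear u0 hu0)
    · obtain ⟨Q, hQ1, hQ2, hQ3, hQ4⟩ := taylor_root (h (n + 2 + 2)) hne θ
      rw [hμ2] at hQ3
      obtain ⟨g2, g1, g0⟩ := gT_double n hQ3
      apply H.quad_core n hn hθ hq a u0 ha _ g2 _ _ (hnear u0 hu0)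
      · -- `u₀ ∈ ℚ(θ)`
        have e1 : u0 = -((taylor θ (h (n + 2 + 1))).coeff 1 /
            (((2 : ℚ) : ℝ) * (taylor θ (h (n + 2 + 2))).coeff 2)) := by
          rw [ha2, hb1]
          push_cast
          field_simp
        rw [e1]
        apply QT.neg
        apply QT.div hθ hq (H.taylor_QT hq _ (by simp) _)
        exact (QT.rat θ 2).mul hq (H.taylor_QT hq _ (by simp) _)
      · intro u
        rw [g1, hA]
      · intro u
        rw [g0, ha2, hb1, he]
        ring
  rcases hα.lt_or_eq with hlt | heq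
  · -- interior
    have hnn := H.lead_nonneg (by omega)
    have h1 := taylor_sign (h d) hne θ 1 (α - θ) (Or.inl rfl) (by linarith) (by
      intro τ hτ1 hτ2
      apply hnn
      constructor <;> linarith)
    have h2 := taylor_sign (h d) hne θ (-1) θ (Or.inr rfl) h0 (by
      intro τ hτ1 hτ2
      apply hnn
      constructor <;> linarith)
    have hμ2 : rootMultiplicity θ (h d) = 2 := by
      have h3 : rootMultiplicity θ (h d) ≠ 1 := by
        intro h3
        rw [h3] at h1 h2
        norm_num at h1 h2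
        linarith
      omega
    have h4 := H.four_le hne hθ hμ2.ge
    obtain ⟨n, rfl⟩ : ∃ n, d = n + 2 + 2 := ⟨d - 4, by omega⟩
    rcases H.double_or (n + 2) (by omega) hne hθ h0 hlt hμ2 with hthin |
      ⟨hA, a, u0, ha, ha2, hb1, he⟩
    · exact hthin
    · refine hsecond n rfl hμ2 ?_ hA a u0 ha (Or.inr hlt) ha2 hb1 he
      intro u0 _ X0
      obtain ⟨P, hP1, hP2, hP3⟩ := exists_near hθ h0 hlt u0 X0
      exact ⟨P, hP1, hP2, hP3.trans (by norm_num)⟩
  · -- boundary
    subst heq
    rcases (by omega : rootMultiplicity θ (h d) = 1 ∨ rootMultiplicity θ (h d) = 2) with h1 | h2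
    · obtain ⟨m, rfl⟩ : ∃ m, d = m + 1 + 1 := ⟨d - 2, by omega⟩
      exact H.bd1 m (by omega) hne hq h1
    · have h4 := H.four_le hne hθ h2.ge
      obtain ⟨n, rfl⟩ : ∃ n, d = n + 2 + 2 := ⟨d - 4, by omega⟩
      rcases H.bd2 n hne hq h2 with hthin | ⟨hA, a, u0, ha, hu0, ha2, hb1, he⟩
      · exact hthin
      · refine hsecond n rfl h2 ?_ hA a u0 ha (Or.inl hu0) ha2 hb1 he
        intro u0 hu0 X0
        rcases hu0 with h5 | h5
        · exact exists_near_bd hθ h0 u0 h5 X0
        · exact absurd h5 (lt_irrefl _)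

/-- **General degree.** -/
theorem general_degree2 {α : ℝ} (hα : 0 < α) (hirr : Irrational α) (F : MvPolynomial (Fin 2) ℝ)
    (hd : 3 ≤ F.totalDegree)
    (hroots : ∀ θ ∈ Set.Icc 0 α, (formPoly F F.totalDegree).eval θ = 0 →
      ((∃ r : ℚ, θ = r) ∧ rootMultiplicity θ (formPoly F F.totalDegree) ≤ 3) ∨
      ((∃ b c : ℚ, θ ^ 2 + b * θ + c = 0) ∧
        rootMultiplicity θ (formPoly F F.totalDegree) ≤ 2)) :
    ¬ IsPacking α F := by
  intro hP
  have H := hP.pk hα hirr
  have hne := formPoly_lead_ne_zero F (by omega)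
  apply H.false_of_local hd
  intro θ hθ h0
  by_cases hθr : ∃ r : ℚ, θ = r
  · have hμ : rootMultiplicity θ (formPoly F F.totalDegree) ≤ 3 := by
      rcases hroots θ hθ h0 with h1 | h1
      · exact h1.2
      · exact h1.2.trans (by norm_num)
    obtain ⟨r, hr⟩ := hθr
    have hr0 : (0 : ℚ) ≤ r := by
      have := hθ.1
      rw [hr] at this
      exact_mod_cast this
    have hrα : (r : ℝ) ≤ α := by
      rw [← hr]
      exact hθ.2
    obtain ⟨hv, h2⟩ := rat_slope hr0 hrα
    rw [hr, h2] at h0 hμ ⊢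
    apply H.near_rational hd hne r.den r.num.toNat r.den_pos hv _ hμ
    exact (rootMultiplicity_pos hne).2 h0
  · have hθi : Irrational θ := by
      rintro ⟨r, hr⟩
      exact hθr ⟨r, hr.symm⟩
    rcases hroots θ hθ h0 with h1 | ⟨⟨b, c, hq⟩, hμ⟩
    · exact absurd h1.1 hθr
    · have hpos : 0 < θ := lt_of_le_of_ne hθ.1 (by
        rintro rfl
        exact hθi ⟨0, by simp⟩)
      exact H.near_quad hd hne hθi hq hpos hθ.2 h0 hμ

/-- degrees three, four and five -/
theorem Pk.false_five (H : Pk α d h) (hd3 : 3 ≤ d) (hd5 : d ≤ 5) (hne : h d ≠ 0)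
    (hα : (minpoly ℚ α).natDegree < 3 ∨ d < (minpoly ℚ α).natDegree) : False := by
  apply H.false_of_local hd3
  intro θ hθ hz
  by_cases hirr : Irrational θ
  · have h0 : 0 < θ := lt_of_le_of_ne hθ.1 (by
      rintro rfl
      exact hirr ⟨0, by simp⟩)
    have hle2 := H.mult_le_two hd5 hne hirr
    rcases hθ.2.lt_or_eq with hlt | heq
    · obtain ⟨hμ, hd⟩ := H.mult_two (by omega) hd5 hne hirr h0 hlt hz
      obtain ⟨β, δ0, hq, _⟩ := H.exists_quad hd5 hne hirr hμ.ge
      exact H.near_quad hd3 hne hirr hq h0 hθ.2 hz hle2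
    · subst heq
      -- `α` is a quadratic irrational
      obtain ⟨P, hP⟩ := H.rational d (by simp)
      have hP0 : P ≠ 0 := by
        rintro rfl
        apply hne
        rw [hP, Polynomial.map_zero]
      have hPz : aeval θ P = 0 := by
        rw [hP, eval_map_algebraMap] at hz
        exact hz
      have halg : IsAlgebraic ℚ θ := ⟨P, hP0, hPz⟩
      have hint : IsIntegral ℚ θ := halg.isIntegral
      have hmon := minpoly.monic hint
      have hdvd := minpoly.dvd ℚ θ hPz
      have hdeg1 := natDegree_le_of_dvd hdvd hP0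
      have hdeg2 : P.natDegree ≤ d := by
        have := H.deg d
        rw [hP, natDegree_map] at this
        exact this
      have hdeg3 : 2 ≤ (minpoly ℚ θ).natDegree := by
        rw [minpoly.two_le_natDegree_iff hint]
        rintro ⟨r, hr⟩
        exact hirr ⟨r, hr⟩
      have hdeg : (minpoly ℚ θ).natDegree = 2 := by omega
      set m := minpoly ℚ θ with hm
      have hq : θ ^ 2 + (m.coeff 1 : ℝ) * θ + m.coeff 0 = 0 := by
        have h2 := hmon.as_sum
        rw [hdeg] at h2
        simp only [Finset.sum_range_succ, Finset.sum_range_zero, pow_zero, pow_one, mul_one,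
          zero_add] at h2
        have h3 : aeval θ m = 0 := minpoly.aeval ℚ θ
        rw [h2] at h3
        simp only [map_add, map_mul, map_pow, aeval_X, aeval_C, eq_ratCast] at h3
        linarith
      exact H.near_quad hd3 hne hirr hq h0 le_rfl hz hle2
  · obtain ⟨r, hr⟩ : ∃ r : ℚ, (r : ℝ) = θ := by
      unfold Irrational at hirr
      push Not at hirr
      exact hirr
    have hr0 : (0 : ℚ) ≤ r := by
      have := hθ.1
      rw [← hr] at this
      exact_mod_cast this
    have hrα : (r : ℝ) ≤ α := by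
      rw [hr]
      exact hθ.2
    obtain ⟨hv, h2⟩ := rat_slope hr0 hrα
    rw [← hr, h2] at hz ⊢
    have hpos := (rootMultiplicity_pos hne).2 hz
    have hle : rootMultiplicity ((r.num.toNat : ℕ) / (r.den : ℕ) : ℝ) (h d) ≤ d := by
      rw [← count_roots]
      exact ((Multiset.count_le_card _ _).trans (card_roots' _)).trans (H.deg d)
    by_cases h3 : rootMultiplicity ((r.num.toNat : ℕ) / (r.den : ℕ) : ℝ) (h d) ≤ 3
    · exact H.near_rational hd3 hne r.den r.num.toNat r.den_pos hv hpos h3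
    · obtain rfl | rfl : d = 4 ∨ d = 5 := by omega
      · exact H.near_rational4 hne r.den r.num.toNat r.den_pos hv (by omega)
      · exact H.near_rational5 hne r.den r.num.toNat r.den_pos hv (by omega)

/-- **Degrees three, four and five.** -/
theorem no_low_degree {α : ℝ} (hα : 0 < α) (hirr : Irrational α) (F : MvPolynomial (Fin 2) ℝ)
    (hd3 : 3 ≤ F.totalDegree) (hd5 : F.totalDegree ≤ 5)
    (halg : (minpoly ℚ α).natDegree < 3 ∨ F.totalDegree < (minpoly ℚ α).natDegree) :
    ¬ IsPacking α F := fun hP =>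
  (hP.pk hα hirr).false_five hd3 hd5 (formPoly_lead_ne_zero F (by omega)) halg

/-- the same, with the hypothesis on `α` spelled out -/
theorem no_low_degree' {α : ℝ} (hα : 0 < α) (hirr : Irrational α) (F : MvPolynomial (Fin 2) ℝ)
    (hd3 : 3 ≤ F.totalDegree) (hd5 : F.totalDegree ≤ 5)
    (halg : (∃ b c : ℚ, α ^ 2 + b * α + c = 0) ∨
      ∀ p : ℚ[X], p ≠ 0 → p.natDegree ≤ F.totalDegree → aeval α p ≠ 0) :
    ¬ IsPacking α F := by
  apply no_low_degree hα hirr F hd3 hd5
  rcases halg with ⟨b, c, hq⟩ | hp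
  · left
    have h1 : aeval α (X ^ 2 + C b * X + C c : ℚ[X]) = 0 := by
      simp only [map_add, map_mul, map_pow, aeval_X, aeval_C, eq_ratCast]
      exact hq
    have hdeg : (X ^ 2 + C b * X + C c : ℚ[X]).natDegree = 2 := by
      compute_degree!
    have hne : (X ^ 2 + C b * X + C c : ℚ[X]) ≠ 0 := by
      intro h2
      rw [h2] at hdeg
      simp at hdeg
    have h2 := natDegree_le_of_dvd (minpoly.dvd ℚ α h1) hne
    omega
  · by_cases hint : IsIntegral ℚ α
    · right
      by_contra hcon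
      push Not at hcon
      exact hp (minpoly ℚ α) (minpoly.ne_zero hint) hcon (minpoly.aeval ℚ α)
    · left
      rw [minpoly.eq_zero hint, natDegree_zero]
      norm_num

end PP72
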