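import Pool.Agent.PP72.Sub
import Pool.Agent.PP72.Gen8
import Pool.Agent.PP72.NearQuad

/-!
The general criterion and the degrees three, four and five.
-/

open Polynomial Finset Filter

namespace PP72

variable {α : ℝ} {d : ℕ} {h : ℕ → ℝ[X]}

/-- rational directions of order at most five -/
theorem Pk.near_rat (H : Pk α d h) (hd3 : 3 ≤ d) (hne : h d ≠ 0) {r : ℚ}
    (hθ : (r : ℝ) ∈ Set.Icc 0 α) (hz : (h d).eval (r : ℝ) = 0)
    (hμ : rootMultiplicity (r : ℝ) (h d) ≤ 5) :
    ∃ ε : ℝ, 0 < ε ∧ Thin (fv d h) (Near α r ε) := by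
  have hr0 : (0 : ℚ) ≤ r := by exact_mod_cast hθ.1
  obtain ⟨hv, h2⟩ := rat_slope hr0 hθ.2
  rw [h2] at hz hμ ⊢
  have hpos := (rootMultiplicity_pos hne).2 hz
  have hle : rootMultiplicity ((r.num.toNat : ℕ) / (r.den : ℕ) : ℝ) (h d) ≤ d := by
    rw [← count_roots]
    exact ((Multiset.count_le_card _ _).trans (card_roots' _)).trans (H.deg d)
  by_cases h3 : rootMultiplicity ((r.num.toNat : ℕ) / (r.den : ℕ) : ℝ) (h d) ≤ 3
  · exact H.near_rational hd3 hne r.den r.num.toNat r.den_pos hv hpos h3
  · rcases Nat.lt_or_ge d 5 with hd | hd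
    · obtain rfl : d = 4 := by omega
      exact H.near_rational4 hne r.den r.num.toNat r.den_pos hv (by omega)
    · obtain ⟨m, rfl⟩ : ∃ m, d = m + 5 := ⟨d - 5, by omega⟩
      exact H.near_rational_gen hne r.den r.num.toNat r.den_pos hv (by omega)

/-- **The general criterion.** -/
theorem Pk.false_common (H : Pk α d h) (hd3 : 3 ≤ d) (hne : h d ≠ 0)
    (hroots : ∀ θ ∈ Set.Icc 0 α, (h d).eval θ = 0 → (h (d - 1)).eval θ = 0 →
      ((∃ r : ℚ, θ = r) ∧ rootMultiplicity θ (h d) ≤ 5) ∨
      ((∃ b c : ℚ, θ ^ 2 + b * θ + c = 0) ∧ rootMultiplicity θ (h d) ≤ 2)) : False := by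
  apply H.false_of_local hd3
  intro θ hθ hz
  by_cases hirr : Irrational θ
  · have h0 : 0 < θ := lt_of_le_of_ne hθ.1 (by
      rintro rfl
      exact hirr ⟨0, by simp⟩)
    by_cases h1 : (h (d - 1)).eval θ = 0
    · rcases hroots θ hθ hz h1 with ⟨⟨r, hr⟩, _⟩ | ⟨⟨b, c, hq⟩, hμ⟩
      · exact absurd ⟨r, hr.symm⟩ hirr
      · exact H.near_quad hd3 hne hirr hq h0 hθ.2 hz hμ
    · obtain ⟨K, rfl⟩ : ∃ K, d = K + 2 := ⟨d - 2, by omega⟩
      have hK : K + 2 - 1 = K + 1 := by omega
      rw [hK] at h1
      have hpos : 0 < (h (K + 1)).eval θ := lt_of_le_of_ne (H.sub_nonneg K hθ hz) (Ne.symm h1)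
      rcases Nat.lt_or_ge K 2 with hK2 | hK2
      · obtain rfl : K = 1 := by omega
        rcases hθ.2.lt_or_eq with hlt | heq
        · exfalso
          have := (H.mult_two (by omega) (by omega) hne hirr h0 hlt hz).2
          omega
        · subst heq
          have hμ1 : 0 < rootMultiplicity θ (h (1 + 2)) := (rootMultiplicity_pos hne).2 hz
          have hμ2 : rootMultiplicity θ (h (1 + 2)) = 1 := by
            by_contra hcon
            have := H.four_le hne hirr (by omega)
            omega
          exact H.bd_simple 1 le_rfl hne hμ2 (Or.inl hpos)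
      · exact H.near_sub K hK2 θ hpos
  · obtain ⟨r, hr⟩ : ∃ r : ℚ, (r : ℝ) = θ := by
      unfold Irrational at hirr
      push Not at hirr
      exact hirr
    by_cases h1 : (h (d - 1)).eval θ = 0
    · have hμ : rootMultiplicity θ (h d) ≤ 5 := by
        rcases hroots θ hθ hz h1 with h2 | h2
        · exact h2.2
        · exact h2.2.trans (by norm_num)
      rw [← hr] at hθ hz hμ ⊢
      exact H.near_rat hd3 hne hθ hz hμ
    · rcases Nat.lt_or_ge d 4 with hd4 | hd4
      · have hle : rootMultiplicity θ (h d) ≤ d := by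
          rw [← count_roots]
          exact ((Multiset.count_le_card _ _).trans (card_roots' _)).trans (H.deg d)
        have hμ : rootMultiplicity θ (h d) ≤ 5 := by omega
        rw [← hr] at hθ hz hμ ⊢
        exact H.near_rat hd3 hne hθ hz hμ
      · obtain ⟨K, rfl⟩ : ∃ K, d = K + 2 := ⟨d - 2, by omega⟩
        have hK : K + 2 - 1 = K + 1 := by omega
        rw [hK] at h1
        exact H.near_sub K (by omega) θ
          (lt_of_le_of_ne (H.sub_nonneg K hθ hz) (Ne.symm h1))

/-- **The general criterion**, for polynomials in two variables -/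
theorem general_degree3 {α : ℝ} (hα : 0 < α) (hirr : Irrational α) (F : MvPolynomial (Fin 2) ℝ)
    (hd : 3 ≤ F.totalDegree)
    (hroots : ∀ θ ∈ Set.Icc 0 α, (formPoly F F.totalDegree).eval θ = 0 →
      (formPoly F (F.totalDegree - 1)).eval θ = 0 →
      ((∃ r : ℚ, θ = r) ∧ rootMultiplicity θ (formPoly F F.totalDegree) ≤ 5) ∨
      ((∃ b c : ℚ, θ ^ 2 + b * θ + c = 0) ∧
        rootMultiplicity θ (formPoly F F.totalDegree) ≤ 2)) :
    ¬ IsPacking α F := fun hP =>
  (hP.pk hα hirr).false_common hd (formPoly_lead_ne_zero F (by omega)) hroots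

/-- the degree of a number satisfying a quadratic equation -/
theorem minpoly_le_two {α : ℝ} {b c : ℚ} (hq : α ^ 2 + b * α + c = 0) :
    (minpoly ℚ α).natDegree ≤ 2 := by
  have h1 : aeval α (X ^ 2 + C b * X + C c : ℚ[X]) = 0 := by
    simp only [map_add, map_mul, map_pow, aeval_X, aeval_C, eq_ratCast]
    exact hq
  have hdeg : (X ^ 2 + C b * X + C c : ℚ[X]).natDegree = 2 := by
    compute_degree!
  have hne : (X ^ 2 + C b * X + C c : ℚ[X]) ≠ 0 := by
    intro h2
    rw [h2] at hdeg
    simp at hdeg
  have h2 := natDegree_le_of_dvd (minpoly.dvd ℚ α h1) hne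
  omega

/-- degrees three, four and five: what is left -/
theorem Pk.low_cond (H : Pk α d h) (hd3 : 3 ≤ d) (hd5 : d ≤ 5) (hne : h d ≠ 0) :
    (3 ≤ (minpoly ℚ α).natDegree ∧ (minpoly ℚ α).natDegree ≤ d) ∧ (h d).eval α = 0 ∧
      (h (d - 1)).eval α = 0 ∧ (h (d - 2)).eval α ≤ 0 := by
  have hzα : (h d).eval α = 0 ∧ 3 ≤ (minpoly ℚ α).natDegree ∧ (h (d - 1)).eval α = 0 ∧
      (h (d - 2)).eval α ≤ 0 := by
    by_contra hcon
    apply H.false_of_local hd3
    intro θ hθ hz
    by_cases hirr : Irrational θ
    · have h0 : 0 < θ := lt_of_le_of_ne hθ.1 (by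
        rintro rfl
        exact hirr ⟨0, by simp⟩)
      have hle2 := H.mult_le_two hd5 hne hirr
      rcases hθ.2.lt_or_eq with hlt | heq
      · obtain ⟨hμ, hd⟩ := H.mult_two (by omega) hd5 hne hirr h0 hlt hz
        obtain ⟨β, δ0, hq, _⟩ := H.exists_quad hd5 hne hirr hμ.ge
        exact H.near_quad hd3 hne hirr hq h0 hθ.2 hz hle2
      · subst heq
        by_cases hq : ∃ b c : ℚ, θ ^ 2 + b * θ + c = 0
        · obtain ⟨b, c, hq⟩ := hq
          exact H.near_quad hd3 hne hirr hq h0 le_rfl hz hle2
        · -- `α` is algebraic of degree at least three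
          have hint : IsIntegral ℚ θ := by
            obtain ⟨P, hP⟩ := H.rational d (by simp)
            have hP0 : P ≠ 0 := by
              rintro rfl
              apply hne
              rw [hP, Polynomial.map_zero]
            have hPz : aeval θ P = 0 := by
              rw [hP, eval_map_algebraMap] at hz
              exact hz
            have halg : IsAlgebraic ℚ θ := ⟨P, hP0, hPz⟩
            exact halg.isIntegral
          have hdeg3 : 3 ≤ (minpoly ℚ θ).natDegree := by
            by_contra hlt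
            push Not at hlt
            have hmon := minpoly.monic hint
            have h2 : 2 ≤ (minpoly ℚ θ).natDegree := by
              rw [minpoly.two_le_natDegree_iff hint]
              rintro ⟨r, hr⟩
              exact hirr ⟨r, hr⟩
            have hdeg : (minpoly ℚ θ).natDegree = 2 := by omega
            apply hq
            refine ⟨(minpoly ℚ θ).coeff 1, (minpoly ℚ θ).coeff 0, ?_⟩
            set m := minpoly ℚ θ with hm
            have h3 := hmon.as_sum
            rw [hdeg] at h3
            simp only [Finset.sum_range_succ, Finset.sum_range_zero, pow_zero, pow_one, mul_one,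
              zero_add] at h3
            have h4 : aeval θ m = 0 := minpoly.aeval ℚ θ
            rw [h3] at h4
            simp only [map_add, map_mul, map_pow, aeval_X, aeval_C, eq_ratCast] at h4
            linarith
          have hμ : rootMultiplicity θ (h d) = 1 := by
            have h1 : 0 < rootMultiplicity θ (h d) := (rootMultiplicity_pos hne).2 hz
            by_contra hμ
            obtain ⟨β, δ0, hq', _⟩ := H.exists_quad hd5 hne hirr (by omega)
            exact hq ⟨β, δ0, hq'⟩
          obtain ⟨m, rfl⟩ : ∃ m, d = m + 1 + 1 := ⟨d - 2, by omega⟩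
          have e1 : m + 1 + 1 - 1 = m + 1 := by omega
          have e2 : m + 1 + 1 - 2 = m := by omega
          rw [e1, e2] at hcon
          apply H.bd_simple m (by omega) hne hμ
          have hA : 0 ≤ (h (m + 1)).eval θ := H.sub_nonneg m hθ hz
          rcases hA.lt_or_eq with h1 | h1
          · exact Or.inl h1
          · right
            refine ⟨h1.symm, ?_⟩
            by_contra h2
            push Not at h2
            exact hcon ⟨hz, hdeg3, h1.symm, h2⟩
    · obtain ⟨r, hr⟩ : ∃ r : ℚ, (r : ℝ) = θ := by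
        unfold Irrational at hirr
        push Not at hirr
        exact hirr
      have hle : rootMultiplicity θ (h d) ≤ d := by
        rw [← count_roots]
        exact ((Multiset.count_le_card _ _).trans (card_roots' _)).trans (H.deg d)
      have hμ : rootMultiplicity θ (h d) ≤ 5 := by omega
      rw [← hr] at hθ hz hμ ⊢
      exact H.near_rat hd3 hne hθ hz hμ
  refine ⟨⟨hzα.2.1, ?_⟩, hzα.1, hzα.2.2⟩
  obtain ⟨P, hP⟩ := H.rational d (by simp)
  have hP0 : P ≠ 0 := by
    rintro rfl
    apply hne
    rw [hP, Polynomial.map_zero]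
  have hPz : aeval α P = 0 := by
    have hz := hzα.1
    rw [hP, eval_map_algebraMap] at hz
    exact hz
  have hdeg1 := natDegree_le_of_dvd (minpoly.dvd ℚ α hPz) hP0
  have hdeg2 : P.natDegree ≤ d := by
    have := H.deg d
    rw [hP, natDegree_map] at this
    exact this
  omega

/-- **Degrees three, four and five.** -/
theorem low_degree3 {α : ℝ} (hα : 0 < α) (hirr : Irrational α) (F : MvPolynomial (Fin 2) ℝ)
    (hd3 : 3 ≤ F.totalDegree) (hd5 : F.totalDegree ≤ 5) (hF : IsPacking α F) :
    (3 ≤ (minpoly ℚ α).natDegree ∧ (minpoly ℚ α).natDegree ≤ F.totalDegree) ∧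
      (formPoly F F.totalDegree).eval α = 0 ∧ (formPoly F (F.totalDegree - 1)).eval α = 0 ∧
      (formPoly F (F.totalDegree - 2)).eval α ≤ 0 :=
  (hF.pk hα hirr).low_cond hd3 hd5 (formPoly_lead_ne_zero F (by omega))

end PP72
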