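import Pool.Agent.PP72.Final
import Pool.Agent.PP72.Disc5

/-!
The general criterion in terms of the three top forms.
-/

open Polynomial Finset Filter

namespace PP72

variable {α : ℝ} {d : ℕ} {h : ℕ → ℝ[X]}

/-- a common zero of the two top forms, third alternative, degree at least five -/
theorem Pk.near_third (K : ℕ) (hK : 3 ≤ K) (H : Pk α (K + 2) h) (hne : h (K + 2) ≠ 0) {θ : ℝ}
    (hθ : θ ∈ Set.Icc 0 α) (hz : (h (K + 2)).eval θ = 0) (hz1 : (h (K + 1)).eval θ = 0)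
    (hs : (0 < (h K).eval θ ∧ ¬ (X - C θ) ^ (rootMultiplicity θ (h (K + 2)) + 1) ∣
      h (K + 1) ^ 2 - 4 * h (K + 2) * h K) ∨
      ((h K).eval θ < 0 ∧ 2 ≤ rootMultiplicity θ (h (K + 2)))) :
    ∃ ε : ℝ, 0 < ε ∧ Thin (fv (K + 2) h) (Near α θ ε) := by
  rcases hs with ⟨hEpos, hΔ⟩ | ⟨hEneg, h2⟩
  swap
  · exfalso
    obtain ⟨Q, _, _, hQ3, _⟩ := taylor_root (h (K + 2)) hne θ
    have := H.third_nonneg K (by omega) hθ hz (hQ3 1 (by omega)) hz1
    linarith
  by_cases hirr : Irrational θ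
  · exact H.near_disc K hK hne hθ hz hz1 hEpos hΔ (Or.inl hirr)
  · rcases Nat.lt_or_ge (rootMultiplicity θ (h (K + 2))) 3 with hlt | hge
    · obtain ⟨r, hr⟩ : ∃ r : ℚ, (r : ℝ) = θ := by
        unfold Irrational at hirr
        push Not at hirr
        exact hirr
      rw [← hr] at hθ hz hlt ⊢
      exact H.near_rat (by omega) hne hθ hz (by omega)
    · exact H.near_disc K hK hne hθ hz hz1 hEpos hΔ (Or.inr hge)

/-- **The general criterion.** -/
theorem Pk.false_three (H : Pk α d h) (hd3 : 3 ≤ d) (hne : h d ≠ 0)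
    (hroots : ∀ θ ∈ Set.Icc 0 α, (h d).eval θ = 0 → (h (d - 1)).eval θ = 0 →
      ((∃ r : ℚ, θ = r) ∧ rootMultiplicity θ (h d) ≤ 5) ∨
      ((∃ b c : ℚ, θ ^ 2 + b * θ + c = 0) ∧ rootMultiplicity θ (h d) ≤ 2) ∨
      (0 < (h (d - 2)).eval θ ∧ ¬ (X - C θ) ^ (rootMultiplicity θ (h d) + 1) ∣
        h (d - 1) ^ 2 - 4 * h d * h (d - 2)) ∨
      ((h (d - 2)).eval θ < 0 ∧ 2 ≤ rootMultiplicity θ (h d))) : False := by
  rcases Nat.lt_or_ge d 6 with hd | hd
  · -- low degree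
    obtain ⟨⟨hk3, _⟩, hz, hz1, hz2⟩ := H.low_cond hd3 (by omega) hne
    rcases hroots α ⟨H.pos.le, le_rfl⟩ hz hz1 with ⟨⟨r, hr⟩, _⟩ | ⟨⟨b, c, hq⟩, _⟩ | ⟨h2, _⟩ |
      ⟨_, h2⟩
    · exact H.irr ⟨r, hr.symm⟩
    · have := minpoly_le_two hq
      omega
    · linarith
    · obtain ⟨b, c, hq, _⟩ := H.exists_quad (by omega) hne H.irr h2
      have := minpoly_le_two hq
      omega
  · apply H.false_of_local hd3
    intro θ hθ hz
    obtain ⟨K, rfl⟩ : ∃ K, d = K + 2 := ⟨d - 2, by omega⟩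
    have hK1 : K + 2 - 1 = K + 1 := by omega
    have hK2 : K + 2 - 2 = K := by omega
    rw [hK1, hK2] at hroots
    by_cases h1 : (h (K + 1)).eval θ = 0
    · rcases hroots θ hθ hz h1 with ⟨⟨r, hr⟩, hμ⟩ | ⟨⟨b, c, hq⟩, hμ⟩ | hs
      · subst hr
        exact H.near_rat hd3 hne hθ hz hμ
      · by_cases hirr : Irrational θ
        · have h0 : 0 < θ := lt_of_le_of_ne hθ.1 (by
            rintro rfl
            exact hirr ⟨0, by simp⟩)
          exact H.near_quad hd3 hne hirr hq h0 hθ.2 hz hμ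
        · obtain ⟨r, hr⟩ : ∃ r : ℚ, (r : ℝ) = θ := by
            unfold Irrational at hirr
            push Not at hirr
            exact hirr
          rw [← hr] at hθ hz hμ ⊢
          exact H.near_rat hd3 hne hθ hz (by omega)
      · exact H.near_third K (by omega) hne hθ hz h1 hs
    · exact H.near_sub K (by omega) θ (lt_of_le_of_ne (H.sub_nonneg K hθ hz) (Ne.symm h1))

/-- **The general criterion**, for polynomials in two variables -/
theorem three_forms {α : ℝ} (hα : 0 < α) (hirr : Irrational α) (F : MvPolynomial (Fin 2) ℝ)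
    (hd : 3 ≤ F.totalDegree)
    (hroots : ∀ θ ∈ Set.Icc 0 α, (formPoly F F.totalDegree).eval θ = 0 →
      (formPoly F (F.totalDegree - 1)).eval θ = 0 →
      ((∃ r : ℚ, θ = r) ∧ rootMultiplicity θ (formPoly F F.totalDegree) ≤ 5) ∨
      ((∃ b c : ℚ, θ ^ 2 + b * θ + c = 0) ∧
        rootMultiplicity θ (formPoly F F.totalDegree) ≤ 2) ∨
      (0 < (formPoly F (F.totalDegree - 2)).eval θ ∧
        ¬ (X - C θ) ^ (rootMultiplicity θ (formPoly F F.totalDegree) + 1) ∣
          formPoly F (F.totalDegree - 1) ^ 2 -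
            4 * formPoly F F.totalDegree * formPoly F (F.totalDegree - 2)) ∨
      ((formPoly F (F.totalDegree - 2)).eval θ < 0 ∧
        2 ≤ rootMultiplicity θ (formPoly F F.totalDegree))) :
    ¬ IsPacking α F := fun hP =>
  (hP.pk hα hirr).false_three hd (formPoly_lead_ne_zero F (by omega)) hroots

end PP72
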