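import Pool.Agent.PP72.Final
import Pool.Agent.PP72.BdFinal

/-!
Degrees three, four and five: approximation from below at the boundary direction.
-/

open Polynomial Finset Filter

namespace PP72

variable {α : ℝ} {d : ℕ} {h : ℕ → ℝ[X]}

/-- low degree: every zero, except `α` when it is not quadratic -/
theorem Pk.low_others (H : Pk α d h) (hd3 : 3 ≤ d) (hd5 : d ≤ 5) (hne : h d ≠ 0) {θ : ℝ}
    (hθ : θ ∈ Set.Icc 0 α) (hz : (h d).eval θ = 0)
    (hq : θ = α → ∃ b c : ℚ, θ ^ 2 + b * θ + c = 0) :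
    ∃ ε : ℝ, 0 < ε ∧ Thin (fv d h) (Near α θ ε) := by
  by_cases hirr : Irrational θ
  · have h0 : 0 < θ := lt_of_le_of_ne hθ.1 (by
      rintro rfl
      exact hirr ⟨0, by simp⟩)
    have hle2 := H.mult_le_two hd5 hne hirr
    rcases hθ.2.lt_or_eq with hlt | heq
    · obtain ⟨hμ, hd⟩ := H.mult_two (by omega) hd5 hne hirr h0 hlt hz
      obtain ⟨β, δ0, hq, _⟩ := H.exists_quad hd5 hne hirr hμ.ge
      exact H.near_quad hd3 hne hirr hq h0 hθ.2 hz hle2
    · obtain ⟨b, c, hq⟩ := hq heq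
      exact H.near_quad hd3 hne hirr hq h0 hθ.2 hz hle2
  · obtain ⟨r, hr⟩ : ∃ r : ℚ, (r : ℝ) = θ := by
      unfold Irrational at hirr
      push Not at hirr
      exact hirr
    have hle : rootMultiplicity θ (h d) ≤ d := by
      rw [← count_roots]
      exact ((Multiset.count_le_card _ _).trans (card_roots' _)).trans (H.deg d)
    have hμ : rootMultiplicity θ (h d) ≤ 5 := by omega
    rw [← hr] at hθ hz hμ ⊢
    exact H.near_rat hd3 hne hθ hz hμ

/-- the derivative of the leading form at a simple zero at the boundary -/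
theorem Pk.deriv_neg (H : Pk α d h) (hd1 : 1 ≤ d) (hne : h d ≠ 0)
    (hμ : rootMultiplicity α (h d) = 1) : (derivative (h d)).eval α < 0 := by
  obtain ⟨Q, hQ1, hQ2, hQ3, hQ4⟩ := taylor_root (h d) hne α
  have hsign := taylor_sign (h d) hne α (-1) α (Or.inr rfl) H.pos (by
    intro τ hτ1 hτ2
    apply H.lead_nonneg hd1
    constructor <;> linarith)
  rw [hQ4, hμ] at hsign
  rw [hμ, pow_one] at hQ1
  have h3 : (derivative (h d)).eval α = Q.eval α := by
    rw [hQ1, derivative_mul]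
    simp
  rw [h3]
  linarith

/-- the number `ρ` lies in the field generated by `α` -/
theorem Pk.rho_mem (H : Pk α d h) (i : ℕ) (hi : i ≤ d) :
    (h i).eval α / (derivative (h d)).eval α ∈ IntermediateField.adjoin ℚ {α} := by
  have hα : α ∈ IntermediateField.adjoin ℚ {α} := IntermediateField.mem_adjoin_simple_self ℚ α
  have key : ∀ P : ℚ[X], aeval α P ∈ IntermediateField.adjoin ℚ {α} := by
    intro P
    have h1 : aeval α P = ((aeval (⟨α, hα⟩ : IntermediateField.adjoin ℚ {α}) P :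
        IntermediateField.adjoin ℚ {α}) : ℝ) := by
      rw [← IntermediateField.coe_val, ← aeval_algHom_apply]
      rfl
    rw [h1]
    exact SetLike.coe_mem _
  obtain ⟨P, hP⟩ := H.rational i (mem_range.2 (by omega))
  obtain ⟨Q, hQ⟩ := H.rational d (by simp)
  rw [hP, hQ, derivative_map, eval_map_algebraMap, eval_map_algebraMap]
  exact div_mem (key P) (key _)

/-- degrees three, four and five: what is left -/
theorem Pk.low_cond5 (H : Pk α d h) (hd3 : 3 ≤ d) (hd5 : d ≤ 5) (hne : h d ≠ 0) :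
    (3 ≤ (minpoly ℚ α).natDegree ∧ (minpoly ℚ α).natDegree ≤ d) ∧ (h d).eval α = 0 ∧
      (h (d - 1)).eval α = 0 ∧ (h (d - 2)).eval α ≤ 0 ∧ (derivative (h d)).eval α < 0 ∧
      (∀ ε : ℝ, 0 < ε → ∃ X0 : ℕ, ∀ x y : ℕ, X0 < x → (y : ℝ) ≤ α * x →
        (h (d - 2)).eval α / (derivative (h d)).eval α - ε < x * (α * x - y)) ∧
      (∀ X0 : ℕ, ∃ x y : ℕ, X0 < x ∧ (y : ℝ) ≤ α * x ∧ (x : ℝ) * (x * (α * x - y) -
        (h (d - 2)).eval α / (derivative (h d)).eval α) ^ 4 < 1) := by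
  obtain ⟨⟨hk3, hkd⟩, hz, hz1, hle⟩ := H.low_cond hd3 hd5 hne
  have hμ : rootMultiplicity α (h d) = 1 := by
    have h1 : 0 < rootMultiplicity α (h d) := (rootMultiplicity_pos hne).2 hz
    by_contra hμ
    obtain ⟨β, δ0, hq', _⟩ := H.exists_quad hd5 hne H.irr (by omega)
    have := minpoly_le_two hq'
    omega
  have hder := H.deriv_neg (by omega) hne hμ
  obtain ⟨K, rfl⟩ : ∃ K, d = K + 2 := ⟨d - 2, by omega⟩
  have hK1 : K + 2 - 1 = K + 1 := by omega
  have hK2 : K + 2 - 2 = K := by omega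
  rw [hK1] at hz1 ⊢
  rw [hK2] at hle ⊢
  refine ⟨⟨hk3, hkd⟩, hz, hz1, hle, hder, fun ε hε => H.liminf_ge K hz hz1 hder hle hε,
    fun X0 => ?_⟩
  by_contra hcon
  push Not at hcon
  apply H.false_of_local hd3
  intro θ hθ hzθ
  by_cases hθα : θ = α
  · rw [hθα]
    exact H.near_bd_final K (by omega) hne hz hz1 hder hle X0 hcon
  · exact H.low_others hd3 hd5 hne hθ hzθ (fun h => absurd h hθα)

/-- **Degrees three, four and five.** -/
theorem low_degree5 {α : ℝ} (hα : 0 < α) (hirr : Irrational α) (F : MvPolynomial (Fin 2) ℝ)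
    (hd3 : 3 ≤ F.totalDegree) (hd5 : F.totalDegree ≤ 5) (hF : IsPacking α F) :
    (3 ≤ (minpoly ℚ α).natDegree ∧ (minpoly ℚ α).natDegree ≤ F.totalDegree) ∧
      (formPoly F F.totalDegree).eval α = 0 ∧ (formPoly F (F.totalDegree - 1)).eval α = 0 ∧
      (formPoly F (F.totalDegree - 2)).eval α ≤ 0 ∧
      (derivative (formPoly F F.totalDegree)).eval α < 0 ∧
      ∃ ρ : ℝ, ρ = (formPoly F (F.totalDegree - 2)).eval α /
          (derivative (formPoly F F.totalDegree)).eval α ∧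
        ρ ∈ IntermediateField.adjoin ℚ {α} ∧
        (∀ ε : ℝ, 0 < ε → ∃ X0 : ℕ, ∀ x y : ℕ, X0 < x → (y : ℝ) ≤ α * x →
          ρ - ε < x * (α * x - y)) ∧
        (∀ X0 : ℕ, ∃ x y : ℕ, X0 < x ∧ (y : ℝ) ≤ α * x ∧
          (x : ℝ) * (x * (α * x - y) - ρ) ^ 4 < 1) := by
  obtain ⟨h1, h2, h3, h4, h5, h6, h7⟩ :=
    (hF.pk hα hirr).low_cond5 hd3 hd5 (formPoly_lead_ne_zero F (by omega))
  exact ⟨h1, h2, h3, h4, h5, _, rfl, (hF.pk hα hirr).rho_mem _ (by omega), h6, h7⟩

end PP72
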