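import Pool.Agent.PP72.Final3
import Pool.Agent.PP72.Final5
import Pool.Agent.PP72.Dbl4

/-!
The general criterion.
-/

open Polynomial Finset Filter

namespace PP72

variable {α : ℝ} {d : ℕ} {h : ℕ → ℝ[X]}

/-- a simple zero of the leading form is a boundary direction -/
theorem Pk.simple_bd (H : Pk α d h) (hd1 : 1 ≤ d) (hne : h d ≠ 0) {θ : ℝ} (h0 : 0 < θ)
    (hθ : θ ≤ α) (hμ : rootMultiplicity θ (h d) = 1) : θ = α := by
  by_contra hcon
  have hlt : θ < α := lt_of_le_of_ne hθ hcon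
  obtain ⟨Q, hQ1, hQ2, hQ3, hQ4⟩ := taylor_root (h d) hne θ
  have h1 := taylor_sign (h d) hne θ (-1) θ (Or.inr rfl) h0 (by
    intro τ hτ1 hτ2
    apply H.lead_nonneg hd1
    constructor <;> linarith)
  have h2 := taylor_sign (h d) hne θ 1 (α - θ) (Or.inl rfl) (by linarith) (by
    intro τ hτ1 hτ2
    apply H.lead_nonneg hd1
    constructor <;> linarith)
  rw [hQ4, hμ] at h1 h2
  linarith

/-- algebraicity of `α` and of `ρ` -/
theorem Pk.rho_alg (H : Pk α d h) (hne : h d ≠ 0) (hz : (h d).eval α = 0) (i : ℕ) (hi : i ≤ d) :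
    IsAlgebraic ℚ (-((h i).eval α / (derivative (h d)).eval α)) := by
  have hαalg : α ∈ algebraicClosure ℚ ℝ := by
    rw [mem_algebraicClosure_iff]
    obtain ⟨P, hP⟩ := H.rational d (by simp)
    refine ⟨P, ?_, ?_⟩
    · rintro rfl
      apply hne
      rw [hP, Polynomial.map_zero]
    · rw [hP, eval_map_algebraMap] at hz
      exact hz
  rw [← mem_algebraicClosure_iff]
  exact neg_mem (div_mem (eval_mem_alg (H.coeff_mem_alg i hi) hαalg)
    (eval_mem_alg (deriv_mem_alg (H.coeff_mem_alg d le_rfl)) hαalg))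

/-- the condition at `α` -/
theorem far_of_prop {ρ : ℝ} (hρ : IsAlgebraic ℚ (-ρ))
    (hS : ∀ s t : ℝ, IsAlgebraic ℚ s → IsAlgebraic ℚ t → ∃ X0 : ℕ, ∀ x y : ℕ, X0 < x →
      1 ≤ (x : ℝ) * (x * (y - α * x - s) - t) ^ 4) :
    ∃ X0 : ℕ, ∀ x y : ℕ, X0 < x → (y : ℝ) ≤ α * x →
      1 ≤ (x : ℝ) * (x * (α * x - y) - ρ) ^ 4 := by
  obtain ⟨X0, hX0⟩ := hS 0 (-ρ) isAlgebraic_zero hρ
  refine ⟨X0, fun x y hx _ => ?_⟩
  have h1 := hX0 x y hx
  have h2 : (x : ℝ) * (x * (α * x - y) - ρ) ^ 4 =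
      (x : ℝ) * (x * (y - α * x - 0) - -ρ) ^ 4 := by ring
  rw [h2]
  exact h1

/-- **The general criterion.** -/
theorem Pk.false_final (H : Pk α d h) (hd3 : 3 ≤ d) (hne : h d ≠ 0)
    (hroots : ∀ θ ∈ Set.Icc 0 α, (h d).eval θ = 0 → (h (d - 1)).eval θ = 0 →
      ((∃ r : ℚ, θ = r) ∧ rootMultiplicity θ (h d) ≤ 5) ∨
      ((∃ b c : ℚ, θ ^ 2 + b * θ + c = 0) ∧ rootMultiplicity θ (h d) ≤ 2) ∨
      (0 < (h (d - 2)).eval θ ∧ ¬ (X - C θ) ^ (rootMultiplicity θ (h d) + 1) ∣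
        h (d - 1) ^ 2 - 4 * h d * h (d - 2)) ∨
      ((h (d - 2)).eval θ < 0 ∧ 2 ≤ rootMultiplicity θ (h d)) ∨
      (rootMultiplicity θ (h d) ≤ 2 ∧ ∀ s t : ℝ, IsAlgebraic ℚ s → IsAlgebraic ℚ t →
        ∃ X0 : ℕ, ∀ x y : ℕ, X0 < x → 1 ≤ (x : ℝ) * (x * (y - θ * x - s) - t) ^ 4)) :
    False := by
  rcases Nat.lt_or_ge d 6 with hd | hd
  · -- low degree
    obtain ⟨⟨hk3, _⟩, hz, hz1, hz2, _, _, h7⟩ := H.low_cond5 hd3 (by omega) hne
    rcases hroots α ⟨H.pos.le, le_rfl⟩ hz hz1 with ⟨⟨r, hr⟩, _⟩ | ⟨⟨b, c, hq⟩, _⟩ | ⟨h2, _⟩ |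
      ⟨_, h2⟩ | ⟨_, hS⟩
    · exact H.irr ⟨r, hr.symm⟩
    · have := minpoly_le_two hq
      omega
    · linarith
    · obtain ⟨b, c, hq, _⟩ := H.exists_quad (by omega) hne H.irr h2
      have := minpoly_le_two hq
      omega
    · obtain ⟨X0, h3⟩ := far_of_prop (H.rho_alg hne hz (d - 2) (by omega)) hS
      obtain ⟨x, y, hx, hy, hlt⟩ := h7 X0
      have := h3 x y hx hy
      linarith
  · apply H.false_of_local hd3
    intro θ hθ hz
    obtain ⟨n, rfl⟩ : ∃ n, d = n + 5 := ⟨d - 5, by omega⟩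
    have hK1 : n + 5 - 1 = n + 3 + 1 := by omega
    have hK2 : n + 5 - 2 = n + 3 := by omega
    rw [hK1, hK2] at hroots
    by_cases h1 : (h (n + 3 + 1)).eval θ = 0
    · have hrat : ¬ Irrational θ → rootMultiplicity θ (h (n + 5)) ≤ 5 →
          ∃ ε : ℝ, 0 < ε ∧ Thin (fv (n + 5) h) (Near α θ ε) := by
        intro hirr hμ
        obtain ⟨r, hr⟩ : ∃ r : ℚ, (r : ℝ) = θ := by
          unfold Irrational at hirr
          push Not at hirr
          exact hirr
        rw [← hr] at hθ hz hμ ⊢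
        exact H.near_rat hd3 hne hθ hz hμ
      rcases hroots θ hθ hz h1 with ⟨⟨r, hr⟩, hμ⟩ | ⟨⟨b, c, hq⟩, hμ⟩ | hs | hs | ⟨hμ, hS⟩
      · subst hr
        exact H.near_rat hd3 hne hθ hz hμ
      · by_cases hirr : Irrational θ
        · have h0 : 0 < θ := lt_of_le_of_ne hθ.1 (by
            rintro rfl
            exact hirr ⟨0, by simp⟩)
          exact H.near_quad hd3 hne hirr hq h0 hθ.2 hz hμ
        · exact hrat hirr (by omega)
      · exact H.near_third (n + 3) (by omega) hne hθ hz h1 (Or.inl hs)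
      · exact H.near_third (n + 3) (by omega) hne hθ hz h1 (Or.inr hs)
      · by_cases hirr : Irrational θ
        · have h0 : 0 < θ := lt_of_le_of_ne hθ.1 (by
            rintro rfl
            exact hirr ⟨0, by simp⟩)
          have hpos : 0 < rootMultiplicity θ (h (n + 5)) := (rootMultiplicity_pos hne).2 hz
          rcases (by omega : rootMultiplicity θ (h (n + 5)) = 1 ∨
            rootMultiplicity θ (h (n + 5)) = 2) with hμ1 | hμ2
          · have hθα := H.simple_bd (by omega) hne h0 hθ.2 hμ1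
            subst hθα
            obtain ⟨X0, h3⟩ := far_of_prop (H.rho_alg hne hz (n + 3) (by omega)) hS
            rcases le_or_gt ((h (n + 3)).eval θ) 0 with h2 | h2
            · exact H.near_bd_final (n + 3) (by omega) hne hz h1
                (H.deriv_neg (by omega) hne hμ1) h2 X0 h3
            · exact Pk.bd_simple (n + 3) (by omega) H hne hμ1 (Or.inr ⟨h1, h2⟩)
          · exact H.near_double n (by omega) hne hirr h0 hθ.2 hz hμ2 h1 hS
        · exact hrat hirr (by omega)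
    · exact H.near_sub (n + 3) (by omega) θ
        (lt_of_le_of_ne (H.sub_nonneg (n + 3) hθ hz) (Ne.symm h1))

/-- **The general criterion**, for polynomials in two variables -/
theorem criterion_final {α : ℝ} (hα : 0 < α) (hirr : Irrational α) (F : MvPolynomial (Fin 2) ℝ)
    (hd : 3 ≤ F.totalDegree)
    (hroots : ∀ θ ∈ Set.Icc 0 α, (formPoly F F.totalDegree).eval θ = 0 →
      (formPoly F (F.totalDegree - 1)).eval θ = 0 →
      ((∃ r : ℚ, θ = r) ∧ rootMultiplicity θ (formPoly F F.totalDegree) ≤ 5) ∨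
      ((∃ b c : ℚ, θ ^ 2 + b * θ + c = 0) ∧
        rootMultiplicity θ (formPoly F F.totalDegree) ≤ 2) ∨
      (0 < (formPoly F (F.totalDegree - 2)).eval θ ∧
        ¬ (X - C θ) ^ (rootMultiplicity θ (formPoly F F.totalDegree) + 1) ∣
          formPoly F (F.totalDegree - 1) ^ 2 -
            4 * formPoly F F.totalDegree * formPoly F (F.totalDegree - 2)) ∨
      ((formPoly F (F.totalDegree - 2)).eval θ < 0 ∧
        2 ≤ rootMultiplicity θ (formPoly F F.totalDegree)) ∨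
      (rootMultiplicity θ (formPoly F F.totalDegree) ≤ 2 ∧
        ∀ s t : ℝ, IsAlgebraic ℚ s → IsAlgebraic ℚ t → ∃ X0 : ℕ, ∀ x y : ℕ, X0 < x →
          1 ≤ (x : ℝ) * (x * (y - θ * x - s) - t) ^ 4)) :
    ¬ IsPacking α F := fun hP =>
  (hP.pk hα hirr).false_final hd (formPoly_lead_ne_zero F (by omega)) hroots

end PP72
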