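import Pool.Agent.PP72.Valley

/-!
Polynomial functions `∑ R_k(U) X^k` and the substitutions `X → X + λ U^a`.
-/

open Polynomial Finset Filter

namespace PP72

/-- `∑_{k ≤ K} R_k(U) X^k` -/
noncomputable def VV (K : ℕ) (R : ℕ → ℚ[X]) (x U : ℝ) : ℝ :=
  ∑ k ∈ range (K + 1), aeval U (R k) * x ^ k

/-- quasi-homogeneous degree at most `M` (`X` of degree two, `U` of degree one) -/
def QD (M : ℕ) (R : ℕ → ℚ[X]) : Prop := ∀ k i, M < 2 * k + i → (R k).coeff i = 0

/-- the substitution `X → X + λ U^a` -/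
noncomputable def shift (K : ℕ) (R : ℕ → ℚ[X]) (a : ℕ) (l : ℚ) (k : ℕ) : ℚ[X] :=
  ∑ j ∈ Finset.Icc k K, C ((j.choose k : ℚ) * l ^ (j - k)) * (X ^ (a * (j - k)) * R j)

theorem VV_shift (K : ℕ) (R : ℕ → ℚ[X]) (a : ℕ) (l : ℚ) (x U : ℝ) :
    VV K R (x + l * U ^ a) U = VV K (shift K R a l) x U := by
  unfold VV shift
  have h1 : ∀ k ∈ range (K + 1), aeval U (R k) * (x + l * U ^ a) ^ k =
      ∑ m ∈ range (k + 1), aeval U (R k) * (x ^ m * (l * U ^ a) ^ (k - m) * (k.choose m : ℝ)) := by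
    intro k _
    rw [add_pow, Finset.mul_sum]
  have h2 : ∀ m ∈ range (K + 1),
      aeval U (∑ j ∈ Finset.Icc m K, C ((j.choose m : ℚ) * l ^ (j - m)) *
        (X ^ (a * (j - m)) * R j)) * x ^ m =
      ∑ j ∈ Finset.Icc m K, aeval U (R j) * (x ^ m * (l * U ^ a) ^ (j - m) * (j.choose m : ℝ)) := by
    intro m _
    rw [map_sum, Finset.sum_mul]
    apply Finset.sum_congr rfl
    intro j _
    simp only [map_mul, aeval_C, map_pow, aeval_X, eq_ratCast]
    push_cast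
    rw [mul_pow, ← pow_mul]
    ring
  rw [Finset.sum_congr rfl h1, Finset.sum_congr rfl h2]
  apply Finset.sum_comm'
  intro k m
  simp only [mem_range, mem_Icc]
  omega

theorem shift_coeff (K : ℕ) (R : ℕ → ℚ[X]) (a : ℕ) (l : ℚ) (k i : ℕ) :
    (shift K R a l k).coeff i = ∑ j ∈ Finset.Icc k K, (j.choose k : ℚ) * l ^ (j - k) *
      (if a * (j - k) ≤ i then (R j).coeff (i - a * (j - k)) else 0) := by
  unfold shift
  rw [finsetSum_coeff]
  apply Finset.sum_congr rfl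
  intro j _
  rw [coeff_C_mul, coeff_X_pow_mul']

theorem shift_QD {M K : ℕ} {R : ℕ → ℚ[X]} (h : QD M R) (a : ℕ) (ha : a ≤ 2) (l : ℚ) :
    QD M (shift K R a l) := by
  intro k i hki
  rw [shift_coeff]
  apply Finset.sum_eq_zero
  intro j hj
  rw [mem_Icc] at hj
  split_ifs with h1
  · rw [h j _ ?_, mul_zero]
    have h2 : a * (j - k) ≤ 2 * (j - k) := Nat.mul_le_mul_right _ ha
    omega
  · rw [mul_zero]

/-- only the first three terms matter -/
theorem shift_coeff_two {K : ℕ} (hK : 2 ≤ K) (R : ℕ → ℚ[X]) (a : ℕ) (l : ℚ) (k i : ℕ) (hk : k ≤ 2)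
    (hz : ∀ j, 3 ≤ j → a * (j - k) ≤ i → (R j).coeff (i - a * (j - k)) = 0) :
    (shift K R a l k).coeff i = ∑ j ∈ Finset.Icc k 2, (j.choose k : ℚ) * l ^ (j - k) *
      (if a * (j - k) ≤ i then (R j).coeff (i - a * (j - k)) else 0) := by
  rw [shift_coeff]
  symm
  apply Finset.sum_subset
  · intro j hj
    rw [mem_Icc] at hj ⊢
    omega
  · intro j hj1 hj2
    rw [mem_Icc] at hj1 hj2
    split_ifs with h1
    · rw [hz j (by omega) h1, mul_zero]
    · rw [mul_zero]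

theorem shift_two {K : ℕ} (hK : 2 ≤ K) (R : ℕ → ℚ[X]) (a : ℕ) (l : ℚ) (i : ℕ)
    (hz : ∀ j, 3 ≤ j → a * (j - 2) ≤ i → (R j).coeff (i - a * (j - 2)) = 0) :
    (shift K R a l 2).coeff i = (R 2).coeff i := by
  rw [shift_coeff_two hK R a l 2 i le_rfl hz, Finset.Icc_self, Finset.sum_singleton]
  simp

theorem shift_one {K : ℕ} (hK : 2 ≤ K) (R : ℕ → ℚ[X]) (a : ℕ) (l : ℚ) (i : ℕ) (ha : a ≤ i)
    (hz : ∀ j, 3 ≤ j → a * (j - 1) ≤ i → (R j).coeff (i - a * (j - 1)) = 0) :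
    (shift K R a l 1).coeff i = (R 1).coeff i + 2 * l * (R 2).coeff (i - a) := by
  rw [shift_coeff_two hK R a l 1 i (by norm_num) hz]
  have e : Finset.Icc 1 2 = {1, 2} := by decide
  rw [e, Finset.sum_insert (by decide), Finset.sum_singleton]
  simp [ha]

theorem shift_zero {K : ℕ} (hK : 2 ≤ K) (R : ℕ → ℚ[X]) (a : ℕ) (l : ℚ) (i : ℕ) (ha : a * 2 ≤ i)
    (hz : ∀ j, 3 ≤ j → a * j ≤ i → (R j).coeff (i - a * j) = 0) :
    (shift K R a l 0).coeff i =
      (R 0).coeff i + l * (R 1).coeff (i - a) + l ^ 2 * (R 2).coeff (i - 2 * a) := by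
  rw [shift_coeff_two hK R a l 0 i (by norm_num) (by
    intro j h1 h2
    rw [Nat.sub_zero] at h2 ⊢
    exact hz j h1 h2)]
  have e : Finset.Icc 0 2 = {0, 1, 2} := by decide
  rw [e, Finset.sum_insert (by decide), Finset.sum_insert (by decide), Finset.sum_singleton]
  have h1 : a ≤ i := by omega
  have h2 : 2 * a = a * 2 := by ring
  simp [ha, h1, h2]
  ring

/-- the polynomial in `U` for fixed `X` -/
theorem VV_poly (K M : ℕ) (R : ℕ → ℚ[X]) (hR : QD M R) (v t : ℝ) :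
    VV K R v t = ∑ i ∈ range (M + 1), (∑ k ∈ range (K + 1), ((R k).coeff i : ℝ) * v ^ k) * t ^ i := by
  unfold VV
  have h1 : ∀ k ∈ range (K + 1), aeval t (R k) * v ^ k =
      ∑ i ∈ range (M + 1), ((R k).coeff i : ℝ) * v ^ k * t ^ i := by
    intro k _
    have hdeg : (R k).natDegree < M + 1 := by
      apply Nat.lt_succ_of_le
      rw [natDegree_le_iff_coeff_eq_zero]
      intro N hN
      exact hR k N (by omega)
    rw [aeval_eq_sum_range' hdeg, Finset.sum_mul]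
    apply Finset.sum_congr rfl
    intro i _
    rw [Rat.smul_def]
    ring
  rw [Finset.sum_congr rfl h1, Finset.sum_comm]
  apply Finset.sum_congr rfl
  intro i _
  rw [Finset.sum_mul]

end PP72
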