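import Pool.Agent.PP72.Gen1

/-!
Estimates in the valleys.
-/

open Polynomial Finset Filter

namespace PP72

/-- small in the valley compared with `X² U^N + U^B` -/
def Small (N B : ℕ) (f : ℝ → ℝ → ℝ) : Prop :=
  ∀ ε : ℝ, 0 < ε → ∃ η : ℝ, 0 < η ∧ ∀ᶠ U : ℝ in atTop, ∀ X : ℝ, |X| ≤ η * U ^ 2 →
    |f X U| ≤ ε * (X ^ 2 * U ^ N + U ^ B)

theorem Small.add {N B : ℕ} {f g : ℝ → ℝ → ℝ} (hf : Small N B f) (hg : Small N B g) :
    Small N B (fun X U => f X U + g X U) := by
  intro ε hε
  obtain ⟨η1, h1, hf⟩ := hf (ε / 2) (by positivity)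
  obtain ⟨η2, h2, hg⟩ := hg (ε / 2) (by positivity)
  refine ⟨min η1 η2, by positivity, ?_⟩
  filter_upwards [hf, hg] with U a b X hX
  have c1 := a X (hX.trans (by gcongr; exact min_le_left _ _))
  have c2 := b X (hX.trans (by gcongr; exact min_le_right _ _))
  refine (abs_add_le _ _).trans ?_
  linarith

theorem Small.const_mul {N B : ℕ} {f : ℝ → ℝ → ℝ} (hf : Small N B f) (c : ℝ) :
    Small N B (fun X U => c * f X U) := by
  intro ε hε
  have hc : 0 < |c| + 1 := by positivity
  obtain ⟨η, h1, hf⟩ := hf (ε / (|c| + 1)) (by positivity)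
  refine ⟨η, h1, ?_⟩
  filter_upwards [hf] with U a X hX
  have c1 := a X hX
  rw [abs_mul]
  calc |c| * |f X U| ≤ (|c| + 1) * |f X U| := by
        gcongr
        linarith
    _ ≤ (|c| + 1) * (ε / (|c| + 1) * (X ^ 2 * U ^ N + U ^ B)) := by gcongr
    _ = _ := by field_simp

theorem small_zero (N B : ℕ) : Small N B (fun _ _ => 0) := by
  intro ε hε
  refine ⟨1, one_pos, ?_⟩
  filter_upwards [eventually_ge_atTop 0] with U hU X _
  rw [abs_zero]
  positivity

theorem Small.sum {ι : Type*} {N B : ℕ} (s : Finset ι) (f : ι → ℝ → ℝ → ℝ)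
    (h : ∀ i ∈ s, Small N B (f i)) : Small N B (fun X U => ∑ i ∈ s, f i X U) := by
  classical
  induction s using Finset.induction_on with
  | empty => simpa using small_zero N B
  | insert a s ha ih =>
    have h1 := (h a (Finset.mem_insert_self _ _)).add
      (ih fun i hi => h i (Finset.mem_insert_of_mem hi))
    have h2 : (fun X U => ∑ i ∈ insert a s, f i X U) = fun X U => f a X U + ∑ i ∈ s, f i X U := by
      funext X U
      rw [Finset.sum_insert ha]
    rw [h2]
    exact h1

/-- monomials which are small -/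
def Adm (N B k i : ℕ) : Prop :=
  (k = 0 ∧ i < B) ∨ (k = 1 ∧ 2 * i < N + B) ∨ (k = 2 ∧ i < N) ∨ (3 ≤ k ∧ 2 * k + i ≤ N + 4)

theorem small_mono {N B k i : ℕ} (h : Adm N B k i) : Small N B (fun X U => X ^ k * U ^ i) := by
  intro ε hε
  rcases h with ⟨rfl, h⟩ | ⟨rfl, h⟩ | ⟨rfl, h⟩ | ⟨hk, h⟩
  · refine ⟨1, one_pos, ?_⟩
    filter_upwards [const_small N B i h 1 ε hε] with U a X _
    have := a X
    rw [one_mul] at this
    rw [pow_zero, one_mul]
    exact this
  · refine ⟨1, one_pos, ?_⟩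
    filter_upwards [lin_small N B i (by omega) 1 ε hε] with U a X _
    have := a X
    rw [one_mul] at this
    rw [pow_one]
    exact this
  · refine ⟨1, one_pos, ?_⟩
    filter_upwards [sq_small N B i h 1 ε hε] with U a X _
    have := a X
    rw [one_mul] at this
    exact this
  · refine ⟨min 1 ε, by positivity, ?_⟩
    filter_upwards [eventually_ge_atTop 1] with U hU X hX
    have hU0 : 0 ≤ U := by linarith
    obtain ⟨j, rfl⟩ : ∃ j, k = 2 + 1 + j := ⟨k - 3, by omega⟩
    have h1 : |X| ≤ U ^ 2 := hX.trans (by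
      have := min_le_left 1 ε
      have h2 : 0 ≤ U ^ 2 := by positivity
      nlinarith)
    have h2 : |X| ≤ ε * U ^ 2 := hX.trans (by
      gcongr
      exact min_le_right _ _)
    have e1 : |X ^ (2 + 1 + j) * U ^ i| = X ^ 2 * (|X| * |X| ^ j * U ^ i) := by
      rw [abs_mul, abs_pow, abs_of_nonneg (by positivity : (0 : ℝ) ≤ U ^ i), pow_add, pow_add,
        sq_abs, pow_one]
      ring
    rw [e1]
    have e2 : |X| * |X| ^ j * U ^ i ≤ (ε * U ^ 2) * (U ^ 2) ^ j * U ^ i := by gcongr
    have e3 : (ε * U ^ 2) * (U ^ 2) ^ j * U ^ i = ε * U ^ (2 + 2 * j + i) := by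
      rw [pow_add, pow_add, ← pow_mul]
      ring
    have e4 : U ^ (2 + 2 * j + i) ≤ U ^ N := pow_le_pow_right₀ hU (by omega)
    have e5 : |X| * |X| ^ j * U ^ i ≤ ε * U ^ N := by
      rw [e3] at e2
      refine e2.trans ?_
      gcongr
    have e6 : 0 ≤ ε * U ^ B := by positivity
    calc X ^ 2 * (|X| * |X| ^ j * U ^ i) ≤ X ^ 2 * (ε * U ^ N) := by gcongr
      _ ≤ ε * (X ^ 2 * U ^ N + U ^ B) := by linarith

/-- polynomial functions all of whose monomials are small -/
theorem small_VV (N B K M : ℕ) (R : ℕ → ℚ[X]) (hR : QD M R)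
    (h : ∀ k i, (R k).coeff i = 0 ∨ Adm N B k i) : Small N B (VV K R) := by
  have e : VV K R = fun X U => ∑ i ∈ range (M + 1), ∑ k ∈ range (K + 1),
      ((R k).coeff i : ℝ) * (X ^ k * U ^ i) := by
    funext X U
    rw [VV_poly K M R hR]
    apply Finset.sum_congr rfl
    intro i _
    rw [Finset.sum_mul]
    apply Finset.sum_congr rfl
    intro k _
    ring
  rw [e]
  apply Small.sum
  intro i _
  apply Small.sum
  intro k _
  rcases h k i with h0 | h0
  · rw [h0]
    have := small_zero N B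
    simpa using this
  · exact (small_mono h0).const_mul _

theorem VV_sub (K : ℕ) (R S : ℕ → ℚ[X]) (X U : ℝ) :
    VV K (fun k => R k - S k) X U = VV K R X U - VV K S X U := by
  unfold VV
  rw [← Finset.sum_sub_distrib]
  apply Finset.sum_congr rfl
  intro k _
  rw [map_sub]
  ring

theorem VV_add (K : ℕ) (R S : ℕ → ℚ[X]) (X U : ℝ) :
    VV K (fun k => R k + S k) X U = VV K R X U + VV K S X U := by
  unfold VV
  rw [← Finset.sum_add_distrib]
  apply Finset.sum_congr rfl
  intro k _
  rw [map_add]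
  ring

/-- the main part -/
noncomputable def mainR (N B i1 : ℕ) (r g s : ℚ) (k : ℕ) : ℚ[X] :=
  if k = 2 then C r * X ^ N else if k = 1 then C g * X ^ i1 else if k = 0 then C s * X ^ B else 0

theorem VV_main (N B i1 K : ℕ) (hK : 2 ≤ K) (r g s : ℚ) (X U : ℝ) :
    VV K (mainR N B i1 r g s) X U = r * U ^ N * X ^ 2 + g * U ^ i1 * X + s * U ^ B := by
  unfold VV
  have h1 : ∑ k ∈ range (K + 1), aeval U (mainR N B i1 r g s k) * X ^ k =
      ∑ k ∈ range 3, aeval U (mainR N B i1 r g s k) * X ^ k := by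
    symm
    apply Finset.sum_subset
    · intro j hj
      rw [mem_range] at hj ⊢
      omega
    · intro j hj1 hj2
      rw [mem_range] at hj1 hj2
      unfold mainR
      rw [if_neg (by omega), if_neg (by omega), if_neg (by omega)]
      simp
  rw [h1]
  unfold mainR
  simp only [Finset.sum_range_succ, Finset.sum_range_zero]
  simp
  ring

/-- the decomposition -/
theorem small_rest (N B i1 K M : ℕ) (hK : 2 ≤ K) (hN : N ≤ M) (hB : B ≤ M) (hi1 : i1 ≤ M)
    (R : ℕ → ℚ[X]) (hR : QD M R) (hM2 : 4 + N ≤ M) (hM1 : 2 + i1 ≤ M)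
    (h0 : ∀ i, i ≠ B → (R 0).coeff i = 0 ∨ i < B)
    (h1 : ∀ i, i ≠ i1 → (R 1).coeff i = 0 ∨ 2 * i < N + B)
    (h2 : ∀ i, i ≠ N → (R 2).coeff i = 0 ∨ i < N)
    (h3 : ∀ k i, 3 ≤ k → (R k).coeff i = 0 ∨ 2 * k + i ≤ N + 4) :
    Small N B (fun X U => VV K R X U - ((R 2).coeff N * U ^ N * X ^ 2 +
      (R 1).coeff i1 * U ^ i1 * X + (R 0).coeff B * U ^ B)) := by
  set S := mainR N B i1 ((R 2).coeff N) ((R 1).coeff i1) ((R 0).coeff B) with hS
  have e : (fun X U => VV K R X U - ((R 2).coeff N * U ^ N * X ^ 2 +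
      (R 1).coeff i1 * U ^ i1 * X + (R 0).coeff B * U ^ B)) = VV K (fun k => R k - S k) := by
    funext X U
    rw [VV_sub, hS, VV_main _ _ _ _ hK]
  rw [e]
  have hSc : ∀ k i, (S k).coeff i = if k = 2 then (if i = N then (R 2).coeff N else 0) else
      if k = 1 then (if i = i1 then (R 1).coeff i1 else 0) else
      if k = 0 then (if i = B then (R 0).coeff B else 0) else 0 := by
    intro k i
    rw [hS]
    unfold mainR
    split_ifs <;> simp_all [coeff_X_pow]
  apply small_VV N B K M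
  · intro k i hki
    rw [coeff_sub, hR k i hki, hSc]
    split_ifs with a1 a2 a3 a4 a5 a6
    · omega
    · simp
    · omega
    · simp
    · omega
    · simp
    · simp
  · intro k i
    rw [coeff_sub, hSc]
    unfold Adm
    by_cases hk2 : k = 2
    · subst hk2
      by_cases hi : i = N
      · left
        simp [hi]
      · rcases h2 i hi with h | h
        · left
          simp [hi, h]
        · right; right; right; left
          exact ⟨rfl, h⟩
    by_cases hk1 : k = 1
    · subst hk1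
      by_cases hi : i = i1
      · left
        simp [hi]
      · rcases h1 i hi with h | h
        · left
          simp [hi, h]
        · right; right; left
          exact ⟨rfl, h⟩
    by_cases hk0 : k = 0
    · subst hk0
      by_cases hi : i = B
      · left
        simp [hi]
      · rcases h0 i hi with h | h
        · left
          simp [hi, h]
        · right; left
          exact ⟨rfl, h⟩
    rcases h3 k i (by omega) with h | h
    · left
      simp [hk2, hk1, hk0, h]
    · right; right; right; right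
      exact ⟨by omega, h⟩

/-- lower bounds from the main part -/
theorem low_of_main {N B : ℕ} (hN : 1 ≤ N) (hB : 2 ≤ B) {V m : ℝ → ℝ → ℝ}
    (hs : Small N B (fun X U => V X U - m X U)) (Good : ℝ → ℝ → Prop) (δ0 : ℝ) (hδ0 : 0 < δ0)
    (hm : ∀ᶠ U : ℝ in atTop, ∀ X : ℝ, Good X U → δ0 * (X ^ 2 * U ^ N + U ^ B) ≤ m X U) :
    ∃ η : ℝ, 0 < η ∧ ∃ δ : ℝ, 0 < δ ∧ ∀ᶠ U : ℝ in atTop, ∀ X : ℝ, |X| ≤ η * U ^ 2 → Good X U →
      δ * (U * X ^ 2 + U ^ 2) ≤ V X U := by
  obtain ⟨η, hη, hs⟩ := hs (δ0 / 2) (by positivity)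
  refine ⟨η, hη, δ0 / 2, by positivity, ?_⟩
  filter_upwards [hs, hm, eventually_ge_atTop 1] with U h1 h2 hU X hX hg
  have h3 := (abs_le.1 (h1 X hX)).1
  have h4 := h2 X hg
  apply final_low B N hN hB hU (by positivity)
  linarith

end PP72
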