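import Pool.Agent.PP72.Gen2

/-!
The general valley.
-/

open Polynomial Finset Filter

namespace PP72

variable {α : ℝ} {d : ℕ} {h : ℕ → ℝ[X]} {q p : ℕ} {τ : ℤ} {G : ℝ → ℝ → ℝ}

/-- a set contained in the graph of a function of the distance, on which `f ≥ δ u² - K`, is thin -/
theorem thin_of_graph {f : ℕ × ℕ → ℝ} {A : Set (ℕ × ℕ)} (q p : ℕ) (hq : 0 < q) (φ : ℝ → ℝ)
    (δ K : ℝ) (hδ : 0 < δ)
    (hA : ∀ P ∈ A, (P.1 : ℝ) = φ ((P.2 : ℝ) - (p / q : ℝ) * P.1))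
    (h : ∀ P ∈ A, δ * |(P.2 : ℝ) - (p / q : ℝ) * P.1| ^ 2 ≤ f P + K) : Thin f A := by
  intro ε hε
  have hq' : (0 : ℝ) < q := by exact_mod_cast hq
  set K' : ℝ := max K 0 with hK'
  have hK0 : 0 ≤ K' := le_max_right _ _
  set R : ℝ := max 1 (4 * (2 * q + 1) / (ε * δ) + 4 * K' / δ) with hR
  obtain ⟨N0, hN0⟩ := exists_nat_ge (δ * R ^ 2)
  refine ⟨N0, fun N hN T hT => ?_⟩
  have hN' : δ * R ^ 2 ≤ N := le_trans hN0 (by exact_mod_cast hN)
  set r : ℝ := Real.sqrt (((N : ℝ) + K') / δ) with hr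
  have hNd : (0 : ℝ) ≤ ((N : ℝ) + K') / δ := by positivity
  have hr0 : 0 ≤ r := Real.sqrt_nonneg _
  have hr2 : r ^ 2 = ((N : ℝ) + K') / δ := Real.sq_sqrt hNd
  have hRr : R ≤ r := by
    have h1 : R ^ 2 ≤ r ^ 2 := by
      rw [hr2, le_div_iff₀ hδ]
      linarith
    exact le_of_pow_le_pow_left₀ (by norm_num) hr0 h1
  have hR1 : 1 ≤ R := le_max_left _ _
  have hr1 : 1 ≤ r := le_trans hR1 hRr
  have hbox : (T.card : ℝ) ≤ (2 * (q * r) + 1) * (2 * 0 + 1) := by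
    apply card_curve q p hq r 0 hr0 le_rfl φ
    intro P hP
    constructor
    · have h1 := h P (hT P hP).1
      have h2 := (hT P hP).2
      apply le_of_pow_le_pow_left₀ (n := 2) (by norm_num) hr0
      rw [hr2, le_div_iff₀ hδ]
      have := le_max_left K 0
      linarith
    · rw [← hA P (hT P hP).1, sub_self, abs_zero]
  have hNr : (N : ℝ) = δ * r ^ 2 - K' := by
    rw [hr2]
    field_simp
    ring
  have h7 : 4 * (2 * q + 1) / (ε * δ) + 4 * K' / δ ≤ r := le_trans (le_max_right _ _) hRr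
  have h8 : 4 * (2 * q + 1) / (ε * δ) ≤ r := by
    have : 0 ≤ 4 * K' / δ := by positivity
    linarith
  have h9 : 4 * K' / δ ≤ r := by
    have : 0 ≤ 4 * (2 * (q : ℝ) + 1) / (ε * δ) := by positivity
    linarith
  rw [div_le_iff₀ (by positivity)] at h8
  rw [div_le_iff₀ hδ] at h9
  have h10 : ε * (δ * r ^ 2) / 2 ≤ ε * N := by
    rw [hNr]
    have : K' ≤ δ * r ^ 2 / 2 := by nlinarith
    nlinarith
  calc (T.card : ℝ) ≤ (2 * (q * r) + 1) * (2 * 0 + 1) := hbox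
    _ ≤ r * (4 * (2 * q + 1)) / 2 := by nlinarith
    _ ≤ r * (r * (ε * δ)) / 2 := by gcongr
    _ = ε * (δ * r ^ 2) / 2 := by ring
    _ ≤ ε * N := h10

/-- a parabola is thin -/
theorem Side.thin_parab (S : Side α d h q p τ G) (ρ κ : ℚ) (hρ : 0 < ρ) (n : ℕ) (v : ℝ)
    (c : ℕ → ℝ)
    (hc : ∀ t : ℝ, G (ρ * t ^ 2 + κ * t + v) t = ∑ i ∈ range (n + 1), c i * t ^ i) :
    Thin (fv d h) {P | P ∈ Sec α ∧ 0 ≤ uu q p τ P ∧
      (P.1 : ℝ) - ρ * (uu q p τ P) ^ 2 - κ * uu q p τ P = v} := by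
  rcases Set.eq_empty_or_nonempty {P : ℕ × ℕ | P ∈ Sec α ∧ 0 ≤ uu q p τ P ∧
      (P.1 : ℝ) - ρ * (uu q p τ P) ^ 2 - κ * uu q p τ P = v} with hA | ⟨P0, hP0⟩
  · rw [hA]
    exact thin_empty _
  obtain ⟨h1, _, h3⟩ := hP0
  obtain ⟨k, hk2, hkn, hk, htop⟩ := S.parab ρ κ hρ P0 h1 n c (by
    intro t
    rw [h3]
    exact hc t)
  set L : ℝ[X] := ∑ i ∈ range (n + 1), C (c i) * X ^ i with hL
  have hcoef : ∀ j, L.coeff j = if j ≤ n then c j else 0 := by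
    intro j
    rw [hL, finsetSum_coeff]
    simp only [coeff_C_mul, coeff_X_pow]
    split_ifs with hj
    · rw [Finset.sum_eq_single j]
      · simp
      · intro b _ hb
        rw [if_neg (Ne.symm hb)]
        simp
      · intro hb
        exact absurd (mem_range.2 (Nat.lt_succ_of_le hj)) hb
    · apply Finset.sum_eq_zero
      intro b hb
      rw [if_neg]
      · simp
      · intro hjb
        subst hjb
        exact hj (Nat.lt_succ_iff.1 (mem_range.1 hb))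
  have hLe : ∀ t, L.eval t = ∑ i ∈ range (n + 1), c i * t ^ i := by
    intro t
    rw [hL, eval_finsetSum]
    apply Finset.sum_congr rfl
    intro i _
    simp
  have hdeg : L.natDegree = k := by
    apply natDegree_eq_of_le_of_coeff_ne_zero
    · rw [natDegree_le_iff_coeff_eq_zero]
      intro N hN
      rw [hcoef]
      split_ifs with h'
      · exact htop N hN h'
      · rfl
    · rw [hcoef, if_pos hkn]
      exact hk.ne'
  have hlead : L.leadingCoeff = c k := by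
    rw [leadingCoeff, hdeg, hcoef, if_pos hkn]
  obtain ⟨δ, hδ, K, hK⟩ := poly_quad L (by rw [hdeg]; exact hk2) (by rw [hlead]; exact hk)
  apply thin_of_graph q p S.hq (fun u => ρ * u ^ 2 + κ * (τ * u) + v) δ K hδ
  · rintro P ⟨_, _, hP3⟩
    have e1 : ((P.2 : ℝ) - (p / q : ℝ) * P.1) ^ 2 = (uu q p τ P) ^ 2 := by
      unfold uu
      rw [mul_pow, S.tau_sq, one_mul]
    have e2 : (τ : ℝ) * ((P.2 : ℝ) - (p / q : ℝ) * P.1) = uu q p τ P := rfl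
    rw [e1, e2]
    linarith
  · rintro P ⟨_, hP2, hP3⟩
    rw [S.abs_uu P hP2, S.val]
    have e1 : (P.1 : ℝ) = ρ * (uu q p τ P) ^ 2 + κ * uu q p τ P + v := by linarith
    have e2 : G P.1 (uu q p τ P) = L.eval (uu q p τ P) := by
      rw [hLe, ← hc, ← e1]
    rw [e2]
    exact hK _ hP2

theorem Side.valley_combine (S : Side α d h q p τ G) (ρ κ κ0 : ℝ) (Good : ℝ → ℝ → Prop)
    (Z : Set (ℕ × ℕ)) (hZ : Thin (fv d h) {P | P ∈ Sec α ∧ 0 ≤ uu q p τ P ∧ P ∈ Z})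
    (hgood : ∀ P ∈ Sec α, P ∉ Z → Good P.1 (uu q p τ P))
    (hoff : ∀ η : ℝ, 0 < η → ∃ δ : ℝ, 0 < δ ∧ Ev fun x U => η * U ^ 2 ≤ |x - ρ * U ^ 2| →
      δ * (U * (x ^ 2 + U ^ 4)) ≤ G x U)
    (hin : ∃ η : ℝ, 0 < η ∧ ∃ δ : ℝ, 0 < δ ∧ ∀ᶠ U : ℝ in atTop, ∀ X : ℝ, |X| ≤ η * U ^ 2 →
      Good (X + κ0 + κ * U + ρ * U ^ 2) U →
      δ * (U * X ^ 2 + U ^ 2) ≤ G (X + κ0 + κ * U + ρ * U ^ 2) U) :
    SideThin α d h q p τ := by
  obtain ⟨η, hη, δ1, hδ1, hin⟩ := hin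
  obtain ⟨δ2, hδ2, hoff⟩ := hoff (η / 2) (by positivity)
  set m : ℝ := |κ| + |κ0| with hm
  have hm0 : 0 ≤ m := by positivity
  set K : ℝ := 3 * (1 + ρ ^ 2 + m ^ 2) with hK
  have hK0 : 0 < K := by positivity
  obtain ⟨U1, hU1⟩ := eventually_atTop.1 hin
  have hlarge : Ev fun _ U => max U1 (2 * m / η) ≤ U := ev_of_large ⟨_, fun U hU => hU⟩
  have hev : Ev fun x U => Good x U →
      min δ1 (δ2 / (K + 1)) * (U * (x - ρ * U ^ 2 - κ * U - κ0) ^ 2 + U ^ 2) ≤ G x U := by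
    refine (hoff.and hlarge).mono ?_
    rintro x U hU hx ⟨h1, h2⟩ hg
    have hx0 : 0 ≤ x := by linarith
    have hU0 : 0 ≤ U := by linarith
    set X := x - ρ * U ^ 2 - κ * U - κ0 with hX
    have hxX : X + κ0 + κ * U + ρ * U ^ 2 = x := by rw [hX]; ring
    have hmU : |κ * U + κ0| ≤ m * U := by
      calc |κ * U + κ0| ≤ |κ * U| + |κ0| := abs_add_le _ _
        _ = |κ| * U + |κ0| := by rw [abs_mul, abs_of_nonneg hU0]
        _ ≤ |κ| * U + |κ0| * U := by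
            have := abs_nonneg κ0
            nlinarith
        _ = m * U := by rw [hm]; ring
    by_cases hc : η / 2 * U ^ 2 ≤ |x - ρ * U ^ 2|
    · have h3 := h1 hc
      have e1 : X ^ 2 ≤ K * (x ^ 2 + U ^ 4) := by
        have a1 : X = x - ρ * U ^ 2 - (κ * U + κ0) := by rw [hX]; ring
        have a2 : (κ * U + κ0) ^ 2 ≤ (m * U) ^ 2 := by
          rw [← sq_abs (κ * U + κ0)]
          gcongr
        have a3 : X ^ 2 ≤ 3 * (x ^ 2 + (ρ * U ^ 2) ^ 2 + (κ * U + κ0) ^ 2) := by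
          rw [a1]
          nlinarith [sq_nonneg (x + ρ * U ^ 2), sq_nonneg (x + (κ * U + κ0)),
            sq_nonneg (ρ * U ^ 2 - (κ * U + κ0))]
        have a4 : U ^ 2 ≤ U ^ 4 := pow_le_pow_right₀ hU (by norm_num)
        have a5 : m ^ 2 * U ^ 2 ≤ m ^ 2 * U ^ 4 := by gcongr
        have a6 : 0 ≤ (ρ ^ 2 + m ^ 2) * x ^ 2 := by positivity
        have a7 : 0 ≤ U ^ 4 := by positivity
        calc X ^ 2 ≤ 3 * (x ^ 2 + (ρ * U ^ 2) ^ 2 + (κ * U + κ0) ^ 2) := a3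
          _ ≤ 3 * (x ^ 2 + ρ ^ 2 * U ^ 4 + m ^ 2 * U ^ 4) := by nlinarith
          _ ≤ K * (x ^ 2 + U ^ 4) := by rw [hK]; nlinarith
      have e2 : U * X ^ 2 + U ^ 2 ≤ (K + 1) * (U * (x ^ 2 + U ^ 4)) := by
        have a1 : U * X ^ 2 ≤ U * (K * (x ^ 2 + U ^ 4)) := by gcongr
        have a2 : U ^ 2 ≤ U * U ^ 4 := by
          have b1 : U ^ 2 ≤ U ^ 5 := pow_le_pow_right₀ hU (by norm_num)
          calc U ^ 2 ≤ U ^ 5 := b1
            _ = U * U ^ 4 := by ring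
        have a3 : 0 ≤ U * x ^ 2 := by positivity
        nlinarith
      have e3 : 0 ≤ U * X ^ 2 + U ^ 2 := by positivity
      calc min δ1 (δ2 / (K + 1)) * (U * X ^ 2 + U ^ 2) ≤ δ2 / (K + 1) * (U * X ^ 2 + U ^ 2) := by
            gcongr
            exact min_le_right _ _
        _ ≤ δ2 / (K + 1) * ((K + 1) * (U * (x ^ 2 + U ^ 4))) := by gcongr
        _ = δ2 * (U * (x ^ 2 + U ^ 4)) := by field_simp
        _ ≤ _ := h3
    · push Not at hc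
      have hUη : 2 * m / η ≤ U := (le_max_right _ _).trans h2
      rw [div_le_iff₀ hη] at hUη
      have h3 : |X| ≤ η * U ^ 2 := by
        have a1 : X = (x - ρ * U ^ 2) - (κ * U + κ0) := by rw [hX]; ring
        have a2 : |X| ≤ |x - ρ * U ^ 2| + |κ * U + κ0| := by
          rw [a1]
          exact abs_sub _ _
        have a3 : m * U ≤ η / 2 * U ^ 2 := by nlinarith
        linarith
      have h4 := hU1 U ((le_max_left _ _).trans h2) X h3
      rw [hxX] at h4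
      have e3 : 0 ≤ U * X ^ 2 + U ^ 2 := by positivity
      calc min δ1 (δ2 / (K + 1)) * (U * X ^ 2 + U ^ 2) ≤ δ1 * (U * X ^ 2 + U ^ 2) := by
            gcongr
            exact min_le_left _ _
        _ ≤ _ := h4 hg
  obtain ⟨E, hE, _, U0, hU0, hreg⟩ := hev
  refine ⟨E, hE, U0, ?_⟩
  have hmain : Thin (fv d h) {P | P ∈ Sec α ∧ 0 < P.1 ∧ U0 ≤ uu q p τ P ∧
      uu q p τ P ≤ E * P.1 ∧ P ∉ Z} := by
    apply thin_of_curve3 q p S.hq (fun u => ρ * u ^ 2 + κ * τ * u + κ0)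
      (min δ1 (δ2 / (K + 1))) (by positivity)
    · rintro P ⟨_, _, hP3, _⟩
      have h0 : 0 ≤ uu q p τ P := by linarith
      rw [S.abs_uu P h0]
      exact hU0.trans hP3
    · rintro P ⟨hP1, _, hP3, hP4, hP5⟩
      have h0 : 0 ≤ uu q p τ P := by linarith
      rw [S.abs_uu P h0, S.val]
      refine le_trans (le_of_eq ?_) (hreg _ _ hP3 hP4 (hgood P hP1 hP5))
      have e1 : ((P.2 : ℝ) - (p / q : ℝ) * P.1) ^ 2 = (uu q p τ P) ^ 2 := by
        unfold uu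
        rw [mul_pow, S.tau_sq, one_mul]
      have e2 : κ * τ * ((P.2 : ℝ) - (p / q : ℝ) * P.1) = κ * uu q p τ P := by
        unfold uu
        ring
      rw [e1, e2]
      ring
  apply (hmain.union hZ).mono
  rintro P ⟨hP1, hP2, hP3, hP4⟩
  by_cases hPZ : P ∈ Z
  · right
    refine ⟨hP1, ?_, hPZ⟩
    unfold uu
    linarith
  · left
    exact ⟨hP1, hP2, hP3, hP4, hPZ⟩

/-- the top coefficient along the parabola -/
theorem Side.parabR (S : Side α d h q p τ G) (ρ κ : ℚ) (hρ : 0 < ρ) (K M : ℕ) (R : ℕ → ℚ[X])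
    (hR : QD M R) (hV : ∀ X U : ℝ, G (X + κ * U + ρ * U ^ 2) U = VV K R X U) :
    ∃ k, 2 ≤ k ∧ k ≤ M ∧ 0 < (R 0).coeff k ∧ ∀ j, k < j → j ≤ M → (R 0).coeff j = 0 := by
  have h0 : ((0 : ℕ), (0 : ℕ)) ∈ Sec α := by
    change ((0 : ℕ) : ℝ) ≤ α * ((0 : ℕ) : ℝ)
    simp
  have hu : uu q p τ ((0 : ℕ), (0 : ℕ)) = 0 := by
    unfold uu
    simp
  obtain ⟨k, hk2, hkM, hk, htop⟩ := S.parab ρ κ hρ (0, 0) h0 M (fun i => ((R 0).coeff i : ℝ)) (by
    intro t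
    rw [hu]
    have e1 : (ρ : ℝ) * t ^ 2 + κ * t + ((((0 : ℕ), (0 : ℕ)).1 : ℕ) - ρ * 0 ^ 2 - κ * 0) =
        0 + κ * t + ρ * t ^ 2 := by
      push_cast
      ring
    rw [e1, hV, VV_poly K M R hR]
    apply Finset.sum_congr rfl
    intro i _
    congr 1
    rw [Finset.sum_range_succ', Finset.sum_eq_zero]
    · simp
    · intro j _
      simp)
  refine ⟨k, hk2, hkM, by exact_mod_cast hk, ?_⟩
  intro j h1 h2
  exact_mod_cast htop j h1 h2

/-- the coefficients along the parabolas -/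
theorem Side.parabV (S : Side α d h q p τ G) (ρ κ κ0 : ℚ) (hρ : 0 < ρ) (K M : ℕ) (R : ℕ → ℚ[X])
    (hR : QD M R) (hV : ∀ X U : ℝ, G (X + κ0 + κ * U + ρ * U ^ 2) U = VV K R X U)
    (P : ℕ × ℕ) (hP : P ∈ Sec α) :
    ∃ k, 2 ≤ k ∧ k ≤ M ∧ 0 < ∑ i ∈ range (K + 1), ((R i).coeff k : ℝ) *
        ((P.1 : ℝ) - ρ * (uu q p τ P) ^ 2 - κ * uu q p τ P - κ0) ^ i ∧
      ∀ j, k < j → j ≤ M → ∑ i ∈ range (K + 1), ((R i).coeff j : ℝ) *
        ((P.1 : ℝ) - ρ * (uu q p τ P) ^ 2 - κ * uu q p τ P - κ0) ^ i = 0 := by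
  set v : ℝ := (P.1 : ℝ) - ρ * (uu q p τ P) ^ 2 - κ * uu q p τ P - κ0 with hv
  apply S.parab ρ κ hρ P hP M (fun j => ∑ i ∈ range (K + 1), ((R i).coeff j : ℝ) * v ^ i)
  intro t
  have e1 : (ρ : ℝ) * t ^ 2 + κ * t + (P.1 - ρ * (uu q p τ P) ^ 2 - κ * uu q p τ P) =
      v + κ0 + κ * t + ρ * t ^ 2 := by
    rw [hv]
    ring
  rw [e1, hV, VV_poly K M R hR]

end PP72
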