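import Pool.Agent.PP72.Gen3

/-!
The general valley: all stages.
-/

open Polynomial Finset Filter

namespace PP72

variable {α : ℝ} {d : ℕ} {h : ℕ → ℝ[X]} {q p : ℕ} {τ : ℤ} {G : ℝ → ℝ → ℝ}

theorem quad_lower (r s2 c1 : ℝ) (hr : 0 < r) (hc1 : 0 < c1) : ∃ δ0 : ℝ, 0 < δ0 ∧
    ∀ X : ℝ, c1 ≤ r * X ^ 2 + s2 → δ0 * (X ^ 2 + 1) ≤ r * X ^ 2 + s2 := by
  set t := min (1 / 2) (c1 / (4 * (|s2| + 1))) with ht
  have ht0 : 0 < t := by positivity
  have ht1 : t ≤ 1 / 2 := min_le_left _ _
  have ht2 : t * |s2| ≤ c1 / 4 := by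
    have h1 : t ≤ c1 / (4 * (|s2| + 1)) := min_le_right _ _
    calc t * |s2| ≤ c1 / (4 * (|s2| + 1)) * (|s2| + 1) := by
          gcongr
          linarith
      _ = c1 / 4 := by field_simp
  refine ⟨min (t * r) (c1 / 4), by positivity, ?_⟩
  intro X hX
  set δ0 := min (t * r) (c1 / 4) with hδ0
  have h1 : (1 - t) * c1 ≤ (1 - t) * (r * X ^ 2 + s2) := by
    have : 0 ≤ 1 - t := by linarith
    gcongr
  have h2 : δ0 * X ^ 2 ≤ t * r * X ^ 2 := by
    gcongr
    exact min_le_left _ _
  have h3 : δ0 ≤ c1 / 4 := min_le_right _ _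
  have h4 : -(c1 / 4) ≤ t * s2 := by
    have := neg_abs_le s2
    nlinarith
  have h5 : c1 / 2 ≤ (1 - t) * c1 := by nlinarith
  nlinarith

/-- **The valley.** -/
theorem Side.valley_gen (S : Side α d h q p τ G) (ρ : ℚ) (hρ : 0 < ρ) (N K : ℕ) (hN : 1 ≤ N)
    (hK : 2 ≤ K) (R : ℕ → ℚ[X]) (hR : QD (N + 4) R)
    (hV : ∀ X U : ℝ, G (X + ρ * U ^ 2) U = VV K R X U)
    (h04 : (R 0).coeff (N + 4) = 0) (h12 : (R 1).coeff (N + 2) = 0) (hr : 0 < (R 2).coeff N)
    (hoff : ∀ η : ℝ, 0 < η → ∃ δ : ℝ, 0 < δ ∧ Ev fun x U => η * U ^ 2 ≤ |x - ρ * U ^ 2| →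
      δ * (U * (x ^ 2 + U ^ 4)) ≤ G x U) :
    SideThin α d h q p τ := by
  set r := (R 2).coeff N with hrdef
  have hr' : (0 : ℝ) < r := by exact_mod_cast hr
  have hρ' : (0 : ℝ) < ρ := by exact_mod_cast hρ
  have hempty : Thin (fv d h) {P | P ∈ Sec α ∧ 0 ≤ uu q p τ P ∧ P ∈ (∅ : Set (ℕ × ℕ))} :=
    (thin_empty _).mono (by rintro P ⟨_, _, hP⟩; exact hP)
  -- first parabola
  obtain ⟨k, hk2, hkM, hk, htop⟩ := S.parabR ρ 0 hρ K (N + 4) R hR (by
    intro X U
    rw [Rat.cast_zero, zero_mul, add_zero, hV])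
  have hk3 : k ≤ N + 3 := by
    by_contra hcon
    have : k = N + 4 := by omega
    rw [this, h04] at hk
    exact lt_irrefl _ hk
  -- the trivial conditions
  have hg2 : ∀ (R : ℕ → ℚ[X]), QD (N + 4) R → ∀ i, i ≠ N → (R 2).coeff i = 0 ∨ i < N := by
    intro R hR i hi
    rcases Nat.lt_or_ge i N with h | h
    · exact Or.inr h
    · exact Or.inl (hR 2 i (by omega))
  have hg3 : ∀ (R : ℕ → ℚ[X]), QD (N + 4) R → ∀ k i, 3 ≤ k → (R k).coeff i = 0 ∨
      2 * k + i ≤ N + 4 := by
    intro R hR k i _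
    rcases Nat.lt_or_ge (N + 4) (2 * k + i) with h | h
    · exact Or.inl (hR k i h)
    · exact Or.inr h
  rcases hk3.lt_or_eq with hlt | heq
  swap
  · -- stage one
    set s := (R 0).coeff (N + 3) with hs
    have hs0 : (0 : ℝ) < s := by
      rw [heq] at hk
      exact_mod_cast hk
    have hsm := small_rest N (N + 3) (N + 2) K (N + 4) hK (by omega) (by omega) (by omega) R hR
      (by omega) (by omega) (by
        intro i hi
        rcases Nat.lt_or_ge i (N + 3) with h | h
        · exact Or.inr h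
        · left
          rcases Nat.lt_or_ge i (N + 5) with h' | h'
          · have : i = N + 4 := by omega
            rw [this, h04]
          · exact hR 0 i (by omega)) (by
        intro i hi
        rcases Nat.lt_or_ge i (N + 2) with h | h
        · exact Or.inr (by omega)
        · exact Or.inl (hR 1 i (by omega))) (hg2 R hR) (hg3 R hR)
    have hlow := low_of_main hN (by omega) hsm (fun _ _ => True) (min (r : ℝ) s) (by positivity) (by
      filter_upwards [eventually_ge_atTop 0] with U hU X _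
      rw [h12]
      have e1 : min (r : ℝ) s * (X ^ 2 * U ^ N) ≤ r * (X ^ 2 * U ^ N) := by
        gcongr
        exact min_le_left _ _
      have e2 : min (r : ℝ) s * U ^ (N + 3) ≤ s * U ^ (N + 3) := by
        gcongr
        exact min_le_right _ _
      push_cast
      linarith)
    obtain ⟨η, hη, δ, hδ, hin⟩ := hlow
    apply S.valley_combine ρ 0 0 (fun _ _ => True) ∅ hempty (fun _ _ _ => trivial) hoff
    refine ⟨η, hη, δ, hδ, ?_⟩
    filter_upwards [hin] with U h1 X hX _
    have e : X + 0 + 0 * U + ρ * U ^ 2 = X + ρ * U ^ 2 := by ring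
    rw [e, hV]
    exact h1 X hX trivial
  have h03 : (R 0).coeff (N + 3) = 0 := htop _ hlt (by omega)
  -- stage two
  set g := (R 1).coeff (N + 1) with hg
  set s := (R 0).coeff (N + 2) with hs
  by_cases hd : (g : ℝ) ^ 2 < 4 * r * s
  · have hs4 : (0 : ℝ) < s := by
      by_contra hcon
      push Not at hcon
      nlinarith [sq_nonneg (g : ℝ)]
    obtain ⟨δ0, hδ0, hdef⟩ := def_form r g s hr' hs4 (Or.inr hd)
    have hsm := small_rest N (N + 2) (N + 1) K (N + 4) hK (by omega) (by omega) (by omega) R hR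
      (by omega) (by omega) (by
        intro i hi
        rcases Nat.lt_or_ge i (N + 2) with h | h
        · exact Or.inr h
        · left
          rcases Nat.lt_or_ge i (N + 5) with h' | h'
          · obtain rfl | rfl : i = N + 3 ∨ i = N + 4 := by omega
            · exact h03
            · exact h04
          · exact hR 0 i (by omega)) (by
        intro i hi
        rcases Nat.lt_or_ge i (N + 1) with h | h
        · exact Or.inr (by omega)
        · left
          rcases Nat.lt_or_ge i (N + 3) with h' | h'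
          · have : i = N + 2 := by omega
            rw [this, h12]
          · exact hR 1 i (by omega)) (hg2 R hR) (hg3 R hR)
    have hlow := low_of_main hN (by omega) hsm (fun _ _ => True) δ0 hδ0 (by
      filter_upwards [eventually_ge_atTop 0] with U hU X _
      have e1 := hdef X U (Or.inr hd)
      have e2 : U ^ N * (δ0 * (X ^ 2 + U ^ 2)) ≤ U ^ N * (r * X ^ 2 + g * U * X + s * U ^ 2) := by
        gcongr
      calc δ0 * (X ^ 2 * U ^ N + U ^ (N + 2)) = U ^ N * (δ0 * (X ^ 2 + U ^ 2)) := by ring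
        _ ≤ _ := e2
        _ = _ := by ring)
    obtain ⟨η, hη, δ, hδ, hin⟩ := hlow
    apply S.valley_combine ρ 0 0 (fun _ _ => True) ∅ hempty (fun _ _ _ => trivial) hoff
    refine ⟨η, hη, δ, hδ, ?_⟩
    filter_upwards [hin] with U h1 X hX _
    have e : X + 0 + 0 * U + ρ * U ^ 2 = X + ρ * U ^ 2 := by ring
    rw [e, hV]
    exact h1 X hX trivial
  push Not at hd
  -- first shift
  set κ : ℚ := -g / (2 * r) with hκ
  have hκr : g + 2 * κ * r = 0 := by
    rw [hκ]
    field_simp
    ring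
  set R' := shift K R 1 κ with hR'
  have hQ' : QD (N + 4) R' := shift_QD hR 1 (by norm_num) κ
  have hV' : ∀ X U : ℝ, G (X + κ * U + ρ * U ^ 2) U = VV K R' X U := by
    intro X U
    have e := VV_shift K R 1 κ X U
    rw [pow_one] at e
    rw [hV, e]
  have r2 : (R' 2).coeff N = r := by
    rw [hR', shift_two hK R 1 κ N]
    intro j hj1 hj2
    exact hR j _ (by omega)
  have r12 : (R' 1).coeff (N + 2) = 0 := by
    rw [hR', shift_one hK R 1 κ (N + 2) (by omega), h12, hR 2 _ (by omega)]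
    · ring
    intro j hj1 hj2
    exact hR j _ (by omega)
  have r11 : (R' 1).coeff (N + 1) = 0 := by
    rw [hR', shift_one hK R 1 κ (N + 1) (by omega), ← hg]
    · have : N + 1 - 1 = N := by omega
      rw [this, ← hrdef, hκr]
    intro j hj1 hj2
    exact hR j _ (by omega)
  have r04 : (R' 0).coeff (N + 4) = 0 := by
    rw [hR', shift_zero hK R 1 κ (N + 4) (by omega), h04, hR 1 _ (by omega), hR 2 _ (by omega)]
    · ring
    intro j hj1 hj2
    exact hR j _ (by omega)
  have r03 : (R' 0).coeff (N + 3) = 0 := by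
    rw [hR', shift_zero hK R 1 κ (N + 3) (by omega), h03]
    · have : N + 3 - 1 = N + 2 := by omega
      rw [this, h12, hR 2 _ (by omega)]
      ring
    intro j hj1 hj2
    exact hR j _ (by omega)
  have r02 : (R' 0).coeff (N + 2) = s + κ * g + κ ^ 2 * r := by
    rw [hR', shift_zero hK R 1 κ (N + 2) (by omega)]
    · have e1 : N + 2 - 1 = N + 1 := by omega
      have e2 : N + 2 - 2 * 1 = N := by omega
      rw [e1, e2]
    intro j hj1 hj2
    exact hR j _ (by omega)
  have hs' : (R' 0).coeff (N + 2) ≤ 0 := by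
    rw [r02]
    have h1 : 4 * r * (s + κ * g + κ ^ 2 * r) ≤ 0 := by
      have h2 : 4 * r * (s + κ * g + κ ^ 2 * r) =
          4 * r * s - g ^ 2 + (g + 2 * κ * r) ^ 2 := by ring
      rw [h2, hκr]
      have : 4 * r * s ≤ g ^ 2 := by exact_mod_cast hd
      nlinarith
    by_contra hcon
    push Not at hcon
    have : 0 < 4 * r * (s + κ * g + κ ^ 2 * r) := by positivity
    linarith
  obtain ⟨l, hl2, hlM, hl, hltop⟩ := S.parabR ρ κ hρ K (N + 4) R' hQ' hV'
  have hl1 : l ≤ N + 1 := by
    by_contra hcon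
    obtain rfl | rfl | rfl : l = N + 2 ∨ l = N + 3 ∨ l = N + 4 := by omega
    · linarith
    · rw [r03] at hl
      exact lt_irrefl _ hl
    · rw [r04] at hl
      exact lt_irrefl _ hl
  have r02' : (R' 0).coeff (N + 2) = 0 := hltop _ (by omega) (by omega)
  rcases hl1.lt_or_eq with hlt1 | heq1
  swap
  · -- stage three
    set s3 := (R' 0).coeff (N + 1) with hs3
    have hs0 : (0 : ℝ) < s3 := by
      rw [heq1] at hl
      exact_mod_cast hl
    have hsm := small_rest N (N + 1) (N + 2) K (N + 4) hK (by omega) (by omega) (by omega) R' hQ'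
      (by omega) (by omega) (by
        intro i hi
        rcases Nat.lt_or_ge i (N + 1) with h | h
        · exact Or.inr h
        · left
          rcases Nat.lt_or_ge i (N + 5) with h' | h'
          · obtain rfl | rfl | rfl : i = N + 2 ∨ i = N + 3 ∨ i = N + 4 := by omega
            · exact r02'
            · exact r03
            · exact r04
          · exact hQ' 0 i (by omega)) (by
        intro i hi
        rcases Nat.lt_or_ge i (N + 1) with h | h
        · exact Or.inr (by omega)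
        · left
          rcases Nat.lt_or_ge i (N + 2) with h' | h'
          · have : i = N + 1 := by omega
            rw [this, r11]
          · exact hQ' 1 i (by omega)) (hg2 R' hQ') (hg3 R' hQ')
    have hlow := low_of_main hN (by omega) hsm (fun _ _ => True) (min (r : ℝ) s3) (by positivity) (by
      filter_upwards [eventually_ge_atTop 0] with U hU X _
      rw [r12, r2]
      have e1 : min (r : ℝ) s3 * (X ^ 2 * U ^ N) ≤ r * (X ^ 2 * U ^ N) := by
        gcongr
        exact min_le_left _ _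
      have e2 : min (r : ℝ) s3 * U ^ (N + 1) ≤ s3 * U ^ (N + 1) := by
        gcongr
        exact min_le_right _ _
      push_cast
      linarith)
    obtain ⟨η, hη, δ, hδ, hin⟩ := hlow
    apply S.valley_combine ρ κ 0 (fun _ _ => True) ∅ hempty (fun _ _ _ => trivial) hoff
    refine ⟨η, hη, δ, hδ, ?_⟩
    filter_upwards [hin] with U h1 X hX _
    rw [add_zero, hV']
    exact h1 X hX trivial
  have r01 : (R' 0).coeff (N + 1) = 0 := hltop _ (by omega) (by omega)
  have hN2 : 2 ≤ N := by omega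
  -- second shift
  set g2 := (R' 1).coeff N with hg2def
  set κ0 : ℚ := -g2 / (2 * r) with hκ0
  have hκ0r : g2 + 2 * κ0 * r = 0 := by
    rw [hκ0]
    field_simp
    ring
  set R'' := shift K R' 0 κ0 with hR''
  have hQ'' : QD (N + 4) R'' := shift_QD hQ' 0 (by norm_num) κ0
  have hV'' : ∀ X U : ℝ, G (X + κ0 + κ * U + ρ * U ^ 2) U = VV K R'' X U := by
    intro X U
    have e := VV_shift K R' 0 κ0 X U
    rw [pow_zero, mul_one] at e
    rw [hV', e]
  have t2 : (R'' 2).coeff N = r := by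
    rw [hR'', shift_two hK R' 0 κ0 N, r2]
    intro j hj1 hj2
    exact hQ' j _ (by omega)
  have t1 : ∀ i, N ≤ i → (R'' 1).coeff i = 0 := by
    intro i hi
    rw [hR'', shift_one hK R' 0 κ0 i (by omega), Nat.sub_zero]
    · rcases Nat.lt_or_ge i (N + 3) with h' | h'
      · obtain rfl | rfl | rfl : i = N ∨ i = N + 1 ∨ i = N + 2 := by omega
        · rw [r2, ← hg2def, hκ0r]
        · rw [r11, hQ' 2 _ (by omega)]
          ring
        · rw [r12, hQ' 2 _ (by omega)]
          ring
      · rw [hQ' 1 _ (by omega), hQ' 2 _ (by omega)]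
        ring
    intro j hj1 hj2
    exact hQ' j _ (by omega)
  have t0 : ∀ i, N + 1 ≤ i → (R'' 0).coeff i = 0 := by
    intro i hi
    rw [hR'', shift_zero hK R' 0 κ0 i (by omega), Nat.sub_zero, hQ' 2 i (by omega)]
    · rcases Nat.lt_or_ge i (N + 5) with h' | h'
      · obtain rfl | rfl | rfl | rfl : i = N + 1 ∨ i = N + 2 ∨ i = N + 3 ∨ i = N + 4 := by omega
        · rw [r01, r11]
          ring
        · rw [r02', r12]
          ring
        · rw [r03, hQ' 1 _ (by omega)]
          ring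
        · rw [r04, hQ' 1 _ (by omega)]
          ring
      · rw [hQ' 0 _ (by omega), hQ' 1 _ (by omega)]
        ring
    intro j hj1 hj2
    rw [Nat.zero_mul, Nat.sub_zero]
    exact hQ' j _ (by omega)
  set s2 := (R'' 0).coeff N with hs2
  -- values along the parabolas
  have hsum : ∀ (v : ℝ) (j : ℕ), N ≤ j → ∑ i ∈ range (K + 1), ((R'' i).coeff j : ℝ) * v ^ i =
      if j = N then r * v ^ 2 + s2 else 0 := by
    intro v j hj
    have h1 : ∑ i ∈ range (K + 1), ((R'' i).coeff j : ℝ) * v ^ i =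
        ∑ i ∈ range 3, ((R'' i).coeff j : ℝ) * v ^ i := by
      symm
      apply Finset.sum_subset
      · intro i hi
        rw [mem_range] at hi ⊢
        omega
      · intro i hi1 hi2
        rw [mem_range] at hi1 hi2
        rw [hQ'' i j (by omega)]
        simp
    rw [h1]
    simp only [Finset.sum_range_succ, Finset.sum_range_zero]
    rw [t1 j hj]
    split_ifs with h2
    · rw [h2, t2, ← hs2]
      push_cast
      ring
    · rw [t0 j (by omega), hQ'' 2 j (by omega)]
      simp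
  obtain ⟨c1, hc1, hclow⟩ := exists_lower r s2 ρ κ κ0 q p τ S.hq
  set Z : Set (ℕ × ℕ) := {P | (r : ℝ) * ((P.1 : ℝ) - ρ * (uu q p τ P) ^ 2 - κ * uu q p τ P - κ0) ^ 2 +
    s2 = 0} with hZdef
  have hgood : ∀ P ∈ Sec α, P ∉ Z → c1 ≤ (r : ℝ) *
      ((P.1 : ℝ) - ρ * (uu q p τ P) ^ 2 - κ * uu q p τ P - κ0) ^ 2 + s2 := by
    intro P hP hPZ
    apply hclow P
    have hne : (r : ℝ) * ((P.1 : ℝ) - ρ * (uu q p τ P) ^ 2 - κ * uu q p τ P - κ0) ^ 2 +
      s2 ≠ 0 := hPZ
    obtain ⟨m, hm2, hmM, hm, hmtop⟩ := S.parabV ρ κ κ0 hρ K (N + 4) R'' hQ'' hV'' P hP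
    have hmN : m = N := by
      rcases Nat.lt_trichotomy m N with h1 | h1 | h1
      · exfalso
        have := hmtop N h1 (by omega)
        rw [hsum _ N le_rfl, if_pos rfl] at this
        exact hne this
      · exact h1
      · exfalso
        rw [hsum _ m h1.le, if_neg (by omega)] at hm
        exact lt_irrefl _ hm
    rw [hmN, hsum _ N le_rfl, if_pos rfl] at hm
    exact hm
  have hZthin : Thin (fv d h) {P | P ∈ Sec α ∧ 0 ≤ uu q p τ P ∧ P ∈ Z} := by
    have hone : ∀ v : ℝ, Thin (fv d h) {P | P ∈ Sec α ∧ 0 ≤ uu q p τ P ∧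
        (P.1 : ℝ) - ρ * (uu q p τ P) ^ 2 - κ * uu q p τ P = v + κ0} := by
      intro v
      apply S.thin_parab ρ κ hρ (N + 4) (v + κ0)
        (fun j => ∑ i ∈ range (K + 1), ((R'' i).coeff j : ℝ) * v ^ i)
      intro t
      have e1 : (ρ : ℝ) * t ^ 2 + κ * t + (v + κ0) = v + κ0 + κ * t + ρ * t ^ 2 := by ring
      rw [e1, hV'', VV_poly K (N + 4) R'' hQ'']
    set v0 : ℝ := Real.sqrt (-s2 / r) with hv0
    apply ((hone v0).union (hone (-v0))).mono
    rintro P ⟨hP1, hP2, hP3⟩
    set v : ℝ := (P.1 : ℝ) - ρ * (uu q p τ P) ^ 2 - κ * uu q p τ P - κ0 with hv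
    have hP3' : (r : ℝ) * v ^ 2 + s2 = 0 := hP3
    have h1 : v ^ 2 = -s2 / r := by
      field_simp
      linarith
    have h2 : |v| = v0 := by
      rw [hv0, ← h1, Real.sqrt_sq_eq_abs]
    rcases abs_cases v with ⟨h3, _⟩ | ⟨h3, _⟩
    · left
      refine ⟨hP1, hP2, ?_⟩
      rw [← h2, h3, hv]
      ring
    · right
      refine ⟨hP1, hP2, ?_⟩
      rw [← h2, h3, hv]
      ring
  -- stage four
  obtain ⟨δ0, hδ0p, hlow'⟩ := quad_lower (r : ℝ) s2 c1 hr' hc1
  have hsm := small_rest N N (N + 2) K (N + 4) hK (by omega) (by omega) (by omega) R'' hQ''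
    (by omega) (by omega) (by
      intro i hi
      rcases Nat.lt_or_ge i N with h | h
      · exact Or.inr h
      · exact Or.inl (t0 i (by omega))) (by
      intro i hi
      rcases Nat.lt_or_ge i N with h | h
      · exact Or.inr (by omega)
      · exact Or.inl (t1 i h)) (hg2 R'' hQ'') (hg3 R'' hQ'')
  have hlow := low_of_main hN hN2 hsm (fun X _ => c1 ≤ (r : ℝ) * X ^ 2 + s2) δ0 hδ0p (by
    filter_upwards [eventually_ge_atTop 0] with U hU X hX
    rw [t1 (N + 2) (by omega), t2]
    have e1 := hlow' X hX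
    have e2 : U ^ N * (δ0 * (X ^ 2 + 1)) ≤ U ^ N * (r * X ^ 2 + s2) := by gcongr
    push_cast
    linarith)
  obtain ⟨η, hη, δ, hδ, hin⟩ := hlow
  apply S.valley_combine ρ κ κ0
    (fun x U => c1 ≤ (r : ℝ) * (x - ρ * U ^ 2 - κ * U - κ0) ^ 2 + s2) Z hZthin hgood hoff
  refine ⟨η, hη, δ, hδ, ?_⟩
  filter_upwards [hin] with U h1 X hX hg
  rw [hV'']
  apply h1 X hX
  have e : X + κ0 + κ * U + ρ * U ^ 2 - ρ * U ^ 2 - κ * U - κ0 = X := by ring
  rw [e] at hg
  exact hg

end PP72
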