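import Pool.Agent.PP72.Valley

/-!
Quintics: one side of a rational direction of multiplicity four or five.
-/

open Polynomial Finset Filter

namespace PP72

variable {α : ℝ} {d : ℕ} {h : ℕ → ℝ[X]} {q p : ℕ} {τ : ℤ} {G : ℝ → ℝ → ℝ} {c : ℕ × ℕ → ℚ}

theorem Side.thin_region (S : Side α 5 h q p τ (G5 c)) (m1 m2 m3 : ℕ × ℕ) (Z : Finset (ℕ × ℕ))
    (hpos : ∀ p ∈ ({m1, m2, m3} : Finset (ℕ × ℕ)), 0 < c p)
    (hZ : ∀ p ∈ Z, c p = 0)
    (hT0 : ({m1, m2, m3} : Finset (ℕ × ℕ)) ⊆ T5)
    (hdom : ∀ p ∈ T5 \ {m1, m2, m3}, p ∈ Z ∨ Dom p m1 m2 m3)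
    (h1 : 2 ≤ m1.1) (h2 : 3 ≤ m2.1 + m2.2) : SideThin α 5 h q p τ := by
  obtain ⟨δ, hδ, hev⟩ := region_pos c m1 m2 m3 Z hpos hZ hT0 hdom h1 h2
  exact S.thin_of_ev δ hδ hev

/-- the restriction to lines -/
theorem Side.lines5 (S : Side α 5 h q p τ (G5 c)) : ∃ w : ℝ, 0 < w ∧ ∀ m : ℕ,
    0 < (c (4, 0) : ℝ) ∨ ((c (4, 0) : ℝ) = 0 ∧
      (0 < c (3, 1) * (m * w) + (c (3, 0) : ℝ) ∨ (c (3, 1) * (m * w) + (c (3, 0) : ℝ) = 0 ∧
        0 < c (2, 2) * (m * w) ^ 2 + c (2, 1) * (m * w) + (c (2, 0) : ℝ)))) := by
  obtain ⟨w, hw, hline⟩ := S.line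
  refine ⟨w, hw, fun m => ?_⟩
  set U : ℝ := m * w with hU
  obtain ⟨k, hk2, hk4, hk, htop⟩ := hline m 4
    (fun i => if i = 0 then (c (0, 5) * U ^ 5 + c (0, 4) * U ^ 4 + c (0, 3) * U ^ 3 +
        c (0, 2) * U ^ 2 + c (0, 1) * U + c (0, 0) : ℝ) else
      if i = 1 then (c (1, 4) * U ^ 4 + c (1, 3) * U ^ 3 + c (1, 2) * U ^ 2 + c (1, 1) * U +
        c (1, 0) : ℝ) else
      if i = 2 then (c (2, 2) * U ^ 2 + c (2, 1) * U + c (2, 0) : ℝ) else
      if i = 3 then (c (3, 1) * U + c (3, 0) : ℝ) else (c (4, 0) : ℝ)) (by
    intro x
    rw [← hU, G5_eq]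
    simp only [Finset.sum_range_succ, Finset.sum_range_zero]
    norm_num
    ring)
  have t3 := htop 3
  have t4 := htop 4
  norm_num at t3 t4
  obtain rfl | rfl | rfl : k = 2 ∨ k = 3 ∨ k = 4 := by omega
  · norm_num at hk t3 t4
    refine Or.inr ⟨by exact_mod_cast t4, Or.inr ⟨t3, hk⟩⟩
  · norm_num at hk t4
    exact Or.inr ⟨by exact_mod_cast t4, Or.inl hk⟩
  · norm_num at hk
    exact Or.inl (by exact_mod_cast hk)

theorem linear_signs (b a w : ℝ) (hw : 0 < w) (h : ∀ m : ℕ, 0 ≤ b * (m * w) + a) :
    0 ≤ a ∧ 0 ≤ b := by
  have ha : 0 ≤ a := by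
    have := h 0
    simpa using this
  refine ⟨ha, ?_⟩
  by_contra hb
  push Not at hb
  obtain ⟨m, hm⟩ := exists_nat_gt (a / (-b * w))
  have hbw : 0 < -b * w := mul_pos (by linarith) hw
  rw [div_lt_iff₀ hbw] at hm
  have := h m
  nlinarith

theorem quad_signs (e2 e1 e0 w : ℝ) (hw : 0 < w)
    (h : ∀ m : ℕ, 0 < e2 * (m * w) ^ 2 + e1 * (m * w) + e0) :
    0 < e0 ∧ 0 ≤ e2 ∧ (e2 = 0 → 0 ≤ e1) := by
  have h0 : 0 < e0 := by
    have := h 0
    simpa using this
  refine ⟨h0, ?_, ?_⟩
  · by_contra hb
    push Not at hb
    obtain ⟨m, hm⟩ := exists_nat_gt ((|e1| + e0) / (-e2 * w) + 1 / w)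
    have hbw : 0 < -e2 * w := mul_pos (by linarith) hw
    have h1 : (|e1| + e0) / (-e2 * w) ≤ m := by
      have : 0 ≤ 1 / w := by positivity
      linarith
    have h2 : 1 / w ≤ m := by
      have : 0 ≤ (|e1| + e0) / (-e2 * w) := by positivity
      linarith
    rw [div_le_iff₀ hbw] at h1
    rw [div_le_iff₀ hw] at h2
    have h3 := h m
    set U : ℝ := m * w with hU
    have h4 : e1 * U ≤ |e1| * U := by
      have := le_abs_self e1
      nlinarith
    have h5 : |e1| + e0 ≤ -e2 * U := by
      rw [hU]
      linarith
    have h6 : (|e1| + e0) * U ≤ (-e2 * U) * U := by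
      have : 0 ≤ U := by linarith
      gcongr
    have h7 : e0 ≤ e0 * U := by nlinarith
    nlinarith
  · intro he2
    have h1 : ∀ m : ℕ, 0 ≤ e1 * (m * w) + e0 := by
      intro m
      have := h m
      rw [he2] at this
      linarith
    exact (linear_signs e1 e0 w hw h1).2

/-- **One side of a rational direction of multiplicity four or five.** -/
theorem Side.side5 (S : Side α 5 h q p τ (G5 c))
    (hμ : 0 < c (1, 4) ∨ (c (1, 4) = 0 ∧ 0 < c (0, 5))) : SideThin α 5 h q p τ := by
  obtain ⟨w, hw, hl⟩ := S.lines5
  have hA0 : 0 ≤ c (4, 0) := by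
    rcases hl 0 with h1 | h1
    · have : 0 < c (4, 0) := by exact_mod_cast h1
      exact this.le
    · have : c (4, 0) = 0 := by exact_mod_cast h1.1
      exact this.ge
  rcases hA0.lt_or_eq with hA | hA
  · -- `A > 0`
    rcases hμ with hf | ⟨hf, hk⟩
    · apply S.thin_region (4, 0) (1, 4) (1, 4) ∅ _ _ (by decide) (by decide) (by norm_num)
        (by norm_num)
      · intro p hp
        simp only [Finset.mem_insert, Finset.mem_singleton] at hp
        rcases hp with rfl | rfl | rfl
        · exact hA
        · exact hf
        · exact hf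
      · intro p hp
        simp at hp
    · apply S.thin_region (4, 0) (0, 5) (0, 5) {(1, 4)} _ _ (by decide) (by decide) (by norm_num)
        (by norm_num)
      · intro p hp
        simp only [Finset.mem_insert, Finset.mem_singleton] at hp
        rcases hp with rfl | rfl | rfl
        · exact hA
        · exact hk
        · exact hk
      · intro p hp
        simp only [Finset.mem_singleton] at hp
        rw [hp]
        exact hf
  have hAR : (c (4, 0) : ℝ) = 0 := by exact_mod_cast hA.symm
  have hl' : ∀ m : ℕ, 0 < c (3, 1) * (m * w) + (c (3, 0) : ℝ) ∨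
      (c (3, 1) * (m * w) + (c (3, 0) : ℝ) = 0 ∧
        0 < c (2, 2) * (m * w) ^ 2 + c (2, 1) * (m * w) + (c (2, 0) : ℝ)) := by
    intro m
    rcases hl m with h1 | h1
    · rw [hAR] at h1
      exact absurd h1 (lt_irrefl _)
    · exact h1.2
  obtain ⟨hC0, hB0⟩ := linear_signs (c (3, 1)) (c (3, 0)) w hw (by
    intro m
    rcases hl' m with h1 | h1
    · exact h1.le
    · exact h1.1.ge)
  have hC0' : 0 ≤ c (3, 0) := by exact_mod_cast hC0
  have hB0' : 0 ≤ c (3, 1) := by exact_mod_cast hB0
  rcases hB0'.lt_or_eq with hB | hB
  · rcases hμ with hf | ⟨hf, hk⟩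
    · apply S.thin_region (3, 1) (1, 4) (1, 4) {(4, 0)} _ _ (by decide) (by decide) (by norm_num)
        (by norm_num)
      · intro p hp
        simp only [Finset.mem_insert, Finset.mem_singleton] at hp
        rcases hp with rfl | rfl | rfl
        · exact hB
        · exact hf
        · exact hf
      · intro p hp
        simp only [Finset.mem_singleton] at hp
        rw [hp]
        exact hA.symm
    · apply S.thin_region (3, 1) (0, 5) (0, 5) {(4, 0), (1, 4)} _ _ (by decide) (by decide)
        (by norm_num) (by norm_num)
      · intro p hp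
        simp only [Finset.mem_insert, Finset.mem_singleton] at hp
        rcases hp with rfl | rfl | rfl
        · exact hB
        · exact hk
        · exact hk
      · intro p hp
        simp only [Finset.mem_insert, Finset.mem_singleton] at hp
        rcases hp with rfl | rfl
        · exact hA.symm
        · exact hf
  rcases hC0'.lt_or_eq with hC | hC
  · -- `C > 0`
    rcases hμ with hf | ⟨hf, hk⟩
    · -- order four
      by_cases hE : 0 ≤ (c (2, 2) : ℝ) ∨ (c (2, 2) : ℝ) ^ 2 < 4 * c (3, 0) * c (1, 4)
      · obtain ⟨δ0, hδ0, hdef⟩ := def_form (c (3, 0)) (c (2, 2)) (c (1, 4))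
          (by exact_mod_cast hC) (by exact_mod_cast hf) hE
        have hreg := region5 c (3, 0) (1, 4) (1, 4) {(3, 0), (2, 2), (1, 4)} {(4, 0), (3, 1)}
          (by decide) (by
            intro p hp
            simp only [Finset.mem_insert, Finset.mem_singleton] at hp
            rcases hp with rfl | rfl
            · exact hA.symm
            · exact hB.symm) (by decide) (δ0 / 2) (by positivity) (fun _ _ => True) (by
            intro x U hU hx _
            have hx0 : 0 ≤ x := by linarith
            have hU0 : 0 ≤ U := by linarith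
            have h1 := hdef x (U ^ 2) (Or.inl ⟨hx0, by positivity⟩)
            rw [Finset.sum_insert (by decide), Finset.sum_insert (by decide), Finset.sum_singleton]
            unfold mon
            simp only [pow_zero, pow_one, mul_one]
            have h2 : x * (δ0 * (x ^ 2 + (U ^ 2) ^ 2)) ≤
                x * (c (3, 0) * x ^ 2 + c (2, 2) * U ^ 2 * x + c (1, 4) * (U ^ 2) ^ 2) := by gcongr
            have h3 : 0 ≤ δ0 * x ^ 3 := by positivity
            nlinarith)
        apply S.thin_of_ev (δ0 / 2 / 2) (by positivity)
        apply ev_low (3, 0) (1, 4) (1, 4) _ _ (by positivity) (by norm_num) (by norm_num)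
        exact hreg.mono fun x U _ _ h => h trivial
      · push Not at hE
        obtain ⟨hE1, hE2⟩ := hE
        have hE1q : c (2, 2) < 0 := by exact_mod_cast hE1
        set ρ : ℚ := -c (2, 2) / (2 * c (3, 0)) with hρ
        have hρ0 : 0 < ρ := div_pos (by linarith) (by linarith)
        have hEρ : c (2, 2) = -2 * c (3, 0) * ρ := by
          rw [hρ]
          field_simp
        have hE2q : 4 * c (3, 0) * c (1, 4) ≤ c (2, 2) ^ 2 := by exact_mod_cast hE2
        rcases hE2q.lt_or_eq with hE3 | hE3
        · exfalso
          have hneg : c (3, 0) * ρ ^ 3 + c (2, 2) * ρ ^ 2 + c (1, 4) * ρ < 0 := by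
            have h1 : 4 * c (3, 0) * (c (3, 0) * ρ ^ 2 + c (2, 2) * ρ + c (1, 4)) < 0 := by
              have h2 : 4 * c (3, 0) * (c (3, 0) * ρ ^ 2 + c (2, 2) * ρ + c (1, 4)) =
                  4 * c (3, 0) * c (1, 4) - c (2, 2) ^ 2 + (c (2, 2) + 2 * c (3, 0) * ρ) ^ 2 := by
                ring
              have h3 : c (2, 2) + 2 * c (3, 0) * ρ = 0 := by rw [hEρ]; ring
              rw [h2, h3]
              linarith
            have h4 : c (3, 0) * ρ ^ 2 + c (2, 2) * ρ + c (1, 4) < 0 := by
              by_contra hcon
              push Not at hcon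
              have : 0 ≤ 4 * c (3, 0) * (c (3, 0) * ρ ^ 2 + c (2, 2) * ρ + c (1, 4)) := by
                positivity
              linarith
            have h5 : ρ * (c (3, 0) * ρ ^ 2 + c (2, 2) * ρ + c (1, 4)) < 0 :=
              mul_neg_of_pos_of_neg hρ0 h4
            linarith
          have hneg' : ((c (3, 0) * ρ ^ 3 + c (2, 2) * ρ ^ 2 + c (1, 4) * ρ : ℚ) : ℝ) < 0 := by
            exact_mod_cast hneg
          have hp := S.parab0 ρ 0 hρ0
            ((c (3, 0) * ρ ^ 3 + c (2, 2) * ρ ^ 2 + c (1, 4) * ρ : ℚ) : ℝ)
            (c (2, 1) * ρ ^ 2 + c (1, 3) * ρ + c (0, 5)) (c (2, 0) * ρ ^ 2 + c (1, 2) * ρ + c (0, 4))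
            (c (1, 1) * ρ + c (0, 3)) (c (1, 0) * ρ + c (0, 2)) (c (0, 1)) (c (0, 0)) (by
            intro t
            rw [G5_eq, hAR, ← hB]
            push_cast
            ring)
          rcases hp with h1 | ⟨h1, _⟩ <;> linarith
        · have hfρ : c (1, 4) = c (3, 0) * ρ ^ 2 := by
            have h2 : 4 * c (3, 0) * c (1, 4) = 4 * c (3, 0) * (c (3, 0) * ρ ^ 2) := by
              rw [hE3, hEρ]
              ring
            exact mul_left_cancel₀ (by positivity) h2
          exact valley4 S (c (3, 0)) ρ hC hρ0 hA.symm hB.symm rfl hEρ hfρ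
    · -- order five
      rcases lt_trichotomy (c (2, 2)) 0 with hE | hE | hE
      · exfalso
        set ρ : ℚ := -c (2, 2) / (2 * c (3, 0)) with hρ
        have hρ0 : 0 < ρ := div_pos (by linarith) (by linarith)
        have hEρ : c (2, 2) = -2 * c (3, 0) * ρ := by
          rw [hρ]
          field_simp
        have hneg : c (3, 0) * ρ ^ 3 + c (2, 2) * ρ ^ 2 < 0 := by
          rw [hEρ]
          have : 0 < c (3, 0) * ρ ^ 3 := by positivity
          nlinarith
        have hneg' : ((c (3, 0) * ρ ^ 3 + c (2, 2) * ρ ^ 2 : ℚ) : ℝ) < 0 := by exact_mod_cast hneg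
        have hp := S.parab0 ρ 0 hρ0
          ((c (3, 0) * ρ ^ 3 + c (2, 2) * ρ ^ 2 : ℚ) : ℝ)
          (c (2, 1) * ρ ^ 2 + c (1, 3) * ρ + c (0, 5)) (c (2, 0) * ρ ^ 2 + c (1, 2) * ρ + c (0, 4))
          (c (1, 1) * ρ + c (0, 3)) (c (1, 0) * ρ + c (0, 2)) (c (0, 1)) (c (0, 0)) (by
          intro t
          rw [G5_eq, hAR, ← hB, hf]
          push_cast
          ring)
        rcases hp with h1 | ⟨h1, _⟩ <;> linarith
      · apply S.thin_region (3, 0) (0, 5) (0, 5) {(4, 0), (3, 1), (1, 4), (2, 2)} _ _ (by decide)
          (by decide) (by norm_num) (by norm_num)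
        · intro p hp
          simp only [Finset.mem_insert, Finset.mem_singleton] at hp
          rcases hp with rfl | rfl | rfl
          · exact hC
          · exact hk
          · exact hk
        · intro p hp
          simp only [Finset.mem_insert, Finset.mem_singleton] at hp
          rcases hp with rfl | rfl | rfl | rfl
          · exact hA.symm
          · exact hB.symm
          · exact hf
          · exact hE
      · apply S.thin_region (3, 0) (2, 2) (0, 5) {(4, 0), (3, 1), (1, 4)} _ _ (by decide)
          (by decide) (by norm_num) (by norm_num)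
        · intro p hp
          simp only [Finset.mem_insert, Finset.mem_singleton] at hp
          rcases hp with rfl | rfl | rfl
          · exact hC
          · exact hE
          · exact hk
        · intro p hp
          simp only [Finset.mem_insert, Finset.mem_singleton] at hp
          rcases hp with rfl | rfl | rfl
          · exact hA.symm
          · exact hB.symm
          · exact hf
  · -- `A = B = C = 0`
    have hBR : (c (3, 1) : ℝ) = 0 := by exact_mod_cast hB.symm
    have hCR : (c (3, 0) : ℝ) = 0 := by exact_mod_cast hC.symm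
    obtain ⟨hE00, hE20, hE10⟩ := quad_signs (c (2, 2)) (c (2, 1)) (c (2, 0)) w hw (by
      intro m
      rcases hl' m with h1 | h1
      · rw [hBR, hCR] at h1
        simp at h1
      · exact h1.2)
    have hE00' : 0 < c (2, 0) := by exact_mod_cast hE00
    have hE20' : 0 ≤ c (2, 2) := by exact_mod_cast hE20
    rcases hE20'.lt_or_eq with hE2 | hE2
    · rcases hμ with hf | ⟨hf, hk⟩
      · apply S.thin_region (2, 2) (1, 4) (1, 4) {(4, 0), (3, 1), (3, 0)} _ _ (by decide)
          (by decide) (by norm_num) (by norm_num)
        · intro p hp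
          simp only [Finset.mem_insert, Finset.mem_singleton] at hp
          rcases hp with rfl | rfl | rfl
          · exact hE2
          · exact hf
          · exact hf
        · intro p hp
          simp only [Finset.mem_insert, Finset.mem_singleton] at hp
          rcases hp with rfl | rfl | rfl
          · exact hA.symm
          · exact hB.symm
          · exact hC.symm
      · apply S.thin_region (2, 2) (0, 5) (0, 5) {(4, 0), (3, 1), (3, 0), (1, 4)} _ _ (by decide)
          (by decide) (by norm_num) (by norm_num)
        · intro p hp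
          simp only [Finset.mem_insert, Finset.mem_singleton] at hp
          rcases hp with rfl | rfl | rfl
          · exact hE2
          · exact hk
          · exact hk
        · intro p hp
          simp only [Finset.mem_insert, Finset.mem_singleton] at hp
          rcases hp with rfl | rfl | rfl | rfl
          · exact hA.symm
          · exact hB.symm
          · exact hC.symm
          · exact hf
    have hE2R : (c (2, 2) : ℝ) = 0 := by exact_mod_cast hE2.symm
    have hE10' : 0 ≤ c (2, 1) := by exact_mod_cast hE10 hE2R
    rcases hE10'.lt_or_eq with hE1 | hE1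
    · rcases hμ with hf | ⟨hf, hk⟩
      · apply S.thin_region (2, 1) (1, 4) (1, 4) {(4, 0), (3, 1), (3, 0), (2, 2)} _ _ (by decide)
          (by decide) (by norm_num) (by norm_num)
        · intro p hp
          simp only [Finset.mem_insert, Finset.mem_singleton] at hp
          rcases hp with rfl | rfl | rfl
          · exact hE1
          · exact hf
          · exact hf
        · intro p hp
          simp only [Finset.mem_insert, Finset.mem_singleton] at hp
          rcases hp with rfl | rfl | rfl | rfl
          · exact hA.symm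
          · exact hB.symm
          · exact hC.symm
          · exact hE2.symm
      · by_cases hF : 0 ≤ (c (1, 3) : ℝ) ∨ (c (1, 3) : ℝ) ^ 2 < 4 * c (2, 1) * c (0, 5)
        · obtain ⟨δ0, hδ0, hdef⟩ := def_form (c (2, 1)) (c (1, 3)) (c (0, 5))
            (by exact_mod_cast hE1) (by exact_mod_cast hk) hF
          have hreg := region5 c (2, 1) (0, 5) (0, 5) {(2, 1), (1, 3), (0, 5)}
            {(4, 0), (3, 1), (3, 0), (2, 2), (1, 4)}
            (by decide) (by
              intro p hp
              simp only [Finset.mem_insert, Finset.mem_singleton] at hp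
              rcases hp with rfl | rfl | rfl | rfl | rfl
              · exact hA.symm
              · exact hB.symm
              · exact hC.symm
              · exact hE2.symm
              · exact hf) (by decide) (δ0 / 2) (by positivity) (fun _ _ => True) (by
              intro x U hU hx _
              have hx0 : 0 ≤ x := by linarith
              have hU0 : 0 ≤ U := by linarith
              have h1 := hdef x (U ^ 2) (Or.inl ⟨hx0, by positivity⟩)
              rw [Finset.sum_insert (by decide), Finset.sum_insert (by decide),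
                Finset.sum_singleton]
              unfold mon
              simp only [pow_zero, pow_one, one_mul]
              have h2 : U * (δ0 * (x ^ 2 + (U ^ 2) ^ 2)) ≤
                  U * (c (2, 1) * x ^ 2 + c (1, 3) * U ^ 2 * x + c (0, 5) * (U ^ 2) ^ 2) := by
                gcongr
              have h3 : 0 ≤ δ0 * (x ^ 2 * U) := by positivity
              nlinarith)
          apply S.thin_of_ev (δ0 / 2 / 2) (by positivity)
          apply ev_low (2, 1) (0, 5) (0, 5) _ _ (by positivity) (by norm_num) (by norm_num)
          exact hreg.mono fun x U _ _ h => h trivial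
        · push Not at hF
          obtain ⟨hF1, hF2⟩ := hF
          have hF1q : c (1, 3) < 0 := by exact_mod_cast hF1
          set ρ : ℚ := -c (1, 3) / (2 * c (2, 1)) with hρ
          have hρ0 : 0 < ρ := div_pos (by linarith) (by linarith)
          have hFρ : c (1, 3) = -2 * c (2, 1) * ρ := by
            rw [hρ]
            field_simp
          have hF2q : 4 * c (2, 1) * c (0, 5) ≤ c (1, 3) ^ 2 := by exact_mod_cast hF2
          rcases hF2q.lt_or_eq with hF3 | hF3
          · exfalso
            have hneg : c (2, 1) * ρ ^ 2 + c (1, 3) * ρ + c (0, 5) < 0 := by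
              have h1 : 4 * c (2, 1) * (c (2, 1) * ρ ^ 2 + c (1, 3) * ρ + c (0, 5)) < 0 := by
                have h2 : 4 * c (2, 1) * (c (2, 1) * ρ ^ 2 + c (1, 3) * ρ + c (0, 5)) =
                    4 * c (2, 1) * c (0, 5) - c (1, 3) ^ 2 +
                      (c (1, 3) + 2 * c (2, 1) * ρ) ^ 2 := by ring
                have h3 : c (1, 3) + 2 * c (2, 1) * ρ = 0 := by rw [hFρ]; ring
                rw [h2, h3]
                linarith
              by_contra hcon
              push Not at hcon
              have : 0 ≤ 4 * c (2, 1) * (c (2, 1) * ρ ^ 2 + c (1, 3) * ρ + c (0, 5)) := by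
                positivity
              linarith
            have hneg' : ((c (2, 1) * ρ ^ 2 + c (1, 3) * ρ + c (0, 5) : ℚ) : ℝ) < 0 := by
              exact_mod_cast hneg
            have hp := S.parab0 ρ 0 hρ0 0
              ((c (2, 1) * ρ ^ 2 + c (1, 3) * ρ + c (0, 5) : ℚ) : ℝ)
              (c (2, 0) * ρ ^ 2 + c (1, 2) * ρ + c (0, 4))
              (c (1, 1) * ρ + c (0, 3)) (c (1, 0) * ρ + c (0, 2)) (c (0, 1)) (c (0, 0)) (by
              intro t
              rw [G5_eq, hAR, hBR, hCR, hE2R, hf]
              push_cast
              ring)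
            rcases hp with h1 | ⟨_, h1 | ⟨h1, _⟩⟩ <;> linarith
          · have hkρ : c (0, 5) = c (2, 1) * ρ ^ 2 := by
              have h2 : 4 * c (2, 1) * c (0, 5) = 4 * c (2, 1) * (c (2, 1) * ρ ^ 2) := by
                rw [hF3, hFρ]
                ring
              exact mul_left_cancel₀ (by positivity) h2
            exact valley5 S (c (2, 1)) ρ hE1 hρ0 hA.symm hB.symm hC.symm hE2.symm hf rfl hFρ hkρ
    · -- only `x²`
      rcases hμ with hf | ⟨hf, hk⟩
      · apply S.thin_region (2, 0) (1, 4) (1, 4) {(4, 0), (3, 1), (3, 0), (2, 2), (2, 1)} _ _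
          (by decide) (by decide) (by norm_num) (by norm_num)
        · intro p hp
          simp only [Finset.mem_insert, Finset.mem_singleton] at hp
          rcases hp with rfl | rfl | rfl
          · exact hE00'
          · exact hf
          · exact hf
        · intro p hp
          simp only [Finset.mem_insert, Finset.mem_singleton] at hp
          rcases hp with rfl | rfl | rfl | rfl | rfl
          · exact hA.symm
          · exact hB.symm
          · exact hC.symm
          · exact hE2.symm
          · exact hE1.symm
      · rcases lt_trichotomy (c (1, 3)) 0 with hF | hF | hF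
        · exfalso
          set ρ : ℚ := c (0, 5) / (-c (1, 3)) + 1 with hρ
          have hρ0 : 0 < ρ := by
            have : 0 < c (0, 5) / (-c (1, 3)) := div_pos hk (by linarith)
            linarith
          have hneg : c (1, 3) * ρ + c (0, 5) = c (1, 3) := by
            rw [hρ]
            have hne : c (1, 3) ≠ 0 := hF.ne
            field_simp
            ring
          have hneg' : ((c (1, 3) * ρ + c (0, 5) : ℚ) : ℝ) < 0 := by
            rw [hneg]
            exact_mod_cast hF
          have hE1R : (c (2, 1) : ℝ) = 0 := by exact_mod_cast hE1.symm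
          have hp := S.parab0 ρ 0 hρ0 0
            ((c (1, 3) * ρ + c (0, 5) : ℚ) : ℝ)
            (c (2, 0) * ρ ^ 2 + c (1, 2) * ρ + c (0, 4))
            (c (1, 1) * ρ + c (0, 3)) (c (1, 0) * ρ + c (0, 2)) (c (0, 1)) (c (0, 0)) (by
            intro t
            rw [G5_eq, hAR, hBR, hCR, hE2R, hf, hE1R]
            push_cast
            ring)
          rcases hp with h1 | ⟨_, h1 | ⟨h1, _⟩⟩ <;> linarith
        · apply S.thin_region (2, 0) (0, 5) (0, 5)
            {(4, 0), (3, 1), (3, 0), (2, 2), (2, 1), (1, 4), (1, 3)} _ _
            (by decide) (by decide) (by norm_num) (by norm_num)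
          · intro p hp
            simp only [Finset.mem_insert, Finset.mem_singleton] at hp
            rcases hp with rfl | rfl | rfl
            · exact hE00'
            · exact hk
            · exact hk
          · intro p hp
            simp only [Finset.mem_insert, Finset.mem_singleton] at hp
            rcases hp with rfl | rfl | rfl | rfl | rfl | rfl | rfl
            · exact hA.symm
            · exact hB.symm
            · exact hC.symm
            · exact hE2.symm
            · exact hE1.symm
            · exact hf
            · exact hF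
        · apply S.thin_region (2, 0) (1, 3) (0, 5)
            {(4, 0), (3, 1), (3, 0), (2, 2), (2, 1), (1, 4)} _ _
            (by decide) (by decide) (by norm_num) (by norm_num)
          · intro p hp
            simp only [Finset.mem_insert, Finset.mem_singleton] at hp
            rcases hp with rfl | rfl | rfl
            · exact hE00'
            · exact hF
            · exact hk
          · intro p hp
            simp only [Finset.mem_insert, Finset.mem_singleton] at hp
            rcases hp with rfl | rfl | rfl | rfl | rfl | rfl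
            · exact hA.symm
            · exact hB.symm
            · exact hC.symm
            · exact hE2.symm
            · exact hE1.symm
            · exact hf

end PP72
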