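import Pool.Agent.PP72.Gen4
import Pool.Agent.PP72.Side5

/-!
Rational directions of multiplicity four or five in every degree: the expansion.
-/

open Polynomial Finset Filter

namespace PP72

variable {α : ℝ} {d : ℕ} {h : ℕ → ℝ[X]} {q p : ℕ} {τ : ℤ} {m : ℕ} {Rg : ℕ → ℚ[X]}

/-- the leading form vanishes to order at least four -/
structure GData (m : ℕ) (Rg : ℕ → ℚ[X]) : Prop where
  z1 : ∀ j i, m + 5 < j + i → (Rg j).coeff i = 0
  z2 : ∀ j i, j + i = m + 5 → i < 4 → (Rg j).coeff i = 0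

/-- the top coefficients -/
noncomputable def cc (m : ℕ) (Rg : ℕ → ℚ[X]) : ℕ × ℕ → ℚ := fun p => (Rg (m + p.1)).coeff p.2

theorem GData.aev (D : GData m Rg) (j : ℕ) (U : ℝ) :
    aeval U (Rg j) = ∑ i ∈ range (m + 6), ((Rg j).coeff i : ℝ) * U ^ i := by
  have hdeg : (Rg j).natDegree < m + 6 := by
    apply Nat.lt_succ_of_le
    rw [natDegree_le_iff_coeff_eq_zero]
    intro N hN
    exact D.z1 j N (by omega)
  rw [aeval_eq_sum_range' hdeg]
  apply Finset.sum_congr rfl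
  intro i _
  rw [Rat.smul_def]

theorem GData.aev6 (D : GData m Rg) (j : ℕ) (U : ℝ) :
    aeval U (Rg (m + j)) = ∑ i ∈ range 6, ((Rg (m + j)).coeff i : ℝ) * U ^ i := by
  have hdeg : (Rg (m + j)).natDegree < 6 := by
    apply Nat.lt_succ_of_le
    rw [natDegree_le_iff_coeff_eq_zero]
    intro N hN
    exact D.z1 _ N (by omega)
  rw [aeval_eq_sum_range' hdeg]
  apply Finset.sum_congr rfl
  intro i _
  rw [Rat.smul_def]

theorem GData.e5 (D : GData m Rg) (U : ℝ) : aeval U (Rg (m + 5)) = 0 := by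
  rw [D.aev6]
  simp only [Finset.sum_range_succ, Finset.sum_range_zero]
  rw [D.z2 (m + 5) 0 (by omega) (by omega), D.z1 (m + 5) 1 (by omega), D.z1 (m + 5) 2 (by omega),
    D.z1 (m + 5) 3 (by omega), D.z1 (m + 5) 4 (by omega), D.z1 (m + 5) 5 (by omega)]
  simp

theorem GData.e4 (D : GData m Rg) (U : ℝ) : aeval U (Rg (m + 4)) = cc m Rg (4, 0) := by
  rw [D.aev6]
  simp only [Finset.sum_range_succ, Finset.sum_range_zero]
  rw [D.z2 (m + 4) 1 (by omega) (by omega), D.z1 (m + 4) 2 (by omega),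
    D.z1 (m + 4) 3 (by omega), D.z1 (m + 4) 4 (by omega), D.z1 (m + 4) 5 (by omega)]
  simp [cc]

theorem GData.e3 (D : GData m Rg) (U : ℝ) :
    aeval U (Rg (m + 3)) = cc m Rg (3, 1) * U + cc m Rg (3, 0) := by
  rw [D.aev6]
  simp only [Finset.sum_range_succ, Finset.sum_range_zero]
  rw [D.z2 (m + 3) 2 (by omega) (by omega),
    D.z1 (m + 3) 3 (by omega), D.z1 (m + 3) 4 (by omega), D.z1 (m + 3) 5 (by omega)]
  simp [cc]
  ring

theorem GData.e2 (D : GData m Rg) (U : ℝ) :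
    aeval U (Rg (m + 2)) = cc m Rg (2, 2) * U ^ 2 + cc m Rg (2, 1) * U + cc m Rg (2, 0) := by
  rw [D.aev6]
  simp only [Finset.sum_range_succ, Finset.sum_range_zero]
  rw [D.z2 (m + 2) 3 (by omega) (by omega), D.z1 (m + 2) 4 (by omega), D.z1 (m + 2) 5 (by omega)]
  simp [cc]
  ring

theorem GData.e1 (D : GData m Rg) (U : ℝ) :
    aeval U (Rg (m + 1)) = cc m Rg (1, 4) * U ^ 4 + cc m Rg (1, 3) * U ^ 3 +
      cc m Rg (1, 2) * U ^ 2 + cc m Rg (1, 1) * U + cc m Rg (1, 0) := by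
  rw [D.aev6]
  simp only [Finset.sum_range_succ, Finset.sum_range_zero]
  rw [D.z1 (m + 1) 5 (by omega)]
  simp [cc]
  ring

theorem GData.e0 (D : GData m Rg) (U : ℝ) :
    aeval U (Rg m) = cc m Rg (0, 5) * U ^ 5 + cc m Rg (0, 4) * U ^ 4 + cc m Rg (0, 3) * U ^ 3 +
      cc m Rg (0, 2) * U ^ 2 + cc m Rg (0, 1) * U + cc m Rg (0, 0) := by
  have := D.aev6 0 U
  rw [Nat.add_zero] at this
  rw [this]
  simp only [Finset.sum_range_succ, Finset.sum_range_zero]
  simp [cc]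
  ring

/-- the part of low degree in `x` -/
noncomputable def lowV (m : ℕ) (Rg : ℕ → ℚ[X]) (x U : ℝ) : ℝ :=
  ∑ j ∈ range m, aeval U (Rg j) * x ^ j

theorem GData.split (D : GData m Rg) (x U : ℝ) :
    VV (m + 5) Rg x U = lowV m Rg x U + x ^ m * G5 (cc m Rg) x U := by
  unfold VV lowV
  rw [show m + 5 + 1 = m + 6 by ring, Finset.sum_range_add]
  congr 1
  simp only [Finset.sum_range_succ, Finset.sum_range_zero]
  rw [Nat.add_zero, D.e0, D.e1, D.e2, D.e3, D.e4, D.e5, G5_eq]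
  ring

theorem GData.low (D : GData m Rg) (mm : ℕ × ℕ) (hmm : mm = (1, 4) ∨ mm = (0, 5)) (η : ℝ)
    (hη : 0 < η) : Ev fun x U => |lowV m Rg x U| ≤ η * (x ^ m * mon mm x U) := by
  have h1 := rest_small (range m ×ˢ range (m + 6)) (fun p => ((Rg p.1).coeff p.2 : ℝ))
    (m + mm.1, mm.2) (m + mm.1, mm.2) (m + mm.1, mm.2) (by
    rintro ⟨j, i⟩ hp
    rw [mem_product, mem_range, mem_range] at hp
    by_cases hc : m + 5 < j + i
    · left
      simp only
      rw [D.z1 j i hc]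
      norm_num
    · right
      refine ⟨1, by simp, 0, by simp, 0, by simp, by norm_num, ?_, ?_, ?_⟩
      · simp only
        omega
      · simp only
        rcases hmm with rfl | rfl <;> simp only <;> omega
      · simp only
        rcases hmm with rfl | rfl <;> simp only <;> omega) (η / 3) (by positivity)
  refine h1.mono ?_
  intro x U hU hx h2
  have e1 : lowV m Rg x U = ∑ p ∈ range m ×ˢ range (m + 6),
      ((Rg p.1).coeff p.2 : ℝ) * mon p x U := by
    unfold lowV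
    rw [Finset.sum_product]
    apply Finset.sum_congr rfl
    intro j _
    rw [D.aev, Finset.sum_mul]
    apply Finset.sum_congr rfl
    intro i _
    unfold mon
    ring
  have e2 : mon (m + mm.1, mm.2) x U = x ^ m * mon mm x U := by
    unfold mon
    rw [pow_add]
    ring
  rw [e1]
  rw [e2] at h2
  refine h2.trans (le_of_eq ?_)
  ring

/-- from the top part to the whole polynomial -/
theorem GData.transfer (D : GData m Rg) (m1 m2 m3 : ℕ × ℕ) (hm3 : m3 = (1, 4) ∨ m3 = (0, 5))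
    (δ : ℝ) (hδ : 0 < δ) (Q : ℝ → ℝ → Prop)
    (h : Ev fun x U => Q x U → δ * (mon m1 x U + mon m2 x U + mon m3 x U) ≤ G5 (cc m Rg) x U) :
    Ev fun x U => Q x U →
      δ / 2 * (x ^ m * (mon m1 x U + mon m2 x U + mon m3 x U)) ≤ VV (m + 5) Rg x U := by
  refine (h.and (D.low m3 hm3 (δ / 2) (by positivity))).mono ?_
  rintro x U hU hx ⟨h1, h2⟩ hQ
  have hx0 : 0 ≤ x := by linarith
  have hU0 : 0 ≤ U := by linarith
  rw [D.split]
  have h3 := (abs_le.1 h2).1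
  have h4 : x ^ m * (δ * (mon m1 x U + mon m2 x U + mon m3 x U)) ≤ x ^ m * G5 (cc m Rg) x U := by
    have := h1 hQ
    gcongr
  have p1 := mon_nonneg m1 hx0 hU0
  have p2 := mon_nonneg m2 hx0 hU0
  have p0 : 0 ≤ x ^ m := by positivity
  have h5 : 0 ≤ δ * (x ^ m * mon m1 x U) := by positivity
  have h6 : 0 ≤ δ * (x ^ m * mon m2 x U) := by positivity
  nlinarith

theorem Side.thin_of_G5 (S : Side α d h q p τ (VV (m + 5) Rg)) (D : GData m Rg)
    (m1 m2 m3 : ℕ × ℕ) (hm3 : m3 = (1, 4) ∨ m3 = (0, 5)) (δ : ℝ) (hδ : 0 < δ)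
    (hG5 : Ev fun x U => δ * (mon m1 x U + mon m2 x U + mon m3 x U) ≤ G5 (cc m Rg) x U)
    (h1 : 2 ≤ m + m1.1) (h2 : 3 ≤ m + m2.1 + m2.2) : SideThin α d h q p τ := by
  have h3 := D.transfer m1 m2 m3 hm3 δ hδ (fun _ _ => True) (hG5.mono fun x U _ _ h4 _ => h4)
  apply S.thin_of_ev (δ / 2) (by positivity)
  apply ev_low (m + m1.1, m1.2) (m + m2.1, m2.2) (m + m3.1, m3.2) _ _ (by positivity) h1 h2
  refine h3.mono ?_
  intro x U _ _ h4
  refine le_trans (le_of_eq ?_) (h4 trivial)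
  unfold mon
  simp only [pow_add]
  ring

theorem Side.thin_region_m (S : Side α d h q p τ (VV (m + 5) Rg)) (D : GData m Rg)
    (m1 m2 m3 : ℕ × ℕ) (Z : Finset (ℕ × ℕ)) (hm3 : m3 = (1, 4) ∨ m3 = (0, 5))
    (hpos : ∀ p ∈ ({m1, m2, m3} : Finset (ℕ × ℕ)), 0 < cc m Rg p)
    (hZ : ∀ p ∈ Z, cc m Rg p = 0)
    (hT0 : ({m1, m2, m3} : Finset (ℕ × ℕ)) ⊆ T5)
    (hdom : ∀ p ∈ T5 \ {m1, m2, m3}, p ∈ Z ∨ Dom p m1 m2 m3)
    (h1 : 2 ≤ m + m1.1) (h2 : 3 ≤ m + m2.1 + m2.2) : SideThin α d h q p τ := by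
  obtain ⟨δ0, hδ0, hmain⟩ := pos_main (cc m Rg) m1 m2 m3 hpos
  have h3 := region5 (cc m Rg) m1 m2 m3 {m1, m2, m3} Z hT0 hZ hdom δ0 hδ0 (fun _ _ => True)
    (fun x U hU hx _ => hmain x U hU hx)
  exact S.thin_of_G5 D m1 m2 m3 hm3 (δ0 / 2) (by positivity)
    (h3.mono fun x U _ _ h4 => h4 trivial) h1 h2

/-- signs along the lines -/
theorem Side.levels (S : Side α d h q p τ (VV (m + 5) Rg)) : ∃ w : ℝ, 0 < w ∧ ∀ k L : ℕ,
    L ≤ m + 5 → (∀ j, L < j → j ≤ m + 5 → aeval (k * w : ℝ) (Rg j) = 0) →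
    0 ≤ aeval (k * w : ℝ) (Rg L) ∧ 2 ≤ L ∧ (L = 2 → 0 < aeval (k * w : ℝ) (Rg L)) := by
  obtain ⟨w, hw, hline⟩ := S.line
  refine ⟨w, hw, fun k L hL htop => ?_⟩
  obtain ⟨i, hi2, hiM, hi, hitop⟩ := hline k (m + 5) (fun j => aeval (k * w : ℝ) (Rg j)) (by
    intro x
    rfl)
  have hiL : i ≤ L := by
    by_contra hcon
    push Not at hcon
    rw [htop i hcon hiM] at hi
    exact lt_irrefl _ hi
  rcases hiL.lt_or_eq with h1 | h1
  · have h2 := hitop L h1 hL
    exact ⟨h2.ge, by omega, fun h3 => by omega⟩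
  · rw [h1] at hi
    exact ⟨hi.le, by omega, fun _ => hi⟩

/-- coefficients of the restriction to parabolas -/
theorem shift_top (K n e : ℕ) (hK : n + 2 ≤ K) (R : ℕ → ℚ[X]) (ρ : ℚ) (k : ℕ) (hk : k ≤ 2)
    (hz : ∀ j, j ≠ n → j ≠ n + 1 → j ≠ n + 2 → 2 * j ≤ 2 * n + 4 + e →
      (R j).coeff (2 * n + 4 + e - 2 * j) = 0) :
    ρ ^ k * (shift K R 2 ρ k).coeff (2 * n + 4 + e - 2 * k) =
      (n.choose k : ℚ) * ρ ^ n * (R n).coeff (4 + e) +
      ((n + 1).choose k : ℚ) * ρ ^ (n + 1) * (R (n + 1)).coeff (2 + e) +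
      ((n + 2).choose k : ℚ) * ρ ^ (n + 2) * (R (n + 2)).coeff e := by
  rw [shift_coeff, Finset.mul_sum]
  have h1 : ∑ j ∈ Finset.Icc k K, ρ ^ k * ((j.choose k : ℚ) * ρ ^ (j - k) *
      (if 2 * (j - k) ≤ 2 * n + 4 + e - 2 * k then
        (R j).coeff (2 * n + 4 + e - 2 * k - 2 * (j - k)) else 0)) =
      ∑ j ∈ Finset.Icc 0 K, (j.choose k : ℚ) * ρ ^ j *
        (if 2 * j ≤ 2 * n + 4 + e then (R j).coeff (2 * n + 4 + e - 2 * j) else 0) := by
    apply Finset.sum_subset_zero_on_sdiff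
    · intro j hj
      rw [mem_Icc] at hj ⊢
      omega
    · intro j hj
      rw [Finset.mem_sdiff, mem_Icc, mem_Icc] at hj
      rw [Nat.choose_eq_zero_of_lt (by omega)]
      simp
    · intro j hj
      rw [mem_Icc] at hj
      have e1 : ρ ^ j = ρ ^ k * ρ ^ (j - k) := by
        rw [← pow_add]
        congr 1
        omega
      rw [e1]
      by_cases hc : 2 * j ≤ 2 * n + 4 + e
      · rw [if_pos hc, if_pos (by omega)]
        have e2 : 2 * n + 4 + e - 2 * k - 2 * (j - k) = 2 * n + 4 + e - 2 * j := by omega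
        rw [e2]
        ring
      · rw [if_neg hc, if_neg (by omega)]
        ring
  rw [h1]
  have h2 : ∑ j ∈ Finset.Icc 0 K, (j.choose k : ℚ) * ρ ^ j *
        (if 2 * j ≤ 2 * n + 4 + e then (R j).coeff (2 * n + 4 + e - 2 * j) else 0) =
      ∑ j ∈ ({n, n + 1, n + 2} : Finset ℕ), (j.choose k : ℚ) * ρ ^ j *
        (if 2 * j ≤ 2 * n + 4 + e then (R j).coeff (2 * n + 4 + e - 2 * j) else 0) := by
    symm
    apply Finset.sum_subset
    · intro j hj
      simp only [Finset.mem_insert, Finset.mem_singleton] at hj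
      rw [mem_Icc]
      omega
    · intro j _ hj2
      simp only [Finset.mem_insert, Finset.mem_singleton, not_or] at hj2
      split_ifs with hc
      · rw [hz j hj2.1 hj2.2.1 hj2.2.2 hc, mul_zero]
      · rw [mul_zero]
  rw [h2, Finset.sum_insert (by simp), Finset.sum_insert (by simp), Finset.sum_singleton,
    if_pos (by omega), if_pos (by omega), if_pos (by omega)]
  have e1 : 2 * n + 4 + e - 2 * n = 4 + e := by omega
  have e2 : 2 * n + 4 + e - 2 * (n + 1) = 2 + e := by omega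
  have e3 : 2 * n + 4 + e - 2 * (n + 2) = e := by omega
  rw [e1, e2, e3]
  ring

end PP72
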