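import Pool.Agent.PP72.Gen5

/-!
Rational directions of multiplicity four or five in every degree: valleys and signs.
-/

open Polynomial Finset Filter

namespace PP72

variable {α : ℝ} {d : ℕ} {h : ℕ → ℝ[X]} {q p : ℕ} {τ : ℤ} {m : ℕ} {Rg : ℕ → ℚ[X]}

/-- valleys -/
theorem Side.valleyD (S : Side α d h q p τ (VV (m + 5) Rg)) (n e : ℕ) (hN : 1 ≤ 2 * n + e)
    (hn : n + 2 ≤ m + 5) (hQ : QD (2 * n + e + 4) Rg)
    (hz : ∀ j, j ≠ n → j ≠ n + 1 → j ≠ n + 2 → 2 * j ≤ 2 * n + 4 + e →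
      (Rg j).coeff (2 * n + 4 + e - 2 * j) = 0)
    (C ρ : ℚ) (hC : 0 < C) (hρ : 0 < ρ) (h4 : (Rg n).coeff (4 + e) = C * ρ ^ 2)
    (h2 : (Rg (n + 1)).coeff (2 + e) = -2 * C * ρ) (h0 : (Rg (n + 2)).coeff e = C)
    (hoff : ∀ η : ℝ, 0 < η → ∃ δ : ℝ, 0 < δ ∧ Ev fun x U => η * U ^ 2 ≤ |x - ρ * U ^ 2| →
      δ * (U * (x ^ 2 + U ^ 4)) ≤ VV (m + 5) Rg x U) :
    SideThin α d h q p τ := by
  have t0 := shift_top (m + 5) n e hn Rg ρ 0 (by norm_num) hz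
  have t1 := shift_top (m + 5) n e hn Rg ρ 1 (by norm_num) hz
  have t2 := shift_top (m + 5) n e hn Rg ρ 2 le_rfl hz
  rw [h4, h2, h0] at t0 t1 t2
  apply S.valley_gen ρ hρ (2 * n + e) (m + 5) hN (by omega) (shift (m + 5) Rg 2 ρ)
    (shift_QD hQ 2 le_rfl ρ) (fun X U => VV_shift _ _ _ _ _ _) ?_ ?_ ?_ hoff
  · have e1 : 2 * n + e + 4 = 2 * n + 4 + e - 2 * 0 := by omega
    rw [e1]
    rw [pow_zero, one_mul] at t0
    rw [t0, Nat.choose_zero_right, Nat.choose_zero_right, Nat.choose_zero_right]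
    push_cast
    ring
  · have e1 : 2 * n + e + 2 = 2 * n + 4 + e - 2 * 1 := by omega
    rw [e1]
    rw [Nat.choose_one_right, Nat.choose_one_right, Nat.choose_one_right, pow_one] at t1
    have h3 : ρ * (shift (m + 5) Rg 2 ρ 1).coeff (2 * n + 4 + e - 2 * 1) = 0 := by
      rw [t1]
      push_cast
      ring
    rcases mul_eq_zero.1 h3 with h5 | h5
    · exact absurd h5 hρ.ne'
    · exact h5
  · have e1 : 2 * n + e = 2 * n + 4 + e - 2 * 2 := by omega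
    rw [e1]
    have c1 : (n + 1).choose 2 = n + n.choose 2 := by
      rw [Nat.choose_succ_succ' n 1, Nat.choose_one_right]
    have c2 : (n + 2).choose 2 = (n + 1) + (n + n.choose 2) := by
      rw [Nat.choose_succ_succ' (n + 1) 1, Nat.choose_one_right, c1]
    rw [c1, c2] at t2
    push_cast at t2
    have h3 : ρ ^ 2 * (shift (m + 5) Rg 2 ρ 2).coeff (2 * n + 4 + e - 2 * 2) =
        ρ ^ 2 * (C * ρ ^ n) := by
      rw [t2]
      ring
    rw [mul_left_cancel₀ (by positivity) h3]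
    positivity

/-- negative values on parabolas -/
theorem Side.neg_parabD (S : Side α d h q p τ (VV (m + 5) Rg)) (n e : ℕ)
    (hn : n + 2 ≤ m + 5) (hQ : QD (2 * n + e + 4) Rg)
    (hz : ∀ j, j ≠ n → j ≠ n + 1 → j ≠ n + 2 → 2 * j ≤ 2 * n + 4 + e →
      (Rg j).coeff (2 * n + 4 + e - 2 * j) = 0)
    (ρ : ℚ) (hρ : 0 < ρ)
    (hneg : (Rg n).coeff (4 + e) + (Rg (n + 1)).coeff (2 + e) * ρ + (Rg (n + 2)).coeff e * ρ ^ 2 < 0) :
    False := by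
  have t0 := shift_top (m + 5) n e hn Rg ρ 0 (by norm_num) hz
  rw [pow_zero, one_mul, Nat.choose_zero_right, Nat.choose_zero_right, Nat.choose_zero_right] at t0
  have e1 : 2 * n + 4 + e - 2 * 0 = 2 * n + e + 4 := by omega
  rw [e1] at t0
  have h1 : (shift (m + 5) Rg 2 ρ 0).coeff (2 * n + e + 4) < 0 := by
    rw [t0]
    have h2 : ((1 : ℕ) : ℚ) * ρ ^ n * (Rg n).coeff (4 + e) +
        ((1 : ℕ) : ℚ) * ρ ^ (n + 1) * (Rg (n + 1)).coeff (2 + e) +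
        ((1 : ℕ) : ℚ) * ρ ^ (n + 2) * (Rg (n + 2)).coeff e =
        ρ ^ n * ((Rg n).coeff (4 + e) + (Rg (n + 1)).coeff (2 + e) * ρ +
          (Rg (n + 2)).coeff e * ρ ^ 2) := by
      push_cast
      ring
    rw [h2]
    exact mul_neg_of_pos_of_neg (by positivity) hneg
  obtain ⟨k, _, hkM, hk, htop⟩ := S.parabR ρ 0 hρ (m + 5) (2 * n + e + 4)
    (shift (m + 5) Rg 2 ρ) (shift_QD hQ 2 le_rfl ρ) (by
    intro X U
    rw [Rat.cast_zero, zero_mul, add_zero, VV_shift])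
  rcases hkM.lt_or_eq with h2 | h2
  · rw [htop _ h2 le_rfl] at h1
    exact lt_irrefl _ h1
  · rw [h2] at hk
    linarith

theorem GData.qd6 (D : GData m Rg) (hA : cc m Rg (4, 0) = 0) (hB : cc m Rg (3, 1) = 0) :
    QD (2 * (m + 1) + 0 + 4) Rg := by
  intro k i hki
  by_cases h1 : m + 5 < k + i
  · exact D.z1 k i h1
  by_cases h2 : k + i = m + 5
  · exact D.z2 k i h2 (by omega)
  unfold cc at hA hB
  obtain ⟨rfl, rfl⟩ | ⟨rfl, rfl⟩ : (k = m + 4 ∧ i = 0) ∨ (k = m + 3 ∧ i = 1) := by omega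
  · exact hA
  · exact hB

theorem GData.hz6 (D : GData m Rg) : ∀ j, j ≠ m + 1 → j ≠ m + 1 + 1 → j ≠ m + 1 + 2 →
    2 * j ≤ 2 * (m + 1) + 4 + 0 → (Rg j).coeff (2 * (m + 1) + 4 + 0 - 2 * j) = 0 := by
  intro j h1 h2 h3 h4
  exact D.z1 j _ (by omega)

theorem GData.qd5 (D : GData m Rg) (hA : cc m Rg (4, 0) = 0) (hB : cc m Rg (3, 1) = 0)
    (hC : cc m Rg (3, 0) = 0) (hE : cc m Rg (2, 2) = 0) (hf : cc m Rg (1, 4) = 0) :
    QD (2 * m + 1 + 4) Rg := by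
  intro k i hki
  by_cases h1 : m + 5 < k + i
  · exact D.z1 k i h1
  unfold cc at hA hB hC hE hf
  by_cases h2 : k + i = m + 5
  · by_cases h3 : i < 4
    · exact D.z2 k i h2 h3
    · obtain ⟨rfl, rfl⟩ : k = m + 1 ∧ i = 4 := by omega
      exact hf
  obtain ⟨rfl, rfl⟩ | ⟨rfl, rfl⟩ | ⟨rfl, rfl⟩ | ⟨rfl, rfl⟩ : (k = m + 4 ∧ i = 0) ∨
      (k = m + 3 ∧ i = 1) ∨ (k = m + 3 ∧ i = 0) ∨ (k = m + 2 ∧ i = 2) := by omega
  · exact hA
  · exact hB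
  · exact hC
  · exact hE

theorem GData.hz5 (D : GData m Rg) : ∀ j, j ≠ m → j ≠ m + 1 → j ≠ m + 2 →
    2 * j ≤ 2 * m + 4 + 1 → (Rg j).coeff (2 * m + 4 + 1 - 2 * j) = 0 := by
  intro j h1 h2 h3 h4
  exact D.z1 j _ (by omega)

/-- away from the valley, order five -/
theorem off_valley5 {c : ℕ × ℕ → ℚ} (r ρ : ℚ) (hr : 0 < r) (hρ : 0 < ρ) (hA : c (4, 0) = 0)
    (hB : c (3, 1) = 0) (hC : c (3, 0) = 0) (hE : c (2, 2) = 0) (hf : c (1, 4) = 0)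
    (h2 : c (2, 1) = r) (h1 : c (1, 3) = -2 * r * ρ) (h0 : c (0, 5) = r * ρ ^ 2)
    (η : ℝ) (hη : 0 < η) : ∃ δ : ℝ, 0 < δ ∧ Ev fun x U => η * U ^ 2 ≤ |x - ρ * U ^ 2| →
      δ * (mon (2, 1) x U + mon (0, 5) x U + mon (0, 5) x U) ≤ G5 c x U := by
  have hr' : (0 : ℝ) < r := by exact_mod_cast hr
  have hρ' : (0 : ℝ) < ρ := by exact_mod_cast hρ
  set K : ℝ := (1 + ρ / η) ^ 2 + 2 / η ^ 2 with hK
  have hK0 : 0 < K := by positivity
  refine ⟨r / K / 2, by positivity, ?_⟩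
  apply region5 c (2, 1) (0, 5) (0, 5) {(2, 1), (1, 3), (0, 5)}
    {(4, 0), (3, 1), (3, 0), (2, 2), (1, 4)} (by decide)
    (by
      intro p hp
      simp only [Finset.mem_insert, Finset.mem_singleton] at hp
      rcases hp with rfl | rfl | rfl | rfl | rfl <;> assumption) (by decide) (r / K) (by positivity)
  intro x U hU hx hQ
  have hx0 : 0 ≤ x := by linarith
  have hU0 : 0 ≤ U := by linarith
  set D := |x - ρ * U ^ 2| with hD
  have hD0 : 0 ≤ D := abs_nonneg _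
  have h3 : U ^ 2 ≤ D / η := by
    rw [le_div_iff₀ hη]
    linarith
  have h4 : x ≤ (1 + ρ / η) * D := by
    have a1 : x - ρ * U ^ 2 ≤ D := le_abs_self _
    have a2 : (ρ : ℝ) * U ^ 2 ≤ ρ * (D / η) := by gcongr
    have a3 : (1 + ρ / η) * D = D + ρ * (D / η) := by field_simp
    linarith
  have h5 : x ^ 2 + 2 * U ^ 4 ≤ K * D ^ 2 := by
    have a1 : x ^ 2 ≤ ((1 + ρ / η) * D) ^ 2 := by gcongr
    have a2 : (U ^ 2) ^ 2 ≤ (D / η) ^ 2 := by gcongr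
    have a3 : K * D ^ 2 = ((1 + ρ / η) * D) ^ 2 + 2 * (D / η) ^ 2 := by
      rw [hK]
      field_simp
    have a4 : U ^ 4 = (U ^ 2) ^ 2 := by ring
    rw [a3, a4]
    linarith
  have h6 : D ^ 2 = (x - ρ * U ^ 2) ^ 2 := sq_abs _
  rw [Finset.sum_insert (by decide), Finset.sum_insert (by decide), Finset.sum_singleton, h2, h1,
    h0]
  unfold mon
  simp only [pow_zero, pow_one, mul_one, one_mul]
  have h7 : r / K * (U * (x ^ 2 + 2 * U ^ 4)) ≤ r / K * (U * (K * D ^ 2)) := by gcongr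
  have h8 : r / K * (U * (K * D ^ 2)) = r * (U * (x - ρ * U ^ 2) ^ 2) := by
    rw [h6]
    field_simp
  rw [h8] at h7
  push_cast
  nlinarith [h7]

/-- valleys at zeros of order four -/
theorem Side.valley4D (S : Side α d h q p τ (VV (m + 5) Rg)) (D : GData m Rg) (C ρ : ℚ)
    (hC : 0 < C) (hρ : 0 < ρ) (hA : cc m Rg (4, 0) = 0) (hB : cc m Rg (3, 1) = 0)
    (hc : cc m Rg (3, 0) = C) (hE : cc m Rg (2, 2) = -2 * C * ρ)
    (hf : cc m Rg (1, 4) = C * ρ ^ 2) : SideThin α d h q p τ := by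
  apply S.valleyD (m + 1) 0 (by omega) (by omega) (D.qd6 hA hB) D.hz6 C ρ hC hρ hf hE hc
  intro η hη
  obtain ⟨δ, hδ, hev⟩ := off_valley (c := cc m Rg) C ρ hC hρ hA hB hc hE hf η hη
  refine ⟨δ / 2, by positivity, ?_⟩
  refine (D.transfer (3, 0) (1, 4) (1, 4) (Or.inl rfl) δ hδ _ hev).mono ?_
  intro x U hU hx h1 h2
  refine le_trans ?_ (h1 h2)
  have hx1 : 1 ≤ x := hU.trans hx
  have hx0 : 0 ≤ x := by linarith
  have hU0 : 0 ≤ U := by linarith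
  unfold mon
  simp only [pow_zero, pow_one, mul_one]
  apply mul_le_mul_of_nonneg_left _ (by positivity)
  have a1 : 1 ≤ x ^ m := one_le_pow₀ hx1
  have a2 : U * (x ^ 2 + U ^ 4) ≤ x * (x ^ 2 + U ^ 4) := by gcongr
  have a3 : 0 ≤ x * U ^ 4 := by positivity
  have a4 : x * (x ^ 2 + U ^ 4) ≤ x ^ 3 + x * U ^ 4 + x * U ^ 4 := by nlinarith
  have a5 : 0 ≤ x ^ 3 + x * U ^ 4 + x * U ^ 4 := by positivity
  calc U * (x ^ 2 + U ^ 4) ≤ 1 * (x ^ 3 + x * U ^ 4 + x * U ^ 4) := by linarith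
    _ ≤ x ^ m * (x ^ 3 + x * U ^ 4 + x * U ^ 4) := by gcongr

/-- valleys at zeros of order five -/
theorem Side.valley5D (S : Side α d h q p τ (VV (m + 5) Rg)) (D : GData m Rg) (r ρ : ℚ)
    (hr : 0 < r) (hρ : 0 < ρ) (hA : cc m Rg (4, 0) = 0) (hB : cc m Rg (3, 1) = 0)
    (hC : cc m Rg (3, 0) = 0) (hE : cc m Rg (2, 2) = 0) (hf : cc m Rg (1, 4) = 0)
    (h2 : cc m Rg (2, 1) = r) (h1 : cc m Rg (1, 3) = -2 * r * ρ)
    (h0 : cc m Rg (0, 5) = r * ρ ^ 2) : SideThin α d h q p τ := by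
  apply S.valleyD m 1 (by omega) (by omega) (D.qd5 hA hB hC hE hf) D.hz5 r ρ hr hρ h0 h1 h2
  intro η hη
  obtain ⟨δ, hδ, hev⟩ := off_valley5 (c := cc m Rg) r ρ hr hρ hA hB hC hE hf h2 h1 h0 η hη
  refine ⟨δ / 2, by positivity, ?_⟩
  refine (D.transfer (2, 1) (0, 5) (0, 5) (Or.inr rfl) δ hδ _ hev).mono ?_
  intro x U hU hx h3 h4
  refine le_trans ?_ (h3 h4)
  have hx1 : 1 ≤ x := hU.trans hx
  have hx0 : 0 ≤ x := by linarith
  have hU0 : 0 ≤ U := by linarith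
  unfold mon
  simp only [pow_zero, pow_one, one_mul]
  apply mul_le_mul_of_nonneg_left _ (by positivity)
  have a1 : 1 ≤ x ^ m := one_le_pow₀ hx1
  have a3 : 0 ≤ U ^ 5 := by positivity
  have a5 : 0 ≤ x ^ 2 * U + U ^ 5 + U ^ 5 := by positivity
  calc U * (x ^ 2 + U ^ 4) ≤ 1 * (x ^ 2 * U + U ^ 5 + U ^ 5) := by nlinarith
    _ ≤ x ^ m * (x ^ 2 * U + U ^ 5 + U ^ 5) := by gcongr

theorem quad_signs' (e2 e1 e0 w : ℝ) (hw : 0 < w)
    (h : ∀ k : ℕ, 0 ≤ e2 * (k * w) ^ 2 + e1 * (k * w) + e0) :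
    0 ≤ e0 ∧ 0 ≤ e2 ∧ (e2 = 0 → 0 ≤ e1) := by
  obtain ⟨_, h2, h3⟩ := quad_signs e2 e1 (e0 + 1) w hw (by
    intro k
    have := h k
    linarith)
  refine ⟨?_, h2, h3⟩
  have := h 0
  simpa using this

theorem cubic_signs' (e3 e2 e1 e0 w : ℝ) (hw : 0 < w)
    (h : ∀ k : ℕ, 0 ≤ e3 * (k * w) ^ 3 + e2 * (k * w) ^ 2 + e1 * (k * w) + e0) : 0 ≤ e3 := by
  by_contra hb
  push Not at hb
  set S : ℝ := |e2| + |e1| + |e0| + 1 with hS
  have hS1 : 0 < S := by positivity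
  obtain ⟨k, hk⟩ := exists_nat_gt (S / (-e3 * w) + 1 / w)
  have hbw : 0 < -e3 * w := mul_pos (by linarith) hw
  have h1 : S / (-e3 * w) ≤ k := by
    have : 0 ≤ 1 / w := by positivity
    linarith
  have h2 : 1 / w ≤ k := by
    have : 0 ≤ S / (-e3 * w) := by positivity
    linarith
  rw [div_le_iff₀ hbw] at h1
  rw [div_le_iff₀ hw] at h2
  have h3 := h k
  set U : ℝ := k * w with hU
  have hU1 : 1 ≤ U := h2
  have hU0 : 0 ≤ U := by linarith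
  have h4 : S ≤ -e3 * U := by
    rw [hU]
    linarith
  have h5 : S * U ^ 2 ≤ (-e3 * U) * U ^ 2 := by gcongr
  have h6 : e2 * U ^ 2 ≤ |e2| * U ^ 2 := by
    gcongr
    exact le_abs_self _
  have h7 : e1 * U ≤ |e1| * U ^ 2 := by
    calc e1 * U ≤ |e1| * U := by
          gcongr
          exact le_abs_self _
      _ ≤ |e1| * U ^ 2 := by
          gcongr
          nlinarith
  have h8 : e0 ≤ |e0| * U ^ 2 := by
    calc e0 ≤ |e0| := le_abs_self _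
      _ = |e0| * 1 := (mul_one _).symm
      _ ≤ |e0| * U ^ 2 := by
          gcongr
          exact one_le_pow₀ hU1
  have h9 : 0 < U ^ 2 := by positivity
  have h10 : S * U ^ 2 = |e2| * U ^ 2 + |e1| * U ^ 2 + |e0| * U ^ 2 + U ^ 2 := by
    rw [hS]
    ring
  nlinarith

end PP72
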