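import Pool.Agent.PP72.Gen6

/-!
Rational directions of multiplicity four or five in every degree: one side.
-/

open Polynomial Finset Filter

namespace PP72

variable {α : ℝ} {d : ℕ} {h : ℕ → ℝ[X]} {q p : ℕ} {τ : ℤ} {m : ℕ} {Rg : ℕ → ℚ[X]}

theorem Side.thin3 (S : Side α d h q p τ (VV (m + 5) Rg)) (D : GData m Rg)
    (m1 m2 m3 : ℕ × ℕ) (Z : Finset (ℕ × ℕ)) (hm3 : m3 = (1, 4) ∨ m3 = (0, 5))
    (h1 : 0 < cc m Rg m1) (h2 : 0 < cc m Rg m2) (h3 : 0 < cc m Rg m3)
    (hZ : ∀ p ∈ Z, cc m Rg p = 0)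
    (hT0 : ({m1, m2, m3} : Finset (ℕ × ℕ)) ⊆ T5)
    (hdom : ∀ p ∈ T5 \ {m1, m2, m3}, p ∈ Z ∨ Dom p m1 m2 m3)
    (hx : 2 ≤ m + m1.1) (hU : 3 ≤ m + m2.1 + m2.2) : SideThin α d h q p τ := by
  apply S.thin_region_m D m1 m2 m3 Z hm3 _ hZ hT0 hdom hx hU
  intro p hp
  simp only [Finset.mem_insert, Finset.mem_singleton] at hp
  rcases hp with rfl | rfl | rfl <;> assumption

/-- **One side of a rational direction of multiplicity four.** -/
theorem Side.side_four (S : Side α d h q p τ (VV (m + 5) Rg)) (D : GData m Rg)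
    (hf : 0 < cc m Rg (1, 4)) : SideThin α d h q p τ := by
  obtain ⟨w, hw, hl⟩ := S.levels
  have z5 : ∀ k : ℕ, aeval (k * w : ℝ) (Rg (m + 5)) = 0 := fun k => D.e5 _
  -- level `m + 4`
  have hA0 : 0 ≤ cc m Rg (4, 0) := by
    have h1 := (hl 0 (m + 4) (by omega) (by
      intro j h1 h2
      obtain rfl : j = m + 5 := by omega
      exact z5 0)).1
    rw [D.e4] at h1
    exact_mod_cast h1
  rcases hA0.lt_or_eq with hA | hA
  · exact S.thin3 D (4, 0) (1, 4) (1, 4) ∅ (Or.inl rfl) hA hf hf (by simp) (by decide) (by decide)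
      (by omega) (by omega)
  have hA' := hA.symm
  have z4 : ∀ k : ℕ, aeval (k * w : ℝ) (Rg (m + 4)) = 0 := by
    intro k
    rw [D.e4, hA', Rat.cast_zero]
  -- level `m + 3`
  obtain ⟨hC0, hB0⟩ := linear_signs (cc m Rg (3, 1)) (cc m Rg (3, 0)) w hw (by
    intro k
    have h1 := (hl k (m + 3) (by omega) (by
      intro j h1 h2
      obtain rfl | rfl : j = m + 4 ∨ j = m + 5 := by omega
      · exact z4 k
      · exact z5 k)).1
    rw [D.e3] at h1
    exact h1)
  have hC0' : 0 ≤ cc m Rg (3, 0) := by exact_mod_cast hC0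
  have hB0' : 0 ≤ cc m Rg (3, 1) := by exact_mod_cast hB0
  rcases hB0'.lt_or_eq with hB | hB
  · exact S.thin3 D (3, 1) (1, 4) (1, 4) {(4, 0)} (Or.inl rfl) hB hf hf (by
      intro p hp
      simp only [Finset.mem_singleton] at hp
      rw [hp]
      exact hA') (by decide) (by decide) (by omega) (by omega)
  have hB' := hB.symm
  rcases hC0'.lt_or_eq with hC | hC
  · -- `C > 0`
    by_cases hE : 0 ≤ (cc m Rg (2, 2) : ℝ) ∨
        (cc m Rg (2, 2) : ℝ) ^ 2 < 4 * cc m Rg (3, 0) * cc m Rg (1, 4)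
    · obtain ⟨δ0, hδ0, hdef⟩ := def_form (cc m Rg (3, 0)) (cc m Rg (2, 2)) (cc m Rg (1, 4))
        (by exact_mod_cast hC) (by exact_mod_cast hf) hE
      have hreg := region5 (cc m Rg) (3, 0) (1, 4) (1, 4) {(3, 0), (2, 2), (1, 4)}
        {(4, 0), (3, 1)} (by decide) (by
          intro p hp
          simp only [Finset.mem_insert, Finset.mem_singleton] at hp
          rcases hp with rfl | rfl <;> assumption) (by decide) (δ0 / 2) (by positivity)
        (fun _ _ => True) (by
          intro x U hU hx _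
          have hx0 : 0 ≤ x := by linarith
          have hU0 : 0 ≤ U := by linarith
          have h1 := hdef x (U ^ 2) (Or.inl ⟨hx0, by positivity⟩)
          rw [Finset.sum_insert (by decide), Finset.sum_insert (by decide), Finset.sum_singleton]
          unfold mon
          simp only [pow_zero, pow_one, mul_one]
          have h2 : x * (δ0 * (x ^ 2 + (U ^ 2) ^ 2)) ≤
              x * (cc m Rg (3, 0) * x ^ 2 + cc m Rg (2, 2) * U ^ 2 * x +
                cc m Rg (1, 4) * (U ^ 2) ^ 2) := by gcongr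
          have h3 : 0 ≤ δ0 * x ^ 3 := by positivity
          nlinarith)
      exact S.thin_of_G5 D (3, 0) (1, 4) (1, 4) (Or.inl rfl) (δ0 / 2 / 2) (by positivity)
        (hreg.mono fun x U _ _ h => h trivial) (by omega) (by omega)
    · push Not at hE
      obtain ⟨hE1, hE2⟩ := hE
      have hE1q : cc m Rg (2, 2) < 0 := by exact_mod_cast hE1
      set ρ : ℚ := -cc m Rg (2, 2) / (2 * cc m Rg (3, 0)) with hρ
      have hρ0 : 0 < ρ := div_pos (by linarith) (by linarith)
      have hEρ : cc m Rg (2, 2) = -2 * cc m Rg (3, 0) * ρ := by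
        rw [hρ]
        field_simp
      have hE2q : 4 * cc m Rg (3, 0) * cc m Rg (1, 4) ≤ cc m Rg (2, 2) ^ 2 := by
        exact_mod_cast hE2
      rcases hE2q.lt_or_eq with hE3 | hE3
      · exfalso
        apply S.neg_parabD (m + 1) 0 (by omega) (D.qd6 hA' hB') D.hz6 ρ hρ0
        change cc m Rg (1, 4) + cc m Rg (2, 2) * ρ + cc m Rg (3, 0) * ρ ^ 2 < 0
        have h1 : 4 * cc m Rg (3, 0) * (cc m Rg (1, 4) + cc m Rg (2, 2) * ρ +
            cc m Rg (3, 0) * ρ ^ 2) < 0 := by
          have h2 : 4 * cc m Rg (3, 0) * (cc m Rg (1, 4) + cc m Rg (2, 2) * ρ +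
              cc m Rg (3, 0) * ρ ^ 2) =
              4 * cc m Rg (3, 0) * cc m Rg (1, 4) - cc m Rg (2, 2) ^ 2 +
                (cc m Rg (2, 2) + 2 * cc m Rg (3, 0) * ρ) ^ 2 := by
            ring
          have h3 : cc m Rg (2, 2) + 2 * cc m Rg (3, 0) * ρ = 0 := by rw [hEρ]; ring
          rw [h2, h3]
          linarith
        by_contra hcon
        push Not at hcon
        have : 0 ≤ 4 * cc m Rg (3, 0) * (cc m Rg (1, 4) + cc m Rg (2, 2) * ρ +
            cc m Rg (3, 0) * ρ ^ 2) := by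
          positivity
        linarith
      · have hfρ : cc m Rg (1, 4) = cc m Rg (3, 0) * ρ ^ 2 := by
          have h2 : 4 * cc m Rg (3, 0) * cc m Rg (1, 4) =
              4 * cc m Rg (3, 0) * (cc m Rg (3, 0) * ρ ^ 2) := by
            rw [hE3, hEρ]
            ring
          exact mul_left_cancel₀ (by positivity) h2
        exact S.valley4D D (cc m Rg (3, 0)) ρ hC hρ0 hA' hB' rfl hEρ hfρ
  have hC' := hC.symm
  have z3 : ∀ k : ℕ, aeval (k * w : ℝ) (Rg (m + 3)) = 0 := by
    intro k
    rw [D.e3, hB', hC', Rat.cast_zero, zero_mul, zero_add]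
  -- level `m + 2`
  obtain ⟨hE00, hE20, hE10⟩ := quad_signs' (cc m Rg (2, 2)) (cc m Rg (2, 1)) (cc m Rg (2, 0)) w hw
    (by
      intro k
      have h1 := (hl k (m + 2) (by omega) (by
        intro j h1 h2
        obtain rfl | rfl | rfl : j = m + 3 ∨ j = m + 4 ∨ j = m + 5 := by omega
        · exact z3 k
        · exact z4 k
        · exact z5 k)).1
      rw [D.e2] at h1
      exact h1)
  have hE00' : 0 ≤ cc m Rg (2, 0) := by exact_mod_cast hE00
  have hE20' : 0 ≤ cc m Rg (2, 2) := by exact_mod_cast hE20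
  rcases hE20'.lt_or_eq with hE2 | hE2
  · exact S.thin3 D (2, 2) (1, 4) (1, 4) {(4, 0), (3, 1), (3, 0)} (Or.inl rfl) hE2 hf hf (by
      intro p hp
      simp only [Finset.mem_insert, Finset.mem_singleton] at hp
      rcases hp with rfl | rfl | rfl <;> assumption) (by decide) (by decide) (by omega) (by omega)
  have hE2' := hE2.symm
  have hE2R : (cc m Rg (2, 2) : ℝ) = 0 := by exact_mod_cast hE2'
  have hE10' : 0 ≤ cc m Rg (2, 1) := by exact_mod_cast hE10 hE2R
  rcases hE10'.lt_or_eq with hE1 | hE1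
  · exact S.thin3 D (2, 1) (1, 4) (1, 4) {(4, 0), (3, 1), (3, 0), (2, 2)} (Or.inl rfl) hE1 hf hf (by
      intro p hp
      simp only [Finset.mem_insert, Finset.mem_singleton] at hp
      rcases hp with rfl | rfl | rfl | rfl <;> assumption) (by decide) (by decide) (by omega)
      (by omega)
  have hE1' := hE1.symm
  rcases hE00'.lt_or_eq with hE0 | hE0
  · exact S.thin3 D (2, 0) (1, 4) (1, 4) {(4, 0), (3, 1), (3, 0), (2, 2), (2, 1)} (Or.inl rfl)
      hE0 hf hf (by
      intro p hp
      simp only [Finset.mem_insert, Finset.mem_singleton] at hp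
      rcases hp with rfl | rfl | rfl | rfl | rfl <;> assumption) (by decide) (by decide) (by omega)
      (by omega)
  have hE0' := hE0.symm
  have z2 : ∀ k : ℕ, aeval (k * w : ℝ) (Rg (m + 2)) = 0 := by
    intro k
    rw [D.e2, hE2', hE1', hE0', Rat.cast_zero]
    ring
  have hm1 : 2 ≤ m + 1 := by
    have h1 := (hl 0 (m + 1) (by omega) (by
      intro j h1 h2
      obtain rfl | rfl | rfl | rfl : j = m + 2 ∨ j = m + 3 ∨ j = m + 4 ∨ j = m + 5 := by omega
      · exact z2 0
      · exact z3 0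
      · exact z4 0
      · exact z5 0)).2.1
    exact h1
  exact S.thin3 D (1, 4) (1, 4) (1, 4) {(4, 0), (3, 1), (3, 0), (2, 2), (2, 1), (2, 0)}
    (Or.inl rfl) hf hf hf (by
    intro p hp
    simp only [Finset.mem_insert, Finset.mem_singleton] at hp
    rcases hp with rfl | rfl | rfl | rfl | rfl | rfl <;> assumption) (by decide) (by decide) hm1
    (by omega)

/-- **One side of a rational direction of multiplicity five.** -/
theorem Side.side_five (S : Side α d h q p τ (VV (m + 5) Rg)) (D : GData m Rg)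
    (hf : cc m Rg (1, 4) = 0) (hk : 0 < cc m Rg (0, 5)) : SideThin α d h q p τ := by
  obtain ⟨w, hw, hl⟩ := S.levels
  have z5 : ∀ k : ℕ, aeval (k * w : ℝ) (Rg (m + 5)) = 0 := fun k => D.e5 _
  -- level `m + 4`
  have hA0 : 0 ≤ cc m Rg (4, 0) := by
    have h1 := (hl 0 (m + 4) (by omega) (by
      intro j h1 h2
      obtain rfl : j = m + 5 := by omega
      exact z5 0)).1
    rw [D.e4] at h1
    exact_mod_cast h1
  rcases hA0.lt_or_eq with hA | hA
  · exact S.thin3 D (4, 0) (0, 5) (0, 5) {(1, 4)} (Or.inr rfl) hA hk hk (by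
      intro p hp
      simp only [Finset.mem_singleton] at hp
      rw [hp]
      exact hf) (by decide) (by decide) (by omega) (by omega)
  have hA' := hA.symm
  have z4 : ∀ k : ℕ, aeval (k * w : ℝ) (Rg (m + 4)) = 0 := by
    intro k
    rw [D.e4, hA', Rat.cast_zero]
  -- level `m + 3`
  obtain ⟨hC0, hB0⟩ := linear_signs (cc m Rg (3, 1)) (cc m Rg (3, 0)) w hw (by
    intro k
    have h1 := (hl k (m + 3) (by omega) (by
      intro j h1 h2
      obtain rfl | rfl : j = m + 4 ∨ j = m + 5 := by omega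
      · exact z4 k
      · exact z5 k)).1
    rw [D.e3] at h1
    exact h1)
  have hC0' : 0 ≤ cc m Rg (3, 0) := by exact_mod_cast hC0
  have hB0' : 0 ≤ cc m Rg (3, 1) := by exact_mod_cast hB0
  rcases hB0'.lt_or_eq with hB | hB
  · exact S.thin3 D (3, 1) (0, 5) (0, 5) {(4, 0), (1, 4)} (Or.inr rfl) hB hk hk (by
      intro p hp
      simp only [Finset.mem_insert, Finset.mem_singleton] at hp
      rcases hp with rfl | rfl <;> assumption) (by decide) (by decide) (by omega) (by omega)
  have hB' := hB.symm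
  rcases hC0'.lt_or_eq with hC | hC
  · -- `C > 0`
    rcases lt_trichotomy (cc m Rg (2, 2)) 0 with hE | hE | hE
    · exfalso
      set ρ : ℚ := -cc m Rg (2, 2) / (2 * cc m Rg (3, 0)) with hρ
      have hρ0 : 0 < ρ := div_pos (by linarith) (by linarith)
      have hEρ : cc m Rg (2, 2) = -2 * cc m Rg (3, 0) * ρ := by
        rw [hρ]
        field_simp
      apply S.neg_parabD (m + 1) 0 (by omega) (D.qd6 hA' hB') D.hz6 ρ hρ0
      change cc m Rg (1, 4) + cc m Rg (2, 2) * ρ + cc m Rg (3, 0) * ρ ^ 2 < 0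
      rw [hf, hEρ]
      have : 0 < cc m Rg (3, 0) * ρ ^ 2 := by positivity
      nlinarith
    · exact S.thin3 D (3, 0) (0, 5) (0, 5) {(4, 0), (3, 1), (1, 4), (2, 2)} (Or.inr rfl) hC hk hk
        (by
          intro p hp
          simp only [Finset.mem_insert, Finset.mem_singleton] at hp
          rcases hp with rfl | rfl | rfl | rfl <;> assumption) (by decide) (by decide) (by omega)
        (by omega)
    · exact S.thin3 D (3, 0) (2, 2) (0, 5) {(4, 0), (3, 1), (1, 4)} (Or.inr rfl) hC hE hk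
        (by
          intro p hp
          simp only [Finset.mem_insert, Finset.mem_singleton] at hp
          rcases hp with rfl | rfl | rfl <;> assumption) (by decide) (by decide) (by omega)
        (by omega)
  have hC' := hC.symm
  have z3 : ∀ k : ℕ, aeval (k * w : ℝ) (Rg (m + 3)) = 0 := by
    intro k
    rw [D.e3, hB', hC', Rat.cast_zero, zero_mul, zero_add]
  -- level `m + 2`
  obtain ⟨hE00, hE20, hE10⟩ := quad_signs' (cc m Rg (2, 2)) (cc m Rg (2, 1)) (cc m Rg (2, 0)) w hw
    (by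
      intro k
      have h1 := (hl k (m + 2) (by omega) (by
        intro j h1 h2
        obtain rfl | rfl | rfl : j = m + 3 ∨ j = m + 4 ∨ j = m + 5 := by omega
        · exact z3 k
        · exact z4 k
        · exact z5 k)).1
      rw [D.e2] at h1
      exact h1)
  have hE00' : 0 ≤ cc m Rg (2, 0) := by exact_mod_cast hE00
  have hE20' : 0 ≤ cc m Rg (2, 2) := by exact_mod_cast hE20
  rcases hE20'.lt_or_eq with hE2 | hE2
  · exact S.thin3 D (2, 2) (0, 5) (0, 5) {(4, 0), (3, 1), (3, 0), (1, 4)} (Or.inr rfl) hE2 hk hk (by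
      intro p hp
      simp only [Finset.mem_insert, Finset.mem_singleton] at hp
      rcases hp with rfl | rfl | rfl | rfl <;> assumption) (by decide) (by decide) (by omega)
      (by omega)
  have hE2' := hE2.symm
  have hE2R : (cc m Rg (2, 2) : ℝ) = 0 := by exact_mod_cast hE2'
  have hE10' : 0 ≤ cc m Rg (2, 1) := by exact_mod_cast hE10 hE2R
  rcases hE10'.lt_or_eq with hE1 | hE1
  · by_cases hF : 0 ≤ (cc m Rg (1, 3) : ℝ) ∨
        (cc m Rg (1, 3) : ℝ) ^ 2 < 4 * cc m Rg (2, 1) * cc m Rg (0, 5)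
    · obtain ⟨δ0, hδ0, hdef⟩ := def_form (cc m Rg (2, 1)) (cc m Rg (1, 3)) (cc m Rg (0, 5))
        (by exact_mod_cast hE1) (by exact_mod_cast hk) hF
      have hreg := region5 (cc m Rg) (2, 1) (0, 5) (0, 5) {(2, 1), (1, 3), (0, 5)}
        {(4, 0), (3, 1), (3, 0), (2, 2), (1, 4)}
        (by decide) (by
          intro p hp
          simp only [Finset.mem_insert, Finset.mem_singleton] at hp
          rcases hp with rfl | rfl | rfl | rfl | rfl <;> assumption) (by decide) (δ0 / 2)
        (by positivity) (fun _ _ => True) (by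
          intro x U hU hx _
          have hx0 : 0 ≤ x := by linarith
          have hU0 : 0 ≤ U := by linarith
          have h1 := hdef x (U ^ 2) (Or.inl ⟨hx0, by positivity⟩)
          rw [Finset.sum_insert (by decide), Finset.sum_insert (by decide),
            Finset.sum_singleton]
          unfold mon
          simp only [pow_zero, pow_one, one_mul]
          have h2 : U * (δ0 * (x ^ 2 + (U ^ 2) ^ 2)) ≤
              U * (cc m Rg (2, 1) * x ^ 2 + cc m Rg (1, 3) * U ^ 2 * x +
                cc m Rg (0, 5) * (U ^ 2) ^ 2) := by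
            gcongr
          have h3 : 0 ≤ δ0 * (x ^ 2 * U) := by positivity
          nlinarith)
      exact S.thin_of_G5 D (2, 1) (0, 5) (0, 5) (Or.inr rfl) (δ0 / 2 / 2) (by positivity)
        (hreg.mono fun x U _ _ h => h trivial) (by omega) (by omega)
    · push Not at hF
      obtain ⟨hF1, hF2⟩ := hF
      have hF1q : cc m Rg (1, 3) < 0 := by exact_mod_cast hF1
      set ρ : ℚ := -cc m Rg (1, 3) / (2 * cc m Rg (2, 1)) with hρ
      have hρ0 : 0 < ρ := div_pos (by linarith) (by linarith)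
      have hFρ : cc m Rg (1, 3) = -2 * cc m Rg (2, 1) * ρ := by
        rw [hρ]
        field_simp
      have hF2q : 4 * cc m Rg (2, 1) * cc m Rg (0, 5) ≤ cc m Rg (1, 3) ^ 2 := by
        exact_mod_cast hF2
      rcases hF2q.lt_or_eq with hF3 | hF3
      · exfalso
        apply S.neg_parabD m 1 (by omega) (D.qd5 hA' hB' hC' hE2' hf) D.hz5 ρ hρ0
        change cc m Rg (0, 5) + cc m Rg (1, 3) * ρ + cc m Rg (2, 1) * ρ ^ 2 < 0
        have h1 : 4 * cc m Rg (2, 1) * (cc m Rg (0, 5) + cc m Rg (1, 3) * ρ +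
            cc m Rg (2, 1) * ρ ^ 2) < 0 := by
          have h2 : 4 * cc m Rg (2, 1) * (cc m Rg (0, 5) + cc m Rg (1, 3) * ρ +
              cc m Rg (2, 1) * ρ ^ 2) =
              4 * cc m Rg (2, 1) * cc m Rg (0, 5) - cc m Rg (1, 3) ^ 2 +
                (cc m Rg (1, 3) + 2 * cc m Rg (2, 1) * ρ) ^ 2 := by ring
          have h3 : cc m Rg (1, 3) + 2 * cc m Rg (2, 1) * ρ = 0 := by rw [hFρ]; ring
          rw [h2, h3]
          linarith
        by_contra hcon
        push Not at hcon
        have : 0 ≤ 4 * cc m Rg (2, 1) * (cc m Rg (0, 5) + cc m Rg (1, 3) * ρ +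
            cc m Rg (2, 1) * ρ ^ 2) := by
          positivity
        linarith
      · have hkρ : cc m Rg (0, 5) = cc m Rg (2, 1) * ρ ^ 2 := by
          have h2 : 4 * cc m Rg (2, 1) * cc m Rg (0, 5) =
              4 * cc m Rg (2, 1) * (cc m Rg (2, 1) * ρ ^ 2) := by
            rw [hF3, hFρ]
            ring
          exact mul_left_cancel₀ (by positivity) h2
        exact S.valley5D D (cc m Rg (2, 1)) ρ hE1 hρ0 hA' hB' hC' hE2' hf rfl hFρ hkρ
  have hE1' := hE1.symm
  rcases hE00'.lt_or_eq with hE0 | hE0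
  · -- only `x ^ (m + 2)`
    rcases lt_trichotomy (cc m Rg (1, 3)) 0 with hF | hF | hF
    · exfalso
      set ρ : ℚ := cc m Rg (0, 5) / (-cc m Rg (1, 3)) + 1 with hρ
      have hρ0 : 0 < ρ := by
        have : 0 < cc m Rg (0, 5) / (-cc m Rg (1, 3)) := div_pos hk (by linarith)
        linarith
      have hneg : cc m Rg (0, 5) + cc m Rg (1, 3) * ρ = cc m Rg (1, 3) := by
        rw [hρ]
        have hne : cc m Rg (1, 3) ≠ 0 := hF.ne
        field_simp
        ring
      apply S.neg_parabD m 1 (by omega) (D.qd5 hA' hB' hC' hE2' hf) D.hz5 ρ hρ0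
      change cc m Rg (0, 5) + cc m Rg (1, 3) * ρ + cc m Rg (2, 1) * ρ ^ 2 < 0
      rw [hneg, hE1', zero_mul, add_zero]
      exact hF
    · exact S.thin3 D (2, 0) (0, 5) (0, 5)
        {(4, 0), (3, 1), (3, 0), (2, 2), (2, 1), (1, 4), (1, 3)} (Or.inr rfl) hE0 hk hk (by
        intro p hp
        simp only [Finset.mem_insert, Finset.mem_singleton] at hp
        rcases hp with rfl | rfl | rfl | rfl | rfl | rfl | rfl <;> assumption)
        (by decide) (by decide) (by omega) (by omega)
    · exact S.thin3 D (2, 0) (1, 3) (0, 5)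
        {(4, 0), (3, 1), (3, 0), (2, 2), (2, 1), (1, 4)} (Or.inr rfl) hE0 hF hk (by
        intro p hp
        simp only [Finset.mem_insert, Finset.mem_singleton] at hp
        rcases hp with rfl | rfl | rfl | rfl | rfl | rfl <;> assumption)
        (by decide) (by decide) (by omega) (by omega)
  have hE0' := hE0.symm
  have z2 : ∀ k : ℕ, aeval (k * w : ℝ) (Rg (m + 2)) = 0 := by
    intro k
    rw [D.e2, hE2', hE1', hE0', Rat.cast_zero]
    ring
  -- level `m + 1`
  have hlev1 : ∀ k : ℕ, 0 ≤ (cc m Rg (1, 3) : ℝ) * (k * w) ^ 3 + cc m Rg (1, 2) * (k * w) ^ 2 +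
      cc m Rg (1, 1) * (k * w) + cc m Rg (1, 0) := by
    intro k
    have h1 := (hl k (m + 1) (by omega) (by
      intro j h1 h2
      obtain rfl | rfl | rfl | rfl : j = m + 2 ∨ j = m + 3 ∨ j = m + 4 ∨ j = m + 5 := by omega
      · exact z2 k
      · exact z3 k
      · exact z4 k
      · exact z5 k)).1
    rw [D.e1, hf, Rat.cast_zero, zero_mul, zero_add] at h1
    exact h1
  have hm1 : 2 ≤ m + 1 := by
    have h1 := (hl 0 (m + 1) (by omega) (by
      intro j h1 h2
      obtain rfl | rfl | rfl | rfl : j = m + 2 ∨ j = m + 3 ∨ j = m + 4 ∨ j = m + 5 := by omega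
      · exact z2 0
      · exact z3 0
      · exact z4 0
      · exact z5 0)).2.1
    exact h1
  have hF0 : 0 ≤ cc m Rg (1, 3) := by
    exact_mod_cast cubic_signs' (cc m Rg (1, 3)) (cc m Rg (1, 2)) (cc m Rg (1, 1))
      (cc m Rg (1, 0)) w hw hlev1
  rcases hF0.lt_or_eq with hF | hF
  · exact S.thin3 D (1, 3) (0, 5) (0, 5)
      {(4, 0), (3, 1), (3, 0), (2, 2), (2, 1), (2, 0), (1, 4)} (Or.inr rfl) hF hk hk (by
      intro p hp
      simp only [Finset.mem_insert, Finset.mem_singleton] at hp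
      rcases hp with rfl | rfl | rfl | rfl | rfl | rfl | rfl <;> assumption)
      (by decide) (by decide) hm1 (by omega)
  have hF' := hF.symm
  obtain ⟨hH00, hH20, hH10⟩ := quad_signs' (cc m Rg (1, 2)) (cc m Rg (1, 1)) (cc m Rg (1, 0)) w hw
    (by
      intro k
      have h1 := hlev1 k
      rw [hF', Rat.cast_zero, zero_mul, zero_add] at h1
      exact h1)
  have hH00' : 0 ≤ cc m Rg (1, 0) := by exact_mod_cast hH00
  have hH20' : 0 ≤ cc m Rg (1, 2) := by exact_mod_cast hH20
  rcases hH20'.lt_or_eq with hH2 | hH2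
  · exact S.thin3 D (1, 2) (0, 5) (0, 5)
      {(4, 0), (3, 1), (3, 0), (2, 2), (2, 1), (2, 0), (1, 4), (1, 3)} (Or.inr rfl) hH2 hk hk (by
      intro p hp
      simp only [Finset.mem_insert, Finset.mem_singleton] at hp
      rcases hp with rfl | rfl | rfl | rfl | rfl | rfl | rfl | rfl <;> assumption)
      (by decide) (by decide) hm1 (by omega)
  have hH2' := hH2.symm
  have hH2R : (cc m Rg (1, 2) : ℝ) = 0 := by exact_mod_cast hH2'
  have hH10' : 0 ≤ cc m Rg (1, 1) := by exact_mod_cast hH10 hH2R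
  rcases hH10'.lt_or_eq with hH1 | hH1
  · exact S.thin3 D (1, 1) (0, 5) (0, 5)
      {(4, 0), (3, 1), (3, 0), (2, 2), (2, 1), (2, 0), (1, 4), (1, 3), (1, 2)} (Or.inr rfl)
      hH1 hk hk (by
      intro p hp
      simp only [Finset.mem_insert, Finset.mem_singleton] at hp
      rcases hp with rfl | rfl | rfl | rfl | rfl | rfl | rfl | rfl | rfl <;> assumption)
      (by decide) (by decide) hm1 (by omega)
  have hH1' := hH1.symm
  rcases hH00'.lt_or_eq with hH0 | hH0
  · exact S.thin3 D (1, 0) (0, 5) (0, 5)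
      {(4, 0), (3, 1), (3, 0), (2, 2), (2, 1), (2, 0), (1, 4), (1, 3), (1, 2), (1, 1)}
      (Or.inr rfl) hH0 hk hk (by
      intro p hp
      simp only [Finset.mem_insert, Finset.mem_singleton] at hp
      rcases hp with rfl | rfl | rfl | rfl | rfl | rfl | rfl | rfl | rfl | rfl <;> assumption)
      (by decide) (by decide) hm1 (by omega)
  have hH0' := hH0.symm
  have z1 : ∀ k : ℕ, aeval (k * w : ℝ) (Rg (m + 1)) = 0 := by
    intro k
    rw [D.e1, hf, hF', hH2', hH1', hH0', Rat.cast_zero]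
    ring
  have hm2 : 2 ≤ m := by
    have h1 := (hl 0 m (by omega) (by
      intro j h1 h2
      obtain rfl | rfl | rfl | rfl | rfl : j = m + 1 ∨ j = m + 2 ∨ j = m + 3 ∨ j = m + 4 ∨
        j = m + 5 := by omega
      · exact z1 0
      · exact z2 0
      · exact z3 0
      · exact z4 0
      · exact z5 0)).2.1
    exact h1
  exact S.thin3 D (0, 5) (0, 5) (0, 5)
      {(4, 0), (3, 1), (3, 0), (2, 2), (2, 1), (2, 0), (1, 4), (1, 3), (1, 2), (1, 1), (1, 0)}
      (Or.inr rfl) hk hk hk (by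
      intro p hp
      simp only [Finset.mem_insert, Finset.mem_singleton] at hp
      rcases hp with rfl | rfl | rfl | rfl | rfl | rfl | rfl | rfl | rfl | rfl | rfl <;> assumption)
      (by decide) (by decide) (by omega) (by omega)

end PP72
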