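import Pool.Agent.PP72.Fin11

/-!
Zeros of high order of the leading form: the region beyond the strips, rational directions.
-/

open Polynomial Finset Filter

namespace PP72

variable {α : ℝ} {d : ℕ} {h : ℕ → ℝ[X]}

/-- the region beyond the strips, when the second form has a zero of order one or two -/
theorem Pk.near_of_strips2 (K : ℕ) (hK : 3 ≤ K) (H : Pk α (K + 2) h) {θ : ℝ}
    (hzE : (h K).eval θ = 0) (m : ℕ) (hm1 : 1 ≤ m) (hm2 : m ≤ 2) {Q : ℝ[X]}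
    (hB : h (K + 1) = (X - C θ) ^ m * Q) (hQ : Q.eval θ ≠ 0)
    (hpos : ∀ P ∈ Sec α, 0 < P.1 → 0 ≤ Q.eval θ * ((P.2 : ℝ) - θ * P.1) ^ m)
    (hstrip : ∀ U : ℝ, Thin (fv (K + 2) h)
      {P | P ∈ Sec α ∧ 0 < P.1 ∧ |(P.2 : ℝ) - θ * P.1| ≤ U}) :
    ∃ ε : ℝ, 0 < ε ∧ Thin (fv (K + 2) h) (Near α θ ε) := by
  set b := |Q.eval θ| with hb
  have hb0 : 0 < b := abs_pos.2 hQ
  -- `Q` near `θ`
  have hopen : IsOpen {t : ℝ | |Q.eval t - Q.eval θ| < b / 2} :=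
    isOpen_lt ((Q.continuous.sub continuous_const).abs) continuous_const
  obtain ⟨r, hr, hball⟩ := Metric.isOpen_iff.1 hopen θ (by
    change |Q.eval θ - Q.eval θ| < b / 2
    rw [sub_self, abs_zero]
    positivity)
  -- the third form
  obtain ⟨q, hq⟩ : X - C θ ∣ h K := dvd_iff_isRoot.2 hzE
  obtain ⟨B1, hB1⟩ := (isCompact_Icc (a := (0 : ℝ)) (b := α)).exists_bound_of_continuousOn
    q.continuous.continuousOn
  set S1 := max B1 0 with hS1
  have hS10 : 0 ≤ S1 := le_max_right _ _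
  obtain ⟨S, hS0, hS⟩ := low_sum K h 0 α
  set ε := min r 1 with hε
  have hε0 : 0 < ε := by positivity
  set U0 := max 1 (4 * (S1 + S) / b) with hU0
  have hU01 : 1 ≤ U0 := le_max_left _ _
  have hU02 : S1 + S ≤ b / 4 * U0 := by
    have h1 : 4 * (S1 + S) / b ≤ U0 := le_max_right _ _
    rw [div_le_iff₀ hb0] at h1
    linarith
  refine ⟨ε, hε0, ?_⟩
  have hsplit : Near α θ ε ⊆ {P | P ∈ Sec α ∧ 0 < P.1 ∧ |(P.2 : ℝ) - θ * P.1| ≤ U0} ∪
      {P | P ∈ Near α θ ε ∧ U0 < |(P.2 : ℝ) - θ * P.1|} := by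
    intro P hP
    by_cases h1 : |(P.2 : ℝ) - θ * P.1| ≤ U0
    · exact Or.inl ⟨hP.1, hP.2.1, h1⟩
    · exact Or.inr ⟨hP, not_le.1 h1⟩
  refine Thin.mono (Thin.union (hstrip U0) ?_) hsplit
  apply thin_of_bound θ (b / 8) (by positivity)
  rintro P ⟨⟨hP1, hP2, hP3⟩, hP4⟩
  have hx1 : (1 : ℝ) ≤ P.1 := by exact_mod_cast hP2
  have hxpos : (0 : ℝ) < P.1 := by linarith
  set t := (P.2 : ℝ) / P.1 with ht
  have htI : t ∈ Set.Icc 0 α := by
    refine ⟨by positivity, ?_⟩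
    rw [ht, div_le_iff₀ hxpos]
    exact hP1
  have hsign := hpos P hP1 hP2
  set u := (P.2 : ℝ) - θ * P.1 with hu
  have htu : t - θ = u / P.1 := by
    rw [ht, hu]
    field_simp
  have hu1 : 1 ≤ |u| := hU01.trans hP4.le
  have hux : |u| ≤ P.1 := by
    have h1 : |u| / P.1 < 1 := by
      have h2 : |t - θ| < 1 := hP3.trans_le (min_le_right _ _)
      rw [htu, abs_div, abs_of_pos hxpos] at h2
      exact h2
    rw [div_lt_one hxpos] at h1
    exact h1.le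
  have hQt : |Q.eval t - Q.eval θ| < b / 2 := by
    apply hball
    rw [Metric.mem_ball, Real.dist_eq]
    exact hP3.trans_le (min_le_left _ _)
  -- the second form
  have hBt : b / 2 * (u ^ 2 / P.1) ≤ P.1 * (h (K + 1)).eval t := by
    have e1 : (P.1 : ℝ) * (h (K + 1)).eval t = P.1 * ((u / P.1) ^ m * Q.eval t) := by
      rw [hB, eval_mul, eval_pow, eval_sub, eval_X, eval_C, htu]
    rw [e1]
    have h2 : b / 2 * |u| ^ m ≤ u ^ m * Q.eval t := by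
      have h3 : u ^ m * Q.eval θ = b * |u| ^ m := by
        rw [hb, ← abs_pow, ← abs_mul, abs_of_nonneg hsign, mul_comm]
      have h4 : -(|u| ^ m * (b / 2)) ≤ u ^ m * (Q.eval t - Q.eval θ) := by
        have h5 : |u ^ m * (Q.eval t - Q.eval θ)| ≤ |u| ^ m * (b / 2) := by
          rw [abs_mul, abs_pow]
          gcongr
        have := neg_abs_le (u ^ m * (Q.eval t - Q.eval θ))
        linarith
      have h5 : u ^ m * Q.eval t = u ^ m * Q.eval θ + u ^ m * (Q.eval t - Q.eval θ) := by ring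
      linarith
    have h3 : b / 2 * (u ^ 2 / P.1) ≤ b / 2 * |u| ^ m * (P.1 / P.1 ^ m) := by
      rcases (by omega : m = 1 ∨ m = 2) with rfl | rfl
      · have h4 : u ^ 2 / P.1 ≤ |u| := by
          rw [div_le_iff₀ hxpos, ← sq_abs, sq]
          gcongr
        have h5 : b / 2 * |u| ^ 1 * ((P.1 : ℝ) / P.1 ^ 1) = b / 2 * |u| := by field_simp
        rw [h5]
        gcongr
      · apply le_of_eq
        rw [sq_abs]
        field_simp
    calc b / 2 * (u ^ 2 / P.1) ≤ b / 2 * |u| ^ m * (P.1 / P.1 ^ m) := h3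
      _ ≤ u ^ m * Q.eval t * (P.1 / P.1 ^ m) := by gcongr
      _ = P.1 * ((u / P.1) ^ m * Q.eval t) := by
          rw [div_pow]
          ring
  -- the third form
  have hEt : -(S1 * (|u| / P.1)) ≤ (h K).eval t := by
    have e1 : (h K).eval t = u / P.1 * q.eval t := by
      rw [hq, eval_mul, eval_sub, eval_X, eval_C, htu]
    rw [e1]
    have h2 : |u / P.1 * q.eval t| ≤ S1 * (|u| / P.1) := by
      rw [abs_mul, abs_div, abs_of_pos hxpos, mul_comm]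
      gcongr
      exact (hB1 t htI).trans (le_max_left _ _)
    have := neg_abs_le (u / P.1 * q.eval t)
    linarith
  have hlow := hS t htI P.1 hx1
  have hlow' : -(S * (P.1 : ℝ) ^ K / P.1) ≤ ∑ k ∈ range K, (P.1 : ℝ) ^ k * (h k).eval t := by
    have h2 : |∑ k ∈ range K, (P.1 : ℝ) ^ k * (h k).eval t| ≤ S * (P.1 : ℝ) ^ K / P.1 := by
      rw [le_div_iff₀ hxpos]
      exact hlow
    have := neg_abs_le (∑ k ∈ range K, (P.1 : ℝ) ^ k * (h k).eval t)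
    linarith
  have hlead := H.lead_nonneg (by omega) t htI
  rw [H.fv_top K hP2]
  rw [← ht]
  have hxK : 0 < (P.1 : ℝ) ^ K := by positivity
  obtain ⟨k, rfl⟩ : ∃ k, K = k + 1 := ⟨K - 1, by omega⟩
  have k1 : 0 ≤ (P.1 : ℝ) ^ (k + 1) * ((P.1 : ℝ) ^ 2 * (h (k + 1 + 2)).eval t) := by positivity
  have k2 : (P.1 : ℝ) ^ k * (b / 2 * u ^ 2) ≤
      (P.1 : ℝ) ^ (k + 1) * (P.1 * (h (k + 1 + 1)).eval t) := by
    calc (P.1 : ℝ) ^ k * (b / 2 * u ^ 2) = (P.1 : ℝ) ^ (k + 1) * (b / 2 * (u ^ 2 / P.1)) := by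
          field_simp
          ring
      _ ≤ (P.1 : ℝ) ^ (k + 1) * (P.1 * (h (k + 1 + 1)).eval t) := by gcongr
  have k3 : -((P.1 : ℝ) ^ k * (S1 * |u|)) ≤ (P.1 : ℝ) ^ (k + 1) * (h (k + 1)).eval t := by
    calc -((P.1 : ℝ) ^ k * (S1 * |u|)) = (P.1 : ℝ) ^ (k + 1) * -(S1 * (|u| / P.1)) := by
          rw [pow_succ]
          field_simp
      _ ≤ (P.1 : ℝ) ^ (k + 1) * (h (k + 1)).eval t := by gcongr
  have k4 : S * (P.1 : ℝ) ^ (k + 1) / P.1 = (P.1 : ℝ) ^ k * S := by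
    rw [pow_succ]
    field_simp
  rw [k4] at hlow'
  have husq : |u| * |u| = u ^ 2 := by rw [← sq, sq_abs]
  have k5 : (P.1 : ℝ) ^ k * (S1 * |u| + S) ≤ (P.1 : ℝ) ^ k * (b / 4 * u ^ 2) := by
    gcongr
    have h2 : S1 + S ≤ b / 4 * |u| := hU02.trans (by gcongr)
    have h3 : (S1 + S) * |u| ≤ b / 4 * |u| * |u| := by gcongr
    have h4 : S * 1 ≤ S * |u| := by gcongr
    have h5 : b / 4 * |u| * |u| = b / 4 * u ^ 2 := by rw [mul_assoc, husq]
    linarith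
  have hu2 : 1 ≤ u ^ 2 := by
    rw [← husq]
    calc (1 : ℝ) = 1 * 1 := by norm_num
      _ ≤ |u| * |u| := by gcongr
  have k6 : (P.1 : ℝ) ^ 2 ≤ (P.1 : ℝ) ^ k * u ^ 2 := by
    calc (P.1 : ℝ) ^ 2 ≤ (P.1 : ℝ) ^ k := pow_le_pow_right₀ hx1 (by omega)
      _ = (P.1 : ℝ) ^ k * 1 := (mul_one _).symm
      _ ≤ (P.1 : ℝ) ^ k * u ^ 2 := by gcongr
  have k7 : |u| ^ 3 ≤ (P.1 : ℝ) ^ k * u ^ 2 := by
    calc |u| ^ 3 = |u| * (|u| * |u|) := by ring
      _ = |u| * u ^ 2 := by rw [husq]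
      _ ≤ P.1 * u ^ 2 := by gcongr
      _ ≤ (P.1 : ℝ) ^ k * u ^ 2 := by
          gcongr
          calc (P.1 : ℝ) = (P.1 : ℝ) ^ 1 := (pow_one _).symm
            _ ≤ (P.1 : ℝ) ^ k := pow_le_pow_right₀ hx1 (by omega)
  have k8 : b / 8 * ((P.1 : ℝ) ^ 2 + |u| ^ 3) ≤ b / 8 * (2 * ((P.1 : ℝ) ^ k * u ^ 2)) := by
    gcongr
    linarith
  linarith

/-- strips around a line of rational slope are thin -/
theorem Pk.thin_strip_rat (H : Pk α d h) (q p : ℕ) (hq : 0 < q) (hv : (q, p) ∈ Sec α) (U : ℝ) :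
    Thin (fv d h) {P | P ∈ Sec α ∧ 0 < P.1 ∧ |(P.2 : ℝ) - (p / q : ℝ) * P.1| ≤ U} := by
  have hq' : (0 : ℝ) < q := by exact_mod_cast hq
  obtain ⟨K, hK⟩ := exists_nat_ge (q * U)
  have hlines : Thin (fv d h) (⋃ k ∈ Finset.Icc (-(K : ℤ)) K,
      {P : ℕ × ℕ | P ∈ Sec α ∧ 0 < P.1 ∧ (P.2 : ℝ) - (p / q : ℝ) * P.1 = (k : ℝ) / q}) :=
    thin_biUnion _ _ fun k _ => H.thin_line q p hv hq _
  refine Thin.mono hlines ?_
  rintro P ⟨hP1, hP2, hP3⟩
  set k : ℤ := (q : ℤ) * P.2 - p * P.1 with hk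
  have hkq : (P.2 : ℝ) - (p / q : ℝ) * P.1 = (k : ℝ) / q := by
    rw [hk]
    push_cast
    field_simp
  have hkK : k ∈ Finset.Icc (-(K : ℤ)) K := by
    rw [hkq, abs_div, abs_of_pos hq', div_le_iff₀ hq'] at hP3
    have h3 : |(k : ℝ)| ≤ K := by linarith
    rw [Finset.mem_Icc]
    have h4 := abs_le.1 h3
    constructor
    · have : (-(K : ℤ) : ℝ) ≤ k := by
        push_cast
        exact h4.1
      exact_mod_cast this
    · exact_mod_cast h4.2
  simp only [Set.mem_iUnion]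
  exact ⟨k, hkK, hP1, hP2, hkq⟩

/-- the top polynomial is nonnegative at the lattice points: rational directions -/
theorem Pk.level_rat (H : Pk α d h) (q p : ℕ) (hq : 0 < q) (hv : (q, p) ∈ Sec α) (J : ℕ)
    (hJ : J ≤ d) (htop : ∀ j, J < j → j ≤ d → ∀ u, (gT d h (p / q : ℝ) j).eval u = 0)
    {P : ℕ × ℕ} (hP : P ∈ Sec α) (hP0 : 0 < P.1) :
    0 ≤ (gT d h (p / q : ℝ) J).eval ((P.2 : ℝ) - (p / q : ℝ) * P.1) := by
  have hq' : (0 : ℝ) < q := by exact_mod_cast hq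
  set θ : ℝ := p / q with hθ
  set u := (P.2 : ℝ) - θ * P.1 with hu
  by_contra hneg
  push Not at hneg
  obtain ⟨_, h2⟩ := H.ray P.1 P.2 q p hP hv hq (lineP d (gT d h θ) u) (by
    intro t
    have hx : ((P.1 + t * q : ℕ) : ℝ) ≠ 0 := by
      have : 0 < P.1 + t * q := by omega
      exact_mod_cast this.ne'
    have e1 : ((P.2 + t * p : ℕ) : ℝ) = θ * ((P.1 + t * q : ℕ) : ℝ) + u := by
      rw [hu, hθ]
      push_cast
      field_simp
      ring
    rw [e1, ev_taylor H.deg θ hx, lineP_eval])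
  obtain ⟨_, h4⟩ := lineP_lead (d := d) (g := gT d h θ) (U := u) J hJ
    (fun j hj1 hj2 => htop j hj1 hj2 u) hneg.ne
  rw [h4] at h2
  linarith

/-- the top polynomial is nonnegative at the lattice points: irrational directions -/
theorem Pk.level_irr (H : Pk α d h) {θ : ℝ} (hirr : Irrational θ) (hθ0 : 0 < θ) (hθα : θ ≤ α)
    (J : ℕ) (hJ1 : 1 ≤ J) (hJ : J ≤ d)
    (htop : ∀ j, J < j → j ≤ d → ∀ u, (gT d h θ j).eval u = 0) {s : ℝ}
    (hs : θ = α → s ≤ 0) : 0 ≤ (gT d h θ J).eval s := by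
  by_contra hneg
  push Not at hneg
  obtain ⟨K, rfl⟩ : ∃ K, J = K + 1 := ⟨J - 1, by omega⟩
  refine H.neg_top (θ := θ) K hJ htop s hneg fun X0 => ?_
  rcases hθα.lt_or_eq with hlt | heq
  · obtain ⟨P, h1, h2, h3⟩ := exists_near hirr hθ0 hlt s X0
    exact ⟨P, h1, h2, h3.trans (by norm_num)⟩
  · have h1 := hs heq
    subst heq
    exact exists_near_bd hirr hθ0 s h1 X0

/-- a lattice point above a direction -/
theorem exists_above {α θ : ℝ} (h0 : 0 ≤ θ) (hθ : θ < α) : ∃ P ∈ Sec α, 0 < P.1 ∧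
    0 < (P.2 : ℝ) - θ * P.1 := by
  obtain ⟨r, hr1, hr2⟩ := exists_rat_btwn hθ
  have hr0 : (0 : ℝ) ≤ r := h0.trans hr1.le
  have h1 : ((r.num.toNat : ℕ) : ℤ) = r.num :=
    Int.toNat_of_nonneg (Rat.num_nonneg.2 (by exact_mod_cast hr0))
  have h2 : (r : ℝ) = ((r.num.toNat : ℕ) : ℝ) / ((r.den : ℕ) : ℝ) := by
    have h3 : ((r.num.toNat : ℕ) : ℝ) = (r.num : ℝ) := by exact_mod_cast h1
    rw [h3]
    exact_mod_cast (Rat.num_div_den r).symm
  have hden : (0 : ℝ) < (r.den : ℝ) := by exact_mod_cast r.den_pos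
  refine ⟨(r.den, r.num.toNat), ?_, r.den_pos, ?_⟩
  · change ((r.num.toNat : ℕ) : ℝ) ≤ α * (r.den : ℝ)
    rw [h2, div_lt_iff₀ hden] at hr2
    exact hr2.le
  · change 0 < ((r.num.toNat : ℕ) : ℝ) - θ * (r.den : ℝ)
    rw [h2, lt_div_iff₀ hden] at hr1
    linarith

theorem exists_below {α θ : ℝ} (hα : 0 < α) (h0 : 0 < θ) : ∃ P ∈ Sec α, 0 < P.1 ∧
    (P.2 : ℝ) - θ * P.1 < 0 := by
  refine ⟨(1, 0), ?_, one_pos, ?_⟩
  · change ((0 : ℕ) : ℝ) ≤ α * ((1 : ℕ) : ℝ)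
    push_cast
    linarith
  · change ((0 : ℕ) : ℝ) - θ * ((1 : ℕ) : ℝ) < 0
    push_cast
    linarith

/-- a quadratic function, nonnegative at the multiples of a nonzero number -/
theorem quad_lead_nonneg {b e c u : ℝ} (hu : u ≠ 0)
    (hnn : ∀ m : ℕ, 0 < m → 0 ≤ b * (m * u) ^ 2 + e * (m * u) + c) : 0 ≤ b := by
  by_contra hb
  push Not at hb
  have hu2 : 0 < u ^ 2 := by positivity
  have hnb : 0 < -b := by linarith
  obtain ⟨m, hm⟩ := exists_nat_gt ((|e * u| + |c|) / (-b * u ^ 2) + 1)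
  have hdiv : 0 ≤ (|e * u| + |c|) / (-b * u ^ 2) := by positivity
  have hm1 : (1 : ℝ) < m := by linarith
  have hmpos : 0 < m := by
    have : (0 : ℝ) < m := by linarith
    exact_mod_cast this
  have h1 := hnn m hmpos
  have h2 : |e * u| + |c| < m * (-b * u ^ 2) := by
    have h3 : (|e * u| + |c|) / (-b * u ^ 2) < m := by linarith
    rw [div_lt_iff₀ (by positivity)] at h3
    exact h3
  have h3 : e * (m * u) ≤ m * |e * u| := by
    have h4 : e * (m * u) = m * (e * u) := by ring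
    rw [h4]
    gcongr
    exact le_abs_self _
  have h4 : c ≤ m * |c| := by
    calc c ≤ |c| := le_abs_self c
      _ = 1 * |c| := (one_mul _).symm
      _ ≤ m * |c| := by gcongr
  have h5 : (m : ℝ) * (|e * u| + |c|) < m * (m * (-b * u ^ 2)) := by gcongr
  have h6 : b * (m * u) ^ 2 = -(m * (m * (-b * u ^ 2))) := by ring
  linarith

end PP72
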