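import Pool.Agent.PP72.Hi1

/-!
Zeros of high order of the leading form.
-/

open Polynomial Finset Filter

namespace PP72

variable {α : ℝ} {d : ℕ} {h : ℕ → ℝ[X]}

theorem gT_h2 {K : ℕ} {θ : ℝ} (hc : ∀ i < 4, (taylor θ (h (K + 2))).coeff i = 0)
    (hz1 : (h (K + 1)).eval θ = 0) (j : ℕ) (hj1 : K < j) (hj2 : j ≤ K + 2) :
    gT (K + 2) h θ j = 0 := by
  ext i
  rw [gT_coeff, coeff_zero]
  split_ifs with hij
  · rcases (by omega : (j = K + 1 ∧ i = 0) ∨ (j = K + 1 ∧ i = 1) ∨ (j = K + 2 ∧ i = 0)) with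
      ⟨rfl, rfl⟩ | ⟨rfl, rfl⟩ | ⟨rfl, rfl⟩
    · rw [zero_add, taylor_coeff_zero, hz1]
    · have e1 : 1 + (K + 1) = K + 2 := by ring
      rw [e1]
      exact hc 1 (by norm_num)
    · rw [zero_add]
      exact hc 0 (by norm_num)
  · rfl

theorem gT_h1 {K : ℕ} {θ : ℝ} (hc : ∀ i < 4, (taylor θ (h (K + 2))).coeff i = 0)
    (hz2 : (h K).eval θ = 0) :
    gT (K + 2) h θ K = C ((taylor θ (h (K + 1))).coeff 1) * X := by
  ext i
  rw [gT_coeff, coeff_C_mul, coeff_X]
  rcases (by omega : i = 0 ∨ i = 1 ∨ i = 2 ∨ 3 ≤ i) with rfl | rfl | rfl | hi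
  · rw [if_pos (by omega), zero_add, taylor_coeff_zero, hz2]
    simp
  · have e1 : 1 + K = K + 1 := by ring
    rw [if_pos (by omega), e1]
    simp
  · have e1 : 2 + K = K + 2 := by ring
    rw [if_pos (by omega), e1, hc 2 (by norm_num)]
    simp
  · rw [if_neg (by omega), if_neg (by omega)]
    simp

theorem gT_h0 {k : ℕ} {θ : ℝ} (hc : ∀ i < 4, (taylor θ (h (k + 1 + 2))).coeff i = 0) :
    gT (k + 1 + 2) h θ k = C ((taylor θ (h (k + 1 + 1))).coeff 2) * X ^ 2 +
      C ((taylor θ (h (k + 1))).coeff 1) * X + C ((h k).eval θ) := by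
  ext i
  simp only [gT_coeff, coeff_add, coeff_C_mul, coeff_X, coeff_C, coeff_X_pow]
  rcases (by omega : i = 0 ∨ i = 1 ∨ i = 2 ∨ i = 3 ∨ 4 ≤ i) with rfl | rfl | rfl | rfl | hi
  · rw [if_pos (by omega), zero_add, taylor_coeff_zero]
    simp
  · have e1 : 1 + k = k + 1 := by ring
    rw [if_pos (by omega), e1]
    simp
  · have e1 : 2 + k = k + 1 + 1 := by ring
    rw [if_pos (by omega), e1]
    simp
  · have e1 : 3 + k = k + 1 + 2 := by ring
    rw [if_pos (by omega), e1, hc 3 (by norm_num)]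
    simp
  · rw [if_neg (by omega), if_neg (by omega), if_neg (by omega), if_neg (by omega)]
    simp

/-- the core: from strips and levels -/
theorem Pk.near_high_core (K : ℕ) (hK : 4 ≤ K) (H : Pk α (K + 2) h) {θ : ℝ}
    (hθ : θ ∈ Set.Icc 0 α) (hc : ∀ i < 4, (taylor θ (h (K + 2))).coeff i = 0)
    (hz1 : (h (K + 1)).eval θ = 0) (hz2 : (h K).eval θ = 0)
    (h3 : ¬ (X - C θ) ^ 3 ∣ h (K + 1))
    (hlevel : ∀ J, 1 ≤ J → J ≤ K + 2 →
      (∀ j, J < j → j ≤ K + 2 → ∀ u, (gT (K + 2) h θ j).eval u = 0) →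
      ∀ P ∈ Sec α, 0 < P.1 → 0 ≤ (gT (K + 2) h θ J).eval ((P.2 : ℝ) - θ * P.1))
    (hstrip : ∀ U : ℝ, Thin (fv (K + 2) h)
      {P | P ∈ Sec α ∧ 0 < P.1 ∧ |(P.2 : ℝ) - θ * P.1| ≤ U}) :
    ∃ ε : ℝ, 0 < ε ∧ Thin (fv (K + 2) h) (Near α θ ε) := by
  have hBne : h (K + 1) ≠ 0 := by
    intro h0
    apply h3
    rw [h0]
    exact dvd_zero _
  obtain ⟨Q, hQ1, hQ2, hQ3, hQ4⟩ := taylor_root (h (K + 1)) hBne θ
  have hm1 : 1 ≤ rootMultiplicity θ (h (K + 1)) := (rootMultiplicity_pos hBne).2 hz1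
  have hm2 : rootMultiplicity θ (h (K + 1)) ≤ 2 := by
    by_contra hcon
    push Not at hcon
    exact h3 ((le_rootMultiplicity_iff hBne).1 (by omega))
  set m := rootMultiplicity θ (h (K + 1)) with hm
  apply H.near_of_strips2 K (by omega) hz2 m hm1 hm2 hQ1 hQ2 _ hstrip
  have hv2 : ∀ j, K < j → j ≤ K + 2 → ∀ u, (gT (K + 2) h θ j).eval u = 0 := by
    intro j hj1 hj2 u
    rw [gT_h2 hc hz1 j hj1 hj2, eval_zero]
  rcases (by omega : m = 1 ∨ m = 2) with hm' | hm'
  · intro P hP hP0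
    rw [hm', pow_one]
    have h1 := hlevel K (by omega) (by omega) hv2 P hP hP0
    rw [gT_h1 hc hz2, eval_mul, eval_C, eval_X] at h1
    rw [← hQ4, hm']
    exact h1
  · intro P hP hP0
    rw [hm']
    apply mul_nonneg _ (sq_nonneg _)
    rw [← hQ4, hm']
    obtain ⟨k, rfl⟩ : ∃ k, K = k + 1 := ⟨K - 1, by omega⟩
    have hv3 : ∀ j, k < j → j ≤ k + 1 + 2 → ∀ u, (gT (k + 1 + 2) h θ j).eval u = 0 := by
      intro j hj1 hj2 u
      rcases (by omega : j = k + 1 ∨ k + 1 < j) with rfl | hj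
      · rw [gT_h1 hc hz2, hQ3 1 (by omega)]
        simp
      · exact hv2 j hj hj2 u
    obtain ⟨P1, hP1, hP10, hu1⟩ : ∃ P ∈ Sec α, 0 < P.1 ∧ (P.2 : ℝ) - θ * P.1 ≠ 0 := by
      rcases hθ.1.lt_or_eq with hpos | hzero
      · obtain ⟨P, g1, g2, g3⟩ := exists_below H.pos hpos
        exact ⟨P, g1, g2, g3.ne⟩
      · obtain ⟨P, g1, g2, g3⟩ := exists_above (α := α) (θ := θ) hθ.1 (by
          rw [← hzero]
          exact H.pos)
        exact ⟨P, g1, g2, g3.ne'⟩
    apply quad_lead_nonneg hu1 (e := (taylor θ (h (k + 1))).coeff 1) (c := (h k).eval θ)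
    intro n hn
    have h1 := hlevel k (by omega) (by omega) hv3 (n * P1.1, n * P1.2) (sec_smul hP1 n)
      (Nat.mul_pos hn hP10)
    rw [gT_h0 hc] at h1
    simp only [eval_add, eval_mul, eval_C, eval_X, eval_pow] at h1
    have e1 : (((n * P1.2 : ℕ) : ℝ)) - θ * ((n * P1.1 : ℕ) : ℝ) =
        n * ((P1.2 : ℝ) - θ * P1.1) := by
      push_cast
      ring
    rw [e1] at h1
    exact h1

/-- rational directions -/
theorem Pk.near_high_rat (K : ℕ) (hK : 4 ≤ K) (H : Pk α (K + 2) h) {r : ℚ}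
    (hθ : (r : ℝ) ∈ Set.Icc 0 α)
    (hc : ∀ i < 4, (taylor (r : ℝ) (h (K + 2))).coeff i = 0)
    (hz1 : (h (K + 1)).eval (r : ℝ) = 0) (hz2 : (h K).eval (r : ℝ) = 0)
    (h3 : ¬ (X - C (r : ℝ)) ^ 3 ∣ h (K + 1)) :
    ∃ ε : ℝ, 0 < ε ∧ Thin (fv (K + 2) h) (Near α r ε) := by
  have hr0 : (0 : ℚ) ≤ r := by exact_mod_cast hθ.1
  obtain ⟨hv, h2⟩ := rat_slope hr0 hθ.2
  rw [h2] at hθ hc hz1 hz2 h3 ⊢
  apply H.near_high_core K hK hθ hc hz1 hz2 h3
  · intro J _ hJ htop P hP hP0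
    exact H.level_rat _ _ r.den_pos hv J hJ htop hP hP0
  · exact H.thin_strip_rat _ _ r.den_pos hv

/-- strips for a linear top polynomial -/
theorem Pk.strip_lin (n : ℕ) (hn : n + 4 ≤ d) (H : Pk α d h) {b : ℝ} (hb : b < 0)
    (hv : ∀ j, n + 4 < j → j ≤ d → ∀ u, (gT d h α j).eval u = 0)
    (hG : ∀ u, (gT d h α (n + 4)).eval u = b * u)
    (hw : ∀ W : ℝ, Thin (fv d h) (Ln α α 0 W)) (s : ℝ) :
    ∃ ρ : ℝ, 0 < ρ ∧ Thin (fv d h) (Str α α (Set.Ioo (s - ρ) (s + ρ))) := by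
  rcases lt_trichotomy s 0 with hs | hs | hs
  · apply H.strip_zero n hn hv
    rw [hG]
    exact mul_pos_of_neg_of_neg hb hs
  · subst hs
    refine H.thin_of_far (H.far_one n hn hv (γ := -b) (ρ := 1) (by linarith) one_pos ?_) hw
    intro u hu _
    rw [hG, abs_of_nonpos hu]
    linarith
  · exact strip_pos hs

/-- strips for a quadratic top polynomial -/
theorem Pk.strip_quad (n : ℕ) (hn : n + 4 ≤ d) (H : Pk α d h) {θ : ℝ} (hirr : Irrational θ)
    (hθ0 : 0 < θ) (hθα : θ ≤ α) {b e c : ℝ} (hb : 0 < b)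
    (hv : ∀ j, n + 4 < j → j ≤ d → ∀ u, (gT d h θ j).eval u = 0)
    (hpoly : gT d h θ (n + 4) = C b * X ^ 2 + C e * X + C c)
    (hw : ∀ s W : ℝ, Thin (fv d h) (Ln α θ s W)) (s : ℝ) :
    ∃ ρ : ℝ, 0 < ρ ∧ Thin (fv d h) (Str α θ (Set.Ioo (s - ρ) (s + ρ))) := by
  have hG : ∀ u, (gT d h θ (n + 4)).eval u = b * u ^ 2 + e * u + c := by
    intro u
    rw [hpoly]
    simp
  have hder : ∀ u, (derivative (gT d h θ (n + 4))).eval u = 2 * b * u + e := by
    intro u
    rw [hpoly]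
    simp
    ring
  have hnn : ∀ s : ℝ, (θ = α → s ≤ 0) → 0 ≤ b * s ^ 2 + e * s + c := by
    intro s hs
    have := H.level_irr hirr hθ0 hθα (n + 4) (by omega) hn hv hs
    rw [hG] at this
    exact this
  have hacc : ∀ s : ℝ, (θ = α → s ≤ 0) → ∀ X0 : ℕ, ∃ P ∈ Sec α, X0 < P.1 ∧
      (P.1 : ℝ) * |(P.2 : ℝ) - θ * P.1 - s| ≤ 11 := by
    intro s hs X0
    rcases hθα.lt_or_eq with hlt | heq
    · obtain ⟨P, h1, h2, h3⟩ := exists_near hirr hθ0 hlt s X0
      exact ⟨P, h1, h2, h3.trans (by norm_num)⟩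
    · have h1 := hs heq
      subst heq
      exact exists_near_bd hirr hθ0 s h1 X0
  by_cases hs : θ = α → s ≤ 0
  · rcases (hnn s hs).lt_or_eq with hpos | hzero
    · apply H.strip_zero n hn hv
      rw [hG]
      exact hpos
    · have hdouble : (e = -(2 * b * s) ∧ ∀ u : ℝ, b * u ^ 2 + e * u + c = b * (u - s) ^ 2) →
          ∃ ρ : ℝ, 0 < ρ ∧ Thin (fv d h) (Str α θ (Set.Ioo (s - ρ) (s + ρ))) := by
        rintro ⟨hes, hdbl⟩
        refine H.thin_of_far (H.far_two n hn hv hb one_pos ?_ ?_) (hw s)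
        · intro u _ _
          rw [hG, hdbl]
        · apply H.second_nonneg n hn hv (by rw [hG]; exact hzero.symm) _ (hacc s hs)
          rw [hder, hes]
          ring
      by_cases hcase : θ = α ∧ s = 0
      · obtain ⟨hθα', hs0⟩ := hcase
        subst hs0
        have hc0 : c = 0 := by
          have h1 : b * (0 : ℝ) ^ 2 + e * 0 + c = c := by ring
          rw [h1] at hzero
          exact hzero.symm
        have he0 : e ≤ 0 := by
          by_contra hepos
          push Not at hepos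
          have h1 := hnn (-(e / (2 * b))) (fun _ => by
            have : 0 < e / (2 * b) := by positivity
            linarith)
          have h2 : b * (-(e / (2 * b))) ^ 2 + e * (-(e / (2 * b))) + c =
              -(e ^ 2 / (4 * b)) := by
            rw [hc0]
            field_simp
            ring
          rw [h2] at h1
          have h3 : 0 < e ^ 2 / (4 * b) := by positivity
          linarith
        rcases he0.lt_or_eq with helt | heeq
        · subst hθα'
          refine H.thin_of_far (H.far_one n hn hv (γ := -e) (ρ := 1) (by linarith) one_pos ?_)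
            (hw 0)
          intro u hu _
          rw [hG, hc0, abs_of_nonpos hu]
          have : 0 ≤ b * u ^ 2 := by positivity
          linarith
        · apply hdouble
          refine ⟨by rw [heeq]; ring, fun u => ?_⟩
          rw [heeq, hc0]
          ring
      · apply hdouble
        obtain ⟨r, hr, hrs⟩ : ∃ r : ℝ, 0 < r ∧ (θ = α → s + r ≤ 0) := by
          by_cases h1 : θ = α
          · have h2 : s ≠ 0 := fun h3 => hcase ⟨h1, h3⟩
            have h3 : s < 0 := lt_of_le_of_ne (hs h1) h2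
            exact ⟨-s, by linarith, fun _ => by linarith⟩
          · exact ⟨1, one_pos, fun h2 => absurd h2 h1⟩
        apply quad_double hb hr hzero.symm
        intro u hu
        apply hnn u
        intro h1
        have h2 := (abs_le.1 hu).2
        have h3 := hrs h1
        linarith
  · push Not at hs
    obtain ⟨h1, h2⟩ := hs
    subst h1
    exact strip_pos h2

/-- irrational directions -/
theorem Pk.near_high_irr (K : ℕ) (hK : 4 ≤ K) (H : Pk α (K + 2) h) (hne : h (K + 2) ≠ 0) {θ : ℝ}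
    (hirr : Irrational θ) (hθ0 : 0 < θ) (hθα : θ ≤ α) (hz : (h (K + 2)).eval θ = 0)
    (hμ : 4 ≤ rootMultiplicity θ (h (K + 2)))
    (hz1 : (h (K + 1)).eval θ = 0) (hz2 : (h K).eval θ = 0)
    (h3 : ¬ (X - C θ) ^ 3 ∣ h (K + 1)) :
    ∃ ε : ℝ, 0 < ε ∧ Thin (fv (K + 2) h) (Near α θ ε) := by
  obtain ⟨_, _, _, hc', _⟩ := taylor_root (h (K + 2)) hne θ
  have hc : ∀ i < 4, (taylor θ (h (K + 2))).coeff i = 0 := fun i hi => hc' i (by omega)
  have halg := H.halg_of_zero hne hz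
  have hk2 : 2 ≤ (minpoly ℚ θ).natDegree := by
    have h0 : 0 < (minpoly ℚ θ).natDegree := minpoly.natDegree_pos halg
    have h1 : (minpoly ℚ θ).natDegree ≠ 1 := by
      rw [Ne, minpoly.natDegree_eq_one_iff]
      rintro ⟨r, hr⟩
      exact hirr ⟨r, hr⟩
    omega
  have hkd : 4 * (minpoly ℚ θ).natDegree ≤ K + 2 := by
    have h1 : rootMultiplicity θ (h (K + 2)) * (minpoly ℚ θ).natDegree ≤ K + 2 := by
      rcases lt_or_ge (rootMultiplicity θ (h (K + 2)) * (minpoly ℚ θ).natDegree) (K + 2)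
        with hlt | hge
      · exact hlt.le
      · exact (H.form_eq hne hz hge).1.ge
    calc 4 * (minpoly ℚ θ).natDegree
        ≤ rootMultiplicity θ (h (K + 2)) * (minpoly ℚ θ).natDegree :=
          Nat.mul_le_mul_right _ hμ
      _ ≤ K + 2 := h1
  have hlevel : ∀ J, 1 ≤ J → J ≤ K + 2 →
      (∀ j, J < j → j ≤ K + 2 → ∀ u, (gT (K + 2) h θ j).eval u = 0) →
      ∀ P ∈ Sec α, 0 < P.1 → 0 ≤ (gT (K + 2) h θ J).eval ((P.2 : ℝ) - θ * P.1) := by
    intro J hJ1 hJ htop P hP _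
    apply H.level_irr hirr hθ0 hθα J hJ1 hJ htop
    intro h1
    rw [h1]
    exact sec_u hP
  apply H.near_high_core K hK ⟨hθ0.le, hθα⟩ hc hz1 hz2 h3 hlevel
  -- the strips
  have hv2 : ∀ j, K < j → j ≤ K + 2 → gT (K + 2) h θ j = 0 := fun j hj1 hj2 =>
    gT_h2 hc hz1 j hj1 hj2
  have hv2' : ∀ j, K < j → j ≤ K + 2 → ∀ u, (gT (K + 2) h θ j).eval u = 0 := by
    intro j hj1 hj2 u
    rw [hv2 j hj1 hj2, eval_zero]
  have hfin : (∀ s : ℝ, ∃ ρ : ℝ, 0 < ρ ∧
      Thin (fv (K + 2) h) (Str α θ (Set.Ioo (s - ρ) (s + ρ)))) →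
      ∀ U : ℝ, Thin (fv (K + 2) h)
        {P | P ∈ Sec α ∧ 0 < P.1 ∧ |(P.2 : ℝ) - θ * P.1| ≤ U} := by
    intro hs U
    apply (thin_strip_compact hs U).mono
    rintro P ⟨h1, _, h2⟩
    exact ⟨h1, abs_le.1 h2⟩
  apply hfin
  set b1 := (taylor θ (h (K + 1))).coeff 1 with hb1
  by_cases hb1z : b1 = 0
  · -- quadratic
    obtain ⟨k, rfl⟩ : ∃ k, K = k + 1 := ⟨K - 1, by omega⟩
    obtain ⟨n, rfl⟩ : ∃ n, k = n + 4 := ⟨k - 4, by omega⟩
    set b2 := (taylor θ (h (n + 4 + 1 + 1))).coeff 2 with hb2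
    have hb2ne : b2 ≠ 0 := by
      intro h0
      apply h3
      rw [X_sub_C_pow_dvd_iff, X_pow_dvd_iff]
      intro i hi
      have e1 : (h (n + 4 + 1 + 1)).comp (X + C θ) = taylor θ (h (n + 4 + 1 + 1)) := by
        rw [taylor_apply]
      rw [e1]
      rcases (by omega : i = 0 ∨ i = 1 ∨ i = 2) with rfl | rfl | rfl
      · rw [taylor_coeff_zero]
        exact hz1
      · exact hb1z
      · exact h0
    have hlin : gT (n + 4 + 1 + 2) h θ (n + 4 + 1) = 0 := by
      rw [gT_h1 hc hz2]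
      change C b1 * X = 0
      rw [hb1z]
      simp
    have hv3 : ∀ j, n + 4 < j → j ≤ n + 4 + 1 + 2 → gT (n + 4 + 1 + 2) h θ j = 0 := by
      intro j hj1 hj2
      rcases (by omega : j = n + 4 + 1 ∨ n + 4 + 1 < j) with rfl | hj
      · exact hlin
      · exact hv2 j hj hj2
    have hv3' : ∀ j, n + 4 < j → j ≤ n + 4 + 1 + 2 →
        ∀ u, (gT (n + 4 + 1 + 2) h θ j).eval u = 0 := by
      intro j hj1 hj2 u
      rw [hv3 j hj1 hj2, eval_zero]
    have hpoly : gT (n + 4 + 1 + 2) h θ (n + 4) = C b2 * X ^ 2 +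
        C ((taylor θ (h (n + 4 + 1))).coeff 1) * X + C ((h (n + 4)).eval θ) := gT_h0 hc
    have hb2pos : 0 < b2 := by
      apply lt_of_le_of_ne _ (Ne.symm hb2ne)
      obtain ⟨P1, hP1, hP10, hu1⟩ := exists_below H.pos hθ0
      apply quad_lead_nonneg hu1.ne (e := (taylor θ (h (n + 4 + 1))).coeff 1)
        (c := (h (n + 4)).eval θ)
      intro m hm
      have h1 := hlevel (n + 4) (by omega) (by omega) hv3' (m * P1.1, m * P1.2)
        (sec_smul hP1 m) (Nat.mul_pos hm hP10)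
      rw [hpoly] at h1
      simp only [eval_add, eval_mul, eval_C, eval_X, eval_pow] at h1
      have e1 : (((m * P1.2 : ℕ) : ℝ)) - θ * ((m * P1.1 : ℕ) : ℝ) =
          m * ((P1.2 : ℝ) - θ * P1.1) := by
        push_cast
        ring
      rw [e1] at h1
      exact h1
    have hdegG : (gT (n + 4 + 1 + 2) h θ (n + 4)).natDegree ≤ 2 := by
      rw [hpoly]
      compute_degree
    have hGne : gT (n + 4 + 1 + 2) h θ (n + 3 + 1) ≠ 0 := by
      intro h0
      apply hb2ne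
      have h1 : (gT (n + 4 + 1 + 2) h θ (n + 4)).coeff 2 = b2 := by
        rw [hpoly]
        simp [coeff_X, coeff_C]
      rw [← h1]
      change (gT (n + 4 + 1 + 2) h θ (n + 3 + 1)).coeff 2 = 0
      rw [h0, coeff_zero]
    have hlog := H.log_strip (θ := θ) fun U => H.rg_strip hne hirr halg (n + 3) (by omega)
      (fun j hj1 hj2 => hv3 j (by omega) hj2) hGne (by
        calc (minpoly ℚ θ).natDegree * (gT (n + 4 + 1 + 2) h θ (n + 3 + 1)).natDegree
            ≤ (minpoly ℚ θ).natDegree * 2 := Nat.mul_le_mul_left _ hdegG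
          _ < n + 4 + 1 + 2 := by omega) U
    exact H.strip_quad n (by omega) hirr hθ0 hθα hb2pos hv3' hpoly
      (fun s W => H.thin_ln_strip (by omega) hne hirr hlog s W)
  · -- linear
    obtain ⟨n, rfl⟩ : ∃ n, K = n + 4 := ⟨K - 4, by omega⟩
    have hlin : gT (n + 4 + 2) h θ (n + 4) = C b1 * X := gT_h1 hc hz2
    have hG : ∀ u, (gT (n + 4 + 2) h θ (n + 4)).eval u = b1 * u := by
      intro u
      rw [hlin]
      simp
    obtain ⟨P1, hP1, hP10, hu1⟩ := exists_below H.pos hθ0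
    have g1 := hlevel (n + 4) (by omega) (by omega) hv2' P1 hP1 hP10
    rw [hG] at g1
    have hb1neg : b1 < 0 := by
      apply lt_of_le_of_ne _ hb1z
      by_contra hcon
      push Not at hcon
      have := mul_neg_of_pos_of_neg hcon hu1
      linarith
    have hθα' : θ = α := by
      by_contra hcon
      obtain ⟨P2, hP2, hP20, hu2⟩ := exists_above hθ0.le (lt_of_le_of_ne hθα hcon)
      have g2 := hlevel (n + 4) (by omega) (by omega) hv2' P2 hP2 hP20
      rw [hG] at g2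
      have := mul_neg_of_neg_of_pos hb1neg hu2
      linarith
    subst hθα'
    have hGne : gT (n + 4 + 2) h θ (n + 3 + 1) ≠ 0 := by
      intro h0
      apply hb1z
      have h1 := hG 1
      change (gT (n + 4 + 2) h θ (n + 3 + 1)).eval 1 = b1 * 1 at h1
      rw [h0, eval_zero] at h1
      linarith
    have hdegG : (gT (n + 4 + 2) h θ (n + 3 + 1)).natDegree ≤ 1 := by
      change (gT (n + 4 + 2) h θ (n + 4)).natDegree ≤ 1
      rw [hlin]
      compute_degree
    have hlog := H.log_strip (θ := θ) fun U => H.rg_strip hne hirr halg (n + 3) (by omega)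
      (fun j hj1 hj2 => hv2 j (by omega) hj2) hGne (by
        calc (minpoly ℚ θ).natDegree * (gT (n + 4 + 2) h θ (n + 3 + 1)).natDegree
            ≤ (minpoly ℚ θ).natDegree * 1 := Nat.mul_le_mul_left _ hdegG
          _ < n + 4 + 2 := by omega) U
    exact H.strip_lin n (by omega) hb1neg hv2' hG
      (fun W => H.thin_ln_strip (by omega) hne hirr hlog 0 W)

end PP72
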