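import Pool.Agent.PP72.Local

/-!
Thinness near the directions of the sector, and the general theorem.
-/

open Polynomial Finset Filter

namespace PP72

variable {α : ℝ} {d : ℕ} {h : ℕ → ℝ[X]}

theorem taylor_root (p : ℝ[X]) (hp : p ≠ 0) (θ : ℝ) : ∃ Q : ℝ[X],
    p = (X - C θ) ^ (rootMultiplicity θ p) * Q ∧ Q.eval θ ≠ 0 ∧
    (∀ i < rootMultiplicity θ p, (taylor θ p).coeff i = 0) ∧
    (taylor θ p).coeff (rootMultiplicity θ p) = Q.eval θ := by
  set μ := rootMultiplicity θ p with hμ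
  obtain ⟨Q, hQ1, hQ2⟩ := exists_eq_pow_rootMultiplicity_mul_and_not_dvd p hp θ
  rw [← hμ] at hQ1
  have hQ3 : Q.eval θ ≠ 0 := by
    intro h0
    exact hQ2 (dvd_iff_isRoot.2 h0)
  have h1 : taylor θ p = X ^ μ * Q.comp (X + C θ) := by
    rw [taylor_apply]
    conv_lhs => rw [hQ1]
    simp [mul_comp, pow_comp, sub_comp]
  refine ⟨Q, hQ1, hQ3, ?_, ?_⟩
  · intro i hi
    rw [h1, coeff_X_pow_mul', if_neg (by omega)]
  · rw [h1, coeff_X_pow_mul', if_pos le_rfl, Nat.sub_self, coeff_zero_eq_eval_zero, eval_comp]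
    simp

/-- the leading Taylor coefficient has the right sign on a side on which the form is `≥ 0` -/
theorem taylor_sign (p : ℝ[X]) (hp : p ≠ 0) (θ σ τ0 : ℝ) (hσ : σ = 1 ∨ σ = -1) (hτ0 : 0 < τ0)
    (hnn : ∀ τ, 0 < τ → τ ≤ τ0 → 0 ≤ p.eval (θ + σ * τ)) :
    0 < (taylor θ p).coeff (rootMultiplicity θ p) * σ ^ (rootMultiplicity θ p) := by
  obtain ⟨Q, hQ1, hQ2, _, hQ4⟩ := taylor_root p hp θ
  set μ := rootMultiplicity θ p with hμ
  rw [hQ4]
  have hσμ : σ ^ μ ≠ 0 := by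
    rcases hσ with h1 | h1 <;> rw [h1]
    · simp
    · exact pow_ne_zero _ (by norm_num)
  by_contra hneg
  push Not at hneg
  have hlt : Q.eval θ * σ ^ μ < 0 := lt_of_le_of_ne hneg (mul_ne_zero hQ2 hσμ)
  have hcont : Continuous fun τ : ℝ => Q.eval (θ + σ * τ) * σ ^ μ := by
    have := Q.continuous
    fun_prop
  have hopen : IsOpen {τ : ℝ | Q.eval (θ + σ * τ) * σ ^ μ < 0} :=
    isOpen_lt hcont continuous_const
  have h0 : (0 : ℝ) ∈ {τ : ℝ | Q.eval (θ + σ * τ) * σ ^ μ < 0} := by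
    change Q.eval (θ + σ * 0) * σ ^ μ < 0
    rw [mul_zero, add_zero]
    exact hlt
  obtain ⟨r, hr, hball⟩ := Metric.isOpen_iff.1 hopen 0 h0
  set τ := min τ0 (r / 2) with hτ
  have hτpos : 0 < τ := by positivity
  have h1 : Q.eval (θ + σ * τ) * σ ^ μ < 0 := by
    apply hball
    rw [Metric.mem_ball, Real.dist_eq, sub_zero, abs_of_pos hτpos]
    have := min_le_right τ0 (r / 2)
    linarith
  have h2 := hnn τ hτpos (min_le_left _ _)
  rw [hQ1, eval_mul, eval_pow, eval_sub, eval_X, eval_C] at h2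
  have e1 : θ + σ * τ - θ = σ * τ := by ring
  rw [e1, mul_pow] at h2
  have h3 : 0 < τ ^ μ := by positivity
  nlinarith

/-- nonvanishing directions -/
theorem Pk.near_nonroot (H : Pk α d h) (hd : 3 ≤ d) (θ : ℝ) (hpos : 0 < (h d).eval θ) :
    ∃ ε : ℝ, 0 < ε ∧ Thin (fv d h) (Near α θ ε) := by
  set c := (h d).eval θ / 2 with hc
  have hc0 : 0 < c := by positivity
  have hopen : IsOpen {t : ℝ | c < (h d).eval t} := isOpen_lt continuous_const (h d).continuous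
  obtain ⟨r, hr, hball⟩ := Metric.isOpen_iff.1 hopen θ (by
    change c < (h d).eval θ
    rw [hc]
    linarith)
  -- bounds for the lower forms
  have hb : ∀ k : ℕ, ∃ B : ℝ, 0 ≤ B ∧ ∀ t ∈ Set.Icc (θ - r) (θ + r), |(h k).eval t| ≤ B := by
    intro k
    obtain ⟨B, hB⟩ := (isCompact_Icc (a := θ - r) (b := θ + r)).exists_bound_of_continuousOn
      (h k).continuous.continuousOn
    refine ⟨max B 0, le_max_right _ _, fun t ht => ?_⟩
    exact (hB t ht).trans (le_max_left _ _)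
  choose B hB0 hB using hb
  set S := ∑ k ∈ range d, B k with hS
  have hS0 : 0 ≤ S := Finset.sum_nonneg fun k _ => hB0 k
  obtain ⟨x1, hx1⟩ := exists_nat_ge (2 * S / c)
  refine ⟨r, hr, ?_⟩
  have hsplit : Near α θ r ⊆ {P | P ∈ Near α θ r ∧ x1 + 1 ≤ P.1} ∪
      {P | P ∈ Sec α ∧ P.1 ≤ x1} := by
    intro P hP
    by_cases h1 : x1 + 1 ≤ P.1
    · exact Or.inl ⟨hP, h1⟩
    · exact Or.inr ⟨hP.1, by omega⟩
  refine Thin.mono (Thin.union ?_ ?_) hsplit
  · -- large points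
    apply thin_of_bound 0 (c / 2 / (1 + α ^ 3)) (by have := H.pos; positivity)
    rintro P ⟨⟨hP1, hP2, hP3⟩, hP4⟩
    have hxpos : (0 : ℝ) < P.1 := by exact_mod_cast hP2
    have hx1' : (1 : ℝ) ≤ P.1 := by exact_mod_cast hP2
    have hxx : (x1 : ℝ) ≤ P.1 := by exact_mod_cast (by omega : x1 ≤ P.1)
    have hslope : (P.2 : ℝ) / P.1 ∈ Set.Icc (θ - r) (θ + r) := by
      rw [abs_lt] at hP3
      exact ⟨by linarith [hP3.1], by linarith [hP3.2]⟩
    have hlead : c < (h d).eval ((P.2 : ℝ) / P.1) := by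
      apply hball
      rw [Metric.mem_ball, Real.dist_eq]
      exact hP3
    have hval : fv d h P = ∑ k ∈ range (d + 1), (P.1 : ℝ) ^ k * (h k).eval ((P.2 : ℝ) / P.1) :=
      ev_eq H.deg hxpos.ne'
    rw [Finset.sum_range_succ] at hval
    have hlow : |∑ k ∈ range d, (P.1 : ℝ) ^ k * (h k).eval ((P.2 : ℝ) / P.1)| ≤
        S * (P.1 : ℝ) ^ (d - 1) := by
      rw [hS, Finset.sum_mul]
      refine le_trans (Finset.abs_sum_le_sum_abs _ _) (Finset.sum_le_sum fun k hk => ?_)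
      rw [abs_mul, abs_of_nonneg (by positivity : (0 : ℝ) ≤ (P.1 : ℝ) ^ k), mul_comm]
      apply mul_le_mul (hB k _ hslope) _ (by positivity) (hB0 k)
      apply pow_le_pow_right₀ hx1'
      have := mem_range.1 hk
      omega
    have hSx : S ≤ c / 2 * P.1 := by
      rw [div_le_iff₀ hc0] at hx1
      nlinarith
    have hpow : (P.1 : ℝ) ^ d = P.1 * (P.1 : ℝ) ^ (d - 1) := by
      rw [← pow_succ']
      congr 1
      omega
    have h1 : c / 2 * (P.1 : ℝ) ^ d ≤ fv d h P := by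
      rw [hval]
      have h2 := (abs_le.1 hlow).1
      have h3 : S * (P.1 : ℝ) ^ (d - 1) ≤ c / 2 * (P.1 : ℝ) ^ d := by
        rw [hpow]
        have : (0 : ℝ) ≤ (P.1 : ℝ) ^ (d - 1) := by positivity
        nlinarith
      have h4 : c * (P.1 : ℝ) ^ d ≤ (P.1 : ℝ) ^ d * (h d).eval ((P.2 : ℝ) / P.1) := by
        have : (0 : ℝ) ≤ (P.1 : ℝ) ^ d := by positivity
        nlinarith
      linarith
    have h5 : (P.1 : ℝ) ^ 3 ≤ (P.1 : ℝ) ^ d := pow_le_pow_right₀ hx1' hd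
    have h6 : (P.1 : ℝ) ^ 2 ≤ (P.1 : ℝ) ^ 3 := pow_le_pow_right₀ hx1' (by norm_num)
    have h7 : |(P.2 : ℝ) - 0 * P.1| ^ 3 ≤ α ^ 3 * (P.1 : ℝ) ^ 3 := by
      rw [zero_mul, sub_zero, abs_of_nonneg (Nat.cast_nonneg _), ← mul_pow]
      have : (P.2 : ℝ) ≤ α * P.1 := hP1
      gcongr
    have h8 : (0 : ℝ) < 1 + α ^ 3 := by have := H.pos; positivity
    calc c / 2 / (1 + α ^ 3) * ((P.1 : ℝ) ^ 2 + |(P.2 : ℝ) - 0 * P.1| ^ 3)
        ≤ c / 2 / (1 + α ^ 3) * ((1 + α ^ 3) * (P.1 : ℝ) ^ 3) := by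
          apply mul_le_mul_of_nonneg_left _ (by positivity)
          linarith
      _ = c / 2 * (P.1 : ℝ) ^ 3 := by field_simp
      _ ≤ c / 2 * (P.1 : ℝ) ^ d := by gcongr
      _ ≤ fv d h P := h1
  · -- finitely many points
    apply thin_finite
    obtain ⟨Y, hY⟩ := exists_nat_ge (α * x1)
    apply Set.Finite.subset (Set.finite_Iic (x1, Y))
    rintro P ⟨hP1, hP2⟩
    have hP1' : (P.2 : ℝ) ≤ α * P.1 := hP1
    refine Prod.mk_le_mk.2 ⟨hP2, ?_⟩
    have h1 : (P.1 : ℝ) ≤ x1 := by exact_mod_cast hP2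
    have h2 : (P.2 : ℝ) ≤ Y := by
      have := H.pos
      nlinarith
    exact_mod_cast h2

/-- the region on one side of a rational direction -/
theorem Pk.side (H : Pk α d h) (hd : 3 ≤ d) (hne : h d ≠ 0) (q p : ℕ) (hq : 0 < q)
    (hv : (q, p) ∈ Sec α) (hμ1 : 1 ≤ rootMultiplicity (p / q : ℝ) (h d))
    (hμ3 : rootMultiplicity (p / q : ℝ) (h d) ≤ 3) (σ : ℝ) (hσ : σ = 1 ∨ σ = -1)
    (a b : ℕ) (hW : (a, b) ∈ Sec α) (w : ℝ) (hw : 0 < w) (hσw : (b : ℝ) - (p / q : ℝ) * a = σ * w)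
    (τ0 : ℝ) (hτ0 : 0 < τ0)
    (hnn : ∀ τ, 0 < τ → τ ≤ τ0 → 0 ≤ (h d).eval ((p / q : ℝ) + σ * τ)) :
    ∃ E : ℝ, 0 < E ∧ ∃ U0 : ℝ, Thin (fv d h) {P | P ∈ Sec α ∧ 0 < P.1 ∧
      U0 ≤ σ * ((P.2 : ℝ) - (p / q : ℝ) * P.1) ∧
      σ * ((P.2 : ℝ) - (p / q : ℝ) * P.1) ≤ E * P.1} := by
  have hq' : (0 : ℝ) < q := by exact_mod_cast hq
  set θ : ℝ := p / q with hθ
  set μ := rootMultiplicity θ (h d) with hμ
  have hσσ : σ * σ = 1 := by rcases hσ with h1 | h1 <;> rw [h1] <;> norm_num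
  obtain ⟨Q, hQ1, hQ2, hQ3, hQ4⟩ := taylor_root (h d) hne θ
  have hsign := taylor_sign (h d) hne θ σ τ0 hσ hτ0 hnn
  rw [← hμ] at hQ3 hQ4 hsign
  set g : ℕ → ℝ[X] := fun j => (gT d h θ j).comp (C σ * X) with hg
  have hμd : μ ≤ d := by
    have h1 : μ ≤ (h d).natDegree := by
      rw [hμ, ← count_roots]
      exact (Multiset.count_le_card _ _).trans (card_roots' _)
    exact h1.trans (H.deg d)
  have hgc : ∀ j i, (g j).coeff i = (gT d h θ j).coeff i * σ ^ i := by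
    intro j i
    simp only [hg]
    rw [comp_C_mul_X_coeff]
  have hge : ∀ j U, (g j).eval U = (gT d h θ j).eval (σ * U) := by
    intro j U
    simp only [hg]
    rw [eval_comp]
    simp
  obtain ⟨E, hE, δ, hδ, U0, hreg⟩ := region d (d - μ) μ hd (by omega) hμ1 hμ3 g (by
      intro j _
      rw [natDegree_le_iff_coeff_eq_zero]
      intro N hN
      rw [hgc, coeff_eq_zero_of_natDegree_lt (lt_of_le_of_lt (gT_natDegree_le θ j) hN), zero_mul])
    (by
      intro j hj1 hj2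
      rw [hgc, gT_coeff, if_pos (by omega)]
      have e1 : d - j + j = d := by omega
      rw [e1, hQ3 _ (by omega), zero_mul])
    (by
      rw [hgc, gT_coeff, if_pos (by omega)]
      have e1 : μ + (d - μ) = d := by omega
      rw [e1]
      exact hsign) w hw
    (by
      intro m
      apply H.ray (m * a + q) (m * b + p) q p (sec_add (sec_smul hW m) hv) hv hq
      intro t
      have hx : (((m * a + q + t * q : ℕ)) : ℝ) ≠ 0 := by
        have : 0 < m * a + q + t * q := by omega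
        exact_mod_cast this.ne'
      have e1 : ((m * b + p + t * p : ℕ) : ℝ) =
          θ * ((m * a + q + t * q : ℕ) : ℝ) + σ * (m * w) := by
        have e2 : (σ * (m * w) : ℝ) = m * ((b : ℝ) - θ * a) := by rw [hσw]; ring
        rw [e2, hθ]
        push_cast
        field_simp
        ring
      rw [e1, ev_taylor H.deg θ hx, lineP_eval]
      apply Finset.sum_congr rfl
      intro j _
      rw [hge])
  refine ⟨E, hE, max U0 0, ?_⟩
  apply thin_of_bound θ δ hδ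
  rintro P ⟨_, hP2, hP3, hP4⟩
  have hx : (P.1 : ℝ) ≠ 0 := by
    have : (0 : ℝ) < P.1 := by exact_mod_cast hP2
    exact this.ne'
  have h1 := hreg P.1 (σ * ((P.2 : ℝ) - θ * P.1)) ((le_max_left _ _).trans hP3) hP4
  have h2 : |(P.2 : ℝ) - θ * P.1| = σ * ((P.2 : ℝ) - θ * P.1) := by
    have h0 : 0 ≤ σ * ((P.2 : ℝ) - θ * P.1) := (le_max_right _ _).trans hP3
    rcases hσ with h3 | h3
    · rw [h3, one_mul] at h0 ⊢
      exact abs_of_nonneg h0
    · rw [h3] at h0 ⊢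
      rw [abs_of_nonpos (by linarith)]
      ring
  rw [h2]
  refine h1.trans (le_of_eq ?_)
  have e3 : (P.2 : ℝ) = θ * P.1 + σ * (σ * ((P.2 : ℝ) - θ * P.1)) := by
    rw [← mul_assoc, hσσ]
    ring
  unfold fv
  conv_rhs => rw [e3, ev_taylor H.deg θ hx]
  apply Finset.sum_congr rfl
  intro j _
  rw [hge]

/-- rational directions in which the leading form vanishes to order at most `3` -/
theorem Pk.near_rational (H : Pk α d h) (hd : 3 ≤ d) (hne : h d ≠ 0) (q p : ℕ) (hq : 0 < q)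
    (hv : (q, p) ∈ Sec α) (hμ1 : 1 ≤ rootMultiplicity (p / q : ℝ) (h d))
    (hμ3 : rootMultiplicity (p / q : ℝ) (h d) ≤ 3) :
    ∃ ε : ℝ, 0 < ε ∧ Thin (fv d h) (Near α (p / q : ℝ) ε) := by
  have hq' : (0 : ℝ) < q := by exact_mod_cast hq
  set θ : ℝ := p / q with hθ
  have hθ0 : 0 ≤ θ := by positivity
  have hθα : θ < α := by
    have h1 : θ ≤ α := by
      have : (p : ℝ) ≤ α * q := hv
      rw [hθ, div_le_iff₀ hq']
      exact this
    refine lt_of_le_of_ne h1 ?_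
    intro h2
    apply H.irr
    exact ⟨(p : ℚ) / q, by push_cast; rw [← h2]⟩
  have hnn := H.lead_nonneg (by omega)
  -- the side above
  have hup : ∃ E : ℝ, 0 < E ∧ ∃ U0 : ℝ, Thin (fv d h) {P | P ∈ Sec α ∧ 0 < P.1 ∧
      U0 ≤ (1 : ℝ) * ((P.2 : ℝ) - (p / q : ℝ) * P.1) ∧
      (1 : ℝ) * ((P.2 : ℝ) - (p / q : ℝ) * P.1) ≤ E * P.1} := by
    obtain ⟨r, hr1, hr2⟩ := exists_rat_btwn hθα
    have hr0 : (0 : ℝ) ≤ r := hθ0.trans hr1.le
    have h1 : ((r.num.toNat : ℕ) : ℤ) = r.num :=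
      Int.toNat_of_nonneg (Rat.num_nonneg.2 (by exact_mod_cast hr0))
    have h2 : (r : ℝ) = ((r.num.toNat : ℕ) : ℝ) / ((r.den : ℕ) : ℝ) := by
      have h3 : ((r.num.toNat : ℕ) : ℝ) = (r.num : ℝ) := by exact_mod_cast h1
      rw [h3]
      exact_mod_cast (Rat.num_div_den r).symm
    have hden : (0 : ℝ) < (r.den : ℝ) := by exact_mod_cast r.den_pos
    apply H.side hd hne q p hq hv hμ1 hμ3 1 (Or.inl rfl) r.den r.num.toNat
      (by
        change ((r.num.toNat : ℕ) : ℝ) ≤ α * (r.den : ℝ)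
        rw [h2, div_lt_iff₀ hden] at hr2
        exact hr2.le) (((r.num.toNat : ℕ) : ℝ) - θ * r.den)
      (by
        rw [h2, lt_div_iff₀ hden] at hr1
        linarith) (by ring) (α - θ) (by linarith)
    intro τ hτ1 hτ2
    apply hnn
    constructor <;> linarith
  -- the side below
  have hdown : ∃ E : ℝ, 0 < E ∧ ∃ U0 : ℝ, Thin (fv d h) {P | P ∈ Sec α ∧ 0 < P.1 ∧
      U0 ≤ (-1 : ℝ) * ((P.2 : ℝ) - (p / q : ℝ) * P.1) ∧
      (-1 : ℝ) * ((P.2 : ℝ) - (p / q : ℝ) * P.1) ≤ E * P.1} := by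
    rcases hθ0.lt_or_eq with hpos | hzero
    · apply H.side hd hne q p hq hv hμ1 hμ3 (-1) (Or.inr rfl) 1 0
        (by
          change ((0 : ℕ) : ℝ) ≤ α * ((1 : ℕ) : ℝ)
          have := H.pos
          push_cast
          linarith) θ hpos (by push_cast; ring) θ hpos
      intro τ hτ1 hτ2
      apply hnn
      constructor <;> linarith
    · refine ⟨1, one_pos, 1, ?_⟩
      apply (thin_empty _).mono
      rintro P ⟨_, _, hP3, _⟩
      rw [← hθ, ← hzero] at hP3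
      have : (0 : ℝ) ≤ P.2 := Nat.cast_nonneg _
      linarith
  obtain ⟨E1, hE1, U1, h1⟩ := hup
  obtain ⟨E2, hE2, U2, h2⟩ := hdown
  obtain ⟨K, hK⟩ := exists_nat_ge (q * max U1 U2)
  refine ⟨min E1 E2, by positivity, ?_⟩
  have hlines : Thin (fv d h) (⋃ k ∈ Finset.Icc (-(K : ℤ)) K,
      {P : ℕ × ℕ | P ∈ Sec α ∧ 0 < P.1 ∧ (P.2 : ℝ) - (p / q : ℝ) * P.1 = (k : ℝ) / q}) :=
    thin_biUnion _ _ fun k _ => H.thin_line q p hv hq _
  refine Thin.mono ((h1.union h2).union hlines) ?_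
  rintro P ⟨hP1, hP2, hP3⟩
  have hx : (0 : ℝ) < P.1 := by exact_mod_cast hP2
  have hu : |(P.2 : ℝ) - θ * P.1| < min E1 E2 * P.1 := by
    have e1 : (P.2 : ℝ) - θ * P.1 = ((P.2 : ℝ) / P.1 - θ) * P.1 := by field_simp
    rw [e1, abs_mul, abs_of_pos hx]
    exact mul_lt_mul_of_pos_right hP3 hx
  rw [abs_lt] at hu
  have hm1 : min E1 E2 * P.1 ≤ E1 * P.1 := by
    gcongr
    exact min_le_left _ _
  have hm2 : min E1 E2 * P.1 ≤ E2 * P.1 := by
    gcongr
    exact min_le_right _ _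
  by_cases c1 : U1 ≤ (P.2 : ℝ) - θ * P.1
  · left; left
    refine ⟨hP1, hP2, ?_, ?_⟩
    · rw [one_mul]
      exact c1
    · rw [one_mul]
      change (P.2 : ℝ) - θ * P.1 ≤ _
      linarith [hu.2]
  by_cases c2 : U2 ≤ -((P.2 : ℝ) - θ * P.1)
  · left; right
    refine ⟨hP1, hP2, ?_, ?_⟩
    · change U2 ≤ -1 * ((P.2 : ℝ) - θ * P.1)
      linarith
    · change -1 * ((P.2 : ℝ) - θ * P.1) ≤ _
      linarith [hu.1]
  right
  push Not at c1 c2
  set k : ℤ := (q : ℤ) * P.2 - p * P.1 with hk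
  have hkq : (P.2 : ℝ) - θ * P.1 = (k : ℝ) / q := by
    rw [hk, hθ]
    push_cast
    field_simp
  have hkK : k ∈ Finset.Icc (-(K : ℤ)) K := by
    rw [Finset.mem_Icc]
    rw [hkq, div_lt_iff₀ hq'] at c1
    rw [hkq, ← neg_div, div_lt_iff₀ hq'] at c2
    have h3 : (k : ℝ) ≤ K := by
      have := le_max_left U1 U2
      nlinarith
    have h4 : (-(k : ℝ)) ≤ K := by
      have := le_max_right U1 U2
      nlinarith
    constructor
    · have : (-(K : ℤ) : ℝ) ≤ k := by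
        push_cast
        linarith
      exact_mod_cast this
    · exact_mod_cast h3
  simp only [Set.mem_iUnion]
  exact ⟨k, hkK, hP1, hP2, hkq⟩

/-- **Assembly.**  If every direction in which the leading form vanishes is thin, there is no
packing polynomial. -/
theorem Pk.false_of_local (H : Pk α d h) (hd : 3 ≤ d)
    (hloc : ∀ θ ∈ Set.Icc 0 α, (h d).eval θ = 0 →
      ∃ ε : ℝ, 0 < ε ∧ Thin (fv d h) (Near α θ ε)) : False := by
  have hall : ∀ θ ∈ Set.Icc 0 α, ∃ ε : ℝ, 0 < ε ∧ Thin (fv d h) (Near α θ ε) := by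
    intro θ hθ
    by_cases h0 : (h d).eval θ = 0
    · exact hloc θ hθ h0
    · exact H.near_nonroot hd θ (lt_of_le_of_ne (H.lead_nonneg (by omega) θ hθ) (Ne.symm h0))
  have hthin : Thin (fv d h)
      {P | P ∈ Sec α ∧ 0 < P.1 ∧ (P.2 : ℝ) / P.1 ∈ Set.Icc 0 α} := by
    refine IsCompact.induction_on (isCompact_Icc (a := (0 : ℝ)) (b := α))
      (p := fun U => Thin (fv d h) {P | P ∈ Sec α ∧ 0 < P.1 ∧ (P.2 : ℝ) / P.1 ∈ U}) ?_ ?_ ?_ ?_
    · apply (thin_empty _).mono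
      rintro P ⟨_, _, hP⟩
      exact hP.elim
    · intro s t hst ht
      apply ht.mono
      rintro P ⟨h1, h2, h3⟩
      exact ⟨h1, h2, hst h3⟩
    · intro s t hs ht
      apply (hs.union ht).mono
      rintro P ⟨h1, h2, h3⟩
      rcases h3 with h3 | h3
      · exact Or.inl ⟨h1, h2, h3⟩
      · exact Or.inr ⟨h1, h2, h3⟩
    · intro θ hθ
      obtain ⟨ε, hε, hthin⟩ := hall θ hθ
      refine ⟨Metric.ball θ ε, mem_nhdsWithin_of_mem_nhds (Metric.ball_mem_nhds θ hε), ?_⟩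
      apply hthin.mono
      rintro P ⟨h1, h2, h3⟩
      refine ⟨h1, h2, ?_⟩
      rw [Metric.mem_ball, Real.dist_eq] at h3
      exact h3
  have h0 : Thin (fv d h) {((0 : ℕ), (0 : ℕ))} := thin_finite (Set.finite_singleton _)
  refine not_thin_of_surj (f := fv d h) (A := Sec α) (fun n => H.surj n) ?_
  refine Thin.mono (hthin.union h0) ?_
  intro P hP
  have hP' : (P.2 : ℝ) ≤ α * P.1 := hP
  rcases Nat.eq_zero_or_pos P.1 with h1 | h1
  · right
    rw [h1] at hP'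
    have : (P.2 : ℝ) ≤ 0 := by simpa using hP'
    have h2 : P.2 = 0 := by
      have : P.2 ≤ 0 := by exact_mod_cast this
      omega
    exact Prod.ext h1 h2
  · left
    have hx : (0 : ℝ) < P.1 := by exact_mod_cast h1
    refine ⟨hP, h1, by positivity, ?_⟩
    rw [div_le_iff₀ hx]
    exact hP'

end PP72
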