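import Pool.Agent.PP72.Quartic

/-!
No packing polynomial is affine along a parabola of lattice points.
-/

open Polynomial Finset Filter

namespace PP72

variable {α : ℝ} {d : ℕ} {h : ℕ → ℝ[X]}

theorem Pk.no_parabola (H : Pk α d h) (q p : ℕ) (hq : 0 < q) (hv : (q, p) ∈ Sec α)
    (τ : ℤ) (hτ : τ = 1 ∨ (τ = -1 ∧ 0 < p)) (ρ w : ℚ) (hρ : 0 < ρ) (A B : ℝ)
    (hval : ∀ x y : ℕ, (x : ℝ) = ρ * ((y : ℝ) - (p / q : ℝ) * x) ^ 2 -
      w * ((y : ℝ) - (p / q : ℝ) * x) →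
      ev d h x y = A * ((y : ℝ) - (p / q : ℝ) * x) + B) : False := by
  have hq' : (0 : ℝ) < q := by exact_mod_cast hq
  -- `p < α q`
  have hlt : (0 : ℝ) < α * q - p := by
    have h1 : (p : ℝ) ≤ α * q := hv
    rcases h1.lt_or_eq with h2 | h2
    · linarith
    · exfalso
      apply H.irr
      refine ⟨(p : ℚ) / q, ?_⟩
      push_cast
      rw [h2]
      field_simp
  set s : ℕ := q * ρ.den * w.den with hs
  have hspos : 0 < s := by
    have := ρ.den_pos
    have := w.den_pos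
    positivity
  set k2 : ℤ := ρ.num * q * ρ.den * w.den ^ 2 with hk2
  set k1 : ℤ := w.num * ρ.den with hk1
  have hk2pos : 0 < k2 := by
    have h1 := ρ.den_pos
    have h2 := w.den_pos
    have h3 := Rat.num_pos.2 hρ
    positivity
  have hρs : (ρ : ℝ) * (s : ℝ) ^ 2 = q * k2 := by
    have h1 : (ρ : ℚ) * (s : ℚ) ^ 2 = q * k2 := by
      rw [hs, hk2]
      push_cast
      have := Rat.mul_den_eq_num ρ
      rw [← this]
      ring
    exact_mod_cast h1
  have hws : (w : ℝ) * (s : ℝ) = q * k1 := by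
    have h1 : (w : ℚ) * (s : ℚ) = q * k1 := by
      rw [hs, hk1]
      push_cast
      have := Rat.mul_den_eq_num w
      rw [← this]
      ring
    exact_mod_cast h1
  have hτ2 : (τ : ℝ) ^ 2 = 1 := by
    rcases hτ with h1 | ⟨h1, _⟩ <;> rw [h1] <;> norm_num
  have hτabs : (τ : ℝ) ≤ 1 ∧ (-1 : ℝ) ≤ τ := by
    rcases hτ with h1 | ⟨h1, _⟩ <;> rw [h1] <;> norm_num
  set j : ℕ → ℤ := fun m => k2 * m ^ 2 - τ * k1 * m with hj
  set c : ℝ := min (α * q - p) 1 with hc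
  have hc0 : 0 < c := by positivity
  have hc1 : c ≤ 1 := min_le_right _ _
  obtain ⟨m1, hm1⟩ := exists_nat_ge (|(k1 : ℝ)| + s / c)
  have hjb : ∀ m : ℕ, m1 ≤ m → (s : ℝ) * m ≤ c * j m := by
    intro m hm
    have h1 : |(k1 : ℝ)| + s / c ≤ m := le_trans hm1 (by exact_mod_cast hm)
    have h2 : (1 : ℝ) ≤ k2 := by exact_mod_cast hk2pos
    have h3 : (0 : ℝ) ≤ m := Nat.cast_nonneg _
    have h4 : (τ : ℝ) * k1 ≤ |(k1 : ℝ)| := by
      calc (τ : ℝ) * k1 ≤ |(τ : ℝ) * k1| := le_abs_self _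
        _ = |(τ : ℝ)| * |(k1 : ℝ)| := abs_mul _ _
        _ ≤ 1 * |(k1 : ℝ)| := by
            gcongr
            rw [abs_le]
            exact ⟨by linarith [hτabs.2], hτabs.1⟩
        _ = |(k1 : ℝ)| := one_mul _
    have h5 : ((j m : ℤ) : ℝ) = (k2 * m - τ * k1) * m := by
      simp only [hj]
      push_cast
      ring
    have h6 : (s : ℝ) / c ≤ k2 * m - τ * k1 := by nlinarith
    rw [h5]
    rw [div_le_iff₀ hc0] at h6
    nlinarith
  have hj0 : ∀ m : ℕ, m1 ≤ m → (s : ℝ) * m ≤ j m := by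
    intro m hm
    have h1 := hjb m hm
    have h2 : (0 : ℝ) ≤ s * m := by positivity
    have h3 : (0 : ℝ) ≤ j m := by
      by_contra hneg
      push Not at hneg
      nlinarith
    nlinarith
  set X : ℕ → ℤ := fun m => q * j (m + m1) with hX
  set Y : ℕ → ℤ := fun m => p * j (m + m1) + τ * s * (m + m1 : ℕ) with hY
  have hX0 : ∀ m, 0 ≤ X m := by
    intro m
    have h1 := hj0 (m + m1) (by omega)
    have h2 : (0 : ℝ) ≤ j (m + m1) := le_trans (by positivity) h1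
    have h3 : 0 ≤ j (m + m1) := by exact_mod_cast h2
    simp only [hX]
    positivity
  have hY0 : ∀ m, 0 ≤ Y m := by
    intro m
    have h1 := hj0 (m + m1) (by omega)
    have h2 : (0 : ℝ) ≤ j (m + m1) := le_trans (by positivity) h1
    have h3 : 0 ≤ j (m + m1) := by exact_mod_cast h2
    simp only [hY]
    rcases hτ with h4 | ⟨h4, h5⟩
    · rw [h4]
      positivity
    · rw [h4]
      have h6 : ((s * (m + m1 : ℕ) : ℕ) : ℤ) ≤ j (m + m1) := by
        have : (((s * (m + m1 : ℕ) : ℕ) : ℤ) : ℝ) ≤ ((j (m + m1) : ℤ) : ℝ) := by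
          push_cast at h1 ⊢
          exact h1
        exact_mod_cast this
      have h7 : j (m + m1) ≤ p * j (m + m1) := by
        have : (1 : ℤ) ≤ p := by exact_mod_cast h5
        nlinarith
      push_cast at h6 ⊢
      linarith
  set pt : ℕ → ℕ × ℕ := fun m => ((X m).toNat, (Y m).toNat) with hpt
  have hp1 : ∀ m, (((pt m).1 : ℕ) : ℝ) = q * j (m + m1) := by
    intro m
    have h1 : (((pt m).1 : ℕ) : ℤ) = X m := Int.toNat_of_nonneg (hX0 m)
    have h2 : ((((pt m).1 : ℕ) : ℤ) : ℝ) = ((X m : ℤ) : ℝ) := by rw [h1]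
    simp only [hX] at h2
    push_cast at h2
    exact h2
  have hp2 : ∀ m, (((pt m).2 : ℕ) : ℝ) = p * j (m + m1) + τ * s * ((m + m1 : ℕ) : ℝ) := by
    intro m
    have h1 : (((pt m).2 : ℕ) : ℤ) = Y m := Int.toNat_of_nonneg (hY0 m)
    have h2 : ((((pt m).2 : ℕ) : ℤ) : ℝ) = ((Y m : ℤ) : ℝ) := by rw [h1]
    simp only [hY] at h2
    push_cast at h2 ⊢
    exact h2
  have hu : ∀ m, (((pt m).2 : ℕ) : ℝ) - (p / q : ℝ) * (((pt m).1 : ℕ) : ℝ) =
      τ * s * ((m + m1 : ℕ) : ℝ) := by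
    intro m
    rw [hp1, hp2]
    field_simp
    ring
  have hcurve : ∀ m, (((pt m).1 : ℕ) : ℝ) =
      ρ * ((((pt m).2 : ℕ) : ℝ) - (p / q : ℝ) * (((pt m).1 : ℕ) : ℝ)) ^ 2 -
      w * ((((pt m).2 : ℕ) : ℝ) - (p / q : ℝ) * (((pt m).1 : ℕ) : ℝ)) := by
    intro m
    rw [hu, hp1]
    have e1 : (ρ : ℝ) * (τ * s * ((m + m1 : ℕ) : ℝ)) ^ 2 - w * (τ * s * ((m + m1 : ℕ) : ℝ)) =
        (ρ * (s : ℝ) ^ 2) * (τ : ℝ) ^ 2 * ((m + m1 : ℕ) : ℝ) ^ 2 -
          (w * (s : ℝ)) * τ * ((m + m1 : ℕ) : ℝ) := by ring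
    rw [e1, hρs, hws, hτ2]
    simp only [hj]
    push_cast
    ring
  have hsec : ∀ m, pt m ∈ Sec α := by
    intro m
    change (((pt m).2 : ℕ) : ℝ) ≤ α * (((pt m).1 : ℕ) : ℝ)
    rw [hp1, hp2]
    have h1 := hjb (m + m1) (by omega)
    have h2 := hj0 (m + m1) (by omega)
    have h3 : (0 : ℝ) ≤ j (m + m1) := le_trans (by positivity) h2
    have h4 : c * (j (m + m1) : ℝ) ≤ (α * q - p) * j (m + m1) := by
      gcongr
      exact min_le_left _ _
    have h5 : (τ : ℝ) * s * ((m + m1 : ℕ) : ℝ) ≤ s * ((m + m1 : ℕ) : ℝ) := by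
      have h6 : (0 : ℝ) ≤ s * ((m + m1 : ℕ) : ℝ) := by positivity
      nlinarith [hτabs.1]
    linarith
  have hsne : (s : ℝ) ≠ 0 := by exact_mod_cast hspos.ne'
  have hτne : (τ : ℝ) ≠ 0 := by
    intro h0
    rw [h0] at hτ2
    norm_num at hτ2
  apply H.no_progression pt hsec (by
    intro h01
    have h1 := hu 0
    have h2 := hu 1
    rw [← h01, h1] at h2
    have h3 := mul_left_cancel₀ (mul_ne_zero hτne hsne) h2
    have h4 : (0 + m1 : ℕ) = 1 + m1 := by exact_mod_cast h3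
    omega) (A * (τ * s)) (A * (τ * s) * m1 + B) (by
    intro m
    rw [hval _ _ (hcurve m), hu]
    push_cast
    ring) (q, p) hv (by
    intro h0
    have := congrArg Prod.fst h0
    simp at this
    omega)
  intro M hM K
  refine ⟨K + 1, by omega, ?_⟩
  rintro ⟨m, hm⟩
  have e1 := congrArg Prod.fst hm
  have e2 := congrArg Prod.snd hm
  simp only at e1 e2
  have h1 := hu m
  have h0 := hu 0
  rw [e1, e2] at h1
  push_cast at h1 h0
  have h2 : ((pt 0).2 : ℝ) + M * ((K + 1) * p) - p / q * ((pt 0).1 + M * ((K + 1) * q)) =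
      (pt 0).2 - (p / q : ℝ) * (pt 0).1 := by
    field_simp
    ring
  rw [h2, h0] at h1
  have h3 := mul_left_cancel₀ (mul_ne_zero hτne hsne) h1
  have h4 : (m : ℝ) = 0 := by linarith
  have h5 : m = 0 := by exact_mod_cast h4
  subst h5
  have h6 : 0 < M * ((K + 1) * q) := by positivity
  omega

end PP72
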