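import Pool.Agent.PP72.Irr

/-!
The function `V₁ = y² + β x y + δ x² + k₀ x + k₁ y` near a quadratic irrational direction.
-/

open Polynomial Finset Filter

namespace PP72

/-- `V₁` -/
noncomputable def V1f (β δ0 k0 k1 x y : ℝ) : ℝ := y ^ 2 + β * x * y + δ0 * x ^ 2 + (k0 * x + k1 * y)

theorem V1f_eq {θ β δ0 k0 k1 u0 : ℝ} (hq : θ ^ 2 + β * θ + δ0 = 0)
    (hu0 : (2 * θ + β) * u0 = -(k0 + k1 * θ)) (x u : ℝ) :
    V1f β δ0 k0 k1 x (θ * x + u) = (2 * θ + β) * (x * (u - u0)) + (u ^ 2 + k1 * u) := by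
  unfold V1f
  have e1 : (θ * x + u) ^ 2 + β * x * (θ * x + u) + δ0 * x ^ 2 =
      (θ ^ 2 + β * θ + δ0) * x ^ 2 + (2 * θ + β) * (x * u) + u ^ 2 := by ring
  rw [e1, hq]
  have e2 : (2 * θ + β) * (x * (u - u0)) = (2 * θ + β) * (x * u) - x * ((2 * θ + β) * u0) := by ring
  rw [e2, hu0]
  ring

theorem sq_le_two {a b : ℝ} : a ^ 2 ≤ 2 * (a + b) ^ 2 + 2 * b ^ 2 := by
  nlinarith [sq_nonneg (a + 2 * b)]

/-- `f + K ≥ δ (V₁² + x)` implies thinness near the direction -/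
theorem thin_V1 {f : ℕ × ℕ → ℝ} {θ : ℝ} (hθ : Irrational θ) {β δ0 k0 k1 : ℝ}
    (hq : θ ^ 2 + β * θ + δ0 = 0) (hD : 2 * θ + β ≠ 0) :
    ∃ ε : ℝ, 0 < ε ∧ ∀ A : Set (ℕ × ℕ), (∀ P ∈ A, 0 < P.1 ∧ |(P.2 : ℝ) - θ * P.1| ≤ ε * P.1) →
      ∀ δ K : ℝ, 0 < δ → (∀ P ∈ A, δ * (V1f β δ0 k0 k1 P.1 P.2 ^ 2 + P.1) ≤ f P + K) →
      Thin f A := by
  set D := 2 * θ + β with hDdef
  set u0 := -(k0 + k1 * θ) / D with hu0
  have hu0D : D * u0 = -(k0 + k1 * θ) := by rw [hu0]; field_simp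
  have hDabs : 0 < |D| := abs_pos.2 hD
  set c0 := |u0| + 1 with hc0
  have hc01 : 1 ≤ c0 := by
    have := abs_nonneg u0
    linarith
  set ε := min 1 (|D| / (4 * c0)) with hε
  have hε0 : 0 < ε := by positivity
  refine ⟨ε, hε0, fun A hA δ K hδ hf => ?_⟩
  obtain ⟨X1, hX1⟩ := exists_nat_ge (4 * |k1| * c0 / |D| + 1)
  -- three parts
  have hsplit : A ⊆ ({P | P ∈ A ∧ P.1 ≤ X1} ∪ {P | P ∈ A ∧ |(P.2 : ℝ) - θ * P.1 - u0| ≤ 1}) ∪
      {P | P ∈ A ∧ X1 < P.1 ∧ 1 < |(P.2 : ℝ) - θ * P.1 - u0|} := by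
    intro P hP
    by_cases h1 : P.1 ≤ X1
    · exact Or.inl (Or.inl ⟨hP, h1⟩)
    · by_cases h2 : |(P.2 : ℝ) - θ * P.1 - u0| ≤ 1
      · exact Or.inl (Or.inr ⟨hP, h2⟩)
      · exact Or.inr ⟨hP, not_le.1 h1, not_le.1 h2⟩
  refine Thin.mono (Thin.union (Thin.union ?_ ?_) ?_) hsplit
  · apply thin_finite
    obtain ⟨Y, hY⟩ := exists_nat_ge ((|θ| + 1) * X1)
    apply Set.Finite.subset (Set.finite_Iic (X1, Y))
    rintro P ⟨hP1, hP2⟩
    refine Prod.mk_le_mk.2 ⟨hP2, ?_⟩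
    have h1 : (P.1 : ℝ) ≤ X1 := by exact_mod_cast hP2
    have h2 := (abs_le.1 (hA P hP1).2).2
    have h3 : ε ≤ 1 := min_le_left _ _
    have h4 : (0 : ℝ) ≤ P.1 := Nat.cast_nonneg _
    have h5 : (P.2 : ℝ) ≤ Y := by
      have h6 : θ * P.1 ≤ |θ| * P.1 := by
        gcongr
        exact le_abs_self _
      have h7 : (|θ| + 1) * (P.1 : ℝ) ≤ (|θ| + 1) * X1 := by gcongr
      have h8 := mul_le_mul_of_nonneg_right h3 h4
      linarith
    exact_mod_cast h5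
  · -- close to the branch
    set K1 := c0 ^ 2 + |k1| * c0 with hK1
    have hK10 : 0 ≤ K1 := by positivity
    apply thin_irr hθ u0 (min δ (δ * (D ^ 2 / 2))) (K + δ * K1 ^ 2) (by positivity)
    · rintro P ⟨_, hP2⟩
      exact hP2
    · rintro P ⟨hP1, hP2⟩
      have h1 := hf P hP1
      have h2 : min δ (δ * (D ^ 2 / 2)) * (P.1 : ℝ) ≤ δ * P.1 := by
        gcongr
        exact min_le_left _ _
      have h3 : 0 ≤ δ * V1f β δ0 k0 k1 P.1 P.2 ^ 2 := by positivity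
      have h4 : 0 ≤ δ * K1 ^ 2 := by positivity
      linarith
    · rintro P ⟨hP1, hP2⟩
      have h1 := hf P hP1
      set u := (P.2 : ℝ) - θ * P.1 with hu
      have e1 : (P.2 : ℝ) = θ * P.1 + u := by rw [hu]; ring
      rw [e1, V1f_eq hq hu0D] at h1
      have hub : |u| ≤ c0 := by
        have : u = (u - u0) + u0 := by ring
        calc |u| = |(u - u0) + u0| := by rw [← this]
          _ ≤ |u - u0| + |u0| := abs_add_le _ _
          _ ≤ c0 := by rw [hc0]; linarith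
      have herr : |u ^ 2 + k1 * u| ≤ K1 := by
        calc |u ^ 2 + k1 * u| ≤ |u ^ 2| + |k1 * u| := abs_add_le _ _
          _ = |u| ^ 2 + |k1| * |u| := by rw [abs_pow, abs_mul]
          _ ≤ K1 := by
              rw [hK1]
              gcongr
      set a := D * ((P.1 : ℝ) * (u - u0)) with ha
      set b := u ^ 2 + k1 * u with hb
      have h5 : a ^ 2 ≤ 2 * (a + b) ^ 2 + 2 * b ^ 2 := sq_le_two (a := a) (b := b)
      have h6 : b ^ 2 ≤ K1 ^ 2 := by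
        rw [← sq_abs b]
        gcongr
      have h7 : min δ (δ * (D ^ 2 / 2)) * ((P.1 : ℝ) ^ 2 * (u - u0) ^ 2) ≤ δ * (a ^ 2 / 2) := by
        have e2 : a ^ 2 = D ^ 2 * ((P.1 : ℝ) ^ 2 * (u - u0) ^ 2) := by rw [ha]; ring
        rw [e2]
        calc min δ (δ * (D ^ 2 / 2)) * ((P.1 : ℝ) ^ 2 * (u - u0) ^ 2)
            ≤ (δ * (D ^ 2 / 2)) * ((P.1 : ℝ) ^ 2 * (u - u0) ^ 2) := by
              gcongr
              exact min_le_right _ _
          _ = _ := by ring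
      have h8 : (0 : ℝ) ≤ δ * P.1 := by positivity
      have h9 := mul_le_mul_of_nonneg_left h5 hδ.le
      have h10 := mul_le_mul_of_nonneg_left h6 hδ.le
      clear_value a b
      linarith
  · -- away from the branch
    set cc := D ^ 2 / 4 with hcc
    have hcc0 : 0 < cc := by positivity
    apply thin_of_bound_K θ (min (δ * cc) (δ * cc / c0 ^ 2) / 2) K (by positivity)
    rintro P ⟨hP1, hP2, hP3⟩
    have h1 := hf P hP1
    obtain ⟨hx0, hux⟩ := hA P hP1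
    set u := (P.2 : ℝ) - θ * P.1 with hu
    have e1 : (P.2 : ℝ) = θ * P.1 + u := by rw [hu]; ring
    rw [e1, V1f_eq hq hu0D] at h1
    have hx1 : (1 : ℝ) ≤ P.1 := by exact_mod_cast hx0
    have hxX : (X1 : ℝ) ≤ P.1 := by exact_mod_cast hP2.le
    set w := |u - u0| with hw
    have hw1 : 1 < w := hP3
    have huw : |u| ≤ c0 * w := by
      have : u = (u - u0) + u0 := by ring
      calc |u| = |(u - u0) + u0| := by rw [← this]
        _ ≤ |u - u0| + |u0| := abs_add_le _ _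
        _ ≤ c0 * w := by
          rw [hc0]
          have := mul_le_mul_of_nonneg_left hw1.le (abs_nonneg u0)
          linarith
    -- the error term
    have herr : |u ^ 2 + k1 * u| ≤ |D| / 2 * (P.1 * w) := by
      have s1 : |u ^ 2 + k1 * u| ≤ (|u| + |k1|) * |u| := by
        calc |u ^ 2 + k1 * u| ≤ |u ^ 2| + |k1 * u| := abs_add_le _ _
          _ = (|u| + |k1|) * |u| := by rw [abs_pow, abs_mul]; ring
      have s2 : |u| ≤ |D| / (4 * c0) * P.1 := by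
        refine hux.trans ?_
        gcongr
        exact min_le_right _ _
      have s3 : |k1| ≤ |D| / (4 * c0) * P.1 := by
        have : 4 * |k1| * c0 / |D| ≤ P.1 := by linarith
        rw [div_le_iff₀ hDabs] at this
        rw [div_mul_eq_mul_div, le_div_iff₀ (by positivity)]
        linarith
      calc |u ^ 2 + k1 * u| ≤ (|u| + |k1|) * |u| := s1
        _ ≤ (|D| / (4 * c0) * P.1 + |D| / (4 * c0) * P.1) * (c0 * w) := by gcongr
        _ = |D| / 2 * (P.1 * w) := by field_simp; ring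
    have habs : |D| / 2 * (P.1 * w) ≤ |D * ((P.1 : ℝ) * (u - u0)) + (u ^ 2 + k1 * u)| := by
      have s1 : |D * ((P.1 : ℝ) * (u - u0))| = |D| * (P.1 * w) := by
        rw [abs_mul, abs_mul, abs_of_nonneg (Nat.cast_nonneg P.1 : (0 : ℝ) ≤ (P.1 : ℝ))]
      have s2 : |D * ((P.1 : ℝ) * (u - u0))| ≤
          |D * ((P.1 : ℝ) * (u - u0)) + (u ^ 2 + k1 * u)| + |u ^ 2 + k1 * u| := by
        have := abs_add_le (D * ((P.1 : ℝ) * (u - u0)) + (u ^ 2 + k1 * u)) (-(u ^ 2 + k1 * u))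
        rw [abs_neg, add_neg_cancel_right] at this
        exact this
      rw [s1] at s2
      linarith
    have hsq : cc * ((P.1 : ℝ) ^ 2 * w ^ 2) ≤
        (D * ((P.1 : ℝ) * (u - u0)) + (u ^ 2 + k1 * u)) ^ 2 := by
      have s1 : (|D| / 2 * (P.1 * w)) ^ 2 ≤
          |D * ((P.1 : ℝ) * (u - u0)) + (u ^ 2 + k1 * u)| ^ 2 := by
        gcongr
      rw [sq_abs] at s1
      have s2 : (|D| / 2 * (P.1 * w)) ^ 2 = cc * ((P.1 : ℝ) ^ 2 * w ^ 2) := by
        rw [hcc, ← sq_abs D]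
        ring
      linarith
    have hxsq : (P.1 : ℝ) ^ 2 ≤ (P.1 : ℝ) ^ 2 * w ^ 2 := by
      have : 1 ≤ w ^ 2 := one_le_pow₀ hw1.le
      exact le_mul_of_one_le_right (sq_nonneg _) this
    have hε1 : ε ≤ 1 := min_le_left _ _
    have hu3 : |u| ^ 3 ≤ c0 ^ 2 * ((P.1 : ℝ) ^ 2 * w ^ 2) := by
      have s1 : |u| ≤ P.1 := by
        have := mul_le_mul_of_nonneg_right hε1 (Nat.cast_nonneg P.1 : (0 : ℝ) ≤ (P.1 : ℝ))
        linarith
      have s2 : |u| ^ 2 ≤ (c0 * w) ^ 2 := by gcongr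
      calc |u| ^ 3 = |u| * |u| ^ 2 := by ring
        _ ≤ P.1 * (c0 * w) ^ 2 := by gcongr
        _ = (c0 ^ 2 * w ^ 2) * P.1 := by ring
        _ ≤ (c0 ^ 2 * w ^ 2) * (P.1 : ℝ) ^ 2 := by
            gcongr
            exact le_self_pow₀ hx1 two_ne_zero
        _ = _ := by ring
    have m1 : min (δ * cc) (δ * cc / c0 ^ 2) * (P.1 : ℝ) ^ 2 ≤ δ * cc * ((P.1 : ℝ) ^ 2 * w ^ 2) := by
      calc min (δ * cc) (δ * cc / c0 ^ 2) * (P.1 : ℝ) ^ 2 ≤ (δ * cc) * (P.1 : ℝ) ^ 2 := by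
            gcongr
            exact min_le_left _ _
        _ ≤ _ := by gcongr
    have m2 : min (δ * cc) (δ * cc / c0 ^ 2) * |u| ^ 3 ≤ δ * cc * ((P.1 : ℝ) ^ 2 * w ^ 2) := by
      calc min (δ * cc) (δ * cc / c0 ^ 2) * |u| ^ 3
          ≤ (δ * cc / c0 ^ 2) * (c0 ^ 2 * ((P.1 : ℝ) ^ 2 * w ^ 2)) := by
            gcongr
            exact min_le_right _ _
        _ = _ := by field_simp
    have m3 : δ * (cc * ((P.1 : ℝ) ^ 2 * w ^ 2)) ≤
        δ * (D * ((P.1 : ℝ) * (u - u0)) + (u ^ 2 + k1 * u)) ^ 2 := by gcongr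
    have m4 : (0 : ℝ) ≤ δ * P.1 := by positivity
    change min (δ * cc) (δ * cc / c0 ^ 2) / 2 * ((P.1 : ℝ) ^ 2 + |u| ^ 3) ≤ f P + K
    generalize (D * ((P.1 : ℝ) * (u - u0)) + (u ^ 2 + k1 * u)) ^ 2 = Z at h1 m3
    linarith

end PP72
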