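import Pool.Agent.PP72.Conic
import Pool.Agent.PP72.VOne
import Pool.Agent.PP72.Vform
import Pool.Agent.PP72.Aux4
import Pool.Agent.PP72.Norm

/-!
The field `ℚ(θ)` for a quadratic irrational `θ`, and lattice points near a line of slope `θ`.
-/

open Polynomial Finset Filter

namespace PP72

variable {α : ℝ} {d : ℕ} {h : ℕ → ℝ[X]}

/-- `x = a + b θ` with rational `a`, `b` -/
def QT (θ x : ℝ) : Prop := ∃ a b : ℚ, x = a + b * θ

theorem QT.rat (θ : ℝ) (r : ℚ) : QT θ r := ⟨r, 0, by simp⟩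

theorem QT.self (θ : ℝ) : QT θ θ := ⟨0, 1, by simp⟩

theorem QT.add {θ x y : ℝ} (hx : QT θ x) (hy : QT θ y) : QT θ (x + y) := by
  obtain ⟨a, b, rfl⟩ := hx
  obtain ⟨c, e, rfl⟩ := hy
  exact ⟨a + c, b + e, by push_cast; ring⟩

theorem QT.neg {θ x : ℝ} (hx : QT θ x) : QT θ (-x) := by
  obtain ⟨a, b, rfl⟩ := hx
  exact ⟨-a, -b, by push_cast; ring⟩

theorem QT.mul {θ x y : ℝ} {β δ0 : ℚ} (hq : θ ^ 2 + β * θ + δ0 = 0) (hx : QT θ x) (hy : QT θ y) :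
    QT θ (x * y) := by
  obtain ⟨a, b, rfl⟩ := hx
  obtain ⟨c, e, rfl⟩ := hy
  refine ⟨a * c - b * e * δ0, a * e + b * c - b * e * β, ?_⟩
  push_cast
  linear_combination (b * e : ℝ) * hq

theorem QT.pow {θ x : ℝ} {β δ0 : ℚ} (hq : θ ^ 2 + β * θ + δ0 = 0) (hx : QT θ x) (n : ℕ) :
    QT θ (x ^ n) := by
  induction n with
  | zero => simpa using QT.rat θ 1
  | succ n ih => rw [pow_succ]; exact ih.mul hq hx

theorem QT.sum {θ : ℝ} (s : Finset ℕ) (f : ℕ → ℝ) (hf : ∀ i ∈ s, QT θ (f i)) :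
    QT θ (∑ i ∈ s, f i) := by
  classical
  induction s using Finset.induction_on with
  | empty => simpa using QT.rat θ 0
  | insert a s ha ih =>
    rw [Finset.sum_insert ha]
    exact (hf a (Finset.mem_insert_self _ _)).add
      (ih fun i hi => hf i (Finset.mem_insert_of_mem hi))

theorem QT.inv {θ x : ℝ} {β δ0 : ℚ} (hθ : Irrational θ) (hq : θ ^ 2 + β * θ + δ0 = 0)
    (hx : QT θ x) : QT θ x⁻¹ := by
  obtain ⟨a, b, rfl⟩ := hx
  by_cases h0 : (a : ℝ) + b * θ = 0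
  · rw [h0, inv_zero]
    simpa using QT.rat θ 0
  -- the norm
  set N : ℚ := a ^ 2 - β * a * b + δ0 * b ^ 2 with hN
  have hprod : ((a : ℝ) + b * θ) * ((a - b * β : ℚ) + ((-b : ℚ) : ℝ) * θ) = N := by
    rw [hN]
    push_cast
    linear_combination (-(b : ℝ) ^ 2) * hq
  have hN0 : N ≠ 0 := by
    intro hN0
    rw [hN0, Rat.cast_zero] at hprod
    rcases mul_eq_zero.1 hprod with h1 | h1
    · exact h0 h1
    · obtain ⟨h2, h3⟩ := lin1 hθ (a - b * β) (-b) h1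
      have hb : b = 0 := by linarith
      have ha : a = 0 := by
        rw [hb] at h2
        linarith
      apply h0
      rw [ha, hb]
      simp
  have hNR : (N : ℝ) ≠ 0 := by exact_mod_cast hN0
  refine ⟨(a - b * β) / N, -b / N, ?_⟩
  rw [inv_eq_iff_eq_inv, eq_comm, inv_eq_iff_eq_inv, ← one_div, eq_div_iff h0]
  push_cast at hprod ⊢
  field_simp
  linarith

theorem QT.div {θ x y : ℝ} {β δ0 : ℚ} (hθ : Irrational θ) (hq : θ ^ 2 + β * θ + δ0 = 0)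
    (hx : QT θ x) (hy : QT θ y) : QT θ (x / y) := by
  rw [div_eq_mul_inv]
  exact hx.mul hq (hy.inv hθ hq)

/-- the Taylor coefficients at `θ` lie in `ℚ(θ)` -/
theorem Pk.taylor_QT (H : Pk α d h) {θ : ℝ} {β δ0 : ℚ} (hq : θ ^ 2 + β * θ + δ0 = 0) (k : ℕ)
    (hk : k ∈ range (d + 1)) (i : ℕ) : QT θ ((taylor θ (h k)).coeff i) := by
  obtain ⟨P, hP⟩ := H.rational k hk
  rw [taylor_coeff, Polynomial.eval_eq_sum_range]
  apply QT.sum
  intro j _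
  rw [hasseDeriv_coeff, hP, coeff_map]
  apply QT.mul hq _ ((QT.self θ).pow hq j)
  have e1 : (((j + i).choose i : ℕ) : ℝ) * (algebraMap ℚ ℝ) (P.coeff (j + i)) =
      (((((j + i).choose i : ℕ) : ℚ) * P.coeff (j + i) : ℚ) : ℝ) := by
    push_cast
    rfl
  rw [e1]
  exact QT.rat θ _

/-- **Lattice points close to a line of quadratic irrational slope are thin.** -/
theorem Pk.thin_w (H : Pk α d h) {θ : ℝ} (hθ : Irrational θ) {β δ0 : ℚ}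
    (hq : θ ^ 2 + β * θ + δ0 = 0) (u0 : ℝ) (hu0 : QT θ u0) (K0 : ℝ) (hK0 : 0 ≤ K0) :
    Thin (fv d h) {P | P ∈ Sec α ∧ 0 < P.1 ∧ (P.1 : ℝ) * |(P.2 : ℝ) - θ * P.1 - u0| ≤ K0} := by
  set D : ℝ := 2 * θ + β with hD
  have hDne : D ≠ 0 := irr_D_ne hθ β
  have hDQ : QT θ D := ⟨β, 2, by rw [hD]; push_cast; ring⟩
  obtain ⟨l0, l1, hl⟩ := (hDQ.mul hq hu0).neg
  have hu0D : (2 * θ + β) * u0 = -((l0 : ℝ) + l1 * θ) := by
    rw [← hl, neg_neg]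
  obtain ⟨W, hW, hWr⟩ := exists_common_den {β, δ0, l0, l1}
  obtain ⟨z1, hz1⟩ := hWr β (by simp)
  obtain ⟨z2, hz2⟩ := hWr δ0 (by simp)
  obtain ⟨z3, hz3⟩ := hWr l0 (by simp)
  obtain ⟨z4, hz4⟩ := hWr l1 (by simp)
  have hWpos : (0 : ℝ) < W := by exact_mod_cast hW
  set c0 : ℝ := K0 + |u0| with hc0
  have hc00 : 0 ≤ c0 := by positivity
  set B : ℝ := |D| * K0 + (c0 ^ 2 + |(l1 : ℝ)| * c0) with hB
  obtain ⟨M, hM⟩ := exists_nat_ge ((W : ℝ) * B)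
  set c' : ℝ := l1 + u0 with hc'
  have hunion : Thin (fv d h) (⋃ z ∈ Finset.Icc (-(M : ℤ)) M,
      {P | P ∈ Sec α ∧ 0 < P.1 ∧ (P.1 : ℝ) * |(P.2 : ℝ) - θ * P.1 - u0| ≤ K0 ∧
      ((P.2 : ℝ) - θ * P.1 - u0) * (D * P.1 + ((P.2 : ℝ) - θ * P.1) + c') =
        (z : ℝ) / W - u0 * c'}) :=
    thin_biUnion _ _ fun z _ => H.thin_conic hθ D u0 c' _ K0 hDne hK0
  apply hunion.mono
  rintro P ⟨hP1, hP2, hP3⟩
  have hx1 : (1 : ℝ) ≤ P.1 := by exact_mod_cast hP2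
  set u := (P.2 : ℝ) - θ * P.1 with hu
  have hu1 : |u - u0| ≤ K0 := by
    have := abs_nonneg (u - u0)
    nlinarith
  have hub : |u| ≤ c0 := by
    have : u = (u - u0) + u0 := by ring
    calc |u| = |(u - u0) + u0| := by rw [← this]
      _ ≤ |u - u0| + |u0| := abs_add_le _ _
      _ ≤ c0 := by rw [hc0]; linarith
  -- the integer
  set z : ℤ := W * (P.2 : ℤ) ^ 2 + z1 * P.1 * P.2 + z2 * (P.1 : ℤ) ^ 2 + z3 * P.1 + z4 * P.2 with hz
  have hzV : (z : ℝ) = W * V1f β δ0 l0 l1 P.1 P.2 := by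
    have h1 : (z : ℚ) = W * ((P.2 : ℚ) ^ 2 + β * P.1 * P.2 + δ0 * (P.1 : ℚ) ^ 2 +
        (l0 * P.1 + l1 * P.2)) := by
      rw [hz]
      push_cast
      rw [← hz1, ← hz2, ← hz3, ← hz4]
      ring
    have h2 : ((z : ℚ) : ℝ) = ((W * ((P.2 : ℚ) ^ 2 + β * P.1 * P.2 + δ0 * (P.1 : ℚ) ^ 2 +
        (l0 * P.1 + l1 * P.2)) : ℚ) : ℝ) := by rw [h1]
    push_cast at h2
    rw [h2]
    unfold V1f
    ring
  have e1 : (P.2 : ℝ) = θ * P.1 + u := by rw [hu]; ring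
  have hV : V1f β δ0 l0 l1 P.1 P.2 = D * ((P.1 : ℝ) * (u - u0)) + (u ^ 2 + l1 * u) := by
    rw [e1, V1f_eq hq hu0D]
  have hVb : |V1f β δ0 l0 l1 P.1 P.2| ≤ B := by
    rw [hV, hB]
    refine (abs_add_le _ _).trans (add_le_add ?_ ?_)
    · rw [abs_mul, abs_mul, abs_of_nonneg (Nat.cast_nonneg P.1 : (0 : ℝ) ≤ (P.1 : ℝ))]
      gcongr
    · calc |u ^ 2 + l1 * u| ≤ |u ^ 2| + |l1 * u| := abs_add_le _ _
        _ = |u| ^ 2 + |(l1 : ℝ)| * |u| := by rw [abs_pow, abs_mul]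
        _ ≤ _ := by gcongr
  have hzM : z ∈ Finset.Icc (-(M : ℤ)) M := by
    have h1 : |(z : ℝ)| ≤ M := by
      rw [hzV, abs_mul, abs_of_pos hWpos]
      calc (W : ℝ) * |V1f β δ0 l0 l1 P.1 P.2| ≤ W * B := by gcongr
        _ ≤ M := hM
    rw [Finset.mem_Icc]
    have h2 := abs_le.1 h1
    constructor
    · have : (-(M : ℤ) : ℝ) ≤ z := by
        push_cast
        exact h2.1
      exact_mod_cast this
    · exact_mod_cast h2.2
  simp only [Set.mem_iUnion]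
  refine ⟨z, hzM, hP1, hP2, hP3, ?_⟩
  rw [hzV, hV, hc']
  field_simp
  ring

end PP72
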