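import Pool.Agent.PP72.Near
import Pool.Agent.PP72.Norm

/-!
Real-variable estimates for quartics near a direction in which the leading form has a zero of
order four.
-/

open Polynomial Finset Filter

namespace PP72

/-- the quartic in the coordinates `x` and `u = y - θ x` -/
noncomputable def Q4 (A B C E F1 H1 γ J K L M x u : ℝ) : ℝ :=
  A * x ^ 3 + (B * u + C) * x ^ 2 + (E * u ^ 2 + F1 * u + H1) * x +
    (γ * u ^ 4 + J * u ^ 3 + K * u ^ 2 + L * u + M)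

theorem tail_bound (γ J K L M : ℝ) (hγ : 0 < γ) : ∃ U0 : ℝ, 1 ≤ U0 ∧ ∀ U, U0 ≤ U →
    γ / 2 * U ^ 4 ≤ γ * U ^ 4 + J * U ^ 3 + K * U ^ 2 + L * U + M := by
  refine ⟨max 1 (2 * (|J| + |K| + |L| + |M|) / γ), le_max_left _ _, fun U hU => ?_⟩
  have h1 : 1 ≤ U := (le_max_left _ _).trans hU
  have h2 : 2 * (|J| + |K| + |L| + |M|) / γ ≤ U := (le_max_right _ _).trans hU
  rw [div_le_iff₀ hγ] at h2
  have hU3 : (0 : ℝ) < U ^ 3 := by positivity
  have e1 : -(|J| * U ^ 3) ≤ J * U ^ 3 := by nlinarith [neg_abs_le J]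
  have e2 : -(|K| * U ^ 3) ≤ K * U ^ 2 := by
    have a1 : U ^ 2 ≤ U ^ 3 := pow_le_pow_right₀ h1 (by norm_num)
    have a2 : 0 ≤ |K| := abs_nonneg K
    nlinarith [neg_abs_le K, sq_nonneg U]
  have e3 : -(|L| * U ^ 3) ≤ L * U := by
    have a1 : U ≤ U ^ 3 := by
      calc U = U ^ 1 := (pow_one U).symm
        _ ≤ U ^ 3 := pow_le_pow_right₀ h1 (by norm_num)
    have a2 : 0 ≤ |L| := abs_nonneg L
    nlinarith [neg_abs_le L]
  have e4 : -(|M| * U ^ 3) ≤ M := by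
    have a1 : 1 ≤ U ^ 3 := one_le_pow₀ h1
    have a2 : 0 ≤ |M| := abs_nonneg M
    nlinarith [neg_abs_le M]
  have e5 : (|J| + |K| + |L| + |M|) * U ^ 3 ≤ γ / 2 * U ^ 4 := by
    have : U ^ 4 = U * U ^ 3 := by ring
    rw [this]
    nlinarith
  nlinarith

theorem q4_case_A (A B C E F1 H1 γ J K L M : ℝ) (hγ : 0 < γ) (hA : 0 < A) :
    ∃ ε : ℝ, 0 < ε ∧ ∃ δ : ℝ, 0 < δ ∧ ∃ U0 : ℝ, ∀ x U : ℝ, U0 ≤ U → U ≤ ε * x →
      δ * (x ^ 2 + U ^ 3) ≤ Q4 A B C E F1 H1 γ J K L M x U := by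
  obtain ⟨U0, hU0, htail⟩ := tail_bound γ J K L M hγ
  set S := |B| + |C| + |E| + |F1| + |H1| with hS
  have hS0 : 0 ≤ S := by positivity
  refine ⟨min 1 (A / (2 * (S + 1))), by positivity, min (A / 2) (γ / 2), by positivity, U0, ?_⟩
  intro x U h1 h2
  set ε := min 1 (A / (2 * (S + 1))) with hε
  have hεpos : 0 < ε := by positivity
  have hε1 : ε ≤ 1 := min_le_left _ _
  have hU1 : 1 ≤ U := hU0.trans h1
  have hx0 : 0 < x := by
    by_contra hx
    push Not at hx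
    nlinarith
  have hUx : U ≤ x := by nlinarith
  have hx1 : 1 ≤ x := by linarith
  have h3 := htail U h1
  have hSε : S * ε ≤ A / 2 := by
    have a1 : ε ≤ A / (2 * (S + 1)) := min_le_right _ _
    calc S * ε ≤ (S + 1) * (A / (2 * (S + 1))) := by
          gcongr
          linarith
      _ = A / 2 := by field_simp
  have hεx : 1 ≤ ε * x := by linarith
  -- monomial bounds
  have m1 : U * x ^ 2 ≤ ε * x ^ 3 := by
    calc U * x ^ 2 ≤ (ε * x) * x ^ 2 := by gcongr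
      _ = ε * x ^ 3 := by ring
  have m2 : x ^ 2 ≤ ε * x ^ 3 := by
    calc x ^ 2 = 1 * x ^ 2 := by ring
      _ ≤ (ε * x) * x ^ 2 := by gcongr
      _ = ε * x ^ 3 := by ring
  have m3 : U ^ 2 * x ≤ ε * x ^ 3 := by
    calc U ^ 2 * x = U * (U * x) := by ring
      _ ≤ (ε * x) * (x * x) := by gcongr
      _ = ε * x ^ 3 := by ring
  have m4 : U * x ≤ ε * x ^ 3 := by
    calc U * x ≤ (ε * x) * x := by gcongr
      _ = ε * (x ^ 2) := by ring
      _ ≤ ε * x ^ 3 := by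
        gcongr
        norm_num
  have m5 : x ≤ ε * x ^ 3 := by
    calc x = 1 * x := by ring
      _ ≤ U * x := by gcongr
      _ ≤ ε * x ^ 3 := m4
  have b1 : -(|B| * (ε * x ^ 3)) ≤ B * (U * x ^ 2) := by
    have a0 : 0 ≤ U * x ^ 2 := by positivity
    nlinarith [neg_abs_le B, abs_nonneg B]
  have b2 : -(|C| * (ε * x ^ 3)) ≤ C * x ^ 2 := by
    have a0 : 0 ≤ x ^ 2 := by positivity
    nlinarith [neg_abs_le C, abs_nonneg C]
  have b3 : -(|E| * (ε * x ^ 3)) ≤ E * (U ^ 2 * x) := by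
    have a0 : 0 ≤ U ^ 2 * x := by positivity
    nlinarith [neg_abs_le E, abs_nonneg E]
  have b4 : -(|F1| * (ε * x ^ 3)) ≤ F1 * (U * x) := by
    have a0 : 0 ≤ U * x := by positivity
    nlinarith [neg_abs_le F1, abs_nonneg F1]
  have b5 : -(|H1| * (ε * x ^ 3)) ≤ H1 * x := by
    nlinarith [neg_abs_le H1, abs_nonneg H1]
  have hx3 : 0 ≤ x ^ 3 := by positivity
  have h4 : S * ε * x ^ 3 ≤ A / 2 * x ^ 3 := by gcongr
  have h5 : A / 2 * x ^ 3 + γ / 2 * U ^ 4 ≤ Q4 A B C E F1 H1 γ J K L M x U := by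
    unfold Q4
    rw [hS] at h4
    nlinarith
  have h6 : x ^ 2 ≤ x ^ 3 := pow_le_pow_right₀ hx1 (by norm_num)
  have h7 : U ^ 3 ≤ U ^ 4 := pow_le_pow_right₀ hU1 (by norm_num)
  calc min (A / 2) (γ / 2) * (x ^ 2 + U ^ 3)
      = min (A / 2) (γ / 2) * x ^ 2 + min (A / 2) (γ / 2) * U ^ 3 := by ring
    _ ≤ A / 2 * x ^ 3 + γ / 2 * U ^ 4 := by
        apply add_le_add
        · exact mul_le_mul (min_le_left _ _) h6 (by positivity) (by positivity)
        · exact mul_le_mul (min_le_right _ _) h7 (by positivity) (by positivity)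
    _ ≤ _ := h5

theorem q4_case_B (B C E F1 H1 γ J K L M : ℝ) (hγ : 0 < γ) (hB : 0 < B) (hC : 0 < C) :
    ∃ ε : ℝ, 0 < ε ∧ ∃ δ : ℝ, 0 < δ ∧ ∃ U0 : ℝ, ∀ x U : ℝ, U0 ≤ U → U ≤ ε * x →
      δ * (x ^ 2 + U ^ 3) ≤ Q4 0 B C E F1 H1 γ J K L M x U := by
  obtain ⟨U0, hU0, htail⟩ := tail_bound γ J K L M hγ
  set S := |E| + |F1| + |H1| with hS
  have hS0 : 0 ≤ S := by positivity
  refine ⟨min 1 (B / (2 * (S + 1))), by positivity, min (B / 2) (γ / 2), by positivity, U0, ?_⟩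
  intro x U h1 h2
  set ε := min 1 (B / (2 * (S + 1))) with hε
  have hεpos : 0 < ε := by positivity
  have hε1 : ε ≤ 1 := min_le_left _ _
  have hU1 : 1 ≤ U := hU0.trans h1
  have hx0 : 0 < x := by
    by_contra hx
    push Not at hx
    nlinarith
  have hUx : U ≤ x := by nlinarith
  have hx1 : 1 ≤ x := by linarith
  have h3 := htail U h1
  have hSε : S * ε ≤ B / 2 := by
    have a1 : ε ≤ B / (2 * (S + 1)) := min_le_right _ _
    calc S * ε ≤ (S + 1) * (B / (2 * (S + 1))) := by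
          gcongr
          linarith
      _ = B / 2 := by field_simp
  have m3 : U ^ 2 * x ≤ ε * (U * x ^ 2) := by
    calc U ^ 2 * x = U * (U * x) := by ring
      _ ≤ (ε * x) * (U * x) := by gcongr
      _ = ε * (U * x ^ 2) := by ring
  have m4 : U * x ≤ ε * (U * x ^ 2) := by
    have a1 : 1 ≤ ε * x := by linarith
    calc U * x = 1 * (U * x) := by ring
      _ ≤ (ε * x) * (U * x) := by gcongr
      _ = ε * (U * x ^ 2) := by ring
  have m5 : x ≤ ε * (U * x ^ 2) := by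
    calc x = 1 * x := by ring
      _ ≤ U * x := by gcongr
      _ ≤ _ := m4
  have b3 : -(|E| * (ε * (U * x ^ 2))) ≤ E * (U ^ 2 * x) := by
    have a0 : 0 ≤ U ^ 2 * x := by positivity
    nlinarith [neg_abs_le E, abs_nonneg E]
  have b4 : -(|F1| * (ε * (U * x ^ 2))) ≤ F1 * (U * x) := by
    have a0 : 0 ≤ U * x := by positivity
    nlinarith [neg_abs_le F1, abs_nonneg F1]
  have b5 : -(|H1| * (ε * (U * x ^ 2))) ≤ H1 * x := by
    nlinarith [neg_abs_le H1, abs_nonneg H1]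
  have hUx2 : 0 ≤ U * x ^ 2 := by positivity
  have h4 : S * ε * (U * x ^ 2) ≤ B / 2 * (U * x ^ 2) := by gcongr
  have hCx : 0 ≤ C * x ^ 2 := by positivity
  have h5 : B / 2 * (U * x ^ 2) + γ / 2 * U ^ 4 ≤ Q4 0 B C E F1 H1 γ J K L M x U := by
    unfold Q4
    rw [hS] at h4
    nlinarith
  have h6 : x ^ 2 ≤ U * x ^ 2 := by nlinarith [sq_nonneg x]
  have h7 : U ^ 3 ≤ U ^ 4 := pow_le_pow_right₀ hU1 (by norm_num)
  calc min (B / 2) (γ / 2) * (x ^ 2 + U ^ 3)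
      = min (B / 2) (γ / 2) * x ^ 2 + min (B / 2) (γ / 2) * U ^ 3 := by ring
    _ ≤ B / 2 * (U * x ^ 2) + γ / 2 * U ^ 4 := by
        apply add_le_add
        · exact mul_le_mul (min_le_left _ _) h6 (by positivity) (by positivity)
        · exact mul_le_mul (min_le_right _ _) h7 (by positivity) (by positivity)
    _ ≤ _ := h5

/-- a bound for the lower terms -/
theorem rest_bound (F1 H1 J K L M η : ℝ) (hη : 0 < η) : ∃ U0 : ℝ, 1 ≤ U0 ∧ ∀ x U : ℝ,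
    U0 ≤ U → 0 ≤ x → |F1 * U * x + H1 * x + J * U ^ 3 + K * U ^ 2 + L * U + M| ≤
      η * (x ^ 2 + U ^ 4) := by
  set S := |F1| + |H1| + |J| + |K| + |L| + |M| with hS
  refine ⟨max 1 (S / η), le_max_left _ _, fun x U hU hx => ?_⟩
  have hU1 : 1 ≤ U := (le_max_left _ _).trans hU
  have hSU : S / η ≤ U := (le_max_right _ _).trans hU
  rw [div_le_iff₀ hη] at hSU
  have hU0 : 0 < U := by linarith
  set m := x ^ 2 + U ^ 4 with hm
  have m1 : U * (U * x) ≤ m := by nlinarith [sq_nonneg (x - U ^ 2), sq_nonneg (x + U ^ 2)]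
  have m2 : U * x ≤ m := by
    have : U * x ≤ U * (U * x) := by
      have : 0 ≤ U * x := by positivity
      nlinarith
    linarith
  have m3 : U * U ^ 3 ≤ m := by nlinarith [sq_nonneg x]
  have hU34 : U ^ 3 ≤ U ^ 3 := le_rfl
  have m4 : U * U ^ 2 ≤ m := by
    have : U ^ 2 ≤ U ^ 3 := pow_le_pow_right₀ hU1 (by norm_num)
    nlinarith
  have m5 : U * U ≤ m := by
    have : U ≤ U ^ 3 := by
      calc U = U ^ 1 := (pow_one U).symm
        _ ≤ U ^ 3 := pow_le_pow_right₀ hU1 (by norm_num)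
    nlinarith
  have m6 : U * 1 ≤ m := by
    have : 1 ≤ U ^ 3 := one_le_pow₀ hU1
    nlinarith
  have key : U * |F1 * U * x + H1 * x + J * U ^ 3 + K * U ^ 2 + L * U + M| ≤ S * m := by
    have t1 : |F1 * U * x + H1 * x + J * U ^ 3 + K * U ^ 2 + L * U + M| ≤
        |F1| * (U * x) + |H1| * x + |J| * U ^ 3 + |K| * U ^ 2 + |L| * U + |M| := by
      have s1 : |F1 * U * x| = |F1| * (U * x) := by
        rw [mul_assoc, abs_mul, abs_of_nonneg (by positivity : (0 : ℝ) ≤ U * x)]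
      have s2 : |H1 * x| = |H1| * x := by rw [abs_mul, abs_of_nonneg hx]
      have s3 : |J * U ^ 3| = |J| * U ^ 3 := by
        rw [abs_mul, abs_of_nonneg (by positivity : (0 : ℝ) ≤ U ^ 3)]
      have s4 : |K * U ^ 2| = |K| * U ^ 2 := by
        rw [abs_mul, abs_of_nonneg (by positivity : (0 : ℝ) ≤ U ^ 2)]
      have s5 : |L * U| = |L| * U := by rw [abs_mul, abs_of_pos hU0]
      rw [← s1, ← s2, ← s3, ← s4, ← s5]
      refine (abs_add_le _ _).trans (add_le_add ?_ le_rfl)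
      refine (abs_add_le _ _).trans (add_le_add ?_ le_rfl)
      refine (abs_add_le _ _).trans (add_le_add ?_ le_rfl)
      refine (abs_add_le _ _).trans (add_le_add ?_ le_rfl)
      exact abs_add_le _ _
    calc U * |F1 * U * x + H1 * x + J * U ^ 3 + K * U ^ 2 + L * U + M|
        ≤ U * (|F1| * (U * x) + |H1| * x + |J| * U ^ 3 + |K| * U ^ 2 + |L| * U + |M|) := by
          gcongr
      _ = |F1| * (U * (U * x)) + |H1| * (U * x) + |J| * (U * U ^ 3) + |K| * (U * U ^ 2) +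
          |L| * (U * U) + |M| * (U * 1) := by ring
      _ ≤ |F1| * m + |H1| * m + |J| * m + |K| * m + |L| * m + |M| * m := by gcongr
      _ = S * m := by rw [hS]; ring
  have hm0 : 0 ≤ m := by positivity
  have h1 : U * |F1 * U * x + H1 * x + J * U ^ 3 + K * U ^ 2 + L * U + M| ≤ U * (η * m) := by
    calc _ ≤ S * m := key
      _ ≤ (U * η) * m := by gcongr
      _ = U * (η * m) := by ring
  exact le_of_mul_le_mul_left h1 hU0

theorem q4_case_E (C E F1 H1 γ J K L M : ℝ) (hγ : 0 < γ) (hC : 0 < C)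
    (hE : 0 ≤ E ∨ E ^ 2 < 4 * C * γ) :
    ∃ ε : ℝ, 0 < ε ∧ ∃ δ : ℝ, 0 < δ ∧ ∃ U0 : ℝ, ∀ x U : ℝ, U0 ≤ U → U ≤ ε * x →
      δ * (x ^ 2 + U ^ 3) ≤ Q4 0 0 C E F1 H1 γ J K L M x U := by
  obtain ⟨δ0, hδ0, hdef⟩ : ∃ δ0 : ℝ, 0 < δ0 ∧ ∀ x V : ℝ, 0 ≤ x → 0 ≤ V →
      δ0 * (x ^ 2 + V ^ 2) ≤ C * x ^ 2 + E * V * x + γ * V ^ 2 := by
    rcases hE with hE | hE
    · refine ⟨min C γ, by positivity, fun x V hx hV => ?_⟩
      have h1 : min C γ * x ^ 2 ≤ C * x ^ 2 := by gcongr; exact min_le_left _ _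
      have h2 : min C γ * V ^ 2 ≤ γ * V ^ 2 := by gcongr; exact min_le_right _ _
      have h3 : 0 ≤ E * V * x := by positivity
      linarith
    · set δ0 := (4 * C * γ - E ^ 2) / (8 * (C + γ)) with hδ
      have hδ0 : 0 < δ0 := by
        apply div_pos <;> nlinarith
      have e1 : δ0 * (8 * (C + γ)) = 4 * C * γ - E ^ 2 := by
        rw [hδ]
        field_simp
      have hδC : δ0 < C := by
        by_contra hcon
        push Not at hcon
        nlinarith [mul_pos hC hγ, sq_nonneg E]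
      refine ⟨δ0, hδ0, fun x V _ _ => ?_⟩
      have e2 : E ^ 2 ≤ 4 * (C - δ0) * (γ - δ0) := by nlinarith
      have e3 : 0 ≤ 4 * (C - δ0) * ((C - δ0) * x ^ 2 + E * V * x + (γ - δ0) * V ^ 2) := by
        have : 4 * (C - δ0) * ((C - δ0) * x ^ 2 + E * V * x + (γ - δ0) * V ^ 2) =
            (2 * (C - δ0) * x + E * V) ^ 2 + (4 * (C - δ0) * (γ - δ0) - E ^ 2) * V ^ 2 := by ring
        rw [this]
        have : 0 ≤ (4 * (C - δ0) * (γ - δ0) - E ^ 2) * V ^ 2 :=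
          mul_nonneg (by linarith) (sq_nonneg V)
        positivity
      have e4 : 0 ≤ (C - δ0) * x ^ 2 + E * V * x + (γ - δ0) * V ^ 2 := by
        by_contra hneg
        push Not at hneg
        have : 4 * (C - δ0) * ((C - δ0) * x ^ 2 + E * V * x + (γ - δ0) * V ^ 2) < 0 :=
          mul_neg_of_pos_of_neg (by linarith) hneg
        linarith
      linarith
  obtain ⟨U0, hU0, hrest⟩ := rest_bound F1 H1 J K L M (δ0 / 2) (by positivity)
  refine ⟨1, one_pos, δ0 / 2, by positivity, U0, ?_⟩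
  intro x U h1 h2
  have hU1 : 1 ≤ U := hU0.trans h1
  have hx1 : 1 ≤ x := by linarith
  have h3 := hrest x U h1 (by linarith)
  have h4 := hdef x (U ^ 2) (by linarith) (by positivity)
  have h5 := (abs_le.1 h3).1
  have h6 : δ0 / 2 * (x ^ 2 + U ^ 4) ≤ Q4 0 0 C E F1 H1 γ J K L M x U := by
    unfold Q4
    have e1 : (U ^ 2) ^ 2 = U ^ 4 := by ring
    rw [e1] at h4
    nlinarith
  have h7 : U ^ 3 ≤ U ^ 4 := pow_le_pow_right₀ hU1 (by norm_num)
  refine le_trans ?_ h6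
  gcongr

/-- negative values, discriminant positive -/
theorem q4_neg_E (C E F1 H1 γ J K L M R : ℝ) (hC : 0 < C) (hE2 : 4 * C * γ < E ^ 2)
    (hR : 0 ≤ R) : ∃ U1 : ℝ, ∀ U ξ : ℝ, U1 ≤ U → |ξ| ≤ R →
      Q4 0 0 C E F1 H1 γ J K L M (-E / (2 * C) * U ^ 2 + ξ) U < 0 := by
  set z := -E / (2 * C) with hz
  have hzC : 2 * C * z = -E := by rw [hz]; field_simp
  set κ := (E ^ 2 - 4 * C * γ) / (4 * C) with hκ
  have hκ0 : 0 < κ := by
    apply div_pos <;> nlinarith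
  have hκC : 4 * C * κ = E ^ 2 - 4 * C * γ := by rw [hκ]; field_simp
  set S := |F1 * z + J| + |H1 * z + K| + (|F1| * R + |L|) + (C * R ^ 2 + |H1| * R + |M|) with hS
  have hS0 : 0 ≤ S := by positivity
  refine ⟨max 1 ((S + 1) / κ), fun U ξ hU hξ => ?_⟩
  have hU1 : 1 ≤ U := (le_max_left _ _).trans hU
  have hSU : (S + 1) / κ ≤ U := (le_max_right _ _).trans hU
  rw [div_le_iff₀ hκ0] at hSU
  have e1 : Q4 0 0 C E F1 H1 γ J K L M (z * U ^ 2 + ξ) U =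
      (C * z ^ 2 + E * z + γ) * U ^ 4 + (2 * C * z + E) * (ξ * U ^ 2) +
      ((F1 * z + J) * U ^ 3 + (H1 * z + K) * U ^ 2 + (F1 * ξ + L) * U +
        (C * ξ ^ 2 + H1 * ξ + M)) := by
    unfold Q4
    ring
  have e2 : C * z ^ 2 + E * z + γ = -κ := by
    have : 4 * C * (C * z ^ 2 + E * z + γ) = 4 * C * (-κ) := by
      have h1 : 4 * C * (C * z ^ 2 + E * z + γ) = (2 * C * z) ^ 2 + 2 * E * (2 * C * z) +
          4 * C * γ := by ring
      rw [h1, hzC]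
      nlinarith
    exact mul_left_cancel₀ (by positivity) this
  rw [e1, e2, hzC]
  have hU3 : 1 ≤ U ^ 3 := one_le_pow₀ hU1
  have hU3' : 0 ≤ U ^ 3 := by positivity
  have hU23 : U ^ 2 ≤ U ^ 3 := pow_le_pow_right₀ hU1 (by norm_num)
  have hU13 : U ≤ U ^ 3 := by
    calc U = U ^ 1 := (pow_one U).symm
      _ ≤ U ^ 3 := pow_le_pow_right₀ hU1 (by norm_num)
  have b1 : (F1 * z + J) * U ^ 3 ≤ |F1 * z + J| * U ^ 3 := by
    gcongr
    exact le_abs_self _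
  have b2 : (H1 * z + K) * U ^ 2 ≤ |H1 * z + K| * U ^ 3 := by
    calc (H1 * z + K) * U ^ 2 ≤ |H1 * z + K| * U ^ 2 := by gcongr; exact le_abs_self _
      _ ≤ |H1 * z + K| * U ^ 3 := by gcongr
  have b3 : (F1 * ξ + L) * U ≤ (|F1| * R + |L|) * U ^ 3 := by
    have a1 : F1 * ξ + L ≤ |F1| * R + |L| := by
      have a2 : F1 * ξ ≤ |F1| * R := by
        calc F1 * ξ ≤ |F1 * ξ| := le_abs_self _
          _ = |F1| * |ξ| := abs_mul _ _
          _ ≤ |F1| * R := by gcongr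
      linarith [le_abs_self L]
    calc (F1 * ξ + L) * U ≤ (|F1| * R + |L|) * U := by gcongr
      _ ≤ (|F1| * R + |L|) * U ^ 3 := by gcongr
  have b4 : C * ξ ^ 2 + H1 * ξ + M ≤ (C * R ^ 2 + |H1| * R + |M|) * U ^ 3 := by
    have a1 : ξ ^ 2 ≤ R ^ 2 := by
      rw [← sq_abs]
      gcongr
    have a2 : H1 * ξ ≤ |H1| * R := by
      calc H1 * ξ ≤ |H1 * ξ| := le_abs_self _
        _ = |H1| * |ξ| := abs_mul _ _
        _ ≤ |H1| * R := by gcongr
    have a3 : C * ξ ^ 2 + H1 * ξ + M ≤ C * R ^ 2 + |H1| * R + |M| := by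
      have : C * ξ ^ 2 ≤ C * R ^ 2 := by gcongr
      linarith [le_abs_self M]
    have a4 : 0 ≤ C * R ^ 2 + |H1| * R + |M| := by positivity
    nlinarith
  have b5 : (S + 1) * U ^ 3 ≤ κ * U ^ 4 := by
    have : κ * U ^ 4 = (U * κ) * U ^ 3 := by ring
    rw [this]
    gcongr
  nlinarith

theorem q4_valley (C ρ F1 H1 J K L M x U : ℝ) :
    Q4 0 0 C (-2 * C * ρ) F1 H1 (C * ρ ^ 2) J K L M x U =
      C * (x - ρ * U ^ 2) ^ 2 + F1 * (x - ρ * U ^ 2) * U + H1 * (x - ρ * U ^ 2) +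
      (ρ * F1 + J) * U ^ 3 + (ρ * H1 + K) * U ^ 2 + L * U + M := by
  unfold Q4
  ring

/-- valley with a positive cubic term -/
theorem q4_valley_pos (C ρ F1 H1 J K L M : ℝ) (hC : 0 < C) (hc3 : 0 < ρ * F1 + J) :
    ∃ δ : ℝ, 0 < δ ∧ ∃ K0 : ℝ, ∀ x U : ℝ, 0 ≤ U →
      δ * ((x - ρ * U ^ 2) ^ 2 + U ^ 3) ≤
        Q4 0 0 C (-2 * C * ρ) F1 H1 (C * ρ ^ 2) J K L M x U + K0 := by
  set c3 := ρ * F1 + J with hc3def
  set S2 := |ρ * H1 + K| + F1 ^ 2 / C with hS2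
  have hS20 : 0 ≤ S2 := by positivity
  set U1 := 4 * S2 / c3 with hU1
  set U2 := max 1 (4 * |L| / c3) with hU2
  have hU10 : 0 ≤ U1 := by positivity
  have hU20 : 1 ≤ U2 := le_max_left _ _
  refine ⟨min (C / 2) (c3 / 2), by positivity, |M| + H1 ^ 2 / C + S2 * U1 ^ 2 + |L| * U2, ?_⟩
  intro x U hU
  rw [q4_valley]
  set X := x - ρ * U ^ 2 with hX
  have a1 : -(C / 4 * X ^ 2) - F1 ^ 2 / C * U ^ 2 ≤ F1 * X * U := by
    have h1 : 0 ≤ (C * X / 2 + F1 * U) ^ 2 / C := by positivity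
    have h2 : (C * X / 2 + F1 * U) ^ 2 / C = C / 4 * X ^ 2 + F1 * X * U + F1 ^ 2 / C * U ^ 2 := by
      field_simp
      ring
    linarith
  have a2 : -(C / 4 * X ^ 2) - H1 ^ 2 / C ≤ H1 * X := by
    have h1 : 0 ≤ (C * X / 2 + H1) ^ 2 / C := by positivity
    have h2 : (C * X / 2 + H1) ^ 2 / C = C / 4 * X ^ 2 + H1 * X + H1 ^ 2 / C := by
      field_simp
      ring
    linarith
  have a3 : S2 * U ^ 2 ≤ c3 / 4 * U ^ 3 + S2 * U1 ^ 2 := by
    rcases le_total U U1 with h1 | h1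
    · have h2 : S2 * U ^ 2 ≤ S2 * U1 ^ 2 := by gcongr
      have h3 : 0 ≤ c3 / 4 * U ^ 3 := by positivity
      linarith
    · rw [hU1, div_le_iff₀ hc3] at h1
      have h3 : 0 ≤ S2 * U1 ^ 2 := by positivity
      have h4 : S2 * U ^ 2 ≤ c3 / 4 * U ^ 3 := by
        have : c3 / 4 * U ^ 3 = (U * c3 / 4) * U ^ 2 := by ring
        rw [this]
        have : S2 ≤ U * c3 / 4 := by linarith
        gcongr
      linarith
  have a4 : |L| * U ≤ c3 / 4 * U ^ 3 + |L| * U2 := by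
    rcases le_total U U2 with h1 | h1
    · have h2 : |L| * U ≤ |L| * U2 := by gcongr
      have h3 : 0 ≤ c3 / 4 * U ^ 3 := by positivity
      linarith
    · have h5 : 1 ≤ U := hU20.trans h1
      have h6 : 4 * |L| / c3 ≤ U := (le_max_right _ _).trans h1
      rw [div_le_iff₀ hc3] at h6
      have h3 : 0 ≤ |L| * U2 := by positivity
      have h4 : |L| * U ≤ c3 / 4 * U ^ 3 := by
        have h7 : |L| * U ≤ (U * c3 / 4) * U := by
          have : |L| ≤ U * c3 / 4 := by linarith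
          gcongr
        have h8 : (U * c3 / 4) * U ≤ c3 / 4 * U ^ 3 := by
          have : U ^ 2 ≤ U ^ 3 := pow_le_pow_right₀ h5 (by norm_num)
          nlinarith
        linarith
      linarith
  have a5 : -(|L| * U) ≤ L * U := by nlinarith [neg_abs_le L]
  have a6 : -(|ρ * H1 + K| * U ^ 2) ≤ (ρ * H1 + K) * U ^ 2 := by
    nlinarith [neg_abs_le (ρ * H1 + K), sq_nonneg U]
  have a7 := neg_abs_le M
  have a8 : S2 * U ^ 2 = |ρ * H1 + K| * U ^ 2 + F1 ^ 2 / C * U ^ 2 := by rw [hS2]; ring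
  have a9 : min (C / 2) (c3 / 2) * (X ^ 2 + U ^ 3) ≤ C / 2 * X ^ 2 + c3 / 2 * U ^ 3 := by
    have h1 : min (C / 2) (c3 / 2) * X ^ 2 ≤ C / 2 * X ^ 2 := by
      gcongr
      exact min_le_left _ _
    have h2 : min (C / 2) (c3 / 2) * U ^ 3 ≤ c3 / 2 * U ^ 3 := by
      gcongr
      exact min_le_right _ _
    linarith
  linarith

/-- valley with a negative cubic term -/
theorem q4_valley_neg (C ρ F1 H1 J K L M R : ℝ) (hC : 0 < C) (hc3 : ρ * F1 + J < 0)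
    (hR : 0 ≤ R) : ∃ U1 : ℝ, ∀ U ξ : ℝ, U1 ≤ U → |ξ| ≤ R →
      Q4 0 0 C (-2 * C * ρ) F1 H1 (C * ρ ^ 2) J K L M (ρ * U ^ 2 + ξ) U < 0 := by
  set κ := -(ρ * F1 + J) with hκ
  have hκ0 : 0 < κ := by linarith
  set S := |ρ * H1 + K| + (|F1| * R + |L|) + (C * R ^ 2 + |H1| * R + |M|) with hS
  have hS0 : 0 ≤ S := by positivity
  refine ⟨max 1 ((S + 1) / κ), fun U ξ hU hξ => ?_⟩
  have hU1 : 1 ≤ U := (le_max_left _ _).trans hU
  have hSU : (S + 1) / κ ≤ U := (le_max_right _ _).trans hU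
  rw [div_le_iff₀ hκ0] at hSU
  rw [q4_valley]
  have e1 : ρ * U ^ 2 + ξ - ρ * U ^ 2 = ξ := by ring
  rw [e1]
  have hU2 : 1 ≤ U ^ 2 := one_le_pow₀ hU1
  have hU12 : U ≤ U ^ 2 := by nlinarith
  have b2 : (ρ * H1 + K) * U ^ 2 ≤ |ρ * H1 + K| * U ^ 2 := by gcongr; exact le_abs_self _
  have b3 : F1 * ξ * U + L * U ≤ (|F1| * R + |L|) * U ^ 2 := by
    have a1 : F1 * ξ + L ≤ |F1| * R + |L| := by
      have a2 : F1 * ξ ≤ |F1| * R := by
        calc F1 * ξ ≤ |F1 * ξ| := le_abs_self _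
          _ = |F1| * |ξ| := abs_mul _ _
          _ ≤ |F1| * R := by gcongr
      linarith [le_abs_self L]
    calc F1 * ξ * U + L * U = (F1 * ξ + L) * U := by ring
      _ ≤ (|F1| * R + |L|) * U := by gcongr
      _ ≤ (|F1| * R + |L|) * U ^ 2 := by gcongr
  have b4 : C * ξ ^ 2 + H1 * ξ + M ≤ (C * R ^ 2 + |H1| * R + |M|) * U ^ 2 := by
    have a1 : ξ ^ 2 ≤ R ^ 2 := by
      rw [← sq_abs]
      gcongr
    have a2 : H1 * ξ ≤ |H1| * R := by
      calc H1 * ξ ≤ |H1 * ξ| := le_abs_self _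
        _ = |H1| * |ξ| := abs_mul _ _
        _ ≤ |H1| * R := by gcongr
    have a3 : C * ξ ^ 2 + H1 * ξ + M ≤ C * R ^ 2 + |H1| * R + |M| := by
      have : C * ξ ^ 2 ≤ C * R ^ 2 := by gcongr
      linarith [le_abs_self M]
    have a4 : 0 ≤ C * R ^ 2 + |H1| * R + |M| := by positivity
    nlinarith
  have b5 : (S + 1) * U ^ 2 ≤ κ * U ^ 3 := by
    have : κ * U ^ 3 = (U * κ) * U ^ 2 := by ring
    rw [this]
    gcongr
  have b6 : (ρ * F1 + J) * U ^ 3 = -(κ * U ^ 3) := by rw [hκ]; ring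
  nlinarith

/-- valley, indefinite quadratic -/
theorem q4_valley_indef (C ρ F1 H1 J K L M R : ℝ) (hC : 0 < C) (hc3 : ρ * F1 + J = 0)
    (hΔ : 4 * C * (ρ * H1 + K) < F1 ^ 2) (hR : 0 ≤ R) : ∃ U1 : ℝ, ∀ U ξ : ℝ, U1 ≤ U → |ξ| ≤ R →
      Q4 0 0 C (-2 * C * ρ) F1 H1 (C * ρ ^ 2) J K L M
        (ρ * U ^ 2 - F1 / (2 * C) * U + ξ) U < 0 := by
  set w := F1 / (2 * C) with hw
  have hwC : 2 * C * w = F1 := by rw [hw]; field_simp
  set κ := (F1 ^ 2 - 4 * C * (ρ * H1 + K)) / (4 * C) with hκ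
  have hκ0 : 0 < κ := by
    apply div_pos <;> nlinarith
  have hκC : 4 * C * κ = F1 ^ 2 - 4 * C * (ρ * H1 + K) := by rw [hκ]; field_simp
  set S := (|L - H1 * w|) + (C * R ^ 2 + |H1| * R + |M|) with hS
  have hS0 : 0 ≤ S := by positivity
  refine ⟨max 1 ((S + 1) / κ), fun U ξ hU hξ => ?_⟩
  have hU1 : 1 ≤ U := (le_max_left _ _).trans hU
  have hSU : (S + 1) / κ ≤ U := (le_max_right _ _).trans hU
  rw [div_le_iff₀ hκ0] at hSU
  rw [q4_valley, hc3]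
  have e1 : ρ * U ^ 2 - w * U + ξ - ρ * U ^ 2 = ξ - w * U := by ring
  rw [e1]
  have e2 : C * (ξ - w * U) ^ 2 + F1 * (ξ - w * U) * U + H1 * (ξ - w * U) + 0 * U ^ 3 +
      (ρ * H1 + K) * U ^ 2 + L * U + M =
      (C * w ^ 2 - F1 * w + (ρ * H1 + K)) * U ^ 2 + (F1 - 2 * C * w) * (ξ * U) +
        (L - H1 * w) * U + (C * ξ ^ 2 + H1 * ξ + M) := by ring
  have e3 : C * w ^ 2 - F1 * w + (ρ * H1 + K) = -κ := by
    have : 4 * C * (C * w ^ 2 - F1 * w + (ρ * H1 + K)) = 4 * C * (-κ) := by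
      have h1 : 4 * C * (C * w ^ 2 - F1 * w + (ρ * H1 + K)) = (2 * C * w) ^ 2 -
          2 * F1 * (2 * C * w) + 4 * C * (ρ * H1 + K) := by ring
      rw [h1, hwC]
      nlinarith
    exact mul_left_cancel₀ (by positivity) this
  rw [e2, e3, hwC]
  have b3 : (L - H1 * w) * U ≤ |L - H1 * w| * U := by gcongr; exact le_abs_self _
  have b4 : C * ξ ^ 2 + H1 * ξ + M ≤ (C * R ^ 2 + |H1| * R + |M|) * U := by
    have a1 : ξ ^ 2 ≤ R ^ 2 := by
      rw [← sq_abs]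
      gcongr
    have a2 : H1 * ξ ≤ |H1| * R := by
      calc H1 * ξ ≤ |H1 * ξ| := le_abs_self _
        _ = |H1| * |ξ| := abs_mul _ _
        _ ≤ |H1| * R := by gcongr
    have a3 : C * ξ ^ 2 + H1 * ξ + M ≤ C * R ^ 2 + |H1| * R + |M| := by
      have : C * ξ ^ 2 ≤ C * R ^ 2 := by gcongr
      linarith [le_abs_self M]
    have a4 : 0 ≤ C * R ^ 2 + |H1| * R + |M| := by positivity
    nlinarith
  have b5 : (S + 1) * U ≤ κ * U ^ 2 := by
    have : κ * U ^ 2 = (U * κ) * U := by ring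
    rw [this]
    gcongr
  nlinarith

end PP72
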