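import Pool.Agent.PP72.Basic

/-!
The lower bound `Φ(x, U) ≥ δ (x² + U³)` near a direction in which the leading form vanishes to
order `1`, `2` or `3`.
-/

open Polynomial Finset

namespace PP72

/-- `∑_{j ≤ d} g_j(U) X^j` -/
noncomputable def lineP (d : ℕ) (g : ℕ → ℝ[X]) (U : ℝ) : ℝ[X] :=
  ∑ j ∈ range (d + 1), C ((g j).eval U) * X ^ j

theorem lineP_coeff (d : ℕ) (g : ℕ → ℝ[X]) (U : ℝ) (j : ℕ) :
    (lineP d g U).coeff j = if j ≤ d then (g j).eval U else 0 := by
  unfold lineP
  rw [finsetSum_coeff]
  simp only [coeff_C_mul, coeff_X_pow]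
  split_ifs with hj
  · rw [Finset.sum_eq_single j]
    · simp
    · intro b _ hb
      rw [if_neg (Ne.symm hb)]
      simp
    · intro hb
      exact absurd (mem_range.2 (Nat.lt_succ_of_le hj)) hb
  · apply Finset.sum_eq_zero
    intro b hb
    rw [if_neg]
    · simp
    · intro hjb
      subst hjb
      exact hj (Nat.lt_succ_iff.1 (mem_range.1 hb))

theorem lineP_eval (d : ℕ) (g : ℕ → ℝ[X]) (U x : ℝ) :
    (lineP d g U).eval x = ∑ j ∈ range (d + 1), x ^ j * (g j).eval U := by
  unfold lineP
  rw [eval_finsetSum]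
  apply Finset.sum_congr rfl
  intro j _
  simp only [eval_mul, eval_C, eval_pow, eval_X]
  ring

theorem poly_bound (g : ℝ[X]) (m : ℕ) (hg : g.natDegree ≤ m) :
    ∃ C : ℝ, 0 ≤ C ∧ ∀ U : ℝ, 1 ≤ U → |g.eval U| ≤ C * U ^ m := by
  refine ⟨∑ i ∈ range (m + 1), |g.coeff i|, Finset.sum_nonneg fun i _ => abs_nonneg _, ?_⟩
  intro U hU
  rw [Polynomial.eval_eq_sum_range' (Nat.lt_succ_of_le hg), Finset.sum_mul]
  refine le_trans (Finset.abs_sum_le_sum_abs _ _) (Finset.sum_le_sum fun i hi => ?_)
  rw [abs_mul, abs_of_nonneg (by positivity : (0 : ℝ) ≤ U ^ i)]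
  apply mul_le_mul_of_nonneg_left _ (abs_nonneg _)
  exact pow_le_pow_right₀ hU (Nat.lt_succ_iff.1 (mem_range.1 hi))

/-- the low part is at least half of its main monomial -/
theorem low_part (n μ : ℕ) (hμ : 1 ≤ μ) (g : ℕ → ℝ[X])
    (hdeg : ∀ j ≤ n, (g j).natDegree ≤ n + μ - j) (γ : ℝ) (hγ : 0 < γ)
    (hmain : (g n).coeff μ = γ) :
    ∃ E : ℝ, 0 < E ∧ E ≤ 1 ∧ ∃ U0 : ℝ, 1 ≤ U0 ∧ ∀ x U : ℝ, U0 ≤ U → U ≤ E * x →
      γ / 2 * (x ^ n * U ^ μ) ≤ ∑ j ∈ range (n + 1), x ^ j * (g j).eval U := by
  have hb : ∀ j ∈ range n, ∃ C : ℝ, 0 ≤ C ∧ ∀ U : ℝ, 1 ≤ U →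
      |(g j).eval U| ≤ C * U ^ (n + μ - j) := by
    intro j hj
    exact poly_bound (g j) _ (hdeg j (mem_range.1 hj).le)
  choose! C hC0 hC using hb
  set S : ℝ := ∑ j ∈ range n, C j with hS
  have hS0 : 0 ≤ S := Finset.sum_nonneg fun j hj => hC0 j hj
  -- the remainder of `g n`
  obtain ⟨C', hC'0, hC'⟩ := poly_bound (g n - Polynomial.C γ * X ^ μ) (μ - 1) (by
    rw [natDegree_le_iff_coeff_eq_zero]
    intro N hN
    rw [coeff_sub, coeff_C_mul, coeff_X_pow]
    split_ifs with h
    · rw [h, hmain]
      ring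
    · have : (g n).coeff N = 0 := by
        apply coeff_eq_zero_of_natDegree_lt
        have := hdeg n le_rfl
        omega
      rw [this]
      ring)
  refine ⟨min 1 (γ / (4 * (S + 1))), by positivity, min_le_left _ _,
    max 1 (4 * C' / γ), le_max_left _ _, ?_⟩
  intro x U hU hUx
  set E : ℝ := min 1 (γ / (4 * (S + 1))) with hE
  have hEpos : 0 < E := by positivity
  have hE1 : E ≤ 1 := min_le_left _ _
  have hU1 : 1 ≤ U := le_trans (le_max_left _ _) hU
  have hU0 : 0 < U := by linarith
  have hx0 : 0 < x := by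
    by_contra hx
    push Not at hx
    nlinarith
  have hESS : E * S ≤ γ / 4 := by
    have h1 : E ≤ γ / (4 * (S + 1)) := min_le_right _ _
    calc E * S ≤ γ / (4 * (S + 1)) * (S + 1) := by gcongr; linarith
      _ = γ / 4 := by field_simp
  have hC'U : C' ≤ γ / 4 * U := by
    have h1 : 4 * C' / γ ≤ U := le_trans (le_max_right _ _) hU
    rw [div_le_iff₀ hγ] at h1
    linarith
  set m : ℝ := x ^ n * U ^ μ with hm
  have hm0 : 0 < m := by positivity
  rw [Finset.sum_range_succ]
  have h1 : -(γ / 4 * m) ≤ ∑ j ∈ range n, x ^ j * (g j).eval U := by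
    have h2 : |∑ j ∈ range n, x ^ j * (g j).eval U| ≤ ∑ j ∈ range n, C j * (E * m) := by
      refine le_trans (Finset.abs_sum_le_sum_abs _ _) (Finset.sum_le_sum fun j hj => ?_)
      have hjn : j < n := mem_range.1 hj
      rw [abs_mul, abs_of_pos (by positivity : (0 : ℝ) < x ^ j)]
      calc x ^ j * |(g j).eval U| ≤ x ^ j * (C j * U ^ (n + μ - j)) := by
            gcongr
            exact hC j hj U hU1
        _ = C j * (x ^ j * U ^ (n + μ - j)) := by ring
        _ ≤ C j * (E * m) := by
            apply mul_le_mul_of_nonneg_left _ (hC0 j hj)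
            have e1 : n + μ - j = (n - j) + μ := by omega
            have e2 : U ^ (n - j) ≤ E * x ^ (n - j) := by
              calc U ^ (n - j) ≤ (E * x) ^ (n - j) := by gcongr
                _ = E ^ (n - j) * x ^ (n - j) := by rw [mul_pow]
                _ ≤ E * x ^ (n - j) := by
                    apply mul_le_mul_of_nonneg_right _ (by positivity)
                    calc E ^ (n - j) ≤ E ^ 1 := by
                          apply pow_le_pow_of_le_one hEpos.le hE1
                          omega
                      _ = E := pow_one E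
            have e3 : x ^ n = x ^ j * x ^ (n - j) := by
              rw [← pow_add]
              congr 1
              omega
            rw [e1, pow_add, hm, e3]
            calc x ^ j * (U ^ (n - j) * U ^ μ) ≤ x ^ j * ((E * x ^ (n - j)) * U ^ μ) := by gcongr
              _ = E * (x ^ j * x ^ (n - j) * U ^ μ) := by ring
    have h3 : ∑ j ∈ range n, C j * (E * m) = (E * S) * m := by
      rw [← Finset.sum_mul, ← hS]
      ring
    rw [h3] at h2
    have h4 := (abs_le.1 h2).1
    nlinarith
  have h2 : 3 * γ / 4 * m ≤ x ^ n * (g n).eval U := by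
    have h3 := hC' U hU1
    rw [eval_sub, eval_mul, eval_C, eval_pow, eval_X] at h3
    have h4 := (abs_le.1 h3).1
    have h5 : C' * U ^ (μ - 1) ≤ γ / 4 * U ^ μ := by
      have e1 : U ^ μ = U * U ^ (μ - 1) := by
        rw [← pow_succ']
        congr 1
        omega
      rw [e1]
      calc C' * U ^ (μ - 1) ≤ (γ / 4 * U) * U ^ (μ - 1) := by gcongr
        _ = γ / 4 * (U * U ^ (μ - 1)) := by ring
    have h6 : 3 * γ / 4 * U ^ μ ≤ (g n).eval U := by linarith
    calc 3 * γ / 4 * m = x ^ n * (3 * γ / 4 * U ^ μ) := by rw [hm]; ring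
      _ ≤ x ^ n * (g n).eval U := by gcongr
  linarith

/-- coefficients of the restriction to a line, when the top ones vanish -/
theorem lineP_lead {d : ℕ} {g : ℕ → ℝ[X]} {U : ℝ} (J : ℕ) (hJ : J ≤ d)
    (htop : ∀ j, J < j → j ≤ d → (g j).eval U = 0) (hne : (g J).eval U ≠ 0) :
    (lineP d g U).natDegree = J ∧ (lineP d g U).leadingCoeff = (g J).eval U := by
  have h1 : (lineP d g U).natDegree ≤ J := by
    rw [natDegree_le_iff_coeff_eq_zero]
    intro N hN
    rw [lineP_coeff]
    split_ifs with h
    · exact htop N hN h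
    · rfl
  have h2 : (lineP d g U).coeff J = (g J).eval U := by rw [lineP_coeff, if_pos hJ]
  have h3 : (lineP d g U).natDegree = J :=
    natDegree_eq_of_le_of_coeff_ne_zero h1 (by rw [h2]; exact hne)
  exact ⟨h3, by rw [leadingCoeff, h3, h2]⟩

theorem lineP_natDegree_le {d : ℕ} {g : ℕ → ℝ[X]} {U : ℝ} (J : ℕ)
    (htop : ∀ j, J < j → j ≤ d → (g j).eval U = 0) : (lineP d g U).natDegree ≤ J := by
  rw [natDegree_le_iff_coeff_eq_zero]
  intro N hN
  rw [lineP_coeff]
  split_ifs with h
  · exact htop N hN h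
  · rfl

/-- **Region lemma.** -/
theorem region (d n μ : ℕ) (hd : 3 ≤ d) (hdn : d = n + μ) (hμ1 : 1 ≤ μ) (hμ3 : μ ≤ 3)
    (g : ℕ → ℝ[X]) (hdeg : ∀ j ≤ d, (g j).natDegree ≤ d - j)
    (htop : ∀ j, n < j → j ≤ d → (g j).coeff (d - j) = 0)
    (hmain : 0 < (g n).coeff μ) (w : ℝ) (hw : 0 < w)
    (H : ∀ m : ℕ, 2 ≤ (lineP d g (m * w)).natDegree ∧ 0 < (lineP d g (m * w)).leadingCoeff) :
    ∃ E : ℝ, 0 < E ∧ ∃ δ : ℝ, 0 < δ ∧ ∃ U0 : ℝ, ∀ x U : ℝ, U0 ≤ U → U ≤ E * x →
      δ * (x ^ 2 + U ^ 3) ≤ ∑ j ∈ range (d + 1), x ^ j * (g j).eval U := by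
  obtain ⟨E, hE, hE1, U0, hU0, hlow⟩ := low_part n μ hμ1 g (by
    intro j hj
    have := hdeg j (by omega)
    rw [hdn] at this
    exact this) _ hmain rfl
  set γ := (g n).coeff μ with hγ
  -- the top polynomial vanishes
  have hgd : g d = 0 := by
    have h1 : (g d).natDegree ≤ 0 := by
      have := hdeg d le_rfl
      rwa [Nat.sub_self] at this
    have h2 := htop d (by omega) le_rfl
    rw [Nat.sub_self] at h2
    rw [eq_C_of_natDegree_le_zero h1, h2, C_0]
  have hgd' : ∀ U, (g d).eval U = 0 := by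
    intro U
    rw [hgd, eval_zero]
  -- basic facts in the region
  have hbase : ∀ x U : ℝ, U0 ≤ U → U ≤ E * x → 1 ≤ U ∧ U ≤ x ∧ 1 ≤ x := by
    intro x U h1 h2
    have h3 : 1 ≤ U := le_trans hU0 h1
    have hx : 0 < x := by
      by_contra hx
      push Not at hx
      nlinarith
    have h4 : U ≤ x := by nlinarith
    exact ⟨h3, h4, by linarith⟩
  obtain rfl | rfl | rfl : μ = 1 ∨ μ = 2 ∨ μ = 3 := by omega
  · -- order one
    refine ⟨E, hE, γ / 4, by positivity, U0, ?_⟩
    intro x U h1 h2
    obtain ⟨hU1, hUx, hx1⟩ := hbase x U h1 h2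
    have h3 := hlow x U h1 h2
    subst hdn
    rw [Finset.sum_range_succ, hgd', mul_zero, add_zero]
    refine le_trans ?_ h3
    have h4 : x ^ 2 ≤ x ^ n := pow_le_pow_right₀ hx1 (by omega)
    have h5 : x ^ 2 * U ≤ x ^ n * U ^ 1 := by rw [pow_one]; gcongr
    have h6 : x ^ 2 ≤ x ^ 2 * U := by nlinarith [sq_nonneg x]
    have h7 : U ^ 3 ≤ x ^ 2 * U := by
      have : U ^ 2 ≤ x ^ 2 := by gcongr
      nlinarith
    nlinarith
  · -- order two
    subst hdn
    have hc : ∃ c' : ℝ, ∀ U, (g (n + 1)).eval U = c' := by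
      refine ⟨(g (n + 1)).coeff 0, fun U => ?_⟩
      have h1 : (g (n + 1)).natDegree ≤ 0 := by
        rw [natDegree_le_iff_coeff_eq_zero]
        intro N hN
        by_cases hN1 : N = 1
        · subst hN1
          have := htop (n + 1) (by omega) (by omega)
          have e : n + 2 - (n + 1) = 1 := by omega
          rwa [e] at this
        · apply coeff_eq_zero_of_natDegree_lt
          have := hdeg (n + 1) (by omega)
          omega
      conv_lhs => rw [eq_C_of_natDegree_le_zero h1]
      rw [eval_C]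
    obtain ⟨c', hc'⟩ := hc
    have hsum : ∀ x U : ℝ, ∑ j ∈ range (n + 2 + 1), x ^ j * (g j).eval U =
        (∑ j ∈ range (n + 1), x ^ j * (g j).eval U) + x ^ (n + 1) * c' := by
      intro x U
      rw [Finset.sum_range_succ, hgd', mul_zero, add_zero, Finset.sum_range_succ, hc']
    by_cases hc0 : c' = 0
    · -- then `n ≥ 2`
      have h1 := (H 0).1
      have h2 : (lineP (n + 2) g (((0 : ℕ) : ℝ) * w)).natDegree ≤ n := by
        apply lineP_natDegree_le
        intro j hj1 hj2
        obtain rfl | rfl : j = n + 1 ∨ j = n + 2 := by omega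
        · rw [hc', hc0]
        · exact hgd' _
      have hn2 : 2 ≤ n := le_trans h1 h2
      refine ⟨E, hE, γ / 4, by positivity, U0, ?_⟩
      intro x U h1 h2
      obtain ⟨hU1, hUx, hx1⟩ := hbase x U h1 h2
      have h3 := hlow x U h1 h2
      rw [hsum, hc0, mul_zero, add_zero]
      refine le_trans ?_ h3
      have h4 : x ^ 2 ≤ x ^ n := pow_le_pow_right₀ hx1 hn2
      have h5 : x ^ 2 * U ^ 2 ≤ x ^ n * U ^ 2 := by gcongr
      have hU2 : 1 ≤ U ^ 2 := one_le_pow₀ hU1
      have h6 : x ^ 2 ≤ x ^ 2 * U ^ 2 := by nlinarith [sq_nonneg x]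
      have h7 : U ^ 3 ≤ x ^ 2 * U ^ 2 := by
        have e1 : U ≤ x ^ 2 := by nlinarith
        calc U ^ 3 = U * U ^ 2 := by ring
          _ ≤ x ^ 2 * U ^ 2 := by gcongr
      nlinarith
    · have h1 := lineP_lead (d := n + 2) (g := g) (U := ((0 : ℕ) : ℝ) * w) (n + 1) (by omega) (by
        intro j hj1 hj2
        obtain rfl : j = n + 2 := by omega
        exact hgd' _) (by rw [hc']; exact hc0)
      have hcpos : 0 < c' := by
        have h2 := (H 0).2
        rw [h1.2, hc'] at h2
        exact h2
      refine ⟨E, hE, min c' (γ / 2), by positivity, U0, ?_⟩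
      intro x U h1 h2
      obtain ⟨hU1, hUx, hx1⟩ := hbase x U h1 h2
      have h3 := hlow x U h1 h2
      rw [hsum]
      have h4 : x ^ 2 ≤ x ^ (n + 1) := pow_le_pow_right₀ hx1 (by omega)
      have h5 : x ≤ x ^ n := by
        calc x = x ^ 1 := (pow_one x).symm
          _ ≤ x ^ n := pow_le_pow_right₀ hx1 (by omega)
      have h6 : U ^ 3 ≤ x ^ n * U ^ 2 := by
        calc U ^ 3 = U * U ^ 2 := by ring
          _ ≤ x ^ n * U ^ 2 := by
            gcongr
            linarith
      calc min c' (γ / 2) * (x ^ 2 + U ^ 3) = min c' (γ / 2) * x ^ 2 + min c' (γ / 2) * U ^ 3 := by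
            ring
        _ ≤ c' * x ^ (n + 1) + γ / 2 * (x ^ n * U ^ 2) := by
            apply add_le_add
            · exact mul_le_mul (min_le_left _ _) h4 (by positivity) hcpos.le
            · exact mul_le_mul (min_le_right _ _) h6 (by positivity) (by positivity)
        _ ≤ _ := by linarith
  · -- order three
    subst hdn
    have hg2 : (g (n + 2)).natDegree ≤ 0 := by
      rw [natDegree_le_iff_coeff_eq_zero]
      intro N hN
      by_cases hN1 : N = 1
      · subst hN1
        have := htop (n + 2) (by omega) (by omega)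
        have e : n + 3 - (n + 2) = 1 := by omega
        rwa [e] at this
      · apply coeff_eq_zero_of_natDegree_lt
        have := hdeg (n + 2) (by omega)
        omega
    have hg1 : (g (n + 1)).natDegree ≤ 1 := by
      rw [natDegree_le_iff_coeff_eq_zero]
      intro N hN
      by_cases hN1 : N = 2
      · subst hN1
        have := htop (n + 1) (by omega) (by omega)
        have e : n + 3 - (n + 1) = 2 := by omega
        rwa [e] at this
      · apply coeff_eq_zero_of_natDegree_lt
        have := hdeg (n + 1) (by omega)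
        omega
    set c' := (g (n + 2)).coeff 0 with hc'def
    set b := (g (n + 1)).coeff 1 with hb
    set c := (g (n + 1)).coeff 0 with hc
    have hc' : ∀ U, (g (n + 2)).eval U = c' := by
      intro U
      conv_lhs => rw [eq_C_of_natDegree_le_zero hg2]
      rw [eval_C]
    have hbc : ∀ U, (g (n + 1)).eval U = b * U + c := by
      intro U
      rw [Polynomial.eval_eq_sum_range' (Nat.lt_succ_of_le hg1)]
      simp only [Finset.sum_range_succ, Finset.sum_range_zero, pow_zero, pow_one]
      ring
    have hsum : ∀ x U : ℝ, ∑ j ∈ range (n + 3 + 1), x ^ j * (g j).eval U =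
        (∑ j ∈ range (n + 1), x ^ j * (g j).eval U) + x ^ (n + 1) * (b * U + c)
          + x ^ (n + 2) * c' := by
      intro x U
      rw [Finset.sum_range_succ, hgd', mul_zero, add_zero, Finset.sum_range_succ,
        Finset.sum_range_succ, hc', hbc]
    by_cases hc0 : c' = 0
    · -- the coefficient of `x^(n+1)`
      have hpos : ∀ m : ℕ, b * (m * w) + c ≠ 0 → 2 ≤ n + 1 ∧ 0 < b * (m * w) + c := by
        intro m hm
        have h1 := lineP_lead (d := n + 3) (g := g) (U := (m : ℝ) * w) (n + 1) (by omega) (by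
          intro j hj1 hj2
          obtain rfl | rfl : j = n + 2 ∨ j = n + 3 := by omega
          · rw [hc', hc0]
          · exact hgd' _) (by rw [hbc]; exact hm)
        have h2 := H m
        rw [h1.1, h1.2, hbc] at h2
        exact h2
      have hpos' : ∀ m : ℕ, 0 ≤ b * (m * w) + c := by
        intro m
        by_cases hm : b * (m * w) + c = 0
        · exact hm.ge
        · exact (hpos m hm).2.le
      have hc0' : 0 ≤ c := by
        have := hpos' 0
        simpa using this
      have hb0 : 0 ≤ b := by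
        by_contra hb0
        push Not at hb0
        obtain ⟨m, hm⟩ := exists_nat_gt (c / (-b * w))
        have hbw : 0 < -b * w := by nlinarith
        rw [div_lt_iff₀ hbw] at hm
        have := hpos' m
        nlinarith
      by_cases hb00 : b = 0
      · by_cases hc00 : c = 0
        · have h1 := (H 0).1
          have h2 : (lineP (n + 3) g (((0 : ℕ) : ℝ) * w)).natDegree ≤ n := by
            apply lineP_natDegree_le
            intro j hj1 hj2
            obtain rfl | rfl | rfl : j = n + 1 ∨ j = n + 2 ∨ j = n + 3 := by omega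
            · rw [hbc, hb00, hc00]
              ring
            · rw [hc', hc0]
            · exact hgd' _
          have hn2 : 2 ≤ n := le_trans h1 h2
          refine ⟨E, hE, γ / 4, by positivity, U0, ?_⟩
          intro x U h1 h2
          obtain ⟨hU1, hUx, hx1⟩ := hbase x U h1 h2
          have h3 := hlow x U h1 h2
          rw [hsum, hc0, hb00, hc00]
          have h4 : x ^ 2 ≤ x ^ n := pow_le_pow_right₀ hx1 hn2
          have h5 : x ^ 2 * U ^ 3 ≤ x ^ n * U ^ 3 := by gcongr
          have hU3 : 1 ≤ U ^ 3 := one_le_pow₀ hU1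
          have hx2 : 1 ≤ x ^ 2 := one_le_pow₀ hx1
          have h6 : x ^ 2 ≤ x ^ 2 * U ^ 3 := by nlinarith
          have h7 : U ^ 3 ≤ x ^ 2 * U ^ 3 := by nlinarith
          nlinarith
        · have h1 := (hpos 0 (by simpa using hc00)).1
          have hcpos : 0 < c := lt_of_le_of_ne hc0' (Ne.symm hc00)
          refine ⟨E, hE, min c (γ / 2), by positivity, U0, ?_⟩
          intro x U h1' h2
          obtain ⟨hU1, hUx, hx1⟩ := hbase x U h1' h2
          have h3 := hlow x U h1' h2
          rw [hsum, hc0, hb00]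
          have h4 : x ^ 2 ≤ x ^ (n + 1) := pow_le_pow_right₀ hx1 (by omega)
          have h5 : (1 : ℝ) ≤ x ^ n := one_le_pow₀ hx1
          have hU3 : 0 ≤ U ^ 3 := by positivity
          have h6 : U ^ 3 ≤ x ^ n * U ^ 3 := by nlinarith
          calc min c (γ / 2) * (x ^ 2 + U ^ 3)
              = min c (γ / 2) * x ^ 2 + min c (γ / 2) * U ^ 3 := by ring
            _ ≤ c * x ^ (n + 1) + γ / 2 * (x ^ n * U ^ 3) := by
                apply add_le_add
                · exact mul_le_mul (min_le_left _ _) h4 (by positivity) hcpos.le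
                · exact mul_le_mul (min_le_right _ _) h6 (by positivity) (by positivity)
            _ ≤ _ := by nlinarith
      · have hbpos : 0 < b := lt_of_le_of_ne hb0 (Ne.symm hb00)
        have hn1 : 2 ≤ n + 1 := by
          refine (hpos 1 ?_).1
          push_cast
          have : 0 < b * (1 * w) := by positivity
          linarith
        refine ⟨E, hE, b / 2, by positivity, U0, ?_⟩
        intro x U h1' h2
        obtain ⟨hU1, hUx, hx1⟩ := hbase x U h1' h2
        have h3 := hlow x U h1' h2
        rw [hsum, hc0]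
        have h4 : x ^ 2 ≤ x ^ (n + 1) := pow_le_pow_right₀ hx1 (by omega)
        have h5 : (0 : ℝ) ≤ γ / 2 * (x ^ n * U ^ 3) := by positivity
        have h6 : x ^ 2 * U ≤ x ^ (n + 1) * U := by gcongr
        have h7 : (0 : ℝ) ≤ x ^ (n + 1) * c := by positivity
        have h8 : x ^ 2 ≤ x ^ 2 * U := by nlinarith [sq_nonneg x]
        have h9 : U ^ 3 ≤ x ^ 2 * U := by
          have : U ^ 2 ≤ x ^ 2 := by gcongr
          nlinarith
        have h10 : b / 2 * (x ^ 2 + U ^ 3) ≤ b * (x ^ 2 * U) := by nlinarith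
        have h11 : b * (x ^ 2 * U) ≤ b * (x ^ (n + 1) * U) := by gcongr
        nlinarith
    · have h1 := lineP_lead (d := n + 3) (g := g) (U := ((0 : ℕ) : ℝ) * w) (n + 2) (by omega) (by
        intro j hj1 hj2
        obtain rfl : j = n + 3 := by omega
        exact hgd' _) (by rw [hc']; exact hc0)
      have hcpos : 0 < c' := by
        have h2 := (H 0).2
        rw [h1.2, hc'] at h2
        exact h2
      -- shrink the region
      refine ⟨min E (c' / (4 * (|b| + 1))), by positivity, min (c' / 2) (γ / 2), by positivity,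
        max U0 (4 * |c| / c'), ?_⟩
      intro x U h1' h2'
      have h1'' : U0 ≤ U := le_trans (le_max_left _ _) h1'
      have hx0 : 0 ≤ x := by
        by_contra hx
        push Not at hx
        have : 0 < min E (c' / (4 * (|b| + 1))) := by positivity
        have : 1 ≤ U := le_trans hU0 h1''
        nlinarith
      have h2'' : U ≤ E * x := by
        refine le_trans h2' ?_
        gcongr
        exact min_le_left _ _
      obtain ⟨hU1, hUx, hx1⟩ := hbase x U h1'' h2''
      have h3 := hlow x U h1'' h2''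
      rw [hsum]
      have hbU : |b| * U ≤ c' / 4 * x := by
        have e1 : U ≤ c' / (4 * (|b| + 1)) * x := by
          refine le_trans h2' ?_
          gcongr
          exact min_le_right _ _
        calc |b| * U ≤ (|b| + 1) * (c' / (4 * (|b| + 1)) * x) := by
              gcongr
              linarith
          _ = c' / 4 * x := by field_simp
      have hcx : |c| ≤ c' / 4 * x := by
        have e1 : 4 * |c| / c' ≤ x := le_trans (le_trans (le_max_right _ _) h1') hUx
        rw [div_le_iff₀ hcpos] at e1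
        linarith
      have e2 : -(c' / 2 * x) ≤ b * U + c := by
        have a1 := neg_abs_le b
        have a2 := neg_abs_le c
        have a3 : -(|b| * U) ≤ b * U := by nlinarith
        linarith
      have e3 : -(c' / 2 * x ^ (n + 2)) ≤ x ^ (n + 1) * (b * U + c) := by
        have a4 : (0 : ℝ) ≤ x ^ (n + 1) := by positivity
        calc -(c' / 2 * x ^ (n + 2)) = x ^ (n + 1) * (-(c' / 2 * x)) := by ring
          _ ≤ x ^ (n + 1) * (b * U + c) := by gcongr
      have h4 : x ^ 2 ≤ x ^ (n + 2) := pow_le_pow_right₀ hx1 (by omega)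
      have h5 : (1 : ℝ) ≤ x ^ n := one_le_pow₀ hx1
      have hU3 : 0 ≤ U ^ 3 := by positivity
      have h6 : U ^ 3 ≤ x ^ n * U ^ 3 := by nlinarith
      calc min (c' / 2) (γ / 2) * (x ^ 2 + U ^ 3)
          = min (c' / 2) (γ / 2) * x ^ 2 + min (c' / 2) (γ / 2) * U ^ 3 := by ring
        _ ≤ c' / 2 * x ^ (n + 2) + γ / 2 * (x ^ n * U ^ 3) := by
            apply add_le_add
            · exact mul_le_mul (min_le_left _ _) h4 (by positivity) (by positivity)
            · exact mul_le_mul (min_le_right _ _) h6 (by positivity) (by positivity)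
        _ ≤ _ := by linarith

end PP72
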