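import Mathlib

/-!
Functions with expansions in powers of `z` whose coefficients are polynomials in `c` over a field
`K`, up to an error `O((1 + c) ^ M z ^ n)`.
-/

open Polynomial Finset

namespace PP72

section Temp

variable {ι : Type*}

/-- tempered functions: bounded by `C (1 + c) ^ M` -/
def Temp (B : Set ι) (c : ι → ℝ) (φ : ι → ℝ) : Prop :=
  ∃ C : ℝ, 0 ≤ C ∧ ∃ M : ℕ, ∀ P ∈ B, |φ P| ≤ C * (1 + c P) ^ M

variable {B : Set ι} {z c φ ψ : ι → ℝ}

theorem Temp.const (a : ℝ) (_hc : ∀ P ∈ B, 0 ≤ c P) : Temp B c fun _ => a :=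
  ⟨|a|, abs_nonneg a, 0, fun P hP => by simp⟩

theorem Temp.self (hc : ∀ P ∈ B, 0 ≤ c P) : Temp B c c :=
  ⟨1, zero_le_one, 1, fun P hP => by
    have := hc P hP
    rw [abs_of_nonneg this, pow_one]
    linarith⟩

theorem Temp.of_bdd (C : ℝ) (hC : ∀ P ∈ B, |φ P| ≤ C) (_hc : ∀ P ∈ B, 0 ≤ c P) : Temp B c φ :=
  ⟨|C|, abs_nonneg C, 0, fun P hP => by
    rw [pow_zero, mul_one]
    exact (hC P hP).trans (le_abs_self C)⟩

theorem Temp.add (hφ : Temp B c φ) (hψ : Temp B c ψ) (hc : ∀ P ∈ B, 0 ≤ c P) :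
    Temp B c fun P => φ P + ψ P := by
  obtain ⟨C, hC, M, h1⟩ := hφ
  obtain ⟨C', hC', M', h2⟩ := hψ
  refine ⟨C + C', by positivity, M + M', fun P hP => ?_⟩
  have h0 := hc P hP
  have h1c : 1 ≤ 1 + c P := by linarith
  have e1 : (1 + c P) ^ M ≤ (1 + c P) ^ (M + M') := pow_le_pow_right₀ h1c (by omega)
  have e2 : (1 + c P) ^ M' ≤ (1 + c P) ^ (M + M') := pow_le_pow_right₀ h1c (by omega)
  calc |φ P + ψ P| ≤ |φ P| + |ψ P| := abs_add_le _ _
    _ ≤ C * (1 + c P) ^ M + C' * (1 + c P) ^ M' := add_le_add (h1 P hP) (h2 P hP)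
    _ ≤ C * (1 + c P) ^ (M + M') + C' * (1 + c P) ^ (M + M') := by gcongr
    _ = _ := by ring

theorem Temp.mul (hφ : Temp B c φ) (hψ : Temp B c ψ) (hc : ∀ P ∈ B, 0 ≤ c P) :
    Temp B c fun P => φ P * ψ P := by
  obtain ⟨C, hC, M, h1⟩ := hφ
  obtain ⟨C', hC', M', h2⟩ := hψ
  refine ⟨C * C', by positivity, M + M', fun P hP => ?_⟩
  have h0 := hc P hP
  rw [abs_mul, pow_add]
  calc |φ P| * |ψ P| ≤ (C * (1 + c P) ^ M) * (C' * (1 + c P) ^ M') :=
        mul_le_mul (h1 P hP) (h2 P hP) (abs_nonneg _) (by positivity)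
    _ = _ := by ring

theorem Temp.congr (hφ : Temp B c φ) (h : ∀ P ∈ B, ψ P = φ P) : Temp B c ψ := by
  obtain ⟨C, hC, M, h1⟩ := hφ
  exact ⟨C, hC, M, fun P hP => by rw [h P hP]; exact h1 P hP⟩

theorem Temp.sum {κ : Type*} (s : Finset κ) (f : κ → ι → ℝ) (h : ∀ k ∈ s, Temp B c (f k))
    (hc : ∀ P ∈ B, 0 ≤ c P) : Temp B c fun P => ∑ k ∈ s, f k P := by
  classical
  induction s using Finset.induction_on with
  | empty => exact (Temp.const 0 hc).congr fun P _ => by simp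
  | insert a s ha ih =>
    have h1 := (h a (Finset.mem_insert_self _ _)).add
      (ih fun k hk => h k (Finset.mem_insert_of_mem hk)) hc
    exact h1.congr fun P _ => by rw [Finset.sum_insert ha]

theorem Temp.pow (hφ : Temp B c φ) (n : ℕ) (hc : ∀ P ∈ B, 0 ≤ c P) :
    Temp B c fun P => φ P ^ n := by
  induction n with
  | zero => exact (Temp.const 1 hc).congr fun P _ => by simp
  | succ n ih => exact (ih.mul hφ hc).congr fun P _ => by rw [pow_succ]

end Temp

section Phi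

variable {K : Type*} [Field K] [Algebra K ℝ]

/-- evaluation at `z` (outer variable) and `c` (inner variable) -/
noncomputable def Phi (K : Type*) [Field K] [Algebra K ℝ] (z c : ℝ) : K[X][X] →+* ℝ :=
  eval₂RingHom (eval₂RingHom (algebraMap K ℝ) c) z

theorem Phi_X (z c : ℝ) : Phi K z c X = z := by
  simp [Phi]

theorem Phi_C (z c : ℝ) (q : K[X]) : Phi K z c (C q) = eval₂ (algebraMap K ℝ) c q := by
  simp [Phi]

theorem Phi_C_X (z c : ℝ) : Phi K z c (C X) = c := by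
  simp [Phi]

theorem Phi_C_C (z c : ℝ) (a : K) : Phi K z c (C (C a)) = algebraMap K ℝ a := by
  simp [Phi]

variable {ι : Type*} {B : Set ι} {z c φ ψ : ι → ℝ}

theorem temp_inner (q : K[X]) (hc : ∀ P ∈ B, 0 ≤ c P) :
    Temp B c fun P => eval₂ (algebraMap K ℝ) (c P) q := by
  induction q using Polynomial.induction_on' with
  | add p q hp hq => exact (hp.add hq hc).congr fun P _ => by rw [eval₂_add]
  | monomial n a =>
    exact ((Temp.const (algebraMap K ℝ a) hc).mul ((Temp.self hc).pow n hc) hc).congr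
      fun P _ => by rw [eval₂_monomial]

theorem temp_Phi (p : K[X][X]) (hz : ∀ P ∈ B, 0 ≤ z P ∧ z P ≤ 1) (hc : ∀ P ∈ B, 0 ≤ c P) :
    Temp B c fun P => Phi K (z P) (c P) p := by
  induction p using Polynomial.induction_on' with
  | add p q hp hq => exact (hp.add hq hc).congr fun P _ => by rw [map_add]
  | monomial n a =>
    have hzt : Temp B c z := Temp.of_bdd 1 (fun P hP => by
      rw [abs_of_nonneg (hz P hP).1]
      exact (hz P hP).2) hc
    refine ((temp_inner a hc).mul (hzt.pow n hc) hc).congr fun P _ => ?_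
    rw [← C_mul_X_pow_eq_monomial, map_mul, map_pow, Phi_X, Phi_C]

/-- expansions up to order `n` -/
def HasExp (K : Type*) [Field K] [Algebra K ℝ] (B : Set ι) (z c : ι → ℝ) (n : ℕ)
    (φ : ι → ℝ) : Prop :=
  ∃ p : K[X][X], ∃ e : ι → ℝ, Temp B c e ∧ ∀ P ∈ B, φ P = Phi K (z P) (c P) p + e P * z P ^ n

variable {n : ℕ}

theorem HasExp.congr (hφ : HasExp K B z c n φ) (h : ∀ P ∈ B, ψ P = φ P) :
    HasExp K B z c n ψ := by
  obtain ⟨p, e, he, h1⟩ := hφ
  exact ⟨p, e, he, fun P hP => by rw [h P hP]; exact h1 P hP⟩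

theorem HasExp.of_poly (p : K[X][X]) (hc : ∀ P ∈ B, 0 ≤ c P) :
    HasExp K B z c n fun P => Phi K (z P) (c P) p :=
  ⟨p, fun _ => 0, Temp.const 0 hc, fun P _ => by ring⟩

theorem HasExp.const (a : K) (hc : ∀ P ∈ B, 0 ≤ c P) :
    HasExp K B z c n fun _ => algebraMap K ℝ a :=
  (HasExp.of_poly (C (C a)) hc).congr fun P _ => by rw [Phi_C_C]

theorem HasExp.self_z (hc : ∀ P ∈ B, 0 ≤ c P) : HasExp K B z c n z :=
  (HasExp.of_poly X hc).congr fun P _ => by rw [Phi_X]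

theorem HasExp.self_c (hc : ∀ P ∈ B, 0 ≤ c P) : HasExp K B z c n c :=
  (HasExp.of_poly (C X) hc).congr fun P _ => by rw [Phi_C_X]

theorem HasExp.zero (hφ : Temp B c φ) : HasExp K B z c 0 φ :=
  ⟨0, φ, hφ, fun P _ => by simp⟩

theorem HasExp.add (hφ : HasExp K B z c n φ) (hψ : HasExp K B z c n ψ)
    (hc : ∀ P ∈ B, 0 ≤ c P) : HasExp K B z c n fun P => φ P + ψ P := by
  obtain ⟨p, e, he, h1⟩ := hφ
  obtain ⟨p', e', he', h2⟩ := hψ
  refine ⟨p + p', _, he.add he' hc, fun P hP => ?_⟩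
  beta_reduce
  rw [h1 P hP, h2 P hP, map_add]
  ring

theorem HasExp.mul (hφ : HasExp K B z c n φ) (hψ : HasExp K B z c n ψ)
    (hz : ∀ P ∈ B, 0 ≤ z P ∧ z P ≤ 1) (hc : ∀ P ∈ B, 0 ≤ c P) :
    HasExp K B z c n fun P => φ P * ψ P := by
  obtain ⟨p, e, he, h1⟩ := hφ
  obtain ⟨p', e', he', h2⟩ := hψ
  have hzt : Temp B c z := Temp.of_bdd 1 (fun P hP => by
    rw [abs_of_nonneg (hz P hP).1]
    exact (hz P hP).2) hc
  have k1 := (temp_Phi p hz hc).mul he' hc
  have k2 := (temp_Phi p' hz hc).mul he hc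
  have k3 := (he.mul he' hc).mul (hzt.pow n hc) hc
  refine ⟨p * p', _, (k1.add k2 hc).add k3 hc, fun P hP => ?_⟩
  beta_reduce
  rw [h1 P hP, h2 P hP, map_mul]
  ring

theorem HasExp.pow (hφ : HasExp K B z c n φ) (m : ℕ)
    (hz : ∀ P ∈ B, 0 ≤ z P ∧ z P ≤ 1) (hc : ∀ P ∈ B, 0 ≤ c P) :
    HasExp K B z c n fun P => φ P ^ m := by
  induction m with
  | zero => exact (HasExp.const 1 hc).congr fun P _ => by simp
  | succ m ih => exact (ih.mul hφ hz hc).congr fun P _ => by rw [pow_succ]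

theorem HasExp.sum {κ : Type*} (s : Finset κ) (f : κ → ι → ℝ)
    (h : ∀ k ∈ s, HasExp K B z c n (f k)) (hc : ∀ P ∈ B, 0 ≤ c P) :
    HasExp K B z c n fun P => ∑ k ∈ s, f k P := by
  classical
  induction s using Finset.induction_on with
  | empty => exact (HasExp.const 0 hc).congr fun P _ => by simp
  | insert a s ha ih =>
    have h1 := (h a (Finset.mem_insert_self _ _)).add
      (ih fun k hk => h k (Finset.mem_insert_of_mem hk)) hc
    exact h1.congr fun P _ => by rw [Finset.sum_insert ha]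

theorem HasExp.zmul (hφ : HasExp K B z c n φ) : HasExp K B z c (n + 1) fun P => z P * φ P := by
  obtain ⟨p, e, he, h1⟩ := hφ
  refine ⟨X * p, e, he, fun P hP => ?_⟩
  beta_reduce
  rw [h1 P hP, map_mul, Phi_X, pow_succ]
  ring

theorem HasExp.aeval (hφ : HasExp K B z c n φ) (g : K[X])
    (hz : ∀ P ∈ B, 0 ≤ z P ∧ z P ≤ 1) (hc : ∀ P ∈ B, 0 ≤ c P) :
    HasExp K B z c n fun P => Polynomial.aeval (φ P) g := by
  induction g using Polynomial.induction_on' with
  | add p q hp hq => exact (hp.add hq hc).congr fun P _ => by rw [map_add]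
  | monomial m a =>
    exact ((HasExp.const a hc).mul (hφ.pow m hz hc) hz hc).congr
      fun P _ => by rw [aeval_monomial]

/-- low coefficients zero -/
theorem Phi_low (p : K[X][X]) (m : ℕ) (hp : ∀ i < m, p.coeff i = 0) : ∃ q : K[X][X],
    ∀ z c : ℝ, Phi K z c p = z ^ m * Phi K z c q := by
  obtain ⟨q, hq⟩ := X_pow_dvd_iff.2 hp
  refine ⟨q, fun z c => ?_⟩
  rw [hq, map_mul, map_pow, Phi_X]

end Phi

end PP72
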