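import Mathlib

/-!
# PP72/RgLin

Integral relations between polynomials over a number field, killing the first coefficients
(a linear algebra count).
-/

open Polynomial

namespace PP72

theorem rg_relation {K : Type*} [Field K] [Algebra ℚ K] [FiniteDimensional ℚ K] {ι : Type*}
    [Fintype ι] (m : ℕ) (hm : Module.finrank ℚ K * m < Fintype.card ι) (p : ι → K[X][X]) :
    ∃ r : ι → ℤ[X], r ≠ 0 ∧
      ∀ i < m, (∑ s, C ((r s).map (Int.castRingHom K)) * p s).coeff i = 0 := by
  classical
  -- bound for the degrees
  set E : ℕ := (∑ s, ∑ i ∈ Finset.range m, ((p s).coeff i).natDegree) + 1 with hE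
  have hdeg : ∀ s, ∀ i < m, ((p s).coeff i).natDegree < E := by
    intro s i hi
    have h1 : ((p s).coeff i).natDegree ≤ ∑ i ∈ Finset.range m, ((p s).coeff i).natDegree :=
      Finset.single_le_sum (f := fun i => ((p s).coeff i).natDegree) (fun _ _ => Nat.zero_le _)
        (Finset.mem_range.2 hi)
    have h2 : (∑ i ∈ Finset.range m, ((p s).coeff i).natDegree) ≤
        ∑ s, ∑ i ∈ Finset.range m, ((p s).coeff i).natDegree :=
      Finset.single_le_sum (f := fun s => ∑ i ∈ Finset.range m, ((p s).coeff i).natDegree)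
        (fun _ _ => Nat.zero_le _) (Finset.mem_univ s)
    omega
  set k := Module.finrank ℚ K with hk
  set D : ℕ := k * m * E + 1 with hD
  -- the linear map
  let Φ : (ι → Fin D → ℚ) →ₗ[ℚ] (Fin m → Fin (D + E) → K) :=
    { toFun := fun x i n => ∑ s, ∑ j : Fin D, algebraMap ℚ K (x s j) *
        (((X : K[X]) ^ (j : ℕ) * (p s).coeff (i : ℕ)).coeff (n : ℕ))
      map_add' := by
        intro x y
        funext i n
        simp only [Pi.add_apply, map_add, add_mul, Finset.sum_add_distrib]
      map_smul' := by
        intro c x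
        funext i n
        simp only [Pi.smul_apply, RingHom.id_apply, smul_eq_mul, map_mul, Algebra.smul_def,
          Finset.mul_sum, mul_assoc] }
  have hlt : Module.finrank ℚ (Fin m → Fin (D + E) → K) < Module.finrank ℚ (ι → Fin D → ℚ) := by
    rw [Module.finrank_pi_fintype, Module.finrank_pi_fintype]
    simp only [Module.finrank_pi_fintype, Finset.sum_const, Finset.card_univ, Fintype.card_fin,
      smul_eq_mul, Module.finrank_self, mul_one]
    rw [← hk]
    have h1 : (k * m + 1) * D ≤ Fintype.card ι * D := Nat.mul_le_mul_right _ hm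
    have h2 : m * ((D + E) * k) = k * m * D + k * m * E := by ring
    have h3 : (k * m + 1) * D = k * m * D + D := by ring
    omega
  have hker : LinearMap.ker Φ ≠ ⊥ := LinearMap.ker_ne_bot_of_finrank_lt hlt
  obtain ⟨x, hx, hx0⟩ := (Submodule.ne_bot_iff _).1 hker
  rw [LinearMap.mem_ker] at hx
  -- clear denominators
  obtain ⟨b, hb⟩ := IsLocalization.exist_integer_multiples (nonZeroDivisors ℤ)
    (Finset.univ : Finset (ι × Fin D)) (fun t => x t.1 t.2)
  have hb0 : (b : ℤ) ≠ 0 := nonZeroDivisors.coe_ne_zero b
  have hb' : ∀ s j, ∃ y : ℤ, (y : ℚ) = (b : ℤ) * x s j := by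
    intro s j
    obtain ⟨y, hy⟩ := hb (s, j) (Finset.mem_univ _)
    refine ⟨y, ?_⟩
    simpa [Algebra.smul_def] using hy
  choose y hy using hb'
  let r : ι → ℤ[X] := fun s => ∑ j : Fin D, C (y s j) * X ^ (j : ℕ)
  refine ⟨r, ?_, ?_⟩
  · obtain ⟨s, j, hsj⟩ : ∃ s j, x s j ≠ 0 := by
      by_contra hcon
      push Not at hcon
      exact hx0 (by funext s j; exact hcon s j)
    intro hr
    have h1 : (r s).coeff (j : ℕ) = y s j := by
      simp only [r, finsetSum_coeff, coeff_C_mul, coeff_X_pow]
      rw [Finset.sum_eq_single j]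
      · simp
      · intro l _ hl
        rw [if_neg, mul_zero]
        intro h
        exact hl (Fin.ext h.symm)
      · intro h
        exact absurd (Finset.mem_univ j) h
    rw [hr] at h1
    simp only [Pi.zero_apply, coeff_zero] at h1
    have h2 := hy s j
    rw [← h1, Int.cast_zero] at h2
    rcases mul_eq_zero.1 h2.symm with h3 | h3
    · exact hb0 (by exact_mod_cast h3)
    · exact hsj h3
  · intro i hi
    have h1 : (∑ s, C ((r s).map (Int.castRingHom K)) * p s).coeff i =
        ∑ s, (r s).map (Int.castRingHom K) * (p s).coeff i := by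
      simp only [finsetSum_coeff, coeff_C_mul]
    rw [h1]
    ext n
    have h2 : (∑ s, (r s).map (Int.castRingHom K) * (p s).coeff i).coeff n =
        ∑ s, ∑ j : Fin D, (y s j : K) * (((X : K[X]) ^ (j : ℕ) * (p s).coeff i).coeff n) := by
      rw [finsetSum_coeff]
      refine Finset.sum_congr rfl fun s _ => ?_
      simp only [r, Polynomial.map_sum, Polynomial.map_mul, Polynomial.map_C, Polynomial.map_pow,
        Polynomial.map_X, Finset.sum_mul, finsetSum_coeff]
      refine Finset.sum_congr rfl fun j _ => ?_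
      rw [mul_assoc, coeff_C_mul]
      simp
    rw [h2, coeff_zero]
    by_cases hn : n < D + E
    · have h3 := congrFun (congrFun hx ⟨i, hi⟩) ⟨n, hn⟩
      have h4 : ∑ s, ∑ j : Fin D, algebraMap ℚ K (x s j) * (((X : K[X]) ^ (j : ℕ) *
        (p s).coeff i).coeff n) = 0 := h3
      have h5 : ∑ s, ∑ j : Fin D, (y s j : K) * (((X : K[X]) ^ (j : ℕ) *
          (p s).coeff i).coeff n) = ((b : ℤ) : K) * ∑ s, ∑ j : Fin D, algebraMap ℚ K (x s j) *
          (((X : K[X]) ^ (j : ℕ) * (p s).coeff i).coeff n) := by
        rw [Finset.mul_sum]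
        refine Finset.sum_congr rfl fun s _ => ?_
        rw [Finset.mul_sum]
        refine Finset.sum_congr rfl fun j _ => ?_
        have h6 : (y s j : K) = ((b : ℤ) : K) * algebraMap ℚ K (x s j) := by
          have := congrArg (algebraMap ℚ K) (hy s j)
          rw [map_mul] at this
          simpa using this
        rw [h6, mul_assoc]
      rw [h5, h4, mul_zero]
    · refine Finset.sum_eq_zero fun s _ => Finset.sum_eq_zero fun j _ => ?_
      rw [coeff_X_pow_mul']
      have hj := j.2
      rw [if_pos (by omega), coeff_eq_zero_of_natDegree_lt, mul_zero]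
      have := hdeg s i hi
      omega

end PP72
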