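import Pool.Agent.PP72.RgExp
import Pool.Agent.PP72.RgLin

/-!
Expansions in powers of `z` with coefficients in the module spanned by `1, u, …, u ^ (ν - 1)` over
the polynomials in `z` and `c`.
-/

open Polynomial Finset

namespace PP72

variable {K : Type*} [Field K] [Algebra K ℝ] {ι : Type*} {B : Set ι} {z c u φ ψ : ι → ℝ}
  {ν n : ℕ}

omit [Algebra K ℝ] in
/-- more unknowns than equations -/
theorem rg_relation' [Algebra ℚ K] [FiniteDimensional ℚ K] {σ κ : Type*} [Fintype σ] [Fintype κ]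
    (hm : Module.finrank ℚ K * Fintype.card κ < Fintype.card σ) (p : σ → κ → K[X]) :
    ∃ r : σ → ℤ[X], r ≠ 0 ∧ ∀ k, ∑ s, (r s).map (Int.castRingHom K) * p s k = 0 := by
  classical
  set E := Fintype.equivFin κ with hE
  obtain ⟨r, hr, h1⟩ := rg_relation (Fintype.card κ) hm
    (fun s => ∑ k, C (p s k) * X ^ (E k : ℕ))
  refine ⟨r, hr, fun k => ?_⟩
  have h2 := h1 (E k) (E k).2
  rw [finsetSum_coeff] at h2
  rw [← h2]
  apply Finset.sum_congr rfl
  intro s _
  rw [coeff_C_mul, finsetSum_coeff]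
  congr 1
  simp only [coeff_C_mul, coeff_X_pow]
  rw [Finset.sum_eq_single k]
  · simp
  · intro b _ hb
    rw [if_neg, mul_zero]
    intro h3
    exact hb (E.injective (Fin.ext h3.symm))
  · intro h3
    exact absurd (Finset.mem_univ k) h3

/-- expansions in the module spanned by `1, u, …, u ^ (ν - 1)` -/
def HasR (K : Type*) [Field K] [Algebra K ℝ] (B : Set ι) (z c u : ι → ℝ) (ν n : ℕ)
    (φ : ι → ℝ) : Prop :=
  ∃ p : ℕ → K[X][X], ∃ e : ι → ℝ, Temp B c e ∧ ∀ P ∈ B,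
    φ P = ∑ i ∈ range ν, Phi K (z P) (c P) (p i) * u P ^ i + e P * z P ^ n

theorem HasR.congr (hφ : HasR K B z c u ν n φ) (h : ∀ P ∈ B, ψ P = φ P) :
    HasR K B z c u ν n ψ := by
  obtain ⟨p, e, he, h1⟩ := hφ
  exact ⟨p, e, he, fun P hP => by rw [h P hP]; exact h1 P hP⟩

theorem HasR.zero (hφ : Temp B c φ) : HasR K B z c u ν 0 φ :=
  ⟨fun _ => 0, φ, hφ, fun P _ => by simp⟩

theorem HasR.err {e : ι → ℝ} (he : Temp B c e) : HasR K B z c u ν n fun P => e P * z P ^ n :=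
  ⟨fun _ => 0, e, he, fun P _ => by simp⟩

theorem HasR.add (hφ : HasR K B z c u ν n φ) (hψ : HasR K B z c u ν n ψ)
    (hc : ∀ P ∈ B, 0 ≤ c P) : HasR K B z c u ν n fun P => φ P + ψ P := by
  obtain ⟨p, e, he, h1⟩ := hφ
  obtain ⟨p', e', he', h2⟩ := hψ
  refine ⟨fun i => p i + p' i, _, he.add he' hc, fun P hP => ?_⟩
  beta_reduce
  rw [h1 P hP, h2 P hP]
  simp only [map_add, add_mul, Finset.sum_add_distrib]
  ring

theorem HasR.smul (hφ : HasR K B z c u ν n φ) (q : K[X][X])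
    (hz : ∀ P ∈ B, 0 ≤ z P ∧ z P ≤ 1) (hc : ∀ P ∈ B, 0 ≤ c P) :
    HasR K B z c u ν n fun P => Phi K (z P) (c P) q * φ P := by
  obtain ⟨p, e, he, h1⟩ := hφ
  refine ⟨fun i => q * p i, _, (temp_Phi q hz hc).mul he hc, fun P hP => ?_⟩
  beta_reduce
  rw [h1 P hP, mul_add, Finset.mul_sum]
  simp only [map_mul, mul_assoc]

theorem HasR.neg (hφ : HasR K B z c u ν n φ) (hz : ∀ P ∈ B, 0 ≤ z P ∧ z P ≤ 1)
    (hc : ∀ P ∈ B, 0 ≤ c P) : HasR K B z c u ν n fun P => -φ P :=
  (hφ.smul (-1) hz hc).congr fun P _ => by simp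

theorem HasR.sum {κ : Type*} (s : Finset κ) (f : κ → ι → ℝ)
    (h : ∀ k ∈ s, HasR K B z c u ν n (f k)) (hc : ∀ P ∈ B, 0 ≤ c P) :
    HasR K B z c u ν n fun P => ∑ k ∈ s, f k P := by
  classical
  induction s using Finset.induction_on with
  | empty => exact (HasR.err (Temp.const 0 hc)).congr fun P _ => by simp
  | insert a s ha ih =>
    have h1 := (h a (Finset.mem_insert_self _ _)).add
      (ih fun k hk => h k (Finset.mem_insert_of_mem hk)) hc
    exact h1.congr fun P _ => by rw [Finset.sum_insert ha]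

theorem HasR.zmul (hφ : HasR K B z c u ν n φ) :
    HasR K B z c u ν (n + 1) fun P => z P * φ P := by
  obtain ⟨p, e, he, h1⟩ := hφ
  refine ⟨fun i => X * p i, e, he, fun P hP => ?_⟩
  beta_reduce
  rw [h1 P hP, mul_add, Finset.mul_sum, pow_succ]
  simp only [map_mul, Phi_X, mul_assoc]
  ring

theorem HasR.temp (hφ : HasR K B z c u ν n φ) (hu : Temp B c u)
    (hz : ∀ P ∈ B, 0 ≤ z P ∧ z P ≤ 1) (hc : ∀ P ∈ B, 0 ≤ c P) : Temp B c φ := by
  obtain ⟨p, e, he, h1⟩ := hφ
  have hzt : Temp B c z := Temp.of_bdd 1 (fun P hP => by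
    rw [abs_of_nonneg (hz P hP).1]
    exact (hz P hP).2) hc
  have k1 : Temp B c fun P => ∑ i ∈ range ν, Phi K (z P) (c P) (p i) * u P ^ i :=
    Temp.sum _ _ (fun i _ => (temp_Phi (p i) hz hc).mul (hu.pow i hc) hc) hc
  exact (k1.add (he.mul (hzt.pow n hc) hc) hc).congr h1

theorem HasR.pow_lt {i : ℕ} (hi : i < ν) (hc : ∀ P ∈ B, 0 ≤ c P) :
    HasR K B z c u ν n fun P => u P ^ i := by
  classical
  refine ⟨fun j => if j = i then 1 else 0, fun _ => 0, Temp.const 0 hc, fun P _ => ?_⟩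
  rw [Finset.sum_eq_single i]
  · simp
  · intro b _ hb
    simp [hb]
  · intro h
    exact absurd (mem_range.2 hi) h

/-- all powers -/
theorem HasR.pow_all (h : HasR K B z c u ν n fun P => u P ^ ν) (hu : Temp B c u)
    (hz : ∀ P ∈ B, 0 ≤ z P ∧ z P ≤ 1) (hc : ∀ P ∈ B, 0 ≤ c P) (j : ℕ) :
    HasR K B z c u ν n fun P => u P ^ j := by
  induction j with
  | zero =>
    rcases Nat.eq_zero_or_pos ν with h0 | h0
    · subst h0
      exact h
    · exact HasR.pow_lt h0 hc
  | succ j ih =>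
    obtain ⟨p, e, he, h1⟩ := ih
    have k1 : HasR K B z c u ν n fun P => ∑ i ∈ range ν, Phi K (z P) (c P) (p i) *
        u P ^ (i + 1) := by
      apply HasR.sum _ _ _ hc
      intro i hi
      have hi' := mem_range.1 hi
      rcases Nat.lt_or_ge (i + 1) ν with h2 | h2
      · exact (HasR.pow_lt h2 hc).smul (p i) hz hc
      · obtain rfl : ν = i + 1 := by omega
        exact h.smul (p i) hz hc
    have k2 : HasR K B z c u ν n fun P => (e P * u P) * z P ^ n := HasR.err (he.mul hu hc)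
    refine (k1.add k2 hc).congr fun P hP => ?_
    have h3 := h1 P hP
    beta_reduce at h3
    rw [pow_succ, h3, add_mul, Finset.sum_mul]
    congr 1
    · apply Finset.sum_congr rfl
      intro i _
      ring
    · ring

theorem HasR.mul (hφ : HasR K B z c u ν n φ) (hψ : HasR K B z c u ν n ψ)
    (h : HasR K B z c u ν n fun P => u P ^ ν) (hu : Temp B c u)
    (hz : ∀ P ∈ B, 0 ≤ z P ∧ z P ≤ 1) (hc : ∀ P ∈ B, 0 ≤ c P) :
    HasR K B z c u ν n fun P => φ P * ψ P := by
  have hφt := hφ.temp hu hz hc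
  obtain ⟨p, e, he, h1⟩ := hφ
  obtain ⟨p', e', he', h2⟩ := hψ
  have k1 : HasR K B z c u ν n fun P => ∑ i ∈ range ν, ∑ j ∈ range ν,
      Phi K (z P) (c P) (p i * p' j) * u P ^ (i + j) := by
    apply HasR.sum _ _ _ hc
    intro i _
    apply HasR.sum _ _ _ hc
    intro j _
    exact (h.pow_all hu hz hc (i + j)).smul _ hz hc
  have k2 : Temp B c fun P => ∑ j ∈ range ν, Phi K (z P) (c P) (p' j) * u P ^ j :=
    Temp.sum _ _ (fun i _ => (temp_Phi (p' i) hz hc).mul (hu.pow i hc) hc) hc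
  have k3 : HasR K B z c u ν n fun P => (e P * ∑ j ∈ range ν, Phi K (z P) (c P) (p' j) *
      u P ^ j) * z P ^ n := HasR.err (he.mul k2 hc)
  have k4 : HasR K B z c u ν n fun P => (φ P * e' P) * z P ^ n := HasR.err (hφt.mul he' hc)
  refine ((k1.add k3 hc).add k4 hc).congr fun P hP => ?_
  have e1 : φ P * ψ P = φ P * (∑ i ∈ range ν, Phi K (z P) (c P) (p' i) * u P ^ i) +
      φ P * e' P * z P ^ n := by
    rw [h2 P hP]
    ring
  rw [e1, h1 P hP]
  have e2 : (∑ i ∈ range ν, Phi K (z P) (c P) (p i) * u P ^ i) *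
      (∑ i ∈ range ν, Phi K (z P) (c P) (p' i) * u P ^ i) =
      ∑ i ∈ range ν, ∑ j ∈ range ν, Phi K (z P) (c P) (p i * p' j) * u P ^ (i + j) := by
    rw [Finset.sum_mul_sum]
    apply Finset.sum_congr rfl
    intro i _
    apply Finset.sum_congr rfl
    intro j _
    rw [map_mul, pow_add]
    ring
  rw [← e2]
  ring

theorem HasR.one (h : HasR K B z c u ν n fun P => u P ^ ν) (hu : Temp B c u)
    (hz : ∀ P ∈ B, 0 ≤ z P ∧ z P ≤ 1) (hc : ∀ P ∈ B, 0 ≤ c P) :
    HasR K B z c u ν n fun _ => 1 :=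
  (h.pow_all hu hz hc 0).congr fun P _ => by simp

theorem HasR.poly (h : HasR K B z c u ν n fun P => u P ^ ν) (hu : Temp B c u)
    (hz : ∀ P ∈ B, 0 ≤ z P ∧ z P ≤ 1) (hc : ∀ P ∈ B, 0 ≤ c P) (q : K[X][X]) :
    HasR K B z c u ν n fun P => Phi K (z P) (c P) q :=
  ((h.one hu hz hc).smul q hz hc).congr fun P _ => by rw [mul_one]

theorem HasR.pow (hφ : HasR K B z c u ν n φ)
    (h : HasR K B z c u ν n fun P => u P ^ ν) (hu : Temp B c u)
    (hz : ∀ P ∈ B, 0 ≤ z P ∧ z P ≤ 1) (hc : ∀ P ∈ B, 0 ≤ c P) (j : ℕ) :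
    HasR K B z c u ν n fun P => φ P ^ j := by
  induction j with
  | zero => exact (h.one hu hz hc).congr fun P _ => by simp
  | succ j ih => exact (ih.mul hφ h hu hz hc).congr fun P _ => by rw [pow_succ]

theorem HasR.aeval_u (h : HasR K B z c u ν n fun P => u P ^ ν) (hu : Temp B c u)
    (hz : ∀ P ∈ B, 0 ≤ z P ∧ z P ≤ 1) (hc : ∀ P ∈ B, 0 ≤ c P) (g : K[X]) :
    HasR K B z c u ν n fun P => Polynomial.aeval (u P) g := by
  have k1 : HasR K B z c u ν n fun P => ∑ i ∈ range (g.natDegree + 1),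
      Phi K (z P) (c P) (C (C (g.coeff i))) * u P ^ i := by
    apply HasR.sum _ _ _ hc
    intro i _
    exact (h.pow_all hu hz hc i).smul _ hz hc
  refine k1.congr fun P _ => ?_
  rw [aeval_eq_sum_range]
  apply Finset.sum_congr rfl
  intro i _
  rw [Phi_C_C, Algebra.smul_def]

/-- **expansions from an algebraic relation** -/
theorem hasR_of_rel (J : ℕ) (g : ℕ → K[X]) (hg : g (J + 1) ≠ 0)
    (hν : (g (J + 1)).natDegree = ν) (hz : ∀ P ∈ B, 0 ≤ z P ∧ z P ≤ 1)
    (hc : ∀ P ∈ B, 0 ≤ c P) (hu : Temp B c u)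
    (hrel : ∀ P ∈ B, c P * z P ^ (J + 1) = ∑ j ∈ range (J + 2),
      z P ^ (J + 1 - j) * aeval (u P) (g j)) (n : ℕ) :
    HasR K B z c u ν n fun P => u P ^ ν := by
  induction n with
  | zero => exact HasR.zero (hu.pow ν hc)
  | succ n ih =>
    set γ := (g (J + 1)).coeff ν with hγ
    have hγ0 : γ ≠ 0 := by
      rw [hγ, ← hν]
      exact leadingCoeff_ne_zero.2 hg
    -- the part divisible by `z`
    have k1 : HasR K B z c u ν n fun P => Phi K (z P) (c P) (X ^ J * C X) * 1 :=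
      (ih.one hu hz hc).smul _ hz hc
    have k2 : HasR K B z c u ν n fun P => ∑ j ∈ range (J + 1),
        Phi K (z P) (c P) (X ^ (J - j)) * aeval (u P) (g j) := by
      apply HasR.sum _ _ _ hc
      intro j _
      exact (ih.aeval_u hu hz hc (g j)).smul _ hz hc
    have k3 := (k1.add (k2.neg hz hc) hc).zmul
    have k4 : HasR K B z c u ν (n + 1) fun P => ∑ i ∈ range ν,
        Phi K (z P) (c P) (C (C ((g (J + 1)).coeff i))) * u P ^ i := by
      apply HasR.sum _ _ _ hc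
      intro i hi
      exact (HasR.pow_lt (mem_range.1 hi) hc).smul _ hz hc
    refine ((k3.add (k4.neg hz hc) hc).smul (C (C γ⁻¹)) hz hc).congr fun P hP => ?_
    have h1 := hrel P hP
    rw [Finset.sum_range_succ] at h1
    have h2 : ∑ j ∈ range (J + 1), z P ^ (J + 1 - j) * aeval (u P) (g j) =
        z P * ∑ j ∈ range (J + 1), Phi K (z P) (c P) (X ^ (J - j)) * aeval (u P) (g j) := by
      rw [Finset.mul_sum]
      apply Finset.sum_congr rfl
      intro j hj
      have : J + 1 - j = (J - j) + 1 := by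
        have := mem_range.1 hj
        omega
      rw [this, pow_succ, map_pow, Phi_X]
      ring
    have h3 : aeval (u P) (g (J + 1)) = ∑ i ∈ range ν,
        Phi K (z P) (c P) (C (C ((g (J + 1)).coeff i))) * u P ^ i +
        algebraMap K ℝ γ * u P ^ ν := by
      rw [aeval_eq_sum_range, hν, Finset.sum_range_succ]
      congr 1
      · apply Finset.sum_congr rfl
        intro i _
        rw [Phi_C_C, Algebra.smul_def]
      · rw [Algebra.smul_def]
    rw [h2, h3, Nat.sub_self, pow_zero, one_mul] at h1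
    have h4 : algebraMap K ℝ γ * u P ^ ν = z P * (Phi K (z P) (c P) (X ^ J * C X) * 1 +
        -∑ j ∈ range (J + 1), Phi K (z P) (c P) (X ^ (J - j)) * aeval (u P) (g j)) +
        -∑ i ∈ range ν, Phi K (z P) (c P) (C (C ((g (J + 1)).coeff i))) * u P ^ i := by
      have h5 : Phi K (z P) (c P) (X ^ J * C X) = z P ^ J * c P := by
        rw [map_mul, map_pow, Phi_X, Phi_C_X]
      rw [h5]
      rw [pow_succ] at h1
      linear_combination -h1
    rw [← h4, Phi_C_C, ← mul_assoc, ← map_mul, inv_mul_cancel₀ hγ0, map_one, one_mul]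

end PP72
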