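import Pool.Agent.PP72.Quartic
import Pool.Agent.PP72.Dom

/-!
One side of a rational direction: thinness criteria, restriction to lines and parabolas.
-/

open Polynomial Finset Filter

namespace PP72

variable {α : ℝ} {d : ℕ} {h : ℕ → ℝ[X]}

/-- the (twisted) distance to the line -/
noncomputable def uu (q p : ℕ) (τ : ℤ) (P : ℕ × ℕ) : ℝ := (τ : ℝ) * ((P.2 : ℝ) - (p / q : ℝ) * P.1)

/-- data of a side of a rational direction -/
structure Side (α : ℝ) (d : ℕ) (h : ℕ → ℝ[X]) (q p : ℕ) (τ : ℤ) (G : ℝ → ℝ → ℝ) : Prop where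
  H : Pk α d h
  hq : 0 < q
  hv : (q, p) ∈ Sec α
  hτ : τ = 1 ∨ (τ = -1 ∧ 0 < p)
  hG : ∀ x U : ℝ, ev d h x ((p / q : ℝ) * x + τ * U) = G x U
  cone : ∃ a b : ℕ, (a, b) ∈ Sec α ∧ ∃ w : ℝ, 0 < w ∧ (b : ℝ) - (p / q : ℝ) * a = τ * w

/-- the lattice points close to the direction on this side are thin -/
def SideThin (α : ℝ) (d : ℕ) (h : ℕ → ℝ[X]) (q p : ℕ) (τ : ℤ) : Prop :=
  ∃ E : ℝ, 0 < E ∧ ∃ U0 : ℝ, Thin (fv d h) {P | P ∈ Sec α ∧ 0 < P.1 ∧
      U0 ≤ (τ : ℝ) * ((P.2 : ℝ) - (p / q : ℝ) * P.1) ∧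
      (τ : ℝ) * ((P.2 : ℝ) - (p / q : ℝ) * P.1) ≤ E * P.1}

variable {q p : ℕ} {τ : ℤ} {G : ℝ → ℝ → ℝ}

theorem Side.tau_sq (S : Side α d h q p τ G) : (τ : ℝ) ^ 2 = 1 := by
  rcases S.hτ with h1 | ⟨h1, _⟩ <;> rw [h1] <;> norm_num

theorem Side.val (S : Side α d h q p τ G) (P : ℕ × ℕ) : fv d h P = G P.1 (uu q p τ P) := by
  rw [← S.hG]
  unfold fv uu
  congr 1
  rw [← mul_assoc, ← pow_two, S.tau_sq]
  ring

theorem Side.abs_uu (S : Side α d h q p τ G) (P : ℕ × ℕ) (h0 : 0 ≤ uu q p τ P) :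
    |(P.2 : ℝ) - (p / q : ℝ) * P.1| = uu q p τ P := by
  have h1 : |uu q p τ P| = |(P.2 : ℝ) - (p / q : ℝ) * P.1| := by
    unfold uu
    rw [abs_mul]
    have : |(τ : ℝ)| = 1 := by
      rcases S.hτ with h1 | ⟨h1, _⟩ <;> rw [h1] <;> norm_num
    rw [this, one_mul]
  rw [← h1, abs_of_nonneg h0]

theorem Side.thin_of_ev (S : Side α d h q p τ G) (δ : ℝ) (hδ : 0 < δ)
    (hev : Ev fun x U => δ * (x ^ 2 + U ^ 3) ≤ G x U) : SideThin α d h q p τ := by
  obtain ⟨E, hE, _, U0, hU0, hreg⟩ := hev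
  refine ⟨E, hE, U0, ?_⟩
  apply thin_of_bound (p / q : ℝ) δ hδ
  rintro P ⟨_, _, hP3, hP4⟩
  have h0 : 0 ≤ uu q p τ P := by
    unfold uu
    linarith
  rw [S.abs_uu P h0, S.val]
  exact hreg _ _ hP3 hP4

/-- a set on which `f ≥ δ (|u| X² + u²)` is thin -/
theorem thin_of_curve3 {f : ℕ × ℕ → ℝ} {A : Set (ℕ × ℕ)} (q p : ℕ) (hq : 0 < q) (φ : ℝ → ℝ)
    (δ : ℝ) (hδ : 0 < δ)
    (h1 : ∀ P ∈ A, 1 ≤ |(P.2 : ℝ) - (p / q : ℝ) * P.1|)
    (h : ∀ P ∈ A, δ * (|(P.2 : ℝ) - (p / q : ℝ) * P.1| *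
      ((P.1 : ℝ) - φ ((P.2 : ℝ) - (p / q : ℝ) * P.1)) ^ 2 +
      |(P.2 : ℝ) - (p / q : ℝ) * P.1| ^ 2) ≤ f P) : Thin f A := by
  classical
  intro ε hε
  have hq' : (0 : ℝ) < q := by exact_mod_cast hq
  set η : ℝ := min 1 (ε * δ / (6 * (2 * q + 1))) with hη
  have hη0 : 0 < η := by positivity
  have hη1 : η ≤ 1 := min_le_left _ _
  have hη2 : η * (6 * (2 * q + 1)) ≤ ε * δ := by
    have : η ≤ ε * δ / (6 * (2 * q + 1)) := min_le_right _ _
    rwa [le_div_iff₀ (by positivity)] at this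
  obtain ⟨N0, hN0⟩ := exists_nat_ge (δ / η ^ 6)
  refine ⟨N0, fun N hN T hT => ?_⟩
  have hN' : δ / η ^ 6 ≤ N := le_trans hN0 (by exact_mod_cast hN)
  set V : ℝ := Real.sqrt ((N : ℝ) / δ) with hV
  have hNd : (0 : ℝ) ≤ (N : ℝ) / δ := by positivity
  have hV0 : 0 ≤ V := Real.sqrt_nonneg _
  have hV2 : V ^ 2 = (N : ℝ) / δ := Real.sq_sqrt hNd
  have hNV : (N : ℝ) = δ * V ^ 2 := by
    rw [hV2]
    field_simp
  have hVη : 1 / η ^ 3 ≤ V := by
    apply le_of_pow_le_pow_left₀ (n := 2) (by norm_num) hV0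
    rw [hV2, le_div_iff₀ hδ]
    have e1 : (1 / η ^ 3) ^ 2 * δ = δ / η ^ 6 := by
      rw [div_pow, one_pow, ← pow_mul]
      norm_num
      ring
    rw [e1]
    exact hN'
  have hη3 : η ^ 3 ≤ 1 := pow_le_one₀ hη0.le hη1
  have hη30 : 0 < η ^ 3 := by positivity
  have h1V : 1 ≤ η ^ 3 * V := by
    rw [div_le_iff₀ hη30] at hVη
    linarith
  have hηV : 1 ≤ η * V := by
    have : η ^ 3 ≤ η := by
      calc η ^ 3 = η * η ^ 2 := by ring
        _ ≤ η * 1 := by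
            gcongr
            exact pow_le_one₀ hη0.le hη1
        _ = η := mul_one _
    nlinarith
  have hV1 : 1 ≤ V := by nlinarith
  have hfac : ∀ P ∈ T, |(P.2 : ℝ) - (p / q : ℝ) * P.1| *
      ((P.1 : ℝ) - φ ((P.2 : ℝ) - (p / q : ℝ) * P.1)) ^ 2 +
      |(P.2 : ℝ) - (p / q : ℝ) * P.1| ^ 2 ≤ V ^ 2 := by
    intro P hP
    have a1 := h P (hT P hP).1
    have a2 := (hT P hP).2
    rw [hV2, le_div_iff₀ hδ]
    linarith
  have huV : ∀ P ∈ T, |(P.2 : ℝ) - (p / q : ℝ) * P.1| ≤ V := by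
    intro P hP
    apply le_of_pow_le_pow_left₀ (n := 2) (by norm_num) hV0
    have := hfac P hP
    have : 0 ≤ |(P.2 : ℝ) - (p / q : ℝ) * P.1| *
      ((P.1 : ℝ) - φ ((P.2 : ℝ) - (p / q : ℝ) * P.1)) ^ 2 := by positivity
    linarith
  set T1 := T.filter (fun P => |(P.2 : ℝ) - (p / q : ℝ) * P.1| ≤ η * V) with hT1
  set T2 := T.filter (fun P => ¬ |(P.2 : ℝ) - (p / q : ℝ) * P.1| ≤ η * V) with hT2
  have hcard : (T.card : ℝ) = T1.card + T2.card := by
    rw [hT1, hT2, ← Nat.cast_add, Finset.card_filter_add_card_filter_not]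
  have hb1 : (T1.card : ℝ) ≤ (2 * (q * (η * V)) + 1) * (2 * V + 1) := by
    apply card_curve q p hq _ _ (by positivity) hV0 φ
    intro P hP
    rw [hT1, mem_filter] at hP
    refine ⟨hP.2, ?_⟩
    apply le_of_pow_le_pow_left₀ (n := 2) (by norm_num) hV0
    rw [sq_abs]
    have a1 := hfac P hP.1
    have a2 := h1 P (hT P hP.1).1
    have a3 : 0 ≤ ((P.1 : ℝ) - φ ((P.2 : ℝ) - (p / q : ℝ) * P.1)) ^ 2 := sq_nonneg _
    have a4 : 0 ≤ |(P.2 : ℝ) - (p / q : ℝ) * P.1| ^ 2 := by positivity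
    nlinarith
  have hb2 : (T2.card : ℝ) ≤ (2 * (q * V) + 1) * (2 * (η * V) + 1) := by
    apply card_curve q p hq _ _ hV0 (by positivity) φ
    intro P hP
    rw [hT2, mem_filter] at hP
    push Not at hP
    refine ⟨huV P hP.1, ?_⟩
    apply le_of_pow_le_pow_left₀ (n := 2) (by norm_num) (by positivity)
    rw [sq_abs]
    have a1 := hfac P hP.1
    have a4 : 0 ≤ |(P.2 : ℝ) - (p / q : ℝ) * P.1| ^ 2 := by positivity
    set Z := ((P.1 : ℝ) - φ ((P.2 : ℝ) - (p / q : ℝ) * P.1)) ^ 2 with hZ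
    have a3 : 0 ≤ Z := sq_nonneg _
    have a5 : (η * V) * Z ≤ V ^ 2 := by
      have : (η * V) * Z ≤ |(P.2 : ℝ) - (p / q : ℝ) * P.1| * Z := by
        gcongr
        exact hP.2.le
      linarith
    have a6 : η * Z ≤ V := by
      have : V * (η * Z) ≤ V * V := by nlinarith
      exact le_of_mul_le_mul_left this (by linarith)
    have a7 : V ≤ η * (η * V) ^ 2 := by
      calc V = 1 * V := (one_mul V).symm
        _ ≤ (η ^ 3 * V) * V := by gcongr
        _ = η * (η * V) ^ 2 := by ring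
    exact le_of_mul_le_mul_left (a6.trans a7) hη0
  have hc1 : (2 * (q * (η * V)) + 1) * (2 * V + 1) ≤ 3 * (2 * q + 1) * (η * V ^ 2) := by
    calc (2 * (q * (η * V)) + 1) * (2 * V + 1)
        ≤ (2 * (q * (η * V)) + η * V) * (2 * V + V) := by gcongr
      _ = 3 * (2 * q + 1) * (η * V ^ 2) := by ring
  have hc2 : (2 * (q * V) + 1) * (2 * (η * V) + 1) ≤ 3 * (2 * q + 1) * (η * V ^ 2) := by
    calc (2 * (q * V) + 1) * (2 * (η * V) + 1)
        ≤ (2 * (q * V) + V) * (2 * (η * V) + η * V) := by gcongr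
      _ = 3 * (2 * q + 1) * (η * V ^ 2) := by ring
  rw [hcard, hNV]
  have hfin : 6 * (2 * q + 1) * (η * V ^ 2) ≤ ε * (δ * V ^ 2) := by
    calc 6 * (2 * q + 1) * (η * V ^ 2) = (η * (6 * (2 * q + 1))) * V ^ 2 := by ring
      _ ≤ (ε * δ) * V ^ 2 := by gcongr
      _ = ε * (δ * V ^ 2) := by ring
  linarith

theorem Side.thin_of_curve (S : Side α d h q p τ G) (ρ κ κ0 δ : ℝ) (hδ : 0 < δ)
    (hev : Ev fun x U => δ * (U * (x - ρ * U ^ 2 - κ * U - κ0) ^ 2 + U ^ 2) ≤ G x U) :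
    SideThin α d h q p τ := by
  obtain ⟨E, hE, _, U0, hU0, hreg⟩ := hev
  refine ⟨E, hE, U0, ?_⟩
  apply thin_of_curve3 q p S.hq (fun u => ρ * u ^ 2 + κ * τ * u + κ0) δ hδ
  · rintro P ⟨_, _, hP3, _⟩
    have h0 : 0 ≤ uu q p τ P := by
      unfold uu
      linarith
    rw [S.abs_uu P h0]
    exact hU0.trans hP3
  · rintro P ⟨_, _, hP3, hP4⟩
    have h0 : 0 ≤ uu q p τ P := by
      unfold uu
      linarith
    rw [S.abs_uu P h0, S.val]
    refine le_trans (le_of_eq ?_) (hreg _ _ hP3 hP4)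
    have e1 : ((P.2 : ℝ) - (p / q : ℝ) * P.1) ^ 2 = (uu q p τ P) ^ 2 := by
      unfold uu
      rw [mul_pow, S.tau_sq, one_mul]
    have e2 : κ * τ * ((P.2 : ℝ) - (p / q : ℝ) * P.1) = κ * uu q p τ P := by
      unfold uu
      ring
    rw [e1, e2]
    change δ * (uu q p τ P * _ + _) = δ * (uu q p τ P * (_ - ρ * (uu q p τ P) ^ 2 - κ * uu q p τ P - κ0) ^ 2 +
      (uu q p τ P) ^ 2)
    ring

/-- extraction of the leading coefficient -/
theorem exists_top (n : ℕ) (c : ℕ → ℝ) (L : ℝ[X])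
    (hL : L = ∑ i ∈ range (n + 1), C (c i) * X ^ i)
    (h2 : 2 ≤ L.natDegree) (hlc : 0 < L.leadingCoeff) :
    ∃ k, 2 ≤ k ∧ k ≤ n ∧ 0 < c k ∧ ∀ j, k < j → j ≤ n → c j = 0 := by
  have hcoef : ∀ j, L.coeff j = if j ≤ n then c j else 0 := by
    intro j
    rw [hL, finsetSum_coeff]
    simp only [coeff_C_mul, coeff_X_pow]
    split_ifs with hj
    · rw [Finset.sum_eq_single j]
      · simp
      · intro b _ hb
        rw [if_neg (Ne.symm hb)]
        simp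
      · intro hb
        exact absurd (mem_range.2 (Nat.lt_succ_of_le hj)) hb
    · apply Finset.sum_eq_zero
      intro b hb
      rw [if_neg]
      · simp
      · intro hjb
        subst hjb
        exact hj (Nat.lt_succ_iff.1 (mem_range.1 hb))
  have hk : L.natDegree ≤ n := by
    rw [natDegree_le_iff_coeff_eq_zero]
    intro N hN
    rw [hcoef, if_neg (by omega)]
  refine ⟨L.natDegree, h2, hk, ?_, ?_⟩
  · have := hcoef L.natDegree
    rw [if_pos hk] at this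
    rw [← this]
    exact hlc
  · intro j hj1 hj2
    have := hcoef j
    rw [if_pos hj2] at this
    rw [← this]
    exact coeff_eq_zero_of_natDegree_lt hj1

/-- restriction to lines -/
theorem Side.line (S : Side α d h q p τ G) : ∃ w : ℝ, 0 < w ∧ ∀ (m n : ℕ) (c : ℕ → ℝ),
    (∀ x : ℝ, G x (m * w) = ∑ i ∈ range (n + 1), c i * x ^ i) →
    ∃ k, 2 ≤ k ∧ k ≤ n ∧ 0 < c k ∧ ∀ j, k < j → j ≤ n → c j = 0 := by
  obtain ⟨a, b, hW, w, hw, hσw⟩ := S.cone
  refine ⟨w, hw, fun m n c hc => ?_⟩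
  have hq' : (0 : ℝ) < q := by exact_mod_cast S.hq
  have hray := S.H.ray (m * a + q) (m * b + p) q p (sec_add (sec_smul hW m) S.hv) S.hv S.hq
    (∑ i ∈ range (n + 1), C (c i) * X ^ i) (by
    intro t
    have e1 : ((m * b + p + t * p : ℕ) : ℝ) =
        (p / q : ℝ) * ((m * a + q + t * q : ℕ) : ℝ) + τ * (m * w) := by
      have e2 : (τ : ℝ) * (m * w) = m * ((b : ℝ) - (p / q : ℝ) * a) := by rw [hσw]; ring
      rw [e2]
      push_cast
      field_simp
      ring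
    rw [e1, S.hG, hc, eval_finsetSum]
    apply Finset.sum_congr rfl
    intro i _
    simp only [eval_mul, eval_C, eval_pow, eval_X])
  exact exists_top n c _ rfl hray.1 hray.2

/-- restriction to parabolas -/
theorem Side.parab (S : Side α d h q p τ G) (ρ κ : ℚ) (hρ : 0 < ρ) (P0 : ℕ × ℕ)
    (hP0 : P0 ∈ Sec α) (n : ℕ) (c : ℕ → ℝ)
    (hc : ∀ t : ℝ, G (ρ * t ^ 2 + κ * t + (P0.1 - ρ * (uu q p τ P0) ^ 2 - κ * uu q p τ P0)) t =
      ∑ i ∈ range (n + 1), c i * t ^ i) :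
    ∃ k, 2 ≤ k ∧ k ≤ n ∧ 0 < c k ∧ ∀ j, k < j → j ≤ n → c j = 0 := by
  have hq' : (0 : ℝ) < q := by exact_mod_cast S.hq
  have hτ := S.hτ
  have hτ2 := S.tau_sq
  have H := S.H
  -- `p < α q`
  have hlt : (0 : ℝ) < α * q - p := by
    have h1 : (p : ℝ) ≤ α * q := S.hv
    rcases h1.lt_or_eq with h2 | h2
    · linarith
    · exfalso
      apply H.irr
      refine ⟨(p : ℚ) / q, ?_⟩
      push_cast
      rw [h2]
      field_simp
  set s : ℕ := q ^ 2 * ρ.den * κ.den with hs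
  have hspos : 0 < s := by
    have := ρ.den_pos
    have := κ.den_pos
    have := S.hq
    positivity
  set k0 : ℤ := q * P0.2 - p * P0.1 with hk0
  set Ut : ℝ := uu q p τ P0 with hUt
  have hU0 : (q : ℝ) * Ut = τ * k0 := by
    rw [hUt, hk0]
    unfold uu
    push_cast
    field_simp
  set K2 : ℤ := ρ.num * q ^ 3 * ρ.den * κ.den ^ 2 with hK2
  set K1 : ℤ := 2 * τ * k0 * ρ.num * κ.den + κ.num * q * ρ.den with hK1
  have hK2pos : 0 < K2 := by
    have h1 := ρ.den_pos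
    have h2 := κ.den_pos
    have h3 := Rat.num_pos.2 hρ
    have := S.hq
    positivity
  have hρs : (ρ : ℝ) * (s : ℝ) ^ 2 = q * K2 := by
    have h1 : (ρ : ℚ) * (s : ℚ) ^ 2 = q * K2 := by
      rw [hs, hK2]
      push_cast
      have := Rat.mul_den_eq_num ρ
      rw [← this]
      ring
    exact_mod_cast h1
  have hκs : (κ : ℝ) * (s : ℝ) = q * (κ.num * q * ρ.den) := by
    have h1 : (κ : ℚ) * (s : ℚ) = q * (κ.num * q * ρ.den) := by
      rw [hs]
      push_cast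
      have := Rat.mul_den_eq_num κ
      rw [← this]
      ring
    exact_mod_cast h1
  have hρUs : 2 * (ρ : ℝ) * Ut * s = q * (2 * τ * k0 * ρ.num * κ.den) := by
    have h1 : (ρ : ℚ) * ρ.den = ρ.num := Rat.mul_den_eq_num ρ
    have h2 : (ρ : ℝ) * ρ.den = ρ.num := by exact_mod_cast h1
    have h3 : (s : ℝ) = (q : ℝ) ^ 2 * ρ.den * κ.den := by
      rw [hs]
      push_cast
      ring
    rw [h3, ← h2]
    calc 2 * (ρ : ℝ) * Ut * ((q : ℝ) ^ 2 * ρ.den * κ.den) =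
        q * (2 * (q * Ut) * (ρ * ρ.den) * κ.den) := by ring
      _ = _ := by rw [hU0]; ring
  have hτabs : (τ : ℝ) ≤ 1 ∧ (-1 : ℝ) ≤ τ := by
    rcases hτ with h1 | ⟨h1, _⟩ <;> rw [h1] <;> norm_num
  set j : ℕ → ℤ := fun m => K2 * m ^ 2 + K1 * m with hj
  set cc : ℝ := min (α * q - p) 1 with hcc
  have hc0 : 0 < cc := by positivity
  have hc1 : cc ≤ 1 := min_le_right _ _
  obtain ⟨m1, hm1⟩ := exists_nat_ge (|(K1 : ℝ)| + s / cc)
  have hjb : ∀ m : ℕ, m1 ≤ m → (s : ℝ) * m ≤ cc * j m := by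
    intro m hm
    have h1 : |(K1 : ℝ)| + s / cc ≤ m := le_trans hm1 (by exact_mod_cast hm)
    have h2 : (1 : ℝ) ≤ K2 := by exact_mod_cast hK2pos
    have h3 : (0 : ℝ) ≤ m := Nat.cast_nonneg _
    have h4 := neg_abs_le (K1 : ℝ)
    have h5 : ((j m : ℤ) : ℝ) = (K2 * m + K1) * m := by
      simp only [hj]
      push_cast
      ring
    have h6 : (s : ℝ) / cc ≤ K2 * m + K1 := by nlinarith
    rw [h5]
    rw [div_le_iff₀ hc0] at h6
    nlinarith
  have hj0 : ∀ m : ℕ, m1 ≤ m → (s : ℝ) * m ≤ j m := by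
    intro m hm
    have h1 := hjb m hm
    have h2 : (0 : ℝ) ≤ s * m := by positivity
    have h3 : (0 : ℝ) ≤ j m := by
      by_contra hneg
      push Not at hneg
      nlinarith
    nlinarith
  set Xm : ℕ → ℤ := fun m => P0.1 + q * j (m + m1) with hX
  set Ym : ℕ → ℤ := fun m => P0.2 + p * j (m + m1) + τ * s * (m + m1 : ℕ) with hY
  have hX0 : ∀ m, 0 ≤ Xm m := by
    intro m
    have h1 := hj0 (m + m1) (by omega)
    have h2 : (0 : ℝ) ≤ j (m + m1) := le_trans (by positivity) h1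
    have h3 : 0 ≤ j (m + m1) := by exact_mod_cast h2
    simp only [hX]
    positivity
  have hY0 : ∀ m, 0 ≤ Ym m := by
    intro m
    have h1 := hj0 (m + m1) (by omega)
    have h2 : (0 : ℝ) ≤ j (m + m1) := le_trans (by positivity) h1
    have h3 : 0 ≤ j (m + m1) := by exact_mod_cast h2
    simp only [hY]
    rcases hτ with h4 | ⟨h4, h5⟩
    · rw [h4]
      positivity
    · rw [h4]
      have h6 : ((s * (m + m1 : ℕ) : ℕ) : ℤ) ≤ j (m + m1) := by
        have : (((s * (m + m1 : ℕ) : ℕ) : ℤ) : ℝ) ≤ ((j (m + m1) : ℤ) : ℝ) := by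
          push_cast at h1 ⊢
          exact h1
        exact_mod_cast this
      have h7 : j (m + m1) ≤ p * j (m + m1) := by
        have : (1 : ℤ) ≤ p := by exact_mod_cast h5
        nlinarith
      push_cast at h6 ⊢
      have h8 : (0 : ℤ) ≤ P0.2 := Int.natCast_nonneg _
      linarith
  set pt : ℕ → ℕ × ℕ := fun m => ((Xm m).toNat, (Ym m).toNat) with hpt
  have hp1 : ∀ m, (((pt m).1 : ℕ) : ℝ) = P0.1 + q * j (m + m1) := by
    intro m
    have h1 : (((pt m).1 : ℕ) : ℤ) = Xm m := Int.toNat_of_nonneg (hX0 m)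
    have h2 : ((((pt m).1 : ℕ) : ℤ) : ℝ) = ((Xm m : ℤ) : ℝ) := by rw [h1]
    simp only [hX] at h2
    push_cast at h2
    exact h2
  have hp2 : ∀ m, (((pt m).2 : ℕ) : ℝ) = P0.2 + p * j (m + m1) + τ * s * ((m + m1 : ℕ) : ℝ) := by
    intro m
    have h1 : (((pt m).2 : ℕ) : ℤ) = Ym m := Int.toNat_of_nonneg (hY0 m)
    have h2 : ((((pt m).2 : ℕ) : ℤ) : ℝ) = ((Ym m : ℤ) : ℝ) := by rw [h1]
    simp only [hY] at h2
    push_cast at h2 ⊢
    exact h2
  have hu : ∀ m, uu q p τ (pt m) = Ut + s * ((m + m1 : ℕ) : ℝ) := by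
    intro m
    have e0 : Ut = τ * ((P0.2 : ℝ) - (p / q : ℝ) * P0.1) := rfl
    unfold uu
    rw [hp1, hp2, e0]
    have e1 : (P0.2 : ℝ) + p * j (m + m1) + τ * s * ((m + m1 : ℕ) : ℝ) -
        (p / q : ℝ) * (P0.1 + q * j (m + m1)) =
        ((P0.2 : ℝ) - (p / q : ℝ) * P0.1) + τ * s * ((m + m1 : ℕ) : ℝ) := by
      field_simp
      ring
    rw [e1]
    linear_combination (s * ((m + m1 : ℕ) : ℝ)) * hτ2
  have hcurve : ∀ m, (((pt m).1 : ℕ) : ℝ) = ρ * (uu q p τ (pt m)) ^ 2 + κ * uu q p τ (pt m) +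
      (P0.1 - ρ * Ut ^ 2 - κ * Ut) := by
    intro m
    rw [hu, hp1]
    have e1 : (ρ : ℝ) * (Ut + s * ((m + m1 : ℕ) : ℝ)) ^ 2 + κ * (Ut + s * ((m + m1 : ℕ) : ℝ)) +
        (P0.1 - ρ * Ut ^ 2 - κ * Ut) = P0.1 + (2 * (ρ : ℝ) * Ut * s) * ((m + m1 : ℕ) : ℝ) +
        (ρ * (s : ℝ) ^ 2) * ((m + m1 : ℕ) : ℝ) ^ 2 + (κ * s) * ((m + m1 : ℕ) : ℝ) := by ring
    rw [e1, hρs, hκs, hρUs]
    simp only [hj, hK1]
    push_cast
    ring
  have hsec : ∀ m, pt m ∈ Sec α := by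
    intro m
    change (((pt m).2 : ℕ) : ℝ) ≤ α * (((pt m).1 : ℕ) : ℝ)
    rw [hp1, hp2]
    have h0 : (P0.2 : ℝ) ≤ α * P0.1 := hP0
    have h1 := hjb (m + m1) (by omega)
    have h2 := hj0 (m + m1) (by omega)
    have h3 : (0 : ℝ) ≤ j (m + m1) := le_trans (by positivity) h2
    have h4 : cc * (j (m + m1) : ℝ) ≤ (α * q - p) * j (m + m1) := by
      gcongr
      exact min_le_left _ _
    have h5 : (τ : ℝ) * s * ((m + m1 : ℕ) : ℝ) ≤ s * ((m + m1 : ℕ) : ℝ) := by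
      have h6 : (0 : ℝ) ≤ s * ((m + m1 : ℕ) : ℝ) := by positivity
      nlinarith [hτabs.1]
    linarith
  have hsne : (s : ℝ) ≠ 0 := by exact_mod_cast hspos.ne'
  have hs' : (0 : ℝ) < s := by exact_mod_cast hspos
  set L : ℝ[X] := ∑ i ∈ range (n + 1), C (c i) * X ^ i with hL
  have hval : ∀ m, ev d h ((pt m).1 : ℝ) ((pt m).2 : ℝ) = L.eval (uu q p τ (pt m)) := by
    intro m
    have h1 := S.val (pt m)
    unfold fv at h1
    rw [h1]
    have h2 := hc (uu q p τ (pt m))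
    rw [← hcurve] at h2
    rw [h2, hL, eval_finsetSum]
    apply Finset.sum_congr rfl
    intro i _
    simp only [eval_mul, eval_C, eval_pow, eval_X]
  have hdeg2 : 2 ≤ L.natDegree := by
    by_contra hlt'
    push Not at hlt'
    have hlin : ∀ x, L.eval x = L.coeff 1 * x + L.coeff 0 := by
      intro x
      rw [Polynomial.eval_eq_sum_range' hlt']
      simp only [Finset.sum_range_succ, Finset.sum_range_zero, pow_zero, pow_one]
      ring
    apply H.no_progression pt hsec (by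
      intro h01
      have h1 := hu 0
      have h2 := hu 1
      rw [← h01, h1] at h2
      have h3 : (s : ℝ) * ((0 + m1 : ℕ) : ℝ) = s * ((1 + m1 : ℕ) : ℝ) := by linarith
      have h4 := mul_left_cancel₀ hsne h3
      have h5 : (0 + m1 : ℕ) = 1 + m1 := by exact_mod_cast h4
      omega) (L.coeff 1 * s) (L.coeff 1 * (Ut + s * m1) + L.coeff 0) (by
      intro m
      rw [hval, hlin, hu]
      push_cast
      ring) (q, p) S.hv (by
      intro h0
      have := congrArg Prod.fst h0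
      simp at this
      have := S.hq
      omega)
    intro M hM K
    refine ⟨K + 1, by omega, ?_⟩
    rintro ⟨m, hm⟩
    have e1 := congrArg Prod.fst hm
    have e2 := congrArg Prod.snd hm
    simp only at e1 e2
    have h1 := hu m
    have h0 := hu 0
    unfold uu at h1 h0
    rw [e1, e2] at h1
    push_cast at h1 h0
    have h2 : ((pt 0).2 : ℝ) + M * ((K + 1) * p) - p / q * ((pt 0).1 + M * ((K + 1) * q)) =
        (pt 0).2 - (p / q : ℝ) * (pt 0).1 := by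
      field_simp
      ring
    rw [h2, h0] at h1
    have h3 : (s : ℝ) * m = 0 := by linarith
    have h4 : (m : ℝ) = 0 := by
      rcases mul_eq_zero.1 h3 with h5 | h5
      · exact absurd h5 hsne
      · exact h5
    have h5 : m = 0 := by exact_mod_cast h4
    subst h5
    have h6 : 0 < M * ((K + 1) * q) := by
      have := S.hq
      positivity
    omega
  have hlc : 0 < L.leadingCoeff := by
    by_contra hlc
    push Not at hlc
    have h1 : Tendsto (fun x => L.eval x) atTop atBot := by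
      apply Polynomial.tendsto_atBot_of_leadingCoeff_nonpos _ _ hlc
      rw [← natDegree_pos_iff_degree_pos]
      omega
    have h2 : Tendsto (fun m : ℕ => uu q p τ (pt m)) atTop atTop := by
      have : (fun m : ℕ => uu q p τ (pt m)) = fun m : ℕ => Ut + s * ((m + m1 : ℕ) : ℝ) := by
        funext m
        exact hu m
      rw [this]
      apply tendsto_atTop_add_const_left
      apply Tendsto.const_mul_atTop hs'
      exact tendsto_natCast_atTop_atTop.comp (tendsto_add_atTop_nat m1)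
    obtain ⟨K, hK⟩ := eventually_atTop.1 ((h1.comp h2).eventually (eventually_lt_atBot 0))
    have h3 := hK K le_rfl
    simp only [Function.comp_apply] at h3
    obtain ⟨v, hv'⟩ := H.val _ (hsec K)
    rw [hval K] at hv'
    rw [hv'] at h3
    have : (0 : ℝ) ≤ v := Nat.cast_nonneg _
    linarith
  exact exists_top n c L hL hdeg2 hlc

end PP72
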