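import Pool.Agent.PP72.Parabola

/-!
Quartics: the region next to a rational direction of multiplicity four.
-/

open Polynomial Finset Filter

namespace PP72

variable {α : ℝ} {d : ℕ} {h : ℕ → ℝ[X]}

theorem q4_twist (A B C E F1 H1 γ J K L M σ x U : ℝ) (hσ : σ ^ 2 = 1) :
    Q4 A B C E F1 H1 γ J K L M x (σ * U) =
      Q4 A (B * σ) C E (F1 * σ) H1 γ (J * σ) K (L * σ) M x U := by
  have h3 : σ ^ 3 = σ := by
    calc σ ^ 3 = σ ^ 2 * σ := by ring
      _ = σ := by rw [hσ, one_mul]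
  have h4 : σ ^ 4 = 1 := by
    calc σ ^ 4 = (σ ^ 2) ^ 2 := by ring
      _ = 1 := by rw [hσ, one_pow]
  unfold Q4
  rw [mul_pow, mul_pow, mul_pow, hσ, h3, h4]
  ring

theorem Pk.side4 (H : Pk α 4 h) (q p : ℕ) (hq : 0 < q) (hv : (q, p) ∈ Sec α)
    (A B C E F1 H1 γ J K L M : ℚ) (hγ : 0 < γ)
    (hexp : ∀ x u : ℝ, ev 4 h x ((p / q : ℝ) * x + u) = Q4 A B C E F1 H1 γ J K L M x u)
    (τ : ℤ) (hτ : τ = 1 ∨ (τ = -1 ∧ 0 < p)) (a b : ℕ) (hW : (a, b) ∈ Sec α) (w : ℝ) (hw : 0 < w)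
    (hσw : (b : ℝ) - (p / q : ℝ) * a = τ * w) :
    ∃ E' : ℝ, 0 < E' ∧ ∃ U0 : ℝ, Thin (fv 4 h) {P | P ∈ Sec α ∧ 0 < P.1 ∧
      U0 ≤ (τ : ℝ) * ((P.2 : ℝ) - (p / q : ℝ) * P.1) ∧
      (τ : ℝ) * ((P.2 : ℝ) - (p / q : ℝ) * P.1) ≤ E' * P.1} := by
  have hq' : (0 : ℝ) < q := by exact_mod_cast hq
  set σ : ℝ := (τ : ℝ) with hσ
  have hσ2 : σ ^ 2 = 1 := by
    rcases hτ with h1 | ⟨h1, _⟩ <;> rw [hσ, h1] <;> norm_num
  have hσne : σ ≠ 0 := by
    intro h0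
    rw [h0] at hσ2
    norm_num at hσ2
  have hγ' : (0 : ℝ) < γ := by exact_mod_cast hγ
  -- values in the twisted coordinates
  have hval : ∀ P : ℕ × ℕ, fv 4 h P = Q4 A (B * σ) C E (F1 * σ) H1 γ (J * σ) K (L * σ) M P.1
      (σ * ((P.2 : ℝ) - (p / q : ℝ) * P.1)) := by
    intro P
    rw [← q4_twist _ _ _ _ _ _ _ _ _ _ _ _ _ _ hσ2, ← mul_assoc, ← pow_two, hσ2, one_mul, ← hexp]
    unfold fv
    congr 1
    ring
  have habs : ∀ u : ℝ, 0 ≤ σ * u → |u| = σ * u := by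
    intro u hu
    rcases hτ with h1 | ⟨h1, _⟩
    · rw [hσ, h1] at hu ⊢
      push_cast at hu ⊢
      rw [one_mul] at hu ⊢
      exact abs_of_nonneg hu
    · rw [hσ, h1] at hu ⊢
      push_cast at hu ⊢
      rw [abs_of_nonpos (by linarith)]
      ring
  -- from a region estimate to thinness
  have hregion : (∃ ε : ℝ, 0 < ε ∧ ∃ δ : ℝ, 0 < δ ∧ ∃ U0 : ℝ, ∀ x U : ℝ, U0 ≤ U → U ≤ ε * x →
      δ * (x ^ 2 + U ^ 3) ≤ Q4 A (B * σ) C E (F1 * σ) H1 γ (J * σ) K (L * σ) M x U) →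
      ∃ E' : ℝ, 0 < E' ∧ ∃ U0 : ℝ, Thin (fv 4 h) {P | P ∈ Sec α ∧ 0 < P.1 ∧
      U0 ≤ σ * ((P.2 : ℝ) - (p / q : ℝ) * P.1) ∧
      σ * ((P.2 : ℝ) - (p / q : ℝ) * P.1) ≤ E' * P.1} := by
    rintro ⟨ε, hε, δ, hδ, U0, hreg⟩
    refine ⟨ε, hε, max U0 0, ?_⟩
    apply thin_of_bound (p / q : ℝ) δ hδ
    rintro P ⟨_, hP2, hP3, hP4⟩
    have h1 := hreg P.1 _ ((le_max_left _ _).trans hP3) hP4
    rw [habs _ ((le_max_right _ _).trans hP3), hval]
    exact h1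
  -- no negative values along parabolas
  have hneg : ∀ c2 c1 : ℝ, 0 < c2 → (∃ U1 : ℝ, ∀ U ξ : ℝ, U1 ≤ U → |ξ| ≤ (q : ℝ) →
      Q4 A (B * σ) C E (F1 * σ) H1 γ (J * σ) K (L * σ) M (c2 * U ^ 2 + c1 * U + ξ) U < 0) →
      False := by
    rintro c2 c1 hc2 ⟨U1, hU1⟩
    obtain ⟨m, hm⟩ := exists_nat_ge (max (U1 / w) ((a + |c1| * w) / (c2 * w ^ 2)))
    have h1 : U1 / w ≤ m := (le_max_left _ _).trans hm
    have h2 : (a + |c1| * w) / (c2 * w ^ 2) ≤ m := (le_max_right _ _).trans hm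
    rw [div_le_iff₀ hw] at h1
    rw [div_le_iff₀ (by positivity)] at h2
    have hm0 : (0 : ℝ) ≤ m := Nat.cast_nonneg _
    have h3 : (m * a : ℝ) ≤ c2 * (m * w) ^ 2 + c1 * (m * w) := by
      have e1 : -(|c1| * (m * w)) ≤ c1 * (m * w) := by
        have : 0 ≤ m * w := by positivity
        nlinarith [neg_abs_le c1]
      have e2 : (a + |c1| * w) * m ≤ (m * (c2 * w ^ 2)) * m := by gcongr
      nlinarith
    obtain ⟨P, hP1, _, hP3, hP4⟩ := exists_point q p a b hq hv hW m _ h3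
    have h4 := hU1 (m * w) ((P.1 : ℝ) - (c2 * (m * w) ^ 2 + c1 * (m * w))) h1 hP4
    have e3 : c2 * (m * w) ^ 2 + c1 * (m * w) +
        ((P.1 : ℝ) - (c2 * (m * w) ^ 2 + c1 * (m * w))) = P.1 := by ring
    rw [e3] at h4
    have h5 := hval P
    rw [hP3, hσw] at h5
    have e4 : σ * (m * (σ * w)) = m * w := by
      calc σ * (m * (σ * w)) = σ ^ 2 * (m * w) := by ring
        _ = m * w := by rw [hσ2, one_mul]
    rw [e4] at h5
    obtain ⟨n, hn⟩ := H.val P hP1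
    have h6 : fv 4 h P = n := hn
    rw [← h5, h6] at h4
    have : (0 : ℝ) ≤ n := Nat.cast_nonneg _
    linarith
  -- restriction to lines
  have hlines : ∀ m : ℕ, 0 < (A : ℝ) ∨ ((A : ℝ) = 0 ∧ 0 < B * σ * (m * w) + C) := by
    intro m
    set u : ℝ := σ * (m * w) with hu
    have hray := H.ray (m * a + q) (m * b + p) q p (sec_add (sec_smul hW m) hv) hv hq
      (Polynomial.C (A : ℝ) * X ^ 3 + Polynomial.C ((B : ℝ) * u + C) * X ^ 2 +
        Polynomial.C ((E : ℝ) * u ^ 2 + F1 * u + H1) * X +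
        Polynomial.C ((γ : ℝ) * u ^ 4 + J * u ^ 3 + K * u ^ 2 + L * u + M)) (by
      intro t
      have e1 : ((m * b + p + t * p : ℕ) : ℝ) =
          (p / q : ℝ) * ((m * a + q + t * q : ℕ) : ℝ) + u := by
        have e2 : u = m * ((b : ℝ) - (p / q : ℝ) * a) := by rw [hσw, hu]; ring
        rw [e2]
        push_cast
        field_simp
        ring
      rw [e1, hexp]
      simp only [eval_add, eval_mul, eval_C, eval_pow, eval_X]
      unfold Q4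
      ring)
    rcases cubic_lead _ _ _ _ hray.1 hray.2 with h1 | ⟨h1, h2⟩
    · exact Or.inl h1
    · right
      refine ⟨h1, ?_⟩
      rw [hu] at h2
      nlinarith
  by_cases hA : 0 < (A : ℝ)
  · exact hregion (q4_case_A _ _ _ _ _ _ _ _ _ _ _ hγ' hA)
  have hA0 : (A : ℝ) = 0 := by
    rcases hlines 0 with h1 | h1
    · exact absurd h1 hA
    · exact h1.1
  have hBC : ∀ m : ℕ, 0 < (B : ℝ) * σ * (m * w) + C := by
    intro m
    rcases hlines m with h1 | h1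
    · exact absurd h1 hA
    · exact h1.2
  have hC : (0 : ℝ) < C := by
    have := hBC 0
    simpa using this
  have hB0 : 0 ≤ (B : ℝ) * σ := by
    by_contra hb
    push Not at hb
    obtain ⟨m, hm⟩ := exists_nat_gt ((C : ℝ) / (-(B * σ) * w))
    have hbw : 0 < -((B : ℝ) * σ) * w := mul_pos (by linarith) hw
    rw [div_lt_iff₀ hbw] at hm
    have := hBC m
    nlinarith
  rw [hA0] at hregion hneg
  rcases hB0.lt_or_eq with hB | hB
  · exact hregion (q4_case_B _ _ _ _ _ _ _ _ _ _ hγ' hB hC)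
  rw [← hB] at hregion hneg
  by_cases hE : 0 ≤ (E : ℝ) ∨ (E : ℝ) ^ 2 < 4 * C * γ
  · exact hregion (q4_case_E _ _ _ _ _ _ _ _ _ hγ' hC hE)
  push Not at hE
  obtain ⟨hE1, hE2⟩ := hE
  rcases hE2.lt_or_eq with hE3 | hE3
  · exfalso
    obtain ⟨U1, hU1⟩ := q4_neg_E C E (F1 * σ) H1 γ (J * σ) K (L * σ) M q hC hE3 hq'.le
    apply hneg (-E / (2 * C)) 0 (div_pos (by linarith) (by positivity))
    refine ⟨U1, fun U ξ h1 h2 => ?_⟩
    have := hU1 U ξ h1 h2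
    rw [zero_mul, add_zero]
    exact this
  -- the valley
  set ρ : ℚ := -E / (2 * C) with hρ
  have hCq : (0 : ℚ) < C := by exact_mod_cast hC
  have hEq : E < 0 := by exact_mod_cast hE1
  have hρ0 : 0 < ρ := div_pos (by linarith) (by linarith)
  have hEρ : E = -2 * C * ρ := by
    rw [hρ]
    field_simp
  have hγρ : γ = C * ρ ^ 2 := by
    have h1 : 4 * C * γ = E ^ 2 := by exact_mod_cast hE3
    have h2 : 4 * C * γ = 4 * C * (C * ρ ^ 2) := by
      rw [h1, hEρ]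
      ring
    exact mul_left_cancel₀ (by positivity) h2
  have hEρ' : (E : ℝ) = -2 * C * ρ := by
    rw [hEρ]
    push_cast
    ring
  have hγρ' : (γ : ℝ) = C * (ρ : ℝ) ^ 2 := by
    rw [hγρ]
    push_cast
    ring
  have hρ0' : (0 : ℝ) < ρ := by exact_mod_cast hρ0
  rcases lt_trichotomy ((ρ : ℝ) * (F1 * σ) + J * σ) 0 with hc3 | hc3 | hc3
  · exfalso
    obtain ⟨U1, hU1⟩ := q4_valley_neg C ρ (F1 * σ) H1 (J * σ) K (L * σ) M q hC hc3 hq'.le
    apply hneg ρ 0 hρ0'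
    refine ⟨U1, fun U ξ h1 h2 => ?_⟩
    have := hU1 U ξ h1 h2
    rw [zero_mul, add_zero, hEρ', hγρ']
    exact this
  · exfalso
    have hc3' : (ρ : ℝ) * F1 + J = 0 := by
      have : σ * ((ρ : ℝ) * F1 + J) = 0 := by linarith
      rcases mul_eq_zero.1 this with h1 | h1
      · exact absurd h1 hσne
      · exact h1
    have hc3q : ρ * F1 + J = 0 := by exact_mod_cast hc3'
    rcases lt_trichotomy (4 * (C : ℝ) * (ρ * H1 + K)) ((F1 : ℝ) ^ 2) with hΔ | hΔ | hΔ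
    · obtain ⟨U1, hU1⟩ := q4_valley_indef C ρ (F1 * σ) H1 (J * σ) K (L * σ) M q hC hc3
        (by rw [mul_pow, hσ2, mul_one]; exact hΔ) hq'.le
      apply hneg ρ (-(F1 * σ / (2 * C))) hρ0'
      refine ⟨U1, fun U ξ h1 h2 => ?_⟩
      have h3 := hU1 U ξ h1 h2
      have e1 : (ρ : ℝ) * U ^ 2 + -(F1 * σ / (2 * C)) * U + ξ =
          ρ * U ^ 2 - F1 * σ / (2 * C) * U + ξ := by ring
      rw [e1, hEρ', hγρ']
      exact h3
    · -- affine along a parabola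
      set w1 : ℚ := F1 / (2 * C) with hw1
      have hw1C : 2 * C * w1 = F1 := by
        rw [hw1]
        field_simp
      apply H.no_parabola q p hq hv τ hτ ρ w1 hρ0 ((L : ℝ) - H1 * w1) M
      intro x y hxy
      set u : ℝ := (y : ℝ) - (p / q : ℝ) * x with hu
      have e1 : (y : ℝ) = (p / q : ℝ) * x + u := by rw [hu]; ring
      rw [e1, hexp, hA0, hEρ', hγρ']
      have hBz : (B : ℝ) = 0 := by
        rcases mul_eq_zero.1 hB.symm with h1 | h1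
        · exact h1
        · exact absurd h1 hσne
      rw [hBz, q4_valley]
      have e2 : (x : ℝ) - ρ * u ^ 2 = -(w1 * u) := by linarith
      rw [e2, hc3']
      have e3 : (C : ℝ) * w1 ^ 2 - F1 * w1 + (ρ * H1 + K) = 0 := by
        have h1 : 4 * (C : ℝ) * (C * w1 ^ 2 - F1 * w1 + (ρ * H1 + K)) = 0 := by
          have h2 : (2 * (C : ℝ) * w1) = F1 := by exact_mod_cast hw1C
          have h3 : 4 * (C : ℝ) * (C * w1 ^ 2 - F1 * w1 + (ρ * H1 + K)) =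
              (2 * C * w1) ^ 2 - 2 * F1 * (2 * C * w1) + 4 * C * (ρ * H1 + K) := by ring
          rw [h3, h2, hΔ]
          ring
        rcases mul_eq_zero.1 h1 with h2 | h2
        · exact absurd h2 (by positivity)
        · exact h2
      linear_combination (u ^ 2) * e3
    · -- positive definite
      have hΔq : 0 < 4 * C * (ρ * H1 + K) - F1 ^ 2 := by
        have : (F1 : ℚ) ^ 2 < 4 * C * (ρ * H1 + K) := by exact_mod_cast hΔ
        linarith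
      apply no_definite C ρ F1 H1 K L M ((p : ℚ) / q) hCq hΔq
      intro n
      obtain ⟨P, _, hn⟩ := H.surj n
      refine ⟨P.1, P.2, ?_⟩
      have hBz : (B : ℝ) = 0 := by
        rcases mul_eq_zero.1 hB.symm with h1 | h1
        · exact h1
        · exact absurd h1 hσne
      have e1 : (P.2 : ℝ) = (p / q : ℝ) * P.1 + ((P.2 : ℝ) - (p / q : ℝ) * P.1) := by ring
      rw [e1, hexp, hA0, hEρ', hγρ', hBz, q4_valley, hc3'] at hn
      have h2 : ((n : ℚ) : ℝ) = ((C * ((P.1 : ℚ) - ρ * (P.2 - (p : ℚ) / q * P.1) ^ 2) ^ 2 +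
          F1 * ((P.1 : ℚ) - ρ * (P.2 - (p : ℚ) / q * P.1) ^ 2) * (P.2 - (p : ℚ) / q * P.1) +
          H1 * ((P.1 : ℚ) - ρ * (P.2 - (p : ℚ) / q * P.1) ^ 2) +
          (ρ * H1 + K) * (P.2 - (p : ℚ) / q * P.1) ^ 2 + L * (P.2 - (p : ℚ) / q * P.1) + M : ℚ) : ℝ) := by
        push_cast
        rw [← hn]
        ring
      exact_mod_cast h2
  · -- positive cubic term
    obtain ⟨δ, hδ, K0, hK0⟩ := q4_valley_pos C ρ (F1 * σ) H1 (J * σ) K (L * σ) M hC hc3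
    refine ⟨1, one_pos, 0, ?_⟩
    apply thin_of_curve q p hq (fun u => (ρ : ℝ) * u ^ 2) δ K0 hδ
    rintro P ⟨_, _, hP3, _⟩
    have h1 := hK0 P.1 _ hP3
    rw [hval, hA0, ← hB, hEρ', hγρ']
    rw [habs _ hP3]
    refine le_trans (le_of_eq ?_) h1
    have e1 : (σ * ((P.2 : ℝ) - (p / q : ℝ) * P.1)) ^ 2 =
        ((P.2 : ℝ) - (p / q : ℝ) * P.1) ^ 2 := by rw [mul_pow, hσ2, one_mul]
    rw [e1]

end PP72
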