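import Pool.Agent.PP72.Dbl6

/-!
A boundary direction of order three which is a quadratic irrational: local lemmas.
-/

open Polynomial Finset Filter

namespace PP72

variable {α : ℝ} {d : ℕ} {h : ℕ → ℝ[X]}

/-- a strip on which `f` is at least a multiple of the square of the first coordinate -/
theorem thin_sq {f : ℕ × ℕ → ℝ} {A : Set (ℕ × ℕ)} (θ U γ : ℝ) (hU : 0 ≤ U) (hγ : 0 < γ)
    (X0 : ℕ) (hA : ∀ P ∈ A, |(P.2 : ℝ) - θ * P.1| ≤ U)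
    (hf : ∀ P ∈ A, X0 < P.1 → γ * (P.1 : ℝ) ^ 2 ≤ f P) : Thin f A := by
  apply thin_superlinear θ U hU hA
  intro c hc
  obtain ⟨X1, hX1⟩ := exists_nat_ge (c / γ)
  refine ⟨max X0 X1, fun P hP hx => ?_⟩
  have h1 := hf P hP (lt_of_le_of_lt (le_max_left _ _) hx)
  have h2 : (X1 : ℝ) ≤ P.1 := by
    exact_mod_cast ((le_max_right X0 X1).trans hx.le)
  have h3 : c / γ ≤ P.1 := hX1.trans h2
  rw [div_le_iff₀ hγ] at h3
  have h4 : (0 : ℝ) ≤ P.1 := Nat.cast_nonneg _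
  calc c * (P.1 : ℝ) ≤ (P.1 * γ) * P.1 := by gcongr
    _ = γ * (P.1 : ℝ) ^ 2 := by ring
    _ ≤ f P := h1

/-- lattice points of the sector close to the boundary, but not too close -/
theorem exists_annulus {α : ℝ} (hα : Irrational α) (h0 : 0 < α) (Z : ℝ) (hZ : 0 < Z) (X0 : ℕ) :
    ∃ P ∈ Sec α, X0 < P.1 ∧ Z ≤ (P.1 : ℝ) * (α * P.1 - P.2) ∧
      (P.1 : ℝ) * (α * P.1 - P.2) ≤ 2 * Z + 22 := by
  classical
  obtain ⟨⟨q, p⟩, hQ1, hQ2, hQ3⟩ := exists_near_bd hα h0 0 le_rfl X0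
  rw [_root_.sub_zero] at hQ3
  change X0 < q at hQ2
  change (q : ℝ) * |(p : ℝ) - α * q| ≤ 11 at hQ3
  have hQ1' : (p : ℝ) ≤ α * q := hQ1
  have hqpos : 0 < q := by omega
  have hq : (0 : ℝ) < q := by exact_mod_cast hqpos
  have hne : (p : ℝ) ≠ α * q := by
    intro h
    apply hα
    refine ⟨(p : ℚ) / q, ?_⟩
    push_cast
    rw [h]
    field_simp
  set t := (q : ℝ) * (α * q - p) with ht
  have ht0 : 0 < t := by
    apply mul_pos hq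
    have := lt_of_le_of_ne hQ1' hne
    linarith
  have ht11 : t ≤ 11 := by
    rw [abs_of_nonpos (by linarith)] at hQ3
    have e1 : t = (q : ℝ) * -((p : ℝ) - α * q) := by rw [ht]; ring
    rw [e1]
    exact hQ3
  have hex : ∃ m : ℕ, Z ≤ (m : ℝ) ^ 2 * t := by
    obtain ⟨m, hm⟩ := exists_nat_ge (Z / t + 1)
    refine ⟨m, ?_⟩
    have hZt : 0 < Z / t := by positivity
    have hm1 : 1 ≤ (m : ℝ) := by linarith
    have h1 : Z / t ≤ m := by linarith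
    rw [div_le_iff₀ ht0] at h1
    have h2 : (m : ℝ) ≤ (m : ℝ) ^ 2 := by nlinarith
    calc Z ≤ m * t := h1
      _ ≤ (m : ℝ) ^ 2 * t := by gcongr
  have h1 : Z ≤ ((Nat.find hex : ℕ) : ℝ) ^ 2 * t := Nat.find_spec hex
  have hm0 : Nat.find hex ≠ 0 := by
    intro h
    rw [h] at h1
    norm_num at h1
    linarith
  obtain ⟨k, hk⟩ := Nat.exists_eq_succ_of_ne_zero hm0
  have h2 : ¬ Z ≤ ((k : ℕ) : ℝ) ^ 2 * t := Nat.find_min hex (by omega)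
  push Not at h2
  rw [hk] at h1
  set m := k.succ with hm
  have hmk : (m : ℝ) = k + 1 := by rw [hm]; push_cast; ring
  have hmpos : 1 ≤ m := by omega
  have e1 : (((m * q : ℕ) : ℝ)) * (α * ((m * q : ℕ) : ℝ) - ((m * p : ℕ) : ℝ)) = (m : ℝ) ^ 2 * t := by
    push_cast
    rw [ht]
    ring
  refine ⟨(m * q, m * p), ?_, ?_, ?_, ?_⟩
  · change ((m * p : ℕ) : ℝ) ≤ α * ((m * q : ℕ) : ℝ)
    push_cast
    have hm' : (0 : ℝ) ≤ m := Nat.cast_nonneg _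
    calc (m : ℝ) * p ≤ m * (α * q) := by gcongr
      _ = α * (m * q) := by ring
  · change X0 < m * q
    calc X0 < q := hQ2
      _ = 1 * q := (one_mul _).symm
      _ ≤ m * q := Nat.mul_le_mul_right _ hmpos
  · change Z ≤ ((m * q : ℕ) : ℝ) * (α * ((m * q : ℕ) : ℝ) - ((m * p : ℕ) : ℝ))
    rw [e1]
    exact h1
  · change ((m * q : ℕ) : ℝ) * (α * ((m * q : ℕ) : ℝ) - ((m * p : ℕ) : ℝ)) ≤ 2 * Z + 22
    rw [e1, hmk]
    have h3 : ((k : ℝ) + 1) ^ 2 ≤ 2 * (k : ℝ) ^ 2 + 2 := by nlinarith [sq_nonneg ((k : ℝ) - 1)]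
    calc ((k : ℝ) + 1) ^ 2 * t ≤ (2 * (k : ℝ) ^ 2 + 2) * t := by gcongr
      _ = 2 * ((k : ℝ) ^ 2 * t) + 2 * t := by ring
      _ ≤ 2 * Z + 22 := by linarith

/-- the strip around a line, split into the points close to the line and the others -/
theorem Pk.split_quad (H : Pk α d h) (hirr : Irrational α) {β δ0 : ℚ}
    (hq : α ^ 2 + β * α + δ0 = 0) {s ρ W δ : ℝ} (hs : QT α s) (hρ1 : ρ ≤ 1)
    (hW : 0 ≤ W) (hδ : 0 < δ) (X0 : ℕ)
    (hfar : ∀ P ∈ Sec α, X0 < P.1 → |(P.2 : ℝ) - α * P.1 - s| < ρ →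
      W < P.1 * |(P.2 : ℝ) - α * P.1 - s| →
      δ * P.1 ≤ fv d h P ∧ δ * ((P.1 : ℝ) * |(P.2 : ℝ) - α * P.1 - s|) ^ 2 ≤ fv d h P) :
    Thin (fv d h) (Str α α (Set.Ioo (s - ρ) (s + ρ))) := by
  have habs : ∀ u ∈ Set.Ioo (s - ρ) (s + ρ), |u - s| < ρ := by
    intro u hu
    rw [abs_lt]
    constructor <;> linarith [hu.1, hu.2]
  have hsplit : Str α α (Set.Ioo (s - ρ) (s + ρ)) ⊆
      ({P | P ∈ Sec α ∧ X0 < P.1 ∧ |(P.2 : ℝ) - α * P.1 - s| < ρ ∧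
          W < P.1 * |(P.2 : ℝ) - α * P.1 - s|} ∪
        {P | P ∈ Sec α ∧ 0 < P.1 ∧ (P.1 : ℝ) * |(P.2 : ℝ) - α * P.1 - s| ≤ W}) ∪
        {P | P ∈ Sec α ∧ P.1 ≤ X0} := by
    intro P hP
    by_cases h1 : X0 < P.1
    · by_cases h2 : W < P.1 * |(P.2 : ℝ) - α * P.1 - s|
      · exact Or.inl (Or.inl ⟨hP.1, h1, habs _ hP.2, h2⟩)
      · exact Or.inl (Or.inr ⟨hP.1, by omega, not_lt.1 h2⟩)
    · exact Or.inr ⟨hP.1, by omega⟩
  refine Thin.mono (Thin.union (Thin.union ?_ (H.thin_w hirr hq s hs W hW))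
    (thin_finite (finite_x H.pos X0))) hsplit
  apply thin_irr hirr s δ 0 hδ
  · rintro P ⟨h1, h2, h3, h4⟩
    linarith
  · rintro P ⟨h1, h2, h3, h4⟩
    have := (hfar P h1 h2 h3 h4).1
    linarith
  · rintro P ⟨h1, h2, h3, h4⟩
    have := (hfar P h1 h2 h3 h4).2
    rw [mul_pow, sq_abs] at this
    linarith

/-- `f = x³ G(u) + x² B(u) + x E(u) + D(u)`, with `u = y - α x` -/
def Exp3 (f : ℕ × ℕ → ℝ) (α : ℝ) (G B E D : ℝ[X]) : Prop :=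
  ∀ P : ℕ × ℕ, f P = (P.1 : ℝ) ^ 3 * G.eval ((P.2 : ℝ) - α * P.1) +
    (P.1 : ℝ) ^ 2 * B.eval ((P.2 : ℝ) - α * P.1) + P.1 * E.eval ((P.2 : ℝ) - α * P.1) +
    D.eval ((P.2 : ℝ) - α * P.1)

theorem abs_le_of_near {u s : ℝ} (hu : |u - s| ≤ 1) : |u| ≤ |s| + 1 := by
  calc |u| = |(u - s) + s| := by ring_nf
    _ ≤ |u - s| + |s| := abs_add_le _ _
    _ ≤ |s| + 1 := by linarith

theorem near_of_Ioo {u s ρ : ℝ} (hρ1 : ρ ≤ 1) (hu : u ∈ Set.Ioo (s - ρ) (s + ρ)) :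
    |u - s| ≤ 1 := by
  rw [abs_le]
  constructor <;> linarith [hu.1, hu.2]

variable {f : ℕ × ℕ → ℝ} {G B E D : ℝ[X]}

theorem Exp3.pos (hf : Exp3 f α G B E D) {s : ℝ} (hG : 0 < G.eval s) :
    ∃ ρ : ℝ, 0 < ρ ∧ Thin f (Str α α (Set.Ioo (s - ρ) (s + ρ))) := by
  obtain ⟨L, hL0, hL⟩ := poly_lip G s (|s| + 1)
  obtain ⟨CB, hCB0, hCB⟩ := poly_bdd B (|s| + 1)
  obtain ⟨CE, hCE0, hCE⟩ := poly_bdd E (|s| + 1)
  obtain ⟨CD, hCD0, hCD⟩ := poly_bdd D (|s| + 1)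
  set γ := G.eval s / 2 with hγ
  have hγ0 : 0 < γ := by positivity
  set S := CB + CE + CD with hS
  have hS0 : 0 ≤ S := by positivity
  obtain ⟨X0, hX0⟩ := exists_nat_ge ((S + 1) / γ)
  have hρ1 : min 1 (γ / (L + 1)) ≤ 1 := min_le_left _ _
  refine ⟨min 1 (γ / (L + 1)), by positivity, thin_sq α (|s| + 1) 1 (by positivity) one_pos X0
    (fun P hP => abs_le_of_near (near_of_Ioo hρ1 hP.2)) ?_⟩
  rintro P ⟨hP, hu⟩ hx
  have hX : (S + 1) / γ ≤ P.1 := hX0.trans (by exact_mod_cast hx.le)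
  rw [div_le_iff₀ hγ0] at hX
  have hx1 : (1 : ℝ) ≤ P.1 := by
    have : 1 ≤ P.1 := by omega
    exact_mod_cast this
  rw [hf P]
  set u := (P.2 : ℝ) - α * P.1 with hudef
  have hu1 := near_of_Ioo hρ1 hu
  have hu2 := abs_le_of_near hu1
  have hu3 : |u - s| ≤ γ / (L + 1) := by
    have h1 : min 1 (γ / (L + 1)) ≤ γ / (L + 1) := min_le_right _ _
    rw [abs_le]
    constructor <;> linarith [hu.1, hu.2]
  have hG' : γ ≤ G.eval u := by
    have h1 := (abs_le.1 (hL u hu2)).1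
    have h2 : L * |u - s| ≤ γ := by
      calc L * |u - s| ≤ (L + 1) * (γ / (L + 1)) := by
            gcongr
            linarith
        _ = γ := by field_simp
    have h3 : G.eval s = 2 * γ := by rw [hγ]; ring
    linarith
  have hB' := (abs_le.1 (hCB u hu2)).1
  have hE' := (abs_le.1 (hCE u hu2)).1
  have hD' := (abs_le.1 (hCD u hu2)).1
  have hx0 : (0 : ℝ) ≤ P.1 := by linarith
  have hx2 : (P.1 : ℝ) ≤ (P.1 : ℝ) ^ 2 := by nlinarith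
  have hx2' : (1 : ℝ) ≤ (P.1 : ℝ) ^ 2 := by nlinarith
  have k1 : (P.1 : ℝ) ^ 3 * γ ≤ (P.1 : ℝ) ^ 3 * G.eval u := by gcongr
  have k2 : (P.1 : ℝ) ^ 2 * -CB ≤ (P.1 : ℝ) ^ 2 * B.eval u := by gcongr
  have k3 : (P.1 : ℝ) * -CE ≤ (P.1 : ℝ) * E.eval u := by gcongr
  have k4 : (P.1 : ℝ) * CE ≤ (P.1 : ℝ) ^ 2 * CE := by gcongr
  have k5 : 1 * CD ≤ (P.1 : ℝ) ^ 2 * CD := by gcongr
  have k6 : (P.1 : ℝ) ^ 2 * (S + 1) ≤ (P.1 : ℝ) ^ 2 * (P.1 * γ) := by gcongr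
  have k7 : (P.1 : ℝ) ^ 2 * (S + 1) = (P.1 : ℝ) ^ 2 * CB + (P.1 : ℝ) ^ 2 * CE +
    (P.1 : ℝ) ^ 2 * CD + (P.1 : ℝ) ^ 2 := by rw [hS]; ring
  have k8 : (P.1 : ℝ) ^ 2 * (P.1 * γ) = (P.1 : ℝ) ^ 3 * γ := by ring
  linarith

theorem Exp3.second (hf : Exp3 f α G B E D) {s : ℝ} (hG : ∀ u ≤ 0, 0 ≤ G.eval u)
    (hB : 0 < B.eval s) :
    ∃ ρ : ℝ, 0 < ρ ∧ Thin f (Str α α (Set.Ioo (s - ρ) (s + ρ))) := by
  obtain ⟨L, hL0, hL⟩ := poly_lip B s (|s| + 1)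
  obtain ⟨CE, hCE0, hCE⟩ := poly_bdd E (|s| + 1)
  obtain ⟨CD, hCD0, hCD⟩ := poly_bdd D (|s| + 1)
  set γ := B.eval s / 2 with hγ
  have hγ0 : 0 < γ := by positivity
  set S := CE + CD with hS
  have hS0 : 0 ≤ S := by positivity
  obtain ⟨X0, hX0⟩ := exists_nat_ge (2 * S / γ)
  have hρ1 : min 1 (γ / (L + 1)) ≤ 1 := min_le_left _ _
  refine ⟨min 1 (γ / (L + 1)), by positivity, thin_sq α (|s| + 1) (γ / 2) (by positivity)
    (by positivity) X0 (fun P hP => abs_le_of_near (near_of_Ioo hρ1 hP.2)) ?_⟩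
  rintro P ⟨hP, hu⟩ hx
  have hX : 2 * S / γ ≤ P.1 := hX0.trans (by exact_mod_cast hx.le)
  rw [div_le_iff₀ hγ0] at hX
  have hx1 : (1 : ℝ) ≤ P.1 := by
    have : 1 ≤ P.1 := by omega
    exact_mod_cast this
  rw [hf P]
  have hu0 := sec_u hP
  set u := (P.2 : ℝ) - α * P.1 with hudef
  have hu1 := near_of_Ioo hρ1 hu
  have hu2 := abs_le_of_near hu1
  have hu3 : |u - s| ≤ γ / (L + 1) := by
    have h1 : min 1 (γ / (L + 1)) ≤ γ / (L + 1) := min_le_right _ _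
    rw [abs_le]
    constructor <;> linarith [hu.1, hu.2]
  have hB' : γ ≤ B.eval u := by
    have h1 := (abs_le.1 (hL u hu2)).1
    have h2 : L * |u - s| ≤ γ := by
      calc L * |u - s| ≤ (L + 1) * (γ / (L + 1)) := by
            gcongr
            linarith
        _ = γ := by field_simp
    have h3 : B.eval s = 2 * γ := by rw [hγ]; ring
    linarith
  have hG' := hG u hu0
  have hE' := (abs_le.1 (hCE u hu2)).1
  have hD' := (abs_le.1 (hCD u hu2)).1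
  have hx0 : (0 : ℝ) ≤ P.1 := by linarith
  have k1 : 0 ≤ (P.1 : ℝ) ^ 3 * G.eval u := by positivity
  have k2 : (P.1 : ℝ) ^ 2 * γ ≤ (P.1 : ℝ) ^ 2 * B.eval u := by gcongr
  have k3 : (P.1 : ℝ) * -CE ≤ (P.1 : ℝ) * E.eval u := by gcongr
  have k5 : 1 * CD ≤ (P.1 : ℝ) * CD := by gcongr
  have k6 : (P.1 : ℝ) * (2 * S) ≤ (P.1 : ℝ) * (P.1 * γ) := by gcongr
  have k7 : (P.1 : ℝ) * (2 * S) = 2 * ((P.1 : ℝ) * CE + (P.1 : ℝ) * CD) := by rw [hS]; ring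
  have k8 : (P.1 : ℝ) * (P.1 * γ) = (P.1 : ℝ) ^ 2 * γ := by ring
  have k9 : γ / 2 * (P.1 : ℝ) ^ 2 = (P.1 : ℝ) ^ 2 * γ / 2 := by ring
  linarith

/-- the second coefficient is nonnegative at a double zero of the first one -/
theorem Pk.exp3_nonneg (H : Pk α d h) (hirr : Irrational α) (hf : Exp3 (fv d h) α G B E D)
    {s C : ℝ} (hs0 : s ≤ 0) (hC : 0 ≤ C)
    (hG2 : ∀ u ≤ 0, |u - s| ≤ 1 → G.eval u ≤ C * (u - s) ^ 2) : 0 ≤ B.eval s := by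
  by_contra hneg
  push Not at hneg
  obtain ⟨L, hL0, hL⟩ := poly_lip B s (|s| + 1)
  obtain ⟨CE, hCE0, hCE⟩ := poly_bdd E (|s| + 1)
  obtain ⟨CD, hCD0, hCD⟩ := poly_bdd D (|s| + 1)
  set κ := -B.eval s with hκ
  have hκ0 : 0 < κ := by rw [hκ]; linarith
  set S := 121 * C + 11 * L + CE + CD with hS
  have hS0 : 0 ≤ S := by positivity
  obtain ⟨X0, hX0⟩ := exists_nat_ge (S / κ + 11)
  obtain ⟨P, hP1, hP2, hP3⟩ := exists_near_bd hirr H.pos s hs0 X0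
  have hxX : (X0 : ℝ) < P.1 := by exact_mod_cast hP2
  have hSκ : 0 ≤ S / κ := by positivity
  have hx11 : (11 : ℝ) < P.1 := by linarith
  have hxS : S / κ < P.1 := by linarith
  rw [div_lt_iff₀ hκ0] at hxS
  have hx0 : (0 : ℝ) < P.1 := by linarith
  have hx1 : (1 : ℝ) ≤ P.1 := by linarith
  have hF := H.fv_nonneg hP1
  have hu0 := sec_u hP1
  rw [hf P] at hF
  set u := (P.2 : ℝ) - α * P.1 with hudef
  have hu1 : |u - s| ≤ 1 := by
    by_contra hcon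
    push Not at hcon
    have h4 : (P.1 : ℝ) * 1 < P.1 * |u - s| := mul_lt_mul_of_pos_left hcon hx0
    linarith
  have hu2 := abs_le_of_near hu1
  have hG' := hG2 u hu0 hu1
  have hB' := (abs_le.1 (hL u hu2)).2
  have hE' := (abs_le.1 (hCE u hu2)).2
  have hD' := (abs_le.1 (hCD u hu2)).2
  have k1 : (P.1 : ℝ) ^ 3 * G.eval u ≤ P.1 * (121 * C) := by
    have h4 : ((P.1 : ℝ) * |u - s|) ^ 2 ≤ 11 ^ 2 := by gcongr
    calc (P.1 : ℝ) ^ 3 * G.eval u ≤ (P.1 : ℝ) ^ 3 * (C * (u - s) ^ 2) := by gcongr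
      _ = P.1 * (((P.1 : ℝ) * |u - s|) ^ 2 * C) := by
          rw [mul_pow, sq_abs]
          ring
      _ ≤ P.1 * (11 ^ 2 * C) := by gcongr
      _ = P.1 * (121 * C) := by norm_num
  have k2 : (P.1 : ℝ) ^ 2 * B.eval u ≤ P.1 * (11 * L) - P.1 * (P.1 * κ) := by
    have h5 : (P.1 : ℝ) ^ 2 * B.eval u ≤ (P.1 : ℝ) ^ 2 * (B.eval s + L * |u - s|) := by
      gcongr
      linarith
    have h6 : P.1 * (L * (P.1 * |u - s|)) ≤ P.1 * (L * 11) := by gcongr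
    have h7 : (P.1 : ℝ) ^ 2 * (B.eval s + L * |u - s|) =
        P.1 * (L * (P.1 * |u - s|)) - P.1 * (P.1 * κ) := by rw [hκ]; ring
    linarith
  have k3 : (P.1 : ℝ) * E.eval u ≤ P.1 * CE := by gcongr
  have k4 : 1 * CD ≤ P.1 * CD := by gcongr
  have k5 : (P.1 : ℝ) * S < P.1 * (P.1 * κ) := by gcongr
  have k6 : (P.1 : ℝ) * S = P.1 * (121 * C) + P.1 * (11 * L) + P.1 * CE + P.1 * CD := by
    rw [hS]
    ring
  linarith

theorem Pk.exp3_simple (H : Pk α d h) (hirr : Irrational α) {β δ0 : ℚ}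
    (hq : α ^ 2 + β * α + δ0 = 0) (hf : Exp3 (fv d h) α G B E D) {b ρ0 : ℝ} (hb : 0 < b)
    (hρ0 : 0 < ρ0) (hG : ∀ u ≤ 0, |u| ≤ ρ0 → b * |u| ≤ G.eval u) :
    ∃ ρ : ℝ, 0 < ρ ∧ Thin (fv d h) (Str α α (Set.Ioo (0 - ρ) (0 + ρ))) := by
  obtain ⟨CB, hCB0, hCB⟩ := poly_bdd B 1
  obtain ⟨CE, hCE0, hCE⟩ := poly_bdd E 1
  obtain ⟨CD, hCD0, hCD⟩ := poly_bdd D 1
  set S := CB + CE + CD with hS
  have hS0 : 0 ≤ S := by positivity
  refine ⟨min 1 ρ0, by positivity, H.split_quad hirr hq (W := 2 * (S + 1) / b)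
    (δ := min 1 (b / 2)) (by simpa using QT.rat α 0) (min_le_left _ _) (by positivity)
    (by positivity) 0 ?_⟩
  intro P hP hx hu hW
  have hx1 : (1 : ℝ) ≤ P.1 := by exact_mod_cast hx
  have hx0 : (0 : ℝ) ≤ P.1 := by linarith
  have hu0 := sec_u hP
  rw [_root_.sub_zero] at hu hW ⊢
  rw [hf P]
  set u := (P.2 : ℝ) - α * P.1 with hudef
  have hu1 : |u| ≤ 1 := hu.le.trans (min_le_left _ _)
  have hu2 : |u| ≤ ρ0 := hu.le.trans (min_le_right _ _)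
  have hG' := hG u hu0 hu2
  have hB' := (abs_le.1 (hCB u hu1)).1
  have hE' := (abs_le.1 (hCE u hu1)).1
  have hD' := (abs_le.1 (hCD u hu1)).1
  set z := (P.1 : ℝ) * |u| with hz
  have hz0 : 0 ≤ z := by positivity
  have hzx : z ≤ P.1 := by
    calc z = P.1 * |u| := hz
      _ ≤ P.1 * 1 := by gcongr
      _ = P.1 := mul_one _
  rw [div_lt_iff₀ hb] at hW
  have hx2 : (P.1 : ℝ) ≤ (P.1 : ℝ) ^ 2 := by nlinarith
  have hx2' : (1 : ℝ) ≤ (P.1 : ℝ) ^ 2 := by linarith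
  have k1 : (P.1 : ℝ) ^ 3 * (b * |u|) ≤ (P.1 : ℝ) ^ 3 * G.eval u := by gcongr
  have k2 : (P.1 : ℝ) ^ 2 * -CB ≤ (P.1 : ℝ) ^ 2 * B.eval u := by gcongr
  have k3 : (P.1 : ℝ) * -CE ≤ (P.1 : ℝ) * E.eval u := by gcongr
  have k4 : (P.1 : ℝ) * CE ≤ (P.1 : ℝ) ^ 2 * CE := by gcongr
  have k5 : 1 * CD ≤ (P.1 : ℝ) ^ 2 * CD := by gcongr
  have k6 : (P.1 : ℝ) ^ 3 * (b * |u|) = (P.1 : ℝ) ^ 2 * (z * b) := by rw [hz]; ring
  have k7 : (P.1 : ℝ) ^ 2 * (S + 1) ≤ (P.1 : ℝ) ^ 2 * (z * b / 2) := by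
    gcongr
    linarith
  have k8 : (P.1 : ℝ) ^ 2 * (S + 1) = (P.1 : ℝ) ^ 2 * CB + (P.1 : ℝ) ^ 2 * CE +
    (P.1 : ℝ) ^ 2 * CD + (P.1 : ℝ) ^ 2 := by rw [hS]; ring
  have k9 : (P.1 : ℝ) ^ 2 * (z * b / 2) = (P.1 : ℝ) ^ 2 * (z * b) / 2 := by ring
  constructor
  · have h1 : min 1 (b / 2) * (P.1 : ℝ) ≤ 1 * P.1 := by
      gcongr
      exact min_le_left _ _
    have h2 : 0 ≤ (P.1 : ℝ) ^ 2 * (z * b) := by positivity
    linarith
  · have h1 : min 1 (b / 2) * z ^ 2 ≤ b / 2 * z ^ 2 := by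
      gcongr
      exact min_le_right _ _
    have h2 : b / 2 * z ^ 2 ≤ (P.1 : ℝ) ^ 2 * (z * b) / 2 := by
      calc b / 2 * z ^ 2 = b / 2 * (z * z) := by ring
        _ ≤ b / 2 * ((P.1 : ℝ) ^ 2 * z) := by
            gcongr
            linarith
        _ = (P.1 : ℝ) ^ 2 * (z * b) / 2 := by ring
    linarith

theorem Pk.exp3_double (H : Pk α d h) (hirr : Irrational α) {β δ0 : ℚ}
    (hq : α ^ 2 + β * α + δ0 = 0) (hf : Exp3 (fv d h) α G B E D) {s c C ρ0 : ℝ}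
    (hs0 : s ≤ 0) (hs : QT α s) (hc : 0 < c) (hC : 0 ≤ C) (hρ0 : 0 < ρ0)
    (hGnn : ∀ u ≤ 0, 0 ≤ G.eval u)
    (hG1 : ∀ u ≤ 0, |u - s| ≤ ρ0 → c * (u - s) ^ 2 ≤ G.eval u)
    (hG2 : ∀ u ≤ 0, |u - s| ≤ 1 → G.eval u ≤ C * (u - s) ^ 2) :
    ∃ ρ : ℝ, 0 < ρ ∧ Thin (fv d h) (Str α α (Set.Ioo (s - ρ) (s + ρ))) := by
  rcases (H.exp3_nonneg hirr hf hs0 hC hG2).lt_or_eq with hpos | hzero
  · exact hf.second hGnn hpos
  obtain ⟨L, hL0, hL⟩ := poly_lip B s (|s| + 1)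
  obtain ⟨CE, hCE0, hCE⟩ := poly_bdd E (|s| + 1)
  obtain ⟨CD, hCD0, hCD⟩ := poly_bdd D (|s| + 1)
  set S := CE + CD with hS
  have hS0 : 0 ≤ S := by positivity
  refine ⟨min 1 ρ0, by positivity, H.split_quad hirr hq (W := max 1 (2 * (L + S) / c))
    (δ := c / 2) hs (min_le_left _ _) (by positivity) (by positivity) 0 ?_⟩
  intro P hP hx hu hW
  have hx1 : (1 : ℝ) ≤ P.1 := by exact_mod_cast hx
  have hx0 : (0 : ℝ) ≤ P.1 := by linarith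
  have hu0 := sec_u hP
  rw [hf P]
  set u := (P.2 : ℝ) - α * P.1 with hudef
  have hu1 : |u - s| ≤ 1 := hu.le.trans (min_le_left _ _)
  have hu3 : |u - s| ≤ ρ0 := hu.le.trans (min_le_right _ _)
  have hu2 := abs_le_of_near hu1
  have hG' := hG1 u hu0 hu3
  have hB' := (abs_le.1 (hL u hu2)).1
  rw [← hzero] at hB'
  have hE' := (abs_le.1 (hCE u hu2)).1
  have hD' := (abs_le.1 (hCD u hu2)).1
  set z := (P.1 : ℝ) * |u - s| with hz
  have hz1 : 1 < z := (le_max_left _ _).trans_lt hW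
  have hz2 : 2 * (L + S) / c < z := (le_max_right _ _).trans_lt hW
  rw [div_lt_iff₀ hc] at hz2
  have k1 : (P.1 : ℝ) ^ 3 * (c * (u - s) ^ 2) ≤ (P.1 : ℝ) ^ 3 * G.eval u := by gcongr
  have k1' : (P.1 : ℝ) ^ 3 * (c * (u - s) ^ 2) = P.1 * (c * z ^ 2) := by
    rw [hz, mul_pow, sq_abs]
    ring
  have k2 : (P.1 : ℝ) ^ 2 * (-(L * |u - s|)) ≤ (P.1 : ℝ) ^ 2 * B.eval u := by
    gcongr
    linarith
  have k2' : (P.1 : ℝ) ^ 2 * (-(L * |u - s|)) = -(P.1 * (L * z)) := by rw [hz]; ring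
  have k3 : (P.1 : ℝ) * -CE ≤ (P.1 : ℝ) * E.eval u := by gcongr
  have k5 : 1 * CD ≤ (P.1 : ℝ) * CD := by gcongr
  have k6 : L * z + S ≤ c / 2 * z ^ 2 := by
    have h1 : S ≤ S * z := le_mul_of_one_le_right hS0 hz1.le
    have h2 : (L + S) * z ≤ (z * c / 2) * z := by
      gcongr
      linarith
    have h3 : (z * c / 2) * z = c / 2 * z ^ 2 := by ring
    linarith
  have k7 : (P.1 : ℝ) * (L * z + S) ≤ P.1 * (c / 2 * z ^ 2) := by gcongr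
  have k8 : (P.1 : ℝ) * (L * z + S) = P.1 * (L * z) + P.1 * CE + P.1 * CD := by rw [hS]; ring
  have k9 : (P.1 : ℝ) * (c / 2 * z ^ 2) = P.1 * (c * z ^ 2) / 2 := by ring
  constructor
  · have h1 : 1 ≤ z ^ 2 := one_le_pow₀ hz1.le
    have h2 : c / 2 * (P.1 : ℝ) ≤ P.1 * (c * z ^ 2) / 2 := by
      calc c / 2 * (P.1 : ℝ) = P.1 * (c * 1) / 2 := by ring
        _ ≤ P.1 * (c * z ^ 2) / 2 := by gcongr
    linarith
  · have h2 : c / 2 * z ^ 2 ≤ P.1 * (c * z ^ 2) / 2 := by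
      calc c / 2 * z ^ 2 = 1 * (c * z ^ 2) / 2 := by ring
        _ ≤ P.1 * (c * z ^ 2) / 2 := by gcongr
    linarith

theorem Pk.exp3_triple (H : Pk α d h) (hirr : Irrational α) {β δ0 : ℚ}
    (hq : α ^ 2 + β * α + δ0 = 0) (hf : Exp3 (fv d h) α G B E D) {a : ℝ} (ha : 0 < a)
    (hG : ∀ u, G.eval u = -(a * u ^ 3)) :
    ∃ ρ : ℝ, 0 < ρ ∧ Thin (fv d h) (Str α α (Set.Ioo (0 - ρ) (0 + ρ))) := by
  have hGnn : ∀ u ≤ 0, 0 ≤ G.eval u := by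
    intro u hu
    rw [hG]
    have h1 : 0 ≤ (-u) ^ 3 := by
      have : 0 ≤ -u := by linarith
      positivity
    have h2 : -(a * u ^ 3) = a * (-u) ^ 3 := by ring
    rw [h2]
    positivity
  have hG2 : ∀ u ≤ 0, |u - 0| ≤ 1 → G.eval u ≤ a * (u - 0) ^ 2 := by
    intro u hu hu1
    rw [_root_.sub_zero] at hu1 ⊢
    rw [hG]
    have h1 : -u ≤ 1 := by
      have := neg_le_abs u
      linarith
    have h2 : -(a * u ^ 3) = a * u ^ 2 * -u := by ring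
    rw [h2]
    have h3 : a * u ^ 2 * -u ≤ a * u ^ 2 * 1 := by gcongr
    linarith
  rcases (H.exp3_nonneg hirr hf le_rfl ha.le hG2).lt_or_eq with hpos | hzero
  · exact hf.second hGnn hpos
  obtain ⟨L2, hL20, hL2⟩ := poly_lip2 B 0 1
  obtain ⟨L3, hL30, hL3⟩ := poly_lip E 0 1
  obtain ⟨CD, hCD0, hCD⟩ := poly_bdd D 1
  set b := -(derivative B).eval 0 with hb
  set e := E.eval 0 with he
  set C := L2 + L3 + CD with hC
  have hC0 : 0 ≤ C := by positivity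
  -- the expansion in `z`
  have hexp : ∀ P ∈ Sec α, 1 ≤ (P.1 : ℝ) → α * P.1 - P.2 ≤ 1 →
      |fv d h P - (a * ((P.1 : ℝ) * (α * P.1 - P.2)) ^ 3 +
        P.1 * (b * ((P.1 : ℝ) * (α * P.1 - P.2)) + e))| ≤
      C * (1 + ((P.1 : ℝ) * (α * P.1 - P.2)) ^ 2) := by
    intro P hP hx hv
    have hu0 := sec_u hP
    rw [hf P]
    set u := (P.2 : ℝ) - α * P.1 with hudef
    have hvu : α * P.1 - P.2 = -u := by rw [hudef]; ring
    rw [hvu] at hv ⊢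
    have hx0 : (0 : ℝ) ≤ P.1 := by linarith
    have hu1 : |u| ≤ 1 := by
      rw [abs_of_nonpos hu0]
      exact hv
    have g2 := hL2 u hu1
    have g3 := hL3 u hu1
    have g4 := hCD u hu1
    rw [← hzero] at g2
    rw [_root_.sub_zero] at g3
    simp only [_root_.sub_zero] at g2
    rw [hG]
    set z := (P.1 : ℝ) * -u with hz
    have hz0 : 0 ≤ z := by
      apply mul_nonneg hx0
      linarith
    have e1 : (P.1 : ℝ) ^ 3 * -(a * u ^ 3) + (P.1 : ℝ) ^ 2 * B.eval u + P.1 * E.eval u +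
        D.eval u - (a * z ^ 3 + P.1 * (b * z + e)) =
        (P.1 : ℝ) ^ 2 * (B.eval u - (derivative B).eval 0 * u) + P.1 * (E.eval u - e) +
          D.eval u := by
      rw [hz, hb]
      ring
    rw [e1]
    have t1 : |(P.1 : ℝ) ^ 2 * (B.eval u - (derivative B).eval 0 * u)| ≤ L2 * z ^ 2 := by
      rw [abs_mul, abs_of_nonneg (by positivity)]
      calc (P.1 : ℝ) ^ 2 * |B.eval u - (derivative B).eval 0 * u| ≤
          (P.1 : ℝ) ^ 2 * (L2 * u ^ 2) := by gcongr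
        _ = L2 * z ^ 2 := by rw [hz]; ring
    have t2 : |(P.1 : ℝ) * (E.eval u - e)| ≤ L3 * z := by
      rw [abs_mul, abs_of_nonneg hx0]
      calc (P.1 : ℝ) * |E.eval u - e| ≤ P.1 * (L3 * |u|) := by gcongr
        _ = L3 * z := by
            rw [hz, abs_of_nonpos hu0]
            ring
    have t3 : |(P.1 : ℝ) ^ 2 * (B.eval u - (derivative B).eval 0 * u) + P.1 * (E.eval u - e) +
        D.eval u| ≤ L2 * z ^ 2 + L3 * z + CD := by
      refine (abs_add_le _ _).trans (add_le_add ((abs_add_le _ _).trans (add_le_add t1 t2)) g4)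
    have t4 : z ≤ 1 + z ^ 2 := by nlinarith [sq_nonneg (z - 1)]
    have t5 : L3 * z ≤ L3 * (1 + z ^ 2) := by gcongr
    have t6 : 0 ≤ z ^ 2 := sq_nonneg z
    have t7 : 0 ≤ L2 * 1 := by positivity
    have t8 : 0 ≤ CD * z ^ 2 := by positivity
    rw [hC]
    linarith
  -- the sign of `b`
  have hb0 : 0 ≤ b := by
    by_contra hneg
    push Not at hneg
    have hnb : 0 < -b := by linarith
    set Z := (|e| + 1) / -b with hZ
    have hZ0 : 0 < Z := by positivity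
    set Z2 := 2 * Z + 22 with hZ2
    have hZ20 : 0 ≤ Z2 := by positivity
    obtain ⟨X0, hX0⟩ := exists_nat_ge (a * Z2 ^ 3 + C * (1 + Z2 ^ 2) + Z2 + 1)
    obtain ⟨P, hP1, hP2, hP3, hP4⟩ := exists_annulus hirr H.pos Z hZ0 X0
    have hxX : (X0 : ℝ) < P.1 := by exact_mod_cast hP2
    have p1 : 0 ≤ a * Z2 ^ 3 := by positivity
    have p2 : 0 ≤ C * (1 + Z2 ^ 2) := by positivity
    have hx1 : (1 : ℝ) ≤ P.1 := by linarith
    have hx0 : (0 : ℝ) < P.1 := by linarith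
    have hxZ : Z2 ≤ P.1 := by linarith
    have hv : α * P.1 - P.2 ≤ 1 := by
      by_contra hcon
      push Not at hcon
      have h4 : (P.1 : ℝ) * 1 < P.1 * (α * P.1 - P.2) := mul_lt_mul_of_pos_left hcon hx0
      linarith
    have h1 := (abs_le.1 (hexp P hP1 hx1 hv)).2
    have hF := H.fv_nonneg hP1
    set z := (P.1 : ℝ) * (α * P.1 - P.2) with hz
    have hz0 : 0 ≤ z := hZ0.le.trans hP3
    have h2 : b * z + e ≤ -1 := by
      have h3 : -b * Z ≤ -b * z := by gcongr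
      have h4 : -b * Z = |e| + 1 := by
        rw [hZ, mul_comm]
        exact div_mul_cancel₀ _ hnb.ne'
      have h5 := le_abs_self e
      linarith
    have h6 : P.1 * (b * z + e) ≤ P.1 * -1 := by gcongr
    have h7 : a * z ^ 3 ≤ a * Z2 ^ 3 := by gcongr
    have h8 : C * (1 + z ^ 2) ≤ C * (1 + Z2 ^ 2) := by gcongr
    linarith
  -- the sign of `e`, when `b = 0`
  have he0 : b = 0 → 0 < e := by
    intro hbz
    by_contra hneg
    push Not at hneg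
    have hfin := H.finite_sublevel (a * 11 ^ 3 + C * (1 + 11 ^ 2))
    obtain ⟨M, hM⟩ := (hfin.image Prod.fst).bddAbove
    obtain ⟨P, hP1, hP2, hP3⟩ := exists_near_bd hirr H.pos 0 le_rfl (M + 11)
    have hx11 : (11 : ℝ) < P.1 := by
      have : 11 < P.1 := by omega
      exact_mod_cast this
    have hx1 : (1 : ℝ) ≤ P.1 := by linarith
    have hx0 : (0 : ℝ) < P.1 := by linarith
    have hu0 := sec_u hP1
    rw [_root_.sub_zero, abs_of_nonpos hu0] at hP3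
    have e1 : -((P.2 : ℝ) - α * P.1) = α * P.1 - P.2 := by ring
    rw [e1] at hP3
    have hv : α * P.1 - P.2 ≤ 1 := by
      by_contra hcon
      push Not at hcon
      have h4 : (P.1 : ℝ) * 1 < P.1 * (α * P.1 - P.2) := mul_lt_mul_of_pos_left hcon hx0
      linarith
    have h1 := (abs_le.1 (hexp P hP1 hx1 hv)).2
    have hz0 : 0 ≤ (P.1 : ℝ) * (α * P.1 - P.2) := by
      apply mul_nonneg hx0.le
      linarith
    set z := (P.1 : ℝ) * (α * P.1 - P.2) with hz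
    rw [hbz] at h1
    have h2 : P.1 * (0 * z + e) ≤ 0 := by
      rw [zero_mul, zero_add]
      exact mul_nonpos_of_nonneg_of_nonpos hx0.le hneg
    have h7 : a * z ^ 3 ≤ a * 11 ^ 3 := by gcongr
    have h8 : C * (1 + z ^ 2) ≤ C * (1 + 11 ^ 2) := by gcongr
    have hmem : P ∈ {P : ℕ × ℕ | P ∈ Sec α ∧ fv d h P ≤ a * 11 ^ 3 + C * (1 + 11 ^ 2)} :=
      ⟨hP1, by linarith⟩
    have := hM (Set.mem_image_of_mem Prod.fst hmem)
    omega
  -- far from the line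
  obtain ⟨W0, hW01, hW0⟩ : ∃ W0 : ℝ, 1 ≤ W0 ∧ ∀ z : ℝ, W0 ≤ z →
      C * (1 + z ^ 2) ≤ a / 2 * z ^ 3 := by
    refine ⟨max 1 (4 * C / a), le_max_left _ _, fun z hz => ?_⟩
    have h1 : 1 ≤ z := (le_max_left _ _).trans hz
    have h2 : 4 * C / a ≤ z := (le_max_right _ _).trans hz
    rw [div_le_iff₀ ha] at h2
    have h3 : 1 + z ^ 2 ≤ 2 * z ^ 2 := by nlinarith
    calc C * (1 + z ^ 2) ≤ C * (2 * z ^ 2) := by gcongr
      _ = (4 * C) / 2 * z ^ 2 := by ring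
      _ ≤ (z * a) / 2 * z ^ 2 := by gcongr
      _ = a / 2 * z ^ 3 := by ring
  obtain ⟨W1, δ1, hW1, hδ1, hlin⟩ : ∃ W1 δ1 : ℝ, 1 ≤ W1 ∧ 0 < δ1 ∧ ∀ z : ℝ, W1 ≤ z →
      δ1 ≤ b * z + e := by
    rcases hb0.lt_or_eq with hpos | hbz
    · refine ⟨max 1 ((|e| + 1) / b), 1, le_max_left _ _, one_pos, fun z hz => ?_⟩
      have h2 : (|e| + 1) / b ≤ z := (le_max_right _ _).trans hz
      rw [div_le_iff₀ hpos] at h2
      have := neg_abs_le e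
      linarith
    · refine ⟨1, e, le_rfl, he0 hbz.symm, fun z _ => ?_⟩
      rw [← hbz]
      linarith
  refine ⟨1, one_pos, H.split_quad hirr hq (W := max W0 W1) (δ := min δ1 (a / 2))
    (by simpa using QT.rat α 0) le_rfl (by positivity) (by positivity) 0 ?_⟩
  intro P hP hx hu hW
  have hx1 : (1 : ℝ) ≤ P.1 := by exact_mod_cast hx
  have hx0 : (0 : ℝ) ≤ P.1 := by linarith
  have hu0 := sec_u hP
  have e1 : |(P.2 : ℝ) - α * P.1 - 0| = α * P.1 - P.2 := by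
    rw [_root_.sub_zero, abs_of_nonpos hu0]
    ring
  rw [e1] at hu hW ⊢
  have h1 := (abs_le.1 (hexp P hP hx1 hu.le)).1
  set z := (P.1 : ℝ) * (α * P.1 - P.2) with hz
  have hz0 : W0 ≤ z := (le_max_left _ _).trans hW.le
  have hz1 : W1 ≤ z := (le_max_right _ _).trans hW.le
  have h2 := hW0 z hz0
  have h3 := hlin z hz1
  have h4 : P.1 * δ1 ≤ P.1 * (b * z + e) := by gcongr
  have hz1' : 1 ≤ z := hW01.trans hz0
  have h5 : z ^ 2 ≤ z ^ 3 := pow_le_pow_right₀ hz1' (by norm_num)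
  have h6 : a / 2 * z ^ 2 ≤ a / 2 * z ^ 3 := by gcongr
  have h7 : a * z ^ 3 = a / 2 * z ^ 3 + a / 2 * z ^ 3 := by ring
  have h8 : 0 ≤ a / 2 * z ^ 3 := by positivity
  have h9 : 0 ≤ P.1 * δ1 := by positivity
  constructor
  · have : min δ1 (a / 2) * (P.1 : ℝ) ≤ δ1 * P.1 := by
      gcongr
      exact min_le_left _ _
    linarith
  · have : min δ1 (a / 2) * z ^ 2 ≤ a / 2 * z ^ 2 := by
      gcongr
      exact min_le_right _ _
    linarith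

end PP72
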