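import Pool.Agent.PP72.Boundary
import Pool.Agent.PP72.Aux4

/-!
Zeros of the leading form at which the next form does not vanish.
-/

open Polynomial Finset Filter

namespace PP72

variable {α : ℝ} {d : ℕ} {h : ℕ → ℝ[X]}

/-- lattice points of the sector close to a line through the origin -/
theorem exists_zero (hα0 : 0 < α) {θ : ℝ} (hθ : θ ∈ Set.Icc 0 α) (X0 : ℕ) :
    ∃ P ∈ Sec α, X0 < P.1 ∧ (P.1 : ℝ) * |(P.2 : ℝ) - θ * P.1 - 0| ≤ 11 := by
  by_cases hirr : Irrational θ
  · have h0 : 0 < θ := lt_of_le_of_ne hθ.1 (by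
      rintro rfl
      exact hirr ⟨0, by simp⟩)
    rcases hθ.2.lt_or_eq with hlt | heq
    · obtain ⟨P, h1, h2, h3⟩ := exists_near hirr h0 hlt 0 X0
      exact ⟨P, h1, h2, h3.trans (by norm_num)⟩
    · rw [heq] at hirr h0 ⊢
      exact exists_near_bd hirr h0 0 le_rfl X0
  · obtain ⟨r, hr⟩ : ∃ r : ℚ, (r : ℝ) = θ := by
      unfold Irrational at hirr
      push Not at hirr
      exact hirr
    have hr0 : (0 : ℚ) ≤ r := by
      have := hθ.1
      rw [← hr] at this
      exact_mod_cast this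
    have hrα : (r : ℝ) ≤ α := by
      rw [hr]
      exact hθ.2
    obtain ⟨hv, h2⟩ := rat_slope hr0 hrα
    refine ⟨((X0 + 1) * r.den, (X0 + 1) * r.num.toNat), sec_smul hv (X0 + 1), ?_, ?_⟩
    · have := r.den_pos
      change X0 < (X0 + 1) * r.den
      nlinarith
    · rw [← hr, h2]
      have hden : ((r.den : ℕ) : ℝ) ≠ 0 := by exact_mod_cast r.den_pos.ne'
      have e : (((((X0 + 1) * r.den, (X0 + 1) * r.num.toNat) : ℕ × ℕ).2 : ℕ) : ℝ) -
          ((r.num.toNat : ℕ) : ℝ) / ((r.den : ℕ) : ℝ) *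
          (((((X0 + 1) * r.den, (X0 + 1) * r.num.toNat) : ℕ × ℕ).1 : ℕ) : ℝ) - 0 = 0 := by
        push_cast
        field_simp
        ring
      rw [e, abs_zero, mul_zero]
      norm_num

/-- the next form is nonnegative at the zeros of the leading form -/
theorem Pk.sub_nonneg (K : ℕ) (H : Pk α (K + 2) h) {θ : ℝ} (hθ : θ ∈ Set.Icc 0 α)
    (hz : (h (K + 2)).eval θ = 0) : 0 ≤ (h (K + 1)).eval θ := by
  by_contra hneg
  push Not at hneg
  refine H.neg_top (θ := θ) K (by omega) ?_ 0 ?_ (exists_zero H.pos hθ)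
  · intro j hj1 hj2 u
    obtain rfl : j = K + 2 := by omega
    have h1 : (gT (K + 2) h θ (K + 2)).natDegree ≤ 0 := by
      have := gT_natDegree_le (d := K + 2) (h := h) θ (K + 2)
      omega
    rw [eq_C_of_natDegree_le_zero h1, eval_C, gT_coeff, if_pos (by omega), zero_add,
      taylor_coeff_zero, hz]
  · rw [← coeff_zero_eq_eval_zero, gT_coeff, if_pos (by omega), zero_add, taylor_coeff_zero]
    exact hneg

/-- zeros of the leading form at which the next form is positive, degree at least four -/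
theorem Pk.near_sub (K : ℕ) (hK : 2 ≤ K) (H : Pk α (K + 2) h) (θ : ℝ)
    (hpos : 0 < (h (K + 1)).eval θ) :
    ∃ ε : ℝ, 0 < ε ∧ Thin (fv (K + 2) h) (Near α θ ε) := by
  set c := (h (K + 1)).eval θ / 2 with hc
  have hc0 : 0 < c := by positivity
  have hopen : IsOpen {t : ℝ | c < (h (K + 1)).eval t} :=
    isOpen_lt continuous_const (h (K + 1)).continuous
  obtain ⟨r, hr, hball⟩ := Metric.isOpen_iff.1 hopen θ (by
    change c < (h (K + 1)).eval θ
    rw [hc]
    linarith)
  -- bounds for the lower forms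
  have hb : ∀ k : ℕ, ∃ B : ℝ, 0 ≤ B ∧ ∀ t ∈ Set.Icc (θ - r) (θ + r), |(h k).eval t| ≤ B := by
    intro k
    obtain ⟨B, hB⟩ := (isCompact_Icc (a := θ - r) (b := θ + r)).exists_bound_of_continuousOn
      (h k).continuous.continuousOn
    refine ⟨max B 0, le_max_right _ _, fun t ht => ?_⟩
    exact (hB t ht).trans (le_max_left _ _)
  choose B hB0 hB using hb
  set S := ∑ k ∈ range (K + 1), B k with hS
  have hS0 : 0 ≤ S := Finset.sum_nonneg fun k _ => hB0 k
  obtain ⟨x1, hx1⟩ := exists_nat_ge (2 * S / c)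
  refine ⟨r, hr, ?_⟩
  have hsplit : Near α θ r ⊆ {P | P ∈ Near α θ r ∧ x1 + 1 ≤ P.1} ∪
      {P | P ∈ Sec α ∧ P.1 ≤ x1} := by
    intro P hP
    by_cases h1 : x1 + 1 ≤ P.1
    · exact Or.inl ⟨hP, h1⟩
    · exact Or.inr ⟨hP.1, by omega⟩
  refine Thin.mono (Thin.union ?_ (thin_finite (finite_x H.pos x1))) hsplit
  apply thin_of_bound 0 (c / 2 / (1 + α ^ 3)) (by have := H.pos; positivity)
  rintro P ⟨⟨hP1, hP2, hP3⟩, hP4⟩
  have hxpos : (0 : ℝ) < P.1 := by exact_mod_cast hP2
  have hx1' : (1 : ℝ) ≤ P.1 := by exact_mod_cast hP2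
  have hxx : (x1 : ℝ) ≤ P.1 := by exact_mod_cast (by omega : x1 ≤ P.1)
  have hslope : (P.2 : ℝ) / P.1 ∈ Set.Icc (θ - r) (θ + r) := by
    rw [abs_lt] at hP3
    exact ⟨by linarith [hP3.1], by linarith [hP3.2]⟩
  have hsub : c < (h (K + 1)).eval ((P.2 : ℝ) / P.1) := by
    apply hball
    rw [Metric.mem_ball, Real.dist_eq]
    exact hP3
  have hlead : 0 ≤ (h (K + 2)).eval ((P.2 : ℝ) / P.1) := by
    apply H.lead_nonneg (by omega)
    refine ⟨by positivity, ?_⟩
    rw [div_le_iff₀ hxpos]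
    exact hP1
  have hval : fv (K + 2) h P = ∑ k ∈ range (K + 2 + 1), (P.1 : ℝ) ^ k *
      (h k).eval ((P.2 : ℝ) / P.1) := ev_eq H.deg hxpos.ne'
  rw [Finset.sum_range_succ, Finset.sum_range_succ] at hval
  have hlow : |∑ k ∈ range (K + 1), (P.1 : ℝ) ^ k * (h k).eval ((P.2 : ℝ) / P.1)| ≤
      S * (P.1 : ℝ) ^ K := by
    rw [hS, Finset.sum_mul]
    refine le_trans (Finset.abs_sum_le_sum_abs _ _) (Finset.sum_le_sum fun k hk => ?_)
    rw [abs_mul, abs_of_nonneg (by positivity : (0 : ℝ) ≤ (P.1 : ℝ) ^ k), mul_comm]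
    apply mul_le_mul (hB k _ hslope) _ (by positivity) (hB0 k)
    apply pow_le_pow_right₀ hx1'
    have := mem_range.1 hk
    omega
  have hSx : S ≤ c / 2 * P.1 := by
    rw [div_le_iff₀ hc0] at hx1
    nlinarith
  have h1 : c / 2 * (P.1 : ℝ) ^ (K + 1) ≤ fv (K + 2) h P := by
    rw [hval]
    have h2 := (abs_le.1 hlow).1
    have h3 : S * (P.1 : ℝ) ^ K ≤ c / 2 * (P.1 : ℝ) ^ (K + 1) := by
      have e : c / 2 * (P.1 : ℝ) ^ (K + 1) = (c / 2 * P.1) * (P.1 : ℝ) ^ K := by ring
      rw [e]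
      gcongr
    have h4 : c * (P.1 : ℝ) ^ (K + 1) ≤ (P.1 : ℝ) ^ (K + 1) *
        (h (K + 1)).eval ((P.2 : ℝ) / P.1) := by
      have : (0 : ℝ) ≤ (P.1 : ℝ) ^ (K + 1) := by positivity
      nlinarith
    have h5 : 0 ≤ (P.1 : ℝ) ^ (K + 2) * (h (K + 2)).eval ((P.2 : ℝ) / P.1) :=
      mul_nonneg (by positivity) hlead
    linarith
  have h5 : (P.1 : ℝ) ^ 3 ≤ (P.1 : ℝ) ^ (K + 1) := pow_le_pow_right₀ hx1' (by omega)
  have h6 : (P.1 : ℝ) ^ 2 ≤ (P.1 : ℝ) ^ 3 := pow_le_pow_right₀ hx1' (by norm_num)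
  have h7 : |(P.2 : ℝ) - 0 * P.1| ^ 3 ≤ α ^ 3 * (P.1 : ℝ) ^ 3 := by
    rw [zero_mul, _root_.sub_zero, abs_of_nonneg (Nat.cast_nonneg _), ← mul_pow]
    have : (P.2 : ℝ) ≤ α * P.1 := hP1
    gcongr
  have h8 : (0 : ℝ) < 1 + α ^ 3 := by have := H.pos; positivity
  calc c / 2 / (1 + α ^ 3) * ((P.1 : ℝ) ^ 2 + |(P.2 : ℝ) - 0 * P.1| ^ 3)
      ≤ c / 2 / (1 + α ^ 3) * ((1 + α ^ 3) * (P.1 : ℝ) ^ 3) := by
        apply mul_le_mul_of_nonneg_left _ (by positivity)
        linarith
    _ = c / 2 * (P.1 : ℝ) ^ 3 := by field_simp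
    _ ≤ c / 2 * (P.1 : ℝ) ^ (K + 1) := by gcongr
    _ ≤ fv (K + 2) h P := h1

/-- simple zero at the boundary: the next nonvanishing form is positive -/
theorem Pk.bd_simple (m : ℕ) (hm : 1 ≤ m) (H : Pk α (m + 1 + 1) h) (hne : h (m + 1 + 1) ≠ 0)
    (hμ : rootMultiplicity α (h (m + 1 + 1)) = 1)
    (hA : 0 < (h (m + 1)).eval α ∨ ((h (m + 1)).eval α = 0 ∧ 0 < (h m).eval α)) :
    ∃ ε : ℝ, 0 < ε ∧ Thin (fv (m + 1 + 1) h) (Near α α ε) := by
  obtain ⟨Q, hQ1, hQ2, hQ3, hQ4⟩ := taylor_root (h (m + 1 + 1)) hne α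
  rw [hμ] at hQ3 hQ4
  have hsign := taylor_sign (h (m + 1 + 1)) hne α (-1) α (Or.inr rfl) H.pos (by
    intro τ hτ1 hτ2
    apply H.lead_nonneg (by omega)
    constructor <;> linarith)
  rw [hμ, pow_one] at hsign
  set b := -(taylor α (h (m + 1 + 1))).coeff 1 with hb
  have hb0 : 0 < b := by rw [hb]; linarith
  set A := (h (m + 1)).eval α with hAdef
  set g := gT (m + 1 + 1) h α with hg
  have hgd : ∀ j, (g j).natDegree ≤ m + 1 + 1 - j := fun j => gT_natDegree_le α j
  have hg1 : ∀ u, (g (m + 1 + 1)).eval u = 0 := by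
    intro u
    have h1 : (g (m + 1 + 1)).natDegree ≤ 0 := by
      have := hgd (m + 1 + 1)
      omega
    rw [eq_C_of_natDegree_le_zero h1, eval_C, hg, gT_coeff, if_pos (by omega), zero_add]
    exact hQ3 0 (by norm_num)
  have hg0 : ∀ u, (g (m + 1)).eval u = A - b * u := by
    intro u
    have h1 : (g (m + 1)).natDegree < 2 := by
      have := hgd (m + 1)
      omega
    rw [Polynomial.eval_eq_sum_range' h1]
    simp only [Finset.sum_range_succ, Finset.sum_range_zero, pow_zero, pow_one]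
    rw [hg, gT_coeff, gT_coeff, if_pos (by omega), if_pos (by omega)]
    have e1 : 1 + (m + 1) = m + 1 + 1 := by ring
    have e0 : 0 + (m + 1) = m + 1 := by ring
    rw [e0, e1, taylor_coeff_zero, hAdef, hb]
    ring
  have hval : ∀ P : ℕ × ℕ, fv (m + 1 + 1) h P =
      (∑ j ∈ range (m + 1), (P.1 : ℝ) ^ j * (g j).eval ((P.2 : ℝ) - α * P.1)) +
        (P.1 : ℝ) ^ (m + 1) * (A - b * ((P.2 : ℝ) - α * P.1)) := by
    intro P
    rw [fv_taylor H.deg α, Finset.sum_range_succ, Finset.sum_range_succ, ← hg, hg1, hg0]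
    ring
  rcases hA with hA | ⟨hA, he⟩
  · -- `A > 0`
    set η : ℝ := min A b / 2 with hη
    have hη0 : 0 < η := by positivity
    obtain ⟨ε, hε, hε1, x0, hx0, hlow⟩ := low_terms' (m + 1) 1 g (by
      intro j
      exact hgd j) η hη0
    obtain ⟨X1, hX1⟩ := exists_nat_ge x0
    refine ⟨ε, hε, ?_⟩
    have hsplit : Near α α ε ⊆ {P | P ∈ Near α α ε ∧ X1 ≤ P.1} ∪ {P | P ∈ Sec α ∧ P.1 ≤ X1} := by
      intro P hP
      by_cases h1 : X1 ≤ P.1
      · exact Or.inl ⟨hP, h1⟩
      · exact Or.inr ⟨hP.1, by omega⟩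
    refine Thin.mono (Thin.union ?_ (thin_finite (finite_x H.pos X1))) hsplit
    apply thin_of_bound α η hη0
    rintro P ⟨hP1, hP2⟩
    have hx : x0 ≤ (P.1 : ℝ) := hX1.trans (by exact_mod_cast hP2)
    have hx1 : (1 : ℝ) ≤ P.1 := hx0.trans hx
    have h1 := (abs_le.1 (hlow P.1 _ hx (near_abs hP1).2)).1
    have hu0 := sec_u hP1.1
    have hue := (near_abs hP1).2
    rw [hval]
    set u := (P.2 : ℝ) - α * P.1 with hudef
    rw [pow_one, abs_of_nonpos hu0] at h1
    rw [abs_of_nonpos hu0] at hue ⊢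
    set X := (P.1 : ℝ) ^ (m + 1) with hX
    have hX0 : 0 < X := by positivity
    have h2 : 2 * η * (X * (1 + -u)) ≤ X * (A - b * u) := by
      have e1 : 2 * η ≤ A := by
        have := min_le_left A b
        rw [hη]
        linarith
      have e2 : 2 * η ≤ b := by
        have := min_le_right A b
        rw [hη]
        linarith
      have e3 : 2 * η * (X * (1 + -u)) = X * (2 * η + 2 * η * -u) := by ring
      rw [e3]
      have e4 : 2 * η * -u ≤ b * -u := by
        apply mul_le_mul_of_nonneg_right e2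
        linarith
      gcongr
      linarith
    have h3 : (P.1 : ℝ) ^ 2 ≤ X := pow_le_pow_right₀ hx1 (by omega)
    have h4 : -u ≤ P.1 := by nlinarith
    have h5 : (-u) ^ 3 ≤ X * -u := by
      have : (-u) ^ 2 ≤ (P.1 : ℝ) ^ 2 := by
        have : 0 ≤ -u := by linarith
        gcongr
      calc (-u) ^ 3 = (-u) ^ 2 * -u := by ring
        _ ≤ X * -u := by
          apply mul_le_mul_of_nonneg_right _ (by linarith)
          linarith
    have h6 : η * ((P.1 : ℝ) ^ 2 + (-u) ^ 3) ≤ η * (X * (1 + -u)) := by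
      gcongr
      linarith
    linarith
  · -- `A = 0`
    set e := (h m).eval α with hedef
    set b1 := (taylor α (h (m + 1))).coeff 1 with hb1
    set a2 := (taylor α (h (m + 1 + 1))).coeff 2 with ha2
    have hgm : ∀ u, (g m).eval u = e + b1 * u + a2 * u ^ 2 := by
      intro u
      have h1 : (g m).natDegree < 3 := by
        have := hgd m
        omega
      rw [Polynomial.eval_eq_sum_range' h1]
      simp only [Finset.sum_range_succ, Finset.sum_range_zero, pow_zero, pow_one]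
      rw [hg, gT_coeff, gT_coeff, gT_coeff, if_pos (by omega), if_pos (by omega),
        if_pos (by omega)]
      have e1 : 1 + m = m + 1 := by ring
      have e0 : 0 + m = m := by ring
      have e2 : 2 + m = m + 1 + 1 := by ring
      rw [e0, e1, e2, taylor_coeff_zero, hedef, hb1, ha2]
      ring
    -- the terms below `x ^ m`
    set c0 : ℝ := min (e / 4) (b / 16) with hc0
    have hc00 : 0 < c0 := by positivity
    obtain ⟨ε1, hε1, hε11, x0, hx0, hlow⟩ := low_terms' m 2 g (by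
      intro j
      exact hgd j) c0 hc00
    obtain ⟨ε2, hε2, hε21, x2, hx2, hlow2⟩ := low_terms' (m + 1) 1 g (by
      intro j
      exact hgd j) (b / 4) (by positivity)
    set M : ℝ := |b1| + |a2| + 1 with hM
    have hM1 : 1 ≤ M := by
      have := abs_nonneg b1
      have := abs_nonneg a2
      linarith
    obtain ⟨X1, hX1⟩ := exists_nat_ge (max (max x0 x2) (16 * (M + 4 * c0) / b))
    set ε := min ε1 ε2 with hε
    have hε0 : 0 < ε := by positivity
    refine ⟨ε, hε0, ?_⟩
    have hsplit : Near α α ε ⊆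
        ({P | P ∈ Near α α ε ∧ X1 ≤ P.1 ∧ 1 ≤ |(P.2 : ℝ) - α * P.1|} ∪
        {P | P ∈ Near α α ε ∧ X1 ≤ P.1 ∧ |(P.2 : ℝ) - α * P.1| ≤ 1}) ∪
        {P | P ∈ Sec α ∧ P.1 ≤ X1} := by
      intro P hP
      by_cases h1 : X1 ≤ P.1
      · rcases le_total 1 |(P.2 : ℝ) - α * P.1| with h2 | h2
        · exact Or.inl (Or.inl ⟨hP, h1, h2⟩)
        · exact Or.inl (Or.inr ⟨hP, h1, h2⟩)
      · exact Or.inr ⟨hP.1, by omega⟩
    refine Thin.mono (Thin.union (Thin.union ?_ ?_) (thin_finite (finite_x H.pos X1))) hsplit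
    · -- `|u| ≥ 1`
      apply thin_of_bound α (b / 4) (by positivity)
      rintro P ⟨hP1, hP2, hP3⟩
      have hx : X1 ≤ (P.1 : ℝ) := by exact_mod_cast hP2
      have hxx2 : x2 ≤ (P.1 : ℝ) :=
        ((le_max_right _ _).trans (le_max_left _ _)).trans (hX1.trans hx)
      have hx1 : (1 : ℝ) ≤ P.1 := hx2.trans hxx2
      have hue : |(P.2 : ℝ) - α * P.1| ≤ ε2 * P.1 := (near_abs hP1).2.trans (by
        gcongr
        exact min_le_right _ _)
      have h1 := (abs_le.1 (hlow2 P.1 _ hxx2 hue)).1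
      have hu0 := sec_u hP1.1
      rw [hval, hA]
      set u := (P.2 : ℝ) - α * P.1 with hudef
      rw [pow_one, abs_of_nonpos hu0] at h1
      rw [abs_of_nonpos hu0] at hue hP3 ⊢
      set X := (P.1 : ℝ) ^ (m + 1) with hX
      have hX0 : 0 < X := by positivity
      have h3 : (P.1 : ℝ) ^ 2 ≤ X := pow_le_pow_right₀ hx1 (by omega)
      have h4 : -u ≤ P.1 := by nlinarith
      have h5 : (-u) ^ 3 ≤ X * -u := by
        have : (-u) ^ 2 ≤ (P.1 : ℝ) ^ 2 := by
          have : 0 ≤ -u := by linarith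
          gcongr
        calc (-u) ^ 3 = (-u) ^ 2 * -u := by ring
          _ ≤ X * -u := by
            apply mul_le_mul_of_nonneg_right _ (by linarith)
            linarith
      have h6 : (P.1 : ℝ) ^ 2 ≤ X * -u := by
        calc (P.1 : ℝ) ^ 2 = (P.1 : ℝ) ^ 2 * 1 := (mul_one _).symm
          _ ≤ X * -u := by gcongr
      have h7 : b / 4 * (X * (1 + -u)) ≤ b / 4 * (X * (2 * -u)) := by
        gcongr
        linarith
      have h8 : b / 4 * ((P.1 : ℝ) ^ 2 + (-u) ^ 3) ≤ b / 4 * (X * -u + X * -u) := by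
        gcongr
      linarith
    · -- `|u| ≤ 1`
      have key : ∀ P ∈ {P | P ∈ Near α α ε ∧ X1 ≤ P.1 ∧ |(P.2 : ℝ) - α * P.1| ≤ 1},
          (1 : ℝ) ≤ P.1 ∧ e / 2 * (P.1 : ℝ) ^ m +
            b / 2 * ((P.1 : ℝ) ^ (m + 1) * |(P.2 : ℝ) - α * P.1|) ≤ fv (m + 1 + 1) h P := by
        rintro P ⟨hP1, hP2, hP3⟩
        have hx : X1 ≤ (P.1 : ℝ) := by exact_mod_cast hP2
        have hxx0 : x0 ≤ (P.1 : ℝ) :=
          ((le_max_left _ _).trans (le_max_left _ _)).trans (hX1.trans hx)
        have hx1 : (1 : ℝ) ≤ P.1 := hx0.trans hxx0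
        have hxM : 16 * (M + 4 * c0) / b ≤ P.1 := (le_max_right _ _).trans (hX1.trans hx)
        rw [div_le_iff₀ hb0] at hxM
        have hue : |(P.2 : ℝ) - α * P.1| ≤ ε1 * P.1 := (near_abs hP1).2.trans (by
          gcongr
          exact min_le_left _ _)
        have h1 := (abs_le.1 (hlow P.1 _ hxx0 hue)).1
        have hu0 := sec_u hP1.1
        refine ⟨hx1, ?_⟩
        rw [hval, hA, Finset.sum_range_succ, hgm]
        set u := (P.2 : ℝ) - α * P.1 with hudef
        rw [abs_of_nonpos hu0] at h1 hP3 ⊢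
        set v := -u with hv
        have hv0 : 0 ≤ v := by linarith
        have huv : u = -v := by linarith
        set X := (P.1 : ℝ) ^ m with hX
        have hX0 : 0 < X := by positivity
        have hXX : (P.1 : ℝ) ^ (m + 1) = X * P.1 := by rw [hX, pow_succ]
        rw [hXX, huv]
        rw [huv] at h1
        clear_value v X
        have h2 : (1 + v) ^ 2 ≤ 1 + 3 * v := by nlinarith
        have h3 : c0 * (X * (1 + v) ^ 2) ≤ c0 * (X * (1 + 3 * v)) := by gcongr
        have h4 : c0 * (X * (1 + 3 * v)) = c0 * X + 3 * c0 * (X * v) := by ring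
        have h5 : c0 * X ≤ e / 4 * X := by
          gcongr
          exact min_le_left _ _
        have h6 : -(M * v) ≤ b1 * -v + a2 * (-v) ^ 2 := by
          have e1 : -(|b1| * v) ≤ b1 * -v := by
            have := le_abs_self b1
            nlinarith
          have e2 : -(|a2| * v) ≤ a2 * (-v) ^ 2 := by
            have e3 := neg_abs_le a2
            have e4 : v ^ 2 ≤ v := by nlinarith
            have e5 : 0 ≤ |a2| := abs_nonneg _
            have e6 : -(|a2| * v ^ 2) ≤ a2 * v ^ 2 := by nlinarith [sq_nonneg v]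
            have e7 : |a2| * v ^ 2 ≤ |a2| * v := by gcongr
            have e8 : (-v) ^ 2 = v ^ 2 := by ring
            rw [e8]
            linarith
          have e3 : M * v = |b1| * v + |a2| * v + v := by rw [hM]; ring
          linarith
        have h7 : X * (e - M * v) ≤ X * (e + b1 * -v + a2 * (-v) ^ 2) := by
          gcongr
          linarith
        have h8 : (M + 4 * c0) * (X * v) ≤ b / 16 * (X * P.1 * v) := by
          have e1 : M + 4 * c0 ≤ b / 16 * P.1 := by linarith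
          have e2 : 0 ≤ X * v := by positivity
          calc (M + 4 * c0) * (X * v) ≤ (b / 16 * P.1) * (X * v) := by gcongr
            _ = b / 16 * (X * P.1 * v) := by ring
        have h9 : 0 ≤ X * P.1 * v := by positivity
        have h10 : 0 ≤ c0 * (X * v) := by positivity
        have h11 : X * (e - M * v) = e * X - M * (X * v) := by ring
        have h12 : 0 < e * X := by positivity
        have h13 : X * ↑P.1 * (0 - b * -v) = b * (X * P.1 * v) := by ring
        rw [h13]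
        have h14 : 0 ≤ b * (X * P.1 * v) := by positivity
        nlinarith
      rcases Nat.lt_or_ge 1 m with hm2 | hm1
      · -- `m ≥ 2`
        apply thin_of_bound α (min (e / 2) (b / 2)) (by positivity)
        intro P hP
        obtain ⟨hx1, h1⟩ := key P hP
        refine le_trans ?_ h1
        set u := (P.2 : ℝ) - α * P.1 with hudef
        have hu1 : |u| ≤ 1 := hP.2.2
        have h2 : (P.1 : ℝ) ^ 2 ≤ (P.1 : ℝ) ^ m := pow_le_pow_right₀ hx1 (by omega)
        have h3 : |u| ^ 3 ≤ (P.1 : ℝ) ^ (m + 1) * |u| := by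
          have e1 : |u| ^ 3 ≤ |u| := by
            calc |u| ^ 3 ≤ |u| ^ 1 := pow_le_pow_of_le_one (abs_nonneg _) hu1 (by norm_num)
              _ = |u| := pow_one _
          have e2 : 1 ≤ (P.1 : ℝ) ^ (m + 1) := one_le_pow₀ hx1
          have e3 := abs_nonneg u
          nlinarith
        have h4 : min (e / 2) (b / 2) * (P.1 : ℝ) ^ 2 ≤ e / 2 * (P.1 : ℝ) ^ m := by
          gcongr
          exact min_le_left _ _
        have h5 : min (e / 2) (b / 2) * |u| ^ 3 ≤ b / 2 * ((P.1 : ℝ) ^ (m + 1) * |u|) := by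
          gcongr
          exact min_le_right _ _
        linarith
      · -- `m = 1`
        obtain rfl : m = 1 := by omega
        apply thin_irr H.irr 0 (min (e / 2) (b / 2)) 0 (by positivity)
        · rintro P ⟨_, _, hP3⟩
          rw [_root_.sub_zero]
          exact hP3
        · intro P hP
          obtain ⟨hx1, h1⟩ := key P hP
          rw [add_zero]
          refine le_trans ?_ h1
          set u := (P.2 : ℝ) - α * P.1 with hudef
          have h5 : 0 ≤ b / 2 * ((P.1 : ℝ) ^ (1 + 1) * |u|) := by positivity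
          have h4 : min (e / 2) (b / 2) * (P.1 : ℝ) ≤ e / 2 * (P.1 : ℝ) ^ 1 := by
            rw [pow_one]
            gcongr
            exact min_le_left _ _
          linarith
        · intro P hP
          obtain ⟨hx1, h1⟩ := key P hP
          rw [add_zero, _root_.sub_zero]
          refine le_trans ?_ h1
          set u := (P.2 : ℝ) - α * P.1 with hudef
          have hu1 : |u| ≤ 1 := hP.2.2
          have h2 : u ^ 2 ≤ |u| := by
            rw [← sq_abs]
            nlinarith [abs_nonneg u]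
          have h5 : min (e / 2) (b / 2) * ((P.1 : ℝ) ^ 2 * u ^ 2) ≤
              b / 2 * ((P.1 : ℝ) ^ (1 + 1) * |u|) := by
            gcongr
            exact min_le_right _ _
          have h4 : 0 ≤ e / 2 * (P.1 : ℝ) ^ 1 := by positivity
          linarith

end PP72
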