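import Mathlib

/-!
Thin sets of lattice points: sets which carry only `o(N)` of the values `≤ N` of a function.
-/

open Finset

namespace PP72

/-- `A` is thin for `f`: for every `ε`, for all large `N`, every finite subset of `A` on which
`f ≤ N` has at most `ε N` elements. -/
def Thin (f : ℕ × ℕ → ℝ) (A : Set (ℕ × ℕ)) : Prop :=
  ∀ ε : ℝ, 0 < ε → ∃ N0 : ℕ, ∀ N : ℕ, N0 ≤ N → ∀ T : Finset (ℕ × ℕ),
    (∀ P ∈ T, P ∈ A ∧ f P ≤ N) → (T.card : ℝ) ≤ ε * N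

theorem Thin.mono {f : ℕ × ℕ → ℝ} {A B : Set (ℕ × ℕ)} (hB : Thin f B) (hAB : A ⊆ B) :
    Thin f A := by
  intro ε hε
  obtain ⟨N0, h⟩ := hB ε hε
  exact ⟨N0, fun N hN T hT => h N hN T fun P hP => ⟨hAB (hT P hP).1, (hT P hP).2⟩⟩

theorem thin_empty (f : ℕ × ℕ → ℝ) : Thin f ∅ := by
  intro ε hε
  refine ⟨0, fun N _ T hT => ?_⟩
  have : T = ∅ := by
    rw [Finset.eq_empty_iff_forall_notMem]
    intro P hP
    exact (hT P hP).1
  subst this
  simp only [card_empty, Nat.cast_zero]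
  positivity

theorem Thin.union {f : ℕ × ℕ → ℝ} {A B : Set (ℕ × ℕ)} (hA : Thin f A) (hB : Thin f B) :
    Thin f (A ∪ B) := by
  classical
  intro ε hε
  obtain ⟨N1, h1⟩ := hA (ε / 2) (by positivity)
  obtain ⟨N2, h2⟩ := hB (ε / 2) (by positivity)
  refine ⟨max N1 N2, fun N hN T hT => ?_⟩
  have e1 := h1 N (le_trans (le_max_left _ _) hN) (T.filter (· ∈ A)) (by
    intro P hP
    rw [mem_filter] at hP
    exact ⟨hP.2, (hT P hP.1).2⟩)
  have e2 := h2 N (le_trans (le_max_right _ _) hN) (T.filter (¬ · ∈ A)) (by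
    intro P hP
    rw [mem_filter] at hP
    refine ⟨?_, (hT P hP.1).2⟩
    rcases (hT P hP.1).1 with h | h
    · exact absurd h hP.2
    · exact h)
  have e3 : (T.card : ℝ) = (T.filter (· ∈ A)).card + (T.filter (¬ · ∈ A)).card := by
    rw [← Nat.cast_add, Finset.card_filter_add_card_filter_not]
  rw [e3]
  nlinarith

theorem thin_finite {f : ℕ × ℕ → ℝ} {A : Set (ℕ × ℕ)} (hA : A.Finite) : Thin f A := by
  intro ε hε
  obtain ⟨N0, hN0⟩ := exists_nat_ge ((hA.toFinset.card : ℝ) / ε)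
  refine ⟨N0, fun N hN T hT => ?_⟩
  have h1 : T ⊆ hA.toFinset := by
    intro P hP
    rw [Set.Finite.mem_toFinset]
    exact (hT P hP).1
  have h2 : (T.card : ℝ) ≤ hA.toFinset.card := by exact_mod_cast Finset.card_le_card h1
  have h3 : (N0 : ℝ) ≤ N := by exact_mod_cast hN
  rw [div_le_iff₀ hε] at hN0
  nlinarith

theorem thin_biUnion {ι : Type*} {f : ℕ × ℕ → ℝ} (s : Finset ι) (A : ι → Set (ℕ × ℕ))
    (h : ∀ i ∈ s, Thin f (A i)) : Thin f (⋃ i ∈ s, A i) := by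
  classical
  induction s using Finset.induction_on with
  | empty => simpa using thin_empty f
  | insert a s ha ih =>
    rw [Finset.set_biUnion_insert]
    exact (h a (Finset.mem_insert_self _ _)).union
      (ih fun i hi => h i (Finset.mem_insert_of_mem hi))

/-- counting lattice points in a parallelogram -/
theorem card_box (θ X U : ℝ) (hX : 0 ≤ X) (hU : 0 ≤ U) (T : Finset (ℕ × ℕ))
    (hT : ∀ P ∈ T, (P.1 : ℝ) ≤ X ∧ |(P.2 : ℝ) - θ * P.1| ≤ U) :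
    (T.card : ℝ) ≤ (X + 1) * (2 * U + 1) := by
  classical
  -- the injection `(x, y) ↦ (x, y - ⌈θ x - U⌉)`
  have hmap : T.card ≤ (Finset.range (⌊X⌋₊ + 1) ×ˢ Finset.range (⌊2 * U⌋₊ + 1)).card := by
    apply Finset.card_le_card_of_injOn (fun P => (P.1, ((P.2 : ℤ) - ⌈θ * P.1 - U⌉).toNat))
    · intro P hP
      have hP' := hT P (by simpa using hP)
      obtain ⟨h1, h2⟩ := hP'
      rw [abs_le] at h2
      simp only [Finset.coe_product, Finset.coe_range, Set.mem_prod, Set.mem_Iio]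
      refine ⟨Nat.lt_succ_of_le (Nat.le_floor h1), ?_⟩
      apply Nat.lt_succ_of_le
      apply Nat.le_floor
      have h3 : (⌈θ * P.1 - U⌉ : ℤ) ≤ (P.2 : ℤ) := by
        rw [Int.ceil_le]
        push_cast
        linarith
      have h4 : (0 : ℤ) ≤ (P.2 : ℤ) - ⌈θ * P.1 - U⌉ := by linarith
      have h5 : (((((P.2 : ℤ) - ⌈θ * P.1 - U⌉).toNat : ℕ) : ℤ) : ℝ) =
          (P.2 : ℝ) - (⌈θ * P.1 - U⌉ : ℤ) := by
        rw [Int.toNat_of_nonneg h4]
        push_cast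
        ring
      have h6 : ((((P.2 : ℤ) - ⌈θ * P.1 - U⌉).toNat : ℕ) : ℝ) =
          (P.2 : ℝ) - (⌈θ * P.1 - U⌉ : ℤ) := by
        rw [← h5]
        push_cast
        rfl
      rw [h6]
      have h7 := Int.le_ceil (θ * P.1 - U)
      linarith
    · intro P hP Q hQ hPQ
      have hP' := hT P (by simpa using hP)
      have hQ' := hT Q (by simpa using hQ)
      simp only [Prod.mk.injEq] at hPQ
      obtain ⟨e1, e2⟩ := hPQ
      have a1 : (⌈θ * P.1 - U⌉ : ℤ) ≤ (P.2 : ℤ) := by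
        rw [Int.ceil_le]
        have := (abs_le.1 hP'.2).1
        push_cast
        linarith
      have a2 : (⌈θ * Q.1 - U⌉ : ℤ) ≤ (Q.2 : ℤ) := by
        rw [Int.ceil_le]
        have := (abs_le.1 hQ'.2).1
        push_cast
        linarith
      have e3 : (((P.2 : ℤ) - ⌈θ * P.1 - U⌉).toNat : ℤ) =
          (((Q.2 : ℤ) - ⌈θ * Q.1 - U⌉).toNat : ℤ) := by rw [e2]
      rw [Int.toNat_of_nonneg (by linarith), Int.toNat_of_nonneg (by linarith), e1] at e3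
      have e4 : (P.2 : ℤ) = Q.2 := by linarith
      exact Prod.ext e1 (by exact_mod_cast e4)
  rw [Finset.card_product, Finset.card_range, Finset.card_range] at hmap
  have h8 : (T.card : ℝ) ≤ ((⌊X⌋₊ : ℝ) + 1) * ((⌊2 * U⌋₊ : ℝ) + 1) := by exact_mod_cast hmap
  have h9 := Nat.floor_le hX
  have h10 := Nat.floor_le (by positivity : (0 : ℝ) ≤ 2 * U)
  calc (T.card : ℝ) ≤ ((⌊X⌋₊ : ℝ) + 1) * ((⌊2 * U⌋₊ : ℝ) + 1) := h8
    _ ≤ (X + 1) * (2 * U + 1) := by gcongr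

/-- a set on which `f ≥ δ (x² + |y - θ x|³)` is thin -/
theorem thin_of_bound {f : ℕ × ℕ → ℝ} {A : Set (ℕ × ℕ)} (θ δ : ℝ) (hδ : 0 < δ)
    (h : ∀ P ∈ A, δ * ((P.1 : ℝ) ^ 2 + |(P.2 : ℝ) - θ * P.1| ^ 3) ≤ f P) : Thin f A := by
  intro ε hε
  set R : ℝ := max 1 (6 / (ε * δ)) with hR
  obtain ⟨N0, hN0⟩ := exists_nat_ge (δ * R ^ 6)
  refine ⟨N0, fun N hN T hT => ?_⟩
  have hN' : δ * R ^ 6 ≤ N := le_trans hN0 (by exact_mod_cast hN)
  set r : ℝ := ((N : ℝ) / δ) ^ ((1 : ℝ) / 6) with hr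
  have hNd : (0 : ℝ) ≤ (N : ℝ) / δ := by positivity
  have hr0 : 0 ≤ r := Real.rpow_nonneg hNd _
  have hr6 : r ^ 6 = (N : ℝ) / δ := by
    rw [hr, ← Real.rpow_natCast, ← Real.rpow_mul hNd]
    norm_num
  have hRr : R ≤ r := by
    have h1 : R ^ 6 ≤ r ^ 6 := by
      rw [hr6, le_div_iff₀ hδ]
      linarith
    exact le_of_pow_le_pow_left₀ (by norm_num) hr0 h1
  have hR1 : 1 ≤ R := le_max_left _ _
  have hr1 : 1 ≤ r := le_trans hR1 hRr
  have hbox : (T.card : ℝ) ≤ (r ^ 3 + 1) * (2 * r ^ 2 + 1) := by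
    apply card_box θ _ _ (by positivity) (by positivity)
    intro P hP
    have h1 := h P (hT P hP).1
    have h2 := (hT P hP).2
    have h3 : (P.1 : ℝ) ^ 2 + |(P.2 : ℝ) - θ * P.1| ^ 3 ≤ r ^ 6 := by
      rw [hr6, le_div_iff₀ hδ]
      linarith
    have h4 : (0 : ℝ) ≤ |(P.2 : ℝ) - θ * P.1| ^ 3 := by positivity
    have h5 : (0 : ℝ) ≤ (P.1 : ℝ) ^ 2 := by positivity
    constructor
    · apply le_of_pow_le_pow_left₀ (n := 2) (by norm_num) (by positivity)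
      calc (P.1 : ℝ) ^ 2 ≤ r ^ 6 := by linarith
        _ = (r ^ 3) ^ 2 := by ring
    · apply le_of_pow_le_pow_left₀ (n := 3) (by norm_num) (by positivity)
      calc |(P.2 : ℝ) - θ * P.1| ^ 3 ≤ r ^ 6 := by linarith
        _ = (r ^ 2) ^ 3 := by ring
  have hNr : (N : ℝ) = δ * r ^ 6 := by
    rw [hr6]
    field_simp
  have h6 : (r ^ 3 + 1) * (2 * r ^ 2 + 1) ≤ 6 * r ^ 5 := by
    have a1 : (1 : ℝ) ≤ r ^ 3 := one_le_pow₀ hr1
    have a2 : (1 : ℝ) ≤ r ^ 2 := one_le_pow₀ hr1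
    calc (r ^ 3 + 1) * (2 * r ^ 2 + 1) ≤ (r ^ 3 + r ^ 3) * (2 * r ^ 2 + r ^ 2) := by gcongr
      _ = 6 * r ^ 5 := by ring
  have h7 : 6 / (ε * δ) ≤ r := le_trans (le_max_right _ _) hRr
  rw [div_le_iff₀ (by positivity)] at h7
  calc (T.card : ℝ) ≤ 6 * r ^ 5 := le_trans hbox h6
    _ ≤ (r * (ε * δ)) * r ^ 5 := by gcongr
    _ = ε * N := by rw [hNr]; ring

/-- a strip on which `f ≥ δ x² - K` is thin -/
theorem thin_of_strip {f : ℕ × ℕ → ℝ} {A : Set (ℕ × ℕ)} (θ U δ K : ℝ) (hδ : 0 < δ)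
    (hA : ∀ P ∈ A, |(P.2 : ℝ) - θ * P.1| ≤ U)
    (h : ∀ P ∈ A, δ * (P.1 : ℝ) ^ 2 ≤ f P + K) : Thin f A := by
  rcases Set.eq_empty_or_nonempty A with rfl | ⟨P0, hP0⟩
  · exact thin_empty f
  have hU : 0 ≤ U := le_trans (abs_nonneg _) (hA P0 hP0)
  intro ε hε
  set K' : ℝ := max K 0 with hK'
  have hK0 : 0 ≤ K' := le_max_right _ _
  -- need  (r+1)(2U+1) ≤ ε N with r² = (N+K')/δ
  set R : ℝ := max 1 (4 * (2 * U + 1) / (ε * δ) + 4 * K' / δ) with hR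
  obtain ⟨N0, hN0⟩ := exists_nat_ge (δ * R ^ 2)
  refine ⟨N0, fun N hN T hT => ?_⟩
  have hN' : δ * R ^ 2 ≤ N := le_trans hN0 (by exact_mod_cast hN)
  set r : ℝ := Real.sqrt (((N : ℝ) + K') / δ) with hr
  have hNd : (0 : ℝ) ≤ ((N : ℝ) + K') / δ := by positivity
  have hr0 : 0 ≤ r := Real.sqrt_nonneg _
  have hr2 : r ^ 2 = ((N : ℝ) + K') / δ := Real.sq_sqrt hNd
  have hRr : R ≤ r := by
    have h1 : R ^ 2 ≤ r ^ 2 := by
      rw [hr2, le_div_iff₀ hδ]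
      linarith
    exact le_of_pow_le_pow_left₀ (by norm_num) hr0 h1
  have hR1 : 1 ≤ R := le_max_left _ _
  have hr1 : 1 ≤ r := le_trans hR1 hRr
  have hbox : (T.card : ℝ) ≤ (r + 1) * (2 * U + 1) := by
    apply card_box θ _ _ hr0 hU
    intro P hP
    refine ⟨?_, hA P (hT P hP).1⟩
    have h1 := h P (hT P hP).1
    have h2 := (hT P hP).2
    apply le_of_pow_le_pow_left₀ (n := 2) (by norm_num) hr0
    rw [hr2, le_div_iff₀ hδ]
    have := le_max_left K 0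
    linarith
  have hNr : (N : ℝ) = δ * r ^ 2 - K' := by
    rw [hr2]
    field_simp
    ring
  have h7 : 4 * (2 * U + 1) / (ε * δ) + 4 * K' / δ ≤ r := le_trans (le_max_right _ _) hRr
  have h8 : 4 * (2 * U + 1) / (ε * δ) ≤ r := by
    have : 0 ≤ 4 * K' / δ := by positivity
    linarith
  have h9 : 4 * K' / δ ≤ r := by
    have : 0 ≤ 4 * (2 * U + 1) / (ε * δ) := by positivity
    linarith
  rw [div_le_iff₀ (by positivity)] at h8
  rw [div_le_iff₀ hδ] at h9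
  -- h8 : 4(2U+1) ≤ r (ε δ), h9 : 4 K' ≤ r δ
  have h10 : ε * N ≥ ε * (δ * r ^ 2) / 2 := by
    rw [hNr]
    have : K' ≤ δ * r ^ 2 / 2 := by nlinarith
    nlinarith
  have h11 : (r + 1) * (2 * U + 1) ≤ (2 * r) * (2 * U + 1) := by
    gcongr
    linarith
  calc (T.card : ℝ) ≤ (2 * r) * (2 * U + 1) := le_trans hbox h11
    _ = r * (4 * (2 * U + 1)) / 2 := by ring
    _ ≤ r * (r * (ε * δ)) / 2 := by gcongr
    _ = ε * (δ * r ^ 2) / 2 := by ring
    _ ≤ ε * N := h10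

/-- `f` cannot take every value `0, 1, …` on a thin set (on which it is a function) -/
theorem not_thin_of_surj {f : ℕ × ℕ → ℝ} {A : Set (ℕ × ℕ)}
    (hs : ∀ n : ℕ, ∃ P ∈ A, f P = n) : ¬ Thin f A := by
  classical
  intro hthin
  choose g hg1 hg2 using hs
  obtain ⟨N0, h⟩ := hthin (1 / 2) (by norm_num)
  have h1 := h N0 le_rfl ((Finset.range (N0 + 1)).image g) (by
    intro P hP
    rw [mem_image] at hP
    obtain ⟨n, hn, rfl⟩ := hP
    refine ⟨hg1 n, ?_⟩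
    rw [hg2 n]
    exact_mod_cast Nat.lt_succ_iff.1 (mem_range.1 hn))
  rw [Finset.card_image_of_injective] at h1
  · rw [Finset.card_range] at h1
    push_cast at h1
    have : (0 : ℝ) ≤ N0 := Nat.cast_nonneg _
    linarith
  · intro m n hmn
    have h2 := hg2 m
    have h3 := hg2 n
    rw [hmn, h3] at h2
    exact_mod_cast h2.symm

end PP72
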