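import Pool.Agent.PP72.Dbl6

/-!
Strips around a line of irrational slope: general lemmas.
-/

open Polynomial Finset Filter

namespace PP72

variable {α : ℝ} {d : ℕ} {h : ℕ → ℝ[X]}

/-- truncation of the expansion -/
theorem Pk.fv_trunc (H : Pk α d h) (θ : ℝ) (J : ℕ) (hJ : J ≤ d)
    (hv : ∀ j, J < j → j ≤ d → ∀ u, (gT d h θ j).eval u = 0) (P : ℕ × ℕ) :
    fv d h P = ∑ j ∈ range (J + 1), (P.1 : ℝ) ^ j * (gT d h θ j).eval ((P.2 : ℝ) - θ * P.1) := by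
  rw [fv_taylor H.deg θ]
  symm
  apply Finset.sum_subset
  · intro j hj
    rw [Finset.mem_range] at hj ⊢
    omega
  · intro j hj hj'
    rw [Finset.mem_range] at hj hj'
    rw [hv j (by omega) (by omega), mul_zero]

/-- the top term -/
theorem Pk.exp_one (n : ℕ) (hn : n + 4 ≤ d) (H : Pk α d h) (θ : ℝ)
    (hv : ∀ j, n + 4 < j → j ≤ d → ∀ u, (gT d h θ j).eval u = 0) (U : ℝ) :
    ∃ C : ℝ, 0 ≤ C ∧ ∀ P : ℕ × ℕ, 1 ≤ (P.1 : ℝ) → |(P.2 : ℝ) - θ * P.1| ≤ U →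
      |fv d h P - (P.1 : ℝ) ^ (n + 4) * (gT d h θ (n + 4)).eval ((P.2 : ℝ) - θ * P.1)| ≤
        C * (P.1 : ℝ) ^ (n + 3) := by
  obtain ⟨C, hC0, hC⟩ := low_bdd (n + 3) (gT d h θ) U
  refine ⟨C, hC0, fun P hP hu => ?_⟩
  have h1 := hC P.1 ((P.2 : ℝ) - θ * P.1) hP hu
  rw [H.fv_trunc θ (n + 4) hn hv, Finset.sum_range_succ]
  convert h1 using 2
  ring

/-- the two top terms -/
theorem Pk.exp_two (n : ℕ) (hn : n + 4 ≤ d) (H : Pk α d h) (θ : ℝ)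
    (hv : ∀ j, n + 4 < j → j ≤ d → ∀ u, (gT d h θ j).eval u = 0) (U : ℝ) :
    ∃ C : ℝ, 0 ≤ C ∧ ∀ P : ℕ × ℕ, 1 ≤ (P.1 : ℝ) → |(P.2 : ℝ) - θ * P.1| ≤ U →
      |fv d h P - ((P.1 : ℝ) ^ (n + 4) * (gT d h θ (n + 4)).eval ((P.2 : ℝ) - θ * P.1) +
        (P.1 : ℝ) ^ (n + 3) * (gT d h θ (n + 3)).eval ((P.2 : ℝ) - θ * P.1))| ≤
        C * (P.1 : ℝ) ^ (n + 2) := by
  obtain ⟨C, hC0, hC⟩ := low_bdd (n + 2) (gT d h θ) U
  refine ⟨C, hC0, fun P hP hu => ?_⟩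
  have h1 := hC P.1 ((P.2 : ℝ) - θ * P.1) hP hu
  rw [H.fv_trunc θ (n + 4) hn hv, Finset.sum_range_succ, Finset.sum_range_succ]
  convert h1 using 2
  ring

/-- the three top terms -/
theorem Pk.exp_three (n : ℕ) (hn : n + 4 ≤ d) (H : Pk α d h) (θ : ℝ)
    (hv : ∀ j, n + 4 < j → j ≤ d → ∀ u, (gT d h θ j).eval u = 0) (U : ℝ) :
    ∃ C : ℝ, 0 ≤ C ∧ ∀ P : ℕ × ℕ, 1 ≤ (P.1 : ℝ) → |(P.2 : ℝ) - θ * P.1| ≤ U →
      |fv d h P - ((P.1 : ℝ) ^ (n + 4) * (gT d h θ (n + 4)).eval ((P.2 : ℝ) - θ * P.1) +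
        (P.1 : ℝ) ^ (n + 3) * (gT d h θ (n + 3)).eval ((P.2 : ℝ) - θ * P.1) +
        (P.1 : ℝ) ^ (n + 2) * (gT d h θ (n + 2)).eval ((P.2 : ℝ) - θ * P.1))| ≤
        C * (P.1 : ℝ) ^ (n + 1) := by
  obtain ⟨C, hC0, hC⟩ := low_bdd (n + 1) (gT d h θ) U
  refine ⟨C, hC0, fun P hP hu => ?_⟩
  have h1 := hC P.1 ((P.2 : ℝ) - θ * P.1) hP hu
  rw [H.fv_trunc θ (n + 4) hn hv, Finset.sum_range_succ, Finset.sum_range_succ,
    Finset.sum_range_succ]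
  convert h1 using 2
  ring

/-- `f` is large compared to the first coordinate, near the line `y = θ x + s` but not too close -/
def Far (f : ℕ × ℕ → ℝ) (α θ s : ℝ) : Prop :=
  ∃ ρ : ℝ, 0 < ρ ∧ ∀ c : ℝ, 0 < c → ∃ W : ℝ, ∃ X0 : ℕ, ∀ P ∈ Sec α, X0 < P.1 →
    (P.2 : ℝ) - θ * P.1 ∈ Set.Ioo (s - ρ) (s + ρ) → W < P.1 * |(P.2 : ℝ) - θ * P.1 - s| →
    c * P.1 ≤ f P

theorem abs_of_Ioo {s ρ u : ℝ} (hu : u ∈ Set.Ioo (s - ρ) (s + ρ)) : |u| ≤ |s| + ρ := by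
  have h1 := neg_abs_le s
  have h2 := le_abs_self s
  rw [abs_le]
  constructor <;> linarith [hu.1, hu.2]

/-- the points of the sector close to the line `y = θ x + s` -/
def Ln (α θ s W : ℝ) : Set (ℕ × ℕ) :=
  {P | P ∈ Sec α ∧ 0 < P.1 ∧ P.1 * |(P.2 : ℝ) - θ * P.1 - s| ≤ W}

/-- strips are thin -/
theorem Pk.thin_of_far (H : Pk α d h) {θ : ℝ} {s : ℝ} (hF : Far (fv d h) α θ s)
    (hw : ∀ W : ℝ, Thin (fv d h) (Ln α θ s W)) :
    ∃ ρ : ℝ, 0 < ρ ∧ Thin (fv d h) (Str α θ (Set.Ioo (s - ρ) (s + ρ))) := by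
  obtain ⟨ρ, hρ, hF⟩ := hF
  refine ⟨ρ, hρ, ?_⟩
  apply thin_of_eps
  intro ε hε
  set U := |s| + ρ with hU
  have hU0 : 0 ≤ U := by positivity
  set V := 2 * U + 1 with hV
  have hV0 : 0 < V := by positivity
  obtain ⟨W, X0, hW⟩ := hF (2 * V / ε) (by positivity)
  refine ⟨Ln α θ s W ∪ {P | P ∈ Sec α ∧ P.1 ≤ X0},
    Thin.union (hw W) (thin_finite (finite_x H.pos X0)), ?_⟩
  obtain ⟨N0, hN0⟩ := exists_nat_ge (2 * V / ε)
  refine ⟨N0, fun N hN T hT => ?_⟩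
  have hNR : 2 * V / ε ≤ N := hN0.trans (by exact_mod_cast hN)
  have hNn : (0 : ℝ) ≤ N := Nat.cast_nonneg _
  have h5 : 0 ≤ ε * N / (2 * V) := by positivity
  have hbox : (T.card : ℝ) ≤ (ε * N / (2 * V) + 1) * V := by
    apply card_box θ _ _ (by positivity) hU0
    intro P hP
    obtain ⟨h1, h2, h3⟩ := hT P hP
    refine ⟨?_, abs_of_Ioo h1.2⟩
    have hx : X0 < P.1 := by
      by_contra hcon
      exact h2 (Or.inr ⟨h1.1, by omega⟩)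
    have hw : W < P.1 * |(P.2 : ℝ) - θ * P.1 - s| := by
      by_contra hcon
      exact h2 (Or.inl ⟨h1.1, by omega, not_lt.1 hcon⟩)
    have h4 := (hW P h1.1 hx h1.2 hw).trans h3
    rw [le_div_iff₀ (by positivity)]
    rw [div_mul_eq_mul_div, div_le_iff₀ hε] at h4
    linarith
  rw [div_le_iff₀ hε] at hNR
  have h6 : (ε * N / (2 * V) + 1) * V = ε * N / 2 + V := by
    field_simp
  rw [h6] at hbox
  linarith

/-- a logarithmic bound near a line -/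
theorem Pk.thin_ln_log (H : Pk α d h) (hd2 : 2 ≤ d) (hne : h d ≠ 0) {θ : ℝ}
    (hirr : Irrational θ) (s W : ℝ)
    (hlog : ∀ η : ℝ, 0 < η → ∃ X0 : ℕ, ∀ P ∈ Ln α θ s W, X0 < P.1 →
      Real.log P.1 ^ 2 ≤ η * fv d h P) : Thin (fv d h) (Ln α θ s W) := by
  apply H.thin_of_log hd2 hne hirr s W _ _ hlog
  rintro P ⟨hP1, hP2, hP3⟩
  have hPpos : (0 : ℝ) < P.1 := by exact_mod_cast hP2
  refine ⟨hP1, ?_⟩
  rw [le_div_iff₀ hPpos, mul_comm]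
  exact hP3

/-- a logarithmic bound on the strips -/
theorem Pk.thin_ln_strip (H : Pk α d h) (hd2 : 2 ≤ d) (hne : h d ≠ 0) {θ : ℝ}
    (hirr : Irrational θ)
    (hlog : ∀ U η : ℝ, 0 < η → ∃ X0 : ℕ, ∀ P ∈ Sec α, X0 < P.1 → |(P.2 : ℝ) - θ * P.1| ≤ U →
      Real.log P.1 ^ 2 ≤ η * fv d h P) (s W : ℝ) : Thin (fv d h) (Ln α θ s W) := by
  apply H.thin_ln_log hd2 hne hirr
  intro η hη
  obtain ⟨X0, hX0⟩ := hlog (|s| + |W|) η hη
  refine ⟨X0, fun P hP hx => hX0 P hP.1 hx ?_⟩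
  obtain ⟨_, h2, h3⟩ := hP
  have hx1 : (1 : ℝ) ≤ P.1 := by exact_mod_cast h2
  have h4 : |(P.2 : ℝ) - θ * P.1 - s| ≤ P.1 * |(P.2 : ℝ) - θ * P.1 - s| :=
    le_mul_of_one_le_left (abs_nonneg _) hx1
  have h5 := le_abs_self W
  calc |(P.2 : ℝ) - θ * P.1| = |((P.2 : ℝ) - θ * P.1 - s) + s| := by ring_nf
    _ ≤ |(P.2 : ℝ) - θ * P.1 - s| + |s| := abs_add_le _ _
    _ ≤ |s| + |W| := by linarith

/-- thin strips -/
theorem thin_strip_compact {f : ℕ × ℕ → ℝ} {α θ : ℝ}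
    (hs : ∀ s : ℝ, ∃ ρ : ℝ, 0 < ρ ∧ Thin f (Str α θ (Set.Ioo (s - ρ) (s + ρ)))) (U : ℝ) :
    Thin f (Str α θ (Set.Icc (-U) U)) := by
  refine IsCompact.induction_on (isCompact_Icc (a := -U) (b := U))
    (p := fun S => Thin f (Str α θ S)) ?_ ?_ ?_ ?_
  · apply Thin.mono (thin_empty _)
    rintro P ⟨_, hP⟩
    exact absurd hP (Set.notMem_empty _)
  · intro S T hST hT
    exact hT.mono fun P hP => ⟨hP.1, hST hP.2⟩
  · intro S T h1 h2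
    refine (h1.union h2).mono ?_
    rintro P ⟨hP, hu | hu⟩
    · exact Or.inl ⟨hP, hu⟩
    · exact Or.inr ⟨hP, hu⟩
  · intro s _
    obtain ⟨ρ, hρ, hT⟩ := hs s
    exact ⟨_, mem_nhdsWithin_of_mem_nhds (Ioo_mem_nhds (by linarith) (by linarith)), hT⟩

/-- a point where the top polynomial is positive -/
theorem Pk.strip_zero (n : ℕ) (hn : n + 4 ≤ d) (H : Pk α d h) {θ s : ℝ}
    (hv : ∀ j, n + 4 < j → j ≤ d → ∀ u, (gT d h θ j).eval u = 0)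
    (hA : 0 < (gT d h θ (n + 4)).eval s) :
    ∃ ρ : ℝ, 0 < ρ ∧ Thin (fv d h) (Str α θ (Set.Ioo (s - ρ) (s + ρ))) := by
  obtain ⟨C, hC0, hC⟩ := H.exp_one n hn θ hv (|s| + 1)
  set A := gT d h θ (n + 4) with hAdef
  obtain ⟨L, hL0, hL⟩ := poly_lip A s (|s| + 1)
  set a := A.eval s with ha
  set ρ := min 1 (a / (2 * (L + 1))) with hρ
  have hρ0 : 0 < ρ := by positivity
  refine ⟨ρ, hρ0, ?_⟩
  have hBig : Big (fv d h) α θ (Set.Ioo (s - ρ) (s + ρ)) := by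
    intro c hc
    obtain ⟨X1, hX1⟩ := exists_nat_ge ((C + c) * 2 / a)
    refine ⟨X1, fun P _ hx hu => ?_⟩
    have hxp : 0 < P.1 := by omega
    have hx1 : (1 : ℝ) ≤ P.1 := by exact_mod_cast hxp
    have hxX : (X1 : ℝ) ≤ P.1 := by exact_mod_cast hx.le
    have hxc : C + c ≤ P.1 * (a / 2) := by
      rw [div_le_iff₀ hA] at hX1
      have := mul_le_mul_of_nonneg_right hxX hA.le
      linarith
    have hul : |(P.2 : ℝ) - θ * P.1| ≤ |s| + 1 :=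
      (abs_of_Ioo hu).trans (by linarith [min_le_left 1 (a / (2 * (L + 1)))])
    set u := (P.2 : ℝ) - θ * P.1 with hudef
    have hvρ : |u - s| ≤ ρ := by
      rw [abs_le]
      constructor <;> linarith [hu.1, hu.2]
    have hCP := (abs_le.1 (hC P hx1 hul)).1
    rw [← hudef] at hCP
    have g0 := (abs_le.1 (hL u hul)).1
    have hA2 : a / 2 ≤ A.eval u := by
      have h4 : L * |u - s| ≤ a / 2 := by
        calc L * |u - s| ≤ (L + 1) * (a / (2 * (L + 1))) := by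
              apply mul_le_mul (by linarith) (hvρ.trans (min_le_right _ _)) (abs_nonneg _)
                (by positivity)
          _ = a / 2 := by field_simp
      linarith
    have k0 : (P.1 : ℝ) ^ (n + 4) * (a / 2) ≤ (P.1 : ℝ) ^ (n + 4) * A.eval u := by gcongr
    have k5 : (P.1 : ℝ) ^ (n + 3) * (C + c) ≤ (P.1 : ℝ) ^ (n + 3) * (P.1 * (a / 2)) := by gcongr
    have k6 : (P.1 : ℝ) ^ (n + 3) * (P.1 * (a / 2)) = (P.1 : ℝ) ^ (n + 4) * (a / 2) := by ring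
    have k7 : c * P.1 ≤ (P.1 : ℝ) ^ (n + 3) * c := by
      calc c * (P.1 : ℝ) = (P.1 : ℝ) ^ 1 * c := by ring
        _ ≤ (P.1 : ℝ) ^ (n + 3) * c := by
            have := pow_le_pow_right₀ hx1 (by omega : 1 ≤ n + 3)
            gcongr
    linarith
  exact hBig.thin (U := |s| + ρ) (by positivity) fun u hu => abs_of_Ioo hu

/-- a simple zero of the top polynomial, at the boundary -/
theorem Pk.far_one (n : ℕ) (hn : n + 4 ≤ d) (H : Pk α d h)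
    (hv : ∀ j, n + 4 < j → j ≤ d → ∀ u, (gT d h α j).eval u = 0) {γ ρ : ℝ} (hγ : 0 < γ)
    (hρ : 0 < ρ) (hG : ∀ u : ℝ, u ≤ 0 → |u| < ρ → γ * |u| ≤ (gT d h α (n + 4)).eval u) :
    Far (fv d h) α α 0 := by
  obtain ⟨C, hC0, hC⟩ := H.exp_one n hn α hv ρ
  refine ⟨ρ, hρ, fun c hc => ⟨(C + c) / γ, 0, fun P hP hx hu hw => ?_⟩⟩
  have hx1 : (1 : ℝ) ≤ P.1 := by exact_mod_cast hx
  have hxpos : (0 : ℝ) < P.1 := by linarith
  have hu0 := sec_u hP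
  rw [zero_sub, zero_add] at hu
  rw [_root_.sub_zero] at hw
  set u := (P.2 : ℝ) - α * P.1 with hudef
  have huρ : |u| < ρ := abs_lt.2 hu
  have hCP := (abs_le.1 (hC P hx1 huρ.le)).1
  rw [← hudef] at hCP
  have hg := hG u hu0 huρ
  have k0 : (P.1 : ℝ) ^ (n + 4) * (γ * |u|) ≤
      (P.1 : ℝ) ^ (n + 4) * (gT d h α (n + 4)).eval u := by gcongr
  have k1 : C + c ≤ P.1 * |u| * γ := by
    rw [div_lt_iff₀ hγ] at hw
    exact hw.le
  have k2 : (P.1 : ℝ) ^ (n + 3) * (C + c) ≤ (P.1 : ℝ) ^ (n + 3) * (P.1 * |u| * γ) := by gcongr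
  have k3 : (P.1 : ℝ) ^ (n + 3) * (P.1 * |u| * γ) = (P.1 : ℝ) ^ (n + 4) * (γ * |u|) := by ring
  have k7 : c * P.1 ≤ (P.1 : ℝ) ^ (n + 3) * c := by
    calc c * (P.1 : ℝ) = (P.1 : ℝ) ^ 1 * c := by ring
      _ ≤ (P.1 : ℝ) ^ (n + 3) * c := by
          have := pow_le_pow_right₀ hx1 (by omega : 1 ≤ n + 3)
          gcongr
  linarith

/-- the value of the second polynomial at a multiple zero of the top polynomial -/
theorem Pk.second_nonneg (n : ℕ) (hn : n + 4 ≤ d) (H : Pk α d h) {θ s : ℝ}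
    (hv : ∀ j, n + 4 < j → j ≤ d → ∀ u, (gT d h θ j).eval u = 0)
    (hs0 : (gT d h θ (n + 4)).eval s = 0) (hs1 : (derivative (gT d h θ (n + 4))).eval s = 0)
    (hnear : ∀ X0 : ℕ, ∃ P ∈ Sec α, X0 < P.1 ∧ (P.1 : ℝ) * |(P.2 : ℝ) - θ * P.1 - s| ≤ 11) :
    0 ≤ (gT d h θ (n + 3)).eval s := by
  obtain ⟨C, hC0, hC⟩ := H.exp_two n hn θ hv (|s| + 1)
  set A := gT d h θ (n + 4) with hA
  set B := gT d h θ (n + 3) with hB
  obtain ⟨L2, hL20, hL2⟩ := poly_lip2 A s (|s| + 1)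
  obtain ⟨L1, hL10, hL1⟩ := poly_lip B s (|s| + 1)
  by_contra hneg
  push Not at hneg
  set c0 := B.eval s with hc0
  set D := 121 * L2 + 11 * L1 + C with hD
  have hD0 : 0 ≤ D := by positivity
  have hc0' : 0 < -c0 := by linarith
  obtain ⟨X1, hX1⟩ := exists_nat_ge (D / -c0 + 11)
  obtain ⟨P, hP1, hP2, hP3⟩ := hnear X1
  have hxX : (X1 : ℝ) < P.1 := by exact_mod_cast hP2
  have hdiv : 0 ≤ D / -c0 := by positivity
  have hx1 : (1 : ℝ) ≤ P.1 := by linarith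
  have hxpos : (0 : ℝ) < P.1 := by linarith
  have hxD : D < P.1 * -c0 := by
    have h3 : D / -c0 < P.1 := by linarith
    rw [div_lt_iff₀ hc0'] at h3
    exact h3
  set u := (P.2 : ℝ) - θ * P.1 with hu
  have hv1 : |u - s| ≤ 1 := by
    by_contra hcon
    push Not at hcon
    have h4 : (P.1 : ℝ) * 1 < P.1 * |u - s| := mul_lt_mul_of_pos_left hcon hxpos
    linarith
  have hul : |u| ≤ |s| + 1 := by
    calc |u| = |(u - s) + s| := by ring_nf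
      _ ≤ |u - s| + |s| := abs_add_le _ _
      _ ≤ |s| + 1 := by linarith
  have hCP := (abs_le.1 (hC P hx1 hul)).2
  rw [← hu] at hCP
  have g2 := (abs_le.1 (hL2 u hul)).2
  rw [hs0, hs1, zero_mul, _root_.sub_zero, _root_.sub_zero] at g2
  have g1 := (abs_le.1 (hL1 u hul)).2
  have hF := H.fv_nonneg hP1
  have hxn : 0 < (P.1 : ℝ) ^ (n + 2) := by positivity
  have k1 : (P.1 : ℝ) ^ (n + 4) * A.eval u ≤ (P.1 : ℝ) ^ (n + 2) * (121 * L2) := by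
    have h4 : ((P.1 : ℝ) * |u - s|) ^ 2 ≤ 11 ^ 2 := by gcongr
    calc (P.1 : ℝ) ^ (n + 4) * A.eval u ≤ (P.1 : ℝ) ^ (n + 4) * (L2 * (u - s) ^ 2) := by gcongr
      _ = (P.1 : ℝ) ^ (n + 2) * (L2 * ((P.1 : ℝ) * |u - s|) ^ 2) := by
          rw [mul_pow, sq_abs]
          ring
      _ ≤ (P.1 : ℝ) ^ (n + 2) * (L2 * 11 ^ 2) := by gcongr
      _ = (P.1 : ℝ) ^ (n + 2) * (121 * L2) := by ring
  have k2 : (P.1 : ℝ) ^ (n + 3) * B.eval u ≤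
      (P.1 : ℝ) ^ (n + 2) * (P.1 * c0 + 11 * L1) := by
    have h4 : P.1 * B.eval u ≤ P.1 * c0 + 11 * L1 := by
      have h5 : (P.1 : ℝ) * B.eval u ≤ P.1 * (c0 + L1 * |u - s|) := by
        gcongr
        linarith
      have h6 : L1 * (P.1 * |u - s|) ≤ L1 * 11 := by gcongr
      linarith
    calc (P.1 : ℝ) ^ (n + 3) * B.eval u = (P.1 : ℝ) ^ (n + 2) * (P.1 * B.eval u) := by ring
      _ ≤ (P.1 : ℝ) ^ (n + 2) * (P.1 * c0 + 11 * L1) := by gcongr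
  have k5 : (P.1 : ℝ) ^ (n + 2) * (D + P.1 * c0) < 0 := by
    apply mul_neg_of_pos_of_neg hxn
    linarith
  have k6 : (P.1 : ℝ) ^ (n + 2) * (D + P.1 * c0) = (P.1 : ℝ) ^ (n + 2) * (121 * L2) +
      (P.1 : ℝ) ^ (n + 2) * (P.1 * c0 + 11 * L1) + C * (P.1 : ℝ) ^ (n + 2) := by
    rw [hD]
    ring
  linarith

/-- a double zero of the top polynomial -/
theorem Pk.far_two (n : ℕ) (hn : n + 4 ≤ d) (H : Pk α d h) {θ s : ℝ}
    (hv : ∀ j, n + 4 < j → j ≤ d → ∀ u, (gT d h θ j).eval u = 0) {a ρ : ℝ} (ha : 0 < a)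
    (hρ : 0 < ρ) (hG : ∀ u : ℝ, (θ = α → u ≤ 0) → |u - s| < ρ →
      a * (u - s) ^ 2 ≤ (gT d h θ (n + 4)).eval u)
    (hc0 : 0 ≤ (gT d h θ (n + 3)).eval s) : Far (fv d h) α θ s := by
  obtain ⟨C, hC0, hC⟩ := H.exp_two n hn θ hv (|s| + ρ)
  set A := gT d h θ (n + 4) with hA
  set B := gT d h θ (n + 3) with hB
  obtain ⟨L, hL0, hL⟩ := poly_lip B s (|s| + ρ)
  refine ⟨ρ, hρ, fun c hc => ⟨(L + C + c) / a + 1, 0, fun P hP hx hu hw => ?_⟩⟩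
  have hx1 : (1 : ℝ) ≤ P.1 := by exact_mod_cast hx
  have hxpos : (0 : ℝ) < P.1 := by linarith
  have hul := abs_of_Ioo hu
  have hside : θ = α → (P.2 : ℝ) - θ * P.1 ≤ 0 := by
    intro h1
    rw [h1]
    exact sec_u hP
  set u := (P.2 : ℝ) - θ * P.1 with hudef
  have huρ : |u - s| < ρ := by
    rw [abs_lt]
    constructor <;> linarith [hu.1, hu.2]
  have hCP := (abs_le.1 (hC P hx1 hul)).1
  rw [← hudef] at hCP
  have hg := hG u hside huρ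
  have g1 := (abs_le.1 (hL u hul)).1
  set w := (P.1 : ℝ) * |u - s| with hwdef
  have hq : 0 ≤ (L + C + c) / a := by positivity
  have hw1 : 1 ≤ w := by linarith
  have haw : L + C + c ≤ a * w := by
    have h1 : (L + C + c) / a ≤ w := by linarith
    rw [div_le_iff₀ ha] at h1
    linarith
  have k0 : (P.1 : ℝ) ^ (n + 4) * (a * (u - s) ^ 2) ≤ (P.1 : ℝ) ^ (n + 4) * A.eval u := by
    gcongr
  have k0' : (P.1 : ℝ) ^ (n + 4) * (a * (u - s) ^ 2) = (P.1 : ℝ) ^ (n + 2) * (a * w ^ 2) := by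
    rw [hwdef, mul_pow, sq_abs]
    ring
  have k1 : (P.1 : ℝ) ^ (n + 3) * -(L * |u - s|) ≤ (P.1 : ℝ) ^ (n + 3) * B.eval u := by
    gcongr
    linarith
  have k1' : (P.1 : ℝ) ^ (n + 3) * -(L * |u - s|) = (P.1 : ℝ) ^ (n + 2) * -(L * w) := by
    rw [hwdef]
    ring
  have k2 : (P.1 : ℝ) ^ (n + 2) * c ≤ (P.1 : ℝ) ^ (n + 2) * (a * w ^ 2 - L * w - C) := by
    gcongr
    have h1 : (L + C + c) * w ≤ a * w * w := by gcongr
    have h2 : (C + c) * 1 ≤ (C + c) * w := by gcongr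
    have h3 : a * w ^ 2 = a * w * w := by ring
    linarith
  have k7 : c * P.1 ≤ (P.1 : ℝ) ^ (n + 2) * c := by
    calc c * (P.1 : ℝ) = (P.1 : ℝ) ^ 1 * c := by ring
      _ ≤ (P.1 : ℝ) ^ (n + 2) * c := by
          have := pow_le_pow_right₀ hx1 (by omega : 1 ≤ n + 2)
          gcongr
  have k8 : (P.1 : ℝ) ^ (n + 2) * (a * w ^ 2 - L * w - C) =
      (P.1 : ℝ) ^ (n + 2) * (a * w ^ 2) + (P.1 : ℝ) ^ (n + 2) * -(L * w) -
        C * (P.1 : ℝ) ^ (n + 2) := by ring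
  linarith

end PP72
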