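import Pool.Agent.PP72.Tri1

/-!
Order three at the boundary: a triple zero of the top polynomial.
-/

open Polynomial Finset Filter

namespace PP72

variable {α : ℝ} {d : ℕ} {h : ℕ → ℝ[X]}

/-- points of the sector with `x (α x - y)` in a window -/
theorem exists_window {α : ℝ} (hα : Irrational α) (h0 : 0 < α) {W1 : ℝ} (hW1 : 0 < W1) :
    ∃ W2 : ℝ, 0 < W2 ∧ ∀ X0 : ℕ, ∃ P ∈ Sec α, X0 < P.1 ∧ W1 ≤ P.1 * |(P.2 : ℝ) - α * P.1| ∧
      P.1 * |(P.2 : ℝ) - α * P.1| ≤ W2 := by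
  refine ⟨(√W1 + √11) ^ 2, by positivity, fun X0 => ?_⟩
  obtain ⟨P, hP1, hP2, hP3⟩ := exists_near_bd hα h0 0 le_rfl X0
  rw [_root_.sub_zero] at hP3
  have hPpos : 0 < P.1 := by omega
  have hx : (0 : ℝ) < P.1 := by exact_mod_cast hPpos
  set w0 := (P.1 : ℝ) * |(P.2 : ℝ) - α * P.1| with hw0
  have hne : (P.2 : ℝ) - α * P.1 ≠ 0 := by
    intro h1
    apply hα
    refine ⟨(P.2 : ℚ) / P.1, ?_⟩
    push_cast
    rw [div_eq_iff hx.ne']
    linarith
  have hw0pos : 0 < w0 := by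
    have := abs_pos.2 hne
    positivity
  set q := √(W1 / w0) with hq
  have hqpos : 0 < q := Real.sqrt_pos.2 (by positivity)
  set n := ⌈q⌉₊ with hn
  have hn1 : q ≤ n := Nat.le_ceil q
  have hn2 : (n : ℝ) < q + 1 := Nat.ceil_lt_add_one hqpos.le
  have hnpos : 0 < n := Nat.ceil_pos.2 hqpos
  have hval : ((n * P.1 : ℕ) : ℝ) * |((n * P.2 : ℕ) : ℝ) - α * ((n * P.1 : ℕ) : ℝ)| =
      (n : ℝ) ^ 2 * w0 := by
    push_cast
    have h1 : (n : ℝ) * P.2 - α * (n * P.1) = n * (P.2 - α * P.1) := by ring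
    rw [h1, abs_mul, abs_of_nonneg (Nat.cast_nonneg n : (0 : ℝ) ≤ n), hw0]
    ring
  refine ⟨(n * P.1, n * P.2), sec_smul hP1 n, ?_, ?_, ?_⟩
  · exact lt_of_lt_of_le hP2 (Nat.le_mul_of_pos_left _ hnpos)
  · change W1 ≤ ((n * P.1 : ℕ) : ℝ) * |((n * P.2 : ℕ) : ℝ) - α * ((n * P.1 : ℕ) : ℝ)|
    rw [hval]
    have h1 : q ^ 2 * w0 = W1 := by
      rw [hq, Real.sq_sqrt (by positivity)]
      field_simp
    rw [← h1]
    gcongr
  · change ((n * P.1 : ℕ) : ℝ) * |((n * P.2 : ℕ) : ℝ) - α * ((n * P.1 : ℕ) : ℝ)| ≤ _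
    rw [hval]
    have h2 : √w0 ≤ √11 := Real.sqrt_le_sqrt hP3
    have h3 : (n : ℝ) * √w0 ≤ √W1 + √11 := by
      calc (n : ℝ) * √w0 ≤ (q + 1) * √w0 := by gcongr
        _ = q * √w0 + √w0 := by ring
        _ = √W1 + √w0 := by
            rw [hq, ← Real.sqrt_mul (by positivity)]
            congr 2
            field_simp
        _ ≤ √W1 + √11 := by linarith
    calc (n : ℝ) ^ 2 * w0 = ((n : ℝ) * √w0) ^ 2 := by
          rw [mul_pow, Real.sq_sqrt hw0pos.le]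
      _ ≤ (√W1 + √11) ^ 2 := by gcongr

/-- the signs at a triple zero of the top polynomial -/
theorem Pk.triple_signs (n : ℕ) (hn : n + 4 ≤ d) (H : Pk α d h) {a : ℝ} (ha : 0 < a)
    (hv : ∀ j, n + 4 < j → j ≤ d → ∀ u, (gT d h α j).eval u = 0)
    (hA : ∀ u, (gT d h α (n + 4)).eval u = -a * u ^ 3)
    (hc0 : (gT d h α (n + 3)).eval 0 = 0) {W1 κ : ℝ} (hW1 : 0 < W1) (hκ : 0 < κ)
    (hneg : ∀ w : ℝ, W1 ≤ w →
      -(derivative (gT d h α (n + 3))).eval 0 * w + (gT d h α (n + 2)).eval 0 ≤ -κ) : False := by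
  obtain ⟨C, hC0, hC⟩ := H.exp_three n hn α hv 1
  set B := gT d h α (n + 3) with hB
  set E := gT d h α (n + 2) with hE
  obtain ⟨L2, hL20, hL2⟩ := poly_lip2 B 0 1
  obtain ⟨L3, hL30, hL3⟩ := poly_lip E 0 1
  set c1 := (derivative B).eval 0 with hc1
  set e0 := E.eval 0 with he0
  obtain ⟨W2, hW2, hwin⟩ := exists_window H.irr H.pos hW1
  set D := a * W2 ^ 3 + L2 * W2 ^ 2 + L3 * W2 + C with hD
  have hD0 : 0 ≤ D := by positivity
  obtain ⟨X1, hX1⟩ := exists_nat_ge (D / κ + W2 + 1)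
  obtain ⟨P, hP1, hP2, hP3, hP4⟩ := hwin X1
  have hxX : (X1 : ℝ) < P.1 := by exact_mod_cast hP2
  have hdiv : 0 ≤ D / κ := by positivity
  have hx1 : (1 : ℝ) ≤ P.1 := by linarith
  have hxpos : (0 : ℝ) < P.1 := by linarith
  have hxW : W2 ≤ P.1 := by linarith
  have hxD : D < P.1 * κ := by
    have h3 : D / κ < P.1 := by linarith
    rw [div_lt_iff₀ hκ] at h3
    exact h3
  have hu0 := sec_u hP1
  set u := (P.2 : ℝ) - α * P.1 with hu
  set w := (P.1 : ℝ) * |u| with hw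
  have hu1 : |u| ≤ 1 := by
    by_contra hcon
    push Not at hcon
    have h4 : (P.1 : ℝ) * 1 < P.1 * |u| := mul_lt_mul_of_pos_left hcon hxpos
    linarith
  have hw0 : 0 ≤ w := by positivity
  have hCP := (abs_le.1 (hC P hx1 hu1)).2
  rw [← hu, hA] at hCP
  have g2 := (abs_le.1 (hL2 u hu1)).2
  rw [hc0, _root_.sub_zero, _root_.sub_zero] at g2
  have g3 := (abs_le.1 (hL3 u hu1)).2
  rw [_root_.sub_zero] at g3
  have hF := H.fv_nonneg hP1
  have habs : |u| = -u := abs_of_nonpos hu0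
  have hxn : 0 < (P.1 : ℝ) ^ (n + 1) := by positivity
  have k1 : (P.1 : ℝ) ^ (n + 4) * (-a * u ^ 3) = (P.1 : ℝ) ^ (n + 1) * (a * w ^ 3) := by
    rw [hw, habs]
    ring
  have k2 : (P.1 : ℝ) ^ (n + 3) * B.eval u ≤
      (P.1 : ℝ) ^ (n + 2) * (-c1 * w) + (P.1 : ℝ) ^ (n + 1) * (L2 * w ^ 2) := by
    calc (P.1 : ℝ) ^ (n + 3) * B.eval u ≤ (P.1 : ℝ) ^ (n + 3) * (c1 * u + L2 * u ^ 2) := by
          gcongr
          linarith
      _ = (P.1 : ℝ) ^ (n + 2) * (-c1 * w) + (P.1 : ℝ) ^ (n + 1) * (L2 * w ^ 2) := by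
          rw [hw, habs]
          ring
  have k3 : (P.1 : ℝ) ^ (n + 2) * E.eval u ≤
      (P.1 : ℝ) ^ (n + 2) * e0 + (P.1 : ℝ) ^ (n + 1) * (L3 * w) := by
    calc (P.1 : ℝ) ^ (n + 2) * E.eval u ≤ (P.1 : ℝ) ^ (n + 2) * (e0 + L3 * |u|) := by
          gcongr
          linarith
      _ = (P.1 : ℝ) ^ (n + 2) * e0 + (P.1 : ℝ) ^ (n + 1) * (L3 * w) := by
          rw [hw]
          ring
  have k4 : (P.1 : ℝ) ^ (n + 2) * (-c1 * w + e0) ≤ (P.1 : ℝ) ^ (n + 2) * -κ := by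
    have := hneg w hP3
    gcongr
  have k5 : (P.1 : ℝ) ^ (n + 1) * (a * w ^ 3 + L2 * w ^ 2 + L3 * w + C) ≤
      (P.1 : ℝ) ^ (n + 1) * D := by
    rw [hD]
    gcongr
  have k6 : (P.1 : ℝ) ^ (n + 1) * (D - P.1 * κ) < 0 := by
    apply mul_neg_of_pos_of_neg hxn
    linarith
  have k7 : (P.1 : ℝ) ^ (n + 1) * (D - P.1 * κ) =
      (P.1 : ℝ) ^ (n + 1) * D + (P.1 : ℝ) ^ (n + 2) * -κ := by ring
  have k8 : (P.1 : ℝ) ^ (n + 1) * (a * w ^ 3 + L2 * w ^ 2 + L3 * w + C) =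
      (P.1 : ℝ) ^ (n + 1) * (a * w ^ 3) + (P.1 : ℝ) ^ (n + 1) * (L2 * w ^ 2) +
      (P.1 : ℝ) ^ (n + 1) * (L3 * w) + C * (P.1 : ℝ) ^ (n + 1) := by ring
  have k9 : (P.1 : ℝ) ^ (n + 2) * (-c1 * w + e0) =
      (P.1 : ℝ) ^ (n + 2) * (-c1 * w) + (P.1 : ℝ) ^ (n + 2) * e0 := by ring
  linarith

/-- a triple zero of the top polynomial -/
theorem Pk.far_three (n : ℕ) (hn : n + 4 ≤ d) (H : Pk α d h) {a : ℝ} (ha : 0 < a)
    (hv : ∀ j, n + 4 < j → j ≤ d → ∀ u, (gT d h α j).eval u = 0)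
    (hA : ∀ u, (gT d h α (n + 4)).eval u = -a * u ^ 3)
    (hc0 : 0 ≤ (gT d h α (n + 3)).eval 0) : Far (fv d h) α α 0 := by
  rcases hc0.lt_or_eq with hpos | hzero
  · -- the second polynomial is positive
    obtain ⟨C, hC0, hC⟩ := H.exp_two n hn α hv 1
    set B := gT d h α (n + 3) with hB
    obtain ⟨L, hL0, hL⟩ := poly_lip B 0 1
    set c0 := B.eval 0 with hc0'
    set ρ := min 1 (c0 / (2 * (L + 1))) with hρ
    have hρ0 : 0 < ρ := by positivity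
    refine ⟨ρ, hρ0, fun c hc => ⟨0, ?_⟩⟩
    obtain ⟨X1, hX1⟩ := exists_nat_ge ((C + c) * 2 / c0)
    refine ⟨X1, fun P hP hx hu _ => ?_⟩
    have hxp : 0 < P.1 := by omega
    have hx1 : (1 : ℝ) ≤ P.1 := by exact_mod_cast hxp
    have hxX : (X1 : ℝ) ≤ P.1 := by exact_mod_cast hx.le
    have hxc : C + c ≤ P.1 * (c0 / 2) := by
      rw [div_le_iff₀ hpos] at hX1
      have := mul_le_mul_of_nonneg_right hxX hpos.le
      linarith
    have hu0 := sec_u hP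
    rw [zero_sub, zero_add] at hu
    set u := (P.2 : ℝ) - α * P.1 with hudef
    have huρ : |u| ≤ ρ := (abs_lt.2 hu).le
    have hu1 : |u| ≤ 1 := huρ.trans (min_le_left _ _)
    have hCP := (abs_le.1 (hC P hx1 hu1)).1
    rw [← hudef, hA] at hCP
    have g0 := (abs_le.1 (hL u hu1)).1
    rw [_root_.sub_zero] at g0
    have hB2 : c0 / 2 ≤ B.eval u := by
      have h4 : L * |u| ≤ c0 / 2 := by
        calc L * |u| ≤ (L + 1) * (c0 / (2 * (L + 1))) := by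
              apply mul_le_mul (by linarith) (huρ.trans (min_le_right _ _)) (abs_nonneg _)
                (by positivity)
          _ = c0 / 2 := by field_simp
      linarith
    have k0 : 0 ≤ (P.1 : ℝ) ^ (n + 4) * (-a * u ^ 3) := by
      have h5 : -a * u ^ 3 = a * (-u) ^ 3 := by ring
      rw [h5]
      have h6 : 0 ≤ -u := by linarith
      positivity
    have k1 : (P.1 : ℝ) ^ (n + 3) * (c0 / 2) ≤ (P.1 : ℝ) ^ (n + 3) * B.eval u := by gcongr
    have k5 : (P.1 : ℝ) ^ (n + 2) * (C + c) ≤ (P.1 : ℝ) ^ (n + 2) * (P.1 * (c0 / 2)) := by gcongr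
    have k6 : (P.1 : ℝ) ^ (n + 2) * (P.1 * (c0 / 2)) = (P.1 : ℝ) ^ (n + 3) * (c0 / 2) := by ring
    have k7 : c * P.1 ≤ (P.1 : ℝ) ^ (n + 2) * c := by
      calc c * (P.1 : ℝ) = (P.1 : ℝ) ^ 1 * c := by ring
        _ ≤ (P.1 : ℝ) ^ (n + 2) * c := by
            have := pow_le_pow_right₀ hx1 (by omega : 1 ≤ n + 2)
            gcongr
    linarith
  · -- the second polynomial vanishes at `0`
    set c1 := (derivative (gT d h α (n + 3))).eval 0 with hc1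
    set e0 := (gT d h α (n + 2)).eval 0 with he0
    -- the signs
    obtain ⟨Wa, hWa⟩ : ∃ Wa : ℝ, ∀ w : ℝ, Wa ≤ w → 0 ≤ -c1 * w + e0 := by
      rcases lt_trichotomy c1 0 with hlt | heq | hgt
      · refine ⟨|e0| / -c1, fun w hw => ?_⟩
        rw [div_le_iff₀ (by linarith)] at hw
        have := neg_abs_le e0
        linarith
      · refine ⟨0, fun w _ => ?_⟩
        rw [heq]
        by_contra hcon
        push Not at hcon
        apply H.triple_signs n hn ha hv hA hzero.symm one_pos (κ := -e0) (by linarith)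
        intro w' _
        change -c1 * w' + e0 ≤ - -e0
        rw [heq]
        linarith
      · exfalso
        apply H.triple_signs n hn ha hv hA hzero.symm (W1 := (|e0| + 1) / c1) (by positivity)
          one_pos
        intro w hw
        change -c1 * w + e0 ≤ -1
        rw [div_le_iff₀ hgt] at hw
        have := le_abs_self e0
        linarith
    obtain ⟨C, hC0, hC⟩ := H.exp_three n hn α hv 1
    set B := gT d h α (n + 3) with hB
    set E := gT d h α (n + 2) with hE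
    obtain ⟨L2, hL20, hL2⟩ := poly_lip2 B 0 1
    obtain ⟨L3, hL30, hL3⟩ := poly_lip E 0 1
    refine ⟨1, one_pos, fun c hc => ⟨max Wa ((L2 + L3 + C + c) / a + 1), 0,
      fun P hP hx hu hw => ?_⟩⟩
    have hx1 : (1 : ℝ) ≤ P.1 := by exact_mod_cast hx
    have hu0 := sec_u hP
    rw [zero_sub, zero_add] at hu
    rw [_root_.sub_zero] at hw
    set u := (P.2 : ℝ) - α * P.1 with hudef
    set w := (P.1 : ℝ) * |u| with hwdef
    have hu1 : |u| ≤ 1 := (abs_lt.2 hu).le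
    have habs : |u| = -u := abs_of_nonpos hu0
    have hCP := (abs_le.1 (hC P hx1 hu1)).1
    rw [← hudef, hA] at hCP
    have g2 := (abs_le.1 (hL2 u hu1)).1
    rw [← hzero, _root_.sub_zero, _root_.sub_zero] at g2
    have g3 := (abs_le.1 (hL3 u hu1)).1
    rw [_root_.sub_zero] at g3
    have hwa : Wa ≤ w := (le_max_left _ _).trans hw.le
    have hwb : (L2 + L3 + C + c) / a + 1 ≤ w := (le_max_right _ _).trans hw.le
    have hq : 0 ≤ (L2 + L3 + C + c) / a := by positivity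
    have hw1 : 1 ≤ w := by linarith
    have haw : L2 + L3 + C + c ≤ a * w := by
      have h1 : (L2 + L3 + C + c) / a ≤ w := by linarith
      rw [div_le_iff₀ ha] at h1
      linarith
    have k1 : (P.1 : ℝ) ^ (n + 4) * (-a * u ^ 3) = (P.1 : ℝ) ^ (n + 1) * (a * w ^ 3) := by
      rw [hwdef, habs]
      ring
    have k2 : (P.1 : ℝ) ^ (n + 2) * (-c1 * w) - (P.1 : ℝ) ^ (n + 1) * (L2 * w ^ 2) ≤
        (P.1 : ℝ) ^ (n + 3) * B.eval u := by
      calc (P.1 : ℝ) ^ (n + 2) * (-c1 * w) - (P.1 : ℝ) ^ (n + 1) * (L2 * w ^ 2)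
          = (P.1 : ℝ) ^ (n + 3) * (c1 * u - L2 * u ^ 2) := by
            rw [hwdef, habs]
            ring
        _ ≤ (P.1 : ℝ) ^ (n + 3) * B.eval u := by
            gcongr
            linarith
    have k3 : (P.1 : ℝ) ^ (n + 2) * e0 - (P.1 : ℝ) ^ (n + 1) * (L3 * w) ≤
        (P.1 : ℝ) ^ (n + 2) * E.eval u := by
      calc (P.1 : ℝ) ^ (n + 2) * e0 - (P.1 : ℝ) ^ (n + 1) * (L3 * w)
          = (P.1 : ℝ) ^ (n + 2) * (e0 - L3 * |u|) := by
            rw [hwdef]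
            ring
        _ ≤ (P.1 : ℝ) ^ (n + 2) * E.eval u := by
            gcongr
            linarith
    have k4 : 0 ≤ (P.1 : ℝ) ^ (n + 2) * (-c1 * w + e0) := by
      have := hWa w hwa
      positivity
    have hww : w ≤ w ^ 2 := by
      rw [sq]
      exact le_mul_of_one_le_left (by linarith) hw1
    have k5 : (P.1 : ℝ) ^ (n + 1) * c ≤
        (P.1 : ℝ) ^ (n + 1) * (a * w ^ 3 - L2 * w ^ 2 - L3 * w - C) := by
      gcongr
      have h1 : (L2 + L3 + C + c) * w ^ 2 ≤ a * w * w ^ 2 := by gcongr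
      have h2 : L3 * w ≤ L3 * w ^ 2 := by gcongr
      have h3 : (C + c) * 1 ≤ (C + c) * w ^ 2 := by
        have : 1 ≤ w ^ 2 := by linarith
        gcongr
      have h4 : a * w ^ 3 = a * w * w ^ 2 := by ring
      linarith
    have k7 : c * P.1 ≤ (P.1 : ℝ) ^ (n + 1) * c := by
      calc c * (P.1 : ℝ) = (P.1 : ℝ) ^ 1 * c := by ring
        _ ≤ (P.1 : ℝ) ^ (n + 1) * c := by
            have := pow_le_pow_right₀ hx1 (by omega : 1 ≤ n + 1)
            gcongr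
    have k8 : (P.1 : ℝ) ^ (n + 1) * (a * w ^ 3 - L2 * w ^ 2 - L3 * w - C) =
        (P.1 : ℝ) ^ (n + 1) * (a * w ^ 3) - (P.1 : ℝ) ^ (n + 1) * (L2 * w ^ 2) -
        (P.1 : ℝ) ^ (n + 1) * (L3 * w) - C * (P.1 : ℝ) ^ (n + 1) := by ring
    have k9 : (P.1 : ℝ) ^ (n + 2) * (-c1 * w + e0) =
        (P.1 : ℝ) ^ (n + 2) * (-c1 * w) + (P.1 : ℝ) ^ (n + 2) * e0 := by ring
    linarith

end PP72
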