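import Pool.Agent.PP72.Tri2

/-!
Order three at the boundary: the final local statement.
-/

open Polynomial Finset Filter

namespace PP72

variable {α : ℝ} {d : ℕ} {h : ℕ → ℝ[X]}

theorem gT_zero3 {K : ℕ} {θ : ℝ} (hc : ∀ i < 3, (taylor θ (h (K + 3))).coeff i = 0)
    (hz : (h (K + 2)).eval θ = 0) (j : ℕ) (hj1 : K + 1 < j) (hj2 : j ≤ K + 3) :
    gT (K + 3) h θ j = 0 := by
  ext i
  rw [gT_coeff, coeff_zero]
  split_ifs with hij
  · rcases (by omega : (j = K + 2 ∧ i = 0) ∨ (j = K + 2 ∧ i = 1) ∨ (j = K + 3 ∧ i = 0)) with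
      ⟨rfl, rfl⟩ | ⟨rfl, rfl⟩ | ⟨rfl, rfl⟩
    · rw [zero_add, taylor_coeff_zero, hz]
    · have e1 : 1 + (K + 2) = K + 3 := by ring
      rw [e1]
      exact hc 1 (by norm_num)
    · rw [zero_add]
      exact hc 0 (by norm_num)
  · rfl

theorem gT_lin3 {K : ℕ} {θ : ℝ} (hc : ∀ i < 3, (taylor θ (h (K + 3))).coeff i = 0) :
    gT (K + 3) h θ (K + 1) = C ((taylor θ (h (K + 2))).coeff 1) * X +
      C ((h (K + 1)).eval θ) := by
  ext i
  rw [gT_coeff, coeff_add, coeff_C_mul, coeff_X, coeff_C]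
  rcases (by omega : i = 0 ∨ i = 1 ∨ i = 2 ∨ 3 ≤ i) with rfl | rfl | rfl | hi
  · rw [if_pos (by omega), zero_add, taylor_coeff_zero]
    simp
  · have e1 : 1 + (K + 1) = K + 2 := by ring
    rw [if_pos (by omega), e1]
    simp
  · have e1 : 2 + (K + 1) = K + 3 := by ring
    rw [if_pos (by omega), e1, hc 2 (by norm_num)]
    simp
  · rw [if_neg (by omega), if_neg (by omega), if_neg (by omega)]
    simp

theorem gT_cub3 {K : ℕ} {θ : ℝ} :
    gT (K + 3) h θ K = C ((taylor θ (h (K + 3))).coeff 3) * X ^ 3 +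
      C ((taylor θ (h (K + 2))).coeff 2) * X ^ 2 + C ((taylor θ (h (K + 1))).coeff 1) * X +
      C ((h K).eval θ) := by
  ext i
  simp only [gT_coeff, coeff_add, coeff_C_mul, coeff_X, coeff_C, coeff_X_pow]
  rcases (by omega : i = 0 ∨ i = 1 ∨ i = 2 ∨ i = 3 ∨ 4 ≤ i) with rfl | rfl | rfl | rfl | hi
  · rw [if_pos (by omega), zero_add, taylor_coeff_zero]
    simp
  · have e1 : 1 + K = K + 1 := by ring
    rw [if_pos (by omega), e1]
    simp
  · have e1 : 2 + K = K + 2 := by ring
    rw [if_pos (by omega), e1]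
    simp
  · have e1 : 3 + K = K + 3 := by ring
    rw [if_pos (by omega), e1]
    simp
  · rw [if_neg (by omega), if_neg (by omega), if_neg (by omega), if_neg (by omega),
      if_neg (by omega)]
    simp

/-- a cubic function, nonnegative around a zero with positive cubic part on the left -/
theorem cubic_min {m1 m2 a r : ℝ} (ha : 0 < a) (hr : 0 < r)
    (hnn : ∀ v : ℝ, |v| ≤ r → 0 ≤ m1 * v + m2 * v ^ 2 - a * v ^ 3) : m1 = 0 ∧ 0 < m2 := by
  have hm1 : m1 = 0 := by
    by_contra hne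
    have hpos : 0 < |m1| := abs_pos.2 hne
    set q := |m2| + a + 1 with hq
    have hq0 : 0 < q := by positivity
    set τ := min (min r 1) (|m1| / (2 * q)) with hτ
    have hτ0 : 0 < τ := by positivity
    have hτr : τ ≤ r := (min_le_left _ _).trans (min_le_left _ _)
    have hτ1 : τ ≤ 1 := (min_le_left _ _).trans (min_le_right _ _)
    have hτm : q * τ ≤ |m1| / 2 := by
      calc q * τ ≤ q * (|m1| / (2 * q)) := by
            gcongr
            exact min_le_right _ _
        _ = |m1| / 2 := by field_simp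
    have key : ∀ σ : ℝ, |σ| = 1 → σ * m1 = -|m1| → False := by
      intro σ hσ hσm
      have hσ2 : σ ^ 2 = 1 := by rw [← sq_abs, hσ]; norm_num
      have h1 := hnn (σ * τ) (by
        rw [abs_mul, hσ, one_mul, abs_of_pos hτ0]
        exact hτr)
      have h2 : m1 * (σ * τ) = -|m1| * τ := by
        have : m1 * (σ * τ) = (σ * m1) * τ := by ring
        rw [this, hσm]
      have h3 : m2 * (σ * τ) ^ 2 ≤ |m2| * τ ^ 2 := by
        rw [mul_pow, hσ2, one_mul]
        gcongr
        exact le_abs_self _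
      have h4 : -(a * (σ * τ) ^ 3) ≤ a * τ ^ 2 := by
        have h5 : |(σ * τ) ^ 3| = τ ^ 3 := by
          rw [abs_pow, abs_mul, hσ, one_mul, abs_of_pos hτ0]
        have h6 := neg_abs_le ((σ * τ) ^ 3)
        rw [h5] at h6
        have h7 : τ ^ 3 ≤ τ ^ 2 := pow_le_pow_of_le_one hτ0.le hτ1 (by norm_num)
        have h8 : a * -(σ * τ) ^ 3 ≤ a * τ ^ 2 := by
          gcongr
          linarith
        linarith
      rw [h2] at h1
      have h9 : (|m2| + a) * τ ^ 2 ≤ |m1| / 2 * τ := by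
        calc (|m2| + a) * τ ^ 2 ≤ q * τ ^ 2 := by
              gcongr
              linarith
          _ = q * τ * τ := by ring
          _ ≤ |m1| / 2 * τ := by gcongr
      have h10 : 0 < |m1| * τ := by positivity
      linarith
    rcases lt_or_gt_of_ne hne with hlt | hgt
    · exact key 1 (by norm_num) (by rw [abs_of_neg hlt]; ring)
    · exact key (-1) (by norm_num) (by rw [abs_of_pos hgt]; ring)
  refine ⟨hm1, ?_⟩
  have h1 := hnn r (by rw [abs_of_pos hr])
  rw [hm1] at h1
  have h2 : 0 ≤ r ^ 2 * (m2 - a * r) := by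
    have : r ^ 2 * (m2 - a * r) = 0 * r + m2 * r ^ 2 - a * r ^ 3 := by ring
    rw [this]
    exact h1
  have h3 : 0 ≤ m2 - a * r := nonneg_of_mul_nonneg_right h2 (by positivity)
  have h4 : 0 < a * r := by positivity
  linarith

/-- beyond the strips -/
theorem Pk.near_of_strips3 (K : ℕ) (hK : 3 ≤ K) (H : Pk α (K + 3) h) {a b2 e1 q0 : ℝ}
    (ha : 0 < a) (hv : ∀ j, K + 1 < j → j ≤ K + 3 → ∀ u, (gT (K + 3) h α j).eval u = 0)
    (hG1 : ∀ u : ℝ, u ≤ 0 → 0 ≤ (gT (K + 3) h α (K + 1)).eval u)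
    (hG0 : ∀ u, (gT (K + 3) h α K).eval u = -a * u ^ 3 + b2 * u ^ 2 + e1 * u + q0)
    (hstrip : ∀ U : ℝ, Thin (fv (K + 3) h) (Str α α (Set.Icc (-U) U))) :
    ∃ ε : ℝ, 0 < ε ∧ Thin (fv (K + 3) h) (Near α α ε) := by
  set U0 := max 1 (2 * (|b2| + |e1| + |q0|) / a) with hU0
  have hU01 : 1 ≤ U0 := le_max_left _ _
  have hU02 : |b2| + |e1| + |q0| ≤ a / 2 * U0 := by
    have h1 : 2 * (|b2| + |e1| + |q0|) / a ≤ U0 := le_max_right _ _
    rw [div_le_iff₀ ha] at h1
    linarith
  obtain ⟨ε, hε, hε1, x0, hx0, hlow⟩ := low_terms' K 3 (gT (K + 3) h α) (by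
    intro j
    exact gT_natDegree_le α j) (a / 32) (by positivity)
  obtain ⟨X1, hX1⟩ := exists_nat_ge x0
  refine ⟨ε, hε, ?_⟩
  have hsplit : Near α α ε ⊆
      (Str α α (Set.Icc (-U0) U0) ∪
        {P | P ∈ Near α α ε ∧ X1 ≤ P.1 ∧ U0 < |(P.2 : ℝ) - α * P.1|}) ∪
      {P | P ∈ Sec α ∧ P.1 ≤ X1} := by
    intro P hP
    by_cases h1 : |(P.2 : ℝ) - α * P.1| ≤ U0
    · exact Or.inl (Or.inl ⟨hP.1, abs_le.1 h1⟩)
    · by_cases h2 : X1 ≤ P.1
      · exact Or.inl (Or.inr ⟨hP, h2, not_le.1 h1⟩)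
      · exact Or.inr ⟨hP.1, by omega⟩
  refine Thin.mono (Thin.union (Thin.union (hstrip U0) ?_) (thin_finite (finite_x H.pos X1)))
    hsplit
  apply thin_of_bound α (a / 8) (by positivity)
  rintro P ⟨hP1, hP2, hP3⟩
  have hx : x0 ≤ (P.1 : ℝ) := hX1.trans (by exact_mod_cast hP2)
  have hx1 : (1 : ℝ) ≤ P.1 := hx0.trans hx
  obtain ⟨_, hus⟩ := near_abs hP1
  have hu0 := sec_u hP1.1
  have h1 := (abs_le.1 (hlow P.1 _ hx hus)).1
  rw [fv_taylor H.deg α, Finset.sum_range_succ, Finset.sum_range_succ, Finset.sum_range_succ,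
    Finset.sum_range_succ, hv (K + 3) (by omega) (by omega), hv (K + 2) (by omega) (by omega),
    hG0, mul_zero, mul_zero, add_zero, add_zero]
  have hg1 := hG1 _ hu0
  set u := (P.2 : ℝ) - α * P.1 with hu
  have habs : |u| = -u := abs_of_nonpos hu0
  have hu1 : 1 ≤ |u| := hU01.trans hP3.le
  have hxK : 0 < (P.1 : ℝ) ^ K := by positivity
  have hq1 : 0 ≤ (P.1 : ℝ) ^ (K + 1) * (gT (K + 3) h α (K + 1)).eval u := by positivity
  have hu2 : |u| ≤ |u| ^ 2 := by
    rw [sq]
    exact le_mul_of_one_le_left (by linarith) hu1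
  have hu21 : 1 ≤ |u| ^ 2 := hu1.trans hu2
  have hu3 : 1 ≤ |u| ^ 3 := one_le_pow₀ hu1
  -- the cubic polynomial
  have hcub : a / 2 * |u| ^ 3 ≤ -a * u ^ 3 + b2 * u ^ 2 + e1 * u + q0 := by
    have h2 : |b2| + |e1| + |q0| ≤ a / 2 * |u| := hU02.trans (by gcongr)
    have h3 : -(|b2| * |u| ^ 2) ≤ b2 * u ^ 2 := by
      rw [← abs_pow, ← abs_mul]
      exact neg_abs_le _
    have h4 : -(|e1| * |u| ^ 2) ≤ e1 * u := by
      have h5 : |e1| * |u| ≤ |e1| * |u| ^ 2 := by gcongr
      have h6 : -(|e1| * |u|) ≤ e1 * u := by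
        rw [← abs_mul]
        exact neg_abs_le _
      linarith
    have h5 : -(|q0| * |u| ^ 2) ≤ q0 := by
      have h6 : |q0| * 1 ≤ |q0| * |u| ^ 2 := by gcongr
      have := neg_abs_le q0
      linarith
    have h6 : (|b2| + |e1| + |q0|) * |u| ^ 2 ≤ a / 2 * |u| * |u| ^ 2 := by gcongr
    have h7 : -a * u ^ 3 = a * |u| ^ 3 := by
      rw [habs]
      ring
    have h8 : a / 2 * |u| * |u| ^ 2 = a / 2 * |u| ^ 3 := by ring
    linarith
  have h2 : a / 32 * ((P.1 : ℝ) ^ K * (1 + |u|) ^ 3) ≤ (P.1 : ℝ) ^ K * (a / 4 * |u| ^ 3) := by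
    have h3 : (1 + |u|) ^ 3 ≤ 8 * |u| ^ 3 := by
      calc (1 + |u|) ^ 3 ≤ (|u| + |u|) ^ 3 := by gcongr
        _ = 8 * |u| ^ 3 := by ring
    calc a / 32 * ((P.1 : ℝ) ^ K * (1 + |u|) ^ 3)
        ≤ a / 32 * ((P.1 : ℝ) ^ K * (8 * |u| ^ 3)) := by gcongr
      _ = (P.1 : ℝ) ^ K * (a / 4 * |u| ^ 3) := by ring
  have h3 : (P.1 : ℝ) ^ K * (a / 2 * |u| ^ 3) ≤
      (P.1 : ℝ) ^ K * (-a * u ^ 3 + b2 * u ^ 2 + e1 * u + q0) := by gcongr
  have h4 : (P.1 : ℝ) ^ 2 ≤ (P.1 : ℝ) ^ K * |u| ^ 3 := by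
    calc (P.1 : ℝ) ^ 2 ≤ (P.1 : ℝ) ^ K := pow_le_pow_right₀ hx1 (by omega)
      _ = (P.1 : ℝ) ^ K * 1 := (mul_one _).symm
      _ ≤ (P.1 : ℝ) ^ K * |u| ^ 3 := by gcongr
  have h5 : |u| ^ 3 ≤ (P.1 : ℝ) ^ K * |u| ^ 3 := by
    have : 1 ≤ (P.1 : ℝ) ^ K := one_le_pow₀ hx1
    exact le_mul_of_one_le_left (by positivity) this
  have h7 : a / 8 * ((P.1 : ℝ) ^ 2 + |u| ^ 3) ≤
      a / 8 * (2 * ((P.1 : ℝ) ^ K * |u| ^ 3)) := by
    gcongr
    linarith
  linarith

/-- no points on the other side -/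
theorem strip_pos {f : ℕ × ℕ → ℝ} {s : ℝ} (hs : 0 < s) :
    ∃ ρ : ℝ, 0 < ρ ∧ Thin f (Str α α (Set.Ioo (s - ρ) (s + ρ))) := by
  refine ⟨s, hs, Thin.mono (thin_empty _) ?_⟩
  rintro P ⟨hP, hu⟩
  exfalso
  have h1 := sec_u hP
  have h2 := hu.1
  linarith

/-- **Order three at the boundary.** -/
theorem Pk.near_triple (K : ℕ) (hK : 3 ≤ K) (H : Pk α (K + 3) h) (hne : h (K + 3) ≠ 0)
    (hμ : rootMultiplicity α (h (K + 3)) = 3) (hz1 : (h (K + 2)).eval α = 0)
    (hK4 : (taylor α (h (K + 2))).coeff 1 = 0 → (h (K + 1)).eval α = 0 → 4 ≤ K)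
    (hw : ∀ s : ℝ, ((∀ u, (gT (K + 3) h α (K + 1)).eval u = 0) →
        (gT (K + 3) h α K).eval s = 0) →
      ((gT (K + 3) h α (K + 1)).eval s = 0) → ∀ W : ℝ, Thin (fv (K + 3) h) (Ln α α s W)) :
    ∃ ε : ℝ, 0 < ε ∧ Thin (fv (K + 3) h) (Near α α ε) := by
  obtain ⟨Q, hQ1, hQ2, hQ3, hQ4⟩ := taylor_root (h (K + 3)) hne α
  have hsign := taylor_sign (h (K + 3)) hne α (-1) α (Or.inr rfl) H.pos (by
    intro τ hτ1 hτ2
    apply H.lead_nonneg (by omega)
    constructor <;> linarith)
  rw [hμ] at hQ3 hsign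
  set a := -(taylor α (h (K + 3))).coeff 3 with ha
  have ha0 : 0 < a := by
    rw [ha]
    have : (taylor α (h (K + 3))).coeff 3 * (-1 : ℝ) ^ 3 = -(taylor α (h (K + 3))).coeff 3 := by
      ring
    rw [← this]
    exact hsign
  set b2 := (taylor α (h (K + 2))).coeff 2 with hb2
  set e1 := (taylor α (h (K + 1))).coeff 1 with he1
  set q0 := (h K).eval α with hq0
  set b1 := (taylor α (h (K + 2))).coeff 1 with hb1
  set e0 := (h (K + 1)).eval α with he0
  have hv : ∀ j, K + 1 < j → j ≤ K + 3 → ∀ u, (gT (K + 3) h α j).eval u = 0 := by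
    intro j hj1 hj2 u
    rw [gT_zero3 hQ3 hz1 j hj1 hj2, eval_zero]
  have hG1 : ∀ u, (gT (K + 3) h α (K + 1)).eval u = b1 * u + e0 := by
    intro u
    rw [gT_lin3 hQ3]
    simp [hb1, he0]
  have hpoly : gT (K + 3) h α K = C (-a) * X ^ 3 + C b2 * X ^ 2 + C e1 * X + C q0 := by
    rw [gT_cub3, ha, neg_neg]
  have hG0 : ∀ u, (gT (K + 3) h α K).eval u = -a * u ^ 3 + b2 * u ^ 2 + e1 * u + q0 := by
    intro u
    rw [hpoly]
    simp
  have hacc : ∀ s : ℝ, s ≤ 0 → ∀ X0 : ℕ, ∃ P ∈ Sec α, X0 < P.1 ∧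
      (P.1 : ℝ) * |(P.2 : ℝ) - α * P.1 - s| ≤ 11 := fun s hs X0 =>
    exists_near_bd H.irr H.pos s hs X0
  have hG1nn : ∀ u : ℝ, u ≤ 0 → 0 ≤ b1 * u + e0 := by
    intro s hs
    by_contra hneg
    push Not at hneg
    refine H.neg_top (θ := α) K (by omega) hv s ?_ (hacc s hs)
    rw [hG1]
    exact hneg
  have hG1' : ∀ u : ℝ, u ≤ 0 → 0 ≤ (gT (K + 3) h α (K + 1)).eval u := by
    intro u hu
    rw [hG1]
    exact hG1nn u hu
  apply H.near_of_strips3 K hK ha0 hv hG1' hG0
  intro U
  apply thin_strip_compact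
  intro s
  rcases lt_or_ge 0 s with hs | hs
  · exact strip_pos hs
  have he00 : 0 ≤ e0 := by
    have := hG1nn 0 le_rfl
    linarith
  have hb10 : b1 ≤ 0 := by
    by_contra hpos
    push Not at hpos
    have h1 := hG1nn (-((e0 + 1) / b1)) (by
      have : 0 < (e0 + 1) / b1 := by positivity
      linarith)
    have h2 : b1 * -((e0 + 1) / b1) + e0 = -1 := by
      field_simp
      ring
    linarith
  by_cases hcase : b1 = 0 ∧ e0 = 0
  · -- the linear polynomial vanishes
    obtain ⟨hb1z, he0z⟩ := hcase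
    have hK4' := hK4 hb1z he0z
    obtain ⟨n, rfl⟩ : ∃ n, K = n + 4 := ⟨K - 4, by omega⟩
    have hv' : ∀ j, n + 4 < j → j ≤ n + 4 + 3 → ∀ u, (gT (n + 4 + 3) h α j).eval u = 0 := by
      intro j hj1 hj2 u
      rcases (by omega : j = n + 4 + 1 ∨ n + 4 + 1 < j) with rfl | hj
      · rw [hG1, hb1z, he0z]
        ring
      · exact hv j hj hj2 u
    have hGnn : ∀ u : ℝ, u ≤ 0 → 0 ≤ -a * u ^ 3 + b2 * u ^ 2 + e1 * u + q0 := by
      intro s hs
      by_contra hneg
      push Not at hneg
      refine H.neg_top (θ := α) (n + 3) (by omega) (fun j hj1 hj2 => hv' j (by omega) hj2) s ?_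
        (hacc s hs)
      rw [hG0]
      exact hneg
    rcases (hGnn s hs).lt_or_eq with hpos | hzero
    · apply H.strip_zero n (by omega) hv'
      rw [hG0]
      exact hpos
    have hthin : Far (fv (n + 4 + 3) h) α α s →
        ∃ ρ : ℝ, 0 < ρ ∧ Thin (fv (n + 4 + 3) h) (Str α α (Set.Ioo (s - ρ) (s + ρ))) :=
      fun hF => H.thin_of_far hF (hw s (fun _ => by rw [hG0]; exact hzero.symm)
        (by rw [hG1, hb1z, he0z]; ring))
    have hder : ∀ u : ℝ, (derivative (gT (n + 4 + 3) h α (n + 4))).eval u =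
        -3 * a * u ^ 2 + 2 * b2 * u + e1 := by
      intro u
      rw [hpoly]
      simp
      ring
    rcases hs.lt_or_eq with hslt | hseq
    · -- an interior double zero
      have hexp : ∀ v : ℝ, -a * (s + v) ^ 3 + b2 * (s + v) ^ 2 + e1 * (s + v) + q0 =
          (-3 * a * s ^ 2 + 2 * b2 * s + e1) * v + (b2 - 3 * a * s) * v ^ 2 - a * v ^ 3 := by
        intro v
        have h1 : -a * (s + v) ^ 3 + b2 * (s + v) ^ 2 + e1 * (s + v) + q0 =
            (-a * s ^ 3 + b2 * s ^ 2 + e1 * s + q0) +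
            ((-3 * a * s ^ 2 + 2 * b2 * s + e1) * v + (b2 - 3 * a * s) * v ^ 2 - a * v ^ 3) := by
          ring
        rw [h1, ← hzero, zero_add]
      obtain ⟨hm1, hm2⟩ := cubic_min (m1 := -3 * a * s ^ 2 + 2 * b2 * s + e1)
        (m2 := b2 - 3 * a * s) ha0 (by linarith : 0 < -s) (by
        intro v hv
        rw [← hexp]
        apply hGnn
        have := (abs_le.1 hv).2
        linarith)
      set m2 := b2 - 3 * a * s with hm2def
      apply hthin
      apply H.far_two n (by omega) hv' (a := m2 / 2) (ρ := m2 / (2 * a)) (by positivity)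
        (by positivity)
      · intro u _ hu
        rw [hG0]
        have h1 := hexp (u - s)
        have h2 : s + (u - s) = u := by ring
        rw [h2, hm1, zero_mul, zero_add] at h1
        rw [h1]
        have h3 : a * (u - s) ≤ m2 / 2 := by
          have h4 := (abs_lt.1 hu).2.le
          calc a * (u - s) ≤ a * (m2 / (2 * a)) := by gcongr
            _ = m2 / 2 := by field_simp
        have h4 : m2 / 2 * (u - s) ^ 2 ≤ (m2 - a * (u - s)) * (u - s) ^ 2 := by
          gcongr
          linarith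
        have h5 : (m2 - a * (u - s)) * (u - s) ^ 2 = m2 * (u - s) ^ 2 - a * (u - s) ^ 3 := by
          ring
        linarith
      · apply H.second_nonneg n (by omega) hv' (by rw [hG0]; exact hzero.symm)
          (by rw [hder]; exact hm1) (hacc s hs)
    · -- the zero `0`
      subst hseq
      have hq00 : q0 = 0 := by
        have h1 : -a * (0 : ℝ) ^ 3 + b2 * 0 ^ 2 + e1 * 0 + q0 = q0 := by ring
        rw [h1] at hzero
        exact hzero.symm
      have he10 : e1 ≤ 0 := by
        by_contra hpos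
        push Not at hpos
        set q := a + |b2| + 1 with hq
        have hqpos : 0 < q := by positivity
        set t := min 1 (e1 / (2 * q)) with ht
        have ht0 : 0 < t := by positivity
        have ht1 : t ≤ 1 := min_le_left _ _
        have htq : q * t ≤ e1 / 2 := by
          calc q * t ≤ q * (e1 / (2 * q)) := by
                gcongr
                exact min_le_right _ _
            _ = e1 / 2 := by field_simp
        have h1 := hGnn (-t) (by linarith)
        have h2 : -a * (-t) ^ 3 + b2 * (-t) ^ 2 + e1 * -t + q0 =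
            a * t ^ 3 + b2 * t ^ 2 - e1 * t := by
          rw [hq00]
          ring
        rw [h2] at h1
        have h3 : a * t ^ 3 ≤ a * t ^ 2 := by
          have := pow_le_pow_of_le_one ht0.le ht1 (by norm_num : 2 ≤ 3)
          gcongr
        have h4 : b2 * t ^ 2 ≤ |b2| * t ^ 2 := by
          gcongr
          exact le_abs_self _
        have h5 : (a + |b2|) * t ^ 2 ≤ e1 / 2 * t := by
          calc (a + |b2|) * t ^ 2 ≤ q * t ^ 2 := by
                gcongr
                linarith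
            _ = q * t * t := by ring
            _ ≤ e1 / 2 * t := by gcongr
        have h6 : 0 < e1 * t := by positivity
        linarith
      rcases he10.lt_or_eq with helt | heeq
      · -- simple zero
        apply hthin
        set q := |b2| + 1 with hq
        have hqpos : 0 < q := by positivity
        have hne1 : 0 < -e1 := by linarith
        apply H.far_one n (by omega) hv' (γ := -e1 / 2) (ρ := -e1 / (2 * q)) (by positivity)
          (by positivity)
        intro u hu huρ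
        rw [hG0, hq00]
        have habs : |u| = -u := abs_of_nonpos hu
        have h1 : q * |u| ≤ -e1 / 2 := by
          calc q * |u| ≤ q * (-e1 / (2 * q)) := by gcongr
            _ = -e1 / 2 := by field_simp
        have h2 : 0 ≤ -a * u ^ 3 := by
          have h5 : -a * u ^ 3 = a * (-u) ^ 3 := by ring
          rw [h5]
          have h6 : 0 ≤ -u := by linarith
          positivity
        have h3 : -(|b2| * |u| * |u|) ≤ b2 * u ^ 2 := by
          have h4 : |b2| * |u| * |u| = |b2 * u ^ 2| := by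
            rw [abs_mul, abs_pow]
            ring
          rw [h4]
          exact neg_abs_le _
        have h4 : |b2| * |u| * |u| ≤ -e1 / 2 * |u| := by
          have h5 : |b2| * |u| ≤ q * |u| := by
            gcongr
            linarith
          have h6 : |b2| * |u| ≤ -e1 / 2 := h5.trans h1
          gcongr
        have h5 : e1 * u = -e1 * |u| := by
          rw [habs]
          ring
        linarith
      · have hb20 : 0 ≤ b2 := by
          by_contra hneg
          push Not at hneg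
          have hnb : 0 < -b2 := by linarith
          have h1 := hGnn (-(-b2 / (2 * a))) (by
            have : 0 < -b2 / (2 * a) := by positivity
            linarith)
          have h2 : -a * (-(-b2 / (2 * a))) ^ 3 + b2 * (-(-b2 / (2 * a))) ^ 2 +
              e1 * -(-b2 / (2 * a)) + q0 = -((-b2) ^ 3 / (8 * a ^ 2)) := by
            rw [heeq, hq00]
            field_simp
            ring
          rw [h2] at h1
          have h3 : 0 < (-b2) ^ 3 / (8 * a ^ 2) := by positivity
          linarith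
        have hsec : 0 ≤ (gT (n + 4 + 3) h α (n + 3)).eval 0 := by
          apply H.second_nonneg n (by omega) hv' (by rw [hG0]; exact hzero.symm)
            (by rw [hder, heeq]; ring) (hacc 0 le_rfl)
        rcases hb20.lt_or_eq with hbpos | hbzero
        · -- double zero
          apply hthin
          apply H.far_two n (by omega) hv' (a := b2) (ρ := 1) hbpos one_pos _ hsec
          intro u hu _
          have hu' := hu rfl
          rw [hG0, heeq, hq00, _root_.sub_zero]
          have h2 : 0 ≤ -a * u ^ 3 := by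
            have h5 : -a * u ^ 3 = a * (-u) ^ 3 := by ring
            rw [h5]
            have h6 : 0 ≤ -u := by linarith
            positivity
          linarith
        · -- triple zero
          apply hthin
          apply H.far_three n (by omega) ha0 hv' _ hsec
          intro u
          rw [hG0, heeq, hq00, ← hbzero]
          ring
  · -- the linear polynomial does not vanish
    obtain ⟨n, rfl⟩ : ∃ n, K = n + 3 := ⟨K - 3, by omega⟩
    have hv' : ∀ j, n + 4 < j → j ≤ n + 3 + 3 → ∀ u, (gT (n + 3 + 3) h α j).eval u = 0 :=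
      fun j hj1 hj2 => hv j (by omega) hj2
    rcases (hG1nn s hs).lt_or_eq with hpos | hzero
    · apply H.strip_zero n (by omega) hv'
      rw [hG1]
      exact hpos
    · have hthin : Far (fv (n + 3 + 3) h) α α s →
          ∃ ρ : ℝ, 0 < ρ ∧ Thin (fv (n + 3 + 3) h) (Str α α (Set.Ioo (s - ρ) (s + ρ))) :=
        fun hF => H.thin_of_far hF (hw s (fun h0 => by
          exfalso
          apply hcase
          have g0 := h0 0
          have g1 := h0 1
          rw [hG1] at g0 g1
          constructor <;> linarith) (by rw [hG1]; exact hzero.symm))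
      have hbs : 0 ≤ b1 * s := mul_nonneg_of_nonpos_of_nonpos hb10 hs
      have he0z : e0 = 0 := by linarith
      have hb1z : b1 ≠ 0 := fun h1 => hcase ⟨h1, he0z⟩
      have hb1neg : b1 < 0 := lt_of_le_of_ne hb10 hb1z
      have hs0 : s = 0 := by
        have h1 : b1 * s = 0 := by linarith
        rcases mul_eq_zero.1 h1 with h2 | h2
        · exact absurd h2 hb1z
        · exact h2
      subst hs0
      apply hthin
      apply H.far_one n (by omega) hv' (γ := -b1) (ρ := 1) (by linarith) one_pos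
      intro u hu _
      rw [hG1, he0z, abs_of_nonpos hu]
      linarith

end PP72
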