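import Pool.Agent.PP72.Quintic

/-!
Quintics: the valleys.
-/

open Polynomial Finset Filter

namespace PP72

variable {α : ℝ} {d : ℕ} {h : ℕ → ℝ[X]} {q p : ℕ} {τ : ℤ} {G : ℝ → ℝ → ℝ} {c : ℕ × ℕ → ℚ}

theorem Side.thin_of_curve' (S : Side α d h q p τ G) (ρ κ κ0 δ : ℝ) (hδ : 0 < δ)
    (Good : ℝ → ℝ → Prop) (hgood : ∀ P ∈ Sec α, Good P.1 (uu q p τ P))
    (hev : Ev fun x U => Good x U →
      δ * (U * (x - ρ * U ^ 2 - κ * U - κ0) ^ 2 + U ^ 2) ≤ G x U) :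
    SideThin α d h q p τ := by
  obtain ⟨E, hE, _, U0, hU0, hreg⟩ := hev
  refine ⟨E, hE, U0, ?_⟩
  apply thin_of_curve3 q p S.hq (fun u => ρ * u ^ 2 + κ * τ * u + κ0) δ hδ
  · rintro P ⟨_, _, hP3, _⟩
    have h0 : 0 ≤ uu q p τ P := by
      unfold uu
      linarith
    rw [S.abs_uu P h0]
    exact hU0.trans hP3
  · rintro P ⟨hP1, _, hP3, hP4⟩
    have h0 : 0 ≤ uu q p τ P := by
      unfold uu
      linarith
    rw [S.abs_uu P h0, S.val]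
    refine le_trans (le_of_eq ?_) (hreg _ _ hP3 hP4 (hgood P hP1))
    have e1 : ((P.2 : ℝ) - (p / q : ℝ) * P.1) ^ 2 = (uu q p τ P) ^ 2 := by
      unfold uu
      rw [mul_pow, S.tau_sq, one_mul]
    have e2 : κ * τ * ((P.2 : ℝ) - (p / q : ℝ) * P.1) = κ * uu q p τ P := by
      unfold uu
      ring
    rw [e1, e2]
    change δ * (uu q p τ P * _ + _) = δ * (uu q p τ P * (_ - ρ * (uu q p τ P) ^ 2 - κ * uu q p τ P - κ0) ^ 2 +
      (uu q p τ P) ^ 2)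
    ring

theorem Side.parab0 (S : Side α d h q p τ G) (ρ κ : ℚ) (hρ : 0 < ρ) (a6 a5 a4 a3 a2 a1 a0 : ℝ)
    (hc : ∀ t : ℝ, G (ρ * t ^ 2 + κ * t) t =
      a6 * t ^ 6 + a5 * t ^ 5 + a4 * t ^ 4 + a3 * t ^ 3 + a2 * t ^ 2 + a1 * t + a0) :
    0 < a6 ∨ (a6 = 0 ∧ (0 < a5 ∨ (a5 = 0 ∧ (0 < a4 ∨ (a4 = 0 ∧ (0 < a3 ∨ (a3 = 0 ∧ 0 < a2))))))) := by
  have h0 : ((0 : ℕ), (0 : ℕ)) ∈ Sec α := by
    change ((0 : ℕ) : ℝ) ≤ α * ((0 : ℕ) : ℝ)
    simp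
  have hu : uu q p τ ((0 : ℕ), (0 : ℕ)) = 0 := by
    unfold uu
    simp
  obtain ⟨k, hk2, hk6, hk, htop⟩ := S.parab ρ κ hρ (0, 0) h0 6
    (fun i => if i = 0 then a0 else if i = 1 then a1 else if i = 2 then a2 else
      if i = 3 then a3 else if i = 4 then a4 else if i = 5 then a5 else a6) (by
    intro t
    rw [hu]
    have e1 : (ρ : ℝ) * t ^ 2 + κ * t + ((((0 : ℕ), (0 : ℕ)).1 : ℕ) - ρ * 0 ^ 2 - κ * 0) =
        ρ * t ^ 2 + κ * t := by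
      push_cast
      ring
    rw [e1, hc]
    simp only [Finset.sum_range_succ, Finset.sum_range_zero]
    norm_num
    ring)
  have t3 := htop 3
  have t4 := htop 4
  have t5 := htop 5
  have t6 := htop 6
  norm_num at t3 t4 t5 t6
  obtain rfl | rfl | rfl | rfl | rfl : k = 2 ∨ k = 3 ∨ k = 4 ∨ k = 5 ∨ k = 6 := by omega
  · norm_num at hk t3 t4 t5 t6
    exact Or.inr ⟨t6, Or.inr ⟨t5, Or.inr ⟨t4, Or.inr ⟨t3, hk⟩⟩⟩⟩
  · norm_num at hk t4 t5 t6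
    exact Or.inr ⟨t6, Or.inr ⟨t5, Or.inr ⟨t4, Or.inl hk⟩⟩⟩
  · norm_num at hk t5 t6
    exact Or.inr ⟨t6, Or.inr ⟨t5, Or.inl hk⟩⟩
  · norm_num at hk t6
    exact Or.inr ⟨t6, Or.inl hk⟩
  · norm_num at hk
    exact Or.inl hk

theorem vf_shift1 (C r e1 e0 g3 g2 g1 g0 s5 s4 s3 s2 s1 s0 κ X U : ℝ) :
    Vf C r e1 e0 g3 g2 g1 g0 s5 s4 s3 s2 s1 s0 (X + κ * U) U =
    Vf C r (e1 + 3 * C * κ) e0 (g3 + 2 * r * κ) (g2 + 3 * C * κ ^ 2 + 2 * e1 * κ)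
      (g1 + 2 * e0 * κ) g0 s5 (s4 + r * κ ^ 2 + g3 * κ) (s3 + C * κ ^ 3 + e1 * κ ^ 2 + g2 * κ)
      (s2 + e0 * κ ^ 2 + g1 * κ) (s1 + g0 * κ) s0 X U := by
  unfold Vf
  ring

theorem vf_shift0 (C r e1 e0 g3 g2 g1 g0 s5 s4 s3 s2 s1 s0 κ X U : ℝ) :
    Vf C r e1 e0 g3 g2 g1 g0 s5 s4 s3 s2 s1 s0 (X + κ) U =
    Vf C r e1 (e0 + 3 * C * κ) g3 (g2 + 2 * r * κ) (g1 + 2 * e1 * κ)
      (g0 + 2 * e0 * κ + 3 * C * κ ^ 2) s5 s4 (s3 + g3 * κ) (s2 + r * κ ^ 2 + g2 * κ)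
      (s1 + e1 * κ ^ 2 + g1 * κ) (s0 + C * κ ^ 3 + e0 * κ ^ 2 + g0 * κ) X U := by
  unfold Vf
  ring

/-- away from the valley -/
theorem off_valley (C ρ : ℚ) (hC : 0 < C) (hρ : 0 < ρ) (hA : c (4, 0) = 0) (hB : c (3, 1) = 0)
    (hc : c (3, 0) = C) (hE : c (2, 2) = -2 * C * ρ) (hf : c (1, 4) = C * ρ ^ 2)
    (η : ℝ) (hη : 0 < η) : ∃ δ : ℝ, 0 < δ ∧ Ev fun x U => η * U ^ 2 ≤ |x - ρ * U ^ 2| →
      δ * (mon (3, 0) x U + mon (1, 4) x U + mon (1, 4) x U) ≤ G5 c x U := by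
  have hC' : (0 : ℝ) < C := by exact_mod_cast hC
  have hρ' : (0 : ℝ) < ρ := by exact_mod_cast hρ
  set K : ℝ := (1 + ρ / η) ^ 2 + 2 / η ^ 2 with hK
  have hK0 : 0 < K := by positivity
  refine ⟨C / K / 2, by positivity, ?_⟩
  apply region5 c (3, 0) (1, 4) (1, 4) {(3, 0), (2, 2), (1, 4)} {(4, 0), (3, 1)} (by decide)
    (by
      intro p hp
      simp only [Finset.mem_insert, Finset.mem_singleton] at hp
      rcases hp with rfl | rfl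
      · exact hA
      · exact hB) (by decide) (C / K) (by positivity)
  intro x U hU hx hQ
  have hx0 : 0 ≤ x := by linarith
  have hU0 : 0 ≤ U := by linarith
  set D := |x - ρ * U ^ 2| with hD
  have hD0 : 0 ≤ D := abs_nonneg _
  have h1 : U ^ 2 ≤ D / η := by
    rw [le_div_iff₀ hη]
    linarith
  have h2 : x ≤ (1 + ρ / η) * D := by
    have a1 : x - ρ * U ^ 2 ≤ D := le_abs_self _
    have a2 : (ρ : ℝ) * U ^ 2 ≤ ρ * (D / η) := by gcongr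
    have a3 : (1 + ρ / η) * D = D + ρ * (D / η) := by field_simp
    linarith
  have h3 : x ^ 2 + 2 * U ^ 4 ≤ K * D ^ 2 := by
    have a1 : x ^ 2 ≤ ((1 + ρ / η) * D) ^ 2 := by gcongr
    have a2 : (U ^ 2) ^ 2 ≤ (D / η) ^ 2 := by gcongr
    have a3 : K * D ^ 2 = ((1 + ρ / η) * D) ^ 2 + 2 * (D / η) ^ 2 := by
      rw [hK]
      field_simp
    have a4 : U ^ 4 = (U ^ 2) ^ 2 := by ring
    rw [a3, a4]
    linarith
  have h4 : D ^ 2 = (x - ρ * U ^ 2) ^ 2 := sq_abs _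
  rw [Finset.sum_insert (by decide), Finset.sum_insert (by decide), Finset.sum_singleton, hc, hE,
    hf]
  unfold mon
  simp only [pow_zero, pow_one, mul_one]
  have h5 : C / K * (x * (x ^ 2 + 2 * U ^ 4)) ≤ C / K * (x * (K * D ^ 2)) := by gcongr
  have h6 : C / K * (x * (K * D ^ 2)) = C * (x * (x - ρ * U ^ 2) ^ 2) := by
    rw [h4]
    field_simp
  rw [h6] at h5
  push_cast
  nlinarith [h5]

theorem valley_combine (S : Side α 5 h q p τ (G5 c)) (ρ κ κ0 : ℝ) (Good : ℝ → ℝ → Prop)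
    (hgood : ∀ P ∈ Sec α, Good P.1 (uu q p τ P))
    (hoff : ∀ η : ℝ, 0 < η → ∃ δ : ℝ, 0 < δ ∧ Ev fun x U => η * U ^ 2 ≤ |x - ρ * U ^ 2| →
      δ * (mon (3, 0) x U + mon (1, 4) x U + mon (1, 4) x U) ≤ G5 c x U)
    (hin : ∃ η : ℝ, 0 < η ∧ ∃ δ : ℝ, 0 < δ ∧ ∀ᶠ U : ℝ in atTop, ∀ X : ℝ, |X| ≤ η * U ^ 2 →
      Good (X + κ0 + κ * U + ρ * U ^ 2) U →
      δ * (U * X ^ 2 + U ^ 2) ≤ G5 c (X + κ0 + κ * U + ρ * U ^ 2) U) :
    SideThin α 5 h q p τ := by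
  obtain ⟨η, hη, δ1, hδ1, hin⟩ := hin
  obtain ⟨δ2, hδ2, hoff⟩ := hoff (η / 2) (by positivity)
  set m : ℝ := |κ| + |κ0| with hm
  have hm0 : 0 ≤ m := by positivity
  set K : ℝ := 3 * (1 + ρ ^ 2 + m ^ 2) with hK
  have hK0 : 0 < K := by positivity
  obtain ⟨U1, hU1⟩ := eventually_atTop.1 hin
  apply S.thin_of_curve' ρ κ κ0 (min δ1 (δ2 / (K + 1))) (by positivity) Good hgood
  have hlarge : Ev fun _ U => max U1 (2 * m / η) ≤ U := ev_of_large ⟨_, fun U hU => hU⟩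
  refine (hoff.and hlarge).mono ?_
  rintro x U hU hx ⟨h1, h2⟩ hg
  have hx0 : 0 ≤ x := by linarith
  have hU0 : 0 ≤ U := by linarith
  have hx1 : 1 ≤ x := by linarith
  set X := x - ρ * U ^ 2 - κ * U - κ0 with hX
  have hxX : X + κ0 + κ * U + ρ * U ^ 2 = x := by rw [hX]; ring
  have hmU : |κ * U + κ0| ≤ m * U := by
    calc |κ * U + κ0| ≤ |κ * U| + |κ0| := abs_add_le _ _
      _ = |κ| * U + |κ0| := by rw [abs_mul, abs_of_nonneg hU0]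
      _ ≤ |κ| * U + |κ0| * U := by
          have := abs_nonneg κ0
          nlinarith
      _ = m * U := by rw [hm]; ring
  by_cases hc : η / 2 * U ^ 2 ≤ |x - ρ * U ^ 2|
  · have h3 := h1 hc
    unfold mon at h3
    simp only [pow_zero, pow_one, mul_one] at h3
    have e1 : X ^ 2 ≤ K * (x ^ 2 + U ^ 4) := by
      have a1 : X = x - ρ * U ^ 2 - (κ * U + κ0) := by rw [hX]; ring
      have a2 : (κ * U + κ0) ^ 2 ≤ (m * U) ^ 2 := by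
        rw [← sq_abs (κ * U + κ0)]
        gcongr
      have a3 : X ^ 2 ≤ 3 * (x ^ 2 + (ρ * U ^ 2) ^ 2 + (κ * U + κ0) ^ 2) := by
        rw [a1]
        nlinarith [sq_nonneg (x + ρ * U ^ 2), sq_nonneg (x + (κ * U + κ0)),
          sq_nonneg (ρ * U ^ 2 - (κ * U + κ0))]
      have a4 : U ^ 2 ≤ U ^ 4 := pow_le_pow_right₀ hU (by norm_num)
      have a5 : m ^ 2 * U ^ 2 ≤ m ^ 2 * U ^ 4 := by gcongr
      have a6 : 0 ≤ (ρ ^ 2 + m ^ 2) * x ^ 2 := by positivity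
      have a7 : 0 ≤ U ^ 4 := by positivity
      calc X ^ 2 ≤ 3 * (x ^ 2 + (ρ * U ^ 2) ^ 2 + (κ * U + κ0) ^ 2) := a3
        _ ≤ 3 * (x ^ 2 + ρ ^ 2 * U ^ 4 + m ^ 2 * U ^ 4) := by nlinarith
        _ ≤ K * (x ^ 2 + U ^ 4) := by rw [hK]; nlinarith
    have e2 : U * X ^ 2 + U ^ 2 ≤ (K + 1) * (x ^ 3 + x * U ^ 4 + x * U ^ 4) := by
      have a1 : U * X ^ 2 ≤ x * (K * (x ^ 2 + U ^ 4)) := by gcongr
      have a2 : U ^ 2 ≤ x * U ^ 4 := by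
        have b1 : U ^ 2 ≤ U ^ 4 := pow_le_pow_right₀ hU (by norm_num)
        have b2 : 0 ≤ U ^ 4 := by positivity
        nlinarith
      have a3 : 0 ≤ x * U ^ 4 := by positivity
      have a4 : 0 ≤ x ^ 3 := by positivity
      have a5 : 0 ≤ K * (x * U ^ 4) := by positivity
      nlinarith
    have e3 : 0 ≤ U * X ^ 2 + U ^ 2 := by positivity
    calc min δ1 (δ2 / (K + 1)) * (U * X ^ 2 + U ^ 2) ≤ δ2 / (K + 1) * (U * X ^ 2 + U ^ 2) := by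
          gcongr
          exact min_le_right _ _
      _ ≤ δ2 / (K + 1) * ((K + 1) * (x ^ 3 + x * U ^ 4 + x * U ^ 4)) := by gcongr
      _ = δ2 * (x ^ 3 + x * U ^ 4 + x * U ^ 4) := by field_simp
      _ ≤ _ := h3
  · push Not at hc
    have hUη : 2 * m / η ≤ U := (le_max_right _ _).trans h2
    rw [div_le_iff₀ hη] at hUη
    have h3 : |X| ≤ η * U ^ 2 := by
      have a1 : X = (x - ρ * U ^ 2) - (κ * U + κ0) := by rw [hX]; ring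
      have a2 : |X| ≤ |x - ρ * U ^ 2| + |κ * U + κ0| := by
        rw [a1]
        exact abs_sub _ _
      have a3 : m * U ≤ η / 2 * U ^ 2 := by nlinarith
      linarith
    have h4 := hU1 U ((le_max_left _ _).trans h2) X h3
    rw [hxX] at h4
    have e3 : 0 ≤ U * X ^ 2 + U ^ 2 := by positivity
    calc min δ1 (δ2 / (K + 1)) * (U * X ^ 2 + U ^ 2) ≤ δ1 * (U * X ^ 2 + U ^ 2) := by
          gcongr
          exact min_le_left _ _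
      _ ≤ _ := h4 hg

/-- a rational quadratic polynomial in a variable with bounded denominators is bounded below when
it is positive -/
theorem exists_lower (r s2 ρ κ κ0 : ℚ) (q p : ℕ) (τ : ℤ) (hq : 0 < q) :
    ∃ c1 : ℝ, 0 < c1 ∧ ∀ P : ℕ × ℕ,
      0 < (r : ℝ) * ((P.1 : ℝ) - ρ * (uu q p τ P) ^ 2 - κ * uu q p τ P - κ0) ^ 2 + s2 →
      c1 ≤ (r : ℝ) * ((P.1 : ℝ) - ρ * (uu q p τ P) ^ 2 - κ * uu q p τ P - κ0) ^ 2 + s2 := by
  have hq' : (q : ℚ) ≠ 0 := by exact_mod_cast hq.ne'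
  obtain ⟨W, hW, hWr⟩ := exists_common_den {ρ * τ ^ 2 / q ^ 2, κ * τ / q, κ0, r, s2}
  obtain ⟨z1, hz1⟩ := hWr (ρ * τ ^ 2 / q ^ 2) (by simp)
  obtain ⟨z2, hz2⟩ := hWr (κ * τ / q) (by simp)
  obtain ⟨z3, hz3⟩ := hWr κ0 (by simp)
  obtain ⟨z4, hz4⟩ := hWr r (by simp)
  obtain ⟨z5, hz5⟩ := hWr s2 (by simp)
  have hWpos : (0 : ℝ) < W := by exact_mod_cast hW
  refine ⟨1 / (W : ℝ) ^ 3, by positivity, fun P hP => ?_⟩
  set k0 : ℤ := q * P.2 - p * P.1 with hk0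
  set v : ℚ := P.1 - ρ * (τ * k0 / q) ^ 2 - κ * (τ * k0 / q) - κ0 with hv
  have hu : uu q p τ P = ((τ * k0 / q : ℚ) : ℝ) := by
    unfold uu
    rw [hk0]
    have : (q : ℝ) ≠ 0 := by exact_mod_cast hq.ne'
    push_cast
    field_simp
  have hvR : (P.1 : ℝ) - ρ * (uu q p τ P) ^ 2 - κ * uu q p τ P - κ0 = (v : ℝ) := by
    rw [hu, hv]
    push_cast
    ring
  rw [hvR] at hP ⊢
  set Z : ℤ := W * P.1 - z1 * k0 ^ 2 - z2 * k0 - z3 with hZ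
  have hZv : (W : ℚ) * v = Z := by
    rw [hv, hZ]
    push_cast
    rw [← hz1, ← hz2, ← hz3]
    field_simp
  have h1 : (W : ℚ) ^ 3 * (r * v ^ 2 + s2) = ((z4 * Z ^ 2 + z5 * W ^ 2 : ℤ) : ℚ) := by
    push_cast
    rw [← hz4, ← hz5, ← hZv]
    ring
  have h2 : 0 < r * v ^ 2 + s2 := by exact_mod_cast hP
  have hWq : (0 : ℚ) < W := by exact_mod_cast hW
  have h3 : (0 : ℚ) < ((z4 * Z ^ 2 + z5 * W ^ 2 : ℤ) : ℚ) := by
    rw [← h1]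
    positivity
  have h4 : (1 : ℤ) ≤ z4 * Z ^ 2 + z5 * W ^ 2 := by
    have : (0 : ℤ) < z4 * Z ^ 2 + z5 * W ^ 2 := by exact_mod_cast h3
    omega
  have h5 : (1 : ℚ) ≤ (W : ℚ) ^ 3 * (r * v ^ 2 + s2) := by
    rw [h1]
    exact_mod_cast h4
  have h6 : (1 : ℝ) ≤ (W : ℝ) ^ 3 * ((r : ℝ) * (v : ℝ) ^ 2 + s2) := by exact_mod_cast h5
  rw [div_le_iff₀ (by positivity)]
  linarith

/-- **The valley at a zero of order four.** -/
theorem valley4 (S : Side α 5 h q p τ (G5 c)) (C ρ : ℚ) (hC : 0 < C) (hρ : 0 < ρ)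
    (hA : c (4, 0) = 0) (hB : c (3, 1) = 0)
    (hc : c (3, 0) = C) (hE : c (2, 2) = -2 * C * ρ) (hf : c (1, 4) = C * ρ ^ 2) :
    SideThin α 5 h q p τ := by
  have hoff := off_valley (c := c) C ρ hC hρ hA hB hc hE hf
  have hC' : (0 : ℝ) < C := by exact_mod_cast hC
  have hρ' : (0 : ℝ) < ρ := by exact_mod_cast hρ
  -- the expansion in the valley
  obtain ⟨r, e1, e0, g3, g2, g1, g0, s5, s4, s3, s2, s1, s0, hr, hV⟩ :
      ∃ r e1 e0 g3 g2 g1 g0 s5 s4 s3 s2 s1 s0 : ℚ, 0 < r ∧ ∀ X U : ℝ,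
        G5 c (X + ρ * U ^ 2) U = Vf C r e1 e0 g3 g2 g1 g0 s5 s4 s3 s2 s1 s0 X U := by
    refine ⟨C * ρ, c (2, 1), c (2, 0), 2 * ρ * c (2, 1) + c (1, 3), 2 * ρ * c (2, 0) + c (1, 2),
      c (1, 1), c (1, 0), ρ ^ 2 * c (2, 1) + ρ * c (1, 3) + c (0, 5),
      ρ ^ 2 * c (2, 0) + ρ * c (1, 2) + c (0, 4), ρ * c (1, 1) + c (0, 3),
      ρ * c (1, 0) + c (0, 2), c (0, 1), c (0, 0), by positivity, fun X U => ?_⟩
    rw [G5_eq, hA, hB, hc, hE, hf]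
    unfold Vf
    push_cast
    ring
  have hr' : (0 : ℝ) < r := by exact_mod_cast hr
  -- first parabola
  have hp1 := S.parab0 ρ 0 hρ 0 s5 s4 s3 s2 s1 s0 (by
    intro t
    have := hV 0 t
    rw [zero_add] at this
    rw [Rat.cast_zero, zero_mul, add_zero, this]
    unfold Vf
    ring)
  have hp1' : 0 < (s5 : ℝ) ∨ (s5 : ℝ) = 0 := by
    rcases hp1 with h1 | ⟨_, h1 | ⟨h1, _⟩⟩
    · exact absurd h1 (lt_irrefl _)
    · exact Or.inl h1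
    · exact Or.inr h1
  rcases hp1' with h5 | h5
  · obtain ⟨η, hη, δ, hδ, hin⟩ := v4_stage1 C r e1 e0 g3 g2 g1 g0 s5 s4 s3 s2 s1 s0 hC' hr' h5
    apply valley_combine S ρ 0 0 (fun _ _ => True) (fun _ _ => trivial) hoff
    refine ⟨η, hη, δ, hδ, ?_⟩
    filter_upwards [hin] with U h1 X hX _
    have e : X + 0 + 0 * U + ρ * U ^ 2 = X + ρ * U ^ 2 := by ring
    rw [e, hV]
    exact h1 X hX
  by_cases hd : (g3 : ℝ) ^ 2 < 4 * r * s4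
  · have hs4 : (0 : ℝ) < s4 := by
      by_contra hcon
      push Not at hcon
      nlinarith [sq_nonneg (g3 : ℝ)]
    obtain ⟨η, hη, δ, hδ, hin⟩ := v4_stage2 C r e1 e0 g3 g2 g1 g0 s4 s3 s2 s1 s0 hC' hr' hs4 hd
    apply valley_combine S ρ 0 0 (fun _ _ => True) (fun _ _ => trivial) hoff
    refine ⟨η, hη, δ, hδ, ?_⟩
    filter_upwards [hin] with U h1 X hX _
    have e : X + 0 + 0 * U + ρ * U ^ 2 = X + ρ * U ^ 2 := by ring
    rw [e, hV, h5]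
    exact h1 X hX
  push Not at hd
  -- first shift
  set κ : ℚ := -g3 / (2 * r) with hκ
  have hκr : g3 + 2 * r * κ = 0 := by
    rw [hκ]
    field_simp
    ring
  have hκr' : (g3 : ℝ) + 2 * r * κ = 0 := by exact_mod_cast hκr
  obtain ⟨e1', g2', g1', s4', s3', s2', s1', hs4', hV1⟩ :
      ∃ e1' g2' g1' s4' s3' s2' s1' : ℚ, s4' ≤ 0 ∧ ∀ X U : ℝ,
        G5 c (X + κ * U + ρ * U ^ 2) U = Vf C r e1' e0 0 g2' g1' g0 0 s4' s3' s2' s1' s0 X U := by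
    refine ⟨e1 + 3 * C * κ, g2 + 3 * C * κ ^ 2 + 2 * e1 * κ, g1 + 2 * e0 * κ,
      s4 + r * κ ^ 2 + g3 * κ, s3 + C * κ ^ 3 + e1 * κ ^ 2 + g2 * κ, s2 + e0 * κ ^ 2 + g1 * κ,
      s1 + g0 * κ, ?_, fun X U => ?_⟩
    · have h1 : 4 * r * (s4 + r * κ ^ 2 + g3 * κ) ≤ 0 := by
        have h2 : 4 * r * (s4 + r * κ ^ 2 + g3 * κ) =
            4 * r * s4 - g3 ^ 2 + (g3 + 2 * r * κ) ^ 2 := by ring
        rw [h2, hκr]
        have : 4 * r * s4 ≤ g3 ^ 2 := by exact_mod_cast hd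
        nlinarith
      by_contra hcon
      push Not at hcon
      have : 0 < 4 * r * (s4 + r * κ ^ 2 + g3 * κ) := by positivity
      linarith
    · rw [hV, vf_shift1, hκr', h5]
      push_cast
      rfl
  have hp2 := S.parab0 ρ κ hρ 0 0 s4' s3' s2' s1' s0 (by
    intro t
    have := hV1 0 t
    rw [zero_add] at this
    rw [add_comm (ρ * t ^ 2 : ℝ), this]
    unfold Vf
    ring)
  have hs4n : ¬ (0 : ℝ) < s4' := by
    push Not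
    exact_mod_cast hs4'
  have hp2' : (s4' : ℝ) = 0 ∧ (0 < (s3' : ℝ) ∨ (s3' : ℝ) = 0) := by
    rcases hp2 with h1 | ⟨_, h1 | ⟨_, h1 | ⟨h1, h2 | ⟨h2, _⟩⟩⟩⟩
    · exact absurd h1 (lt_irrefl _)
    · exact absurd h1 (lt_irrefl _)
    · exact absurd h1 hs4n
    · exact ⟨h1, Or.inl h2⟩
    · exact ⟨h1, Or.inr h2⟩
  obtain ⟨h4, h3⟩ := hp2'
  rcases h3 with h3 | h3
  · obtain ⟨η, hη, δ, hδ, hin⟩ := v4_stage3 C r e1' e0 g2' g1' g0 s3' s2' s1' s0 hC' hr' h3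
    apply valley_combine S ρ κ 0 (fun _ _ => True) (fun _ _ => trivial) hoff
    refine ⟨η, hη, δ, hδ, ?_⟩
    filter_upwards [hin] with U h1 X hX _
    rw [add_zero, hV1, h4]
    exact h1 X hX
  -- second shift
  set κ0 : ℚ := -g2' / (2 * r) with hκ0
  have hκ0r : g2' + 2 * r * κ0 = 0 := by
    rw [hκ0]
    field_simp
    ring
  have hκ0r' : (g2' : ℝ) + 2 * r * κ0 = 0 := by exact_mod_cast hκ0r
  obtain ⟨e0'', g1'', g0'', s2'', s1'', s0'', hV2⟩ :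
      ∃ e0'' g1'' g0'' s2'' s1'' s0'' : ℚ, ∀ X U : ℝ,
        G5 c (X + κ0 + κ * U + ρ * U ^ 2) U =
          Vf C r e1' e0'' 0 0 g1'' g0'' 0 0 0 s2'' s1'' s0'' X U := by
    refine ⟨e0 + 3 * C * κ0, g1' + 2 * e1' * κ0, g0 + 2 * e0 * κ0 + 3 * C * κ0 ^ 2,
      s2' + r * κ0 ^ 2 + g2' * κ0, s1' + e1' * κ0 ^ 2 + g1' * κ0,
      s0 + C * κ0 ^ 3 + e0 * κ0 ^ 2 + g0 * κ0, fun X U => ?_⟩
    rw [hV1, vf_shift0, hκ0r', h4, h3]
    push_cast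
    simp only [zero_mul, add_zero]
  obtain ⟨c1, hc1, hlow⟩ := exists_lower r s2'' ρ κ κ0 q p τ S.hq
  obtain ⟨η, hη, δ, hδ, hin⟩ := v4_stage4 C r e1' e0'' g1'' g0'' s2'' s1'' s0'' c1 hC' hr' hc1
  apply valley_combine S ρ κ κ0
    (fun x U => c1 ≤ (r : ℝ) * (x - ρ * U ^ 2 - κ * U - κ0) ^ 2 + s2'') ?_ hoff
  · refine ⟨η, hη, δ, hδ, ?_⟩
    filter_upwards [hin] with U h1 X hX hg
    rw [hV2]
    apply h1 X hX
    have e : X + κ0 + κ * U + ρ * U ^ 2 - ρ * U ^ 2 - κ * U - κ0 = X := by ring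
    rw [e] at hg
    exact hg
  · intro P hP
    apply hlow P
    set v : ℝ := (P.1 : ℝ) - ρ * (uu q p τ P) ^ 2 - κ * uu q p τ P - κ0 with hv
    obtain ⟨k, hk2, hkn, hk, _⟩ := S.parab ρ κ hρ P hP 2
      (fun i => if i = 0 then C * v ^ 3 + e0'' * v ^ 2 + g0'' * v + s0'' else
        if i = 1 then e1' * v ^ 2 + g1'' * v + s1'' else r * v ^ 2 + s2'') (by
      intro t
      have e1 : (ρ : ℝ) * t ^ 2 + κ * t + (P.1 - ρ * (uu q p τ P) ^ 2 - κ * uu q p τ P) =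
          v + κ0 + κ * t + ρ * t ^ 2 := by
        rw [hv]
        ring
      rw [e1, hV2]
      unfold Vf
      simp only [Finset.sum_range_succ, Finset.sum_range_zero]
      norm_num
      ring)
    have hk' : k = 2 := by omega
    subst hk'
    norm_num at hk
    exact hk

/-- **The valley at a zero of order five.** -/
theorem valley5 (S : Side α 5 h q p τ (G5 c)) (r ρ : ℚ) (hr : 0 < r) (hρ : 0 < ρ)
    (hA : c (4, 0) = 0) (hB : c (3, 1) = 0)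
    (hC : c (3, 0) = 0) (hE : c (2, 2) = 0) (hf4 : c (1, 4) = 0) (hE1 : c (2, 1) = r)
    (hf3 : c (1, 3) = -2 * r * ρ) (hk5 : c (0, 5) = r * ρ ^ 2) :
    SideThin α 5 h q p τ := by
  have hr' : (0 : ℝ) < r := by exact_mod_cast hr
  have hρ' : (0 : ℝ) < ρ := by exact_mod_cast hρ
  obtain ⟨e0, g2, g1, g0, s4, s3, s2, s1, s0, hV⟩ :
      ∃ e0 g2 g1 g0 s4 s3 s2 s1 s0 : ℚ, ∀ X U : ℝ,
        G5 c (X + ρ * U ^ 2) U = Vf 0 0 r e0 0 g2 g1 g0 0 s4 s3 s2 s1 s0 X U := by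
    refine ⟨c (2, 0), 2 * ρ * c (2, 0) + c (1, 2),
      c (1, 1), c (1, 0),
      ρ ^ 2 * c (2, 0) + ρ * c (1, 2) + c (0, 4), ρ * c (1, 1) + c (0, 3),
      ρ * c (1, 0) + c (0, 2), c (0, 1), c (0, 0), fun X U => ?_⟩
    rw [G5_eq, hA, hB, hC, hE, hf4, hE1, hf3, hk5]
    unfold Vf
    push_cast
    ring
  -- from an eventual bound to thinness
  have hthin : ∀ κ : ℝ, (∃ δ : ℝ, 0 < δ ∧ ∀ᶠ U : ℝ in atTop, ∀ X : ℝ,
      δ * (U * X ^ 2 + U ^ 2) ≤ G5 c (X + κ * U + ρ * U ^ 2) U) → SideThin α 5 h q p τ := by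
    rintro κ ⟨δ, hδ, hev⟩
    obtain ⟨U1, hU1⟩ := eventually_atTop.1 hev
    apply S.thin_of_curve' ρ κ 0 δ hδ (fun _ _ => True) (fun _ _ => trivial)
    have hlarge : Ev fun _ U => U1 ≤ U := ev_of_large ⟨_, fun U hU => hU⟩
    refine hlarge.mono ?_
    intro x U _ _ h1 _
    have h2 := hU1 U h1 (x - ρ * U ^ 2 - κ * U)
    have e : x - ρ * U ^ 2 - κ * U + κ * U + ρ * U ^ 2 = x := by ring
    rw [e] at h2
    rw [sub_zero]
    exact h2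
  have hp1 := S.parab0 ρ 0 hρ 0 0 s4 s3 s2 s1 s0 (by
    intro t
    have := hV 0 t
    rw [zero_add] at this
    rw [Rat.cast_zero, zero_mul, add_zero, this]
    unfold Vf
    ring)
  have hp1' : 0 < (s4 : ℝ) ∨ (s4 : ℝ) = 0 := by
    rcases hp1 with h1 | ⟨_, h1 | ⟨_, h1 | ⟨h1, _⟩⟩⟩
    · exact absurd h1 (lt_irrefl _)
    · exact absurd h1 (lt_irrefl _)
    · exact Or.inl h1
    · exact Or.inr h1
  rcases hp1' with h4 | h4
  · obtain ⟨δ, hδ, hin⟩ := v5_stage1 r e0 g2 g1 g0 s4 s3 s2 s1 s0 hr' h4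
    apply hthin 0
    refine ⟨δ, hδ, ?_⟩
    filter_upwards [hin] with U h1 X
    rw [zero_mul, add_zero, hV]
    exact h1 X
  by_cases hd : (g2 : ℝ) ^ 2 < 4 * r * s3
  · have hs3 : (0 : ℝ) < s3 := by
      by_contra hcon
      push Not at hcon
      nlinarith [sq_nonneg (g2 : ℝ)]
    obtain ⟨δ, hδ, hin⟩ := v5_stage2 r e0 g2 g1 g0 s3 s2 s1 s0 hr' hs3 hd
    apply hthin 0
    refine ⟨δ, hδ, ?_⟩
    filter_upwards [hin] with U h1 X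
    rw [zero_mul, add_zero, hV, h4]
    exact h1 X
  push Not at hd
  set κ : ℚ := -g2 / (2 * r) with hκ
  have hκr : g2 + 2 * r * κ = 0 := by
    rw [hκ]
    field_simp
    ring
  have hκr' : (g2 : ℝ) + 2 * r * κ = 0 := by exact_mod_cast hκr
  obtain ⟨g1', s3', s2', s1', hs3', hV1⟩ :
      ∃ g1' s3' s2' s1' : ℚ, s3' ≤ 0 ∧ ∀ X U : ℝ,
        G5 c (X + κ * U + ρ * U ^ 2) U = Vf 0 0 r e0 0 0 g1' g0 0 0 s3' s2' s1' s0 X U := by
    refine ⟨g1 + 2 * e0 * κ, s3 + r * κ ^ 2 + g2 * κ, s2 + e0 * κ ^ 2 + g1 * κ,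
      s1 + g0 * κ, ?_, fun X U => ?_⟩
    · have h1 : 4 * r * (s3 + r * κ ^ 2 + g2 * κ) ≤ 0 := by
        have h2 : 4 * r * (s3 + r * κ ^ 2 + g2 * κ) =
            4 * r * s3 - g2 ^ 2 + (g2 + 2 * r * κ) ^ 2 := by ring
        rw [h2, hκr]
        have : 4 * r * s3 ≤ g2 ^ 2 := by exact_mod_cast hd
        nlinarith
      by_contra hcon
      push Not at hcon
      have : 0 < 4 * r * (s3 + r * κ ^ 2 + g2 * κ) := by positivity
      linarith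
    · rw [hV, vf_shift1, h4]
      unfold Vf
      push_cast
      linear_combination (X * U ^ 2) * hκr'
  have hp2 := S.parab0 ρ κ hρ 0 0 0 s3' s2' s1' s0 (by
    intro t
    have := hV1 0 t
    rw [zero_add] at this
    rw [add_comm (ρ * t ^ 2 : ℝ), this]
    unfold Vf
    ring)
  have hs3n : ¬ (0 : ℝ) < s3' := by
    push Not
    exact_mod_cast hs3'
  have hp2' : (s3' : ℝ) = 0 ∧ 0 < (s2' : ℝ) := by
    rcases hp2 with h1 | ⟨_, h1 | ⟨_, h1 | ⟨_, h1 | ⟨h1, h2⟩⟩⟩⟩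
    · exact absurd h1 (lt_irrefl _)
    · exact absurd h1 (lt_irrefl _)
    · exact absurd h1 (lt_irrefl _)
    · exact absurd h1 hs3n
    · exact ⟨h1, h2⟩
  obtain ⟨δ, hδ, hin⟩ := v5_stage3 r e0 g1' g0 s2' s1' s0 hr' hp2'.2
  apply hthin κ
  refine ⟨δ, hδ, ?_⟩
  filter_upwards [hin] with U h1 X
  rw [hV1, hp2'.1]
  exact h1 X

end PP72
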